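import Pool.Agent.AcyK.Tuple

/-! # Tuple kernels for systems of sites

Sites are weighted unordered pairs `{x, y}` of a vertex set `U`; `o` is a set of sites of mass at
least `mu`.  From `AcyK.Tup.exists_kernel` we get a symmetric bounded kernel `t` on `o`, supported
on pairs of sites such that one of the cross pairs is a site again, with row sums at most `1` and
`⟨a, t a⟩ ≥ (∫ a)² / m(o) - ε' ∫ a`. -/

set_option autoImplicit false

namespace AcyS
open Finset AcyK.Tup

/-- the two orientations of a pair -/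
def ori {U : Type*} (b : Bool) (x : U × U) : U × U := if b then x.swap else x

theorem ori_ori {U : Type*} (b c : Bool) (x : U × U) : ori b (ori c x) = ori (xor b c) x := by
  cases b <;> cases c <;> simp [ori]

theorem ori_swap {U : Type*} (b : Bool) (x : U × U) : (ori b x).swap = ori (!b) x := by
  cases b <;> simp [ori]

set_option linter.unusedSectionVars false

section
variable {S U : Type*} [Fintype U] [DecidableEq U]

/-- a function on sites as a function on ordered pairs -/
noncomputable def push (o : Finset S) (p : S → U × U) (w : S → ℝ) (F : U × U) : ℝ :=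
  ∑ f ∈ o, ∑ b : Bool, if ori b (p f) = F then w f else 0

variable {o : Finset S} {p : S → U × U}

theorem push_sum (w : S → ℝ) (X : U × U → ℝ) :
    ∑ F, push o p w F * X F = ∑ f ∈ o, ∑ b : Bool, w f * X (ori b (p f)) := by
  simp only [push, sum_mul]
  rw [sum_comm]
  refine sum_congr rfl fun f _ => ?_
  rw [sum_comm]
  refine sum_congr rfl fun b _ => ?_
  simp only [ite_mul, zero_mul]
  rw [sum_ite_eq]
  simp

theorem push_swap (w : S → ℝ) (F : U × U) : push o p w F.swap = push o p w F := by
  unfold push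
  refine sum_congr rfl fun f _ => ?_
  rw [Fintype.sum_bool, Fintype.sum_bool, add_comm]
  have e : ∀ b : Bool, (ori b (p f) = F.swap) ↔ (ori (!b) (p f) = F) := by
    intro b
    rw [← ori_swap]
    constructor
    · intro h
      rw [h, Prod.swap_swap]
    · intro h
      rw [← h, Prod.swap_swap]
  simp only [e, Bool.not_true, Bool.not_false]

theorem exists_of_push {w : S → ℝ} {F : U × U} (h : push o p w F ≠ 0) :
    ∃ f ∈ o, ∃ b, ori b (p f) = F := by
  by_contra hcon
  push Not at hcon
  refine h (sum_eq_zero fun f hf => sum_eq_zero fun b _ => ?_)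
  rw [if_neg (hcon f hf b)]

theorem push_nonneg {w : S → ℝ} (hw : ∀ f ∈ o, 0 ≤ w f) (F : U × U) : 0 ≤ push o p w F :=
  sum_nonneg fun f hf => sum_nonneg fun b _ => by
    split_ifs
    · exact hw f hf
    · exact le_rfl

section inj
variable (hne : ∀ f ∈ o, (p f).1 ≠ (p f).2)
  (hinj : ∀ f ∈ o, ∀ g ∈ o, ∀ b, ori b (p g) = p f → g = f)
include hne hinj

theorem ori_inj {f g : S} (hf : f ∈ o) (hg : g ∈ o) {b c : Bool}
    (h : ori c (p g) = ori b (p f)) : g = f ∧ c = b := by
  have h1 : ori (xor b c) (p g) = p f := by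
    rw [← ori_ori, h, ori_ori]
    cases b <;> simp [ori]
  have h2 : g = f := hinj f hf g hg _ h1
  refine ⟨h2, ?_⟩
  subst h2
  by_contra hcb
  have h3 : xor b c = true := by
    cases b <;> cases c <;> simp_all
  rw [h3] at h1
  have h4 : (p g).swap = p g := by simpa [ori] using h1
  exact hne g hg (congrArg Prod.snd h4)

theorem push_at (w : S → ℝ) {f : S} (hf : f ∈ o) (b : Bool) :
    push o p w (ori b (p f)) = w f := by
  classical
  unfold push
  rw [sum_eq_single_of_mem f hf]
  · rw [sum_eq_single_of_mem b (mem_univ b)]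
    · rw [if_pos rfl]
    · intro c _ hc
      rw [if_neg]
      intro h
      exact hc (ori_inj hne hinj hf hf h).2
  · intro g hg hgf
    refine sum_eq_zero fun c _ => ?_
    rw [if_neg]
    intro h
    exact hgf (ori_inj hne hinj hf hg h).1

theorem push_le {w : S → ℝ} {c : ℝ} (hc : 0 ≤ c) (hw : ∀ f ∈ o, w f ≤ c) (F : U × U) :
    push o p w F ≤ c := by
  by_cases h : push o p w F = 0
  · rw [h]
    exact hc
  · obtain ⟨f, hf, b, hb⟩ := exists_of_push h
    rw [← hb, push_at hne hinj w hf b]
    exact hw f hf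

end inj

open Classical in
/-- **Tuple kernel for sites.** -/
theorem kernel_sites {j : ℕ} (hj : 2 ≤ j) {ε Q mu : ℝ} (hε : 0 < ε) (hmu : 0 < mu)
    {m : S → ℝ} (hm : ∀ f ∈ o, 0 ≤ m f) (hmo : mu ≤ ∑ f ∈ o, m f)
    (hQ : ∀ f ∈ o, m f * (Fintype.card U : ℝ) ^ 2 ≤ Q)
    (hne : ∀ f ∈ o, (p f).1 ≠ (p f).2)
    (hinj : ∀ f ∈ o, ∀ g ∈ o, ∀ b, ori b (p g) = p f → g = f)
    {L : S → S → Prop}
    (hL : ∀ f ∈ o, ∀ g ∈ o, ∀ h ∈ o, ∀ b c d : Bool,
      ori d (p h) = ((ori b (p f)).1, (ori c (p g)).2) → ¬ L f g) :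
    ∃ t : S → S → ℝ, (∀ f g, 0 ≤ t f g) ∧ (∀ f g, t f g ≤ bd j ε (Q / (2 * mu)) / mu) ∧
      (∀ f g, t f g = t g f) ∧ (∀ f g, t f g ≠ 0 → f ∈ o ∧ g ∈ o ∧ ¬ L f g) ∧
      (∀ f, ∑ g ∈ o, m g * t f g ≤ 1) ∧
      ∀ a : S → ℝ, (∀ f, 0 ≤ a f) → (∀ f, a f ≤ 1) →
        (∑ f ∈ o, m f * a f) ^ 2 / (∑ f ∈ o, m f)
          - (1 / (j - 1) + ε) * (∑ f ∈ o, m f * a f)
          ≤ ∑ f ∈ o, ∑ g ∈ o, m f * a f * t f g * (m g * a g) := by
  obtain ⟨mo, hmo'⟩ : ∃ mo, mo = ∑ f ∈ o, m f := ⟨_, rfl⟩
  rw [← hmo'] at hmo ⊢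
  have hmo0 : 0 < mo := hmu.trans_le hmo
  have hQ0 : 0 ≤ Q := by
    by_contra hneg
    push Not at hneg
    have : mo ≤ 0 := by
      rw [hmo']
      refine sum_nonpos fun f hf => ?_
      have h1 := hQ f hf
      by_contra h2
      push Not at h2
      have h3 : 0 ≤ m f * (Fintype.card U : ℝ) ^ 2 := by positivity
      linarith
    linarith
  let w : S → ℝ := fun f => m f / (2 * mo)
  let M : U → U → ℝ := fun u v => push o p w (u, v)
  have hMF : ∀ F : U × U, M F.1 F.2 = push o p w F := fun F => rfl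
  have hw0 : ∀ f ∈ o, 0 ≤ w f := fun f hf => div_nonneg (hm f hf) (by positivity)
  have hM0 : ∀ u v, 0 ≤ M u v := fun u v => push_nonneg hw0 _
  have hMs : ∀ u v, M u v = M v u := fun u v => push_swap w (v, u)
  have hM1 : ∑ u, ∑ v, M u v = 1 := by
    have h1 := push_sum (o := o) (p := p) w (fun _ => 1)
    simp only [mul_one, Fintype.sum_bool] at h1
    rw [← Fintype.sum_prod_type' (f := M)]
    have h2 : ∑ x : U × U, M x.1 x.2 = ∑ F, push o p w F := rfl
    rw [h2, h1, ← sum_add_distrib.symm]
    have h3 : ∀ f ∈ o, w f + w f = m f / mo := fun f _ => by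
      simp only [w]
      field_simp
      ring
    rw [← sum_add_distrib, sum_congr rfl h3, ← sum_div, ← hmo', div_self hmo0.ne']
  have hMQ : ∀ u v, M u v * (Fintype.card U : ℝ) ^ 2 ≤ Q / (2 * mu) := by
    intro u v
    by_cases h : push o p w (u, v) = 0
    · have h' : M u v = 0 := h
      rw [h', zero_mul]
      positivity
    · obtain ⟨f, hf, b, hb⟩ := exists_of_push h
      have h' : M u v = w f := by
        show push o p w (u, v) = w f
        rw [← hb]
        exact push_at hne hinj w hf b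
      rw [h']
      calc w f * (Fintype.card U : ℝ) ^ 2 = (m f * (Fintype.card U : ℝ) ^ 2) / (2 * mo) := by
            simp only [w]
            ring
        _ ≤ Q / (2 * mo) := by
            gcongr
            exact hQ f hf
        _ ≤ Q / (2 * mu) := by gcongr
  obtain ⟨J, J0, Jsym, Jsupp, Jle, Jrow, -, Jpos⟩ := exists_kernel hj hε hM0 hMs hM1 hMQ
  have hbd0 : 0 ≤ bd j ε (Q / (2 * mu)) := by
    unfold bd
    positivity
  have Jz : ∀ f ∈ o, ∀ g ∈ o, ∀ b c, (m f = 0 ∨ m g = 0) → J (ori b (p f)) (ori c (p g)) = 0 := by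
    intro f hf g hg b c h
    refine le_antisymm ?_ (J0 _ _)
    refine (Jle _ _).trans (le_of_eq ?_)
    rw [hMF, hMF, push_at hne hinj w hf b, push_at hne hinj w hg c]
    rcases h with h | h <;> simp [w, h]
  let K : S → S → ℝ := fun f g => ∑ b : Bool, ∑ c : Bool, J (ori b (p f)) (ori c (p g))
  have hK0 : ∀ f g, 0 ≤ K f g := fun f g => sum_nonneg fun b _ => sum_nonneg fun c _ => J0 _ _
  have hKs : ∀ f g, K f g = K g f := by
    intro f g
    simp only [K]
    rw [sum_comm]
    exact sum_congr rfl fun b _ => sum_congr rfl fun c _ => Jsym _ _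
  let t : S → S → ℝ := fun f g =>
    if f ∈ o ∧ g ∈ o ∧ 0 < m f ∧ 0 < m g then mo / (m f * m g) * K f g else 0
  have ht : ∀ f ∈ o, ∀ g ∈ o, m f * m g * t f g = mo * K f g := by
    intro f hf g hg
    by_cases h : 0 < m f ∧ 0 < m g
    · simp only [t, if_pos (⟨hf, hg, h.1, h.2⟩ : f ∈ o ∧ g ∈ o ∧ 0 < m f ∧ 0 < m g)]
      have := h.1.ne'
      have := h.2.ne'
      field_simp
    · have h1 : m f = 0 ∨ m g = 0 := by
        by_contra hcon
        push Not at hcon
        exact h ⟨lt_of_le_of_ne (hm f hf) (Ne.symm hcon.1), lt_of_le_of_ne (hm g hg) (Ne.symm hcon.2)⟩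
      have h2 : K f g = 0 := sum_eq_zero fun b _ => sum_eq_zero fun c _ => Jz f hf g hg b c h1
      rw [h2, mul_zero]
      rcases h1 with h1 | h1 <;> rw [h1] <;> ring
  refine ⟨t, ?_, ?_, ?_, ?_, ?_, ?_⟩
  · intro f g
    simp only [t]
    split_ifs with h
    · exact mul_nonneg (div_nonneg hmo0.le (mul_nonneg h.2.2.1.le h.2.2.2.le)) (hK0 f g)
    · exact le_rfl
  · intro f g
    simp only [t]
    split_ifs with h
    · obtain ⟨hf, hg, h1, h2⟩ := h
      have h3 : K f g ≤ bd j ε (Q / (2 * mu)) * (m f * m g) / mo ^ 2 := by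
        have h4 : ∀ b c : Bool, J (ori b (p f)) (ori c (p g))
            ≤ bd j ε (Q / (2 * mu)) * (m f * m g) / (4 * mo ^ 2) := by
          intro b c
          refine (Jle _ _).trans (le_of_eq ?_)
          rw [hMF, hMF, push_at hne hinj w hf b, push_at hne hinj w hg c]
          simp only [w]
          field_simp
          ring
        calc K f g ≤ ∑ b : Bool, ∑ c : Bool, bd j ε (Q / (2 * mu)) * (m f * m g) / (4 * mo ^ 2) :=
              sum_le_sum fun b _ => sum_le_sum fun c _ => h4 b c
          _ = bd j ε (Q / (2 * mu)) * (m f * m g) / mo ^ 2 := by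
              simp only [Fintype.sum_bool]
              field_simp
              ring
      calc mo / (m f * m g) * K f g
          ≤ mo / (m f * m g) * (bd j ε (Q / (2 * mu)) * (m f * m g) / mo ^ 2) := by
            gcongr
        _ = bd j ε (Q / (2 * mu)) / mo := by
            have := h1.ne'
            have := h2.ne'
            field_simp
        _ ≤ bd j ε (Q / (2 * mu)) / mu := by gcongr
    · positivity
  · intro f g
    simp only [t]
    by_cases h : f ∈ o ∧ g ∈ o ∧ 0 < m f ∧ 0 < m g
    · rw [if_pos h, if_pos ⟨h.2.1, h.1, h.2.2.2, h.2.2.1⟩, hKs f g, mul_comm (m f)]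
    · rw [if_neg h, if_neg fun h' => h ⟨h'.2.1, h'.1, h'.2.2.2, h'.2.2.1⟩]
  · intro f g hfg
    simp only [t] at hfg
    split_ifs at hfg with h
    · refine ⟨h.1, h.2.1, ?_⟩
      have h1 : K f g ≠ 0 := fun h' => hfg (by rw [h', mul_zero])
      obtain ⟨b, -, hb⟩ := exists_ne_zero_of_sum_ne_zero h1
      obtain ⟨c, -, hc⟩ := exists_ne_zero_of_sum_ne_zero hb
      obtain ⟨h2, -⟩ := Jsupp _ _ hc
      obtain ⟨k, hk, d, hd⟩ := exists_of_push h2
      exact hL f h.1 g h.2.1 k hk b c d hd
    · exact absurd rfl hfg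
  · intro f
    by_cases h : f ∈ o ∧ 0 < m f
    · obtain ⟨hf, h1⟩ := h
      have h2 : m f * ∑ g ∈ o, m g * t f g = mo * ∑ g ∈ o, K f g := by
        rw [mul_sum, mul_sum]
        refine sum_congr rfl fun g hg => ?_
        rw [← ht f hf g hg]
        ring
      have h3 : ∑ g ∈ o, K f g ≤ m f / mo := by
        calc ∑ g ∈ o, K f g = ∑ b : Bool, ∑ g ∈ o, ∑ c : Bool, 1 * J (ori b (p f)) (ori c (p g)) := by
              simp only [K, one_mul]
              rw [sum_comm]
          _ = ∑ b : Bool, ∑ G, push o p (fun _ => 1) G * J (ori b (p f)) G := by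
              refine sum_congr rfl fun b _ => ?_
              rw [push_sum]
          _ ≤ ∑ b : Bool, ∑ G, 1 * J (ori b (p f)) G := by
              refine sum_le_sum fun b _ => sum_le_sum fun G _ => ?_
              exact mul_le_mul_of_nonneg_right (push_le hne hinj zero_le_one (fun _ _ => le_rfl) G)
                (J0 _ _)
          _ ≤ ∑ b : Bool, w f := by
              refine sum_le_sum fun b _ => ?_
              simp only [one_mul]
              refine (Jrow _).trans (le_of_eq ?_)
              rw [hMF, push_at hne hinj w hf b]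
          _ = m f / mo := by
              simp only [Fintype.sum_bool, w]
              field_simp
              ring
      have h4 : m f * ∑ g ∈ o, m g * t f g ≤ m f * 1 := by
        rw [h2]
        calc mo * ∑ g ∈ o, K f g ≤ mo * (m f / mo) := by gcongr
          _ = m f * 1 := by field_simp
      exact le_of_mul_le_mul_left h4 h1
    · have h2 : ∑ g ∈ o, m g * t f g = 0 := by
        refine sum_eq_zero fun g _ => ?_
        simp only [t]
        rw [if_neg fun h' => h ⟨h'.1, h'.2.2.1⟩, mul_zero]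
      rw [h2]
      exact zero_le_one
  · intro a ha0 ha1
    have h1 := Jpos (push o p a) (push_nonneg fun f _ => ha0 f)
      (push_le hne hinj zero_le_one fun f _ => ha1 f)
    have h2 : ∑ F : U × U, M F.1 F.2 * push o p a F = (∑ f ∈ o, m f * a f) / mo := by
      have h3 : ∑ F : U × U, M F.1 F.2 * push o p a F
          = ∑ F : U × U, push o p w F * push o p a F := rfl
      rw [h3, push_sum, sum_div]
      refine sum_congr rfl fun f hf => ?_
      simp only [Fintype.sum_bool, push_at hne hinj a hf, w]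
      field_simp
      ring
    have h4 : ∑ F, ∑ G, push o p a F * J F G * push o p a G = ∑ f ∈ o, ∑ g ∈ o, a f * a g * K f g := by
      have h5 : ∀ F, ∑ G, push o p a F * J F G * push o p a G
          = push o p a F * ∑ g ∈ o, ∑ c : Bool, a g * J F (ori c (p g)) := by
        intro F
        rw [← push_sum, mul_sum]
        refine sum_congr rfl fun G _ => ?_
        ring
      simp only [h5]
      rw [push_sum]
      refine sum_congr rfl fun f _ => ?_
      calc ∑ b : Bool, a f * ∑ g ∈ o, ∑ c : Bool, a g * J (ori b (p f)) (ori c (p g))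
          = ∑ b : Bool, ∑ g ∈ o, ∑ c : Bool, a f * a g * J (ori b (p f)) (ori c (p g)) := by
            simp only [mul_sum, mul_assoc]
        _ = ∑ g ∈ o, ∑ b : Bool, ∑ c : Bool, a f * a g * J (ori b (p f)) (ori c (p g)) := sum_comm
        _ = ∑ g ∈ o, a f * a g * K f g := by simp only [K, mul_sum]
    rw [h2, h4] at h1
    have h6 : ∑ f ∈ o, ∑ g ∈ o, m f * a f * t f g * (m g * a g)
        = mo * ∑ f ∈ o, ∑ g ∈ o, a f * a g * K f g := by
      rw [mul_sum]
      refine sum_congr rfl fun f hf => ?_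
      rw [mul_sum]
      refine sum_congr rfl fun g hg => ?_
      have := ht f hf g hg
      calc m f * a f * t f g * (m g * a g) = (m f * m g * t f g) * (a f * a g) := by ring
        _ = mo * (a f * a g * K f g) := by
            rw [this]
            ring
    rw [h6]
    have h7 := mul_le_mul_of_nonneg_left h1 hmo0.le
    refine le_trans (le_of_eq ?_) h7
    field_simp

end
end AcyS
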