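import Mathlib

/-! # Energy of partitions: finite-sum lemmas for Theorem S (project MP_af9dfb, seminar page 3)

`F` is the type of sites, `m : F → ℝ` the weights (nonnegative), `E : Finset F` a world, a partition
of `E` is a labelling `p : F → K` (only its values on `E` matter), `ce m E p n f` is the average of
`n` over the cell of `f` (`0` if the cell has mass `0`). -/

set_option autoImplicit false
set_option linter.unusedSectionVars false

namespace Pool.Agent.AcyS.En

open Finset
open scoped Classical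

variable {F : Type*} [Fintype F] {K K' : Type*}

/-- mass of a set -/
noncomputable def ms (m : F → ℝ) (A : Finset F) : ℝ := ∑ f ∈ A, m f

/-- the cell of `f` -/
noncomputable def cell (E : Finset F) (p : F → K) (f : F) : Finset F := E.filter fun f' => p f' = p f

/-- cell average -/
noncomputable def ce (m : F → ℝ) (E : Finset F) (p : F → K) (n : F → ℝ) (f : F) : ℝ :=
  (∑ f' ∈ cell E p f, m f' * n f') / ms m (cell E p f)

/-- `p'` is finer than `p` on `E` -/
def Refines (E : Finset F) (p' : F → K') (p : F → K) : Prop :=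
  ∀ f ∈ E, ∀ f' ∈ E, p' f = p' f' → p f = p f'

/-- `g` is constant on the cells of `p` in `E` -/
def Meas (E : Finset F) (p : F → K) (g : F → ℝ) : Prop :=
  ∀ f ∈ E, ∀ f' ∈ E, p f = p f' → g f = g f'

/-- energy -/
noncomputable def en (m : F → ℝ) (E : Finset F) (p : F → K) (n : F → ℝ) : ℝ :=
  ∑ f ∈ E, m f * ce m E p n f ^ 2

/-- conditional covariance -/
noncomputable def cov (m : F → ℝ) (E : Finset F) (p : F → K) (n n' : F → ℝ) (f : F) : ℝ :=
  ce m E p (fun x => n x * n' x) f - ce m E p n f * ce m E p n' f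

section basic

variable {m : F → ℝ} {E : Finset F} {p : F → K} {p' : F → K'}

theorem mem_cell {f f' : F} : f' ∈ cell E p f ↔ f' ∈ E ∧ p f' = p f := by simp [cell]

theorem ms_nonneg (hm : ∀ f, 0 ≤ m f) (A : Finset F) : 0 ≤ ms m A := sum_nonneg fun f _ => hm f

theorem ms_mono (hm : ∀ f, 0 ≤ m f) {A B : Finset F} (h : A ⊆ B) : ms m A ≤ ms m B :=
  sum_le_sum_of_subset_of_nonneg h fun f _ _ => hm f

theorem le_ms (hm : ∀ f, 0 ≤ m f) {A : Finset F} {f : F} (h : f ∈ A) : m f ≤ ms m A :=
  single_le_sum (f := m) (fun f _ => hm f) h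

theorem cell_congr {f f' : F} (h : p f = p f') : cell E p f = cell E p f' := by
  unfold cell
  rw [h]

theorem ce_congr (n : F → ℝ) {f f' : F} (h : p f = p f') : ce m E p n f = ce m E p n f' := by
  unfold ce
  rw [cell_congr h]

theorem meas_ce (n : F → ℝ) : Meas E p (ce m E p n) := fun _ _ _ _ h => ce_congr n h

theorem Meas.refines {g : F → ℝ} (hg : Meas E p g) (h : Refines E p' p) : Meas E p' g :=
  fun f hf f' hf' e => hg f hf f' hf' (h f hf f' hf' e)

theorem Meas.mul {g g' : F → ℝ} (hg : Meas E p g) (hg' : Meas E p g') :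
    Meas E p (fun f => g f * g' f) := fun f hf f' hf' e => by
  simp only [hg f hf f' hf' e, hg' f hf f' hf' e]

theorem Meas.sub {g g' : F → ℝ} (hg : Meas E p g) (hg' : Meas E p g') :
    Meas E p (fun f => g f - g' f) := fun f hf f' hf' e => by
  simp only [hg f hf f' hf' e, hg' f hf f' hf' e]

theorem meas_cov (n n' : F → ℝ) : Meas E p (cov m E p n n') := fun f hf f' hf' e => by
  unfold cov
  rw [ce_congr _ e, ce_congr n e, ce_congr n' e]

theorem Refines.refl (E : Finset F) (p : F → K) : Refines E p p := fun _ _ _ _ h => h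

theorem Refines.trans {K'' : Type*} {p'' : F → K''} (h : Refines E p'' p') (h' : Refines E p' p) :
    Refines E p'' p := fun f hf f' hf' e => h' f hf f' hf' (h f hf f' hf' e)

theorem Refines.subset {S : Finset F} (h : Refines E p' p) (hS : S ⊆ E) : Refines S p' p :=
  fun f hf f' hf' e => h f (hS hf) f' (hS hf') e

/-- the projection property -/
theorem sum_mul_ce (hm : ∀ f, 0 ≤ m f) {g : F → ℝ} (hg : Meas E p g) (n : F → ℝ) :
    ∑ f ∈ E, m f * (g f * ce m E p n f) = ∑ f ∈ E, m f * (g f * n f) := by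
  have h1 : ∀ f ∈ E, m f * (g f * ce m E p n f) =
      ∑ f' ∈ E, (if p f' = p f then m f * m f' * g f * n f' / ms m (cell E p f) else 0) := by
    intro f _
    rw [← sum_filter]
    unfold ce
    rw [← mul_assoc, mul_div_assoc', mul_sum, sum_div]
    refine sum_congr rfl fun f' _ => ?_
    ring
  rw [sum_congr rfl h1, sum_comm]
  refine sum_congr rfl fun f' hf' => ?_
  have h2 : ∀ f ∈ E, (if p f' = p f then m f * m f' * g f * n f' / ms m (cell E p f) else 0) =
      (if p f = p f' then m f * (m f' * g f' * n f' / ms m (cell E p f')) else 0) := by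
    intro f hf
    by_cases h : p f' = p f
    · rw [if_pos h, if_pos h.symm, cell_congr (E := E) h.symm, hg f hf f' hf' h.symm]
      ring
    · rw [if_neg h, if_neg fun h' => h h'.symm]
  rw [sum_congr rfl h2, ← sum_filter, ← sum_mul]
  by_cases h0 : ms m (cell E p f') = 0
  · have : m f' = 0 := by
      refine le_antisymm ?_ (hm f')
      rw [← h0]
      exact le_ms hm (mem_cell.2 ⟨hf', rfl⟩)
    rw [this]
    ring
  · have : ∑ i ∈ E with p i = p f', m i = ms m (cell E p f') := rfl
    rw [this]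
    field_simp

theorem sum_ce_mul (hm : ∀ f, 0 ≤ m f) {g : F → ℝ} (hg : Meas E p g) (n : F → ℝ) :
    ∑ f ∈ E, m f * (ce m E p n f * g f) = ∑ f ∈ E, m f * (n f * g f) := by
  have := sum_mul_ce hm hg n
  simp only [mul_comm (g _)] at this
  exact this

/-- cell averages of nonnegative functions -/
theorem ce_nonneg (hm : ∀ f, 0 ≤ m f) {n : F → ℝ} (hn : ∀ f ∈ E, 0 ≤ n f) (f : F) :
    0 ≤ ce m E p n f :=
  div_nonneg (sum_nonneg fun f' hf' => mul_nonneg (hm f') (hn f' (mem_cell.1 hf').1))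
    (ms_nonneg hm _)

theorem ce_le (hm : ∀ f, 0 ≤ m f) {n : F → ℝ} {b : ℝ} (hb : 0 ≤ b) (hn : ∀ f ∈ E, n f ≤ b)
    (f : F) : ce m E p n f ≤ b := by
  unfold ce
  refine div_le_of_le_mul₀ (ms_nonneg hm _) hb ?_
  unfold ms
  rw [mul_sum]
  refine sum_le_sum fun f' hf' => ?_
  rw [mul_comm b]
  exact mul_le_mul_of_nonneg_left (hn f' (mem_cell.1 hf').1) (hm f')

theorem ce_add (n n' : F → ℝ) (f : F) :
    ce m E p (fun x => n x + n' x) f = ce m E p n f + ce m E p n' f := by
  unfold ce
  rw [← add_div, ← sum_add_distrib]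
  simp only [mul_add]

theorem ce_sub (n n' : F → ℝ) (f : F) :
    ce m E p (fun x => n x - n' x) f = ce m E p n f - ce m E p n' f := by
  unfold ce
  rw [← sub_div, ← sum_sub_distrib]
  simp only [mul_sub]

/-- averages only see the values on `E` -/
theorem ce_eq_of_eqOn {n n' : F → ℝ} (h : ∀ f ∈ E, n f = n' f) (f : F) :
    ce m E p n f = ce m E p n' f := by
  unfold ce
  rw [sum_congr rfl fun f' hf' => by rw [h f' (mem_cell.1 hf').1]]

/-- averaging a measurable function -/
theorem ce_of_meas {g : F → ℝ} (hg : Meas E p g) {f : F} (hf : f ∈ E)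
    (h0 : ms m (cell E p f) ≠ 0) : ce m E p g f = g f := by
  unfold ce
  rw [sum_congr rfl fun f' hf' => by rw [hg f' (mem_cell.1 hf').1 f hf (mem_cell.1 hf').2],
    ← sum_mul]
  change ms m (cell E p f) * g f / ms m (cell E p f) = g f
  field_simp

theorem ce_of_meas' {g : F → ℝ} (hm : ∀ f, 0 ≤ m f) (hg : Meas E p g) {f : F} (hf : f ∈ E) :
    m f * ce m E p g f = m f * g f := by
  by_cases h0 : ms m (cell E p f) = 0
  · have : m f = 0 := by
      refine le_antisymm ?_ (hm f)
      rw [← h0]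
      exact le_ms hm (mem_cell.2 ⟨hf, rfl⟩)
    rw [this]
    ring
  · rw [ce_of_meas hg hf h0]

/-- averages of a product with a measurable function -/
theorem ce_mul_meas {g : F → ℝ} (hg : Meas E p g) (n : F → ℝ) {f : F} (hf : f ∈ E) :
    ce m E p (fun x => g x * n x) f = g f * ce m E p n f := by
  unfold ce
  rw [mul_div_assoc', mul_sum]
  congr 1
  refine sum_congr rfl fun f' hf' => ?_
  change m f' * (g f' * n f') = _
  rw [hg f' (mem_cell.1 hf').1 f hf (mem_cell.1 hf').2]
  ring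

/-- tower property -/
theorem ce_ce (hm : ∀ f, 0 ≤ m f) (h : Refines E p' p) (n : F → ℝ) (f : F) :
    ce m E p (ce m E p' n) f = ce m E p n f := by
  unfold ce
  congr 1
  have hg : Meas E p' (fun x => if p x = p f then (1:ℝ) else 0) := by
    intro x hx y hy e
    simp only [h x hx y hy e]
  have h1 := sum_mul_ce hm hg n
  unfold cell
  rw [sum_filter, sum_filter]
  calc _ = ∑ x ∈ E, m x * ((if p x = p f then (1:ℝ) else 0) * ce m E p' n x) := by
        refine sum_congr rfl fun x _ => ?_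
        split_ifs <;> simp [ce, cell]
    _ = _ := h1
    _ = _ := by
        refine sum_congr rfl fun x _ => ?_
        split_ifs <;> simp

theorem en_nonneg (hm : ∀ f, 0 ≤ m f) (n : F → ℝ) : 0 ≤ en m E p n :=
  sum_nonneg fun f _ => mul_nonneg (hm f) (sq_nonneg _)

/-- energy increment -/
theorem en_sub (hm : ∀ f, 0 ≤ m f) (h : Refines E p' p) (n : F → ℝ) :
    en m E p' n - en m E p n = ∑ f ∈ E, m f * (ce m E p' n f - ce m E p n f) ^ 2 := by
  have h1 : ∑ f ∈ E, m f * (ce m E p n f * ce m E p' n f) = ∑ f ∈ E, m f * (ce m E p n f * n f) :=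
    sum_mul_ce hm ((meas_ce n).refines h) n
  have h2 : ∑ f ∈ E, m f * (ce m E p n f * ce m E p n f) = ∑ f ∈ E, m f * (ce m E p n f * n f) :=
    sum_mul_ce hm (meas_ce n) n
  have h3 : ∑ f ∈ E, m f * (ce m E p' n f - ce m E p n f) ^ 2 = en m E p' n -
      2 * ∑ f ∈ E, m f * (ce m E p n f * ce m E p' n f) +
      ∑ f ∈ E, m f * (ce m E p n f * ce m E p n f) := by
    unfold en
    rw [mul_sum, ← sum_sub_distrib, ← sum_add_distrib]
    exact sum_congr rfl fun f _ => by ring
  have h4 : en m E p n = ∑ f ∈ E, m f * (ce m E p n f * ce m E p n f) := by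
    unfold en
    exact sum_congr rfl fun f _ => by ring
  rw [h3, h1, h2, h4, h2]
  ring

theorem en_mono (hm : ∀ f, 0 ≤ m f) (h : Refines E p' p) (n : F → ℝ) :
    en m E p n ≤ en m E p' n := by
  have h1 := en_sub hm h n
  have h2 : 0 ≤ ∑ f ∈ E, m f * (ce m E p' n f - ce m E p n f) ^ 2 :=
    sum_nonneg fun f _ => mul_nonneg (hm f) (sq_nonneg _)
  linarith

/-- the variance identity -/
theorem sum_sub_en (hm : ∀ f, 0 ≤ m f) (n : F → ℝ) :
    ∑ f ∈ E, m f * n f ^ 2 - en m E p n = ∑ f ∈ E, m f * (n f - ce m E p n f) ^ 2 := by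
  have h2 : ∑ f ∈ E, m f * (ce m E p n f * ce m E p n f) = ∑ f ∈ E, m f * (ce m E p n f * n f) :=
    sum_mul_ce hm (meas_ce n) n
  have h3 : ∑ f ∈ E, m f * (n f - ce m E p n f) ^ 2 = ∑ f ∈ E, m f * n f ^ 2 -
      2 * ∑ f ∈ E, m f * (ce m E p n f * n f) +
      ∑ f ∈ E, m f * (ce m E p n f * ce m E p n f) := by
    rw [mul_sum, ← sum_sub_distrib, ← sum_add_distrib]
    exact sum_congr rfl fun f _ => by ring
  have h4 : en m E p n = ∑ f ∈ E, m f * (ce m E p n f * ce m E p n f) := by
    unfold en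
    exact sum_congr rfl fun f _ => by ring
  rw [h3, h4, h2]
  ring

theorem en_le (hm : ∀ f, 0 ≤ m f) (n : F → ℝ) : en m E p n ≤ ∑ f ∈ E, m f * n f ^ 2 := by
  have h1 := sum_sub_en (E := E) (p := p) hm n
  have h2 : 0 ≤ ∑ f ∈ E, m f * (n f - ce m E p n f) ^ 2 :=
    sum_nonneg fun f _ => mul_nonneg (hm f) (sq_nonneg _)
  linarith

/-- for an indicator the energy is at most the mass -/
theorem en_le_ms (hm : ∀ f, 0 ≤ m f) {n : F → ℝ} (h0 : ∀ f ∈ E, 0 ≤ n f) (h1 : ∀ f ∈ E, n f ≤ 1) :
    en m E p n ≤ ∑ f ∈ E, m f * n f := by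
  refine (en_le hm n).trans (sum_le_sum fun f hf => mul_le_mul_of_nonneg_left ?_ (hm f))
  nlinarith [h0 f hf, h1 f hf]

end basic

section joint

variable {m : F → ℝ} {E S : Finset F} {p : F → K} {p' : F → K'}

/-- `S` is a union of cells of `p'` in `E` -/
def Sat (E : Finset F) (p' : F → K') (S : Finset F) : Prop :=
  S ⊆ E ∧ ∀ f ∈ S, ∀ f' ∈ E, p' f = p' f' → f' ∈ S

theorem cell_sat (h : Sat E p' S) {f : F} (hf : f ∈ S) : cell S p' f = cell E p' f := by
  ext x
  simp only [mem_cell]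
  constructor
  · rintro ⟨h1, h2⟩
    exact ⟨h.1 h1, h2⟩
  · rintro ⟨h1, h2⟩
    exact ⟨h.2 f hf x h1 h2.symm, h2⟩

theorem ce_sat (h : Sat E p' S) (n : F → ℝ) {f : F} (hf : f ∈ S) :
    ce m S p' n f = ce m E p' n f := by
  unfold ce
  rw [cell_sat h hf]

theorem Sat.refines {K'' : Type*} {p'' : F → K''} (h : Sat E p' S) (hr : Refines E p'' p') :
    Sat E p'' S := ⟨h.1, fun f hf f' hf' e => h.2 f hf f' hf' (hr f (h.1 hf) f' hf' e)⟩

/-- **Joint cells.**  `S` is a union of `p'`-cells, the partition `J` of `S` is between `p` and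
`p'`: the average over the cells of `J` is close to the average over the cells of `p`. -/
theorem joint_le {L : Type*} {J : F → L} (hm : ∀ f, 0 ≤ m f) (hS : Sat E p' S)
    (h1 : Refines S p' J) (h2 : Refines S J p) (n : F → ℝ) :
    ∑ f ∈ S, m f * (ce m S J n f - ce m E p n f) ^ 2 ≤
      ∑ f ∈ S, m f * (ce m E p' n f - ce m E p n f) ^ 2 := by
  have hg : Meas S J (ce m E p n) := fun f hf f' hf' e => ce_congr n (h2 f hf f' hf' e)
  have e1 : ∀ f ∈ S, m f * (ce m S J n f - ce m E p n f) ^ 2 =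
      m f * (ce m S J (fun x => ce m E p' n x - ce m E p n x) f) ^ 2 := by
    intro f hf
    have h3 : ce m S J (ce m E p' n) f = ce m S J n f := by
      rw [ce_eq_of_eqOn (n' := ce m S p' n) (fun x hx => (ce_sat hS n hx).symm)]
      exact ce_ce hm h1 n f
    rw [ce_sub, h3]
    by_cases h0 : ms m (cell S J f) = 0
    · have : m f = 0 := by
        refine le_antisymm ?_ (hm f)
        rw [← h0]
        exact le_ms hm (mem_cell.2 ⟨hf, rfl⟩)
      rw [this]
      ring
    · rw [ce_of_meas hg hf h0]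
  rw [sum_congr rfl e1]
  exact en_le hm _

/-- comparison of the averages in two worlds -/
theorem two_worlds {L K₂ K₂' : Type*} {E₂ : Finset F} {p₂ : F → K₂} {p₂' : F → K₂'} {J : F → L}
    (hm : ∀ f, 0 ≤ m f) (hS : Sat E p' S) (h1 : Refines S p' J) (h2 : Refines S J p)
    (hS₂ : Sat E₂ p₂' S) (h1₂ : Refines S p₂' J) (h2₂ : Refines S J p₂) (n : F → ℝ) :
    ∑ f ∈ S, m f * (ce m E p n f - ce m E₂ p₂ n f) ^ 2 ≤
      2 * ∑ f ∈ S, m f * (ce m E p' n f - ce m E p n f) ^ 2 +
      2 * ∑ f ∈ S, m f * (ce m E₂ p₂' n f - ce m E₂ p₂ n f) ^ 2 := by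
  have a := joint_le hm hS h1 h2 n
  have b := joint_le hm hS₂ h1₂ h2₂ n
  have c : ∑ f ∈ S, m f * (ce m E p n f - ce m E₂ p₂ n f) ^ 2 ≤
      2 * ∑ f ∈ S, m f * (ce m S J n f - ce m E p n f) ^ 2 +
      2 * ∑ f ∈ S, m f * (ce m S J n f - ce m E₂ p₂ n f) ^ 2 := by
    rw [mul_sum, mul_sum, ← sum_add_distrib]
    refine sum_le_sum fun f _ => ?_
    have : (ce m E p n f - ce m E₂ p₂ n f) ^ 2 ≤ 2 * (ce m S J n f - ce m E p n f) ^ 2 +
        2 * (ce m S J n f - ce m E₂ p₂ n f) ^ 2 := by
      nlinarith [sq_nonneg ((ce m S J n f - ce m E p n f) + (ce m S J n f - ce m E₂ p₂ n f))]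
    nlinarith [mul_le_mul_of_nonneg_left this (hm f)]
  linarith

/-- the increment over a saturated set is part of the increment over the world -/
theorem incr_sat_le (hm : ∀ f, 0 ≤ m f) (hS : S ⊆ E) (h : Refines E p' p) (n : F → ℝ) :
    ∑ f ∈ S, m f * (ce m E p' n f - ce m E p n f) ^ 2 ≤ en m E p' n - en m E p n := by
  rw [en_sub hm h n]
  exact sum_le_sum_of_subset_of_nonneg hS fun f _ _ => mul_nonneg (hm f) (sq_nonneg _)

end joint

section add

variable {m : F → ℝ} {E : Finset F} {p : F → K} {p' : F → K'}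

theorem sum_cov_mul (hm : ∀ f, 0 ≤ m f) {g : F → ℝ} (hg : Meas E p g) (n n' : F → ℝ) :
    ∑ f ∈ E, m f * (g f * cov m E p n n' f) =
      ∑ f ∈ E, m f * (g f * ((n f - ce m E p n f) * (n' f - ce m E p n' f))) := by
  have h1 := sum_mul_ce hm hg (fun x => n x * n' x)
  have h2 := sum_mul_ce hm (hg.mul (meas_ce (m := m) n)) n'
  have h3 := sum_mul_ce hm (hg.mul (meas_ce (m := m) n')) n
  have e1 : ∑ f ∈ E, m f * (g f * cov m E p n n' f) =
      ∑ f ∈ E, m f * (g f * ce m E p (fun x => n x * n' x) f) -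
      ∑ f ∈ E, m f * (g f * ce m E p n f * ce m E p n' f) := by
    rw [← sum_sub_distrib]
    exact sum_congr rfl fun f _ => by unfold cov; ring
  have e2 : ∑ f ∈ E, m f * (g f * ((n f - ce m E p n f) * (n' f - ce m E p n' f))) =
      ∑ f ∈ E, m f * (g f * (n f * n' f)) - ∑ f ∈ E, m f * (g f * ce m E p n f * n' f) -
      ∑ f ∈ E, m f * (g f * ce m E p n' f * n f) +
      ∑ f ∈ E, m f * (g f * ce m E p n f * ce m E p n' f) := by
    rw [← sum_sub_distrib, ← sum_sub_distrib, ← sum_add_distrib]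
    exact sum_congr rfl fun f _ => by ring
  have e3 : ∑ f ∈ E, m f * (g f * ce m E p n' f * ce m E p n f) =
      ∑ f ∈ E, m f * (g f * ce m E p n f * ce m E p n' f) :=
    sum_congr rfl fun f _ => by ring
  rw [e1, e2, h1]
  rw [e3] at h3
  linarith

/-- **Adding a set.**  If `p'` refines `p` and the function `a` (with values in `[0,1]`) is
measurable for `p'`, the energy of `n` grows by at least four times the mean square of the
covariance of `n` and `a` on the cells of `p`. -/
theorem add_set (hm : ∀ f, 0 ≤ m f) (h : Refines E p' p) {a : F → ℝ} (ha : Meas E p' a)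
    (h0 : ∀ f ∈ E, 0 ≤ a f) (h1 : ∀ f ∈ E, a f ≤ 1) (n : F → ℝ) :
    4 * ∑ f ∈ E, m f * cov m E p n a f ^ 2 ≤ en m E p' n - en m E p n := by
  set c := cov m E p n a with hc
  have hcm : Meas E p c := meas_cov n a
  have e1 : ∑ f ∈ E, m f * c f ^ 2 =
      ∑ f ∈ E, m f * (c f * ((n f - ce m E p n f) * (a f - ce m E p a f))) := by
    rw [← sum_cov_mul hm hcm]
    exact sum_congr rfl fun f _ => by ring
  -- replace `n` by its `p'`-average
  have hg : Meas E p' (fun f => c f * (a f - ce m E p a f)) :=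
    (hcm.refines h).mul (ha.sub ((meas_ce a).refines h))
  have e2 := sum_mul_ce hm hg n
  have e3 : ∑ f ∈ E, m f * c f ^ 2 =
      ∑ f ∈ E, m f * ((ce m E p' n f - ce m E p n f) * (c f * (a f - ce m E p a f))) := by
    rw [e1]
    have : ∀ x : F → ℝ, ∑ f ∈ E, m f * (c f * ((x f - ce m E p n f) * (a f - ce m E p a f))) =
        ∑ f ∈ E, m f * (c f * (a f - ce m E p a f) * x f) -
        ∑ f ∈ E, m f * (c f * (a f - ce m E p a f) * ce m E p n f) := by
      intro x
      rw [← sum_sub_distrib]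
      exact sum_congr rfl fun f _ => by ring
    rw [this n, ← e2, ← this (ce m E p' n)]
    exact sum_congr rfl fun f _ => by ring
  -- the variance of `a`
  have e4 : ∑ f ∈ E, m f * (c f * (a f - ce m E p a f)) ^ 2 ≤
      (1 / 4) * ∑ f ∈ E, m f * c f ^ 2 := by
    have hcc : Meas E p (fun f => c f * c f) := hcm.mul hcm
    have k1 : ∑ f ∈ E, m f * (c f * (a f - ce m E p a f)) ^ 2 =
        ∑ f ∈ E, m f * ((c f * c f) * ((a f - ce m E p a f) * (a f - ce m E p a f))) := by
      exact sum_congr rfl fun f _ => by ring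
    rw [k1]
    have k2 := sum_mul_ce hm hcc (fun x => a x * a x)
    have k3 := sum_mul_ce hm (hcc.mul (meas_ce (m := m) a)) a
    have k4 : ∑ f ∈ E, m f * ((c f * c f) * ((a f - ce m E p a f) * (a f - ce m E p a f))) =
        ∑ f ∈ E, m f * ((c f * c f) * (a f * a f)) -
        ∑ f ∈ E, m f * (c f * c f * ce m E p a f * ce m E p a f) := by
      have k5 : ∑ f ∈ E, m f * ((c f * c f) * ((a f - ce m E p a f) * (a f - ce m E p a f))) =
        ∑ f ∈ E, m f * ((c f * c f) * (a f * a f)) -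
        2 * ∑ f ∈ E, m f * (c f * c f * ce m E p a f * a f) +
        ∑ f ∈ E, m f * (c f * c f * ce m E p a f * ce m E p a f) := by
        rw [mul_sum, ← sum_sub_distrib, ← sum_add_distrib]
        exact sum_congr rfl fun f _ => by ring
      rw [k5, ← k3]
      ring
    rw [k4]
    have k6 : ∑ f ∈ E, m f * ((c f * c f) * (a f * a f)) ≤
        ∑ f ∈ E, m f * ((c f * c f) * ce m E p a f) := by
      rw [sum_mul_ce hm hcc a]
      refine sum_le_sum fun f hf => mul_le_mul_of_nonneg_left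
        (mul_le_mul_of_nonneg_left ?_ (mul_self_nonneg _)) (hm f)
      nlinarith [h0 f hf, h1 f hf]
    have k7 : ∑ f ∈ E, m f * ((c f * c f) * ce m E p a f) -
        ∑ f ∈ E, m f * (c f * c f * ce m E p a f * ce m E p a f) ≤
        (1 / 4) * ∑ f ∈ E, m f * c f ^ 2 := by
      rw [mul_sum, ← sum_sub_distrib]
      refine sum_le_sum fun f _ => ?_
      have : m f * (c f * c f) * (ce m E p a f - ce m E p a f ^ 2) ≤
          m f * (c f * c f) * (1 / 4) := by
        refine mul_le_mul_of_nonneg_left ?_ (mul_nonneg (hm f) (mul_self_nonneg _))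
        nlinarith [sq_nonneg (ce m E p a f - 1 / 2)]
      calc _ = m f * (c f * c f) * (ce m E p a f - ce m E p a f ^ 2) := by ring
        _ ≤ _ := this
        _ = _ := by ring
    linarith
  have e5 := en_sub hm h n
  have e6 : ∑ f ∈ E, m f * ((ce m E p' n f - ce m E p n f) * (c f * (a f - ce m E p a f))) ≤
      (1 / 8) * ∑ f ∈ E, m f * (ce m E p' n f - ce m E p n f) ^ 2 +
      2 * ∑ f ∈ E, m f * (c f * (a f - ce m E p a f)) ^ 2 := by
    rw [mul_sum, mul_sum, ← sum_add_distrib]
    refine sum_le_sum fun f _ => ?_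
    have : (ce m E p' n f - ce m E p n f) * (c f * (a f - ce m E p a f)) ≤
        (1 / 8) * (ce m E p' n f - ce m E p n f) ^ 2 + 2 * (c f * (a f - ce m E p a f)) ^ 2 := by
      nlinarith [sq_nonneg ((ce m E p' n f - ce m E p n f) - 4 * (c f * (a f - ce m E p a f)))]
    nlinarith [mul_le_mul_of_nonneg_left this (hm f)]
  linarith

end add

end Pool.Agent.AcyS.En
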