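import Pool.Agent.AcyS.Defs
import Pool.Agent.AcyS.Energy

/-! # Averages over cells (row S1 of MP_af9dfb_S) -/

set_option autoImplicit false
set_option linter.unusedSectionVars false

namespace Pool.Agent.AcyS

open Finset
open scoped Classical

universe u

section Avg

variable {V : Type u} [Fintype V] {X : Sys V}

/-! Bridges to `Energy.lean`. -/

theorem cell_eq (E : Finset V) (φ : V → ℕ) (f : V) : Sys.cell E φ f = En.cell E φ f := by
  ext g
  simp [Sys.cell, En.cell]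

theorem avg_fun (E : Finset V) (φ : V → ℕ) (g : V → ℝ) : X.avg E φ g = En.ce X.m E φ g := by
  funext f
  unfold Sys.avg En.ce
  rw [cell_eq]
  rfl

theorem ref_iff {E : Finset V} {φ' φ : V → ℕ} : Ref E φ' φ ↔ En.Refines E φ' φ := Iff.rfl

theorem meas_iff {E : Finset V} {φ : V → ℕ} {w : V → ℝ} : Meas E φ w ↔ En.Meas E φ w := Iff.rfl

theorem sat_iff {E A : Finset V} {φ : V → ℕ} : Sat E φ A ↔ En.Sat E φ A := Iff.rfl

/-! Masses and integrals. -/

theorem ms_nonneg (hm : ∀ f, 0 ≤ X.m f) (A : Finset V) : 0 ≤ X.ms A :=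
  sum_nonneg fun f _ => hm f

theorem ms_mono (hm : ∀ f, 0 ≤ X.m f) {A B : Finset V} (h : A ⊆ B) : X.ms A ≤ X.ms B :=
  sum_le_sum_of_subset_of_nonneg h fun f _ _ => hm f

theorem ms_empty : X.ms ∅ = 0 := rfl

theorem ms_union_le (hm : ∀ f, 0 ≤ X.m f) (A B : Finset V) :
    X.ms (A ∪ B) ≤ X.ms A + X.ms B := by
  have h : X.ms (A ∪ B) + X.ms (A ∩ B) = X.ms A + X.ms B := by
    unfold Sys.ms
    exact sum_union_inter
  have := ms_nonneg hm (A ∩ B)
  linarith

/-- a set is split by another one -/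
theorem ms_inter_add_sdiff (A B : Finset V) : X.ms (A ∩ B) + X.ms (A \ B) = X.ms A := by
  have h : A ∩ B ∪ A \ B = A := by
    ext f
    simp only [mem_union, mem_inter, mem_sdiff]
    tauto
  have hd : Disjoint (A ∩ B) (A \ B) := by
    rw [disjoint_left]
    intro f hf hf'
    exact (mem_sdiff.1 hf').2 (mem_inter.1 hf).2
  unfold Sys.ms
  rw [← sum_union hd, h]

theorem mp_mono (hm : ∀ f, 0 ≤ X.m f) {p q : V → Prop} (h : ∀ f, p f → q f) :
    X.mp p ≤ X.mp q :=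
  ms_mono hm fun f hf => by
    rw [mem_filter] at hf ⊢
    exact ⟨hf.1, h f hf.2⟩

theorem mp_nonneg (hm : ∀ f, 0 ≤ X.m f) (p : V → Prop) : 0 ≤ X.mp p := ms_nonneg hm _

theorem mp_or_le (hm : ∀ f, 0 ≤ X.m f) (p q : V → Prop) :
    (X.mp fun f => p f ∨ q f) ≤ X.mp p + X.mp q := by
  refine le_trans (ms_mono hm ?_) (ms_union_le hm _ _)
  intro f hf
  simp only [mem_filter, mem_univ, true_and, mem_union] at hf ⊢
  exact hf

theorem mp_mem (A : Finset V) : (X.mp fun f => f ∈ A) = X.ms A := by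
  unfold Sys.mp
  congr 1
  ext f
  simp

theorem I_mono (hm : ∀ f, 0 ≤ X.m f) {A : Finset V} {g g' : V → ℝ} (h : ∀ f ∈ A, g f ≤ g' f) :
    X.I A g ≤ X.I A g' := sum_le_sum fun f hf => mul_le_mul_of_nonneg_left (h f hf) (hm f)

theorem I_congr {A : Finset V} {g g' : V → ℝ} (h : ∀ f ∈ A, g f = g' f) : X.I A g = X.I A g' :=
  sum_congr rfl fun f hf => by rw [h f hf]

theorem I_nonneg (hm : ∀ f, 0 ≤ X.m f) {A : Finset V} {g : V → ℝ} (h : ∀ f ∈ A, 0 ≤ g f) :
    0 ≤ X.I A g := sum_nonneg fun f hf => mul_nonneg (hm f) (h f hf)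

theorem I_add (A : Finset V) (g g' : V → ℝ) :
    (X.I A fun f => g f + g' f) = X.I A g + X.I A g' := by
  unfold Sys.I
  rw [← sum_add_distrib]
  exact sum_congr rfl fun f _ => by ring

theorem I_sub (A : Finset V) (g g' : V → ℝ) :
    (X.I A fun f => g f - g' f) = X.I A g - X.I A g' := by
  unfold Sys.I
  rw [← sum_sub_distrib]
  exact sum_congr rfl fun f _ => by ring

theorem I_neg (A : Finset V) (g : V → ℝ) : (X.I A fun f => - g f) = - X.I A g := by
  unfold Sys.I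
  rw [← sum_neg_distrib]
  exact sum_congr rfl fun f _ => by ring

theorem I_const_mul (A : Finset V) (c : ℝ) (g : V → ℝ) :
    (X.I A fun f => c * g f) = c * X.I A g := by
  unfold Sys.I
  rw [mul_sum]
  exact sum_congr rfl fun f _ => by ring

theorem I_mul_const (A : Finset V) (c : ℝ) (g : V → ℝ) :
    (X.I A fun f => g f * c) = X.I A g * c := by
  unfold Sys.I
  rw [sum_mul]
  exact sum_congr rfl fun f _ => by ring

theorem I_const (A : Finset V) (c : ℝ) : (X.I A fun _ => c) = c * X.ms A := by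
  unfold Sys.I Sys.ms
  rw [mul_sum]
  exact sum_congr rfl fun f _ => by ring

theorem I_one (A : Finset V) : (X.I A fun _ => 1) = X.ms A := by rw [I_const, one_mul]

theorem I_zero (A : Finset V) : (X.I A fun _ => 0) = 0 := by rw [I_const, zero_mul]

theorem I_sum {κ : Type*} (A : Finset V) (s : Finset κ) (g : κ → V → ℝ) :
    (X.I A fun f => ∑ i ∈ s, g i f) = ∑ i ∈ s, X.I A (g i) := by
  unfold Sys.I
  rw [sum_comm]
  exact sum_congr rfl fun f _ => mul_sum _ _ _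

theorem I_mono_set (hm : ∀ f, 0 ≤ X.m f) {A B : Finset V} (h : A ⊆ B) {g : V → ℝ}
    (hg : ∀ f ∈ B, 0 ≤ g f) : X.I A g ≤ X.I B g :=
  sum_le_sum_of_subset_of_nonneg h fun f hf _ => mul_nonneg (hm f) (hg f hf)

theorem I_le_mul_ms (hm : ∀ f, 0 ≤ X.m f) {A : Finset V} {g : V → ℝ} {c : ℝ}
    (h : ∀ f ∈ A, g f ≤ c) : X.I A g ≤ c * X.ms A := by
  rw [← I_const]
  exact I_mono hm h

theorem abs_I_le (hm : ∀ f, 0 ≤ X.m f) (A : Finset V) (g : V → ℝ) :
    |X.I A g| ≤ X.I A fun f => |g f| := by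
  unfold Sys.I
  refine (abs_sum_le_sum_abs _ _).trans (le_of_eq (sum_congr rfl fun f _ => ?_))
  rw [abs_mul, abs_of_nonneg (hm f)]

/-- integral of a function cut off by a property -/
theorem I_ite (A : Finset V) (p : V → Prop) (g : V → ℝ) :
    (X.I A fun f => if p f then g f else 0) = X.I (A.filter p) g := by
  unfold Sys.I
  rw [sum_filter]
  refine sum_congr rfl fun f _ => ?_
  by_cases h : p f
  · simp [h]
  · simp [h]

theorem I_n (A : Finset V) (P : V) : X.I A (X.n P) = X.ms (A ∩ X.nb P) := by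
  unfold Sys.n
  rw [I_ite A (fun f => X.lk f P) (fun _ => 1), I_one]
  congr 1
  ext f
  simp [Sys.nb]

theorem mem_nb {P f : V} : f ∈ X.nb P ↔ X.lk f P := by simp [Sys.nb]

theorem n_nonneg (P f : V) : 0 ≤ X.n P f := by
  unfold Sys.n
  split_ifs <;> norm_num

theorem n_le_one (P f : V) : X.n P f ≤ 1 := by
  unfold Sys.n
  split_ifs <;> norm_num

theorem n_sq (P f : V) : X.n P f ^ 2 = X.n P f := by
  unfold Sys.n
  split_ifs <;> norm_num

/-- integral over the neighbourhood -/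
theorem I_nb (P : V) (g : V → ℝ) : X.I (X.nb P) g = X.I univ fun f => X.n P f * g f := by
  have h : (fun f => X.n P f * g f) = fun f => if X.lk f P then g f else 0 := by
    funext f
    unfold Sys.n
    split_ifs <;> simp
  rw [h, I_ite univ (fun f => X.lk f P) g]
  rfl

/-- Fubini. -/
theorem I_comm (A B : Finset V) (F : V → V → ℝ) :
    X.I A (fun f => X.I B fun g => F f g) = X.I B (fun g => X.I A fun f => F f g) := by
  unfold Sys.I
  simp only [mul_sum]
  rw [sum_comm]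
  exact sum_congr rfl fun g _ => sum_congr rfl fun f _ => by ring

/-- Cauchy-Schwarz. -/
theorem I_cs (hm : ∀ f, 0 ≤ X.m f) (A : Finset V) (g g' : V → ℝ) :
    (X.I A fun f => g f * g' f) ^ 2 ≤ (X.I A fun f => g f ^ 2) * X.I A fun f => g' f ^ 2 := by
  have h := sum_mul_sq_le_sq_mul_sq A (fun f => Real.sqrt (X.m f) * g f)
    (fun f => Real.sqrt (X.m f) * g' f)
  have e1 : ∑ f ∈ A, Real.sqrt (X.m f) * g f * (Real.sqrt (X.m f) * g' f) =
      X.I A fun f => g f * g' f := sum_congr rfl fun f _ => by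
    calc _ = Real.sqrt (X.m f) * Real.sqrt (X.m f) * (g f * g' f) := by ring
      _ = _ := by rw [Real.mul_self_sqrt (hm f)]
  have e2 : ∀ x : V → ℝ, ∑ f ∈ A, (Real.sqrt (X.m f) * x f) ^ 2 = X.I A fun f => x f ^ 2 :=
    fun x => sum_congr rfl fun f _ => by rw [mul_pow, Real.sq_sqrt (hm f)]
  rw [e1, e2, e2] at h
  exact h

/-- Cauchy-Schwarz with absolute values. -/
theorem I_cs_abs (hm : ∀ f, 0 ≤ X.m f) (A : Finset V) (g : V → ℝ) :
    (X.I A fun f => |g f|) ≤ Real.sqrt (X.ms A * X.I A fun f => g f ^ 2) := by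
  refine Real.le_sqrt_of_sq_le ?_
  have h := I_cs hm A (fun _ => 1) (fun f => |g f|)
  simp only [one_mul, one_pow, sq_abs] at h
  rwa [I_one] at h

/-! Averages. -/

theorem avg_nonneg (hm : ∀ f, 0 ≤ X.m f) (E : Finset V) (φ : V → ℕ) {g : V → ℝ}
    (hg : ∀ f, 0 ≤ g f) (f : V) : 0 ≤ X.avg E φ g f := by
  rw [avg_fun]
  exact En.ce_nonneg hm (fun f _ => hg f) f

theorem avg_le_one (hm : ∀ f, 0 ≤ X.m f) (E : Finset V) (φ : V → ℕ) {g : V → ℝ}
    (hg : ∀ f, g f ≤ 1) (f : V) : X.avg E φ g f ≤ 1 := by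
  rw [avg_fun]
  exact En.ce_le hm zero_le_one (fun f _ => hg f) f

theorem avg_meas (E : Finset V) (φ : V → ℕ) (g : V → ℝ) : Meas E φ (X.avg E φ g) := by
  rw [avg_fun]
  exact En.meas_ce g

theorem avg_mul_ms (hm : ∀ f, 0 ≤ X.m f) (E : Finset V) (φ : V → ℕ) (g : V → ℝ) (f : V) :
    X.avg E φ g f * X.ms (Sys.cell E φ f) = X.I (Sys.cell E φ f) g := by
  unfold Sys.avg
  by_cases h0 : X.ms (Sys.cell E φ f) = 0
  · rw [h0, mul_zero]
    symm
    refine sum_eq_zero fun f' hf' => ?_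
    have h1 : X.m f' = 0 := by
      refine le_antisymm ?_ (hm f')
      rw [← h0]
      exact single_le_sum (f := X.m) (fun f _ => hm f) hf'
    rw [h1, zero_mul]
  · rw [div_mul_cancel₀ _ h0]

/-- (A1) -/
theorem I_mul_avg (hm : ∀ f, 0 ≤ X.m f) {E : Finset V} {φ : V → ℕ} {w : V → ℝ}
    (hw : Meas E φ w) (g : V → ℝ) :
    (X.I E fun f => w f * g f) = X.I E fun f => w f * X.avg E φ g f := by
  rw [avg_fun]
  exact (En.sum_mul_ce hm hw g).symm

/-- (A1) for the constant `1`. -/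
theorem I_avg (hm : ∀ f, 0 ≤ X.m f) (E : Finset V) (φ : V → ℕ) (g : V → ℝ) :
    X.I E (X.avg E φ g) = X.I E g := by
  have h := I_mul_avg hm (E := E) (φ := φ) (w := fun _ => 1) (fun _ _ _ _ _ => rfl) g
  simp only [one_mul] at h
  exact h.symm

/-- (A1) on a union of cells. -/
theorem I_sat_avg (hm : ∀ f, 0 ≤ X.m f) {E A : Finset V} {φ : V → ℕ} (hA : Sat E φ A)
    (g : V → ℝ) : X.I A g = X.I A (X.avg E φ g) := by
  have hw : Meas E φ fun f => if f ∈ A then 1 else 0 := by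
    intro f hf f' hf' e
    have : f ∈ A ↔ f' ∈ A := ⟨fun h => hA.2 f h f' hf' e, fun h => hA.2 f' h f hf e.symm⟩
    simp only [this]
  have key : ∀ x : V → ℝ, (X.I E fun f => (if f ∈ A then 1 else 0) * x f) = X.I A x := by
    intro x
    unfold Sys.I
    have : ∀ f ∈ E, X.m f * ((if f ∈ A then (1:ℝ) else 0) * x f) =
        if f ∈ A then X.m f * x f else 0 := by
      intro f _
      split_ifs <;> simp
    rw [sum_congr rfl this, ← sum_filter]
    refine sum_congr ?_ fun _ _ => rfl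
    ext f
    simp only [mem_filter]
    exact ⟨fun h => h.2, fun h => ⟨hA.1 h, h⟩⟩
  rw [← key g, ← key (X.avg E φ g)]
  exact I_mul_avg hm hw g

/-- (A2) -/
theorem avg_restrict {E A : Finset V} {φ : V → ℕ} (hA : Sat E φ A) (g : V → ℝ) {f : V}
    (hf : f ∈ A) : X.avg E φ g f = X.avg A φ g f := by
  rw [avg_fun, avg_fun]
  exact (En.ce_sat hA g hf).symm

/-- (A3) -/
theorem pyth (hm : ∀ f, 0 ≤ X.m f) {E : Finset V} {φ' φ : V → ℕ} (h : Ref E φ' φ) (g : V → ℝ) :
    (X.I E fun f => (X.avg E φ' g f - X.avg E φ g f) ^ 2) =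
      (X.I E fun f => X.avg E φ' g f ^ 2) - X.I E fun f => X.avg E φ g f ^ 2 := by
  rw [avg_fun, avg_fun]
  exact (En.en_sub hm h g).symm

theorem energy_mono (hm : ∀ f, 0 ≤ X.m f) {E : Finset V} {φ' φ : V → ℕ} (h : Ref E φ' φ)
    (g : V → ℝ) :
    (X.I E fun f => X.avg E φ g f ^ 2) ≤ X.I E fun f => X.avg E φ' g f ^ 2 := by
  rw [avg_fun, avg_fun]
  exact En.en_mono hm h g

theorem energy_le (hm : ∀ f, 0 ≤ X.m f) (E : Finset V) (φ : V → ℕ) {g : V → ℝ}
    (h0 : ∀ f, 0 ≤ g f) (h1 : ∀ f, g f ≤ 1) :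
    (X.I E fun f => X.avg E φ g f ^ 2) ≤ X.I E g := by
  rw [avg_fun]
  exact En.en_le_ms hm (fun f _ => h0 f) (fun f _ => h1 f)

/-- Tower property. -/
theorem avg_avg (hm : ∀ f, 0 ≤ X.m f) {E : Finset V} {φ' φ : V → ℕ} (h : Ref E φ' φ)
    (g : V → ℝ) (f : V) : X.avg E φ (X.avg E φ' g) f = X.avg E φ g f := by
  rw [avg_fun, avg_fun, avg_fun]
  exact En.ce_ce hm h g f

/-- The integral of the covariance. -/
theorem I_cov (hm : ∀ f, 0 ≤ X.m f) {E : Finset V} {φ : V → ℕ} {w : V → ℝ}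
    (hw : Meas E φ w) (Z Z' : V) :
    (X.I E fun f => w f * X.cov E φ Z Z' f) = X.I E fun f => w f *
      ((X.n Z f - X.avg E φ (X.n Z) f) * (X.n Z' f - X.avg E φ (X.n Z') f)) := by
  unfold Sys.cov
  rw [avg_fun, avg_fun, avg_fun]
  exact En.sum_cov_mul hm hw (X.n Z) (X.n Z')

/-- Markov: the set on which the average is large has small mass. -/
theorem ms_avg_large (hm : ∀ f, 0 ≤ X.m f) (E : Finset V) (φ : V → ℕ) {g : V → ℝ}
    (h0 : ∀ f, 0 ≤ g f) :
    X.ms (E.filter fun f => 1 / 2 ≤ X.avg E φ g f) ≤ 2 * X.I E g := by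
  have h1 : (1 / 2) * X.ms (E.filter fun f => 1 / 2 ≤ X.avg E φ g f) ≤
      X.I (E.filter fun f => 1 / 2 ≤ X.avg E φ g f) (X.avg E φ g) := by
    rw [← I_const]
    exact I_mono hm fun f hf => (mem_filter.1 hf).2
  have h2 : X.I (E.filter fun f => 1 / 2 ≤ X.avg E φ g f) (X.avg E φ g) ≤
      X.I E (X.avg E φ g) :=
    I_mono_set hm (filter_subset _ _) fun f _ => avg_nonneg hm E φ h0 f
  rw [I_avg hm] at h2
  linarith

end Avg

end Pool.Agent.AcyS
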