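import Pool.Agent.AcyS.Energy

/-! # One-sided regularity (project MP_af9dfb, seminar page 3)

A partition is given by a finite family `𝒜` of sets (`lab 𝒜 f` = the members containing `f`);
it has at most `2 ^ |𝒜|` cells. -/

set_option autoImplicit false
set_option linter.unusedSectionVars false

namespace Pool.Agent.AcyS.En

open Finset
open scoped Classical

variable {F : Type*} [Fintype F]

/-- indicator function of a set -/
noncomputable def ch (A : Finset F) (f : F) : ℝ := if f ∈ A then 1 else 0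

theorem ch_nonneg (A : Finset F) (f : F) : 0 ≤ ch A f := by
  unfold ch
  split_ifs <;> norm_num

theorem ch_le (A : Finset F) (f : F) : ch A f ≤ 1 := by
  unfold ch
  split_ifs <;> norm_num

theorem ch_mul_self (A : Finset F) (f : F) : ch A f * ch A f = ch A f := by
  unfold ch
  split_ifs <;> norm_num

/-- the partition generated by a finite family of sets -/
noncomputable def lab (𝒜 : Finset (Finset F)) (f : F) : Finset (Finset F) := 𝒜.filter (f ∈ ·)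

theorem lab_eq_iff {𝒜 : Finset (Finset F)} {f f' : F} :
    lab 𝒜 f = lab 𝒜 f' ↔ ∀ A ∈ 𝒜, (f ∈ A ↔ f' ∈ A) := by
  unfold lab
  constructor
  · intro h A hA
    have h1 := Finset.ext_iff.1 h A
    simp only [mem_filter, hA, true_and] at h1
    exact h1
  · intro h
    ext A
    simp only [mem_filter]
    constructor
    · rintro ⟨h1, h2⟩
      exact ⟨h1, (h A h1).1 h2⟩
    · rintro ⟨h1, h2⟩
      exact ⟨h1, (h A h1).2 h2⟩

theorem lab_refines {𝒜 𝒜' : Finset (Finset F)} (h : 𝒜 ⊆ 𝒜') (E : Finset F) :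
    Refines E (lab 𝒜') (lab 𝒜) := fun _ _ _ _ e =>
  lab_eq_iff.2 fun A hA => lab_eq_iff.1 e A (h hA)

theorem meas_lab {𝒜 : Finset (Finset F)} {A : Finset F} (h : A ∈ 𝒜) (E : Finset F) :
    Meas E (lab 𝒜) (ch A) := fun f _ f' _ e => by
  unfold ch
  simp only [lab_eq_iff.1 e A h]

/-- the member `A` cut down to `E` is a union of cells -/
theorem sat_lab {𝒜 : Finset (Finset F)} {A : Finset F} (h : A ∈ 𝒜) (E : Finset F) :
    Sat E (lab 𝒜) (E ∩ A) := by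
  refine ⟨inter_subset_left, fun f hf f' hf' e => ?_⟩
  rw [mem_inter] at hf ⊢
  exact ⟨hf', (lab_eq_iff.1 e A h).1 hf.2⟩

/-- number of cells -/
theorem card_labels (𝒜 : Finset (Finset F)) (E : Finset F) :
    (E.image (lab 𝒜)).card ≤ 2 ^ 𝒜.card := by
  rw [← card_powerset]
  refine card_le_card fun L hL => ?_
  obtain ⟨f, _, rfl⟩ := mem_image.1 hL
  exact mem_powerset.2 (filter_subset _ _)

section greedy

variable {ι : Type*} {m : F → ℝ}

/-- **Greedy one-sided regularity.** -/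
theorem exists_regular (hm : ∀ f, 0 ≤ m f) (W : Finset ι) {w : ι → ℝ} (hw : ∀ Z ∈ W, 0 ≤ w Z)
    (N : ι → Finset F) {ρ : ℝ} (hρ : 0 < ρ) (E : Finset F) (𝒜 : Finset (Finset F)) :
    ∃ 𝒵 : Finset ι, 𝒵 ⊆ W ∧ (𝒵.card : ℝ) * (4 * ρ) ≤ (∑ Z ∈ W, w Z) * ms m E ∧
      ∀ Z' ∈ W, ∑ Z ∈ W, w Z * ∑ f ∈ E, m f *
        cov m E (lab (𝒜 ∪ 𝒵.image N)) (ch (N Z)) (ch (N Z')) f ^ 2 ≤ ρ := by
  set Φ : Finset ι → ℝ := fun 𝒵 => ∑ Z ∈ W, w Z * en m E (lab (𝒜 ∪ 𝒵.image N)) (ch (N Z))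
    with hΦ
  have hΦ0 : ∀ 𝒵, 0 ≤ Φ 𝒵 := fun 𝒵 => sum_nonneg fun Z hZ => mul_nonneg (hw Z hZ) (en_nonneg hm _)
  have hΦ1 : ∀ 𝒵, Φ 𝒵 ≤ (∑ Z ∈ W, w Z) * ms m E := by
    intro 𝒵
    rw [sum_mul]
    refine sum_le_sum fun Z hZ => mul_le_mul_of_nonneg_left ?_ (hw Z hZ)
    refine (en_le_ms hm (fun f _ => ch_nonneg _ f) (fun f _ => ch_le _ f)).trans ?_
    unfold ms
    refine sum_le_sum fun f _ => ?_
    nlinarith [hm f, ch_le (N Z) f]
  obtain ⟨𝒵, h𝒵, hmax⟩ := exists_max_image W.powerset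
    (fun 𝒵 => Φ 𝒵 - 4 * ρ * (𝒵.card : ℝ)) ⟨∅, empty_mem_powerset _⟩
  rw [mem_powerset] at h𝒵
  have h0 := hmax ∅ (empty_mem_powerset _)
  simp only [card_empty, Nat.cast_zero, mul_zero, sub_zero] at h0
  refine ⟨𝒵, h𝒵, ?_, fun Z' hZ' => ?_⟩
  · linarith [hΦ0 ∅, hΦ1 𝒵]
  · have h1 := hmax (insert Z' 𝒵) (mem_powerset.2 (insert_subset hZ' h𝒵))
    have h2 : ((insert Z' 𝒵).card : ℝ) ≤ 𝒵.card + 1 := by
      exact_mod_cast card_insert_le _ _
    have h3 : Φ (insert Z' 𝒵) - Φ 𝒵 ≤ 4 * ρ := by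
      have h4 : 4 * ρ * ((insert Z' 𝒵).card : ℝ) ≤ 4 * ρ * (𝒵.card + 1) :=
        mul_le_mul_of_nonneg_left h2 (by linarith)
      linarith
    have h4 : 4 * ∑ Z ∈ W, w Z * ∑ f ∈ E, m f *
        cov m E (lab (𝒜 ∪ 𝒵.image N)) (ch (N Z)) (ch (N Z')) f ^ 2 ≤
        Φ (insert Z' 𝒵) - Φ 𝒵 := by
      rw [hΦ, ← sum_sub_distrib, mul_sum]
      refine sum_le_sum fun Z hZ => ?_
      have h5 : Refines E (lab (𝒜 ∪ (insert Z' 𝒵).image N)) (lab (𝒜 ∪ 𝒵.image N)) :=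
        lab_refines (union_subset_union_right (image_subset_image (subset_insert _ _))) E
      have h6 : Meas E (lab (𝒜 ∪ (insert Z' 𝒵).image N)) (ch (N Z')) :=
        meas_lab (mem_union_right _ (mem_image_of_mem _ (mem_insert_self _ _))) E
      have h7 := add_set hm h5 h6 (fun f _ => ch_nonneg _ f) (fun f _ => ch_le _ f) (ch (N Z))
      have h8 := mul_le_mul_of_nonneg_left h7 (hw Z hZ)
      linarith
    linarith

end greedy

section use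

variable {ι : Type*} {K : Type*} {m : F → ℝ}

/-- Cauchy-Schwarz for finite weighted sums -/
theorem sum_abs_le (hm : ∀ f, 0 ≤ m f) (E : Finset F) (x : F → ℝ) :
    ∑ f ∈ E, m f * |x f| ≤ Real.sqrt (ms m E * ∑ f ∈ E, m f * x f ^ 2) := by
  refine Real.le_sqrt_of_sq_le ?_
  have h := sum_mul_sq_le_sq_mul_sq E (fun f => Real.sqrt (m f)) (fun f => Real.sqrt (m f) * |x f|)
  have e1 : ∑ f ∈ E, Real.sqrt (m f) * (Real.sqrt (m f) * |x f|) = ∑ f ∈ E, m f * |x f| :=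
    sum_congr rfl fun f _ => by rw [← mul_assoc, Real.mul_self_sqrt (hm f)]
  have e2 : ∑ f ∈ E, Real.sqrt (m f) ^ 2 = ms m E :=
    sum_congr rfl fun f _ => Real.sq_sqrt (hm f)
  have e3 : ∑ f ∈ E, (Real.sqrt (m f) * |x f|) ^ 2 = ∑ f ∈ E, m f * x f ^ 2 :=
    sum_congr rfl fun f _ => by rw [mul_pow, Real.sq_sqrt (hm f), sq_abs]
  rw [e1, e2, e3] at h
  exact h

/-- from the mean square of the covariances to the mean of their absolute values -/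
theorem sum_abs_cov_le (hm : ∀ f, 0 ≤ m f) (W : Finset ι) {w : ι → ℝ} (hw : ∀ Z ∈ W, 0 ≤ w Z)
    (n : ι → F → ℝ) (E : Finset F) (p : F → K) {ρ : ℝ}
    (hreg : ∀ Z' ∈ W, ∑ Z ∈ W, w Z * ∑ f ∈ E, m f * cov m E p (n Z) (n Z') f ^ 2 ≤ ρ) :
    ∑ Z' ∈ W, w Z' * ∑ Z ∈ W, w Z * ∑ f ∈ E, m f * |cov m E p (n Z) (n Z') f| ≤
      (∑ Z ∈ W, w Z) * Real.sqrt ((∑ Z ∈ W, w Z) * ms m E * ρ) := by
  rw [sum_mul]
  refine sum_le_sum fun Z' hZ' => mul_le_mul_of_nonneg_left ?_ (hw Z' hZ')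
  have hW0 : 0 ≤ ∑ Z ∈ W, w Z := sum_nonneg hw
  have hE0 : 0 ≤ ms m E := ms_nonneg hm E
  refine Real.le_sqrt_of_sq_le ?_
  set y : ι → ℝ := fun Z => ∑ f ∈ E, m f * |cov m E p (n Z) (n Z') f| with hy
  set q : ι → ℝ := fun Z => ∑ f ∈ E, m f * cov m E p (n Z) (n Z') f ^ 2 with hq
  have hq0 : ∀ Z, 0 ≤ q Z := fun Z => sum_nonneg fun f _ => mul_nonneg (hm f) (sq_nonneg _)
  have hyq : ∀ Z, y Z ^ 2 ≤ ms m E * q Z := by
    intro Z
    have h1 := sum_abs_le hm E (fun f => cov m E p (n Z) (n Z') f)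
    have h2 : 0 ≤ y Z := sum_nonneg fun f _ => mul_nonneg (hm f) (abs_nonneg _)
    calc y Z ^ 2 ≤ Real.sqrt (ms m E * q Z) ^ 2 := pow_le_pow_left₀ h2 h1 2
      _ = _ := Real.sq_sqrt (mul_nonneg hE0 (hq0 Z))
  have h := sum_mul_sq_le_sq_mul_sq W (fun Z => Real.sqrt (w Z)) (fun Z => Real.sqrt (w Z) * y Z)
  have e1 : ∑ Z ∈ W, Real.sqrt (w Z) * (Real.sqrt (w Z) * y Z) = ∑ Z ∈ W, w Z * y Z :=
    sum_congr rfl fun Z hZ => by rw [← mul_assoc, Real.mul_self_sqrt (hw Z hZ)]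
  have e2 : ∑ Z ∈ W, Real.sqrt (w Z) ^ 2 = ∑ Z ∈ W, w Z :=
    sum_congr rfl fun Z hZ => Real.sq_sqrt (hw Z hZ)
  have e3 : ∑ Z ∈ W, (Real.sqrt (w Z) * y Z) ^ 2 = ∑ Z ∈ W, w Z * y Z ^ 2 :=
    sum_congr rfl fun Z hZ => by rw [mul_pow, Real.sq_sqrt (hw Z hZ)]
  rw [e1, e2, e3] at h
  refine h.trans ?_
  rw [mul_assoc (∑ Z ∈ W, w Z) (ms m E) ρ]
  refine mul_le_mul_of_nonneg_left ?_ hW0
  calc ∑ Z ∈ W, w Z * y Z ^ 2 ≤ ∑ Z ∈ W, ms m E * (w Z * q Z) := by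
        refine sum_le_sum fun Z hZ => ?_
        have := mul_le_mul_of_nonneg_left (hyq Z) (hw Z hZ)
        linarith
    _ = ms m E * ∑ Z ∈ W, w Z * q Z := by rw [mul_sum]
    _ ≤ ms m E * ρ := mul_le_mul_of_nonneg_left (hreg Z' hZ') hE0

/-- **Use of regularity (square version).** -/
theorem regular_sq (hm : ∀ f, 0 ≤ m f) (W : Finset ι) {w : ι → ℝ} (hw : ∀ Z ∈ W, 0 ≤ w Z)
    (n : ι → F → ℝ) (E : Finset F) (p : F → K) {ρ b : ℝ}
    (hreg : ∀ Z' ∈ W, ∑ Z ∈ W, w Z * ∑ f ∈ E, m f * cov m E p (n Z) (n Z') f ^ 2 ≤ ρ)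
    {u : ι → F → ℝ} (hu : ∀ Z ∈ W, Meas E p (u Z)) (hb : ∀ Z ∈ W, ∀ f ∈ E, |u Z f| ≤ b) :
    ∑ f ∈ E, m f * (∑ Z ∈ W, w Z * (u Z f * (ce m E p (n Z) f - n Z f))) ^ 2 ≤
      b ^ 2 * ((∑ Z ∈ W, w Z) * Real.sqrt ((∑ Z ∈ W, w Z) * ms m E * ρ)) := by
  refine le_trans ?_ (mul_le_mul_of_nonneg_left (sum_abs_cov_le hm W hw n E p hreg) (sq_nonneg b))
  have e1 : ∑ f ∈ E, m f * (∑ Z ∈ W, w Z * (u Z f * (ce m E p (n Z) f - n Z f))) ^ 2 =
      ∑ Z' ∈ W, w Z' * ∑ Z ∈ W, w Z * ∑ f ∈ E, m f * ((u Z f * u Z' f) *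
        cov m E p (n Z) (n Z') f) := by
    have k1 : ∀ f ∈ E, m f * (∑ Z ∈ W, w Z * (u Z f * (ce m E p (n Z) f - n Z f))) ^ 2 =
        ∑ Z' ∈ W, ∑ Z ∈ W, w Z' * (w Z * (m f * ((u Z f * u Z' f) *
          ((n Z f - ce m E p (n Z) f) * (n Z' f - ce m E p (n Z') f))))) := by
      intro f _
      rw [sq, sum_mul_sum, mul_sum, sum_comm]
      refine sum_congr rfl fun Z' _ => ?_
      rw [mul_sum]
      exact sum_congr rfl fun Z _ => by ring
    rw [sum_congr rfl k1, sum_comm]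
    refine sum_congr rfl fun Z' hZ' => ?_
    rw [sum_comm, mul_sum]
    refine sum_congr rfl fun Z hZ => ?_
    rw [sum_cov_mul hm ((hu Z hZ).mul (hu Z' hZ')), ← mul_sum, ← mul_sum]
  rw [e1, mul_sum]
  refine sum_le_sum fun Z' hZ' => ?_
  rw [mul_left_comm]
  refine mul_le_mul_of_nonneg_left ?_ (hw Z' hZ')
  rw [mul_sum]
  refine sum_le_sum fun Z hZ => ?_
  rw [mul_left_comm]
  refine mul_le_mul_of_nonneg_left ?_ (hw Z hZ)
  rw [mul_sum]
  refine sum_le_sum fun f hf => ?_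
  rw [mul_left_comm (b ^ 2)]
  refine mul_le_mul_of_nonneg_left ?_ (hm f)
  calc _ ≤ |u Z f * u Z' f * cov m E p (n Z) (n Z') f| := le_abs_self _
    _ = |u Z f| * |u Z' f| * |cov m E p (n Z) (n Z') f| := by rw [abs_mul, abs_mul]
    _ ≤ b * b * |cov m E p (n Z) (n Z') f| := by
        refine mul_le_mul_of_nonneg_right ?_ (abs_nonneg _)
        exact mul_le_mul (hb Z hZ f hf) (hb Z' hZ' f hf) (abs_nonneg _)
          ((abs_nonneg _).trans (hb Z hZ f hf))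
    _ = _ := by ring

/-- **Use of regularity (first moment).** -/
theorem regular_abs (hm : ∀ f, 0 ≤ m f) (W : Finset ι) {w : ι → ℝ} (hw : ∀ Z ∈ W, 0 ≤ w Z)
    (n : ι → F → ℝ) (E : Finset F) (p : F → K) {ρ b : ℝ}
    (hreg : ∀ Z' ∈ W, ∑ Z ∈ W, w Z * ∑ f ∈ E, m f * cov m E p (n Z) (n Z') f ^ 2 ≤ ρ)
    {u : ι → F → ℝ} (hu : ∀ Z ∈ W, Meas E p (u Z)) (hb : ∀ Z ∈ W, ∀ f ∈ E, |u Z f| ≤ b) :
    ∑ f ∈ E, m f * |∑ Z ∈ W, w Z * (u Z f * (ce m E p (n Z) f - n Z f))| ≤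
      Real.sqrt (ms m E * (b ^ 2 * ((∑ Z ∈ W, w Z) *
        Real.sqrt ((∑ Z ∈ W, w Z) * ms m E * ρ)))) := by
  refine (sum_abs_le hm E _).trans (Real.sqrt_le_sqrt ?_)
  exact mul_le_mul_of_nonneg_left (regular_sq hm W hw n E p hreg hu hb) (ms_nonneg hm E)

end use

section level

/-- increments over `k` levels of a sequence, summed over `N` starting levels -/
theorem sum_incr (a : ℕ → ℝ) {N k : ℕ} {B : ℝ} (hmono : ∀ i, a i ≤ a (i + 1)) (h0 : 0 ≤ a 0)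
    (hB : a (N + k) ≤ B) : ∑ s ∈ range N, (a (s + k) - a s) ≤ k * B := by
  have hm : Monotone a := monotone_nat_of_le_succ hmono
  have key : ∀ j, j ≤ k → ∑ s ∈ range N, (a (s + j) - a s) ≤ j * B := by
    intro j
    induction j with
    | zero => intro _; simp
    | succ j ih =>
      intro hj
      have h1 := ih (by omega)
      have h2 : ∑ s ∈ range N, (a (s + (j + 1)) - a s) =
          ∑ s ∈ range N, (a (s + j) - a s) + ∑ s ∈ range N, (a (s + 1 + j) - a (s + j)) := by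
        rw [← sum_add_distrib]
        refine sum_congr rfl fun s _ => ?_
        have : s + (j + 1) = s + 1 + j := by ring
        rw [this]
        ring
      have h3 : ∑ s ∈ range N, (a (s + 1 + j) - a (s + j)) = a (N + j) - a (0 + j) :=
        sum_range_sub (fun s => a (s + j)) N
      have h4 : a (N + j) ≤ B := (hm (by omega)).trans hB
      have h5 : 0 ≤ a (0 + j) := h0.trans (hm (by omega))
      rw [h2, h3]
      push_cast
      linarith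
  exact key k le_rfl

/-- only one level sees a given number -/
theorem sum_zone {τ : ℕ → ℝ} (hτ : ∀ i, τ (i + 1) ≤ τ i) (N : ℕ) (x : ℝ) :
    ∑ s ∈ range N, (if τ (s + 1) ≤ x ∧ x < τ s then (1:ℝ) else 0) ≤ 1 := by
  have hanti : Antitone τ := antitone_nat_of_succ_le hτ
  rw [← sum_filter, sum_const, nsmul_eq_mul, mul_one]
  have : ((range N).filter fun s => τ (s + 1) ≤ x ∧ x < τ s).card ≤ 1 := by
    rw [card_le_one]
    intro a ha b hb
    simp only [mem_filter] at ha hb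
    by_contra hne
    rcases lt_or_gt_of_ne hne with h | h
    · have := hanti (show a + 1 ≤ b by omega)
      linarith [ha.2.1, hb.2.2]
    · have := hanti (show b + 1 ≤ a by omega)
      linarith [hb.2.1, ha.2.2]
  exact_mod_cast this

end level

end Pool.Agent.AcyS.En
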