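import Pool.Agent.AcyS.Avg
import Pool.Agent.AcyS.Regular

/-! # Worlds, comparison of the levels, energies (row S4 of MP_af9dfb_S) -/

set_option autoImplicit false
set_option linter.unusedSectionVars false

namespace Pool.Agent.AcyS

open Finset
open scoped Classical

universe u

variable {V : Type u} [Fintype V] {D : Ctx V}

namespace Ctx

/-! ## Versions which only need the hypotheses on the system and on the levels -/

theorem cp_mem_E {c f : V} : f ∈ D.E c ↔ D.X.lk f c ∧ f ∈ D.ok := by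
  unfold Ctx.E
  rw [mem_inter, mem_nb]

theorem cp_ms_E_le (hX : D.X.Ok D.p.H) (c : V) : D.X.ms (D.E c) ≤ D.p.H :=
  (ms_mono hX.m_nonneg inter_subset_left).trans (hX.deg c)

theorem cp_card_E (hX : D.X.Ok D.p.H) (f : V) :
    (D.CC.filter fun c => f ∈ D.E c).card ≤ D.p.B0 := by
  by_cases hf : f ∈ D.ok
  · have h1 : (D.CC ∩ D.X.nb f).card ≤ D.p.B0 := by
      unfold Ctx.ok at hf
      exact (mem_filter.1 hf).2
    refine (card_le_card fun c hc => ?_).trans h1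
    rw [mem_filter, cp_mem_E] at hc
    rw [mem_inter, mem_nb]
    exact ⟨hc.1, hX.symm _ _ hc.2.1⟩
  · have : (D.CC.filter fun c => f ∈ D.E c) = ∅ := by
      rw [filter_eq_empty_iff]
      intro c _ h
      exact hf (cp_mem_E.1 h).2
    rw [this, card_empty]
    exact Nat.zero_le _

/-- sum over the worlds of an integral -/
theorem cp_sum_I_E (hX : D.X.Ok D.p.H) (A : Finset V) {g : V → ℝ} (hg : ∀ f, 0 ≤ g f) :
    ∑ c ∈ D.CC, D.X.I (D.E c ∩ A) g ≤ D.p.B0 * D.X.I A g := by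
  have h1 : ∀ c ∈ D.CC, D.X.I (D.E c ∩ A) g =
      ∑ f ∈ A, if f ∈ D.E c then D.X.m f * g f else 0 := by
    intro c _
    unfold Sys.I
    rw [← sum_filter]
    refine sum_congr ?_ fun _ _ => rfl
    ext f
    simp only [mem_inter, mem_filter]
    exact and_comm
  rw [sum_congr rfl h1, sum_comm]
  unfold Sys.I
  rw [mul_sum]
  refine sum_le_sum fun f _ => ?_
  rw [← sum_filter, sum_const, nsmul_eq_mul]
  refine mul_le_mul_of_nonneg_right ?_ (mul_nonneg (hX.m_nonneg f) (hg f))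
  exact_mod_cast cp_card_E hX f

theorem cp_sum_ms_E (hX : D.X.Ok D.p.H) (A : Finset V) :
    ∑ c ∈ D.CC, D.X.ms (D.E c ∩ A) ≤ D.p.B0 * D.X.ms A := by
  have h := cp_sum_I_E hX A (g := fun _ => 1) (fun _ => zero_le_one)
  simp only [I_one] at h
  exact h

theorem cp_th_nonneg (hX : D.X.Ok D.p.H) (r : ℕ) (c Z f : V) : 0 ≤ D.th r c Z f :=
  avg_nonneg hX.m_nonneg _ _ (fun f => n_nonneg Z f) f

theorem cp_th_le_one (hX : D.X.Ok D.p.H) (r : ℕ) (c Z f : V) : D.th r c Z f ≤ 1 :=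
  avg_le_one hX.m_nonneg _ _ (fun f => n_le_one Z f) f

theorem cp_ref (hL : D.LevOK) {a b : ℕ} (hab : a ≤ b) (hb : b ≤ D.p.S + 4) {c : V}
    (hc : c ∈ D.CC) : Ref (D.E c) (D.φ b c) (D.φ a c) := by
  induction b, hab using Nat.le_induction with
  | base => exact fun _ _ _ _ h => h
  | succ b hab ih =>
    intro f hf g hg h
    exact ih (by omega) f hf g hg (hL.ref b (by omega) c hc f hf g hg h)

/-- the increment between two levels -/
theorem cp_incr (hX : D.X.Ok D.p.H) (hL : D.LevOK) {a b : ℕ} (hab : a ≤ b)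
    (hb : b ≤ D.p.S + 4) {c : V} (hc : c ∈ D.CC) (Z : V) :
    (D.X.I (D.E c) fun f => (D.th b c Z f - D.th a c Z f) ^ 2) =
      (D.X.I (D.E c) fun f => D.th b c Z f ^ 2) - D.X.I (D.E c) fun f => D.th a c Z f ^ 2 :=
  pyth hX.m_nonneg (cp_ref hL hab hb hc) (D.X.n Z)

theorem cp_en_mono (hX : D.X.Ok D.p.H) (hL : D.LevOK) {a b : ℕ} (hab : a ≤ b)
    (hb : b ≤ D.p.S + 4) {c : V} (hc : c ∈ D.CC) (Z : V) :
    (D.X.I (D.E c) fun f => D.th a c Z f ^ 2) ≤ D.X.I (D.E c) fun f => D.th b c Z f ^ 2 :=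
  energy_mono hX.m_nonneg (cp_ref hL hab hb hc) (D.X.n Z)

theorem cp_en_le (hX : D.X.Ok D.p.H) (r : ℕ) (c Z : V) :
    (D.X.I (D.E c) fun f => D.th r c Z f ^ 2) ≤ D.X.ms (D.E c ∩ D.X.nb Z) := by
  rw [← I_n]
  exact energy_le hX.m_nonneg _ _ (fun f => n_nonneg Z f) (fun f => n_le_one Z f)

theorem cp_part (hX : D.X.Ok D.p.H) (hL : D.LevOK) {a b a' b' : ℕ} (ha : a' ≤ a) (hab : a ≤ b)
    (hb : b ≤ b') (hb' : b' ≤ D.p.S + 4) {c : V} (hc : c ∈ D.CC) (Z : V) :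
    (D.X.I (D.E c) fun f => (D.th b c Z f - D.th a c Z f) ^ 2) ≤
      D.X.I (D.E c) fun f => (D.th b' c Z f - D.th a' c Z f) ^ 2 := by
  rw [cp_incr hX hL hab (by omega) hc Z, cp_incr hX hL (show a' ≤ b' by omega) hb' hc Z]
  have h1 := cp_en_mono hX hL ha (by omega) hc Z
  have h2 := cp_en_mono hX hL hb hb' hc Z
  linarith

/-- total mass of the couples (site of a world, neighbour) -/
theorem cp_total (hX : D.X.Ok D.p.H) (c : V) :
    (D.X.I univ fun Z => D.X.ms (D.E c ∩ D.X.nb Z)) ≤ D.p.H ^ 2 := by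
  have h1 : (D.X.I univ fun Z => D.X.ms (D.E c ∩ D.X.nb Z)) =
      D.X.I (D.E c) fun f => D.X.ms (D.X.nb f) := by
    have e1 : (fun Z => D.X.ms (D.E c ∩ D.X.nb Z)) = fun Z => D.X.I (D.E c) fun f => D.X.n Z f := by
      funext Z
      rw [I_n]
    rw [e1, I_comm]
    refine I_congr fun f _ => ?_
    have e2 : (fun Z => D.X.n Z f) = D.X.n f := by
      funext Z
      unfold Sys.n
      have : D.X.lk f Z ↔ D.X.lk Z f := ⟨hX.symm _ _, hX.symm _ _⟩
      simp only [this]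
    rw [e2, I_n, univ_inter]
  have hH : 0 ≤ D.p.H := zero_le_one.trans hX.one_le
  rw [h1]
  calc _ ≤ D.p.H * D.X.ms (D.E c) := I_le_mul_ms hX.m_nonneg fun f _ => hX.deg f
    _ ≤ D.p.H * D.p.H := mul_le_mul_of_nonneg_left (cp_ms_E_le hX c) hH
    _ = _ := by ring

/-! ## The rows of the skeleton -/

theorem ms_E_le (hD : D.Ok) (c : V) : D.X.ms (D.E c) ≤ D.p.H := cp_ms_E_le hD.X c

/-- (W1) -/
theorem sum_ms_E (hD : D.Ok) (A : Finset V) :
    ∑ c ∈ D.CC, D.X.ms (D.E c ∩ A) ≤ D.p.B0 * D.X.ms A := cp_sum_ms_E hD.X A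

theorem card_E (hD : D.Ok) (f : V) : (D.CC.filter fun c => f ∈ D.E c).card ≤ D.p.B0 :=
  cp_card_E hD.X f

theorem card_R (hD : D.Ok) (Z : V) : ((D.R Z).card : ℝ) ≤ D.RR := by
  have ht := hD.tau0 D.s
  unfold Ctx.RR
  rw [le_div_iff₀ ht]
  calc ((D.R Z).card : ℝ) * D.p.tau D.s ≤ ∑ c ∈ D.R Z, D.X.ms (D.E c ∩ D.X.nb Z) := by
        rw [← nsmul_eq_mul]
        exact card_nsmul_le_sum _ _ _ fun c hc => (mem_filter.1 hc).2
    _ ≤ ∑ c ∈ D.CC, D.X.ms (D.E c ∩ D.X.nb Z) :=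
        sum_le_sum_of_subset_of_nonneg (filter_subset _ _)
          fun c _ _ => ms_nonneg hD.X.m_nonneg _
    _ ≤ D.p.B0 * D.X.ms (D.X.nb Z) := sum_ms_E hD _
    _ ≤ D.p.B0 * D.p.H := mul_le_mul_of_nonneg_left (hD.X.deg Z) (Nat.cast_nonneg _)

theorem th_nonneg (hD : D.Ok) (r : ℕ) (c Z f : V) : 0 ≤ D.th r c Z f := cp_th_nonneg hD.X r c Z f

theorem th_le_one (hD : D.Ok) (r : ℕ) (c Z f : V) : D.th r c Z f ≤ 1 := cp_th_le_one hD.X r c Z f

theorem ref_of_le (hD : D.Ok) {a b : ℕ} (hab : a ≤ b) (hb : b ≤ D.p.S + 4) {c : V}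
    (hc : c ∈ D.CC) : Ref (D.E c) (D.φ b c) (D.φ a c) := cp_ref hD.lev hab hb hc

/-- (P2') -/
theorem tr_of_le (hD : D.Ok) {a r : ℕ} (har : a ≤ r) (hr : r < D.p.S + 4) {c c' : V}
    (hc : c ∈ D.CC) (hc' : c' ∈ D.CC) (hov : D.p.del r ≤ D.ov c c') {f g : V} (hf : f ∈ D.E c)
    (hg : g ∈ D.E c) (h : D.φ (r + 1) c f = D.φ (r + 1) c g) :
    (f ∈ D.E c' ↔ g ∈ D.E c') ∧ (f ∈ D.E c' → D.φ a c' f = D.φ a c' g) := by
  have h1 := hD.lev.tr r hr c hc c' hc' hov f hf g hg h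
  refine ⟨h1.1, fun hf' => ?_⟩
  exact ref_of_le hD har hr.le hc' f hf' g (h1.1.1 hf') (h1.2 hf')

/-- Partial increments are bounded by the total increment. -/
theorem inc_part (hD : D.Ok) (Z : V) {a b : ℕ} (ha : D.s ≤ a) (hab : a ≤ b) (hb : b ≤ D.s + 4) :
    ∑ c ∈ D.CC, (D.X.I (D.E c) fun f => (D.th b c Z f - D.th a c Z f) ^ 2) ≤ D.inc Z := by
  have hs := hD.s_lt
  exact sum_le_sum fun c hc => cp_part hD.X hD.lev ha hab hb (by omega) hc Z

theorem ic_part (hD : D.Ok) {c : V} (hc : c ∈ D.CC) {a b : ℕ} (ha : D.s ≤ a) (hab : a ≤ b)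
    (hb : b ≤ D.s + 4) :
    (D.X.I univ fun Z => D.X.I (D.E c) fun f => (D.th b c Z f - D.th a c Z f) ^ 2) ≤
      D.ic c := by
  have hs := hD.s_lt
  exact I_mono hD.X.m_nonneg fun Z _ => cp_part hD.X hD.lev ha hab hb (by omega) hc Z

theorem cp_ov_comm (c c' : V) : D.ov c c' = D.ov c' c := by
  unfold Ctx.ov
  rw [inter_comm]

theorem cp_del_anti (hD : D.Ok) {a b : ℕ} (h : a ≤ b) : D.p.del b ≤ D.p.del a :=
  antitone_nat_of_succ_le hD.del1 h

/-- The intersection of two worlds with large overlap is a union of cells. -/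
theorem cp_sat (hD : D.Ok) {r : ℕ} (hr : D.s + 2 ≤ r) (hr' : r ≤ D.s + 4) {c c' : V}
    (hc : c ∈ D.CC) (hc' : c' ∈ D.CC) (hov : D.p.del (D.s + 1) ≤ D.ov c c') :
    Sat (D.E c) (D.φ r c) (D.E c ∩ D.E c') := by
  have hs := hD.s_lt
  refine ⟨inter_subset_left, fun f hf g hg e => ?_⟩
  rw [mem_inter] at hf ⊢
  have e' : D.φ (D.s + 1 + 1) c f = D.φ (D.s + 1 + 1) c g :=
    ref_of_le hD (show D.s + 1 + 1 ≤ r by omega) (by omega) hc f hf.1 g hg e
  have h1 := hD.lev.tr (D.s + 1) (by omega) c hc c' hc' hov f hf.1 g hg e'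
  exact ⟨hg, h1.1.1 hf.2⟩

/-- The main comparison: between the level `s + 3` of `c'` and the level `s + 4` of `c`. -/
theorem cp_mid (hD : D.Ok) (Z : V) {c c' : V} (hc : c ∈ D.CC) (hc' : c' ∈ D.CC)
    (hov : D.p.del (D.s + 1) ≤ D.ov c c') :
    (D.X.I (D.E c ∩ D.E c') fun f => (D.th (D.s + 4) c Z f - D.th (D.s + 3) c' Z f) ^ 2) ≤
      D.X.I (D.E c ∩ D.E c') fun f => (D.th (D.s + 4) c Z f - D.th (D.s + 2) c Z f) ^ 2 := by
  have hs := hD.s_lt
  have hm := hD.X.m_nonneg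
  have hov' : D.p.del (D.s + 1) ≤ D.ov c' c := by rw [cp_ov_comm]; exact hov
  set A := D.E c ∩ D.E c' with hA
  have s4 : Sat (D.E c) (D.φ (D.s + 4) c) A := cp_sat hD (by omega) le_rfl hc hc' hov
  have s2 : Sat (D.E c) (D.φ (D.s + 2) c) A := cp_sat hD le_rfl (by omega) hc hc' hov
  have s3 : Sat (D.E c') (D.φ (D.s + 3) c') A := by
    have := cp_sat hD (show D.s + 2 ≤ D.s + 3 by omega) (by omega) hc' hc hov'
    rw [inter_comm] at this
    exact this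
  have r43 : Ref A (D.φ (D.s + 4) c) (D.φ (D.s + 3) c') := by
    intro f hf g hg e
    rw [hA, mem_inter] at hf hg
    exact (hD.lev.tr (D.s + 3) (by omega) c hc c' hc'
      ((cp_del_anti hD (show D.s + 1 ≤ D.s + 3 by omega)).trans hov) f hf.1 g hg.1 e).2 hf.2
  have r32 : Ref A (D.φ (D.s + 3) c') (D.φ (D.s + 2) c) := by
    intro f hf g hg e
    rw [hA, mem_inter] at hf hg
    exact (hD.lev.tr (D.s + 2) (by omega) c' hc' c hc
      ((cp_del_anti hD (show D.s + 1 ≤ D.s + 2 by omega)).trans hov') f hf.2 g hg.2 e).2 hf.1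
  have e4 : ∀ f ∈ A, D.th (D.s + 4) c Z f = D.X.avg A (D.φ (D.s + 4) c) (D.X.n Z) f :=
    fun f hf => avg_restrict s4 _ hf
  have e3 : ∀ f ∈ A, D.th (D.s + 3) c' Z f = D.X.avg A (D.φ (D.s + 3) c') (D.X.n Z) f :=
    fun f hf => avg_restrict s3 _ hf
  have e2 : ∀ f ∈ A, D.th (D.s + 2) c Z f = D.X.avg A (D.φ (D.s + 2) c) (D.X.n Z) f :=
    fun f hf => avg_restrict s2 _ hf
  have i1 : (D.X.I A fun f => (D.th (D.s + 4) c Z f - D.th (D.s + 3) c' Z f) ^ 2) =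
      D.X.I A fun f => (D.X.avg A (D.φ (D.s + 4) c) (D.X.n Z) f -
        D.X.avg A (D.φ (D.s + 3) c') (D.X.n Z) f) ^ 2 :=
    I_congr fun f hf => by rw [e4 f hf, e3 f hf]
  have i2 : (D.X.I A fun f => (D.th (D.s + 4) c Z f - D.th (D.s + 2) c Z f) ^ 2) =
      D.X.I A fun f => (D.X.avg A (D.φ (D.s + 4) c) (D.X.n Z) f -
        D.X.avg A (D.φ (D.s + 2) c) (D.X.n Z) f) ^ 2 :=
    I_congr fun f hf => by rw [e4 f hf, e2 f hf]
  have i3 := energy_mono hm r32 (D.X.n Z)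
  rw [i1, i2, pyth hm r43, pyth hm (fun f hf g hg e => r32 f hf g hg (r43 f hf g hg e))]
  linarith

/-- sum over the couples of worlds of integrals over the intersection, first index -/
theorem cp_sum_fst (hX : D.X.Ok D.p.H) (q : V → V → Prop) {x : V → V → ℝ}
    (hx : ∀ c f, 0 ≤ x c f) :
    ∑ c ∈ D.CC, ∑ c' ∈ D.CC, (if q c c' then D.X.I (D.E c ∩ D.E c') (x c) else 0) ≤
      D.p.B0 * ∑ c ∈ D.CC, D.X.I (D.E c) (x c) := by
  rw [mul_sum]
  refine sum_le_sum fun c _ => ?_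
  refine le_trans (sum_le_sum fun c' _ => ?_) (cp_sum_I_E hX (D.E c) (hx c))
  rw [inter_comm]
  split_ifs
  · exact le_rfl
  · exact I_nonneg hX.m_nonneg fun f _ => hx c f

/-- the same, second index -/
theorem cp_sum_snd (hX : D.X.Ok D.p.H) (q : V → V → Prop) {x : V → V → ℝ}
    (hx : ∀ c f, 0 ≤ x c f) :
    ∑ c ∈ D.CC, ∑ c' ∈ D.CC, (if q c c' then D.X.I (D.E c ∩ D.E c') (x c') else 0) ≤
      D.p.B0 * ∑ c ∈ D.CC, D.X.I (D.E c) (x c) := by
  rw [sum_comm]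
  refine le_trans (le_of_eq ?_) (cp_sum_fst hX (fun c c' => q c' c) hx)
  refine sum_congr rfl fun c _ => sum_congr rfl fun c' _ => ?_
  rw [inter_comm]

/-- (C), first part -/
theorem cmp_P (hD : D.Ok) (Z : V) {a b : ℕ} (ha : D.s ≤ a) (ha' : a ≤ D.s + 3) (hb : D.s ≤ b)
    (hb' : b ≤ D.s + 4) :
    ∑ c ∈ D.CC, ∑ c' ∈ D.CC, (if D.p.del (D.s + 1) ≤ D.ov c c' then
      D.X.I (D.E c ∩ D.E c') fun f => (D.th a c' Z f - D.th b c Z f) ^ 2 else 0) ≤
      9 * D.p.B0 * D.inc Z := by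
  have hm := hD.X.m_nonneg
  have k1 := cp_sum_snd hD.X (fun c c' => D.p.del (D.s + 1) ≤ D.ov c c')
    (x := fun c f => (D.th (D.s + 3) c Z f - D.th a c Z f) ^ 2) (fun _ _ => sq_nonneg _)
  have k2 := cp_sum_fst hD.X (fun c c' => D.p.del (D.s + 1) ≤ D.ov c c')
    (x := fun c f => (D.th (D.s + 4) c Z f - D.th (D.s + 2) c Z f) ^ 2) (fun _ _ => sq_nonneg _)
  have k3 := cp_sum_fst hD.X (fun c c' => D.p.del (D.s + 1) ≤ D.ov c c')
    (x := fun c f => (D.th (D.s + 4) c Z f - D.th b c Z f) ^ 2) (fun _ _ => sq_nonneg _)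
  have i1 := inc_part hD Z ha ha' (by omega)
  have i2 := inc_part hD Z (show D.s ≤ D.s + 2 by omega) (show D.s + 2 ≤ D.s + 4 by omega) le_rfl
  have i3 := inc_part hD Z hb hb' le_rfl
  have hB : (0 : ℝ) ≤ D.p.B0 := Nat.cast_nonneg _
  have j1 := mul_le_mul_of_nonneg_left i1 hB
  have j2 := mul_le_mul_of_nonneg_left i2 hB
  have j3 := mul_le_mul_of_nonneg_left i3 hB
  have key : ∑ c ∈ D.CC, ∑ c' ∈ D.CC, (if D.p.del (D.s + 1) ≤ D.ov c c' then
      D.X.I (D.E c ∩ D.E c') fun f => (D.th a c' Z f - D.th b c Z f) ^ 2 else 0) ≤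
      3 * ∑ c ∈ D.CC, ∑ c' ∈ D.CC, (if D.p.del (D.s + 1) ≤ D.ov c c' then
        D.X.I (D.E c ∩ D.E c') fun f => (D.th (D.s + 3) c' Z f - D.th a c' Z f) ^ 2 else 0) +
      3 * ∑ c ∈ D.CC, ∑ c' ∈ D.CC, (if D.p.del (D.s + 1) ≤ D.ov c c' then
        D.X.I (D.E c ∩ D.E c') fun f => (D.th (D.s + 4) c Z f - D.th (D.s + 2) c Z f) ^ 2
        else 0) +
      3 * ∑ c ∈ D.CC, ∑ c' ∈ D.CC, (if D.p.del (D.s + 1) ≤ D.ov c c' then
        D.X.I (D.E c ∩ D.E c') fun f => (D.th (D.s + 4) c Z f - D.th b c Z f) ^ 2 else 0) := by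
    rw [mul_sum, mul_sum, mul_sum, ← sum_add_distrib, ← sum_add_distrib]
    refine sum_le_sum fun c hc => ?_
    rw [mul_sum, mul_sum, mul_sum, ← sum_add_distrib, ← sum_add_distrib]
    refine sum_le_sum fun c' hc' => ?_
    by_cases hov : D.p.del (D.s + 1) ≤ D.ov c c'
    · rw [if_pos hov, if_pos hov, if_pos hov, if_pos hov]
      have h1 : (D.X.I (D.E c ∩ D.E c') fun f => (D.th a c' Z f - D.th b c Z f) ^ 2) ≤
          3 * (D.X.I (D.E c ∩ D.E c') fun f => (D.th (D.s + 3) c' Z f - D.th a c' Z f) ^ 2) +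
          3 * (D.X.I (D.E c ∩ D.E c') fun f =>
            (D.th (D.s + 4) c Z f - D.th (D.s + 3) c' Z f) ^ 2) +
          3 * (D.X.I (D.E c ∩ D.E c') fun f => (D.th (D.s + 4) c Z f - D.th b c Z f) ^ 2) := by
        rw [← I_const_mul, ← I_const_mul, ← I_const_mul, ← I_add, ← I_add]
        refine I_mono hm fun f _ => ?_
        nlinarith [sq_nonneg ((D.th (D.s + 3) c' Z f - D.th a c' Z f) -
            (D.th (D.s + 4) c Z f - D.th (D.s + 3) c' Z f)),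
          sq_nonneg ((D.th (D.s + 3) c' Z f - D.th a c' Z f) +
            (D.th (D.s + 4) c Z f - D.th b c Z f)),
          sq_nonneg ((D.th (D.s + 4) c Z f - D.th (D.s + 3) c' Z f) +
            (D.th (D.s + 4) c Z f - D.th b c Z f)),
          sq_nonneg ((D.th (D.s + 3) c' Z f - D.th a c' Z f) +
            (D.th (D.s + 4) c Z f - D.th (D.s + 3) c' Z f)),
          sq_nonneg ((D.th (D.s + 3) c' Z f - D.th a c' Z f) -
            (D.th (D.s + 4) c Z f - D.th b c Z f)),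
          sq_nonneg ((D.th (D.s + 4) c Z f - D.th (D.s + 3) c' Z f) -
            (D.th (D.s + 4) c Z f - D.th b c Z f))]
      have h2 := cp_mid hD Z hc hc' hov
      linarith
    · rw [if_neg hov, if_neg hov, if_neg hov, if_neg hov]
      norm_num
  linarith

/-- (C), second part -/
theorem cmp_c (hD : D.Ok) {c : V} (hc : c ∈ D.CC) :
    (D.X.I univ fun Z => ∑ c' ∈ D.CC, if D.p.del (D.s + 1) ≤ D.ov c c' then
      D.X.I (D.E c ∩ D.E c') fun f => (D.th (D.s + 3) c' Z f - D.th D.s c Z f) ^ 2 else 0) ≤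
      4 * D.p.B0 * D.ic c := by
  have hs := hD.s_lt
  have hm := hD.X.m_nonneg
  have hB : (0 : ℝ) ≤ D.p.B0 := Nat.cast_nonneg _
  have key : ∀ Z, (∑ c' ∈ D.CC, if D.p.del (D.s + 1) ≤ D.ov c c' then
      D.X.I (D.E c ∩ D.E c') fun f => (D.th (D.s + 3) c' Z f - D.th D.s c Z f) ^ 2 else 0) ≤
      4 * D.p.B0 * D.X.I (D.E c) fun f => (D.th (D.s + 4) c Z f - D.th D.s c Z f) ^ 2 := by
    intro Z
    have step : ∀ x : V → ℝ, (∀ f, 0 ≤ x f) → ∑ c' ∈ D.CC, D.X.I (D.E c ∩ D.E c') x ≤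
        D.p.B0 * D.X.I (D.E c) x := by
      intro x hx
      refine le_trans (le_of_eq ?_) (cp_sum_I_E hD.X (D.E c) hx)
      exact sum_congr rfl fun c' _ => by rw [inter_comm]
    have k1 := step (fun f => (D.th (D.s + 4) c Z f - D.th (D.s + 2) c Z f) ^ 2)
      (fun _ => sq_nonneg _)
    have k2 := step (fun f => (D.th (D.s + 4) c Z f - D.th D.s c Z f) ^ 2)
      (fun _ => sq_nonneg _)
    have k3 := cp_part hD.X hD.lev (show D.s ≤ D.s + 2 by omega)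
      (show D.s + 2 ≤ D.s + 4 by omega) (le_refl (D.s + 4)) (by omega) hc Z
    have k4 := mul_le_mul_of_nonneg_left k3 hB
    have k5 : (∑ c' ∈ D.CC, if D.p.del (D.s + 1) ≤ D.ov c c' then
        D.X.I (D.E c ∩ D.E c') fun f => (D.th (D.s + 3) c' Z f - D.th D.s c Z f) ^ 2 else 0) ≤
        2 * (∑ c' ∈ D.CC, D.X.I (D.E c ∩ D.E c') fun f =>
          (D.th (D.s + 4) c Z f - D.th (D.s + 2) c Z f) ^ 2) +
        2 * ∑ c' ∈ D.CC, D.X.I (D.E c ∩ D.E c') fun f =>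
          (D.th (D.s + 4) c Z f - D.th D.s c Z f) ^ 2 := by
      rw [mul_sum, mul_sum, ← sum_add_distrib]
      refine sum_le_sum fun c' hc' => ?_
      have p1 : 0 ≤ D.X.I (D.E c ∩ D.E c') fun f =>
          (D.th (D.s + 4) c Z f - D.th (D.s + 2) c Z f) ^ 2 :=
        I_nonneg hm fun _ _ => sq_nonneg _
      have p2 : 0 ≤ D.X.I (D.E c ∩ D.E c') fun f =>
          (D.th (D.s + 4) c Z f - D.th D.s c Z f) ^ 2 := I_nonneg hm fun _ _ => sq_nonneg _
      split_ifs with hov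
      · have h1 : (D.X.I (D.E c ∩ D.E c') fun f =>
            (D.th (D.s + 3) c' Z f - D.th D.s c Z f) ^ 2) ≤
            2 * (D.X.I (D.E c ∩ D.E c') fun f =>
              (D.th (D.s + 4) c Z f - D.th (D.s + 3) c' Z f) ^ 2) +
            2 * (D.X.I (D.E c ∩ D.E c') fun f =>
              (D.th (D.s + 4) c Z f - D.th D.s c Z f) ^ 2) := by
          rw [← I_const_mul, ← I_const_mul, ← I_add]
          refine I_mono hm fun f _ => ?_
          nlinarith [sq_nonneg ((D.th (D.s + 4) c Z f - D.th (D.s + 3) c' Z f) +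
            (D.th (D.s + 4) c Z f - D.th D.s c Z f))]
        have h2 := cp_mid hD Z hc hc' hov
        linarith
      · linarith
    linarith
  calc _ ≤ D.X.I univ fun Z => 4 * D.p.B0 *
        D.X.I (D.E c) fun f => (D.th (D.s + 4) c Z f - D.th D.s c Z f) ^ 2 :=
        I_mono hm fun Z _ => key Z
    _ = _ := by
        rw [I_const_mul]
        rfl

/-- (E1): sums over the level. -/
theorem sum_inc (D : Ctx V) (hX : D.X.Ok D.p.H) (hL : D.LevOK) (Z : V) :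
    ∑ s ∈ range D.p.S, Ctx.inc { D with s := s } Z ≤ 4 * D.p.B0 * D.p.H := by
  have hm := hX.m_nonneg
  set e : ℕ → ℝ := fun r => ∑ c ∈ D.CC, D.X.I (D.E c) fun f => D.th r c Z f ^ 2 with he
  have h1 : ∀ s ∈ range D.p.S, Ctx.inc { D with s := s } Z =
      e (min (s + 4) (D.p.S + 4)) - e (min s (D.p.S + 4)) := by
    intro s hs
    rw [mem_range] at hs
    rw [min_eq_left (by omega), min_eq_left (by omega), he]
    simp only
    rw [← sum_sub_distrib]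
    exact sum_congr rfl fun c hc => cp_incr hX hL (Nat.le_add_right s 4)
      (show s + 4 ≤ D.p.S + 4 by omega) hc Z
  rw [sum_congr rfl h1]
  have h2 := En.sum_incr (fun r => e (min r (D.p.S + 4))) (N := D.p.S) (k := 4)
    (B := D.p.B0 * D.p.H) ?_ ?_ ?_
  · calc _ ≤ ((4 : ℕ) : ℝ) * (D.p.B0 * D.p.H) := h2
      _ = _ := by push_cast; ring
  · intro i
    rw [he]
    exact sum_le_sum fun c hc => cp_en_mono hX hL (by omega) (by omega) hc Z
  · exact sum_nonneg fun c _ => I_nonneg hm fun _ _ => sq_nonneg _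
  · calc e _ ≤ ∑ c ∈ D.CC, D.X.ms (D.E c ∩ D.X.nb Z) := sum_le_sum fun c _ => cp_en_le hX _ c Z
      _ ≤ D.p.B0 * D.X.ms (D.X.nb Z) := cp_sum_ms_E hX _
      _ ≤ _ := mul_le_mul_of_nonneg_left (hX.deg Z) (Nat.cast_nonneg _)

theorem sum_ic (D : Ctx V) (hX : D.X.Ok D.p.H) (hL : D.LevOK) {c : V} (hc : c ∈ D.CC) :
    ∑ s ∈ range D.p.S, Ctx.ic { D with s := s } c ≤ 4 * D.p.H ^ 2 := by
  have hm := hX.m_nonneg
  set e : ℕ → ℝ := fun r => D.X.I univ fun Z => D.X.I (D.E c) fun f => D.th r c Z f ^ 2 with he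
  have h1 : ∀ s ∈ range D.p.S, Ctx.ic { D with s := s } c =
      e (min (s + 4) (D.p.S + 4)) - e (min s (D.p.S + 4)) := by
    intro s hs
    rw [mem_range] at hs
    rw [min_eq_left (by omega), min_eq_left (by omega), he]
    simp only
    rw [← I_sub]
    exact I_congr fun Z _ => cp_incr hX hL (Nat.le_add_right s 4)
      (show s + 4 ≤ D.p.S + 4 by omega) hc Z
  rw [sum_congr rfl h1]
  have h2 := En.sum_incr (fun r => e (min r (D.p.S + 4))) (N := D.p.S) (k := 4)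
    (B := D.p.H ^ 2) ?_ ?_ ?_
  · calc _ ≤ ((4 : ℕ) : ℝ) * D.p.H ^ 2 := h2
      _ = _ := by push_cast; ring
  · intro i
    rw [he]
    exact I_mono hm fun Z _ => cp_en_mono hX hL (by omega) (by omega) hc Z
  · exact I_nonneg hm fun Z _ => I_nonneg hm fun _ _ => sq_nonneg _
  · calc e _ ≤ D.X.I univ fun Z => D.X.ms (D.E c ∩ D.X.nb Z) :=
        I_mono hm fun Z _ => cp_en_le hX _ c Z
      _ ≤ _ := cp_total hX c

/-- Sum over the level of the intermediate masses. -/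
theorem sum_mid (D : Ctx V) (hX : D.X.Ok D.p.H) (ht : ∀ r, 0 < D.p.tau r)
    (ht' : ∀ r, D.p.tau (r + 1) ≤ D.p.tau r) (c : V) :
    ∑ s ∈ range D.p.S, (D.X.I univ fun Z =>
      if D.p.tau (s + 2) ≤ D.X.ms (D.E c ∩ D.X.nb Z) ∧ D.X.ms (D.E c ∩ D.X.nb Z) < D.p.tau s
      then D.X.ms (D.E c ∩ D.X.nb Z) else 0) ≤ 2 * D.p.H ^ 2 := by
  have hm := hX.m_nonneg
  rw [← I_sum]
  have key : ∀ Z, (∑ s ∈ range D.p.S,
      if D.p.tau (s + 2) ≤ D.X.ms (D.E c ∩ D.X.nb Z) ∧ D.X.ms (D.E c ∩ D.X.nb Z) < D.p.tau s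
      then D.X.ms (D.E c ∩ D.X.nb Z) else 0) ≤ 2 * D.X.ms (D.E c ∩ D.X.nb Z) := by
    intro Z
    set x := D.X.ms (D.E c ∩ D.X.nb Z) with hx
    have hx0 : 0 ≤ x := ms_nonneg hm _
    have z1 := En.sum_zone ht' D.p.S x
    have z2 := En.sum_zone (τ := fun i => D.p.tau (i + 1)) (fun i => ht' (i + 1)) D.p.S x
    have h1 : (∑ s ∈ range D.p.S, if D.p.tau (s + 2) ≤ x ∧ x < D.p.tau s then x else 0) ≤
        (∑ s ∈ range D.p.S, (if D.p.tau (s + 1) ≤ x ∧ x < D.p.tau s then (1:ℝ) else 0)) * x +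
        (∑ s ∈ range D.p.S,
          (if D.p.tau (s + 1 + 1) ≤ x ∧ x < D.p.tau (s + 1) then (1:ℝ) else 0)) * x := by
      rw [sum_mul, sum_mul, ← sum_add_distrib]
      refine sum_le_sum fun s _ => ?_
      by_cases h : D.p.tau (s + 2) ≤ x ∧ x < D.p.tau s
      · rw [if_pos h]
        by_cases h' : D.p.tau (s + 1) ≤ x
        · rw [if_pos ⟨h', h.2⟩, one_mul]
          have : 0 ≤ (if D.p.tau (s + 1 + 1) ≤ x ∧ x < D.p.tau (s + 1) then (1:ℝ) else 0) * x :=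
            mul_nonneg (by split_ifs <;> norm_num) hx0
          linarith
        · rw [if_neg (fun h'' => h' h''.1), if_pos ⟨h.1, not_le.1 h'⟩]
          linarith
      · rw [if_neg h]
        refine add_nonneg ?_ ?_ <;>
        exact mul_nonneg (by split_ifs <;> norm_num) hx0
    have h2 := mul_le_mul_of_nonneg_right z1 hx0
    have h3 := mul_le_mul_of_nonneg_right z2 hx0
    linarith
  calc _ ≤ D.X.I univ fun Z => 2 * D.X.ms (D.E c ∩ D.X.nb Z) := I_mono hm fun Z _ => key Z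
    _ = 2 * D.X.I univ fun Z => D.X.ms (D.E c ∩ D.X.nb Z) := I_const_mul _ _ _
    _ ≤ 2 * D.p.H ^ 2 := by linarith [cp_total hX c]

end Ctx

end Pool.Agent.AcyS
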