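import Pool.Agent.AcyS.Avg

/-! # From the static theorem to random columns with values in `{-1, 0} ∪ [u₀, B]`
(project MP_af9dfb_S, row S17)

* restriction of a system to a set `A` of sites (all other sites become plain);
* rounding of small values by independent coins. -/

set_option autoImplicit false
set_option linter.unusedSectionVars false

namespace Pool.Agent.AcyS

open Finset
open scoped Classical

universe u

/-- The static theorem (statement). -/
def StaticThm : Prop := ∀ (H η : ℝ), 1 ≤ H → 0 < η → η ≤ 1 → ∃ (C q0 : ℝ), 0 < C ∧ 0 < q0 ∧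
    ∀ T : ℝ → ℝ → ℝ, ∃ (B τ : ℝ) (B0 : ℕ), 0 < B ∧ 0 < τ ∧
    ∀ (V : Type u) [Fintype V] (X : Sys V), X.Ok H → (∀ f, q0 * X.m f ≤ 1) → X.Ker T →
    ∃ (Ω : Type u) (_ : Fintype Ω) (pr : Ω → ℝ) (CC : Ω → Finset V) (u : Ω → V → V → ℝ),
      (∀ ω, 0 ≤ pr ω) ∧ ∑ ω, pr ω = 1 ∧
      (∀ ω P f, X.lk f P → u ω P f = -1) ∧
      (∀ ω P f, ¬ X.lk f P → 0 ≤ u ω P f ∧ u ω P f ≤ B) ∧
      (∀ ω P f, u ω P f ≠ 0 → X.lk f P ∨ ∃ c ∈ CC ω, X.lk f c ∧
        (CC ω ∩ X.nb f).card ≤ B0 ∧
        ((X.lk P c ∧ (CC ω ∩ X.nb P).card ≤ B0) ∨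
          τ ≤ X.ms (X.nb c ∩ X.nb P))) ∧
      (∀ c, ∑ ω, pr ω * (if c ∈ CC ω then 1 else 0) ≤ q0 * X.m c) ∧
      (∀ P, ∑ ω, pr ω * (X.I univ fun f => max (u ω P f) 0) ≤ C * X.ms (X.nb P)) ∧
      (∀ P, ∑ ω, pr ω * (X.I univ fun f => u ω P f * X.I (X.nb P) fun Z => u ω Z f) ≤ η)

section

variable {V : Type u} [Fintype V]

namespace Sys

variable (X : Sys V)

/-- The restriction of the masses to `A`. -/
noncomputable def restr (A : Finset V) : Sys V where
  m := fun f => if f ∈ A then X.m f else 0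
  lk := X.lk

variable {X}

@[simp] theorem restr_lk (A : Finset V) (f P : V) : (X.restr A).lk f P ↔ X.lk f P := Iff.rfl

@[simp] theorem restr_nb (A : Finset V) (P : V) : (X.restr A).nb P = X.nb P := rfl

theorem restr_I (A S : Finset V) (g : V → ℝ) : (X.restr A).I S g = X.I (S ∩ A) g := by
  unfold I
  rw [← filter_mem_eq_inter, sum_filter]
  exact sum_congr rfl fun f _ => by simp [restr, ite_mul]

theorem restr_ms (A S : Finset V) : (X.restr A).ms S = X.ms (S ∩ A) := by
  unfold ms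
  rw [← filter_mem_eq_inter, sum_filter]
  exact sum_congr rfl fun f _ => by simp [restr]

theorem restr_ok {H : ℝ} (hX : X.Ok H) (A : Finset V) : (X.restr A).Ok H where
  m_nonneg f := by
    simp only [restr]
    split_ifs
    exacts [hX.m_nonneg f, le_rfl]
  symm := hX.symm
  irrefl := hX.irrefl
  one_le := hX.one_le
  deg P := by
    rw [restr_nb, restr_ms]
    exact (ms_mono hX.m_nonneg inter_subset_left).trans (hX.deg P)

theorem restr_ker' {H : ℝ} (hX : X.Ok H) {T : ℝ → ℝ → ℝ} {A : Finset V}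
    (hK : ∀ μ e, 0 < μ → 0 < e → ∀ c (o : Finset V), o ⊆ X.nb c → o ⊆ A → μ ≤ X.ms o →
      ∃ t : V → V → ℝ, X.KerOK o (T μ e) e t) : (X.restr A).Ker T := by
  intro μ e hμ he c o ho hm
  rw [restr_ms] at hm
  rw [restr_nb] at ho
  obtain ⟨t, ht⟩ := hK μ e hμ he c (o ∩ A) (inter_subset_left.trans ho) inter_subset_right hm
  refine ⟨t, ht.symm, ht.nonneg, ht.le, ?_, ?_, ?_⟩
  · intro f P h
    obtain ⟨h1, h2, h3⟩ := ht.supp f P h
    exact ⟨(mem_inter.1 h1).1, (mem_inter.1 h2).1, h3⟩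
  · intro f
    refine le_trans (sum_le_sum fun P _ => ?_) (ht.row f)
    refine mul_le_mul_of_nonneg_right ?_ (ht.nonneg f P)
    simp only [restr]
    split_ifs
    exacts [le_rfl, hX.m_nonneg P]
  · intro a h0 h1 h2
    have h := ht.psd (fun f => if f ∈ A then a f else 0)
      (fun f => by split_ifs; exacts [h0 f, le_rfl])
      (fun f => by split_ifs; exacts [h1 f, zero_le_one])
      (fun f hf => by
        by_cases hA : f ∈ A
        · rw [if_pos hA]
          exact h2 f fun ho' => hf (mem_inter.2 ⟨ho', hA⟩)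
        · rw [if_neg hA])
    have e1 : X.I (o ∩ A) (fun f => if f ∈ A then a f else 0) = X.I (o ∩ A) a :=
      I_congr fun f hf => by rw [if_pos (mem_inter.1 hf).2]
    rw [e1] at h
    rw [restr_I, restr_ms]
    refine h.trans (le_of_eq ?_)
    refine sum_congr rfl fun f _ => sum_congr rfl fun P _ => ?_
    simp only [restr]
    by_cases h3 : f ∈ A <;> by_cases h4 : P ∈ A <;> simp [h3, h4]

theorem restr_ker {H : ℝ} (hX : X.Ok H) {T : ℝ → ℝ → ℝ} (hK : X.Ker T) (A : Finset V) :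
    (X.restr A).Ker T :=
  restr_ker' hX fun μ e hμ he c o ho _ hm => hK μ e hμ he c o ho hm

theorem restr_restr {A' A : Finset V} (h : A' ⊆ A) : (X.restr A).restr A' = X.restr A' := by
  unfold restr
  congr 1
  funext f
  by_cases h1 : f ∈ A'
  · simp only [h1, h h1, if_true]
  · simp only [h1, if_false]

/-! ## Plain sites -/

variable (X)

/-- Columns `u` on `A`, all other sites plain. -/
noncomputable def pl (A : Finset V) (u : V → V → ℝ) (P f : V) : ℝ :=
  if P ∈ A ∧ f ∈ A then u P f else - X.n P f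

/-- Triangles at `P` with a vertex in `S`. -/
noncomputable def tri (S : Finset V) (P : V) : ℝ :=
  X.I (X.nb P ∩ S) fun Z => X.ms (X.nb P ∩ X.nb Z)

/-- Drift of `P`. -/
noncomputable def dr (u : V → V → ℝ) (P : V) : ℝ :=
  X.I univ fun f => u P f * X.I (X.nb P) fun Z => u Z f

/-- Part of the drift of `P` that comes from the sites of `S`. -/
noncomputable def drS (S : Finset V) (u : V → V → ℝ) (P : V) : ℝ :=
  X.I univ fun f => u P f * X.I (X.nb P ∩ S) fun Z => u Z f

variable {X}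

theorem tri_nonneg (hm : ∀ f, 0 ≤ X.m f) (S : Finset V) (P : V) : 0 ≤ X.tri S P :=
  I_nonneg hm fun _ _ => ms_nonneg hm _

theorem n_symm {H : ℝ} (hX : X.Ok H) (P f : V) : X.n P f = X.n f P := by
  unfold n
  exact if_congr ⟨hX.symm _ _, hX.symm _ _⟩ rfl rfl

theorem I_nb_inter (S : Finset V) (P : V) (g : V → ℝ) :
    X.I (X.nb P ∩ S) g = X.I S fun f => X.n P f * g f := by
  have h : X.nb P ∩ S = S.filter fun f => X.lk f P := by
    ext f
    simp [mem_nb, and_comm]
  rw [h, ← I_ite S (fun f => X.lk f P) g]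
  refine I_congr fun f _ => ?_
  simp only [n]
  split_ifs <;> simp

theorem tri_swap {H : ℝ} (hX : X.Ok H) (S : Finset V) (P : V) :
    X.tri S P = X.I univ fun f => X.n P f * X.ms (X.nb P ∩ S ∩ X.nb f) := by
  unfold tri
  rw [← I_nb]
  have e1 : ∀ Z, X.ms (X.nb P ∩ X.nb Z) = X.I (X.nb P) (X.n Z) := fun Z => (I_n _ _).symm
  have e2 : ∀ f, X.ms (X.nb P ∩ S ∩ X.nb f) = X.I (X.nb P ∩ S) (X.n f) :=
    fun f => (I_n _ _).symm
  simp only [e1, e2]
  rw [I_comm]
  exact I_congr fun f _ => I_congr fun Z _ => n_symm hX _ _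

/-- A plain row has drift at most the number of triangles. -/
theorem drS_le_tri {H : ℝ} (hX : X.Ok H) {w : V → V → ℝ} {P : V}
    (hw : ∀ Z f, - X.n Z f ≤ w Z f) (hP : ∀ f, w P f = - X.n P f) (S : Finset V) :
    X.drS S w P ≤ X.tri S P := by
  have hm := hX.m_nonneg
  rw [tri_swap hX]
  unfold drS
  refine I_mono hm fun f _ => ?_
  rw [hP f]
  have h1 : -(X.I (X.nb P ∩ S) fun Z => w Z f) ≤ X.ms (X.nb P ∩ S ∩ X.nb f) := by
    rw [← I_n, ← I_neg]
    refine I_mono hm fun Z _ => ?_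
    rw [n_symm hX f Z]
    linarith [hw Z f]
  have h2 := mul_le_mul_of_nonneg_left h1 (n_nonneg (X := X) P f)
  linarith

theorem pl_ge {A : Finset V} {u : V → V → ℝ} (hu : ∀ P f, - X.n P f ≤ u P f) (P f : V) :
    - X.n P f ≤ X.pl A u P f := by
  unfold pl
  split_ifs
  exacts [hu P f, le_rfl]

/-- The drift of a site of `A` after the extension by plain sites. -/
theorem drS_pl {H : ℝ} (hX : X.Ok H) {A : Finset V} {u : V → V → ℝ}
    (hu : ∀ P f, - X.n P f ≤ u P f) {P : V} (hP : P ∈ A) {S : Finset V} (hS : A ⊆ S) :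
    X.drS S (X.pl A u) P ≤ (X.restr A).dr u P + X.tri Aᶜ P + X.tri (S \ A) P := by
  have hm := hX.m_nonneg
  have hsplit : ∀ g : V → ℝ, X.I univ g = X.I A g + X.I Aᶜ g := by
    intro g
    unfold I
    rw [sum_add_sum_compl]
  have hsplit2 : ∀ g : V → ℝ, X.I (X.nb P ∩ S) g = X.I (X.nb P ∩ A) g +
      X.I (X.nb P ∩ (S \ A)) g := by
    intro g
    unfold I
    rw [← sum_union]
    · congr 1
      ext f
      simp only [mem_union, mem_inter, mem_sdiff]
      have := @hS f
      tauto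
    · rw [disjoint_left]
      intro f h1 h2
      exact (mem_sdiff.1 (mem_inter.1 h2).2).2 (mem_inter.1 h1).2
  unfold drS dr
  rw [hsplit, restr_I, univ_inter]
  have h1 : ∀ f ∈ A, (X.I (X.nb P ∩ S) fun Z => X.pl A u Z f) =
      (X.I (X.nb P ∩ A) fun Z => u Z f) - X.ms (X.nb P ∩ (S \ A) ∩ X.nb f) := by
    intro f hf
    rw [hsplit2, ← I_n, sub_eq_add_neg, ← I_neg]
    congr 1
    · exact I_congr fun Z hZ => by simp only [pl]; rw [if_pos ⟨(mem_inter.1 hZ).2, hf⟩]
    · refine I_congr fun Z hZ => ?_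
      simp only [pl]
      rw [if_neg, n_symm hX Z f]
      exact fun h => (mem_sdiff.1 (mem_inter.1 hZ).2).2 h.1
  have h2 : ∀ f ∈ Aᶜ, (X.I (X.nb P ∩ S) fun Z => X.pl A u Z f) =
      - X.ms (X.nb P ∩ S ∩ X.nb f) := by
    intro f hf
    rw [← I_n, ← I_neg]
    refine I_congr fun Z _ => ?_
    simp only [pl]
    rw [if_neg, n_symm hX Z f]
    exact fun h => (mem_compl.1 hf) h.2
  have h3 : (X.I A fun f => X.pl A u P f * X.I (X.nb P ∩ S) fun Z => X.pl A u Z f) ≤
      (X.I A fun f => u P f * (X.restr A).I ((X.restr A).nb P) fun Z => u Z f) +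
        X.tri (S \ A) P := by
    have h4 : (X.I A fun f => X.n P f * X.ms (X.nb P ∩ (S \ A) ∩ X.nb f)) ≤
        X.tri (S \ A) P := by
      rw [tri_swap hX]
      exact I_mono_set hm (subset_univ _) fun f _ => mul_nonneg (n_nonneg _ _) (ms_nonneg hm _)
    refine le_trans ?_ (add_le_add_right h4 _)
    rw [← I_add]
    refine I_mono hm fun f hf => ?_
    rw [h1 f hf, restr_I, restr_nb]
    have e3 : X.pl A u P f = u P f := by
      simp only [pl]
      rw [if_pos ⟨hP, hf⟩]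
    rw [e3]
    nlinarith [hu P f, ms_nonneg hm (X.nb P ∩ (S \ A) ∩ X.nb f)]
  have h5 : (X.I Aᶜ fun f => X.pl A u P f * X.I (X.nb P ∩ S) fun Z => X.pl A u Z f) ≤
      X.tri Aᶜ P := by
    have e4 : X.tri Aᶜ P = X.I Aᶜ fun f => X.n P f * X.ms (X.nb P ∩ X.nb f) :=
      I_nb_inter _ _ _
    rw [e4]
    refine I_mono hm fun f hf => ?_
    rw [h2 f hf]
    have e5 : X.pl A u P f = - X.n P f := by
      simp only [pl]
      rw [if_neg (fun h => (mem_compl.1 hf) h.2)]
    rw [e5]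
    have e6 : X.ms (X.nb P ∩ S ∩ X.nb f) ≤ X.ms (X.nb P ∩ X.nb f) :=
      ms_mono hm fun g hg => mem_inter.2 ⟨(mem_inter.1 (mem_inter.1 hg).1).1, (mem_inter.1 hg).2⟩
    have e7 := mul_le_mul_of_nonneg_left e6 (n_nonneg (X := X) P f)
    linarith
  linarith

end Sys

/-! ## Independent coins -/

section Coin

/-- Weight of a family of coins. -/
noncomputable def coin (w : V → Bool → ℝ) (β : V → Bool) : ℝ := ∏ P, w P (β P)

theorem coin_nonneg {w : V → Bool → ℝ} (hw : ∀ P b, 0 ≤ w P b) (β : V → Bool) :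
    0 ≤ coin w β := prod_nonneg fun P _ => hw P _

theorem coin_prod (w : V → Bool → ℝ) (F : V → Bool → ℝ) :
    ∑ β : V → Bool, coin w β * ∏ P, F P (β P) = ∏ P, ∑ b, w P b * F P b := by
  rw [prod_univ_sum, Fintype.piFinset_univ]
  refine sum_congr rfl fun β _ => ?_
  rw [coin, prod_mul_distrib]

theorem coin_sum {w : V → Bool → ℝ} (h1 : ∀ P, ∑ b, w P b = 1) :
    ∑ β : V → Bool, coin w β = 1 := by
  have h := coin_prod w (fun _ _ => 1)
  simp only [prod_const_one, mul_one, h1] at h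
  exact h

theorem coin_one {w : V → Bool → ℝ} (h1 : ∀ P, ∑ b, w P b = 1) (P : V) (F : Bool → ℝ) :
    ∑ β : V → Bool, coin w β * F (β P) = ∑ b, w P b * F b := by
  have h := coin_prod w (fun Q b => if Q = P then F b else 1)
  have e1 : ∀ β : V → Bool, (∏ Q, if Q = P then F (β Q) else 1) = F (β P) := fun β => by
    rw [prod_ite_eq' univ P fun Q => F (β Q), if_pos (mem_univ _)]
  simp only [e1] at h
  rw [h, Fintype.prod_eq_single P]
  · simp
  · intro Q hQ
    simp only [if_neg hQ, mul_one, h1]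

theorem coin_two {w : V → Bool → ℝ} (h1 : ∀ P, ∑ b, w P b = 1) {P S : V} (hPS : P ≠ S)
    (F G : Bool → ℝ) :
    ∑ β : V → Bool, coin w β * (F (β P) * G (β S)) =
      (∑ b, w P b * F b) * ∑ b, w S b * G b := by
  have h := coin_prod w (fun Q b => if Q = P then F b else if Q = S then G b else 1)
  have e1 : ∀ β : V → Bool, (∏ Q, if Q = P then F (β Q) else if Q = S then G (β Q) else 1) =
      F (β P) * G (β S) := fun β => by
    rw [Fintype.prod_eq_mul P S hPS]
    · rw [if_pos rfl, if_neg hPS.symm, if_pos rfl]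
    · rintro Q ⟨h2, h3⟩
      rw [if_neg h2, if_neg h3]
  simp only [e1] at h
  rw [h, Fintype.prod_eq_mul P S hPS]
  · simp [hPS.symm]
  · rintro Q ⟨h2, h3⟩
    simp only [if_neg h2, if_neg h3, mul_one, h1]

end Coin

/-! ## Rounding -/

/-- Probability of the coin of `P`. -/
noncomputable def qc (u0 : ℝ) (u : V → V → ℝ) (f P : V) (b : Bool) : ℝ :=
  if 0 < u P f ∧ u P f < u0 then (if b then u P f / u0 else 1 - u P f / u0)
  else (if b then 1 else 0)

/-- Rounded columns. -/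
noncomputable def rd (u0 : ℝ) (u : V → V → ℝ) (β : V → Bool) (P f : V) : ℝ :=
  if 0 < u P f ∧ u P f < u0 then (if β P then u0 else 0) else u P f

section Rd

variable {u0 : ℝ} {u : V → V → ℝ}

theorem qc_nonneg (h0 : 0 < u0) (f P : V) (b : Bool) : 0 ≤ qc u0 u f P b := by
  unfold qc
  split_ifs with h1 h2 h3
  · exact div_nonneg h1.1.le h0.le
  · rw [sub_nonneg, div_le_one h0]
    exact h1.2.le
  · exact zero_le_one
  · exact le_rfl

theorem qc_sum (f P : V) : ∑ b, qc u0 u f P b = 1 := by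
  rw [Fintype.sum_bool]
  unfold qc
  split_ifs with h1 h2 <;> simp_all

/-- Expectation of a function of one rounded value. -/
theorem rd_one (f P : V) (F : ℝ → ℝ) :
    ∑ β : V → Bool, coin (qc u0 u f) β * F (rd u0 u β P f) =
      if 0 < u P f ∧ u P f < u0 then u P f / u0 * F u0 + (1 - u P f / u0) * F 0
      else F (u P f) := by
  have h := coin_one (w := qc u0 u f) (fun Q => qc_sum f Q) P
    (fun b => F (if 0 < u P f ∧ u P f < u0 then (if b then u0 else 0) else u P f))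
  unfold rd
  rw [h, Fintype.sum_bool]
  unfold qc
  split_ifs with h1 h2 <;> simp_all

theorem rd_mean (h0 : 0 < u0) (f P : V) :
    ∑ β : V → Bool, coin (qc u0 u f) β * rd u0 u β P f = u P f := by
  rw [rd_one f P fun x => x]
  split_ifs with h1
  · field_simp
    ring
  · rfl

theorem rd_pos (h0 : 0 < u0) (f P : V) :
    ∑ β : V → Bool, coin (qc u0 u f) β * max (rd u0 u β P f) 0 = max (u P f) 0 := by
  rw [rd_one f P fun x => max x 0]
  split_ifs with h1
  · rw [max_eq_left h0.le, max_self, max_eq_left h1.1.le]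
    field_simp
    ring
  · rfl

/-- Expectation of a product. -/
theorem rd_two (h0 : 0 < u0) (f : V) {P S : V} (hPS : P ≠ S) :
    ∑ β : V → Bool, coin (qc u0 u f) β * (rd u0 u β P f * rd u0 u β S f) = u P f * u S f := by
  have h := coin_two (w := qc u0 u f) (fun Q => qc_sum f Q) hPS
    (fun b => if 0 < u P f ∧ u P f < u0 then (if b then u0 else 0) else u P f)
    (fun b => if 0 < u S f ∧ u S f < u0 then (if b then u0 else 0) else u S f)
  have e1 := rd_mean (u := u) h0 f P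
  have e2 := rd_mean (u := u) h0 f S
  have h1 := coin_one (w := qc u0 u f) (fun Q => qc_sum f Q) P
    (fun b => if 0 < u P f ∧ u P f < u0 then (if b then u0 else 0) else u P f)
  have h2 := coin_one (w := qc u0 u f) (fun Q => qc_sum f Q) S
    (fun b => if 0 < u S f ∧ u S f < u0 then (if b then u0 else 0) else u S f)
  unfold rd at *
  rw [h, ← h1, ← h2, e1, e2]

/-- Expectation of the drift term. -/
theorem rd_drift {X : Sys V} {H : ℝ} (hX : X.Ok H) (h0 : 0 < u0) (f P : V) (S : Finset V) :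
    ∑ β : V → Bool, coin (qc u0 u f) β *
      (rd u0 u β P f * X.I (X.nb P ∩ S) fun Z => rd u0 u β Z f) =
      u P f * X.I (X.nb P ∩ S) fun Z => u Z f := by
  have e1 : ∀ β : V → Bool, coin (qc u0 u f) β *
      (rd u0 u β P f * X.I (X.nb P ∩ S) fun Z => rd u0 u β Z f) =
      ∑ Z ∈ X.nb P ∩ S, X.m Z * (coin (qc u0 u f) β * (rd u0 u β P f * rd u0 u β Z f)) := by
    intro β
    unfold Sys.I
    rw [mul_sum, mul_sum]
    exact sum_congr rfl fun Z _ => by ring
  simp only [e1]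
  rw [sum_comm]
  unfold Sys.I
  rw [mul_sum]
  refine sum_congr rfl fun Z hZ => ?_
  rw [← mul_sum, rd_two h0 f]
  · ring
  · rintro rfl
    exact hX.irrefl _ (mem_nb.1 (mem_inter.1 hZ).1)

end Rd

/-! ## The interface -/

/-- Random columns. `L` is the set of labels, `μ f` the law of the label when `f` fires, `CC l`
the set of centres, `u l P f` the relative change of the weight of `P`. The sites outside `A` are
plain. -/
structure ColOK (X : Sys V) (A : Finset V) (e : V → ℝ) (C q0 B τ u0 : ℝ) (B0 : ℕ) {L : Type*} [Fintype L]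
    (μ : V → L → ℝ) (CC : L → Finset V) (u : L → V → V → ℝ) : Prop where
  nonneg : ∀ f l, 0 ≤ μ f l
  sum_one : ∀ f, ∑ l, μ f l = 1
  kill : ∀ l P f, X.lk f P → u l P f = -1
  vals : ∀ l P f, ¬ X.lk f P → u l P f = 0 ∨ u0 ≤ u l P f ∧ u l P f ≤ B
  supp : ∀ l P f, ¬ X.lk f P → u l P f ≠ 0 → P ∈ A ∧ f ∈ A ∧ ∃ c ∈ CC l, X.lk f c ∧
    (CC l ∩ X.nb f).card ≤ B0 ∧ (X.lk P c ∨ τ ≤ X.ms (X.nb c ∩ X.nb P))
  cc : ∀ f c, ∑ l, μ f l * (if c ∈ CC l then 1 else 0) ≤ q0 * X.m c
  rate : ∀ P, ∑ f, X.m f * ∑ l, μ f l * max (u l P f) 0 ≤ C * X.ms (X.nb P)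
  driftS : ∀ P ∈ A, ∀ S, A ⊆ S →
    ∑ f, X.m f * ∑ l, μ f l * (u l P f * X.I (X.nb P ∩ S) fun Z => u l Z f) ≤
      e P + X.tri Aᶜ P + X.tri (S \ A) P
  driftS' : ∀ P ∉ A, ∀ S,
    ∑ f, X.m f * ∑ l, μ f l * (u l P f * X.I (X.nb P ∩ S) fun Z => u l Z f) ≤ X.tri S P

namespace ColOK

variable {X : Sys V} {A : Finset V} {e : V → ℝ} {H C q0 B τ u0 : ℝ} {B0 : ℕ} {L : Type*}
  [Fintype L]
  {μ : V → L → ℝ} {CC : L → Finset V} {u : L → V → V → ℝ}

/-- The whole drift. -/
theorem drift (h : ColOK X A e C q0 B τ u0 B0 μ CC u) {P : V} (hP : P ∈ A) :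
    ∑ f, X.m f * ∑ l, μ f l * (u l P f * X.I (X.nb P) fun Z => u l Z f) ≤
      e P + 2 * X.tri Aᶜ P := by
  have h1 := h.driftS P hP univ (subset_univ _)
  rw [inter_univ, ← compl_eq_univ_sdiff] at h1
  linarith

/-- The part of the drift that comes from the sites of `A`. -/
theorem drift_aw (h : ColOK X A e C q0 B τ u0 B0 μ CC u) {P : V} (hP : P ∈ A) :
    ∑ f, X.m f * ∑ l, μ f l * (u l P f * X.I (X.nb P ∩ A) fun Z => u l Z f) ≤
      e P + X.tri Aᶜ P := by
  have h1 := h.driftS P hP A (Subset.refl _)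
  have h2 : X.tri (A \ A) P = 0 := by
    unfold Sys.tri Sys.I
    refine sum_eq_zero fun Z hZ => ?_
    have h3 := mem_sdiff.1 (mem_inter.1 hZ).2
    exact absurd h3.1 h3.2
  rw [h2, add_zero] at h1
  exact h1

/-- Sites close to the centre `c`. -/
theorem sum_rel (hX : X.Ok H) (hτ : 0 < τ) {ψ : V → ℝ} (hψ : ∀ P, 0 ≤ ψ P) {a : ℝ}
    (ha : ∀ c, ∑ P ∈ X.nb c, ψ P ≤ a) (c : V) :
    ∑ P, (if X.lk P c ∨ τ ≤ X.ms (X.nb c ∩ X.nb P) then ψ P else 0) ≤ a * (1 + H / τ) := by
  have hm := hX.m_nonneg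
  have ha0 : 0 ≤ a := (sum_nonneg fun P _ => hψ P).trans (ha c)
  have h1 : ∀ P, (if X.lk P c ∨ τ ≤ X.ms (X.nb c ∩ X.nb P) then ψ P else 0) ≤
      (if X.lk P c then ψ P else 0) + ψ P * (X.ms (X.nb c ∩ X.nb P) / τ) := by
    intro P
    have h2 : 0 ≤ X.ms (X.nb c ∩ X.nb P) / τ := div_nonneg (ms_nonneg hm _) hτ.le
    have h3 := mul_nonneg (hψ P) h2
    by_cases h4 : X.lk P c
    · rw [if_pos (Or.inl h4), if_pos h4]
      linarith
    · rw [if_neg h4, zero_add]
      split_ifs with h5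
      · rcases h5 with h5 | h5
        · exact absurd h5 h4
        · have h6 : 1 ≤ X.ms (X.nb c ∩ X.nb P) / τ := by rwa [one_le_div hτ]
          nlinarith [hψ P]
      · exact h3
  refine (sum_le_sum fun P _ => h1 P).trans ?_
  rw [sum_add_distrib]
  have h2 : ∑ P, (if X.lk P c then ψ P else 0) ≤ a := by
    refine le_trans (le_of_eq ?_) (ha c)
    rw [← sum_filter]
    rfl
  have h3 : ∑ P, ψ P * (X.ms (X.nb c ∩ X.nb P) / τ) ≤ a * (H / τ) := by
    have e1 : ∑ P, ψ P * (X.ms (X.nb c ∩ X.nb P) / τ) =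
        (∑ g ∈ X.nb c, X.m g * ∑ P ∈ X.nb g, ψ P) / τ := by
      have e2 : ∀ P, X.ms (X.nb c ∩ X.nb P) =
          ∑ g ∈ X.nb c, if X.lk g P then X.m g else 0 := by
        intro P
        rw [← sum_filter]
        unfold Sys.ms
        congr 1
        ext g
        simp [mem_nb]
      simp only [e2, mul_div_assoc', sum_div, mul_sum]
      rw [sum_comm]
      refine sum_congr rfl fun g _ => ?_
      rw [← sum_subset (subset_univ (X.nb g)) fun P _ hP => ?_]
      · refine sum_congr rfl fun P hP => ?_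
        rw [if_pos (hX.symm _ _ (mem_nb.1 hP))]
        ring
      · rw [if_neg fun h => hP (mem_nb.2 (hX.symm _ _ h)), mul_zero, zero_div]
    rw [e1, mul_div_assoc']
    refine div_le_div_of_nonneg_right ?_ hτ.le
    have e3 : ∑ g ∈ X.nb c, X.m g * ∑ P ∈ X.nb g, ψ P ≤ ∑ g ∈ X.nb c, X.m g * a :=
      sum_le_sum fun g _ => mul_le_mul_of_nonneg_left (ha g) (hm g)
    rw [← sum_mul] at e3
    refine e3.trans ?_
    rw [mul_comm]
    exact mul_le_mul_of_nonneg_left (hX.deg c) ha0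
  linarith

/-- Extent of a firing. -/
theorem row_ext (h : ColOK X A e C q0 B τ u0 B0 μ CC u) (hX : X.Ok H) (hτ : 0 < τ) (l : L) (f : V)
    {ψ : V → ℝ} (hψ : ∀ P, 0 ≤ ψ P) {a : ℝ} (ha : ∀ c, ∑ P ∈ X.nb c, ψ P ≤ a) :
    ∑ P, (if u l P f ≠ 0 then ψ P else 0) ≤ (1 + B0 * (1 + H / τ)) * a := by
  have ha0 : 0 ≤ a := (sum_nonneg fun P _ => hψ P).trans (ha f)
  have hH0 : 0 ≤ H := by linarith [hX.one_le]
  have hf : ∑ P, (if X.lk f P then ψ P else 0) ≤ a := by
    refine le_trans (le_of_eq ?_) (ha f)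
    rw [← sum_filter]
    congr 1
    ext P
    simp only [mem_filter, mem_univ, true_and, mem_nb]
    exact ⟨hX.symm _ _, hX.symm _ _⟩
  by_cases hB : (CC l ∩ X.nb f).card ≤ B0
  · have h1 : ∀ P, (if u l P f ≠ 0 then ψ P else 0) ≤ (if X.lk f P then ψ P else 0) +
        ∑ c ∈ CC l ∩ X.nb f,
          (if X.lk P c ∨ τ ≤ X.ms (X.nb c ∩ X.nb P) then ψ P else 0) := by
      intro P
      have h0 : ∀ c, 0 ≤ (if X.lk P c ∨ τ ≤ X.ms (X.nb c ∩ X.nb P) then ψ P else 0) := by
        intro c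
        split_ifs
        exacts [hψ P, le_rfl]
      have h2 := sum_nonneg (s := CC l ∩ X.nb f) fun c _ => h0 c
      by_cases h3 : X.lk f P
      · rw [if_pos h3]
        split_ifs
        · linarith
        · linarith [hψ P]
      · rw [if_neg h3, zero_add]
        split_ifs with h4
        · obtain ⟨-, -, c, hc, hfc, -, h5⟩ := h.supp l P f h3 h4
          refine le_trans ?_ (single_le_sum (fun c _ => h0 c)
            (mem_inter.2 ⟨hc, mem_nb.2 (hX.symm _ _ hfc)⟩))
          rw [if_pos h5]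
        · exact h2
    refine (sum_le_sum fun P _ => h1 P).trans ?_
    rw [sum_add_distrib, sum_comm]
    have h2 : ∑ c ∈ CC l ∩ X.nb f, ∑ P,
        (if X.lk P c ∨ τ ≤ X.ms (X.nb c ∩ X.nb P) then ψ P else 0) ≤
        B0 * (a * (1 + H / τ)) := by
      refine (sum_le_sum fun c _ => sum_rel hX hτ hψ ha c).trans ?_
      rw [sum_const, nsmul_eq_mul]
      exact mul_le_mul_of_nonneg_right (by exact_mod_cast hB) (by positivity)
    have h3 : (1 + B0 * (1 + H / τ)) * a = a + B0 * (a * (1 + H / τ)) := by ring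
    rw [h3]
    exact add_le_add hf h2
  · have h1 : ∀ P, (if u l P f ≠ 0 then ψ P else 0) ≤ (if X.lk f P then ψ P else 0) := by
      intro P
      by_cases h3 : X.lk f P
      · rw [if_pos h3]
        split_ifs
        exacts [le_rfl, hψ P]
      · rw [if_neg h3]
        split_ifs with h4
        · obtain ⟨-, -, c, hc, hfc, h6, h5⟩ := h.supp l P f h3 h4
          exact absurd h6 hB
        · exact le_rfl
    refine ((sum_le_sum fun P _ => h1 P).trans hf).trans ?_
    have : 0 ≤ (B0 : ℝ) * (1 + H / τ) * a := by positivity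
    nlinarith

/-- Total variation of the masses in a firing. -/
theorem row_abs (h : ColOK X A e C q0 B τ u0 B0 μ CC u) (hX : X.Ok H) (hτ : 0 < τ) (hB : 1 ≤ B)
    (hu0 : 0 ≤ u0) (l : L) (f : V) :
    ∑ P, X.m P * |u l P f| ≤ B * ((1 + B0 * (1 + H / τ)) * H) := by
  have h1 := row_ext h hX hτ l f hX.m_nonneg (a := H) fun c => hX.deg c
  refine le_trans ?_ (mul_le_mul_of_nonneg_left h1 (by linarith))
  rw [mul_sum]
  refine sum_le_sum fun P _ => ?_
  by_cases h2 : u l P f = 0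
  · rw [h2, if_neg (by simp)]
    simp
  · rw [if_pos h2, mul_comm]
    refine mul_le_mul_of_nonneg_right ?_ (hX.m_nonneg P)
    by_cases h3 : X.lk f P
    · rw [h.kill l P f h3]
      simpa using hB
    · rcases h.vals l P f h3 with h4 | h4
      · exact absurd h4 h2
      · rw [abs_of_nonneg (hu0.trans h4.1)]
        exact h4.2

/-- Extent of the sites that influence `P`. -/
theorem col_ext (h : ColOK X A e C q0 B τ u0 B0 μ CC u) (hX : X.Ok H) (hτ : 0 < τ) (hq : 0 ≤ q0)
    (P : V) {φ : V → ℝ} (hφ : ∀ f, 0 ≤ φ f) {a : ℝ} (ha : ∀ c, ∑ f ∈ X.nb c, φ f ≤ a) :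
    ∑ f, φ f * ∑ l, μ f l * (if u l P f ≠ 0 then 1 else 0) ≤
      (1 + q0 * (H * (1 + H / τ))) * a := by
  have ha0 : 0 ≤ a := (sum_nonneg fun P _ => hφ P).trans (ha P)
  have h1 : ∀ f l, (if u l P f ≠ 0 then (1 : ℝ) else 0) ≤ (if X.lk f P then 1 else 0) +
      ∑ c, (if c ∈ CC l then 1 else 0) *
        (if X.lk f c ∧ (X.lk P c ∨ τ ≤ X.ms (X.nb c ∩ X.nb P)) then 1 else 0) := by
    intro f l
    have h0 : ∀ c, (0 : ℝ) ≤ (if c ∈ CC l then 1 else 0) *
        (if X.lk f c ∧ (X.lk P c ∨ τ ≤ X.ms (X.nb c ∩ X.nb P)) then 1 else 0) := by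
      intro c
      split_ifs <;> norm_num
    have h2 := sum_nonneg (s := univ) fun c _ => h0 c
    by_cases h3 : X.lk f P
    · rw [if_pos h3]
      split_ifs
      · linarith
      · linarith
    · rw [if_neg h3, zero_add]
      split_ifs with h4
      · obtain ⟨-, -, c, hc, hfc, -, h5⟩ := h.supp l P f h3 h4
        refine le_trans ?_ (single_le_sum (fun c _ => h0 c) (mem_univ c))
        rw [if_pos hc, if_pos ⟨hfc, h5⟩, one_mul]
      · exact h2
  have h2 : ∀ f, ∑ l, μ f l * (if u l P f ≠ 0 then 1 else 0) ≤ (if X.lk f P then 1 else 0) +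
      ∑ c, (q0 * X.m c) *
        (if X.lk f c ∧ (X.lk P c ∨ τ ≤ X.ms (X.nb c ∩ X.nb P)) then 1 else 0) := by
    intro f
    refine (sum_le_sum fun l _ => mul_le_mul_of_nonneg_left (h1 f l) (h.nonneg f l)).trans ?_
    simp only [mul_add, sum_add_distrib]
    refine add_le_add (le_of_eq ?_) ?_
    · rw [← sum_mul, h.sum_one f, one_mul]
    · simp only [mul_sum]
      rw [sum_comm]
      refine sum_le_sum fun c _ => ?_
      refine le_trans (le_of_eq ?_) (mul_le_mul_of_nonneg_right (h.cc f c)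
        (by split_ifs <;> norm_num))
      rw [sum_mul]
      exact sum_congr rfl fun l _ => by ring
  refine (sum_le_sum fun f _ => mul_le_mul_of_nonneg_left (h2 f) (hφ f)).trans ?_
  simp only [mul_add, sum_add_distrib]
  have h3 : ∑ f, φ f * (if X.lk f P then (1 : ℝ) else 0) ≤ a := by
    refine le_trans (le_of_eq ?_) (ha P)
    unfold Sys.nb
    rw [sum_filter]
    exact sum_congr rfl fun f _ => by split_ifs <;> simp
  have h4 : ∑ f, φ f * ∑ c, (q0 * X.m c) *
        (if X.lk f c ∧ (X.lk P c ∨ τ ≤ X.ms (X.nb c ∩ X.nb P)) then 1 else 0) ≤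
      q0 * a * (H * (1 + H / τ)) := by
    simp only [mul_sum]
    rw [sum_comm]
    have h5 : ∀ c, ∑ f, φ f * ((q0 * X.m c) *
        (if X.lk f c ∧ (X.lk P c ∨ τ ≤ X.ms (X.nb c ∩ X.nb P)) then 1 else 0)) ≤
        q0 * a * (if X.lk c P ∨ τ ≤ X.ms (X.nb P ∩ X.nb c) then X.m c else 0) := by
      intro c
      by_cases h6 : X.lk P c ∨ τ ≤ X.ms (X.nb c ∩ X.nb P)
      · have h7 : X.lk c P ∨ τ ≤ X.ms (X.nb P ∩ X.nb c) := by
          rw [inter_comm]
          exact h6.imp_left (hX.symm _ _)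
        rw [if_pos h7]
        have h8 : ∑ f, φ f * ((q0 * X.m c) *
            (if X.lk f c ∧ (X.lk P c ∨ τ ≤ X.ms (X.nb c ∩ X.nb P)) then 1 else 0)) =
            q0 * X.m c * ∑ f ∈ X.nb c, φ f := by
          unfold Sys.nb
          rw [sum_filter, mul_sum]
          refine sum_congr rfl fun f _ => ?_
          by_cases h9 : X.lk f c
          · rw [if_pos ⟨h9, h6⟩, if_pos h9]
            ring
          · rw [if_neg fun h => h9 h.1, if_neg h9]
            ring
        rw [h8]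
        have h9 := mul_le_mul_of_nonneg_left (ha c) (mul_nonneg hq (hX.m_nonneg c))
        linarith
      · have h7 : ¬ (X.lk c P ∨ τ ≤ X.ms (X.nb P ∩ X.nb c)) := by
          rw [inter_comm]
          exact fun h => h6 (h.imp_left (hX.symm _ _))
        rw [if_neg h7, mul_zero]
        refine le_of_eq (sum_eq_zero fun f _ => ?_)
        rw [if_neg fun h => h6 h.2]
        ring
    refine (sum_le_sum fun c _ => h5 c).trans ?_
    rw [← mul_sum]
    exact mul_le_mul_of_nonneg_left (sum_rel hX hτ hX.m_nonneg (a := H) (fun c => hX.deg c) P)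
      (mul_nonneg hq ha0)
  refine (add_le_add h3 h4).trans (le_of_eq ?_)
  ring

/-- A firing only influences sites at distance at most three. -/
theorem near (h : ColOK X A e C q0 B τ u0 B0 μ CC u) (hτ : 0 < τ) {l : L} {P f : V}
    (hu : u l P f ≠ 0) : X.lk f P ∨ ∃ c, X.lk f c ∧ (X.lk P c ∨ ∃ Q, X.lk Q c ∧ X.lk Q P) := by
  by_cases h1 : X.lk f P
  · exact Or.inl h1
  · obtain ⟨-, -, c, -, hfc, -, h2⟩ := h.supp l P f h1 hu
    refine Or.inr ⟨c, hfc, h2.imp_right fun h3 => ?_⟩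
    by_contra h4
    push Not at h4
    have h5 : X.nb c ∩ X.nb P = ∅ := by
      ext Q
      simp only [mem_inter, mem_nb, notMem_empty, iff_false, not_and]
      exact h4 Q
    rw [h5, ms_empty] at h3
    linarith

end ColOK

end

/-- **Random columns with plain sites and rounding.** -/
theorem static_cols (HS : StaticThm.{u}) : ∀ (H η : ℝ), 1 ≤ H → 0 < η → η ≤ 1 →
    ∃ (C q0 : ℝ), 0 < C ∧ 0 < q0 ∧
    ∀ T : ℝ → ℝ → ℝ, ∃ (B τ : ℝ) (B0 : ℕ), 0 < B ∧ 0 < τ ∧
    ∀ (V : Type u) [Fintype V] (X : Sys V), X.Ok H →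
    ∀ (A : Finset V), (∀ f ∈ A, q0 * X.m f ≤ 1) → (X.restr A).Ker T →
    ∀ (u0 : ℝ), 0 < u0 →
    ∃ (L : Type u) (_ : Fintype L) (μ : V → L → ℝ) (CC : L → Finset V) (u : L → V → V → ℝ),
      ColOK X A (fun _ => η) C q0 (max B u0) τ u0 B0 μ CC u := by
  intro H η hH hη hη1
  obtain ⟨C, q0, hC, hq0, h1⟩ := HS H η hH hη hη1
  refine ⟨C, q0, hC, hq0, fun T => ?_⟩
  obtain ⟨B, τ, B0, hB, hτ, h2⟩ := h1 T
  refine ⟨B, τ, B0, hB, hτ, ?_⟩
  intro V _ X hX A hq hK u0 hu0
  have hm := hX.m_nonneg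
  obtain ⟨Ω, hΩ, pr, CC, u, p0, p1, uk, uv, us, uc, ur, ud⟩ := h2 V (X.restr A)
    (Sys.restr_ok hX A) (fun f => by
      simp only [Sys.restr]
      split_ifs with hf
      · exact hq f hf
      · rw [mul_zero]; exact zero_le_one) hK
  have un : ∀ ω P f, - X.n P f ≤ u ω P f := by
    intro ω P f
    by_cases h : X.lk f P
    · rw [uk ω P f h]
      simp [Sys.n, h]
    · simp only [Sys.n, if_neg h, neg_zero]
      exact (uv ω P f h).1
  have hsup : ∀ ω P f, ¬ X.lk f P → X.pl A (u ω) P f ≠ 0 →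
      P ∈ A ∧ f ∈ A ∧ X.pl A (u ω) P f = u ω P f := by
    intro ω P f h h'
    unfold Sys.pl at h' ⊢
    split_ifs at h' ⊢ with h3
    · exact ⟨h3.1, h3.2, rfl⟩
    · simp [Sys.n, h] at h'
  refine ⟨Ω × (V → Bool), inferInstance,
    fun f l => pr l.1 * coin (qc u0 (X.pl A (u l.1)) f) l.2, fun l => CC l.1,
    fun l => rd u0 (X.pl A (u l.1)) l.2, ?_⟩
  have hrd0 : ∀ (w : V → V → ℝ) (β : V → Bool) (P f : V), w P f = 0 → rd u0 w β P f = 0 := by
    intro w β P f h
    unfold rd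
    rw [h, if_neg]
    rintro ⟨h3, -⟩
    exact lt_irrefl _ h3
  have hpos : ∀ P, ∑ f, X.m f * ∑ l : Ω × (V → Bool),
      pr l.1 * coin (qc u0 (X.pl A (u l.1)) f) l.2 *
        max (rd u0 (X.pl A (u l.1)) l.2 P f) 0 =
      ∑ ω, pr ω * X.I univ fun f => max (X.pl A (u ω) P f) 0 := by
    intro P
    have e1 : ∀ f, ∑ l : Ω × (V → Bool), pr l.1 * coin (qc u0 (X.pl A (u l.1)) f) l.2 *
        max (rd u0 (X.pl A (u l.1)) l.2 P f) 0 =
        ∑ ω, pr ω * max (X.pl A (u ω) P f) 0 := by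
      intro f
      rw [Fintype.sum_prod_type]
      refine sum_congr rfl fun ω _ => ?_
      simp only [mul_assoc]
      rw [← mul_sum, rd_pos hu0]
    simp only [e1]
    unfold Sys.I
    simp only [mul_sum]
    rw [sum_comm]
    exact sum_congr rfl fun ω _ => sum_congr rfl fun f _ => by ring
  have hdr : ∀ P S, ∑ f, X.m f * ∑ l : Ω × (V → Bool),
      pr l.1 * coin (qc u0 (X.pl A (u l.1)) f) l.2 *
        (rd u0 (X.pl A (u l.1)) l.2 P f *
          X.I (X.nb P ∩ S) fun Z => rd u0 (X.pl A (u l.1)) l.2 Z f) =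
      ∑ ω, pr ω * X.drS S (X.pl A (u ω)) P := by
    intro P S
    have e1 : ∀ f, ∑ l : Ω × (V → Bool), pr l.1 * coin (qc u0 (X.pl A (u l.1)) f) l.2 *
        (rd u0 (X.pl A (u l.1)) l.2 P f *
          X.I (X.nb P ∩ S) fun Z => rd u0 (X.pl A (u l.1)) l.2 Z f) =
        ∑ ω, pr ω * (X.pl A (u ω) P f * X.I (X.nb P ∩ S) fun Z => X.pl A (u ω) Z f) := by
      intro f
      rw [Fintype.sum_prod_type]
      refine sum_congr rfl fun ω _ => ?_
      simp only [mul_assoc]
      rw [← mul_sum, rd_drift hX hu0]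
    simp only [e1]
    unfold Sys.drS Sys.I
    simp only [mul_sum]
    rw [sum_comm]
    refine sum_congr rfl fun ω _ => sum_congr rfl fun f _ => sum_congr rfl fun Z _ => ?_
    ring
  constructor
  case nonneg =>
    intro f l
    exact mul_nonneg (p0 _) (coin_nonneg (qc_nonneg hu0 f) _)
  case sum_one =>
    intro f
    rw [Fintype.sum_prod_type, ← p1]
    refine sum_congr rfl fun ω _ => ?_
    simp only
    rw [← mul_sum, coin_sum fun P => qc_sum f P, mul_one]
  case kill =>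
    intro l P f h
    have : X.pl A (u l.1) P f = -1 := by
      unfold Sys.pl
      split_ifs
      · exact uk _ _ _ h
      · simp [Sys.n, h]
    unfold rd
    rw [this, if_neg]
    rintro ⟨h3, -⟩
    linarith
  case vals =>
    intro l P f h
    by_cases h3 : X.pl A (u l.1) P f = 0
    · exact Or.inl (hrd0 _ _ _ _ h3)
    · obtain ⟨hP, hf, h4⟩ := hsup _ _ _ h h3
      obtain ⟨h5, h6⟩ := uv l.1 P f h
      unfold rd
      rw [h4]
      split_ifs with h7 h8
      · exact Or.inr ⟨le_rfl, le_max_right _ _⟩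
      · exact Or.inl rfl
      · right
        rw [h4] at h3
        refine ⟨?_, h6.trans (le_max_left _ _)⟩
        by_contra h9
        push Not at h9
        exact h7 ⟨lt_of_le_of_ne h5 (Ne.symm h3), h9⟩
  case supp =>
    intro l P f h h'
    have h3 : X.pl A (u l.1) P f ≠ 0 := fun h4 => h' (hrd0 _ _ _ _ h4)
    obtain ⟨hP, hf, h4⟩ := hsup _ _ _ h h3
    rw [h4] at h3
    refine ⟨hP, hf, ?_⟩
    rcases us _ _ _ h3 with h5 | ⟨c, hc, h6, h7, h8⟩
    · exact absurd h5 h
    · refine ⟨c, hc, h6, h7, ?_⟩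
      rcases h8 with h8 | h8
      · exact Or.inl h8.1
      · right
        rw [Sys.restr_ms] at h8
        exact h8.trans (ms_mono hm inter_subset_left)
  case cc =>
    intro f c
    rw [Fintype.sum_prod_type]
    refine le_trans (le_of_eq ?_) ((uc c).trans ?_)
    · refine sum_congr rfl fun ω _ => ?_
      by_cases h : c ∈ CC ω
      · simp only [h, if_true, mul_one]
        rw [← mul_sum, coin_sum fun P => qc_sum f P, mul_one]
      · simp [h]
    · refine mul_le_mul_of_nonneg_left ?_ hq0.le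
      simp only [Sys.restr]
      split_ifs
      exacts [le_rfl, hm c]
  case rate =>
    intro P
    rw [hpos P]
    refine le_trans (sum_le_sum fun ω _ => mul_le_mul_of_nonneg_left ?_ (p0 ω)) ((ur P).trans ?_)
    · rw [Sys.restr_I, univ_inter]
      have e1 : (X.I univ fun f => max (X.pl A (u ω) P f) 0) =
          X.I A fun f => max (X.pl A (u ω) P f) 0 := by
        symm
        refine sum_subset (subset_univ A) fun f _ h => ?_
        show X.m f * max (X.pl A (u ω) P f) 0 = 0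
        rw [Sys.pl, if_neg fun h' => h h'.2, max_eq_right, mul_zero]
        linarith [n_nonneg (X := X) P f]
      rw [e1]
      refine I_mono hm fun f _ => ?_
      unfold Sys.pl
      split_ifs
      · exact le_rfl
      · rw [max_eq_right (by linarith [n_nonneg (X := X) P f])]
        exact le_max_right _ _
    · refine mul_le_mul_of_nonneg_left ?_ hC.le
      rw [Sys.restr_nb, Sys.restr_ms]
      exact ms_mono hm inter_subset_left
  case driftS =>
    intro P hP S hS
    rw [hdr P S]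
    have e1 : ∑ ω, pr ω * X.drS S (X.pl A (u ω)) P ≤
        ∑ ω, (pr ω * (X.restr A).dr (u ω) P + pr ω * (X.tri Aᶜ P + X.tri (S \ A) P)) :=
      sum_le_sum fun ω _ => by
        rw [← mul_add, ← add_assoc]
        exact mul_le_mul_of_nonneg_left (Sys.drS_pl hX (un ω) hP hS) (p0 ω)
    refine e1.trans ?_
    rw [sum_add_distrib, ← sum_mul, p1, one_mul]
    have e2 := ud P
    unfold Sys.dr
    linarith
  case driftS' =>
    intro P hP S
    rw [hdr P S]
    have e1 : ∑ ω, pr ω * X.drS S (X.pl A (u ω)) P ≤ ∑ ω, pr ω * X.tri S P :=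
      sum_le_sum fun ω _ => mul_le_mul_of_nonneg_left
        (Sys.drS_le_tri hX (Sys.pl_ge (un ω)) (fun f => by
          unfold Sys.pl
          rw [if_neg fun h => hP h.1]) S) (p0 ω)
    refine e1.trans (le_of_eq ?_)
    rw [← sum_mul, p1, one_mul]

/-- **Random columns with relative drift.** -/
theorem static_rel (HS : StaticThm.{u}) : ∀ (H η : ℝ), 1 ≤ H → 0 < η → η ≤ 1 →
    ∃ (C q0 : ℝ), 0 < C ∧ 0 < q0 ∧
    ∀ T : ℝ → ℝ → ℝ, ∃ (B τ : ℝ) (B0 : ℕ), 0 < B ∧ 0 < τ ∧
    ∀ (V : Type u) [Fintype V] (X : Sys V), X.Ok H →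
    ∀ (A : Finset V), (∀ f ∈ A, q0 * X.m f ≤ 1) → (X.restr A).Ker T →
    ∀ (u0 : ℝ), 0 < u0 →
    ∃ (L : Type u) (_ : Fintype L) (μ : V → L → ℝ) (CC : L → Finset V) (u : L → V → V → ℝ),
      ColOK X A (fun P => η * X.ms (X.nb P)) C q0 (max B u0) τ u0 B0 μ CC u := by
  intro H η hH hη hη1
  obtain ⟨C, q0, hC, hq0, h1⟩ := static_cols HS H (η ^ 2 / 8) hH (by positivity) (by nlinarith)
  refine ⟨C, q0, hC, hq0, fun T => ?_⟩
  obtain ⟨B, τ, B0, hB, hτ, h2⟩ := h1 T
  refine ⟨B, τ, B0, hB, hτ, ?_⟩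
  intro V _ X hX A hq hK u0 hu0
  have hm := hX.m_nonneg
  obtain ⟨A', hA'⟩ : ∃ A', A' = A.filter fun P => η / 4 ≤ X.ms (X.nb P) := ⟨_, rfl⟩
  have hsub : A' ⊆ A := by
    rw [hA']
    exact filter_subset _ _
  have hK' : (X.restr A').Ker T := by
    have h3 := Sys.restr_ker (Sys.restr_ok hX A) hK A'
    rwa [Sys.restr_restr hsub] at h3
  obtain ⟨L, hL, μ, CC, u, h⟩ := h2 V X hX A' (fun f hf => hq f (hsub hf)) hK' u0 hu0
  refine ⟨L, hL, μ, CC, u, ?_⟩
  have htri : ∀ (S S' : Finset V) (P : V), S' ⊆ S → (∀ Z ∈ S, Z ∉ S' → Z ∈ A ∧ Z ∉ A') →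
      X.tri S P ≤ X.tri S' P + η / 4 * X.ms (X.nb P) := by
    intro S S' P hS hd
    have e1 : X.tri S P = X.tri S' P +
        X.I (X.nb P ∩ (S \ S')) fun Z => X.ms (X.nb P ∩ X.nb Z) := by
      unfold Sys.tri Sys.I
      rw [← sum_union]
      · congr 1
        ext Z
        simp only [mem_inter, mem_union, mem_sdiff]
        have := @hS Z
        tauto
      · rw [disjoint_left]
        intro Z h3 h4
        exact (mem_sdiff.1 (mem_inter.1 h4).2).2 (mem_inter.1 h3).2
    have e2 : (X.I (X.nb P ∩ (S \ S')) fun Z => X.ms (X.nb P ∩ X.nb Z)) ≤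
        η / 4 * X.ms (X.nb P ∩ (S \ S')) := by
      refine I_le_mul_ms hm fun Z hZ => ?_
      obtain ⟨h3, h4⟩ := mem_sdiff.1 (mem_inter.1 hZ).2
      obtain ⟨h5, h6⟩ := hd Z h3 h4
      rw [hA', mem_filter] at h6
      push Not at h6
      exact (ms_mono hm inter_subset_right).trans (h6 h5).le
    have e3 : X.ms (X.nb P ∩ (S \ S')) ≤ X.ms (X.nb P) := ms_mono hm inter_subset_left
    rw [e1]
    nlinarith
  have htri0 : ∀ S P, X.tri S P ≤ X.ms (X.nb P) * X.ms (X.nb P) := by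
    intro S P
    unfold Sys.tri
    refine (I_le_mul_ms hm (c := X.ms (X.nb P)) fun Z _ => ms_mono hm inter_subset_left).trans ?_
    exact mul_le_mul_of_nonneg_left (ms_mono hm inter_subset_left) (ms_nonneg hm _)
  constructor
  case nonneg => exact h.nonneg
  case sum_one => exact h.sum_one
  case kill => exact h.kill
  case vals => exact h.vals
  case supp =>
    intro l P f h3 h4
    obtain ⟨h5, h6, h7⟩ := h.supp l P f h3 h4
    exact ⟨hsub h5, hsub h6, h7⟩
  case cc => exact h.cc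
  case rate => exact h.rate
  case driftS =>
    intro P hP S hS
    have hY := ms_nonneg hm (X.nb P)
    have ht := Sys.tri_nonneg hm Aᶜ P
    have ht' := Sys.tri_nonneg hm (S \ A) P
    by_cases hP' : P ∈ A'
    · have h3 := h.driftS P hP' S (hsub.trans hS)
      have h4 := htri A'ᶜ Aᶜ P (compl_subset_compl.2 hsub) fun Z h6 h7 =>
        ⟨by simpa using h7, mem_compl.1 h6⟩
      have h4' := htri (S \ A') (S \ A) P (sdiff_subset_sdiff (Subset.refl _) hsub)
        fun Z h6 h7 => by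
          rw [mem_sdiff] at h6 h7
          exact ⟨by tauto, h6.2⟩
      have h5 : η / 4 ≤ X.ms (X.nb P) := by
        rw [hA', mem_filter] at hP'
        exact hP'.2
      refine h3.trans ?_
      show η ^ 2 / 8 + X.tri A'ᶜ P + X.tri (S \ A') P ≤
        η * X.ms (X.nb P) + X.tri Aᶜ P + X.tri (S \ A) P
      nlinarith
    · have h3 := h.driftS' P hP' S
      have h4 := htri0 S P
      have h5 : X.ms (X.nb P) < η / 4 := by
        rw [hA', mem_filter] at hP'
        push Not at hP'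
        exact hP' hP
      refine h3.trans ?_
      show X.tri S P ≤ η * X.ms (X.nb P) + X.tri Aᶜ P + X.tri (S \ A) P
      nlinarith
  case driftS' =>
    intro P hP S
    exact h.driftS' P (fun h3 => hP (hsub h3)) S

end Pool.Agent.AcyS
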