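import Pool.Agent.AcyS.Final
import Pool.Agent.AcyS.Round

/-! # Random columns: the static theorem in the form of the interface (project MP_af9dfb_S) -/

set_option autoImplicit false

namespace Pool.Agent.AcyS

open Finset
open scoped Classical

universe u

theorem staticThm : StaticThm.{u} := static_theorem

/-- **Random columns with relative drift**, for every weighted set of sites with kernels. -/
theorem static_rel' : ∀ (H η : ℝ), 1 ≤ H → 0 < η → η ≤ 1 →
    ∃ (C q0 : ℝ), 0 < C ∧ 0 < q0 ∧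
    ∀ T : ℝ → ℝ → ℝ, ∃ (B τ : ℝ) (B0 : ℕ), 0 < B ∧ 0 < τ ∧
    ∀ (V : Type u) [Fintype V] (X : Sys V), X.Ok H →
    ∀ (A : Finset V), (∀ f ∈ A, q0 * X.m f ≤ 1) → (X.restr A).Ker T →
    ∀ (u0 : ℝ), 0 < u0 →
    ∃ (L : Type u) (_ : Fintype L) (μ : V → L → ℝ) (CC : L → Finset V) (u : L → V → V → ℝ),
      ColOK X A (fun P => η * X.ms (X.nb P)) C q0 (max B u0) τ u0 B0 μ CC u :=
  static_rel staticThm

end Pool.Agent.AcyS
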