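import Pool.Agent.AcyS.Defs

/-! # S14: random centres and coverage -/

set_option autoImplicit false
set_option linter.unusedSectionVars false

namespace Pool.Agent.AcyS

open Finset
open scoped Classical

universe u

variable {V : Type u} [Fintype V] {D : Ctx V}

/-- Probability of the set of centres `C` (every site with probability `q0 m` independently). -/
noncomputable def bern (X : Sys V) (q0 : ℝ) (C : Finset V) : ℝ :=
  ∏ f, if f ∈ C then q0 * X.m f else 1 - q0 * X.m f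

theorem bern_prod (a b : V → ℝ) :
    ∑ C : Finset V, ∏ f, (if f ∈ C then a f else b f) = ∏ f, (a f + b f) := by
  rw [prod_add a b univ, powerset_univ]
  refine sum_congr rfl fun S _ => ?_
  rw [prod_ite]
  congr 1
  · congr 1
    ext v
    simp
  · congr 1
    ext v
    simp

theorem bern_nonneg {X : Sys V} {H q0 : ℝ} (hX : X.Ok H) (hq : 0 ≤ q0)
    (hq1 : ∀ f, q0 * X.m f ≤ 1) (C : Finset V) : 0 ≤ bern X q0 C := by
  refine prod_nonneg fun f _ => ?_
  split_ifs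
  · exact mul_nonneg hq (hX.m_nonneg f)
  · exact sub_nonneg.2 (hq1 f)

theorem bern_sum (X : Sys V) (q0 : ℝ) : ∑ C : Finset V, bern X q0 C = 1 := by
  unfold bern
  rw [bern_prod]
  exact prod_eq_one fun f _ => by ring

theorem bern_mem (X : Sys V) (q0 : ℝ) (c : V) :
    ∑ C : Finset V, bern X q0 C * (if c ∈ C then 1 else 0) = q0 * X.m c := by
  have h := bern_prod (fun f => q0 * X.m f) (fun f => if f = c then 0 else 1 - q0 * X.m f)
  have h1 : ∀ C : Finset V, bern X q0 C * (if c ∈ C then 1 else 0) =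
      ∏ f, (if f ∈ C then q0 * X.m f else (if f = c then 0 else 1 - q0 * X.m f)) := by
    intro C
    by_cases hc : c ∈ C
    · rw [if_pos hc, mul_one]
      refine prod_congr rfl fun f _ => ?_
      by_cases hf : f ∈ C
      · rw [if_pos hf, if_pos hf]
      · rw [if_neg hf, if_neg hf, if_neg (fun e : f = c => hf (e ▸ hc))]
    · rw [if_neg hc, mul_zero]
      refine (prod_eq_zero (mem_univ c) ?_).symm
      rw [if_neg hc, if_pos rfl]
  rw [sum_congr rfl fun C _ => h1 C, h, prod_eq_single c]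
  · simp
  · intro f _ hf
    rw [if_neg hf]
    ring
  · simp

/-- The number of centres in a set has mean `q0` times its mass. -/
theorem bern_card (X : Sys V) (q0 : ℝ) (A : Finset V) :
    ∑ C : Finset V, bern X q0 C * ((C ∩ A).card : ℝ) = q0 * X.ms A := by
  have h1 : ∀ C : Finset V, ((C ∩ A).card : ℝ) = ∑ v ∈ A, if v ∈ C then 1 else 0 := by
    intro C
    rw [sum_boole]
    congr 2
    ext v
    simp [and_comm]
  simp only [h1, mul_sum]
  rw [sum_comm]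
  unfold Sys.ms
  rw [mul_sum]
  exact sum_congr rfl fun v _ => bern_mem X q0 v

/-- The probability that a set contains no centre. -/
theorem bern_empty {X : Sys V} {H q0 : ℝ} (_hX : X.Ok H) (_hq : 0 ≤ q0)
    (hq1 : ∀ f, q0 * X.m f ≤ 1) (A : Finset V) :
    ∑ C : Finset V, (if C ∩ A = ∅ then bern X q0 C else 0) ≤ Real.exp (-(q0 * X.ms A)) := by
  have h := bern_prod (fun f => if f ∈ A then 0 else q0 * X.m f) (fun f => 1 - q0 * X.m f)
  have h1 : ∀ C : Finset V, (if C ∩ A = ∅ then bern X q0 C else 0) =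
      ∏ f, (if f ∈ C then (if f ∈ A then 0 else q0 * X.m f) else 1 - q0 * X.m f) := by
    intro C
    split_ifs with hc
    · refine prod_congr rfl fun f _ => ?_
      by_cases hf : f ∈ C
      · have hfA : f ∉ A := fun hA => by
          have : f ∈ C ∩ A := mem_inter.2 ⟨hf, hA⟩
          rw [hc] at this
          exact absurd this (notMem_empty f)
        rw [if_pos hf, if_pos hf, if_neg hfA]
      · rw [if_neg hf, if_neg hf]
    · obtain ⟨f, hf⟩ := nonempty_iff_ne_empty.2 hc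
      rw [mem_inter] at hf
      refine (prod_eq_zero (mem_univ f) ?_).symm
      rw [if_pos hf.1, if_pos hf.2]
  rw [sum_congr rfl fun C _ => h1 C, h]
  have h2 : ∀ f, (if f ∈ A then 0 else q0 * X.m f) + (1 - q0 * X.m f) =
      if f ∈ A then 1 - q0 * X.m f else 1 := by
    intro f
    split_ifs <;> ring
  rw [prod_congr rfl fun f _ => h2 f, prod_ite, prod_const_one, mul_one]
  have h3 : (univ.filter fun f => f ∈ A) = A := by
    ext f
    simp
  rw [h3]
  unfold Sys.ms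
  rw [mul_sum, ← sum_neg_distrib, Real.exp_sum]
  refine prod_le_prod (fun f _ => sub_nonneg.2 (hq1 f)) fun f _ => ?_
  have := Real.add_one_le_exp (-(q0 * X.m f))
  linarith

theorem mul_exp_le {q x : ℝ} (hq : 0 < q) : x * Real.exp (-(q * x)) ≤ 1 / q := by
  have h := Real.add_one_le_exp (q * x)
  have h1 : 0 < Real.exp (q * x) := Real.exp_pos _
  rw [Real.exp_neg, ← div_eq_mul_inv, div_le_div_iff₀ h1 hq]
  nlinarith

/-- (E3), averaged over the centres. -/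
theorem cover_avg {X : Sys V} {H q0 : ℝ} (hX : X.Ok H) (hq : 0 < q0)
    (hq1 : ∀ f, q0 * X.m f ≤ 1) (B0 : ℕ) (hB : 1 ≤ B0) (P : V) :
    ∑ C : Finset V, bern X q0 C *
      (2 * (X.I (X.nb P) fun f => if C ∩ (X.nb P ∩ X.nb f) = ∅
        then X.ms (X.nb P ∩ X.nb f) else 0) +
      2 * H * (X.ms ((X.nb P).filter fun f => B0 < (C ∩ X.nb f).card))) ≤
      2 * (H / q0) + 2 * (q0 * H ^ 3 / B0) := by
  have hH : 0 ≤ H := by linarith [hX.one_le]
  have hB' : (0 : ℝ) < B0 := by exact_mod_cast hB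
  have e1 : ∀ C : Finset V, bern X q0 C *
      (2 * (X.I (X.nb P) fun f => if C ∩ (X.nb P ∩ X.nb f) = ∅
        then X.ms (X.nb P ∩ X.nb f) else 0) +
      2 * H * (X.ms ((X.nb P).filter fun f => B0 < (C ∩ X.nb f).card))) =
      2 * (∑ f ∈ X.nb P, X.m f * X.ms (X.nb P ∩ X.nb f) *
        (if C ∩ (X.nb P ∩ X.nb f) = ∅ then bern X q0 C else 0)) +
      2 * H * ∑ f ∈ X.nb P, X.m f * (bern X q0 C * if B0 < (C ∩ X.nb f).card then 1 else 0) := by
    intro C
    have a1 : bern X q0 C * (X.I (X.nb P) fun f => if C ∩ (X.nb P ∩ X.nb f) = ∅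
        then X.ms (X.nb P ∩ X.nb f) else 0) = ∑ f ∈ X.nb P, X.m f * X.ms (X.nb P ∩ X.nb f) *
        (if C ∩ (X.nb P ∩ X.nb f) = ∅ then bern X q0 C else 0) := by
      unfold Sys.I
      rw [mul_sum]
      refine sum_congr rfl fun f _ => ?_
      beta_reduce
      by_cases hce : C ∩ (X.nb P ∩ X.nb f) = ∅
      · rw [if_pos hce, if_pos hce]
        ring
      · rw [if_neg hce, if_neg hce]
        ring
    have a2 : bern X q0 C * X.ms ((X.nb P).filter fun f => B0 < (C ∩ X.nb f).card) =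
        ∑ f ∈ X.nb P, X.m f * (bern X q0 C * if B0 < (C ∩ X.nb f).card then 1 else 0) := by
      unfold Sys.ms
      rw [sum_filter, mul_sum]
      refine sum_congr rfl fun f _ => ?_
      by_cases hce : B0 < (C ∩ X.nb f).card
      · rw [if_pos hce, if_pos hce]
        ring
      · rw [if_neg hce, if_neg hce]
        ring
    rw [← a1, ← a2]
    ring
  rw [sum_congr rfl fun C _ => e1 C, sum_add_distrib, ← mul_sum, ← mul_sum, sum_comm]
  rw [sum_comm (s := univ) (t := X.nb P)]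
  have b1 : ∑ f ∈ X.nb P, ∑ C : Finset V, X.m f * X.ms (X.nb P ∩ X.nb f) *
      (if C ∩ (X.nb P ∩ X.nb f) = ∅ then bern X q0 C else 0) ≤ H / q0 := by
    have c1 : ∀ f ∈ X.nb P, ∑ C : Finset V, X.m f * X.ms (X.nb P ∩ X.nb f) *
        (if C ∩ (X.nb P ∩ X.nb f) = ∅ then bern X q0 C else 0) ≤ X.m f * (1 / q0) := by
      intro f _
      rw [← mul_sum, mul_assoc]
      refine mul_le_mul_of_nonneg_left ?_ (hX.m_nonneg f)
      have d1 := bern_empty hX hq.le hq1 (X.nb P ∩ X.nb f)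
      have d2 : 0 ≤ X.ms (X.nb P ∩ X.nb f) := sum_nonneg fun g _ => hX.m_nonneg g
      exact (mul_le_mul_of_nonneg_left d1 d2).trans (mul_exp_le hq)
    refine (sum_le_sum c1).trans ?_
    rw [← sum_mul, mul_one_div]
    exact div_le_div_of_nonneg_right (hX.deg P) hq.le
  have b2 : ∑ f ∈ X.nb P, ∑ C : Finset V, X.m f *
      (bern X q0 C * if B0 < (C ∩ X.nb f).card then 1 else 0) ≤ q0 * H ^ 2 / B0 := by
    have c1 : ∀ f ∈ X.nb P, ∑ C : Finset V, X.m f *
        (bern X q0 C * if B0 < (C ∩ X.nb f).card then 1 else 0) ≤ X.m f * (q0 * H / B0) := by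
      intro f _
      rw [← mul_sum]
      refine mul_le_mul_of_nonneg_left ?_ (hX.m_nonneg f)
      have d1 : ∀ C : Finset V, (bern X q0 C * if B0 < (C ∩ X.nb f).card then (1 : ℝ) else 0) ≤
          bern X q0 C * ((C ∩ X.nb f).card : ℝ) / B0 := by
        intro C
        have hb := bern_nonneg hX hq.le hq1 C
        rw [mul_div_assoc]
        refine mul_le_mul_of_nonneg_left ?_ hb
        split_ifs with h
        · rw [le_div_iff₀ hB', one_mul]
          exact_mod_cast h.le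
        · positivity
      refine (sum_le_sum fun C _ => d1 C).trans ?_
      rw [← sum_div, bern_card]
      exact div_le_div_of_nonneg_right (mul_le_mul_of_nonneg_left (hX.deg f) hq.le) hB'.le
    refine (sum_le_sum c1).trans ?_
    rw [← sum_mul]
    have h1 : 0 ≤ q0 * H / B0 := by positivity
    refine (mul_le_mul_of_nonneg_right (hX.deg P) h1).trans (le_of_eq ?_)
    ring
  have b3 : 2 * H * ∑ f ∈ X.nb P, ∑ C : Finset V, X.m f *
      (bern X q0 C * if B0 < (C ∩ X.nb f).card then 1 else 0) ≤ 2 * (q0 * H ^ 3 / B0) := by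
    refine (mul_le_mul_of_nonneg_left b2 (by positivity)).trans (le_of_eq ?_)
    ring
  linarith

namespace Ctx

/-- a pair is covered if some good world is relevant -/
theorem covd_of {f Z c : V} (hc : c ∈ D.R Z) (hf : f ∈ D.G c) : D.covd f Z := by
  obtain ⟨c', hc', hmin⟩ := exists_min_image ((D.R Z).filter fun c => f ∈ D.G c) D.ord
    ⟨c, mem_filter.2 ⟨hc, hf⟩⟩
  rw [mem_filter] at hc'
  refine ⟨c', ?_, ?_⟩
  · have := hc'.1
    unfold R at this
    exact (mem_filter.1 this).1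
  · unfold dom
    rw [mem_filter]
    refine ⟨hc'.2, hc'.1, fun c'' h1 h2 h3 => ?_⟩
    exact absurd (hmin c'' (mem_filter.2 ⟨h1, h3⟩)) (not_le.2 h2)

/-- the four reasons for a pair to be uncovered -/
theorem uncovered_cases (hD : D.Ok) {P f Z : V} (hZ : D.X.lk f Z)
    (hu : ¬ D.covd f Z) :
    (1 : ℝ) ≤ (if D.CC ∩ (D.X.nb P ∩ D.X.nb f) = ∅ then 1 else 0) +
      (if D.p.B0 < (D.CC ∩ D.X.nb f).card then 1 else 0) +
      (∑ c ∈ D.CC ∩ D.X.nb P, if f ∈ D.E c \ D.G c then 1 else 0) +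
      ∑ c ∈ D.CC ∩ D.X.nb P, if f ∈ D.E c ∩ D.X.nb Z ∧ D.X.ms (D.E c ∩ D.X.nb Z) < D.p.tau D.s
        then 1 else 0 := by
  have n1 : (0 : ℝ) ≤ if D.CC ∩ (D.X.nb P ∩ D.X.nb f) = ∅ then 1 else 0 := by
    split_ifs <;> norm_num
  have n2 : (0 : ℝ) ≤ if D.p.B0 < (D.CC ∩ D.X.nb f).card then 1 else 0 := by
    split_ifs <;> norm_num
  have n3 : (0 : ℝ) ≤ ∑ c ∈ D.CC ∩ D.X.nb P, if f ∈ D.E c \ D.G c then 1 else 0 :=
    sum_nonneg fun c _ => by split_ifs <;> norm_num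
  have n4 : (0 : ℝ) ≤ ∑ c ∈ D.CC ∩ D.X.nb P,
      if f ∈ D.E c ∩ D.X.nb Z ∧ D.X.ms (D.E c ∩ D.X.nb Z) < D.p.tau D.s then 1 else 0 :=
    sum_nonneg fun c _ => by split_ifs <;> norm_num
  by_cases h1 : D.CC ∩ (D.X.nb P ∩ D.X.nb f) = ∅
  · rw [if_pos h1]
    linarith
  by_cases h2 : D.p.B0 < (D.CC ∩ D.X.nb f).card
  · rw [if_pos h2]
    linarith
  obtain ⟨c, hc⟩ := nonempty_iff_ne_empty.2 h1
  rw [mem_inter, mem_inter] at hc
  obtain ⟨hcC, hcP, hcf⟩ := hc
  have hfE : f ∈ D.E c := by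
    unfold E ok
    rw [mem_inter, mem_filter]
    refine ⟨?_, mem_univ _, not_lt.1 h2⟩
    unfold Sys.nb at hcf ⊢
    rw [mem_filter] at hcf ⊢
    exact ⟨mem_univ _, hD.X.symm _ _ hcf.2⟩
  by_cases h3 : f ∈ D.G c
  · have h4 : D.X.ms (D.E c ∩ D.X.nb Z) < D.p.tau D.s := by
      by_contra h4
      refine hu (covd_of ?_ h3)
      unfold R
      rw [mem_filter]
      exact ⟨hcC, not_lt.1 h4⟩
    have h5 : f ∈ D.E c ∩ D.X.nb Z := by
      rw [mem_inter]
      refine ⟨hfE, ?_⟩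
      unfold Sys.nb
      rw [mem_filter]
      exact ⟨mem_univ _, hZ⟩
    have h6 : (1 : ℝ) ≤ ∑ c ∈ D.CC ∩ D.X.nb P,
        if f ∈ D.E c ∩ D.X.nb Z ∧ D.X.ms (D.E c ∩ D.X.nb Z) < D.p.tau D.s then 1 else 0 := by
      refine le_trans ?_ (single_le_sum (f := fun c =>
        if f ∈ D.E c ∩ D.X.nb Z ∧ D.X.ms (D.E c ∩ D.X.nb Z) < D.p.tau D.s then (1 : ℝ) else 0)
        (fun c _ => by show (0 : ℝ) ≤ _; split_ifs <;> norm_num) (mem_inter.2 ⟨hcC, hcP⟩))
      rw [if_pos ⟨h5, h4⟩]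
    linarith
  · have h6 : (1 : ℝ) ≤ ∑ c ∈ D.CC ∩ D.X.nb P, if f ∈ D.E c \ D.G c then 1 else 0 := by
      refine le_trans ?_ (single_le_sum (f := fun c => if f ∈ D.E c \ D.G c then (1 : ℝ) else 0)
        (fun c _ => by show (0 : ℝ) ≤ _; split_ifs <;> norm_num) (mem_inter.2 ⟨hcC, hcP⟩))
      rw [if_pos (mem_sdiff.2 ⟨hfE, h3⟩)]
    linarith

theorem mass_mono (hD : D.Ok) {A B : Finset V} (h : A ⊆ B) : D.X.ms A ≤ D.X.ms B :=
  sum_le_sum_of_subset_of_nonneg h fun f _ _ => hD.X.m_nonneg f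

theorem mass_nonneg (hD : D.Ok) (A : Finset V) : 0 ≤ D.X.ms A :=
  sum_nonneg fun f _ => hD.X.m_nonneg f

/-- sum of the indicator of a set -/
theorem mass_ind (A B : Finset V) :
    ∑ f ∈ A, D.X.m f * (if f ∈ B then 1 else 0) = D.X.ms (A ∩ B) := by
  unfold Sys.ms
  simp only [mul_ite, mul_one, mul_zero]
  rw [← sum_filter, filter_mem_eq_inter]

theorem mass_filter (A : Finset V) (p : V → Prop) [DecidablePred p] :
    D.X.ms (A.filter p) = ∑ f ∈ A, if p f then D.X.m f else 0 := by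
  unfold Sys.ms
  rw [sum_filter]

theorem mass_prop (A : Finset V) (p : V → Prop) [DecidablePred p] :
    ∑ f ∈ A, D.X.m f * (if p f then 1 else 0) = D.X.ms (A.filter p) := by
  unfold Sys.ms
  simp only [mul_ite, mul_one, mul_zero]
  rw [← sum_filter]

/-- The error terms -/
theorem unc_le_one (hD : D.Ok) (P : V) :
    D.unc P ≤
      (D.X.I (D.X.nb P) fun f => if D.CC ∩ (D.X.nb P ∩ D.X.nb f) = ∅
        then D.X.ms (D.X.nb P ∩ D.X.nb f) else 0) +
      D.p.H * (D.X.ms ((D.X.nb P).filter fun f => D.p.B0 < (D.CC ∩ D.X.nb f).card)) +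
      D.p.H * ∑ c ∈ D.CC ∩ D.X.nb P, D.X.ms (D.E c \ D.G c) +
      D.p.H * D.p.tau D.s * ((D.CC ∩ D.X.nb P).card : ℝ) := by
  have hH : 0 ≤ D.p.H := by linarith [hD.X.one_le]
  have hm := hD.X.m_nonneg
  set N := D.X.nb P with hN
  set K := D.CC ∩ N with hK
  have hNH : D.X.ms N ≤ D.p.H := hD.X.deg P
  -- the integrand
  have key : ∀ f ∈ N, D.X.ms (N.filter fun Z => D.X.lk f Z ∧ ¬ D.covd f Z) ≤
      (if D.CC ∩ (N ∩ D.X.nb f) = ∅ then D.X.ms (N ∩ D.X.nb f) else 0) +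
      D.p.H * (if D.p.B0 < (D.CC ∩ D.X.nb f).card then 1 else 0) +
      D.p.H * (∑ c ∈ K, if f ∈ D.E c \ D.G c then 1 else 0) +
      ∑ Z ∈ N, D.X.m Z * ∑ c ∈ K,
        if f ∈ D.E c ∩ D.X.nb Z ∧ D.X.ms (D.E c ∩ D.X.nb Z) < D.p.tau D.s then 1 else 0 := by
    intro f hf
    have hsub : (N.filter fun Z => D.X.lk f Z ∧ ¬ D.covd f Z) ⊆ N ∩ D.X.nb f := by
      intro Z hZ
      rw [mem_filter] at hZ
      rw [mem_inter]
      refine ⟨hZ.1, ?_⟩
      unfold Sys.nb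
      rw [mem_filter]
      exact ⟨mem_univ _, hD.X.symm _ _ hZ.2.1⟩
    have g2 : 0 ≤ D.p.H * (if D.p.B0 < (D.CC ∩ D.X.nb f).card then (1 : ℝ) else 0) := by
      split_ifs
      · simpa using hH
      · simp
    have g3 : 0 ≤ D.p.H * (∑ c ∈ K, if f ∈ D.E c \ D.G c then (1 : ℝ) else 0) :=
      mul_nonneg hH (sum_nonneg fun c _ => by split_ifs <;> norm_num)
    have g4 : 0 ≤ ∑ Z ∈ N, D.X.m Z * ∑ c ∈ K,
        if f ∈ D.E c ∩ D.X.nb Z ∧ D.X.ms (D.E c ∩ D.X.nb Z) < D.p.tau D.s then (1 : ℝ) else 0 :=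
      sum_nonneg fun Z _ => mul_nonneg (hm Z) (sum_nonneg fun c _ => by split_ifs <;> norm_num)
    by_cases h1 : D.CC ∩ (N ∩ D.X.nb f) = ∅
    · rw [if_pos h1]
      have := mass_mono hD hsub
      linarith
    · rw [if_neg h1]
      -- pointwise
      have p1 : D.X.ms (N.filter fun Z => D.X.lk f Z ∧ ¬ D.covd f Z) ≤
          ∑ Z ∈ N, D.X.m Z * ((if D.p.B0 < (D.CC ∩ D.X.nb f).card then 1 else 0) +
            (∑ c ∈ K, if f ∈ D.E c \ D.G c then 1 else 0) +
            ∑ c ∈ K, if f ∈ D.E c ∩ D.X.nb Z ∧ D.X.ms (D.E c ∩ D.X.nb Z) < D.p.tau D.s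
              then 1 else 0) := by
        rw [mass_filter]
        refine sum_le_sum fun Z _ => ?_
        have q : (0 : ℝ) ≤ (if D.p.B0 < (D.CC ∩ D.X.nb f).card then 1 else 0) +
            (∑ c ∈ K, if f ∈ D.E c \ D.G c then 1 else 0) +
            ∑ c ∈ K, if f ∈ D.E c ∩ D.X.nb Z ∧ D.X.ms (D.E c ∩ D.X.nb Z) < D.p.tau D.s
              then 1 else 0 := by
          refine add_nonneg (add_nonneg ?_ (sum_nonneg fun c _ => ?_)) (sum_nonneg fun c _ => ?_) <;>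
          · split_ifs <;> norm_num
        by_cases hZ : D.X.lk f Z ∧ ¬ D.covd f Z
        · rw [if_pos hZ]
          have := uncovered_cases (P := P) hD hZ.1 hZ.2
          rw [if_neg h1, zero_add] at this
          exact le_mul_of_one_le_right (hm Z) this
        · rw [if_neg hZ]
          exact mul_nonneg (hm Z) q
      refine p1.trans ?_
      simp only [mul_add, sum_add_distrib]
      rw [← sum_mul, ← sum_mul, zero_add]
      have r2 : (∑ Z ∈ N, D.X.m Z) * (if D.p.B0 < (D.CC ∩ D.X.nb f).card then (1 : ℝ) else 0) ≤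
          D.p.H * (if D.p.B0 < (D.CC ∩ D.X.nb f).card then 1 else 0) :=
        mul_le_mul_of_nonneg_right hNH (by split_ifs <;> norm_num)
      have r3 : (∑ Z ∈ N, D.X.m Z) * (∑ c ∈ K, if f ∈ D.E c \ D.G c then (1 : ℝ) else 0) ≤
          D.p.H * (∑ c ∈ K, if f ∈ D.E c \ D.G c then 1 else 0) :=
        mul_le_mul_of_nonneg_right hNH (sum_nonneg fun c _ => by split_ifs <;> norm_num)
      linarith
  -- integrate
  have s0 : D.unc P ≤ ∑ f ∈ N, D.X.m f *
      ((if D.CC ∩ (N ∩ D.X.nb f) = ∅ then D.X.ms (N ∩ D.X.nb f) else 0) +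
      D.p.H * (if D.p.B0 < (D.CC ∩ D.X.nb f).card then 1 else 0) +
      D.p.H * (∑ c ∈ K, if f ∈ D.E c \ D.G c then 1 else 0) +
      ∑ Z ∈ N, D.X.m Z * ∑ c ∈ K,
        if f ∈ D.E c ∩ D.X.nb Z ∧ D.X.ms (D.E c ∩ D.X.nb Z) < D.p.tau D.s then 1 else 0) := by
    unfold unc Sys.I
    exact sum_le_sum fun f hf => mul_le_mul_of_nonneg_left (key f hf) (hm f)
  refine s0.trans ?_
  simp only [mul_add, sum_add_distrib]
  have s2 : ∑ f ∈ N, D.X.m f * (D.p.H * (if D.p.B0 < (D.CC ∩ D.X.nb f).card then 1 else 0)) ≤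
      D.p.H * D.X.ms (N.filter fun f => D.p.B0 < (D.CC ∩ D.X.nb f).card) := by
    rw [← mass_prop, mul_sum]
    exact le_of_eq (sum_congr rfl fun f _ => by ring)
  have s3 : ∑ f ∈ N, D.X.m f * (D.p.H * (∑ c ∈ K, if f ∈ D.E c \ D.G c then 1 else 0)) ≤
      D.p.H * ∑ c ∈ K, D.X.ms (D.E c \ D.G c) := by
    have t1 : ∑ f ∈ N, D.X.m f * (D.p.H * (∑ c ∈ K, if f ∈ D.E c \ D.G c then (1 : ℝ) else 0)) =
        D.p.H * ∑ c ∈ K, D.X.ms (N ∩ (D.E c \ D.G c)) := by
      simp only [← mass_ind, mul_sum]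
      rw [sum_comm]
      exact sum_congr rfl fun c _ => sum_congr rfl fun f _ => by ring
    rw [t1]
    exact mul_le_mul_of_nonneg_left (sum_le_sum fun c _ => mass_mono hD inter_subset_right) hH
  have s4 : ∑ f ∈ N, D.X.m f * (∑ Z ∈ N, D.X.m Z * ∑ c ∈ K,
        if f ∈ D.E c ∩ D.X.nb Z ∧ D.X.ms (D.E c ∩ D.X.nb Z) < D.p.tau D.s then 1 else 0) ≤
      D.p.H * D.p.tau D.s * (K.card : ℝ) := by
    have t1 : ∑ f ∈ N, D.X.m f * (∑ Z ∈ N, D.X.m Z * ∑ c ∈ K,
        if f ∈ D.E c ∩ D.X.nb Z ∧ D.X.ms (D.E c ∩ D.X.nb Z) < D.p.tau D.s then (1 : ℝ) else 0) =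
        ∑ Z ∈ N, D.X.m Z * ∑ c ∈ K, (if D.X.ms (D.E c ∩ D.X.nb Z) < D.p.tau D.s then
          D.X.ms (N ∩ (D.E c ∩ D.X.nb Z)) else 0) := by
      have t2 : ∀ Z c, (if D.X.ms (D.E c ∩ D.X.nb Z) < D.p.tau D.s then
          D.X.ms (N ∩ (D.E c ∩ D.X.nb Z)) else 0) = ∑ f ∈ N, D.X.m f *
          (if f ∈ D.E c ∩ D.X.nb Z ∧ D.X.ms (D.E c ∩ D.X.nb Z) < D.p.tau D.s then (1 : ℝ) else 0) := by
        intro Z c
        split_ifs with h
        · rw [← mass_ind]
          refine sum_congr rfl fun f _ => ?_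
          simp only [h, and_true]
        · refine (sum_eq_zero fun f _ => ?_).symm
          rw [if_neg (fun h' => h h'.2), mul_zero]
      simp only [t2, mul_sum]
      rw [sum_comm]
      refine sum_congr rfl fun Z _ => ?_
      rw [sum_comm]
      exact sum_congr rfl fun c _ => sum_congr rfl fun f _ => by ring
    rw [t1]
    have t3 : ∀ Z ∈ N, D.X.m Z * ∑ c ∈ K, (if D.X.ms (D.E c ∩ D.X.nb Z) < D.p.tau D.s then
          D.X.ms (N ∩ (D.E c ∩ D.X.nb Z)) else 0) ≤ D.X.m Z * (K.card * D.p.tau D.s) := by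
      intro Z _
      refine mul_le_mul_of_nonneg_left ?_ (hm Z)
      rw [← nsmul_eq_mul]
      refine sum_le_card_nsmul _ _ _ fun c _ => ?_
      split_ifs with h
      · exact (mass_mono hD inter_subset_right).trans h.le
      · exact (hD.tau0 _).le
    refine (sum_le_sum t3).trans ?_
    rw [← sum_mul]
    have t4 : (0 : ℝ) ≤ K.card * D.p.tau D.s := mul_nonneg (Nat.cast_nonneg _) (hD.tau0 _).le
    refine (mul_le_mul_of_nonneg_right hNH t4).trans (le_of_eq ?_)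
    ring
  have s1 : ∑ f ∈ N, D.X.m f * (if D.CC ∩ (N ∩ D.X.nb f) = ∅ then D.X.ms (N ∩ D.X.nb f) else 0) =
      D.X.I N fun f => if D.CC ∩ (N ∩ D.X.nb f) = ∅ then D.X.ms (N ∩ D.X.nb f) else 0 := rfl
  rw [s1]
  linarith

theorem unc'_le_one (hD : D.Ok) (P : V) :
    D.unc' P ≤
      (D.X.I (D.X.nb P) fun f => if D.CC ∩ (D.X.nb P ∩ D.X.nb f) = ∅
        then D.X.ms (D.X.nb P ∩ D.X.nb f) else 0) +
      D.p.H * (D.X.ms ((D.X.nb P).filter fun f => D.p.B0 < (D.CC ∩ D.X.nb f).card)) +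
      D.p.H * ∑ c ∈ D.CC ∩ D.X.nb P, D.X.ms (D.E c \ D.G c) +
      D.p.H * D.p.tau D.s * ((D.CC ∩ D.X.nb P).card : ℝ) := by
  have hH : 0 ≤ D.p.H := by linarith [hD.X.one_le]
  have hm := hD.X.m_nonneg
  set N := D.X.nb P with hN
  set K := D.CC ∩ N with hK
  have hNH : D.X.ms N ≤ D.p.H := hD.X.deg P
  have hx : ∀ f, D.X.ms (N ∩ D.X.nb f) ≤ D.p.H := fun f => (mass_mono hD inter_subset_left).trans hNH
  have hx0 : ∀ f, 0 ≤ D.X.ms (N ∩ D.X.nb f) := fun f => mass_nonneg hD _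
  have s0 : D.unc' P ≤ ∑ f ∈ N, D.X.m f *
      ((if D.CC ∩ (N ∩ D.X.nb f) = ∅ then D.X.ms (N ∩ D.X.nb f) else 0) +
      D.p.H * (if D.p.B0 < (D.CC ∩ D.X.nb f).card then 1 else 0) +
      D.p.H * (∑ c ∈ K, if f ∈ D.E c \ D.G c then 1 else 0) +
      D.p.H * ∑ c ∈ K,
        if f ∈ D.E c ∩ D.X.nb P ∧ D.X.ms (D.E c ∩ D.X.nb P) < D.p.tau D.s then 1 else 0) := by
    unfold unc' Sys.I
    rw [sum_filter]
    refine sum_le_sum fun f hf => ?_
    have q1 : (0 : ℝ) ≤ if D.CC ∩ (N ∩ D.X.nb f) = ∅ then D.X.ms (N ∩ D.X.nb f) else 0 := by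
      split_ifs
      · exact hx0 f
      · exact le_rfl
    have q2 : (0 : ℝ) ≤ if D.p.B0 < (D.CC ∩ D.X.nb f).card then 1 else 0 := by
      split_ifs <;> norm_num
    have q3 : (0 : ℝ) ≤ ∑ c ∈ K, if f ∈ D.E c \ D.G c then 1 else 0 :=
      sum_nonneg fun c _ => by split_ifs <;> norm_num
    have q4 : (0 : ℝ) ≤ ∑ c ∈ K,
        if f ∈ D.E c ∩ D.X.nb P ∧ D.X.ms (D.E c ∩ D.X.nb P) < D.p.tau D.s then 1 else 0 :=
      sum_nonneg fun c _ => by split_ifs <;> norm_num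
    have q5 := mul_nonneg hH q2
    have q6 := mul_nonneg hH q3
    have q7 := mul_nonneg hH q4
    by_cases h : ¬ D.covd f P
    · rw [if_pos h]
      refine mul_le_mul_of_nonneg_left ?_ (hm f)
      have hlk : D.X.lk f P := by
        unfold Sys.nb at hf
        exact (mem_filter.1 hf).2
      have hc := uncovered_cases (P := P) hD hlk h
      by_cases h1 : D.CC ∩ (N ∩ D.X.nb f) = ∅
      · rw [if_pos h1]
        linarith
      · rw [if_neg h1, zero_add] at hc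
        rw [if_neg h1, zero_add]
        have h2 := hx f
        have h3 : D.p.H * 1 ≤ D.p.H * ((if D.p.B0 < (D.CC ∩ D.X.nb f).card then 1 else 0) +
          (∑ c ∈ K, if f ∈ D.E c \ D.G c then 1 else 0) + ∑ c ∈ K,
          if f ∈ D.E c ∩ D.X.nb P ∧ D.X.ms (D.E c ∩ D.X.nb P) < D.p.tau D.s then 1 else 0) :=
          mul_le_mul_of_nonneg_left hc hH
        linarith
    · rw [if_neg h]
      refine mul_nonneg (hm f) ?_
      linarith
  refine s0.trans ?_
  simp only [mul_add, sum_add_distrib]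
  have s2 : ∑ f ∈ N, D.X.m f * (D.p.H * (if D.p.B0 < (D.CC ∩ D.X.nb f).card then 1 else 0)) ≤
      D.p.H * D.X.ms (N.filter fun f => D.p.B0 < (D.CC ∩ D.X.nb f).card) := by
    rw [← mass_prop, mul_sum]
    exact le_of_eq (sum_congr rfl fun f _ => by ring)
  have s3 : ∑ f ∈ N, D.X.m f * (D.p.H * (∑ c ∈ K, if f ∈ D.E c \ D.G c then 1 else 0)) ≤
      D.p.H * ∑ c ∈ K, D.X.ms (D.E c \ D.G c) := by
    have t1 : ∑ f ∈ N, D.X.m f * (D.p.H * (∑ c ∈ K, if f ∈ D.E c \ D.G c then (1 : ℝ) else 0)) =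
        D.p.H * ∑ c ∈ K, D.X.ms (N ∩ (D.E c \ D.G c)) := by
      simp only [← mass_ind, mul_sum]
      rw [sum_comm]
      exact sum_congr rfl fun c _ => sum_congr rfl fun f _ => by ring
    rw [t1]
    exact mul_le_mul_of_nonneg_left (sum_le_sum fun c _ => mass_mono hD inter_subset_right) hH
  have s4 : ∑ f ∈ N, D.X.m f * (D.p.H * ∑ c ∈ K,
        if f ∈ D.E c ∩ D.X.nb P ∧ D.X.ms (D.E c ∩ D.X.nb P) < D.p.tau D.s then 1 else 0) ≤
      D.p.H * D.p.tau D.s * (K.card : ℝ) := by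
    have t1 : ∑ f ∈ N, D.X.m f * (D.p.H * ∑ c ∈ K,
        if f ∈ D.E c ∩ D.X.nb P ∧ D.X.ms (D.E c ∩ D.X.nb P) < D.p.tau D.s then (1 : ℝ) else 0) =
        D.p.H * ∑ c ∈ K, (if D.X.ms (D.E c ∩ D.X.nb P) < D.p.tau D.s then
          D.X.ms (N ∩ (D.E c ∩ D.X.nb P)) else 0) := by
      have t2 : ∀ c, (if D.X.ms (D.E c ∩ D.X.nb P) < D.p.tau D.s then
          D.X.ms (N ∩ (D.E c ∩ D.X.nb P)) else 0) = ∑ f ∈ N, D.X.m f *
          (if f ∈ D.E c ∩ D.X.nb P ∧ D.X.ms (D.E c ∩ D.X.nb P) < D.p.tau D.s then (1 : ℝ) else 0) := by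
        intro c
        split_ifs with h
        · rw [← mass_ind]
          refine sum_congr rfl fun f _ => ?_
          simp only [h, and_true]
        · refine (sum_eq_zero fun f _ => ?_).symm
          rw [if_neg (fun h' => h h'.2), mul_zero]
      simp only [t2, mul_sum]
      rw [sum_comm]
      exact sum_congr rfl fun c _ => sum_congr rfl fun f _ => by ring
    rw [t1]
    have t3 : ∑ c ∈ K, (if D.X.ms (D.E c ∩ D.X.nb P) < D.p.tau D.s then
          D.X.ms (N ∩ (D.E c ∩ D.X.nb P)) else 0) ≤ K.card * D.p.tau D.s := by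
      rw [← nsmul_eq_mul]
      refine sum_le_card_nsmul _ _ _ fun c _ => ?_
      split_ifs with h
      · exact (mass_mono hD inter_subset_right).trans h.le
      · exact (hD.tau0 _).le
    refine (mul_le_mul_of_nonneg_left t3 hH).trans (le_of_eq ?_)
    ring
  have s1 : ∑ f ∈ N, D.X.m f * (if D.CC ∩ (N ∩ D.X.nb f) = ∅ then D.X.ms (N ∩ D.X.nb f) else 0) =
      D.X.I N fun f => if D.CC ∩ (N ∩ D.X.nb f) = ∅ then D.X.ms (N ∩ D.X.nb f) else 0 := rfl
  rw [s1]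
  linarith

/-- Uncovered pairs for fixed centres: the four reasons. -/
theorem unc_le (hD : D.Ok) (P : V) :
    D.unc P + D.unc' P ≤
      2 * (D.X.I (D.X.nb P) fun f => if D.CC ∩ (D.X.nb P ∩ D.X.nb f) = ∅
        then D.X.ms (D.X.nb P ∩ D.X.nb f) else 0) +
      2 * D.p.H * (D.X.ms ((D.X.nb P).filter fun f => D.p.B0 < (D.CC ∩ D.X.nb f).card)) +
      2 * D.p.H * ∑ c ∈ D.CC ∩ D.X.nb P, D.X.ms (D.E c \ D.G c) +
      2 * D.p.H * D.p.tau D.s * ((D.CC ∩ D.X.nb P).card : ℝ) := by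
  have h1 := unc_le_one hD P
  have h2 := unc'_le_one hD P
  linarith

end Ctx

end Pool.Agent.AcyS
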