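import Mathlib

/-!
# Random worlds: Bernoulli centres and the coverage lemmas
-/

set_option autoImplicit false
set_option linter.unusedSectionVars false
set_option linter.unusedVariables false

namespace Pool.Agent.AcyS.Cv

open Finset

noncomputable section

open Classical in
/-- the neighbourhood of a site -/
def nb {V : Type*} [Fintype V] (A : V → V → Prop) (P : V) : Finset V := univ.filter fun Z => A P Z

/-- the mass of a set -/
def ms {V : Type*} (m : V → ℝ) (T : Finset V) : ℝ := ∑ f ∈ T, m f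

open Classical in
/-- the weight of the random set of centres: independent, `v` is a centre with probability `p v` -/
def wt {V : Type*} [Fintype V] (p : V → ℝ) (S : Finset V) : ℝ := (∏ v ∈ S, p v) * ∏ v ∈ univ \ S, (1 - p v)

/-- the expectation -/
def EE {V : Type*} [Fintype V] (p : V → ℝ) (F : Finset V → ℝ) : ℝ := ∑ S : Finset V, wt p S * F S

/-- the probability of being a centre, for the intensity `q` -/
def pq {V : Type*} (q : ℝ) (m : V → ℝ) (v : V) : ℝ := 1 - Real.exp (-(q * m v))

section basic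

variable {V : Type*} [Fintype V] {p : V → ℝ}

theorem mem_nb {A : V → V → Prop} {P Z : V} : Z ∈ nb A P ↔ A P Z := by
  unfold nb
  simp

theorem ms_nonneg {m : V → ℝ} (hm : ∀ v, 0 ≤ m v) (T : Finset V) : 0 ≤ ms m T :=
  sum_nonneg fun v _ => hm v

theorem ms_mono {m : V → ℝ} (hm : ∀ v, 0 ≤ m v) {T U : Finset V} (h : T ⊆ U) : ms m T ≤ ms m U :=
  sum_le_sum_of_subset_of_nonneg h fun v _ _ => hm v

open Classical in
theorem EE_prod (a b : V → ℝ) :
    EE p (fun S => ∏ v, if v ∈ S then a v else b v) = ∏ v, (p v * a v + (1 - p v) * b v) := by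
  rw [prod_add (fun v => p v * a v) (fun v => (1 - p v) * b v) univ]
  unfold EE
  rw [powerset_univ]
  refine sum_congr rfl fun S _ => ?_
  unfold wt
  have h : ∏ v, (if v ∈ S then a v else b v) = (∏ v ∈ S, a v) * ∏ v ∈ univ \ S, b v := by
    rw [prod_ite]
    congr 1
    · congr 1
      ext v
      simp
    · congr 1
      ext v
      simp
  show ((∏ v ∈ S, p v) * ∏ v ∈ univ \ S, (1 - p v)) * (∏ v, if v ∈ S then a v else b v) = _
  rw [h, prod_mul_distrib, prod_mul_distrib]
  ring

theorem wt_nonneg (hp0 : ∀ v, 0 ≤ p v) (hp1 : ∀ v, p v ≤ 1) (S : Finset V) : 0 ≤ wt p S :=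
  mul_nonneg (prod_nonneg fun v _ => hp0 v) (prod_nonneg fun v _ => sub_nonneg.2 (hp1 v))

theorem EE_one : EE p (fun _ => 1) = 1 := by
  classical
  have h := EE_prod (p := p) (fun _ => 1) (fun _ => 1)
  simp only [mul_one, add_sub_cancel, prod_const_one, ite_self] at h
  exact h

theorem EE_add (F G : Finset V → ℝ) : EE p (fun S => F S + G S) = EE p F + EE p G := by
  unfold EE
  rw [← sum_add_distrib]
  exact sum_congr rfl fun S _ => mul_add _ _ _

theorem EE_const_mul (c : ℝ) (F : Finset V → ℝ) : EE p (fun S => c * F S) = c * EE p F := by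
  unfold EE
  rw [mul_sum]
  refine sum_congr rfl fun S _ => ?_
  ring

theorem EE_const (c : ℝ) : EE p (fun _ => c) = c := by
  have h := EE_const_mul (p := p) c (fun _ => 1)
  rw [EE_one] at h
  simpa using h

theorem EE_sum {ι : Type*} (T : Finset ι) (F : ι → Finset V → ℝ) :
    EE p (fun S => ∑ i ∈ T, F i S) = ∑ i ∈ T, EE p (F i) := by
  unfold EE
  rw [sum_comm]
  refine sum_congr rfl fun S _ => ?_
  rw [mul_sum]

theorem EE_mono (hp0 : ∀ v, 0 ≤ p v) (hp1 : ∀ v, p v ≤ 1) {F G : Finset V → ℝ} (h : ∀ S, F S ≤ G S) :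
    EE p F ≤ EE p G :=
  sum_le_sum fun S _ => mul_le_mul_of_nonneg_left (h S) (wt_nonneg hp0 hp1 S)

theorem EE_nonneg (hp0 : ∀ v, 0 ≤ p v) (hp1 : ∀ v, p v ≤ 1) {F : Finset V → ℝ} (h : ∀ S, 0 ≤ F S) :
    0 ≤ EE p F :=
  sum_nonneg fun S _ => mul_nonneg (wt_nonneg hp0 hp1 S) (h S)

open Classical in
/-- the probability that no element of `T` is a centre -/
theorem EE_none (T : Finset V) :
    EE p (fun S => if Disjoint S T then 1 else 0) = ∏ v ∈ T, (1 - p v) := by
  have h := EE_prod (p := p) (fun v => if v ∈ T then 0 else 1) (fun _ => 1)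
  have h1 : ∀ S : Finset V, (∏ v, if v ∈ S then (if v ∈ T then (0 : ℝ) else 1) else 1) =
      if Disjoint S T then 1 else 0 := by
    intro S
    split_ifs with hd
    · refine prod_eq_one fun v _ => ?_
      split_ifs with h1 h2
      · exact absurd h2 (Finset.disjoint_left.1 hd h1)
      · rfl
      · rfl
    · rw [Finset.not_disjoint_iff] at hd
      obtain ⟨v, hv, hv'⟩ := hd
      exact prod_eq_zero (mem_univ v) (by rw [if_pos hv, if_pos hv'])
  simp only [h1] at h
  rw [h]
  have h2 : ∀ v, p v * (if v ∈ T then (0 : ℝ) else 1) + (1 - p v) * 1 = if v ∈ T then 1 - p v else 1 := by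
    intro v
    split_ifs <;> ring
  simp only [h2]
  rw [prod_ite]
  simp

open Classical in
theorem EE_mem (c : V) : EE p (fun S => if c ∈ S then 1 else 0) = p c := by
  have h := EE_prod (p := p) (fun _ => 1) (fun v => if v = c then 0 else 1)
  have h1 : ∀ S : Finset V, (∏ v, if v ∈ S then (1 : ℝ) else (if v = c then 0 else 1)) =
      if c ∈ S then 1 else 0 := by
    intro S
    split_ifs with hc
    · refine prod_eq_one fun v _ => ?_
      split_ifs with h1 h2
      · rfl
      · rw [h2] at h1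
        exact absurd hc h1
      · rfl
    · exact prod_eq_zero (mem_univ c) (by rw [if_neg hc, if_pos rfl])
  simp only [h1] at h
  rw [h, prod_eq_single c]
  · simp
  · intro v _ hv
    rw [if_neg hv]
    ring
  · simp

open Classical in
theorem EE_mem2 {c d : V} (hcd : c ≠ d) :
    EE p (fun S => if c ∈ S ∧ d ∈ S then 1 else 0) = p c * p d := by
  have h := EE_prod (p := p) (fun _ => 1) (fun v => if v = c ∨ v = d then 0 else 1)
  have h1 : ∀ S : Finset V, (∏ v, if v ∈ S then (1 : ℝ) else (if v = c ∨ v = d then 0 else 1)) =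
      if c ∈ S ∧ d ∈ S then 1 else 0 := by
    intro S
    split_ifs with hc
    · refine prod_eq_one fun v _ => ?_
      split_ifs with h1 h2
      · rfl
      · rcases h2 with h2 | h2
        · rw [h2] at h1
          exact absurd hc.1 h1
        · rw [h2] at h1
          exact absurd hc.2 h1
      · rfl
    · rw [not_and_or] at hc
      rcases hc with hc | hc
      · exact prod_eq_zero (mem_univ c) (by rw [if_neg hc, if_pos (Or.inl rfl)])
      · exact prod_eq_zero (mem_univ d) (by rw [if_neg hc, if_pos (Or.inr rfl)])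
  simp only [h1] at h
  rw [h]
  have h2 : ∀ v, p v * 1 + (1 - p v) * (if v = c ∨ v = d then (0 : ℝ) else 1) =
      if v ∈ ({c, d} : Finset V) then p v else 1 := by
    intro v
    simp only [mem_insert, mem_singleton]
    split_ifs <;> ring
  simp only [h2]
  rw [prod_ite, prod_const_one, mul_one]
  have h3 : (univ.filter fun v => v ∈ ({c, d} : Finset V)) = {c, d} := by
    ext v
    simp
  rw [h3, prod_pair hcd]

open Classical in
theorem EE_card (T : Finset V) : EE p (fun S => ((S ∩ T).card : ℝ)) = ∑ v ∈ T, p v := by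
  have h : ∀ S : Finset V, ((S ∩ T).card : ℝ) = ∑ v ∈ T, if v ∈ S then 1 else 0 := by
    intro S
    rw [sum_boole]
    congr 2
    ext v
    simp [and_comm]
  simp only [h]
  rw [EE_sum]
  exact sum_congr rfl fun v _ => EE_mem v

open Classical in
theorem EE_mem_card (hp0 : ∀ v, 0 ≤ p v) (hp1 : ∀ v, p v ≤ 1) (c : V) (T : Finset V) :
    EE p (fun S => (if c ∈ S then 1 else 0) * ((S ∩ T).card : ℝ)) ≤ p c * (1 + ∑ v ∈ T, p v) := by
  have h : ∀ S : Finset V, (if c ∈ S then (1 : ℝ) else 0) * ((S ∩ T).card : ℝ) =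
      ∑ v ∈ T, if c ∈ S ∧ v ∈ S then 1 else 0 := by
    intro S
    have : ((S ∩ T).card : ℝ) = ∑ v ∈ T, if v ∈ S then 1 else 0 := by
      rw [sum_boole]
      congr 2
      ext v
      simp [and_comm]
    rw [this, mul_sum]
    refine sum_congr rfl fun v _ => ?_
    by_cases hc : c ∈ S <;> by_cases hv : v ∈ S <;> simp [hc, hv]
  simp only [h]
  rw [EE_sum]
  have h1 : ∀ v ∈ T, EE p (fun S => if c ∈ S ∧ v ∈ S then (1 : ℝ) else 0) ≤
      (if v = c then p c else 0) + p c * p v := by
    intro v _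
    split_ifs with hv
    · rw [hv]
      have e : ∀ S : Finset V, (if c ∈ S ∧ c ∈ S then (1 : ℝ) else 0) = if c ∈ S then 1 else 0 := by
        intro S
        simp
      simp only [e]
      rw [EE_mem]
      nlinarith [hp0 c]
    · rw [EE_mem2 (Ne.symm hv), zero_add]
  refine (sum_le_sum h1).trans ?_
  rw [sum_add_distrib, ← mul_sum, mul_add, mul_one]
  have h2 : ∑ v ∈ T, (if v = c then p c else 0) ≤ p c := by
    rw [sum_ite_eq']
    split_ifs
    · exact le_rfl
    · exact hp0 c
  linarith

theorem pq_nonneg {q : ℝ} (hq : 0 ≤ q) {m : V → ℝ} (hm : ∀ v, 0 ≤ m v) (v : V) : 0 ≤ pq q m v := by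
  unfold pq
  have h := Real.exp_le_one_iff.2 (neg_nonpos.2 (mul_nonneg hq (hm v)))
  linarith

theorem pq_le_one (q : ℝ) (m : V → ℝ) (v : V) : pq q m v ≤ 1 := by
  unfold pq
  have := Real.exp_pos (-(q * m v))
  linarith

theorem pq_le (q : ℝ) (m : V → ℝ) (v : V) : pq q m v ≤ q * m v := by
  unfold pq
  have := Real.add_one_le_exp (-(q * m v))
  linarith

theorem sum_pq_le (q : ℝ) (m : V → ℝ) (T : Finset V) : ∑ v ∈ T, pq q m v ≤ q * ms m T := by
  unfold ms
  rw [mul_sum]
  exact sum_le_sum fun v _ => pq_le q m v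

open Classical in
theorem EE_none_pq (q : ℝ) (m : V → ℝ) (T : Finset V) :
    EE (pq q m) (fun S => if Disjoint S T then 1 else 0) = Real.exp (-(q * ms m T)) := by
  rw [EE_none]
  unfold ms
  rw [mul_sum, ← sum_neg_distrib, Real.exp_sum]
  refine prod_congr rfl fun v _ => ?_
  unfold pq
  ring

end basic

end

end Pool.Agent.AcyS.Cv
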