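import Mathlib

/-! # Definitions for the static one-interval theorem (project MP_af9dfb_S)

See `MP_af9dfb_thmS.md` in the team store. -/

set_option autoImplicit false
set_option linter.unusedSectionVars false

namespace Pool.Agent.AcyS

open Finset
open scoped Classical

universe u

/-- A finite weighted set with links. -/
structure Sys (V : Type u) where
  /-- weights -/
  m : V → ℝ
  /-- links -/
  lk : V → V → Prop

/-- Constants of the static theorem. -/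
structure Par where
  H : ℝ
  q0 : ℝ
  B0 : ℕ
  ga : ℝ
  e' : ℝ
  e1 : ℝ
  e2 : ℝ
  e3 : ℝ
  eG : ℝ
  ep : ℝ
  be : ℝ
  S : ℕ
  tau : ℕ → ℝ
  rho : ℕ → ℝ
  N : ℕ → ℕ
  mu : ℕ → ℝ
  T : ℕ → ℝ
  del : ℕ → ℝ

section

variable {V : Type u} [Fintype V]

namespace Sys

variable (X : Sys V)

/-- Neighbours. -/
noncomputable def nb (P : V) : Finset V := univ.filter fun f => X.lk f P

/-- Indicator of the neighbourhood of `P`. -/
noncomputable def n (P f : V) : ℝ := if X.lk f P then 1 else 0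

/-- Integral. -/
noncomputable def I (S : Finset V) (g : V → ℝ) : ℝ := ∑ f ∈ S, X.m f * g f

/-- Mass. -/
noncomputable def ms (S : Finset V) : ℝ := ∑ f ∈ S, X.m f

/-- Mass of a property. -/
noncomputable def mp (p : V → Prop) : ℝ := X.ms (univ.filter p)

/-- Basic hypotheses. -/
structure Ok (H : ℝ) : Prop where
  m_nonneg : ∀ f, 0 ≤ X.m f
  symm : ∀ f g, X.lk f g → X.lk g f
  irrefl : ∀ f, ¬ X.lk f f
  one_le : 1 ≤ H
  deg : ∀ P, X.ms (X.nb P) ≤ H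

/-- `t` is a transport kernel on the set `o`. -/
structure KerOK (o : Finset V) (T e : ℝ) (t : V → V → ℝ) : Prop where
  symm : ∀ f P, t f P = t P f
  nonneg : ∀ f P, 0 ≤ t f P
  le : ∀ f P, t f P ≤ T
  supp : ∀ f P, t f P ≠ 0 → f ∈ o ∧ P ∈ o ∧ ¬ X.lk f P
  row : ∀ f, ∑ P, X.m P * t f P ≤ 1
  psd : ∀ a : V → ℝ, (∀ f, 0 ≤ a f) → (∀ f, a f ≤ 1) → (∀ f, f ∉ o → a f = 0) →
    (X.I o a) ^ 2 / X.ms o - e * X.I o a ≤
      ∑ f, ∑ P, X.m f * X.m P * (a f * t f P * a P)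

/-- Transport kernels exist on all large sets of neighbours. -/
def Ker (T : ℝ → ℝ → ℝ) : Prop :=
  ∀ μ e, 0 < μ → 0 < e → ∀ c (o : Finset V), o ⊆ X.nb c → μ ≤ X.ms o →
    ∃ t : V → V → ℝ, X.KerOK o (T μ e) e t

/-- The cell of `f`. -/
noncomputable def cell (E : Finset V) (φ : V → ℕ) (f : V) : Finset V :=
  E.filter fun g => φ g = φ f

/-- Average of `g` over the cell of `f`. -/
noncomputable def avg (E : Finset V) (φ : V → ℕ) (g : V → ℝ) (f : V) : ℝ :=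
  X.I (cell E φ f) g / X.ms (cell E φ f)

/-- Conditional covariance of the neighbourhoods of `Z` and `Z'`. -/
noncomputable def cov (E : Finset V) (φ : V → ℕ) (Z Z' f : V) : ℝ :=
  X.avg E φ (fun g => X.n Z g * X.n Z' g) f - X.avg E φ (X.n Z) f * X.avg E φ (X.n Z') f

/-- One-sided regularity. -/
def Reg (E : Finset V) (φ : V → ℕ) (W : Finset V) (ρ : ℝ) : Prop :=
  ∑ Z ∈ W, ∑ Z' ∈ W, X.m Z * X.m Z' * X.I E (fun f => |X.cov E φ Z Z' f|) ≤ ρ

end Sys

/-- `φ'` refines `φ` on `E`. -/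
def Ref (E : Finset V) (φ' φ : V → ℕ) : Prop :=
  ∀ f ∈ E, ∀ g ∈ E, φ' f = φ' g → φ f = φ g

/-- `A` is a union of cells. -/
def Sat (E : Finset V) (φ : V → ℕ) (A : Finset V) : Prop :=
  A ⊆ E ∧ ∀ f ∈ A, ∀ g ∈ E, φ f = φ g → g ∈ A

/-- `w` is constant on cells. -/
def Meas (E : Finset V) (φ : V → ℕ) (w : V → ℝ) : Prop :=
  ∀ f ∈ E, ∀ g ∈ E, φ f = φ g → w f = w g

/-- The data of the rule: system, constants, centres, labels (level, world, site), kernels,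
level, order. -/
structure Ctx (V : Type u) where
  X : Sys V
  p : Par
  CC : Finset V
  φ : ℕ → V → V → ℕ
  κ : Finset V → V → V → ℝ
  s : ℕ
  ord : V → ℕ

namespace Ctx

variable (D : Ctx V)

/-- Sites with few centres. -/
noncomputable def ok : Finset V := univ.filter fun f => (D.CC ∩ D.X.nb f).card ≤ D.p.B0

/-- The world of the centre `c`. -/
noncomputable def E (c : V) : Finset V := D.X.nb c ∩ D.ok

/-- Overlap. -/
noncomputable def ov (c c' : V) : ℝ := D.X.ms (D.E c ∩ D.E c')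

/-- Test sites of level `r`. -/
noncomputable def W (r : ℕ) (c : V) : Finset V :=
  univ.filter fun Z => D.p.tau r ≤ D.X.ms (D.E c ∩ D.X.nb Z)

/-- The properties of the levels. -/
structure LevOK : Prop where
  ref : ∀ r < D.p.S + 4, ∀ c ∈ D.CC, Ref (D.E c) (D.φ (r + 1) c) (D.φ r c)
  tr : ∀ r < D.p.S + 4, ∀ c ∈ D.CC, ∀ c' ∈ D.CC, D.p.del r ≤ D.ov c c' →
    ∀ f ∈ D.E c, ∀ g ∈ D.E c, D.φ (r + 1) c f = D.φ (r + 1) c g →
      (f ∈ D.E c' ↔ g ∈ D.E c') ∧ (f ∈ D.E c' → D.φ r c' f = D.φ r c' g)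
  card : ∀ r ≤ D.p.S + 4, ∀ c ∈ D.CC, ((D.E c).image (D.φ r c)).card ≤ D.p.N r
  reg : ∀ r ≤ D.p.S + 4, 1 ≤ r → ∀ c ∈ D.CC,
    D.X.Reg (D.E c) (D.φ r c) (D.W r c) (D.p.rho r)

/-- Conditional density of the neighbourhood of `Z` in the world `c` at level `r`. -/
noncomputable def th (r : ℕ) (c Z f : V) : ℝ := D.X.avg (D.E c) (D.φ r c) (D.X.n Z) f

/-- Relevant worlds of `Z`. -/
noncomputable def R (Z : V) : Finset V :=
  D.CC.filter fun c => D.p.tau D.s ≤ D.X.ms (D.E c ∩ D.X.nb Z)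

noncomputable def bad1 (c f : V) : ℝ := D.X.mp fun Z => c ∈ D.R Z ∧ ∃ c' ∈ D.R Z,
  D.p.del D.s ≤ D.ov c c' ∧ f ∈ D.E c' ∧ 1 - 2 * D.p.be < D.th (D.s + 3) c' Z f ∧
    D.th D.s c Z f ≤ 1 - 3 * D.p.be

noncomputable def bad2 (c f : V) : ℝ := D.X.mp fun Z => c ∈ D.R Z ∧
  1 - 3 * D.p.be < D.th D.s c Z f ∧ ¬ D.X.lk f Z

noncomputable def bad3 (c f : V) : ℝ := D.X.mp fun Z => D.X.lk f Z ∧
  D.p.tau (D.s + 2) ≤ D.X.ms (D.E c ∩ D.X.nb Z) ∧ D.X.ms (D.E c ∩ D.X.nb Z) < D.p.tau D.s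

noncomputable def bad4 (c f : V) : ℝ := D.X.mp fun Z => c ∈ D.R Z ∧ ∃ c' ∈ D.R Z,
  D.ov c c' < D.p.del D.s ∧ f ∈ D.E c'

noncomputable def bad5 (c f : V) : ℝ := D.X.mp fun Z => c ∈ D.R Z ∧
  1 - D.p.be < D.th D.s c Z f ∧ D.th (D.s + 3) c Z f ≤ 1 - 2 * D.p.be

/-- Individually good sites of the world `c`. -/
noncomputable def g (c : V) : Finset V := (D.E c).filter fun f =>
  D.bad1 c f ≤ D.p.ep ∧ D.bad2 c f ≤ D.p.ep ∧ D.bad3 c f ≤ D.p.ep ∧ D.bad4 c f ≤ D.p.ep ∧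
    D.bad5 c f ≤ D.p.ep

/-- Lower bound for the mass of the good cells. -/
noncomputable def mu' : ℝ := D.p.eG / (2 * D.p.N D.s)

/-- Union of the good cells of the world `c`. -/
noncomputable def G (c : V) : Finset V := (D.E c).filter fun f =>
  D.mu' ≤ D.X.ms (Sys.cell (D.E c) (D.φ D.s c) f) ∧
    D.X.ms (Sys.cell (D.E c) (D.φ D.s c) f \ D.g c) ≤
      D.p.e1 * D.X.ms (Sys.cell (D.E c) (D.φ D.s c) f)

/-- The sites `f` for which `c` is the world of the pair `(f, Z)`. -/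
noncomputable def dom (c Z : V) : Finset V := (D.G c).filter fun f =>
  c ∈ D.R Z ∧ ∀ c' ∈ D.R Z, D.ord c' < D.ord c → f ∉ D.G c'

/-- The pair `(f, Z)` is covered. -/
def covd (f Z : V) : Prop := ∃ c ∈ D.CC, f ∈ D.dom c Z

/-- Class pairs. -/
noncomputable def cl (c Z : V) : Finset V := (D.dom c Z).filter fun f =>
  D.th D.s c Z f ≤ 1 - D.p.be ∧ D.th (D.s + 3) c Z f ≤ 1 - D.p.be / 2

/-- Nearly complete pairs. -/
noncomputable def nc (c Z : V) : Finset V := (D.dom c Z).filter fun f =>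
  1 - D.p.be < D.th D.s c Z f

/-- Defect pairs. -/
noncomputable def df (c Z : V) : Finset V := (D.dom c Z).filter fun f =>
  D.th D.s c Z f ≤ 1 - D.p.be ∧ 1 - D.p.be / 2 < D.th (D.s + 3) c Z f

/-- Response of `Z` to the firing of an unlinked site `f`. -/
noncomputable def r (Z f : V) : ℝ := ∑ c ∈ D.CC,
  if f ∈ D.cl c Z then D.th (D.s + 3) c Z f / (1 - D.th (D.s + 3) c Z f) else 0

/-- Row of `Z` without own boosts. -/
noncomputable def h (Z f : V) : ℝ := - D.X.n Z f + (1 - D.X.n Z f) * D.r Z f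

/-- Own cell of `f` in the world `c`. -/
noncomputable def oc (c f : V) : Finset V := Sys.cell (D.E c) (D.φ (D.s + 1) c) f

/-- The own cell of `f` in the world `c` is active. -/
def act (c f : V) : Prop := f ∈ D.E c ∧ D.oc c f ⊆ D.G c ∧
  D.p.mu (D.s + 1) ≤ D.X.ms (D.oc c f) ∧
    D.X.ms (D.oc c f \ D.g c) ≤ D.p.e2 * D.X.ms (D.oc c f)

/-- `Z` is nearly complete to the own cell `o` of the world `c`. -/
def Act (c : V) (o : Finset V) (Z : V) : Prop := c ∈ D.R Z ∧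
  (∀ f ∈ o, 1 - D.p.be < D.th D.s c Z f) ∧
    ∀ c' ∈ D.R Z, D.ord c' < D.ord c → D.p.del D.s ≤ D.ov c c' → ∀ f ∈ o, f ∉ D.G c'

/-- Participants of the transport for `Z` in the own cell `o`. -/
noncomputable def oZ (c : V) (o : Finset V) (Z : V) : Finset V :=
  o.filter fun f => D.Act c o Z ∧ f ∈ D.g c ∧ D.X.lk f Z ∧ f ∈ D.dom c Z ∧
    1 - 2 * D.p.be < D.th (D.s + 3) c Z f

/-- Own boosts. -/
noncomputable def b (P f : V) : ℝ := ∑ c ∈ D.CC,
  if D.act c f ∧ P ∈ D.oc c f then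
    D.κ (D.oc c f) f P * D.X.mp (fun Z => f ∈ D.oZ c (D.oc c f) Z ∧ P ∈ D.oZ c (D.oc c f) Z)
  else 0

/-- The column of `f`. -/
noncomputable def u (P f : V) : ℝ := D.h P f + D.b P f

/-- Drift. -/
noncomputable def drift (P : V) : ℝ := D.X.I univ fun f => D.u P f * D.X.I (D.X.nb P) fun Z => D.u Z f

/-- Energy increment of `Z`. -/
noncomputable def inc (Z : V) : ℝ := ∑ c ∈ D.CC,
  D.X.I (D.E c) fun f => (D.th (D.s + 4) c Z f - D.th D.s c Z f) ^ 2

/-- Energy increment of the world `c`. -/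
noncomputable def ic (c : V) : ℝ := D.X.I univ fun Z =>
  D.X.I (D.E c) fun f => (D.th (D.s + 4) c Z f - D.th D.s c Z f) ^ 2

/-- Uncovered pairs in the neighbourhood of `P`. -/
noncomputable def unc (P : V) : ℝ := D.X.I (D.X.nb P) fun f =>
  D.X.ms ((D.X.nb P).filter fun Z => D.X.lk f Z ∧ ¬ D.covd f Z)

/-- Uncovered pairs with `P`. -/
noncomputable def unc' (P : V) : ℝ := D.X.I ((D.X.nb P).filter fun f => ¬ D.covd f P) fun f =>
  D.X.ms (D.X.nb P ∩ D.X.nb f)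

/-- Union of the nearly complete pairs of `P`. -/
noncomputable def ncs (P : V) : Finset V := univ.filter fun f => ∃ c ∈ D.CC, f ∈ D.nc c P

/-- Class part of the row of `P`. -/
noncomputable def hcl (P f : V) : ℝ := if ∃ c ∈ D.CC, f ∈ D.cl c P then D.h P f else 0

/-- Class part of the change of the neighbourhood. -/
noncomputable def Psi (P f : V) : ℝ := D.X.I (D.X.nb P) fun Z => D.hcl Z f

/-- Nearly complete kills in the neighbourhood of `P`. -/
noncomputable def kap (P f : V) : ℝ := D.X.I (D.X.nb P) fun Z =>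
  if f ∈ D.ncs Z then D.X.n Z f else 0

/-- The same in the world `c`. -/
noncomputable def kapc (c P f : V) : ℝ := D.X.I (D.X.nb P) fun Z =>
  if f ∈ D.nc c Z then D.X.n Z f else 0

/-- Plain kills in the neighbourhood of `P`. -/
noncomputable def ups (P f : V) : ℝ := D.X.I (D.X.nb P) fun Z =>
  if ¬ D.covd f Z ∨ ∃ c ∈ D.CC, f ∈ D.df c Z then D.X.n Z f else 0

/-- Own boosts in the neighbourhood of `P`. -/
noncomputable def vv (P f : V) : ℝ := D.X.I (D.X.nb P) fun Z => D.b Z f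

/-- Own boosts in the neighbourhood of `P` that come from the own cell of `f` in the world
`c`. -/
noncomputable def vo (c P f : V) : ℝ := if D.act c f then
  D.X.I univ fun Z => if f ∈ D.oZ c (D.oc c f) Z then
    D.X.I (D.oZ c (D.oc c f) Z ∩ D.X.nb P) fun Q => D.κ (D.oc c f) f Q else 0
  else 0

/-- Mass of the sites that are nearly complete to the own cell of `f`. -/
noncomputable def Do (c f : V) : ℝ := D.X.mp fun Z => D.Act c (D.oc c f) Z

/-- Larger version of `dom` (worlds with small overlap are ignored). -/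
noncomputable def dm (c Z : V) : Finset V := (D.G c).filter fun f =>
  c ∈ D.R Z ∧ ∀ c' ∈ D.R Z, D.ord c' < D.ord c → D.p.del (D.s + 1) ≤ D.ov c c' → f ∉ D.G c'

/-- Hypotheses on constants and kernels for the estimate with fixed centres and level. -/
structure Ok : Prop where
  X : D.X.Ok D.p.H
  lev : D.LevOK
  ker : ∀ c ∈ D.CC, ∀ f, D.act c f → D.X.KerOK (D.oc c f) (D.p.T (D.s + 1)) D.p.e' (D.κ (D.oc c f))
  ord : Function.Injective D.ord
  s_lt : D.s < D.p.S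
  B0 : 1 ≤ D.p.B0
  ga0 : 0 < D.p.ga
  ga1 : D.p.ga ≤ 1 / 8
  e'0 : 0 < D.p.e'
  e10 : 0 < D.p.e1
  e20 : 0 < D.p.e2
  e21 : D.p.e2 ≤ 1 / 8
  e30 : 0 < D.p.e3
  e1e : D.p.e1 = D.p.e2 * D.p.e3 / 2
  eG0 : 0 < D.p.eG
  ep0 : 0 < D.p.ep
  ep1 : 3 * D.p.ep ≤ D.p.H
  be0 : 0 < D.p.be
  be1 : D.p.be ≤ 1 / 12
  bega : D.p.be ≤ D.p.ga / 4
  tau0 : ∀ r, 0 < D.p.tau r
  tau1 : ∀ r, D.p.tau (r + 1) ≤ D.p.tau r
  del0 : ∀ r, 0 < D.p.del r
  del1 : ∀ r, D.p.del (r + 1) ≤ D.p.del r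
  rho0 : ∀ r, 0 ≤ D.p.rho r
  N1 : ∀ r, 1 ≤ D.p.N r
  mu0 : ∀ r, 0 < D.p.mu r
  T1 : ∀ r, 1 ≤ D.p.T r
  mue : D.p.mu (D.s + 1) * (2 * D.p.N (D.s + 1)) ≤ D.p.e3 * D.mu'

/-- Bound for the number of relevant worlds. -/
noncomputable def RR : ℝ := D.p.B0 * D.p.H / D.p.tau D.s

/-- Bound for the columns. -/
noncomputable def BB : ℝ := 2 / D.p.be + D.p.B0 * D.p.T (D.s + 1) * D.p.H + 1

/-- Bound for the mass of the support of a row. -/
noncomputable def MM : ℝ := (D.RR + D.p.B0 + 1) * D.p.H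

/-- Error of the regularity. -/
noncomputable def e9 (d : ℝ) : ℝ :=
  D.p.B0 * D.MM / d * Real.sqrt (D.p.H * D.p.rho (D.s + 3)) + D.p.H * D.RR * d

end Ctx

end

end Pool.Agent.AcyS
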