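import Pool.Agent.AcyS.Defs
import Pool.Agent.AcyS.Avg
import Pool.Agent.AcyS.Cmp

/-! # First facts: domains, responses, own boosts, row masses (facts (1)-(5) of the paper) -/

set_option autoImplicit false
set_option linter.unusedSectionVars false

namespace Pool.Agent.AcyS

open Finset
open scoped Classical

universe u

variable {V : Type u} [Fintype V] {D : Ctx V}

namespace Ctx

theorem mem_R {c Z : V} : c ∈ D.R Z ↔ c ∈ D.CC ∧ D.p.tau D.s ≤ D.X.ms (D.E c ∩ D.X.nb Z) := by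
  simp [R]

theorem R_sub {c Z : V} (h : c ∈ D.R Z) : c ∈ D.CC := (mem_R.1 h).1

theorem G_sub_E {c f : V} (h : f ∈ D.G c) : f ∈ D.E c := by
  unfold G at h
  exact (mem_filter.1 h).1

theorem g_sub_E {c f : V} (h : f ∈ D.g c) : f ∈ D.E c := by
  unfold g at h
  exact (mem_filter.1 h).1

theorem mem_dom {c Z f : V} : f ∈ D.dom c Z ↔ f ∈ D.G c ∧ c ∈ D.R Z ∧
    ∀ c' ∈ D.R Z, D.ord c' < D.ord c → f ∉ D.G c' := by
  simp [dom]

theorem mem_cl {c Z f : V} : f ∈ D.cl c Z ↔ f ∈ D.dom c Z ∧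
    D.th D.s c Z f ≤ 1 - D.p.be ∧ D.th (D.s + 3) c Z f ≤ 1 - D.p.be / 2 := by
  simp [cl]

theorem mem_nc {c Z f : V} : f ∈ D.nc c Z ↔ f ∈ D.dom c Z ∧ 1 - D.p.be < D.th D.s c Z f := by
  simp [nc]

theorem mem_df {c Z f : V} : f ∈ D.df c Z ↔ f ∈ D.dom c Z ∧
    D.th D.s c Z f ≤ 1 - D.p.be ∧ 1 - D.p.be / 2 < D.th (D.s + 3) c Z f := by
  simp [df]

theorem mem_oZ {c : V} {o : Finset V} {Z f : V} : f ∈ D.oZ c o Z ↔ f ∈ o ∧ D.Act c o Z ∧
    f ∈ D.g c ∧ D.X.lk f Z ∧ f ∈ D.dom c Z ∧ 1 - 2 * D.p.be < D.th (D.s + 3) c Z f := by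
  simp [oZ]

theorem mem_oc {c f g : V} : g ∈ D.oc c f ↔ g ∈ D.E c ∧ D.φ (D.s + 1) c g = D.φ (D.s + 1) c f := by
  simp [oc, Sys.cell]

theorem oc_eq {c f g : V} (h : g ∈ D.oc c f) : D.oc c g = D.oc c f := by
  ext x
  rw [mem_oc, mem_oc, (mem_oc.1 h).2]

theorem mem_E {c f : V} : f ∈ D.E c ↔ D.X.lk f c ∧ f ∈ D.ok := by
  simp [E, Sys.nb]

theorem mem_nb {P f : V} : f ∈ D.X.nb P ↔ D.X.lk f P := by
  simp [Sys.nb]

theorem dom_unique (hD : D.Ok) {c c' Z f : V} (h : f ∈ D.dom c Z) (h' : f ∈ D.dom c' Z) :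
    c = c' := by
  rw [mem_dom] at h h'
  rcases lt_trichotomy (D.ord c) (D.ord c') with hlt | heq | hgt
  · exact absurd h.1 (h'.2.2 c h.2.1 hlt)
  · exact hD.ord heq
  · exact absurd h'.1 (h.2.2 c' h'.2.1 hgt)

theorem covd_iff (hD : D.Ok) (f Z : V) : D.covd f Z ↔ ∃ c ∈ D.R Z, f ∈ D.G c := by
  constructor
  · rintro ⟨c, -, hc⟩
    rw [mem_dom] at hc
    exact ⟨c, hc.2.1, hc.1⟩
  · rintro ⟨c, hc, hf⟩
    obtain ⟨c₀, hc₀, hmin⟩ := exists_min_image ((D.R Z).filter fun c => f ∈ D.G c) D.ord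
      ⟨c, mem_filter.2 ⟨hc, hf⟩⟩
    rw [mem_filter] at hc₀
    refine ⟨c₀, R_sub hc₀.1, mem_dom.2 ⟨hc₀.2, hc₀.1, fun c' hc' hlt hfc => ?_⟩⟩
    exact absurd (hmin c' (mem_filter.2 ⟨hc', hfc⟩)) (not_le.2 hlt)

theorem r_cl (hD : D.Ok) {c Z f : V} (h : f ∈ D.cl c Z) :
    D.r Z f = D.th (D.s + 3) c Z f / (1 - D.th (D.s + 3) c Z f) := by
  have hd := (mem_cl.1 h).1
  have hc : c ∈ D.CC := R_sub (mem_dom.1 hd).2.1
  unfold r
  rw [sum_eq_single c]
  · rw [if_pos h]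
  · intro c' hc' hne
    rw [if_neg]
    intro h'
    exact hne (dom_unique hD (mem_cl.1 h').1 hd)
  · intro h'
    exact absurd hc h'

theorem r_not_cl (D : Ctx V) {Z f : V} (h : ∀ c ∈ D.CC, f ∉ D.cl c Z) : D.r Z f = 0 := by
  unfold r
  exact sum_eq_zero fun c hc => if_neg (h c hc)

theorem be_pos (hD : D.Ok) : 0 < D.p.be := hD.be0

theorem ratio_bounds {x b : ℝ} (hb : 0 < b) (hb1 : b ≤ 1 / 12) (h0 : 0 ≤ x) (h1 : x ≤ 1 - b / 2) :
    0 ≤ x / (1 - x) ∧ x / (1 - x) ≤ 2 / b := by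
  have hx : b / 2 ≤ 1 - x := by linarith
  have hx0 : 0 < 1 - x := by linarith
  refine ⟨div_nonneg h0 hx0.le, ?_⟩
  rw [div_le_div_iff₀ hx0 hb]
  nlinarith

theorem r_bounds (hD : D.Ok) (Z f : V) : 0 ≤ D.r Z f ∧ D.r Z f ≤ 2 / D.p.be := by
  by_cases h : ∃ c ∈ D.CC, f ∈ D.cl c Z
  · obtain ⟨c, -, hc⟩ := h
    rw [r_cl hD hc]
    exact ratio_bounds hD.be0 hD.be1 (th_nonneg hD _ _ _ _) (mem_cl.1 hc).2.2
  · push Not at h
    rw [r_not_cl D h]
    exact ⟨le_rfl, div_nonneg (by norm_num) hD.be0.le⟩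

theorem r_nonneg (hD : D.Ok) (Z f : V) : 0 ≤ D.r Z f := (r_bounds hD Z f).1

theorem r_le (hD : D.Ok) (Z f : V) : D.r Z f ≤ 2 / D.p.be := (r_bounds hD Z f).2

theorem n_cases (P f : V) : (D.X.lk f P ∧ D.X.n P f = 1) ∨ (¬ D.X.lk f P ∧ D.X.n P f = 0) := by
  unfold Sys.n
  by_cases h : D.X.lk f P
  · left; exact ⟨h, if_pos h⟩
  · right; exact ⟨h, if_neg h⟩

theorem two_div_be (hD : D.Ok) : 1 ≤ 2 / D.p.be := by
  rw [le_div_iff₀ hD.be0]
  have := hD.be1
  linarith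

theorem h_cl (hD : D.Ok) {c Z f : V} (h : f ∈ D.cl c Z) :
    D.h Z f = (D.th (D.s + 3) c Z f - D.X.n Z f) / (1 - D.th (D.s + 3) c Z f) := by
  have h1 := (mem_cl.1 h).2.2
  have hb := hD.be0
  have hx0 : (1 - D.th (D.s + 3) c Z f) ≠ 0 := by
    have : 0 < 1 - D.th (D.s + 3) c Z f := by linarith
    exact this.ne'
  unfold Ctx.h
  rw [r_cl hD h]
  rcases n_cases (D := D) Z f with ⟨-, hn⟩ | ⟨-, hn⟩ <;> rw [hn] <;> field_simp <;> ring

theorem h_ge (hD : D.Ok) (Z f : V) : - D.X.n Z f ≤ D.h Z f := by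
  unfold Ctx.h
  have hr := r_nonneg hD Z f
  rcases n_cases (D := D) Z f with ⟨-, hn⟩ | ⟨-, hn⟩ <;> rw [hn] <;> linarith

theorem abs_h_le (hD : D.Ok) (Z f : V) : |D.h Z f| ≤ 2 / D.p.be := by
  have hr := r_bounds hD Z f
  have h2 := two_div_be hD
  unfold Ctx.h
  rcases n_cases (D := D) Z f with ⟨-, hn⟩ | ⟨-, hn⟩ <;> rw [hn, abs_le] <;>
    constructor <;> linarith


theorem m_nonneg (hD : D.Ok) (f : V) : 0 ≤ D.X.m f := hD.X.m_nonneg f

theorem ms_nonneg (hD : D.Ok) (A : Finset V) : 0 ≤ D.X.ms A :=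
  sum_nonneg fun f _ => m_nonneg hD f

theorem ms_union_le (hD : D.Ok) (A B : Finset V) : D.X.ms (A ∪ B) ≤ D.X.ms A + D.X.ms B := by
  unfold Sys.ms
  rw [← sum_union_inter]
  have : 0 ≤ ∑ f ∈ A ∩ B, D.X.m f := ms_nonneg hD _
  linarith

theorem ms_biUnion_le (hD : D.Ok) (C : Finset V) (F : V → Finset V) :
    D.X.ms (C.biUnion F) ≤ ∑ c ∈ C, D.X.ms (F c) := by
  induction C using Finset.induction_on with
  | empty => simp [Sys.ms]
  | insert a s ha ih =>
    rw [biUnion_insert, sum_insert ha]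
    exact (ms_union_le hD _ _).trans (by linarith)

theorem mp_le (hD : D.Ok) {p : V → Prop} {A : Finset V} (h : ∀ Z, p Z → Z ∈ A) :
    D.X.mp p ≤ D.X.ms A := by
  unfold Sys.mp
  exact ms_mono (m_nonneg hD) fun Z hZ => h Z (mem_filter.1 hZ).2

theorem mp_nonneg (hD : D.Ok) (p : V → Prop) : 0 ≤ D.X.mp p := ms_nonneg hD _

theorem b_term_nonneg (hD : D.Ok) (P f c : V) (hc : c ∈ D.CC) :
    0 ≤ (if D.act c f ∧ P ∈ D.oc c f then
      D.κ (D.oc c f) f P * D.X.mp (fun Z => f ∈ D.oZ c (D.oc c f) Z ∧ P ∈ D.oZ c (D.oc c f) Z)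
      else 0) := by
  split_ifs with h
  · exact mul_nonneg ((hD.ker c hc f h.1).nonneg _ _) (mp_nonneg hD _)
  · exact le_rfl

theorem b_nonneg (hD : D.Ok) (P f : V) : 0 ≤ D.b P f :=
  sum_nonneg fun c hc => b_term_nonneg hD P f c hc

theorem b_link (hD : D.Ok) {P f : V} (h : D.X.lk f P) : D.b P f = 0 := by
  unfold Ctx.b
  refine sum_eq_zero fun c hc => ?_
  split_ifs with h1
  · have : D.κ (D.oc c f) f P = 0 := by
      by_contra hne
      exact ((hD.ker c hc f h1.1).supp _ _ hne).2.2 h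
    rw [this, zero_mul]
  · rfl

theorem H_nonneg (hD : D.Ok) : 0 ≤ D.p.H := zero_le_one.trans hD.X.one_le

theorem T_nonneg (hD : D.Ok) (r : ℕ) : 0 ≤ D.p.T r := zero_le_one.trans (hD.T1 r)

theorem b_le (hD : D.Ok) (P f : V) : D.b P f ≤ D.p.B0 * D.p.T (D.s + 1) * D.p.H := by
  have hTH : 0 ≤ D.p.T (D.s + 1) * D.p.H := mul_nonneg (T_nonneg hD _) (H_nonneg hD)
  unfold Ctx.b
  calc _ ≤ ∑ c ∈ D.CC, (if f ∈ D.E c then D.p.T (D.s + 1) * D.p.H else 0) := by
        refine sum_le_sum fun c hc => ?_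
        by_cases h1 : D.act c f ∧ P ∈ D.oc c f
        · rw [if_pos h1, if_pos h1.1.1]
          refine mul_le_mul ((hD.ker c hc f h1.1).le _ _) ?_ (mp_nonneg hD _) (T_nonneg hD _)
          refine (mp_le hD (A := D.X.nb f) fun Z hZ => ?_).trans (hD.X.deg f)
          exact mem_nb.2 (hD.X.symm _ _ (mem_oZ.1 hZ.1).2.2.2.1)
        · rw [if_neg h1]
          split_ifs
          · exact hTH
          · exact le_rfl
    _ = ((D.CC.filter fun c => f ∈ D.E c).card : ℝ) * (D.p.T (D.s + 1) * D.p.H) := by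
        rw [← sum_filter, sum_const, nsmul_eq_mul]
    _ ≤ D.p.B0 * (D.p.T (D.s + 1) * D.p.H) := by
        refine mul_le_mul_of_nonneg_right ?_ hTH
        exact_mod_cast card_E hD f
    _ = _ := by ring

theorem h_link (D : Ctx V) {P f : V} (h : D.X.lk f P) : D.h P f = -1 := by
  unfold Ctx.h Sys.n
  rw [if_pos h]
  ring

theorem h_not (D : Ctx V) {P f : V} (h : ¬ D.X.lk f P) : D.h P f = D.r P f := by
  unfold Ctx.h Sys.n
  rw [if_neg h]
  ring

theorem u_link (hD : D.Ok) {P f : V} (h : D.X.lk f P) : D.u P f = -1 := by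
  unfold Ctx.u
  rw [h_link D h, b_link hD h]
  ring

theorem u_nonneg (hD : D.Ok) {P f : V} (h : ¬ D.X.lk f P) : 0 ≤ D.u P f := by
  unfold Ctx.u
  rw [h_not D h]
  have := r_nonneg hD P f
  have := b_nonneg hD P f
  linarith

theorem abs_u_le (hD : D.Ok) (P f : V) : |D.u P f| ≤ D.BB := by
  unfold Ctx.u Ctx.BB
  have h1 := abs_h_le hD P f
  have h2 := b_nonneg hD P f
  have h3 := b_le hD P f
  refine (abs_add_le _ _).trans ?_
  rw [abs_of_nonneg h2]
  linarith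

theorem r_supp (D : Ctx V) {P f : V} (h : D.r P f ≠ 0) :
    ∃ c ∈ D.CC, f ∈ D.E c ∧ c ∈ D.R P := by
  by_contra hne
  push Not at hne
  refine h (r_not_cl D fun c hc hf => ?_)
  have hd := mem_dom.1 (mem_cl.1 hf).1
  exact hne c hc (G_sub_E hd.1) hd.2.1

theorem b_supp (D : Ctx V) {P f : V} (h : D.b P f ≠ 0) :
    ∃ c ∈ D.CC, f ∈ D.E c ∧ P ∈ D.E c := by
  by_contra hne
  push Not at hne
  refine h (sum_eq_zero fun c hc => if_neg fun h1 => ?_)
  exact hne c hc h1.1.1 (mem_oc.1 h1.2).1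

theorem u_supp (hD : D.Ok) {P f : V} (h : D.u P f ≠ 0) : D.X.lk f P ∨
    ∃ c ∈ D.CC, f ∈ D.E c ∧ (P ∈ D.E c ∨ c ∈ D.R P) := by
  by_cases hl : D.X.lk f P
  · exact Or.inl hl
  · right
    unfold Ctx.u at h
    rw [h_not D hl] at h
    by_cases hr : D.r P f = 0
    · rw [hr, zero_add] at h
      obtain ⟨c, hc, h1, h2⟩ := b_supp D h
      exact ⟨c, hc, h1, Or.inl h2⟩
    · obtain ⟨c, hc, h1, h2⟩ := r_supp D hr
      exact ⟨c, hc, h1, Or.inr h2⟩

theorem RR_nonneg (hD : D.Ok) : 0 ≤ D.RR :=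
  div_nonneg (mul_nonneg (Nat.cast_nonneg _) (H_nonneg hD)) (hD.tau0 _).le

/-- The mass of the support of a row. -/
theorem ms_supp (hD : D.Ok) (P : V) :
    D.X.ms (univ.filter fun f => D.u P f ≠ 0 ∨ D.h P f ≠ 0) ≤ D.MM := by
  have hsub : (univ.filter fun f => D.u P f ≠ 0 ∨ D.h P f ≠ 0) ⊆
      (D.X.nb P ∪ (D.R P).biUnion D.E) ∪ (D.CC.filter fun c => P ∈ D.E c).biUnion D.E := by
    intro f hf
    rw [mem_filter] at hf
    have key : D.X.lk f P ∨ ∃ c ∈ D.CC, f ∈ D.E c ∧ (P ∈ D.E c ∨ c ∈ D.R P) := by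
      rcases hf.2 with hu | hh
      · exact u_supp hD hu
      · by_cases hl : D.X.lk f P
        · exact Or.inl hl
        · rw [h_not D hl] at hh
          obtain ⟨c, hc, h1, h2⟩ := r_supp D hh
          exact Or.inr ⟨c, hc, h1, Or.inr h2⟩
    rcases key with hl | ⟨c, hc, hfc, hP | hR⟩
    · exact mem_union_left _ (mem_union_left _ (mem_nb.2 hl))
    · exact mem_union_right _ (mem_biUnion.2 ⟨c, mem_filter.2 ⟨hc, hP⟩, hfc⟩)
    · exact mem_union_left _ (mem_union_right _ (mem_biUnion.2 ⟨c, hR, hfc⟩))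
  have hH := H_nonneg hD
  have hsum : ∀ (C : Finset V), ∑ c ∈ C, D.X.ms (D.E c) ≤ (C.card : ℝ) * D.p.H := by
    intro C
    rw [← nsmul_eq_mul]
    exact sum_le_card_nsmul _ _ _ fun c _ => ms_E_le hD c
  have h1 : D.X.ms ((D.R P).biUnion D.E) ≤ D.RR * D.p.H :=
    ((ms_biUnion_le hD _ _).trans (hsum _)).trans
      (mul_le_mul_of_nonneg_right (card_R hD P) hH)
  have h2 : D.X.ms ((D.CC.filter fun c => P ∈ D.E c).biUnion D.E) ≤ D.p.B0 * D.p.H := by
    refine ((ms_biUnion_le hD _ _).trans (hsum _)).trans (mul_le_mul_of_nonneg_right ?_ hH)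
    exact_mod_cast card_E hD P
  have h3 := hD.X.deg P
  have h4 := ms_mono (m_nonneg hD) hsub
  have h5 := ms_union_le hD (D.X.nb P ∪ (D.R P).biUnion D.E)
    ((D.CC.filter fun c => P ∈ D.E c).biUnion D.E)
  have h6 := ms_union_le hD (D.X.nb P) ((D.R P).biUnion D.E)
  unfold Ctx.MM
  linarith


/-- `G c` is a union of cells of level `s`. -/
theorem G_meas (hD : D.Ok) {c : V} (hc : c ∈ D.CC) {f g : V} (hf : f ∈ D.E c) (hg : g ∈ D.E c)
    (h : D.φ D.s c f = D.φ D.s c g) : f ∈ D.G c ↔ g ∈ D.G c := by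
  have e : Sys.cell (D.E c) (D.φ D.s c) f = Sys.cell (D.E c) (D.φ D.s c) g := by
    unfold Sys.cell
    rw [h]
  unfold Ctx.G
  rw [mem_filter, mem_filter, e]
  exact ⟨fun h => ⟨hg, h.2⟩, fun h => ⟨hf, h.2⟩⟩

/-- (4): traces of the good sets and of the level `s` densities. -/
theorem G_tr (hD : D.Ok) {r : ℕ} (hr : D.s ≤ r) (hr' : r < D.p.S + 4) {c c' : V}
    (hc : c ∈ D.CC) (hc' : c' ∈ D.CC) (hov : D.p.del r ≤ D.ov c c') {f g : V} (hf : f ∈ D.E c)
    (hg : g ∈ D.E c) (h : D.φ (r + 1) c f = D.φ (r + 1) c g) :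
    (f ∈ D.G c' ↔ g ∈ D.G c') ∧ (f ∈ D.E c' → ∀ Z, D.th D.s c' Z f = D.th D.s c' Z g) := by
  obtain ⟨h1, h2⟩ := tr_of_le hD hr hr' hc hc' hov hf hg h
  refine ⟨⟨fun hfG => ?_, fun hgG => ?_⟩, fun hfE Z => ?_⟩
  · have hfE := G_sub_E hfG
    exact (G_meas hD hc' hfE (h1.1 hfE) (h2 hfE)).1 hfG
  · have hgE := G_sub_E hgG
    have hfE := h1.2 hgE
    exact (G_meas hD hc' hfE hgE (h2 hfE)).2 hgG
  · exact avg_meas (X := D.X) (D.E c') (D.φ D.s c') (D.X.n Z) f hfE g (h1.1 hfE) (h2 hfE)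

/-- (5) -/
theorem dom_sub_dm (D : Ctx V) (c Z : V) : D.dom c Z ⊆ D.dm c Z := by
  intro f hf
  rw [mem_dom] at hf
  unfold Ctx.dm
  rw [mem_filter]
  exact ⟨hf.1, hf.2.1, fun c' hc' hlt _ => hf.2.2 c' hc' hlt⟩

theorem mem_dm {c Z f : V} : f ∈ D.dm c Z ↔ f ∈ D.G c ∧ c ∈ D.R Z ∧
    ∀ c' ∈ D.R Z, D.ord c' < D.ord c → D.p.del (D.s + 1) ≤ D.ov c c' → f ∉ D.G c' := by
  simp [dm]

theorem dm_meas (hD : D.Ok) {c : V} (hc : c ∈ D.CC) (Z : V) {f g : V} (hf : f ∈ D.E c)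
    (hg : g ∈ D.E c) (h : D.φ (D.s + 2) c f = D.φ (D.s + 2) c g) :
    f ∈ D.dm c Z ↔ g ∈ D.dm c Z := by
  have hs := hD.s_lt
  have h0 : D.φ D.s c f = D.φ D.s c g :=
    ref_of_le hD (show D.s ≤ D.s + 2 by omega) (by omega) hc f hf g hg h
  rw [mem_dm, mem_dm, G_meas hD hc hf hg h0]
  have key : ∀ c' ∈ D.R Z, D.p.del (D.s + 1) ≤ D.ov c c' → (f ∈ D.G c' ↔ g ∈ D.G c') := by
    intro c' hc' hov
    exact (G_tr hD (show D.s ≤ D.s + 1 by omega) (by omega) hc (R_sub hc') hov hf hg h).1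
  constructor
  · rintro ⟨h1, h2, h3⟩
    exact ⟨h1, h2, fun c' hc' hlt hov hgG => h3 c' hc' hlt hov ((key c' hc' hov).2 hgG)⟩
  · rintro ⟨h1, h2, h3⟩
    exact ⟨h1, h2, fun c' hc' hlt hov hfG => h3 c' hc' hlt hov ((key c' hc' hov).1 hfG)⟩

theorem sum_dm_diff (hD : D.Ok) (Z : V) :
    ∑ c ∈ D.CC, D.X.ms (D.dm c Z \ D.dom c Z) ≤ D.RR ^ 2 * D.p.del (D.s + 1) := by
  have hdel := (hD.del0 (D.s + 1)).le
  have hRR := RR_nonneg hD
  have hcard := card_R hD Z
  have h1 : ∀ c ∈ D.CC, D.X.ms (D.dm c Z \ D.dom c Z) ≤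
      if c ∈ D.R Z then D.RR * D.p.del (D.s + 1) else 0 := by
    intro c hc
    split_ifs with hR
    · have hsub : D.dm c Z \ D.dom c Z ⊆
          ((D.R Z).filter fun c' => D.ov c c' < D.p.del (D.s + 1)).biUnion
            fun c' => D.E c ∩ D.E c' := by
        intro f hf
        rw [mem_sdiff, mem_dm, mem_dom] at hf
        obtain ⟨⟨hG, -, hdm⟩, hnd⟩ := hf
        have : ∃ c' ∈ D.R Z, D.ord c' < D.ord c ∧ f ∈ D.G c' := by
          by_contra hne
          push Not at hne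
          exact hnd ⟨hG, hR, hne⟩
        obtain ⟨c', hc', hlt, hfG⟩ := this
        refine mem_biUnion.2 ⟨c', mem_filter.2 ⟨hc', ?_⟩,
          mem_inter.2 ⟨G_sub_E hG, G_sub_E hfG⟩⟩
        by_contra hov
        exact hdm c' hc' hlt (not_lt.1 hov) hfG
      refine (ms_mono (m_nonneg hD) hsub).trans ((ms_biUnion_le hD _ _).trans ?_)
      calc _ ≤ (((D.R Z).filter fun c' => D.ov c c' < D.p.del (D.s + 1)).card : ℝ) *
            D.p.del (D.s + 1) := by
            rw [← nsmul_eq_mul]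
            exact sum_le_card_nsmul _ _ _ fun c' hc' => (mem_filter.1 hc').2.le
        _ ≤ D.RR * D.p.del (D.s + 1) := by
            refine mul_le_mul_of_nonneg_right (le_trans ?_ hcard) hdel
            exact_mod_cast card_filter_le _ _
    · have : D.dm c Z \ D.dom c Z = ∅ := by
        ext f
        rw [mem_sdiff, mem_dm]
        simp [hR]
      rw [this]
      simp [Sys.ms]
  calc _ ≤ ∑ c ∈ D.CC, (if c ∈ D.R Z then D.RR * D.p.del (D.s + 1) else 0) := sum_le_sum h1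
    _ ≤ ((D.R Z).card : ℝ) * (D.RR * D.p.del (D.s + 1)) := by
        rw [← sum_filter, sum_const, nsmul_eq_mul]
        refine mul_le_mul_of_nonneg_right ?_ (mul_nonneg hRR hdel)
        exact_mod_cast card_le_card fun c hc => (mem_filter.1 hc).2
    _ ≤ D.RR * (D.RR * D.p.del (D.s + 1)) :=
        mul_le_mul_of_nonneg_right hcard (mul_nonneg hRR hdel)
    _ = _ := by ring

theorem I_n_eq (D : Ctx V) (A : Finset V) (P : V) : D.X.I A (D.X.n P) = D.X.ms (A ∩ D.X.nb P) := by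
  unfold Sys.I Sys.ms Sys.n Sys.nb
  rw [← filter_mem_eq_inter, sum_filter]
  refine sum_congr rfl fun f _ => ?_
  by_cases h : D.X.lk f P
  · simp [h]
  · simp [h]

theorem I_subset (hD : D.Ok) {A B : Finset V} (h : A ⊆ B) {g : V → ℝ} (hg : ∀ f, 0 ≤ g f) :
    D.X.I A g ≤ D.X.I B g :=
  sum_le_sum_of_subset_of_nonneg h fun f _ _ => mul_nonneg (m_nonneg hD f) (hg f)

/-- Row mass of the class part. -/
theorem I_h_pos (hD : D.Ok) (P : V) :
    (D.X.I univ fun f => max (D.h P f) 0) ≤ D.p.B0 * D.X.ms (D.X.nb P) := by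
  set A : V → Finset V := fun c => (D.E c).filter fun f =>
    D.th (D.s + 3) c P f ≤ 1 - D.p.be / 2 with hA
  have hb := hD.be0
  have hsat : ∀ c, Sat (D.E c) (D.φ (D.s + 3) c) (A c) := by
    intro c
    refine ⟨filter_subset _ _, fun f hf g hg h => ?_⟩
    rw [hA, mem_filter] at hf ⊢
    refine ⟨hg, ?_⟩
    rw [show D.th (D.s + 3) c P g = D.th (D.s + 3) c P f from
      (avg_meas (X := D.X) (D.E c) (D.φ (D.s + 3) c) (D.X.n P) f hf.1 g hg h).symm]
    exact hf.2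
  have h1 : ∀ f, max (D.h P f) 0 ≤ ∑ c ∈ D.CC,
      (if f ∈ A c then (1 - D.X.n P f) * (D.th (D.s + 3) c P f / (1 - D.th (D.s + 3) c P f))
        else 0) := by
    intro f
    have hn1 : 0 ≤ 1 - D.X.n P f := by
      rcases n_cases (D := D) P f with ⟨-, hn⟩ | ⟨-, hn⟩ <;> rw [hn] <;> norm_num
    have hterm : ∀ c ∈ D.CC, 0 ≤ (if f ∈ A c then
        (1 - D.X.n P f) * (D.th (D.s + 3) c P f / (1 - D.th (D.s + 3) c P f)) else 0) := by
      intro c hc
      split_ifs with hf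
      · exact mul_nonneg hn1 (ratio_bounds hD.be0 hD.be1 (th_nonneg hD _ _ _ _)
          (mem_filter.1 hf).2).1
      · exact le_rfl
    by_cases hcl : ∃ c ∈ D.CC, f ∈ D.cl c P
    · obtain ⟨c, hc, hf⟩ := hcl
      have hfA : f ∈ A c := by
        have h2 := mem_cl.1 hf
        exact mem_filter.2 ⟨G_sub_E (mem_dom.1 h2.1).1, h2.2.2⟩
      refine le_trans ?_ (single_le_sum hterm hc)
      rw [if_pos hfA, ← r_cl hD hf]
      have hr := r_nonneg hD P f
      unfold Ctx.h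
      rcases n_cases (D := D) P f with ⟨-, hn⟩ | ⟨-, hn⟩ <;> rw [hn] <;> simp [hr]
    · push Not at hcl
      refine le_trans ?_ (sum_nonneg hterm)
      unfold Ctx.h
      rw [r_not_cl D hcl]
      rcases n_cases (D := D) P f with ⟨-, hn⟩ | ⟨-, hn⟩ <;> rw [hn] <;> simp
  have h2 : ∀ c ∈ D.CC, (D.X.I (A c) fun f =>
      (1 - D.X.n P f) * (D.th (D.s + 3) c P f / (1 - D.th (D.s + 3) c P f))) ≤
      D.X.ms (D.E c ∩ D.X.nb P) := by
    intro c hc
    have hθ0 : ∀ f, 0 ≤ D.th (D.s + 3) c P f := fun f => th_nonneg hD _ _ _ _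
    have hav : ∀ f ∈ A c, D.X.avg (A c) (D.φ (D.s + 3) c) (D.X.n P) f =
        D.th (D.s + 3) c P f := fun f hf => (avg_restrict (hsat c) (D.X.n P) hf).symm
    have hmeas : Meas (A c) (D.φ (D.s + 3) c)
        (fun f => D.th (D.s + 3) c P f / (1 - D.th (D.s + 3) c P f)) := by
      intro f hf g hg h
      have : D.th (D.s + 3) c P f = D.th (D.s + 3) c P g :=
        avg_meas (X := D.X) (D.E c) (D.φ (D.s + 3) c) (D.X.n P) f (mem_filter.1 hf).1 g
          (mem_filter.1 hg).1 h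
      simp only [this]
    have e1 := I_mul_avg (X := D.X) (m_nonneg hD) hmeas (D.X.n P)
    have e2 : (D.X.I (A c) fun f => (1 - D.X.n P f) *
        (D.th (D.s + 3) c P f / (1 - D.th (D.s + 3) c P f))) =
        D.X.I (A c) fun f => D.th (D.s + 3) c P f := by
      have e3 : (D.X.I (A c) fun f => (1 - D.X.n P f) *
        (D.th (D.s + 3) c P f / (1 - D.th (D.s + 3) c P f))) =
        (D.X.I (A c) fun f => D.th (D.s + 3) c P f / (1 - D.th (D.s + 3) c P f)) -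
        D.X.I (A c) fun f => (D.th (D.s + 3) c P f / (1 - D.th (D.s + 3) c P f)) *
          D.X.n P f := by
        unfold Sys.I
        rw [← sum_sub_distrib]
        refine sum_congr rfl fun f _ => ?_
        ring
      rw [e3, e1]
      unfold Sys.I
      rw [← sum_sub_distrib]
      refine sum_congr rfl fun f hf => ?_
      beta_reduce
      rw [hav f hf]
      have hx : (1 - D.th (D.s + 3) c P f) ≠ 0 := by
        have := (mem_filter.1 hf).2
        have : 0 < 1 - D.th (D.s + 3) c P f := by linarith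
        exact this.ne'
      field_simp
    rw [e2, ← I_n_eq]
    have e4 := I_sat_avg (X := D.X) (m_nonneg hD) (hsat c) (D.X.n P)
    have e5 : (D.X.I (A c) fun f => D.th (D.s + 3) c P f) = D.X.I (A c) (D.X.n P) := e4.symm
    rw [e5]
    refine I_subset hD (filter_subset _ _) fun f => ?_
    rcases n_cases (D := D) P f with ⟨-, hn⟩ | ⟨-, hn⟩ <;> rw [hn] <;> norm_num
  calc _ ≤ D.X.I univ (fun f => ∑ c ∈ D.CC,
      (if f ∈ A c then (1 - D.X.n P f) * (D.th (D.s + 3) c P f / (1 - D.th (D.s + 3) c P f))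
        else 0)) := I_mono (m_nonneg hD) fun f _ => h1 f
    _ = ∑ c ∈ D.CC, (D.X.I (A c) fun f =>
      (1 - D.X.n P f) * (D.th (D.s + 3) c P f / (1 - D.th (D.s + 3) c P f))) := by
        unfold Sys.I
        simp only [mul_sum]
        rw [sum_comm]
        refine sum_congr rfl fun c _ => ?_
        simp only [mul_ite, mul_zero]
        rw [sum_ite_mem, univ_inter]
    _ ≤ ∑ c ∈ D.CC, D.X.ms (D.E c ∩ D.X.nb P) := sum_le_sum h2
    _ ≤ _ := sum_ms_E hD _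


theorem mp_eq (D : Ctx V) (p : V → Prop) : D.X.mp p = ∑ Z, D.X.m Z * (if p Z then 1 else 0) := by
  unfold Sys.mp Sys.ms
  rw [sum_filter]
  refine sum_congr rfl fun Z _ => ?_
  split_ifs <;> simp

theorem act_congr {c f P : V} (h : P ∈ D.oc c f) : D.act c f → D.act c P := by
  rintro ⟨h1, h2, h3, h4⟩
  refine ⟨(mem_oc.1 h).1, ?_, ?_, ?_⟩ <;> rw [oc_eq h] <;> assumption

/-- Row mass of the own boosts. -/
theorem I_b (hD : D.Ok) (P : V) : D.X.I univ (D.b P) ≤ D.X.ms (D.X.nb P) := by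
  have h1 : ∀ f, D.X.m f * D.b P f ≤ ∑ Z, D.X.m Z * ∑ c ∈ D.CC,
      (if P ∈ D.dom c Z ∧ D.X.lk P Z ∧ D.act c P then D.X.m f * D.κ (D.oc c P) P f else 0) := by
    intro f
    have e1 : ∀ Z, D.X.m Z * ∑ c ∈ D.CC,
        (if P ∈ D.dom c Z ∧ D.X.lk P Z ∧ D.act c P then D.X.m f * D.κ (D.oc c P) P f else 0) =
        ∑ c ∈ D.CC, D.X.m Z * (if P ∈ D.dom c Z ∧ D.X.lk P Z ∧ D.act c P then
          D.X.m f * D.κ (D.oc c P) P f else 0) := fun Z => mul_sum _ _ _
    simp only [e1]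
    rw [sum_comm]
    unfold Ctx.b
    rw [mul_sum]
    refine sum_le_sum fun c hc => ?_
    have hterm : ∀ Z, 0 ≤ D.X.m Z * (if P ∈ D.dom c Z ∧ D.X.lk P Z ∧ D.act c P then
        D.X.m f * D.κ (D.oc c P) P f else 0) := by
      intro Z
      refine mul_nonneg (m_nonneg hD _) ?_
      split_ifs with h
      · exact mul_nonneg (m_nonneg hD _) ((hD.ker c hc P h.2.2).nonneg _ _)
      · exact le_rfl
    split_ifs with h
    · rw [mp_eq, mul_sum, mul_sum]
      refine sum_le_sum fun Z _ => ?_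
      split_ifs with h3 h4 h4
      · have hoc := oc_eq h.2
        rw [hoc, (hD.ker c hc f h.1).symm f P]
        apply le_of_eq
        ring
      · exfalso
        have := mem_oZ.1 h3.2
        exact h4 ⟨this.2.2.2.2.1, this.2.2.2.1, act_congr h.2 h.1⟩
      · simp only [mul_zero]
        exact mul_nonneg (m_nonneg hD _) (mul_nonneg (m_nonneg hD _)
          ((hD.ker c hc P h4.2.2).nonneg _ _))
      · simp
    · rw [mul_zero]
      exact sum_nonneg fun Z _ => hterm Z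
  calc D.X.I univ (D.b P) = ∑ f, D.X.m f * D.b P f := rfl
    _ ≤ ∑ f, ∑ Z, D.X.m Z * ∑ c ∈ D.CC,
      (if P ∈ D.dom c Z ∧ D.X.lk P Z ∧ D.act c P then D.X.m f * D.κ (D.oc c P) P f else 0) :=
        sum_le_sum fun f _ => h1 f
    _ = ∑ Z, D.X.m Z * ∑ c ∈ D.CC, (if P ∈ D.dom c Z ∧ D.X.lk P Z ∧ D.act c P then
          ∑ f, D.X.m f * D.κ (D.oc c P) P f else 0) := by
        rw [sum_comm]
        refine sum_congr rfl fun Z _ => ?_
        rw [← mul_sum, sum_comm]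
        congr 1
        refine sum_congr rfl fun c _ => ?_
        split_ifs
        · rfl
        · exact sum_const_zero
    _ ≤ ∑ Z, D.X.m Z * (if D.X.lk P Z then 1 else 0) := by
        refine sum_le_sum fun Z _ => mul_le_mul_of_nonneg_left ?_ (m_nonneg hD Z)
        have hrow : ∀ c ∈ D.CC, D.act c P → ∑ f, D.X.m f * D.κ (D.oc c P) P f ≤ 1 := by
          intro c hc ha
          refine le_trans (le_of_eq ?_) ((hD.ker c hc P ha).row P)
          refine sum_congr rfl fun f _ => ?_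
          rfl
        by_cases hl : D.X.lk P Z
        · rw [if_pos hl]
          by_cases hex : ∃ c ∈ D.CC, P ∈ D.dom c Z ∧ D.act c P
          · obtain ⟨c, hc, hd, ha⟩ := hex
            rw [sum_eq_single c]
            · rw [if_pos ⟨hd, hl, ha⟩]
              exact hrow c hc ha
            · intro c' hc' hne
              rw [if_neg]
              rintro ⟨h1, -, -⟩
              exact hne (dom_unique hD h1 hd)
            · intro h'
              exact absurd hc h'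
          · push Not at hex
            rw [sum_eq_zero]
            · norm_num
            · intro c hc
              rw [if_neg]
              rintro ⟨h1, -, h3⟩
              exact hex c hc h1 h3
        · rw [if_neg hl, sum_eq_zero]
          intro c _
          rw [if_neg]
          rintro ⟨-, h2, -⟩
          exact hl h2
    _ = D.X.ms (univ.filter fun Z => D.X.lk P Z) := by
        rw [← mp_eq]
        rfl
    _ ≤ _ := by
        refine ms_mono (m_nonneg hD) fun Z hZ => ?_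
        exact mem_nb.2 (hD.X.symm _ _ (mem_filter.1 hZ).2)

end Ctx
end Pool.Agent.AcyS
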