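import Pool.Agent.AcyS.Defs
import Pool.Agent.AcyS.Avg
import Pool.Agent.AcyS.Cmp
import Pool.Agent.AcyS.Fact

/-! # S6: participants, own boosts, the general sum (project MP_af9dfb_S) -/

set_option autoImplicit false
set_option linter.unusedSectionVars false
set_option linter.unusedVariables false

namespace Pool.Agent.AcyS

open Finset
open scoped Classical

universe u

variable {V : Type u} [Fintype V] {D : Ctx V}

namespace Ctx

/-! ### helpers -/

theorem sb_mem_oc {c f : V} (ha : D.act c f) : f ∈ D.oc c f := by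
  simp [oc, Sys.cell, ha.1]

theorem sb_oc_sub_E (c f : V) : D.oc c f ⊆ D.E c := filter_subset _ _

theorem sb_oc_eq {c f g : V} (hg : g ∈ D.oc c f) : D.oc c g = D.oc c f := by
  have h : D.φ (D.s + 1) c g = D.φ (D.s + 1) c f := (mem_filter.1 hg).2
  unfold oc Sys.cell
  rw [h]

theorem sb_act_of {c f g : V} (ha : D.act c f) (hg : g ∈ D.oc c f) : D.act c g := by
  unfold act
  rw [sb_oc_eq hg]
  exact ⟨sb_oc_sub_E c f hg, ha.2.1, ha.2.2.1, ha.2.2.2⟩

theorem sb_mem_oc_symm {c f g : V} (hf : f ∈ D.E c) (hg : g ∈ D.oc c f) : f ∈ D.oc c g := by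
  rw [sb_oc_eq hg]
  simp [oc, Sys.cell, hf]

theorem sb_mp_mono (hm : ∀ f, 0 ≤ D.X.m f) {p q : V → Prop} (h : ∀ f, p f → q f) :
    D.X.mp p ≤ D.X.mp q := by
  unfold Sys.mp
  apply ms_mono hm
  intro f hf
  simp only [mem_filter, mem_univ, true_and] at hf ⊢
  exact h f hf

theorem sb_ms_union (hm : ∀ f, 0 ≤ D.X.m f) (A B : Finset V) :
    D.X.ms (A ∪ B) ≤ D.X.ms A + D.X.ms B := by
  unfold Sys.ms
  rw [← sum_union_inter]
  have : 0 ≤ ∑ f ∈ A ∩ B, D.X.m f := sum_nonneg fun f _ => hm f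
  linarith

theorem sb_mp_or (hm : ∀ f, 0 ≤ D.X.m f) (p q : V → Prop) :
    D.X.mp (fun f => p f ∨ q f) ≤ D.X.mp p + D.X.mp q := by
  unfold Sys.mp
  refine le_trans (ms_mono hm ?_) (sb_ms_union hm _ _)
  intro f hf
  simp only [mem_filter, mem_univ, true_and, mem_union] at hf ⊢
  exact hf

theorem sb_mp_nonneg (hm : ∀ f, 0 ≤ D.X.m f) (p : V → Prop) : 0 ≤ D.X.mp p :=
  sum_nonneg fun f _ => hm f

theorem sb_mp_link (hX : D.X.Ok D.p.H) (f : V) : D.X.mp (fun Z => D.X.lk f Z) ≤ D.p.H := by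
  refine le_trans ?_ (hX.deg f)
  unfold Sys.mp
  apply ms_mono hX.m_nonneg
  intro Z hZ
  simp only [mem_filter, mem_univ, true_and, Sys.nb] at hZ ⊢
  exact hX.symm _ _ hZ

theorem sb_dom_G {c Z f : V} (h : f ∈ D.dom c Z) : f ∈ D.G c := (mem_filter.1 h).1

/-- (6) -/
theorem mp_not_oZ (hD : D.Ok) {c f : V} (hc : c ∈ D.CC) (ha : D.act c f) (hg : f ∈ D.g c) :
    (D.X.mp fun Z => D.Act c (D.oc c f) Z ∧ f ∉ D.oZ c (D.oc c f) Z) ≤ 3 * D.p.ep := by
  have hm := hD.X.m_nonneg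
  have hb := (mem_filter.1 hg).2
  have hfo := sb_mem_oc ha
  have hfG : f ∈ D.G c := ha.2.1 hfo
  have hbe := hD.be0
  have key : (D.X.mp fun Z => D.Act c (D.oc c f) Z ∧ f ∉ D.oZ c (D.oc c f) Z) ≤
      D.bad2 c f + (D.bad4 c f + D.bad5 c f) := by
    unfold bad2 bad4 bad5
    refine le_trans (sb_mp_mono hm ?_) (le_trans (sb_mp_or hm _ _)
      (add_le_add le_rfl (sb_mp_or hm _ _)))
    intro Z hZ
    obtain ⟨hA, hn⟩ := hZ
    have hcR := hA.1
    have hth := hA.2.1 f hfo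
    by_cases h1 : D.X.lk f Z
    · right
      by_cases h2 : f ∈ D.dom c Z
      · right
        refine ⟨hcR, hth, ?_⟩
        by_contra h3
        rw [not_le] at h3
        apply hn
        unfold oZ
        rw [mem_filter]
        exact ⟨hfo, hA, hg, h1, h2, h3⟩
      · left
        refine ⟨hcR, ?_⟩
        have h3 : ∃ c' ∈ D.R Z, D.ord c' < D.ord c ∧ f ∈ D.G c' := by
          by_contra h4
          push Not at h4
          apply h2
          unfold dom
          rw [mem_filter]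
          exact ⟨hfG, hcR, h4⟩
        obtain ⟨c', hc', ho, hfc'⟩ := h3
        refine ⟨c', hc', ?_, (mem_filter.1 hfc').1⟩
        by_contra h4
        rw [not_lt] at h4
        exact hA.2.2 c' hc' ho h4 f hfo hfc'
    · left
      exact ⟨hcR, by linarith, h1⟩
  have h2 := hb.2.1
  have h4 := hb.2.2.2.1
  have h5 := hb.2.2.2.2
  linarith

theorem Do_le (hD : D.Ok) {c f : V} (hc : c ∈ D.CC) (ha : D.act c f) :
    D.Do c f ≤ 2 * D.p.H := by
  have hm := hD.X.m_nonneg
  have hmu := hD.mu0 (D.s + 1)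
  obtain ⟨f', hf', hg'⟩ : ∃ f' ∈ D.oc c f, f' ∈ D.g c := by
    by_contra h
    push Not at h
    have h1 : D.oc c f \ D.g c = D.oc c f := by
      rw [_root_.sdiff_eq_self_iff_disjoint, Finset.disjoint_left]
      exact fun a h3 h4 => h a h4 h3
    have h2 := ha.2.2.2
    rw [h1] at h2
    have h3 := ha.2.2.1
    have h4 := hD.e21
    nlinarith
  have ha' := sb_act_of ha hf'
  have h1 := mp_not_oZ hD hc ha' hg'
  rw [sb_oc_eq hf'] at h1
  have h2 : D.Do c f ≤ (D.X.mp fun Z => D.Act c (D.oc c f) Z ∧ f' ∉ D.oZ c (D.oc c f) Z) +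
      D.X.mp (fun Z => D.X.lk f' Z) := by
    unfold Do
    refine le_trans (sb_mp_mono hm ?_) (sb_mp_or hm _ _)
    intro Z hZ
    by_cases h3 : f' ∈ D.oZ c (D.oc c f) Z
    · right
      exact (mem_filter.1 h3).2.2.2.1
    · left
      exact ⟨hZ, h3⟩
  have h3 := sb_mp_link hD.X f'
  have h4 := hD.ep1
  linarith

/-- (7) -/
theorem Act_of_nc (hD : D.Ok) {c f Z : V} (hc : c ∈ D.CC) (ha : D.act c f)
    (h : f ∈ D.nc c Z) : D.Act c (D.oc c f) Z := by
  have hs := hD.s_lt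
  obtain ⟨hd, hth⟩ := mem_filter.1 h
  obtain ⟨hG, hcR, hmin⟩ := mem_filter.1 hd
  refine ⟨hcR, ?_, ?_⟩
  · intro g hg
    have h1 : D.φ (D.s + 1) c g = D.φ (D.s + 1) c f := (mem_filter.1 hg).2
    have h2 := hD.lev.ref D.s (by omega) c hc g (sb_oc_sub_E c f hg) f ha.1 h1
    have h3 : D.th D.s c Z g = D.th D.s c Z f :=
      avg_meas (D.E c) (D.φ D.s c) (D.X.n Z) g (sb_oc_sub_E c f hg) f ha.1 h2
    rw [h3]
    exact hth
  · intro c' hc' ho hov g hg hgG
    have h1 : D.φ (D.s + 1) c g = D.φ (D.s + 1) c f := (mem_filter.1 hg).2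
    have h2 := (G_tr hD le_rfl (by omega) hc (mem_filter.1 hc').1 hov
      (sb_oc_sub_E c f hg) ha.1 h1).1
    exact hmin c' hc' ho (h2.1 hgG)

theorem sb_n_nonneg (Z f : V) : 0 ≤ D.X.n Z f := by
  unfold Sys.n; split_ifs <;> norm_num

theorem sb_n_le (Z f : V) : D.X.n Z f ≤ 1 := by
  unfold Sys.n; split_ifs <;> norm_num

theorem kapc_le_Do (hD : D.Ok) {c f : V} (hc : c ∈ D.CC) (ha : D.act c f) (P : V) :
    D.kapc c P f ≤ D.Do c f := by
  have hm := hD.X.m_nonneg
  simp only [kapc, Do, Sys.mp, Sys.I, Sys.ms]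
  rw [sum_filter]
  refine le_trans (sum_le_sum (g := fun Z => if D.Act c (D.oc c f) Z then D.X.m Z else 0) ?_)
    (sum_le_sum_of_subset_of_nonneg (subset_univ _) ?_)
  · intro Z _
    by_cases h : f ∈ D.nc c Z
    · rw [if_pos h, if_pos (Act_of_nc hD hc ha h)]
      calc D.X.m Z * D.X.n Z f ≤ D.X.m Z * 1 := mul_le_mul_of_nonneg_left (sb_n_le _ _) (hm Z)
        _ = D.X.m Z := mul_one _
    · rw [if_neg h, mul_zero]
      split_ifs
      · exact hm Z
      · exact le_rfl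
  · intro Z _ _
    show (0 : ℝ) ≤ if D.Act c (D.oc c f) Z then D.X.m Z else 0
    split_ifs
    · exact hm Z
    · exact le_rfl

theorem sb_nc_dom {c Z f : V} (h : f ∈ D.nc c Z) : f ∈ D.dom c Z := (mem_filter.1 h).1

theorem kap_eq (hD : D.Ok) (P f : V) : D.kap P f = ∑ c ∈ D.CC, D.kapc c P f := by
  simp only [kap, kapc, Sys.I]
  rw [sum_comm]
  apply sum_congr rfl
  intro Z _
  rw [← mul_sum]
  congr 1
  by_cases h : f ∈ D.ncs Z
  · rw [if_pos h]
    obtain ⟨c, hc, hf⟩ := (mem_filter.1 h).2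
    rw [sum_eq_single_of_mem c hc, if_pos hf]
    intro c' _ hne
    rw [if_neg]
    intro hf'
    exact hne (dom_unique hD (sb_nc_dom hf') (sb_nc_dom hf))
  · rw [if_neg h]
    symm
    apply sum_eq_zero
    intro c hc
    rw [if_neg]
    intro hf
    apply h
    unfold ncs
    simp only [mem_filter, mem_univ, true_and]
    exact ⟨c, hc, hf⟩

theorem kap_le (hD : D.Ok) (P f : V) : D.kap P f ≤ D.X.ms (D.X.nb P ∩ D.X.nb f) := by
  have hm := hD.X.m_nonneg
  simp only [kap, Sys.I, Sys.ms]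
  have h1 : D.X.nb P ∩ D.X.nb f = (D.X.nb P).filter fun Z => D.X.lk Z f := by
    ext Z; simp [Sys.nb]
  rw [h1, sum_filter]
  apply sum_le_sum
  intro Z _
  by_cases h : D.X.lk Z f
  · rw [if_pos h]
    calc _ ≤ D.X.m Z * 1 := by
          apply mul_le_mul_of_nonneg_left _ (hm Z)
          split_ifs
          · exact sb_n_le _ _
          · norm_num
      _ = D.X.m Z := mul_one _
  · rw [if_neg h]
    have : D.X.n Z f = 0 := by
      unfold Sys.n
      rw [if_neg]
      intro h2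
      exact h (hD.X.symm _ _ h2)
    rw [this]
    simp

/-! ### (8) -/

theorem sb_oZ_sub (c : V) (o : Finset V) (Z : V) : D.oZ c o Z ⊆ o := filter_subset _ _

theorem vv_eq (hD : D.Ok) (P f : V) : D.vv P f = ∑ c ∈ D.CC, D.vo c P f := by
  simp only [vv, b, Sys.I]
  simp_rw [mul_sum]
  rw [sum_comm]
  apply sum_congr rfl
  intro c hc
  unfold vo
  by_cases ha : D.act c f
  · rw [if_pos ha]
    simp only [Sys.I]
    -- right side : sum over Z
    have hR : ∀ Z, (D.X.m Z * if f ∈ D.oZ c (D.oc c f) Z then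
        ∑ Q ∈ D.oZ c (D.oc c f) Z ∩ D.X.nb P, D.X.m Q * D.κ (D.oc c f) f Q else 0) =
        ∑ Q ∈ D.X.nb P, D.X.m Q * (if f ∈ D.oZ c (D.oc c f) Z ∧ Q ∈ D.oZ c (D.oc c f) Z then
          D.κ (D.oc c f) f Q * D.X.m Z else 0) := by
      intro Z
      by_cases h : f ∈ D.oZ c (D.oc c f) Z
      · rw [if_pos h]
        have : D.oZ c (D.oc c f) Z ∩ D.X.nb P =
            (D.X.nb P).filter fun Q => Q ∈ D.oZ c (D.oc c f) Z := by
          ext Q; simp [and_comm]
        rw [this, sum_filter, mul_sum]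
        apply sum_congr rfl
        intro Q _
        by_cases h2 : Q ∈ D.oZ c (D.oc c f) Z
        · rw [if_pos h2, if_pos ⟨h, h2⟩]; ring
        · rw [if_neg h2, if_neg (fun h3 => h2 h3.2)]; ring
      · rw [if_neg h, mul_zero]
        symm
        apply sum_eq_zero
        intro Q _
        rw [if_neg (fun h3 => h h3.1), mul_zero]
    rw [sum_congr rfl fun Z _ => hR Z, sum_comm]
    apply sum_congr rfl
    intro Q _
    rw [← mul_sum]
    congr 1
    unfold Sys.mp Sys.ms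
    rw [← sum_filter, ← mul_sum]
    by_cases hQ : Q ∈ D.oc c f
    · rw [if_pos ⟨ha, hQ⟩]
      congr!
    · rw [if_neg (fun h3 => hQ h3.2)]
      have : (univ.filter fun Z => f ∈ D.oZ c (D.oc c f) Z ∧ Q ∈ D.oZ c (D.oc c f) Z) = ∅ := by
        apply filter_eq_empty_iff.2
        intro Z _ h3
        exact hQ (sb_oZ_sub _ _ _ h3.2)
      rw [this]
      simp
  · rw [if_neg ha]
    apply sum_eq_zero
    intro Q _
    rw [if_neg (fun h3 => ha h3.1), mul_zero]

theorem vo_nonneg (hD : D.Ok) (c P f : V) (hc : c ∈ D.CC) : 0 ≤ D.vo c P f := by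
  have hm := hD.X.m_nonneg
  unfold vo
  split_ifs with ha
  · simp only [Sys.I]
    apply sum_nonneg
    intro Z _
    apply mul_nonneg (hm Z)
    split_ifs
    · apply sum_nonneg
      intro Q _
      exact mul_nonneg (hm Q) ((hD.ker c hc f ha).nonneg _ _)
    · exact le_rfl
  · exact le_rfl

/-- general bound for `vo`. -/
theorem sb_vo_le (hD : D.Ok) {c P f : V} (hc : c ∈ D.CC) (ha : D.act c f) {K M : ℝ}
    (hK : 0 ≤ K)
    (h1 : ∀ Z, f ∈ D.oZ c (D.oc c f) Z →
      (D.X.I (D.oZ c (D.oc c f) Z ∩ D.X.nb P) fun Q => D.κ (D.oc c f) f Q) ≤ K)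
    (hM : D.X.mp (fun Z => f ∈ D.oZ c (D.oc c f) Z) ≤ M) : D.vo c P f ≤ M * K := by
  have hm := hD.X.m_nonneg
  unfold vo
  rw [if_pos ha]
  calc (D.X.I univ fun Z => if f ∈ D.oZ c (D.oc c f) Z then
        D.X.I (D.oZ c (D.oc c f) Z ∩ D.X.nb P) fun Q => D.κ (D.oc c f) f Q else 0)
      ≤ ∑ Z, (if f ∈ D.oZ c (D.oc c f) Z then D.X.m Z * K else 0) := by
        simp only [Sys.I]
        apply sum_le_sum
        intro Z _
        by_cases h : f ∈ D.oZ c (D.oc c f) Z
        · rw [if_pos h, if_pos h]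
          have h3 := h1 Z h
          simp only [Sys.I] at h3
          exact mul_le_mul_of_nonneg_left h3 (hm Z)
        · rw [if_neg h, if_neg h, mul_zero]
    _ = D.X.mp (fun Z => f ∈ D.oZ c (D.oc c f) Z) * K := by
        unfold Sys.mp Sys.ms
        rw [sum_filter, sum_mul]
        apply sum_congr rfl
        intro Z _
        split_ifs <;> simp
    _ ≤ M * K := mul_le_mul_of_nonneg_right hM hK

theorem sb_I_sub (hm : ∀ f, 0 ≤ D.X.m f) {A B : Finset V} (h : A ⊆ B) {g : V → ℝ}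
    (hg : ∀ f, 0 ≤ g f) : D.X.I A g ≤ D.X.I B g :=
  sum_le_sum_of_subset_of_nonneg h fun f _ _ => mul_nonneg (hm f) (hg f)

theorem vo_le_Do (hD : D.Ok) {c P f : V} (hc : c ∈ D.CC) (ha : D.act c f) :
    D.vo c P f ≤ D.Do c f := by
  have hm := hD.X.m_nonneg
  have hk := hD.ker c hc f ha
  have h := sb_vo_le (P := P) hD hc ha (K := 1) (M := D.Do c f) zero_le_one ?_ ?_
  · rwa [mul_one] at h
  · intro Z _
    refine le_trans (sb_I_sub hm (subset_univ _) (fun Q => hk.nonneg f Q)) (hk.row f)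
  · unfold Do
    apply sb_mp_mono hm
    intro Z hZ
    exact (mem_filter.1 hZ).2.1

theorem sb_mp_oZ (hD : D.Ok) (c f : V) :
    D.X.mp (fun Z => f ∈ D.oZ c (D.oc c f) Z) ≤ D.p.H := by
  refine le_trans (sb_mp_mono hD.X.m_nonneg ?_) (sb_mp_link hD.X f)
  intro Z hZ
  exact (mem_filter.1 hZ).2.2.2.1

theorem vo_le_t (hD : D.Ok) {c P f : V} (hc : c ∈ D.CC) (ha : D.act c f) :
    D.vo c P f ≤ D.p.H * ∑ Q, D.X.m Q * (D.κ (D.oc c f) f Q * D.X.n P Q) := by
  have hm := hD.X.m_nonneg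
  have hk := hD.ker c hc f ha
  apply sb_vo_le hD hc ha
  · apply sum_nonneg
    intro Q _
    exact mul_nonneg (hm Q) (mul_nonneg (hk.nonneg _ _) (sb_n_nonneg _ _))
  · intro Z _
    refine le_trans (sb_I_sub hm inter_subset_right (fun Q => hk.nonneg f Q)) ?_
    simp only [Sys.I, Sys.nb]
    rw [sum_filter]
    apply le_of_eq
    apply sum_congr rfl
    intro Q _
    unfold Sys.n
    split_ifs <;> simp
  · exact sb_mp_oZ hD c f

theorem vo_le_T (hD : D.Ok) {c P f : V} (hc : c ∈ D.CC) (ha : D.act c f) :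
    D.vo c P f ≤ D.p.H * D.p.T (D.s + 1) * D.X.ms (D.oc c f ∩ D.X.nb P) := by
  have hm := hD.X.m_nonneg
  have hk := hD.ker c hc f ha
  have hT := hD.T1 (D.s + 1)
  rw [mul_assoc]
  apply sb_vo_le hD hc ha
  · exact mul_nonneg (by linarith) (sum_nonneg fun Q _ => hm Q)
  · intro Z _
    refine le_trans (sb_I_sub hm (inter_subset_inter_right (sb_oZ_sub _ _ _))
      (fun Q => hk.nonneg f Q)) ?_
    simp only [Sys.I, Sys.ms]
    rw [mul_sum]
    apply sum_le_sum
    intro Q _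
    rw [mul_comm]
    exact mul_le_mul_of_nonneg_right (hk.le f Q) (hm Q)
  · exact sb_mp_oZ hD c f

/-- (t n_P)(f) ≤ 1 -/
theorem sb_tn_le (hD : D.Ok) {c P f : V} (hc : c ∈ D.CC) (ha : D.act c f) :
    ∑ Q, D.X.m Q * (D.κ (D.oc c f) f Q * D.X.n P Q) ≤ 1 := by
  have hm := hD.X.m_nonneg
  have hk := hD.ker c hc f ha
  refine le_trans (sum_le_sum fun Q _ => ?_) (hk.row f)
  apply mul_le_mul_of_nonneg_left _ (hm Q)
  calc _ ≤ D.κ (D.oc c f) f Q * 1 := mul_le_mul_of_nonneg_left (sb_n_le _ _) (hk.nonneg _ _)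
    _ = _ := mul_one _

theorem sb_tn_nonneg (hD : D.Ok) {c P f : V} (hc : c ∈ D.CC) (ha : D.act c f) :
    0 ≤ ∑ Q, D.X.m Q * (D.κ (D.oc c f) f Q * D.X.n P Q) := by
  have hm := hD.X.m_nonneg
  have hk := hD.ker c hc f ha
  apply sum_nonneg
  intro Q _
  exact mul_nonneg (hm Q) (mul_nonneg (hk.nonneg _ _) (sb_n_nonneg _ _))

/-- The integral of `t n_P` over the active cells of the world `c`. -/
theorem sb_I_tn (hD : D.Ok) {c : V} (hc : c ∈ D.CC) (P : V) :
    (D.X.I (D.E c) fun f => if D.act c f then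
      ∑ Q, D.X.m Q * (D.κ (D.oc c f) f Q * D.X.n P Q) else 0) ≤
      D.X.ms (D.E c ∩ D.X.nb P) := by
  have hm := hD.X.m_nonneg
  have h1 : (D.X.I (D.E c) fun f => if D.act c f then
      ∑ Q, D.X.m Q * (D.κ (D.oc c f) f Q * D.X.n P Q) else 0) =
      ∑ Q, D.X.m Q * D.X.n P Q * ∑ f ∈ D.E c, (if D.act c f then
        D.X.m f * D.κ (D.oc c f) f Q else 0) := by
    simp only [Sys.I]
    simp_rw [mul_sum]
    rw [sum_comm]
    apply sum_congr rfl
    intro f _
    by_cases ha : D.act c f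
    · rw [if_pos ha, mul_sum]
      apply sum_congr rfl
      intro Q _
      rw [if_pos ha]
      ring
    · rw [if_neg ha, mul_zero]
      symm
      apply sum_eq_zero
      intro Q _
      rw [if_neg ha, mul_zero]
  rw [h1]
  have h2 : D.X.ms (D.E c ∩ D.X.nb P) = ∑ Q, D.X.m Q * D.X.n P Q * (if Q ∈ D.E c then 1 else 0) := by
    have : D.E c ∩ D.X.nb P = univ.filter fun Q => D.X.lk Q P ∧ Q ∈ D.E c := by
      ext Q; simp [Sys.nb, and_comm]
    unfold Sys.ms
    rw [this, sum_filter]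
    apply sum_congr rfl
    intro Q _
    unfold Sys.n
    by_cases h1 : D.X.lk Q P <;> by_cases h2 : Q ∈ D.E c <;> simp [h1, h2]
  rw [h2]
  apply sum_le_sum
  intro Q _
  apply mul_le_mul_of_nonneg_left _ (mul_nonneg (hm Q) (sb_n_nonneg _ _))
  -- the column sum
  have h3 : ∀ f ∈ D.E c, (if D.act c f then D.X.m f * D.κ (D.oc c f) f Q else 0) ≠ 0 →
      D.act c f ∧ Q ∈ D.oc c f := by
    intro f _ hne
    by_cases ha : D.act c f
    · refine ⟨ha, ?_⟩
      rw [if_pos ha] at hne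
      exact ((hD.ker c hc f ha).supp f Q (right_ne_zero_of_mul hne)).2.1
    · rw [if_neg ha] at hne
      exact absurd rfl hne
  by_cases hQ : Q ∈ D.E c ∧ D.act c Q
  · rw [if_pos hQ.1]
    have hk := hD.ker c hc Q hQ.2
    calc ∑ f ∈ D.E c, (if D.act c f then D.X.m f * D.κ (D.oc c f) f Q else 0)
        ≤ ∑ f ∈ D.E c, D.X.m f * D.κ (D.oc c Q) Q f := by
          apply sum_le_sum
          intro f hf
          by_cases hne : (if D.act c f then D.X.m f * D.κ (D.oc c f) f Q else 0) = 0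
          · rw [hne]
            exact mul_nonneg (hm f) (hk.nonneg _ _)
          · obtain ⟨ha, hQf⟩ := h3 f hf hne
            rw [if_pos ha, ← sb_oc_eq hQf, hk.symm f Q]
      _ ≤ ∑ f, D.X.m f * D.κ (D.oc c Q) Q f :=
          sum_le_sum_of_subset_of_nonneg (subset_univ _)
            fun f _ _ => mul_nonneg (hm f) (hk.nonneg _ _)
      _ ≤ 1 := hk.row Q
  · have h4 : ∑ f ∈ D.E c, (if D.act c f then D.X.m f * D.κ (D.oc c f) f Q else 0) = 0 := by
      apply sum_eq_zero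
      intro f hf
      by_contra hne
      obtain ⟨ha, hQf⟩ := h3 f hf hne
      exact hQ ⟨sb_oc_sub_E _ _ hQf, sb_act_of ha hQf⟩
    rw [h4]
    split_ifs <;> norm_num

theorem sum_vo_sq (hD : D.Ok) (P : V) :
    ∑ c ∈ D.CC, (D.X.I (D.E c) fun f => D.vo c P f ^ 2) ≤ D.p.B0 * D.p.H ^ 3 := by
  have hm := hD.X.m_nonneg
  have hH : 0 ≤ D.p.H := le_trans zero_le_one hD.X.one_le
  calc ∑ c ∈ D.CC, (D.X.I (D.E c) fun f => D.vo c P f ^ 2)
      ≤ ∑ c ∈ D.CC, D.p.H ^ 2 * D.X.ms (D.E c ∩ D.X.nb P) := by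
        apply sum_le_sum
        intro c hc
        refine le_trans ?_ (mul_le_mul_of_nonneg_left (sb_I_tn hD hc P) (by positivity))
        simp only [Sys.I]
        rw [mul_sum]
        apply sum_le_sum
        intro f _
        rw [mul_left_comm]
        apply mul_le_mul_of_nonneg_left _ (hm f)
        by_cases ha : D.act c f
        · rw [if_pos ha]
          have h0 := vo_nonneg hD c P f hc
          have h1 := vo_le_t (P := P) hD hc ha
          have h2 := sb_tn_le (P := P) hD hc ha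
          have h3 := sb_tn_nonneg (P := P) hD hc ha
          set x := ∑ Q, D.X.m Q * (D.κ (D.oc c f) f Q * D.X.n P Q)
          calc D.vo c P f ^ 2 ≤ (D.p.H * x) ^ 2 := pow_le_pow_left₀ h0 h1 2
            _ = D.p.H ^ 2 * (x * x) := by ring
            _ ≤ D.p.H ^ 2 * (x * 1) := by
                apply mul_le_mul_of_nonneg_left _ (by positivity)
                exact mul_le_mul_of_nonneg_left h2 h3
            _ = D.p.H ^ 2 * x := by ring
        · rw [if_neg ha, mul_zero]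
          unfold vo
          rw [if_neg ha]
          norm_num
    _ = D.p.H ^ 2 * ∑ c ∈ D.CC, D.X.ms (D.E c ∩ D.X.nb P) := by rw [mul_sum]
    _ ≤ D.p.H ^ 2 * (D.p.B0 * D.X.ms (D.X.nb P)) :=
        mul_le_mul_of_nonneg_left (sum_ms_E hD _) (by positivity)
    _ ≤ D.p.H ^ 2 * (D.p.B0 * D.p.H) := by
        apply mul_le_mul_of_nonneg_left _ (by positivity)
        exact mul_le_mul_of_nonneg_left (hD.X.deg P) (Nat.cast_nonneg _)
    _ = D.p.B0 * D.p.H ^ 3 := by ring

/-- The sum over the worlds of the mass of the sites `Z` for which the world is relevant. -/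
theorem sb_sum_rel (hD : D.Ok) (P : V) :
    ∑ c ∈ D.CC, D.X.ms ((D.X.nb P).filter fun Z => c ∈ D.R Z) ≤ D.p.H * D.RR := by
  have hm := hD.X.m_nonneg
  have hRR : 0 ≤ D.RR := by
    unfold RR
    have h1 : 0 ≤ D.p.H := le_trans zero_le_one hD.X.one_le
    have h2 := hD.tau0 D.s
    positivity
  calc ∑ c ∈ D.CC, D.X.ms ((D.X.nb P).filter fun Z => c ∈ D.R Z)
      = ∑ Z ∈ D.X.nb P, D.X.m Z * ((D.R Z).card : ℝ) := by
        unfold Sys.ms
        simp_rw [sum_filter]
        rw [sum_comm]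
        apply sum_congr rfl
        intro Z _
        rw [← sum_filter, sum_const, nsmul_eq_mul, mul_comm]
        congr 2
        have : (D.CC.filter fun c => c ∈ D.R Z) = D.R Z := by
          ext c
          simp only [mem_filter]
          exact ⟨fun h => h.2, fun h => ⟨(mem_filter.1 h).1, h⟩⟩
        rw [this]
    _ ≤ ∑ Z ∈ D.X.nb P, D.X.m Z * D.RR := by
        apply sum_le_sum
        intro Z _
        exact mul_le_mul_of_nonneg_left (card_R hD Z) (hm Z)
    _ = D.X.ms (D.X.nb P) * D.RR := by unfold Sys.ms; rw [sum_mul]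
    _ ≤ D.p.H * D.RR := mul_le_mul_of_nonneg_right (hD.X.deg P) hRR

/-- (9) -/
theorem sum_general (hD : D.Ok) (P : V) {F : V → V → ℝ} {L d : ℝ} (hL : 0 ≤ L) (hd : 0 < d)
    (h1 : ∀ c ∈ D.CC, ∀ f, |F c f| ≤ L * D.X.ms ((D.X.nb P).filter fun Z => c ∈ D.R Z))
    (h2 : ∀ c ∈ D.CC, (D.X.I (D.E c) fun f => |F c f|) ≤
      L * Real.sqrt (D.p.H * D.p.rho (D.s + 3))) {A : Finset V} (hA : D.X.ms A ≤ D.MM) :
    ∑ c ∈ D.CC, (D.X.I (D.E c ∩ A) fun f => |F c f|) ≤ L * D.e9 d := by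
  have hm := hD.X.m_nonneg
  have hsq := Real.sqrt_nonneg (D.p.H * D.p.rho (D.s + 3))
  set q := Real.sqrt (D.p.H * D.p.rho (D.s + 3)) with hq
  -- pointwise estimate of each summand
  have hpt : ∀ c ∈ D.CC, (D.X.I (D.E c ∩ A) fun f => |F c f|) ≤
      (D.X.ms (D.E c ∩ A) / d) * (L * q) +
        L * D.X.ms ((D.X.nb P).filter fun Z => c ∈ D.R Z) * d := by
    intro c hc
    have hms : 0 ≤ D.X.ms (D.E c ∩ A) := sum_nonneg fun f _ => hm f
    have hms2 : 0 ≤ D.X.ms ((D.X.nb P).filter fun Z => c ∈ D.R Z) := sum_nonneg fun f _ => hm f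
    by_cases h : d ≤ D.X.ms (D.E c ∩ A)
    · have h3 : 1 ≤ D.X.ms (D.E c ∩ A) / d := by rwa [le_div_iff₀ hd, one_mul]
      have h4 : (D.X.I (D.E c ∩ A) fun f => |F c f|) ≤ L * q :=
        le_trans (sb_I_sub hm inter_subset_left fun f => abs_nonneg _) (h2 c hc)
      have h5 : L * q ≤ (D.X.ms (D.E c ∩ A) / d) * (L * q) :=
        le_mul_of_one_le_left (mul_nonneg hL hsq) h3
      have h6 : 0 ≤ L * D.X.ms ((D.X.nb P).filter fun Z => c ∈ D.R Z) * d := by positivity
      linarith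
    · rw [not_le] at h
      have h4 : (D.X.I (D.E c ∩ A) fun f => |F c f|) ≤
          L * D.X.ms ((D.X.nb P).filter fun Z => c ∈ D.R Z) * D.X.ms (D.E c ∩ A) := by
        simp only [Sys.I]
        rw [mul_comm]
        conv_rhs => rw [Sys.ms]
        rw [sum_mul]
        apply sum_le_sum
        intro f _
        exact mul_le_mul_of_nonneg_left (h1 c hc f) (hm f)
      have h5 : L * D.X.ms ((D.X.nb P).filter fun Z => c ∈ D.R Z) * D.X.ms (D.E c ∩ A) ≤
          L * D.X.ms ((D.X.nb P).filter fun Z => c ∈ D.R Z) * d :=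
        mul_le_mul_of_nonneg_left h.le (mul_nonneg hL hms2)
      have h6 : 0 ≤ (D.X.ms (D.E c ∩ A) / d) * (L * q) := by positivity
      linarith
  have hRel := sb_sum_rel hD P
  calc ∑ c ∈ D.CC, (D.X.I (D.E c ∩ A) fun f => |F c f|)
      ≤ ∑ c ∈ D.CC, ((D.X.ms (D.E c ∩ A) / d) * (L * q) +
        L * D.X.ms ((D.X.nb P).filter fun Z => c ∈ D.R Z) * d) := sum_le_sum hpt
    _ = (∑ c ∈ D.CC, D.X.ms (D.E c ∩ A)) * (L * q / d) +
        L * d * ∑ c ∈ D.CC, D.X.ms ((D.X.nb P).filter fun Z => c ∈ D.R Z) := by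
        rw [sum_add_distrib, sum_mul, mul_sum]
        congr 1
        · apply sum_congr rfl
          intro c _
          ring
        · apply sum_congr rfl
          intro c _
          ring
    _ ≤ (D.p.B0 * D.MM) * (L * q / d) + L * d * (D.p.H * D.RR) := by
        apply add_le_add
        · apply mul_le_mul_of_nonneg_right _ (by positivity)
          exact le_trans (sum_ms_E hD A) (mul_le_mul_of_nonneg_left hA (Nat.cast_nonneg _))
        · exact mul_le_mul_of_nonneg_left hRel (by positivity)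
    _ = L * D.e9 d := by
        unfold e9
        rw [← hq]
        ring

end Ctx

end Pool.Agent.AcyS
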