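import Pool.Agent.AcyS.Defs
import Pool.Agent.AcyS.Regular

/-! # One-sided regularity (module S2 of the static theorem, project MP_af9dfb_S) -/

set_option autoImplicit false
set_option linter.unusedSectionVars false

namespace Pool.Agent.AcyS

open Finset
open scoped Classical

universe u

/-! ## Labels in `ℕ` -/

section Enc

variable {V : Type u} [Fintype V]

/-- Every labelling is equivalent to one with values in `ℕ`. -/
theorem exists_enc {K : Type*} (p : V → K) : ∃ φ : V → ℕ, ∀ f g, φ f = φ g ↔ p f = p g := by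
  obtain ⟨i, hi⟩ := exists_injective_nat (Set.range p)
  refine ⟨fun f => i ⟨p f, Set.mem_range_self f⟩, fun f g => ?_⟩
  rw [hi.eq_iff, Subtype.mk_eq_mk]

/-- A labelling with coarser classes has fewer values. -/
theorem card_image_le_of {K K' : Type*} [DecidableEq K] [DecidableEq K'] (E : Finset V)
    (φ : V → K) (ψ : V → K')
    (h : ∀ f ∈ E, ∀ g ∈ E, ψ f = ψ g → φ f = φ g) : (E.image φ).card ≤ (E.image ψ).card := by
  have h1 : ∀ k ∈ E.image φ, ∃ f, f ∈ E ∧ φ f = k := fun k hk => by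
    obtain ⟨f, hf, e⟩ := mem_image.1 hk
    exact ⟨f, hf, e⟩
  rcases E.eq_empty_or_nonempty with rfl | ⟨f₀, _⟩
  · simp
  have : Nonempty V := ⟨f₀⟩
  choose! rep hrep using h1
  refine card_le_card_of_injOn (fun k => ψ (rep k)) (fun k hk => ?_) fun k hk l hl e => ?_
  · exact mem_image_of_mem _ (hrep k hk).1
  · have := h _ (hrep k hk).1 _ (hrep l hl).1 e
    rw [(hrep k hk).2, (hrep l hl).2] at this
    exact this

theorem cell_enc {K : Type*} {φ : V → ℕ} {p : V → K} (h : ∀ f g, φ f = φ g ↔ p f = p g)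
    (E : Finset V) (f : V) : Sys.cell E φ f = En.cell E p f := by
  ext g
  simp only [Sys.cell, En.cell, mem_filter, h]

theorem avg_enc {K : Type*} {φ : V → ℕ} {p : V → K} (h : ∀ f g, φ f = φ g ↔ p f = p g)
    (X : Sys V) (E : Finset V) (g : V → ℝ) (f : V) : X.avg E φ g f = En.ce X.m E p g f := by
  unfold Sys.avg En.ce
  rw [cell_enc h]
  rfl

theorem cov_enc {K : Type*} {φ : V → ℕ} {p : V → K} (h : ∀ f g, φ f = φ g ↔ p f = p g)
    (X : Sys V) (E : Finset V) (Z Z' f : V) :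
    X.cov E φ Z Z' f = En.cov X.m E p (X.n Z) (X.n Z') f := by
  unfold Sys.cov En.cov
  rw [avg_enc h, avg_enc h, avg_enc h]

theorem ch_nb (X : Sys V) (Z : V) : En.ch (X.nb Z) = X.n Z := by
  ext f
  simp [En.ch, Sys.nb, Sys.n]

end Enc

section Reg

variable {V : Type u} [Fintype V] {X : Sys V} {H : ℝ}

/-- (A4) -/
theorem exists_reg (hX : X.Ok H) (E W : Finset V) (hE : X.ms E ≤ H) (φ₀ : V → ℕ) {ρ M : ℝ}
    (hρ : 0 < ρ) (hM : X.ms W ≤ M) (hM1 : 1 ≤ M) :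
    ∃ φ : V → ℕ, (∀ f g, φ f = φ g → φ₀ f = φ₀ g) ∧
      (E.image φ).card ≤ (E.image φ₀).card * 2 ^ (⌈M ^ 4 * H ^ 2 / ρ ^ 2⌉₊ + 1) ∧
      X.Reg E φ W ρ := by
  have hH : 0 < H := lt_of_lt_of_le one_pos hX.one_le
  have hM0 : 0 < M := lt_of_lt_of_le one_pos hM1
  have hW0 : 0 ≤ X.ms W := sum_nonneg fun f _ => hX.m_nonneg f
  have hE0 : 0 ≤ X.ms E := sum_nonneg fun f _ => hX.m_nonneg f
  have hρ' : 0 < ρ ^ 2 / (M ^ 3 * H) := by positivity
  set 𝒜 : Finset (Finset V) := univ.image fun f => univ.filter fun g => φ₀ g = φ₀ f with h𝒜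
  obtain ⟨𝒵, h𝒵, hc, hr⟩ := En.exists_regular hX.m_nonneg W (fun Z _ => hX.m_nonneg Z)
    X.nb hρ' E 𝒜
  obtain ⟨φ, hφ⟩ := exists_enc (En.lab (𝒜 ∪ 𝒵.image X.nb))
  have href : ∀ f g, En.lab (𝒜 ∪ 𝒵.image X.nb) f = En.lab (𝒜 ∪ 𝒵.image X.nb) g →
      φ₀ f = φ₀ g := by
    intro f g e
    have h1 := (En.lab_eq_iff.1 e (univ.filter fun g => φ₀ g = φ₀ f)
      (mem_union_left _ (mem_image_of_mem _ (mem_univ f)))).1
      (mem_filter.2 ⟨mem_univ _, rfl⟩)
    exact (mem_filter.1 h1).2.symm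
  refine ⟨φ, fun f g e => href f g ((hφ f g).1 e), ?_, ?_⟩
  · -- number of cells
    have h1 : (E.image φ).card ≤
        (E.image fun f => (φ₀ f, En.lab (𝒵.image X.nb) f)).card := by
      refine card_image_le_of E _ _ fun f _ g _ e => ?_
      rw [Prod.mk.injEq] at e
      rw [hφ, En.lab_eq_iff]
      intro A hA
      rcases mem_union.1 hA with hA | hA
      · obtain ⟨x, _, rfl⟩ := mem_image.1 hA
        simp [e.1]
      · exact En.lab_eq_iff.1 e.2 A hA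
    have h2 : (E.image fun f => (φ₀ f, En.lab (𝒵.image X.nb) f)) ⊆
        (E.image φ₀) ×ˢ (𝒵.image X.nb).powerset := by
      intro k hk
      obtain ⟨f, hf, rfl⟩ := mem_image.1 hk
      exact mem_product.2 ⟨mem_image_of_mem _ hf, mem_powerset.2 (filter_subset _ _)⟩
    have h3 : (𝒵.image X.nb).card ≤ ⌈M ^ 4 * H ^ 2 / ρ ^ 2⌉₊ + 1 := by
      refine card_image_le.trans ?_
      have h4 : (𝒵.card : ℝ) ≤ M ^ 4 * H ^ 2 / ρ ^ 2 := by
        have h5 : (𝒵.card : ℝ) * (4 * (ρ ^ 2 / (M ^ 3 * H))) ≤ M * H :=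
          hc.trans (mul_le_mul hM hE hE0 hM0.le)
        rw [le_div_iff₀ (by positivity)]
        have h6 : (𝒵.card : ℝ) * ρ ^ 2 * 4 ≤ M * H * (M ^ 3 * H) := by
          have h7 := mul_le_mul_of_nonneg_right h5 (show 0 ≤ M ^ 3 * H by positivity)
          calc (𝒵.card : ℝ) * ρ ^ 2 * 4 =
              (𝒵.card : ℝ) * (4 * (ρ ^ 2 / (M ^ 3 * H))) * (M ^ 3 * H) := by
                field_simp
            _ ≤ _ := h7
        have h8 : 0 ≤ (𝒵.card : ℝ) * ρ ^ 2 := by positivity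
        nlinarith
      have h5 : 𝒵.card ≤ ⌈M ^ 4 * H ^ 2 / ρ ^ 2⌉₊ := by
        exact_mod_cast h4.trans (Nat.le_ceil _)
      omega
    calc (E.image φ).card ≤ _ := h1
      _ ≤ _ := card_le_card h2
      _ = (E.image φ₀).card * 2 ^ (𝒵.image X.nb).card := by rw [card_product, card_powerset]
      _ ≤ _ := Nat.mul_le_mul_left _ (Nat.pow_le_pow_right (by norm_num) h3)
  · -- regularity
    have hr' : ∀ Z' ∈ W, ∑ Z ∈ W, X.m Z * ∑ f ∈ E, X.m f *
        En.cov X.m E (En.lab (𝒜 ∪ 𝒵.image X.nb)) (X.n Z) (X.n Z') f ^ 2 ≤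
        ρ ^ 2 / (M ^ 3 * H) := by
      intro Z' hZ'
      have := hr Z' hZ'
      simp only [ch_nb] at this
      exact this
    have h1 := En.sum_abs_cov_le hX.m_nonneg W (fun Z _ => hX.m_nonneg Z) X.n E
      (En.lab (𝒜 ∪ 𝒵.image X.nb)) hr'
    have h2 : ∑ Z ∈ W, ∑ Z' ∈ W, X.m Z * X.m Z' * X.I E (fun f => |X.cov E φ Z Z' f|) =
        ∑ Z' ∈ W, X.m Z' * ∑ Z ∈ W, X.m Z * ∑ f ∈ E, X.m f *
          |En.cov X.m E (En.lab (𝒜 ∪ 𝒵.image X.nb)) (X.n Z) (X.n Z') f| := by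
      rw [sum_comm]
      refine sum_congr rfl fun Z' _ => ?_
      rw [mul_sum]
      refine sum_congr rfl fun Z _ => ?_
      unfold Sys.I
      simp only [cov_enc hφ]
      ring
    unfold Sys.Reg
    rw [h2]
    refine h1.trans ?_
    have h3 : (∑ Z ∈ W, X.m Z) * En.ms X.m E * (ρ ^ 2 / (M ^ 3 * H)) ≤ (ρ / M) ^ 2 := by
      have h4 : (∑ Z ∈ W, X.m Z) * En.ms X.m E ≤ M * H := mul_le_mul hM hE hE0 hM0.le
      calc _ ≤ M * H * (ρ ^ 2 / (M ^ 3 * H)) := mul_le_mul_of_nonneg_right h4 hρ'.le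
        _ = (ρ / M) ^ 2 := by field_simp
    calc (∑ Z ∈ W, X.m Z) * Real.sqrt ((∑ Z ∈ W, X.m Z) * En.ms X.m E * (ρ ^ 2 / (M ^ 3 * H))) ≤
        M * (ρ / M) := by
          refine mul_le_mul hM ?_ (Real.sqrt_nonneg _) hM0.le
          rw [← Real.sqrt_sq (show 0 ≤ ρ / M by positivity)]
          exact Real.sqrt_le_sqrt h3
      _ = ρ := by field_simp

/-- (A5) -/
theorem reg_L1 (hX : X.Ok H) {E W U : Finset V} (hE : X.ms E ≤ H) {φ : V → ℕ} {ρ : ℝ}
    (hR : X.Reg E φ W ρ) (hU : U ⊆ W) {lam : V → V → ℝ} {L : ℝ} (hL : 0 ≤ L)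
    (h0 : ∀ Z ∈ U, ∀ f, 0 ≤ lam Z f) (h1 : ∀ Z ∈ U, ∀ f, lam Z f ≤ L)
    (hm : ∀ Z ∈ U, Meas E φ (lam Z)) :
    (X.I E fun f => |X.I U fun Z => lam Z f * (X.avg E φ (X.n Z) f - X.n Z f)|) ≤
      L * Real.sqrt (H * ρ) := by
  have hH : 0 < H := lt_of_lt_of_le one_pos hX.one_le
  have hE0 : 0 ≤ X.ms E := sum_nonneg fun f _ => hX.m_nonneg f
  -- the square
  have key : ∑ f ∈ E, X.m f * (X.I U fun Z => lam Z f * (X.avg E φ (X.n Z) f - X.n Z f)) ^ 2 ≤
      L ^ 2 * ρ := by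
    have e1 : ∑ f ∈ E, X.m f *
        (X.I U fun Z => lam Z f * (X.avg E φ (X.n Z) f - X.n Z f)) ^ 2 =
        ∑ Z ∈ U, ∑ Z' ∈ U, X.m Z * X.m Z' * ∑ f ∈ E, X.m f * ((lam Z f * lam Z' f) *
          X.cov E φ Z Z' f) := by
      have k1 : ∀ f ∈ E, X.m f *
          (X.I U fun Z => lam Z f * (X.avg E φ (X.n Z) f - X.n Z f)) ^ 2 =
          ∑ Z ∈ U, ∑ Z' ∈ U, X.m Z * X.m Z' * (X.m f * ((lam Z f * lam Z' f) *
            ((X.n Z f - X.avg E φ (X.n Z) f) * (X.n Z' f - X.avg E φ (X.n Z') f)))) := by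
        intro f _
        unfold Sys.I
        rw [sq, sum_mul_sum, mul_sum]
        refine sum_congr rfl fun Z _ => ?_
        rw [mul_sum]
        exact sum_congr rfl fun Z' _ => by ring
      rw [sum_congr rfl k1, sum_comm]
      refine sum_congr rfl fun Z hZ => ?_
      rw [sum_comm]
      refine sum_congr rfl fun Z' hZ' => ?_
      rw [← mul_sum]
      congr 1
      have hg : En.Meas E φ (fun f => lam Z f * lam Z' f) :=
        En.Meas.mul (hm Z hZ) (hm Z' hZ')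
      have h := (En.sum_cov_mul hX.m_nonneg hg (X.n Z) (X.n Z')).symm
      simp only [← avg_enc (φ := φ) (fun _ _ => Iff.rfl), ← cov_enc (φ := φ)
        (fun _ _ => Iff.rfl)] at h
      exact h
    rw [e1]
    have hρ : ∑ Z ∈ U, ∑ Z' ∈ U, X.m Z * X.m Z' * X.I E (fun f => |X.cov E φ Z Z' f|) ≤ ρ := by
      refine le_trans ?_ hR
      have hnn : ∀ Z Z', 0 ≤ X.m Z * X.m Z' * X.I E (fun f => |X.cov E φ Z Z' f|) :=
        fun Z Z' => mul_nonneg (mul_nonneg (hX.m_nonneg Z) (hX.m_nonneg Z'))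
          (sum_nonneg fun f _ => mul_nonneg (hX.m_nonneg f) (abs_nonneg _))
      refine (sum_le_sum fun Z _ => sum_le_sum_of_subset_of_nonneg hU fun Z' _ _ =>
        hnn Z Z').trans ?_
      exact sum_le_sum_of_subset_of_nonneg hU fun Z _ _ => sum_nonneg fun Z' _ => hnn Z Z'
    refine le_trans ?_ (mul_le_mul_of_nonneg_left hρ (sq_nonneg L))
    rw [mul_sum]
    refine sum_le_sum fun Z hZ => ?_
    rw [mul_sum]
    refine sum_le_sum fun Z' hZ' => ?_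
    rw [mul_left_comm]
    refine mul_le_mul_of_nonneg_left ?_ (mul_nonneg (hX.m_nonneg Z) (hX.m_nonneg Z'))
    unfold Sys.I
    rw [mul_sum]
    refine sum_le_sum fun f _ => ?_
    rw [mul_left_comm (L ^ 2)]
    refine mul_le_mul_of_nonneg_left ?_ (hX.m_nonneg f)
    calc lam Z f * lam Z' f * X.cov E φ Z Z' f ≤ |lam Z f * lam Z' f * X.cov E φ Z Z' f| :=
          le_abs_self _
      _ = lam Z f * lam Z' f * |X.cov E φ Z Z' f| := by
          rw [abs_mul, abs_of_nonneg (mul_nonneg (h0 Z hZ f) (h0 Z' hZ' f))]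
      _ ≤ L ^ 2 * |X.cov E φ Z Z' f| := by
          refine mul_le_mul_of_nonneg_right ?_ (abs_nonneg _)
          rw [sq]
          exact mul_le_mul (h1 Z hZ f) (h1 Z' hZ' f) (h0 Z' hZ' f) hL
  have hρ0 : 0 ≤ ρ := by
    refine le_trans ?_ hR
    exact sum_nonneg fun Z _ => sum_nonneg fun Z' _ =>
      mul_nonneg (mul_nonneg (hX.m_nonneg Z) (hX.m_nonneg Z'))
        (sum_nonneg fun f _ => mul_nonneg (hX.m_nonneg f) (abs_nonneg _))
  refine (En.sum_abs_le hX.m_nonneg E _).trans ?_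
  have h2 : L * Real.sqrt (H * ρ) = Real.sqrt (H * (L ^ 2 * ρ)) := by
    rw [show H * (L ^ 2 * ρ) = L ^ 2 * (H * ρ) by ring, Real.sqrt_mul (sq_nonneg L),
      Real.sqrt_sq hL]
  rw [h2]
  refine Real.sqrt_le_sqrt ?_
  refine mul_le_mul hE key ?_ hH.le
  exact sum_nonneg fun f _ => mul_nonneg (hX.m_nonneg f) (sq_nonneg _)

end Reg

end Pool.Agent.AcyS
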