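import Pool.Agent.AcyS.Good
import Pool.Agent.AcyS.Reg
import Pool.Agent.AcyS.Fact
import Pool.Agent.AcyS.FactB

/-! # The estimates (I) and (IVa) (project MP_af9dfb_S, row S7) -/

set_option autoImplicit false
set_option linter.unusedSectionVars false

namespace Pool.Agent.AcyS

open Finset
open scoped Classical

universe u

variable {V : Type u} [Fintype V]

theorem ea_abs_I {X : Sys V} (hm : ∀ f, 0 ≤ X.m f) (E : Finset V) (g : V → ℝ) :
    |X.I E g| ≤ X.I E fun f => |g f| := by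
  unfold Sys.I
  refine (Finset.abs_sum_le_sum_abs _ _).trans (Finset.sum_le_sum fun f _ => ?_)
  rw [abs_mul, abs_of_nonneg (hm f)]

theorem ea_I_add (X : Sys V) (E : Finset V) (g g' : V → ℝ) :
    (X.I E fun f => g f + g' f) = X.I E g + X.I E g' := by
  unfold Sys.I
  rw [← Finset.sum_add_distrib]
  exact Finset.sum_congr rfl fun f _ => by ring

theorem ea_I_sub (X : Sys V) (E : Finset V) (g g' : V → ℝ) :
    (X.I E fun f => g f - g' f) = X.I E g - X.I E g' := by
  unfold Sys.I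
  rw [← Finset.sum_sub_distrib]
  exact Finset.sum_congr rfl fun f _ => by ring

theorem ea_I_congr {X : Sys V} {E : Finset V} {g g' : V → ℝ} (h : ∀ f ∈ E, g f = g' f) :
    X.I E g = X.I E g' := Finset.sum_congr rfl fun f hf => by rw [h f hf]

/-- Integral of an indicator. -/
theorem ea_I_ind (X : Sys V) (A : Finset V) :
    (X.I univ fun f => if f ∈ A then (1 : ℝ) else 0) = X.ms A := by
  rw [gd_I_ite, gd_I_const, one_mul, Finset.univ_inter]

theorem ea_n (X : Sys V) (Z f : V) : 0 ≤ X.n Z f ∧ X.n Z f ≤ 1 := by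
  unfold Sys.n
  split_ifs <;> norm_num

namespace Ctx

variable {D : Ctx V}

theorem ea_nb (hD : D.Ok) (P : V) : D.X.ms (D.X.nb P) ≤ D.p.H := hD.X.deg P

theorem ea_RR (hD : D.Ok) : 0 ≤ D.RR := by
  have ht := hD.tau0 D.s
  have hH : 0 ≤ D.p.H := by linarith [hD.X.one_le]
  unfold RR
  positivity

theorem ea_BB (hD : D.Ok) : 0 ≤ D.BB := by
  have hH : 0 ≤ D.p.H := by linarith [hD.X.one_le]
  have hT := hD.T1 (D.s + 1)
  have hb := hD.be0
  unfold BB
  positivity

theorem ea_dm {c Z f : V} (h : f ∈ D.dm c Z) : f ∈ D.E c ∧ c ∈ D.R Z := by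
  rw [dm, mem_filter] at h
  exact ⟨(mem_filter.1 h.1).1, h.2.1⟩

/-- Sums over the worlds of functions of regular families. -/
theorem ea_fam (hD : D.Ok) (P : V) {d : ℝ} (hd : 0 < d) {L Ψ : ℝ} (hL : 0 ≤ L) (hΨ : 0 ≤ Ψ)
    (w : V → V → V → ℝ) (w0 : ∀ c ∈ D.CC, ∀ Z f, 0 ≤ w c Z f)
    (w1 : ∀ c ∈ D.CC, ∀ Z f, w c Z f ≤ L)
    (ws : ∀ c ∈ D.CC, ∀ Z f, w c Z f ≠ 0 → f ∈ D.E c ∧ c ∈ D.R Z)
    (wm : ∀ c ∈ D.CC, ∀ Z, Meas (D.E c) (D.φ (D.s + 3) c) (w c Z))
    {ψ : V → ℝ} (hψ : ∀ f, |ψ f| ≤ Ψ) {A : Finset V} (hA : ∀ f, ψ f ≠ 0 → f ∈ A)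
    (hMM : D.X.ms A ≤ D.MM) :
    ∑ c ∈ D.CC, |D.X.I univ fun f => ψ f * D.X.I (D.X.nb P) fun Z =>
      w c Z f * (D.th (D.s + 3) c Z f - D.X.n Z f)| ≤ Ψ * (L * D.e9 d) := by
  have hm := hD.X.m_nonneg
  set F : V → V → ℝ := fun c f => D.X.I (D.X.nb P) fun Z =>
    w c Z f * (D.th (D.s + 3) c Z f - D.X.n Z f) with hF
  have hU : ∀ c ∈ D.CC, ∀ f, F c f = D.X.I ((D.X.nb P).filter fun Z => c ∈ D.R Z) fun Z =>
      w c Z f * (D.th (D.s + 3) c Z f - D.X.n Z f) := by
    intro c hc f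
    simp only [hF, Sys.I]
    rw [Finset.sum_filter]
    refine Finset.sum_congr rfl fun Z _ => ?_
    split_ifs with h
    · rfl
    · have : w c Z f = 0 := by
        by_contra h0
        exact h (ws c hc Z f h0).2
      rw [this]
      ring
  have hdiff : ∀ c Z f, |D.th (D.s + 3) c Z f - D.X.n Z f| ≤ 1 := by
    intro c Z f
    have h1 := th_nonneg hD (D.s + 3) c Z f
    have h2 := th_le_one hD (D.s + 3) c Z f
    have h3 := ea_n D.X Z f
    rw [abs_le]
    constructor <;> linarith [h3.1, h3.2]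
  have h1 : ∀ c ∈ D.CC, ∀ f, |F c f| ≤ L * D.X.ms ((D.X.nb P).filter fun Z => c ∈ D.R Z) := by
    intro c hc f
    rw [hU c hc f, ← gd_I_const]
    refine (ea_abs_I hm _ _).trans (I_mono hm fun Z _ => ?_)
    rw [abs_mul, abs_of_nonneg (w0 c hc Z f)]
    calc w c Z f * |D.th (D.s + 3) c Z f - D.X.n Z f| ≤ w c Z f * 1 :=
          mul_le_mul_of_nonneg_left (hdiff c Z f) (w0 c hc Z f)
      _ ≤ L := by rw [mul_one]; exact w1 c hc Z f
  have h2 : ∀ c ∈ D.CC, (D.X.I (D.E c) fun f => |F c f|) ≤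
      L * Real.sqrt (D.p.H * D.p.rho (D.s + 3)) := by
    intro c hc
    have hs := hD.s_lt
    have hR := hD.lev.reg (D.s + 3) (by omega) (by omega) c hc
    have hsub : ((D.X.nb P).filter fun Z => c ∈ D.R Z) ⊆ D.W (D.s + 3) c := by
      intro Z hZ
      rw [mem_filter] at hZ
      have h3 : D.p.tau D.s ≤ D.X.ms (D.E c ∩ D.X.nb Z) := (mem_filter.1 hZ.2).2
      have h4 : D.p.tau (D.s + 3) ≤ D.p.tau D.s :=
        (hD.tau1 (D.s + 2)).trans ((hD.tau1 (D.s + 1)).trans (hD.tau1 D.s))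
      exact mem_filter.2 ⟨mem_univ _, h4.trans h3⟩
    have h5 := reg_L1 hD.X (ms_E_le hD c) hR hsub hL (lam := w c)
      (fun Z _ f => w0 c hc Z f) (fun Z _ f => w1 c hc Z f) (fun Z _ => wm c hc Z)
    refine le_trans (le_of_eq ?_) h5
    refine ea_I_congr fun f _ => ?_
    rw [hU c hc f]
    rfl
  have h3 := sum_general hD P hL hd h1 h2 hMM
  have h4 : ∀ c ∈ D.CC, |D.X.I univ fun f => ψ f * F c f| ≤
      Ψ * D.X.I (D.E c ∩ A) fun f => |F c f| := by
    intro c hc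
    have k1 : (D.X.I (D.E c ∩ A) fun f => |F c f|) = D.X.I univ fun f =>
        if f ∈ D.E c ∩ A then |F c f| else 0 := by
      rw [gd_I_ite, Finset.univ_inter]
    rw [k1, ← gd_I_smul]
    refine (ea_abs_I hm _ _).trans (I_mono hm fun f _ => ?_)
    rw [abs_mul]
    by_cases h : f ∈ D.E c ∩ A
    · rw [if_pos h]
      exact mul_le_mul_of_nonneg_right (hψ f) (abs_nonneg _)
    · rw [if_neg h, mul_zero]
      rw [mem_inter, not_and_or] at h
      rcases h with h | h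
      · have : F c f = 0 := by
          simp only [hF]
          refine Finset.sum_eq_zero fun Z _ => ?_
          have h0 : w c Z f = 0 := by
            by_contra h0
            exact h (ws c hc Z f h0).1
          simp only [h0]
          ring
        rw [this, abs_zero, mul_zero]
      · have : ψ f = 0 := by
          by_contra h0
          exact h (hA f h0)
        rw [this, abs_zero, zero_mul]
  calc ∑ c ∈ D.CC, |D.X.I univ fun f => ψ f * F c f| ≤
      ∑ c ∈ D.CC, Ψ * D.X.I (D.E c ∩ A) fun f => |F c f| := Finset.sum_le_sum h4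
    _ = Ψ * ∑ c ∈ D.CC, D.X.I (D.E c ∩ A) fun f => |F c f| := (Finset.mul_sum _ _ _).symm
    _ ≤ Ψ * (L * D.e9 d) := mul_le_mul_of_nonneg_left h3 hΨ

/-- Number of worlds in which `f` is in `dm` but not in `dom`. -/
noncomputable def ea_dd (D : Ctx V) (Z f : V) : ℝ :=
  ∑ c ∈ D.CC, if f ∈ D.dm c Z \ D.dom c Z then (1 : ℝ) else 0

theorem ea_I_dd (hD : D.Ok) (Z : V) :
    D.X.I univ (D.ea_dd Z) ≤ D.RR ^ 2 * D.p.del (D.s + 1) := by
  have : D.X.I univ (D.ea_dd Z) = ∑ c ∈ D.CC, D.X.ms (D.dm c Z \ D.dom c Z) := by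
    unfold ea_dd
    rw [gd_I_sum]
    exact Finset.sum_congr rfl fun c _ => ea_I_ind _ _
  rw [this]
  exact sum_dm_diff hD Z

/-- Replacing `dom` by `dm`. -/
theorem ea_dom_dm (D : Ctx V) (q : V → V → V → Prop) [∀ c Z f, Decidable (q c Z f)]
    (v : V → V → V → ℝ) {B : ℝ} (hB : 0 ≤ B)
    (hv : ∀ c ∈ D.CC, ∀ Z f, f ∈ D.dm c Z → q c Z f → |v c Z f| ≤ B) (Z f : V) :
    |(∑ c ∈ D.CC, if f ∈ D.dom c Z ∧ q c Z f then v c Z f else 0) -
      ∑ c ∈ D.CC, if f ∈ D.dm c Z ∧ q c Z f then v c Z f else 0| ≤ B * D.ea_dd Z f := by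
  rw [← Finset.sum_sub_distrib, ea_dd, Finset.mul_sum]
  refine (Finset.abs_sum_le_sum_abs _ _).trans (Finset.sum_le_sum fun c hc => ?_)
  have hsub := dom_sub_dm D c Z
  by_cases h1 : f ∈ D.dom c Z
  · have h2 := hsub h1
    simp [h1, h2]
  · by_cases h2 : f ∈ D.dm c Z
    · by_cases h3 : q c Z f
      · simp only [h1, h2, h3, false_and, if_false, if_true, mem_sdiff, not_false_eq_true,
          and_self, mul_one, zero_sub, abs_neg]
        exact hv c hc Z f h2 h3
      · simp only [h1, h2, h3, and_false, if_false, if_true, mem_sdiff,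
          not_false_eq_true, and_self, mul_one, sub_self, abs_zero]
        exact hB
    · simp [h1, h2]

/-- Integrated form of an error bounded by `ea_dd`. -/
theorem ea_diff (hD : D.Ok) (P : V) {Ψ B : ℝ} (hΨ : 0 ≤ Ψ) (hB : 0 ≤ B) {ψ : V → ℝ}
    (hψ : ∀ f, |ψ f| ≤ Ψ) (e : V → V → ℝ) (he : ∀ Z f, |e Z f| ≤ B * D.ea_dd Z f) :
    |D.X.I univ fun f => ψ f * D.X.I (D.X.nb P) fun Z => e Z f| ≤
      Ψ * (B * (D.p.H * (D.RR ^ 2 * D.p.del (D.s + 1)))) := by
  have hm := hD.X.m_nonneg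
  have h1 : |D.X.I univ fun f => ψ f * D.X.I (D.X.nb P) fun Z => e Z f| ≤
      D.X.I univ fun f => Ψ * D.X.I (D.X.nb P) fun Z => B * D.ea_dd Z f := by
    refine (ea_abs_I hm _ _).trans (I_mono hm fun f _ => ?_)
    rw [abs_mul]
    refine mul_le_mul (hψ f) ?_ (abs_nonneg _) hΨ
    exact (ea_abs_I hm _ _).trans (I_mono hm fun Z _ => he Z f)
  refine h1.trans ?_
  rw [gd_I_smul]
  refine mul_le_mul_of_nonneg_left ?_ hΨ
  rw [I_comm]
  have h2 : (D.X.I (D.X.nb P) fun Z => D.X.I univ fun f => B * D.ea_dd Z f) ≤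
      D.X.I (D.X.nb P) fun _ => B * (D.RR ^ 2 * D.p.del (D.s + 1)) := by
    refine I_mono hm fun Z _ => ?_
    rw [gd_I_smul]
    exact mul_le_mul_of_nonneg_left (ea_I_dd hD Z) hB
  refine h2.trans ?_
  rw [gd_I_const]
  have h3 : 0 ≤ B * (D.RR ^ 2 * D.p.del (D.s + 1)) := by
    have := hD.del0 (D.s + 1)
    positivity
  have h4 := mul_le_mul_of_nonneg_left (ea_nb hD P) h3
  refine h4.trans (le_of_eq ?_)
  ring

theorem ea_th_diff (hD : D.Ok) (c Z f : V) : |D.th (D.s + 3) c Z f - D.X.n Z f| ≤ 1 := by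
  have h1 := th_nonneg hD (D.s + 3) c Z f
  have h2 := th_le_one hD (D.s + 3) c Z f
  have h3 := ea_n D.X Z f
  rw [abs_le]
  constructor <;> linarith [h3.1, h3.2]

/-- The class row as a sum over the worlds. -/
theorem ea_hcl (hD : D.Ok) (Z f : V) : D.hcl Z f = ∑ c ∈ D.CC,
    if f ∈ D.dom c Z ∧ (D.th D.s c Z f ≤ 1 - D.p.be ∧ D.th (D.s + 3) c Z f ≤ 1 - D.p.be / 2) then
      (D.th (D.s + 3) c Z f - D.X.n Z f) / (1 - D.th (D.s + 3) c Z f) else 0 := by
  have hiff : ∀ c, f ∈ D.cl c Z ↔ (f ∈ D.dom c Z ∧ (D.th D.s c Z f ≤ 1 - D.p.be ∧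
      D.th (D.s + 3) c Z f ≤ 1 - D.p.be / 2)) := fun c => by rw [cl, mem_filter]
  unfold hcl
  split_ifs with h
  · obtain ⟨c, hc, hf⟩ := h
    rw [Finset.sum_eq_single c]
    · rw [if_pos ((hiff c).1 hf), h_cl hD hf]
    · intro c' _ hne
      rw [if_neg]
      intro h'
      exact hne (dom_unique hD h'.1 ((hiff c).1 hf).1)
    · exact fun h' => absurd hc h'
  · symm
    refine Finset.sum_eq_zero fun c hc => ?_
    rw [if_neg]
    exact fun h' => h ⟨c, hc, (hiff c).2 h'⟩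

/-- Measurability of `dm` and of the densities at the level `s + 3`. -/
theorem ea_meas (hD : D.Ok) {c : V} (hc : c ∈ D.CC) (Z : V) {f g : V} (hf : f ∈ D.E c)
    (hg : g ∈ D.E c) (h : D.φ (D.s + 3) c f = D.φ (D.s + 3) c g) :
    (f ∈ D.dm c Z ↔ g ∈ D.dm c Z) ∧ D.th D.s c Z f = D.th D.s c Z g ∧
      D.th (D.s + 3) c Z f = D.th (D.s + 3) c Z g := by
  have hs := hD.s_lt
  have h2 := ref_of_le hD (a := D.s + 2) (b := D.s + 3) (by omega) (by omega) hc f hf g hg h
  have h0 := ref_of_le hD (a := D.s) (b := D.s + 3) (by omega) (by omega) hc f hf g hg h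
  exact ⟨dm_meas hD hc Z hf hg h2, avg_meas (X := D.X) _ _ _ f hf g hg h0,
    avg_meas (X := D.X) _ _ _ f hf g hg h⟩

/-- (I) -/
theorem est_I (hD : D.Ok) (P : V) {d : ℝ} (hd : 0 < d) :
    (D.X.I univ fun f => D.u P f * D.Psi P f) ≤
      2 * D.BB / D.p.be * (D.p.H * D.RR ^ 2 * D.p.del (D.s + 1) + D.e9 d) := by
  have hm := hD.X.m_nonneg
  have hb := hD.be0
  have hBB := ea_BB hD
  set v : V → V → V → ℝ := fun c Z f =>
    (D.th (D.s + 3) c Z f - D.X.n Z f) / (1 - D.th (D.s + 3) c Z f) with hv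
  set w : V → V → V → ℝ := fun c Z f => if f ∈ D.dm c Z ∧ (D.th D.s c Z f ≤ 1 - D.p.be ∧
    D.th (D.s + 3) c Z f ≤ 1 - D.p.be / 2) then
    1 / (1 - D.th (D.s + 3) c Z f) else 0 with hw
  have hden : ∀ c Z f, (D.th D.s c Z f ≤ 1 - D.p.be ∧
      D.th (D.s + 3) c Z f ≤ 1 - D.p.be / 2) → D.p.be / 2 ≤ 1 - D.th (D.s + 3) c Z f :=
    fun c Z f h => by linarith [h.2]
  have hw1 : ∀ c Z f, 0 ≤ w c Z f ∧ w c Z f ≤ 2 / D.p.be := by
    intro c Z f
    simp only [hw]
    split_ifs with h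
    · have h1 := hden c Z f h.2
      have h2 : 0 < 1 - D.th (D.s + 3) c Z f := lt_of_lt_of_le (by positivity) h1
      refine ⟨by positivity, ?_⟩
      rw [div_le_div_iff₀ h2 hb]
      linarith
    · exact ⟨le_rfl, by positivity⟩
  have hvB : ∀ c ∈ D.CC, ∀ Z f, f ∈ D.dm c Z → (D.th D.s c Z f ≤ 1 - D.p.be ∧
      D.th (D.s + 3) c Z f ≤ 1 - D.p.be / 2) → |v c Z f| ≤ 2 / D.p.be := by
    intro c _ Z f _ h
    have h1 := hden c Z f h
    have h2 : 0 < 1 - D.th (D.s + 3) c Z f := lt_of_lt_of_le (by positivity) h1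
    simp only [hv]
    rw [abs_div, abs_of_pos h2, div_le_div_iff₀ h2 hb]
    have h3 := ea_th_diff hD c Z f
    nlinarith
  set e : V → V → ℝ := fun Z f => D.hcl Z f - ∑ c ∈ D.CC, w c Z f *
    (D.th (D.s + 3) c Z f - D.X.n Z f) with he
  have he1 : ∀ Z f, |e Z f| ≤ 2 / D.p.be * D.ea_dd Z f := by
    intro Z f
    have h1 := ea_dom_dm D (fun c Z f => D.th D.s c Z f ≤ 1 - D.p.be ∧
      D.th (D.s + 3) c Z f ≤ 1 - D.p.be / 2) v (by positivity : (0 : ℝ) ≤ 2 / D.p.be) hvB Z f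
    have h2 : (∑ c ∈ D.CC, if f ∈ D.dm c Z ∧ (D.th D.s c Z f ≤ 1 - D.p.be ∧
        D.th (D.s + 3) c Z f ≤ 1 - D.p.be / 2) then v c Z f else 0) =
        ∑ c ∈ D.CC, w c Z f * (D.th (D.s + 3) c Z f - D.X.n Z f) := by
      refine Finset.sum_congr rfl fun c _ => ?_
      simp only [hw, hv]
      split_ifs
      · ring
      · ring
    rw [h2] at h1
    simp only [he, ea_hcl hD Z f]
    exact h1
  have h2 := ea_diff hD P hBB (by positivity : (0 : ℝ) ≤ 2 / D.p.be) (abs_u_le hD P) e he1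
  have h3 := ea_fam hD P hd (L := 2 / D.p.be) (by positivity) hBB w (fun c _ Z f => (hw1 c Z f).1)
    (fun c _ Z f => (hw1 c Z f).2)
    (fun c _ Z f h => by
      simp only [hw] at h
      split_ifs at h with h'
      · exact ea_dm h'.1
      · exact absurd rfl h)
    (fun c hc Z f hf g hg hfg => by
      obtain ⟨m1, m2, m3⟩ := ea_meas hD hc Z hf hg hfg
      simp only [hw, m1, m2, m3])
    (ψ := D.u P) (abs_u_le hD P)
    (A := univ.filter fun f => D.u P f ≠ 0 ∨ D.h P f ≠ 0)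
    (fun f hf => mem_filter.2 ⟨mem_univ _, Or.inl hf⟩) (ms_supp hD P)
  have h4 : (D.X.I univ fun f => D.u P f * D.Psi P f) =
      (D.X.I univ fun f => D.u P f * D.X.I (D.X.nb P) fun Z => e Z f) +
      ∑ c ∈ D.CC, D.X.I univ fun f => D.u P f * D.X.I (D.X.nb P) fun Z =>
        w c Z f * (D.th (D.s + 3) c Z f - D.X.n Z f) := by
    rw [← gd_I_sum, ← ea_I_add]
    refine ea_I_congr fun f _ => ?_
    rw [← Finset.mul_sum, ← mul_add]
    congr 1
    rw [← gd_I_sum, ← ea_I_add]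
    refine ea_I_congr fun Z _ => ?_
    simp only [he]
    ring
  rw [h4]
  have h5 := (abs_le.1 h2).2
  have h6 : ∑ c ∈ D.CC, (D.X.I univ fun f => D.u P f * D.X.I (D.X.nb P) fun Z =>
        w c Z f * (D.th (D.s + 3) c Z f - D.X.n Z f)) ≤ D.BB * (2 / D.p.be * D.e9 d) :=
    (Finset.sum_le_sum fun c _ => le_abs_self _).trans h3
  calc _ ≤ D.BB * (2 / D.p.be * (D.p.H * (D.RR ^ 2 * D.p.del (D.s + 1)))) +
        D.BB * (2 / D.p.be * D.e9 d) := add_le_add h5 h6
    _ = _ := by ring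

/-! ### (IVa) -/

/-- Indicator of the nearly complete pairs. -/
theorem ea_ncs (hD : D.Ok) (Z f : V) (x : ℝ) : (if f ∈ D.ncs Z then x else 0) =
    ∑ c ∈ D.CC, if f ∈ D.dom c Z ∧ 1 - D.p.be < D.th D.s c Z f then x else 0 := by
  by_cases h : f ∈ D.ncs Z
  · rw [if_pos h]
    obtain ⟨c, hc, hf⟩ := (mem_filter.1 h).2
    rw [nc, mem_filter] at hf
    rw [Finset.sum_eq_single c, if_pos hf]
    · intro c' _ hne
      rw [if_neg]
      intro h'
      exact hne (dom_unique hD h'.1 hf.1)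
    · exact fun h' => absurd hc h'
  · rw [if_neg h]
    symm
    refine Finset.sum_eq_zero fun c hc => ?_
    rw [if_neg]
    exact fun h' => h (mem_filter.2 ⟨mem_univ _, c, hc, mem_filter.2 h'⟩)

/-- The nearly complete pairs, seen from the world `c`. -/
def ea_M (D : Ctx V) (c Z f : V) : Prop := ∃ c' ∈ D.R Z, D.p.del (D.s + 1) ≤ D.ov c c' ∧
  f ∈ D.G c' ∧ (∀ c'' ∈ D.R Z, D.ord c'' < D.ord c' → D.p.del (D.s + 1) ≤ D.ov c c'' →
    f ∉ D.G c'') ∧ 1 - D.p.be < D.th D.s c' Z f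

theorem ea_M_meas (hD : D.Ok) {c : V} (hc : c ∈ D.CC) (Z : V) {f g : V} (hf : f ∈ D.E c)
    (hg : g ∈ D.E c) (h : D.φ (D.s + 3) c f = D.φ (D.s + 3) c g) (hM : D.ea_M c Z f) :
    D.ea_M c Z g := by
  have hs := hD.s_lt
  have h2 := ref_of_le hD (a := D.s + 2) (b := D.s + 3) (by omega) (by omega) hc f hf g hg h
  obtain ⟨c', hc', hov, hG, hmin, hth⟩ := hM
  have hcc : ∀ c'' ∈ D.R Z, c'' ∈ D.CC := fun c'' h' => (mem_filter.1 h').1
  have key : ∀ c'' ∈ D.R Z, D.p.del (D.s + 1) ≤ D.ov c c'' → (f ∈ D.G c'' ↔ g ∈ D.G c'') ∧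
      (f ∈ D.E c'' → ∀ Z, D.th D.s c'' Z f = D.th D.s c'' Z g) := fun c'' h'' ho =>
    G_tr hD (r := D.s + 1) (by omega) (by omega) hc (hcc c'' h'') ho hf hg h2
  refine ⟨c', hc', hov, (key c' hc' hov).1.1 hG, fun c'' h'' ho hov'' hg'' =>
    hmin c'' h'' ho hov'' ((key c'' h'' hov'').1.2 hg''), ?_⟩
  rw [← (key c' hc' hov).2 (mem_filter.1 hG).1 Z]
  exact hth

/-- Difference between the two indicators. -/
theorem ea_M_diff (D : Ctx V) (c Z f : V) :
    |(if f ∈ D.ncs Z then (1 : ℝ) else 0) - if D.ea_M c Z f then 1 else 0| ≤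
      ∑ c' ∈ D.R Z, if D.ov c c' < D.p.del (D.s + 1) ∧ f ∈ D.E c' then 1 else 0 := by
  have hnn : ∀ i ∈ D.R Z, (0 : ℝ) ≤ if D.ov c i < D.p.del (D.s + 1) ∧ f ∈ D.E i
      then (1 : ℝ) else 0 := fun i _ => by split_ifs <;> norm_num
  by_cases hex : ∃ c' ∈ D.R Z, D.ov c c' < D.p.del (D.s + 1) ∧ f ∈ D.E c'
  · obtain ⟨c', hc', hov, hf⟩ := hex
    have h1 := Finset.single_le_sum hnn hc'
    rw [if_pos ⟨hov, hf⟩] at h1
    refine le_trans ?_ h1
    split_ifs <;> norm_num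
  · have hall : ∀ c' ∈ D.R Z, f ∈ D.G c' → D.p.del (D.s + 1) ≤ D.ov c c' := by
      intro c' hc' hG
      by_contra hlt
      exact hex ⟨c', hc', not_le.1 hlt, (mem_filter.1 hG).1⟩
    have hiff : f ∈ D.ncs Z ↔ D.ea_M c Z f := by
      constructor
      · intro h
        obtain ⟨c', hc', hf⟩ := (mem_filter.1 h).2
        rw [nc, mem_filter, dom, mem_filter] at hf
        exact ⟨c', hf.1.2.1, hall c' hf.1.2.1 hf.1.1, hf.1.1,
          fun c'' h'' ho _ => hf.1.2.2 c'' h'' ho, hf.2⟩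
      · rintro ⟨c', hc', hov, hG, hmin, hth⟩
        refine mem_filter.2 ⟨mem_univ _, c', (mem_filter.1 hc').1, mem_filter.2 ⟨mem_filter.2
          ⟨hG, hc', fun c'' h'' ho hG'' => hmin c'' h'' ho (hall c'' h'' hG'') hG''⟩, hth⟩⟩
    rw [show (if f ∈ D.ncs Z then (1 : ℝ) else 0) = if D.ea_M c Z f then 1 else 0 by
      simp only [hiff], sub_self, abs_zero]
    exact Finset.sum_nonneg hnn

/-- The integral of the class row over nearly complete pairs of `Z`. -/
theorem ea_hcl_ncs (hD : D.Ok) (P Z : V) :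
    |D.X.I univ fun f => D.hcl P f * (if f ∈ D.ncs Z then (1 : ℝ) else 0)| ≤
      4 / D.p.be * (D.RR ^ 2 * D.p.del (D.s + 1)) := by
  have hm := hD.X.m_nonneg
  have hb := hD.be0
  have hRR := ea_RR hD
  have hd := hD.del0 (D.s + 1)
  set v : V → V → V → ℝ := fun c Z f =>
    (D.th (D.s + 3) c Z f - D.X.n Z f) / (1 - D.th (D.s + 3) c Z f) with hv
  have hden : ∀ c Z f, (D.th D.s c Z f ≤ 1 - D.p.be ∧
      D.th (D.s + 3) c Z f ≤ 1 - D.p.be / 2) → D.p.be / 2 ≤ 1 - D.th (D.s + 3) c Z f :=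
    fun c Z f h => by linarith [h.2]
  have hvB : ∀ c ∈ D.CC, ∀ Z f, f ∈ D.dm c Z → (D.th D.s c Z f ≤ 1 - D.p.be ∧
      D.th (D.s + 3) c Z f ≤ 1 - D.p.be / 2) → |v c Z f| ≤ 2 / D.p.be := by
    intro c _ Z f _ h
    have h1 := hden c Z f h
    have h2 : 0 < 1 - D.th (D.s + 3) c Z f := lt_of_lt_of_le (by positivity) h1
    simp only [hv]
    rw [abs_div, abs_of_pos h2, div_le_div_iff₀ h2 hb]
    have h3 := ea_th_diff hD c Z f
    nlinarith
  set W : V → V → ℝ := fun c f => if f ∈ D.dm c P ∧ (D.th D.s c P f ≤ 1 - D.p.be ∧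
      D.th (D.s + 3) c P f ≤ 1 - D.p.be / 2) then v c P f else 0 with hW
  set i1 : V → ℝ := fun f => if f ∈ D.ncs Z then (1 : ℝ) else 0 with hi1
  set i2 : V → V → ℝ := fun c f => if D.ea_M c Z f then (1 : ℝ) else 0 with hi2
  have hi1' : ∀ f, |i1 f| ≤ 1 := fun f => by simp only [hi1]; split_ifs <;> norm_num
  -- the three parts
  have hsplit : (D.X.I univ fun f => D.hcl P f * i1 f) =
      (D.X.I univ fun f => (D.hcl P f - ∑ c ∈ D.CC, W c f) * i1 f) +
      (∑ c ∈ D.CC, D.X.I univ fun f => W c f * (i1 f - i2 c f)) +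
      ∑ c ∈ D.CC, D.X.I univ fun f => W c f * i2 c f := by
    rw [← gd_I_sum, ← gd_I_sum, ← ea_I_add, ← ea_I_add]
    refine ea_I_congr fun f _ => ?_
    rw [add_assoc, ← Finset.sum_add_distrib]
    have : ∀ c ∈ D.CC, W c f * (i1 f - i2 c f) + W c f * i2 c f = W c f * i1 f :=
      fun c _ => by ring
    rw [Finset.sum_congr rfl this, ← Finset.sum_mul]
    ring
  have p1 : |D.X.I univ fun f => (D.hcl P f - ∑ c ∈ D.CC, W c f) * i1 f| ≤
      2 / D.p.be * (D.RR ^ 2 * D.p.del (D.s + 1)) := by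
    have k1 : ∀ f, |D.hcl P f - ∑ c ∈ D.CC, W c f| ≤ 2 / D.p.be * D.ea_dd P f := by
      intro f
      rw [ea_hcl hD P f]
      exact ea_dom_dm D (fun c Z f => D.th D.s c Z f ≤ 1 - D.p.be ∧
        D.th (D.s + 3) c Z f ≤ 1 - D.p.be / 2) v (by positivity) hvB P f
    refine (ea_abs_I hm _ _).trans ?_
    have k2 : (D.X.I univ fun f => |(D.hcl P f - ∑ c ∈ D.CC, W c f) * i1 f|) ≤
        D.X.I univ fun f => 2 / D.p.be * D.ea_dd P f := by
      refine I_mono hm fun f _ => ?_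
      rw [abs_mul]
      calc |D.hcl P f - ∑ c ∈ D.CC, W c f| * |i1 f| ≤ |D.hcl P f - ∑ c ∈ D.CC, W c f| * 1 :=
            mul_le_mul_of_nonneg_left (hi1' f) (abs_nonneg _)
        _ ≤ _ := by rw [mul_one]; exact k1 f
    refine k2.trans ?_
    rw [gd_I_smul]
    exact mul_le_mul_of_nonneg_left (ea_I_dd hD P) (by positivity)
  have hW0 : ∀ c f, W c f ≠ 0 → f ∈ D.E c ∧ c ∈ D.R P := by
    intro c f h
    simp only [hW] at h
    split_ifs at h with h'
    · exact ea_dm h'.1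
    · exact absurd rfl h
  have hWB : ∀ c ∈ D.CC, ∀ f, |W c f| ≤ 2 / D.p.be := by
    intro c hc f
    simp only [hW]
    split_ifs with h
    · exact hvB c hc P f h.1 h.2
    · rw [abs_zero]
      positivity
  have p2 : |∑ c ∈ D.CC, D.X.I univ fun f => W c f * (i1 f - i2 c f)| ≤
      2 / D.p.be * (D.RR ^ 2 * D.p.del (D.s + 1)) := by
    have k1 : ∀ c ∈ D.CC, |D.X.I univ fun f => W c f * (i1 f - i2 c f)| ≤
        if c ∈ D.R P then 2 / D.p.be * (D.RR * D.p.del (D.s + 1)) else 0 := by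
      intro c hc
      by_cases hR : c ∈ D.R P
      · rw [if_pos hR]
        have k2 : (D.X.I univ fun f => |W c f * (i1 f - i2 c f)|) ≤
            D.X.I (D.E c) fun f => 2 / D.p.be * ∑ c' ∈ D.R Z,
              if D.ov c c' < D.p.del (D.s + 1) ∧ f ∈ D.E c' then (1 : ℝ) else 0 := by
          have e1 : (D.X.I univ fun f => |W c f * (i1 f - i2 c f)|) =
              D.X.I (D.E c) fun f => |W c f * (i1 f - i2 c f)| := by
            have e2 : (D.X.I univ fun f => |W c f * (i1 f - i2 c f)|) =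
                D.X.I univ fun f => if f ∈ D.E c then |W c f * (i1 f - i2 c f)| else 0 := by
              refine ea_I_congr fun f _ => ?_
              split_ifs with h
              · rfl
              · have : W c f = 0 := by
                  by_contra h0
                  exact h (hW0 c f h0).1
                rw [this, zero_mul, abs_zero]
            rw [e2, gd_I_ite, Finset.univ_inter]
          rw [e1]
          refine I_mono hm fun f _ => ?_
          rw [abs_mul]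
          exact mul_le_mul (hWB c hc f) (ea_M_diff D c Z f) (abs_nonneg _) (by positivity)
        refine (ea_abs_I hm _ _).trans (k2.trans ?_)
        rw [gd_I_smul, gd_I_sum]
        refine mul_le_mul_of_nonneg_left ?_ (by positivity)
        have k3 : ∀ c' ∈ D.R Z, (D.X.I (D.E c) fun f =>
            if D.ov c c' < D.p.del (D.s + 1) ∧ f ∈ D.E c' then (1 : ℝ) else 0) ≤
            D.p.del (D.s + 1) := by
          intro c' _
          by_cases h : D.ov c c' < D.p.del (D.s + 1)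
          · simp only [h, true_and]
            rw [gd_I_ite, gd_I_const, one_mul]
            exact h.le
          · simp only [h, false_and, if_false, Sys.I, mul_zero, Finset.sum_const_zero]
            exact hd.le
        have k4 := Finset.sum_le_sum k3
        rw [Finset.sum_const, nsmul_eq_mul] at k4
        exact k4.trans (mul_le_mul_of_nonneg_right (card_R hD Z) hd.le)
      · rw [if_neg hR]
        have : ∀ f, W c f = 0 := by
          intro f
          by_contra h0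
          exact hR (hW0 c f h0).2
        simp only [this, zero_mul, Sys.I, mul_zero, Finset.sum_const_zero, abs_zero, le_refl]
    refine (Finset.abs_sum_le_sum_abs _ _).trans ((Finset.sum_le_sum k1).trans ?_)
    rw [← Finset.sum_filter, Finset.sum_const, nsmul_eq_mul]
    have k5 : (((D.CC.filter fun c => c ∈ D.R P).card : ℕ) : ℝ) ≤ D.RR := by
      refine le_trans ?_ (card_R hD P)
      exact_mod_cast Finset.card_le_card fun c hc => (mem_filter.1 hc).2
    calc (((D.CC.filter fun c => c ∈ D.R P).card : ℕ) : ℝ) *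
          (2 / D.p.be * (D.RR * D.p.del (D.s + 1))) ≤
          D.RR * (2 / D.p.be * (D.RR * D.p.del (D.s + 1))) :=
          mul_le_mul_of_nonneg_right k5 (by positivity)
      _ = _ := by ring
  have p3 : ∑ c ∈ D.CC, (D.X.I univ fun f => W c f * i2 c f) = 0 := by
    refine Finset.sum_eq_zero fun c hc => ?_
    set w : V → ℝ := fun f => if (f ∈ D.dm c P ∧ (D.th D.s c P f ≤ 1 - D.p.be ∧
      D.th (D.s + 3) c P f ≤ 1 - D.p.be / 2)) ∧ D.ea_M c Z f then
      1 / (1 - D.th (D.s + 3) c P f) else 0 with hw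
    have hwm : Meas (D.E c) (D.φ (D.s + 3) c) w := by
      intro f hf g hg hfg
      obtain ⟨m1, m2, m3⟩ := ea_meas hD hc P hf hg hfg
      have m4 : D.ea_M c Z f ↔ D.ea_M c Z g :=
        ⟨ea_M_meas hD hc Z hf hg hfg, ea_M_meas hD hc Z hg hf hfg.symm⟩
      simp only [hw, m1, m2, m3, m4]
    have e1 : (D.X.I univ fun f => W c f * i2 c f) =
        D.X.I (D.E c) fun f => w f * (D.th (D.s + 3) c P f - D.X.n P f) := by
      have e2 : (D.X.I univ fun f => W c f * i2 c f) = D.X.I univ fun f =>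
          if f ∈ D.E c then w f * (D.th (D.s + 3) c P f - D.X.n P f) else 0 := by
        refine ea_I_congr fun f _ => ?_
        by_cases h1 : f ∈ D.E c
        · rw [if_pos h1]
          simp only [hW, hi2, hw, hv]
          by_cases h2 : f ∈ D.dm c P ∧ (D.th D.s c P f ≤ 1 - D.p.be ∧
            D.th (D.s + 3) c P f ≤ 1 - D.p.be / 2)
          · by_cases h3 : D.ea_M c Z f
            · rw [if_pos h2, if_pos h3, if_pos ⟨h2, h3⟩]
              ring
            · have h4 : ¬ ((f ∈ D.dm c P ∧ (D.th D.s c P f ≤ 1 - D.p.be ∧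
                D.th (D.s + 3) c P f ≤ 1 - D.p.be / 2)) ∧ D.ea_M c Z f) := fun h => h3 h.2
              rw [if_neg h3, if_neg h4, mul_zero, zero_mul]
          · have h4 : ¬ ((f ∈ D.dm c P ∧ (D.th D.s c P f ≤ 1 - D.p.be ∧
                D.th (D.s + 3) c P f ≤ 1 - D.p.be / 2)) ∧ D.ea_M c Z f) := fun h => h2 h.1
            rw [if_neg h2, if_neg h4, zero_mul, zero_mul]
        · rw [if_neg h1]
          have : W c f = 0 := by
            by_contra h0
            exact h1 (hW0 c f h0).1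
          rw [this, zero_mul]
      rw [e2, gd_I_ite, Finset.univ_inter]
    rw [e1]
    have e3 := I_mul_avg hm hwm (D.X.n P)
    have e4 : (D.X.I (D.E c) fun f => w f * (D.th (D.s + 3) c P f - D.X.n P f)) =
        (D.X.I (D.E c) fun f => w f * D.X.avg (D.E c) (D.φ (D.s + 3) c) (D.X.n P) f) -
          D.X.I (D.E c) fun f => w f * D.X.n P f := by
      rw [← ea_I_sub]
      refine ea_I_congr fun f _ => ?_
      rw [mul_sub]
      rfl
    rw [e4, e3, sub_self]
  rw [hsplit, p3, add_zero]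
  refine (abs_add_le _ _).trans ((add_le_add p1 p2).trans (le_of_eq ?_))
  ring

/-- Cauchy-Schwarz for the change of the densities on nearly complete pairs. -/
theorem ea_cs (hD : D.Ok) (Z : V) :
    (D.X.I univ fun f => ∑ c ∈ D.CC, if f ∈ D.dom c Z ∧ 1 - D.p.be < D.th D.s c Z f then
      |D.th (D.s + 3) c Z f - D.th D.s c Z f| else 0) ≤
      Real.sqrt (2 * D.p.B0 * D.p.H) * Real.sqrt (D.inc Z) := by
  have hm := hD.X.m_nonneg
  have hb := hD.be0
  have hb1 := hD.be1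
  have hs := hD.s_lt
  set i : V → V → ℝ := fun c f => if f ∈ (D.E c).filter (fun f => 1 / 2 ≤ D.th D.s c Z f)
    then (1 : ℝ) else 0 with hi
  set a : V → ℝ := fun c => D.X.I (D.E c) fun f => i c f ^ 2 with ha
  set b : V → ℝ := fun c => D.X.I (D.E c) fun f =>
    (D.th (D.s + 3) c Z f - D.th D.s c Z f) ^ 2 with hb'
  have ha0 : ∀ c, 0 ≤ a c := fun c => gd_I_nonneg hm _ fun f _ => sq_nonneg _
  have hb0 : ∀ c, 0 ≤ b c := fun c => gd_I_nonneg hm _ fun f _ => sq_nonneg _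
  rw [gd_I_sum]
  have k1 : ∀ c ∈ D.CC, (D.X.I univ fun f => if f ∈ D.dom c Z ∧
      1 - D.p.be < D.th D.s c Z f then |D.th (D.s + 3) c Z f - D.th D.s c Z f| else 0) ≤
      Real.sqrt (a c) * Real.sqrt (b c) := by
    intro c _
    have k2 : (D.X.I univ fun f => if f ∈ D.dom c Z ∧
        1 - D.p.be < D.th D.s c Z f then |D.th (D.s + 3) c Z f - D.th D.s c Z f| else 0) ≤
        D.X.I (D.E c) fun f => i c f * |D.th (D.s + 3) c Z f - D.th D.s c Z f| := by
      have k3 : (D.X.I (D.E c) fun f => i c f * |D.th (D.s + 3) c Z f - D.th D.s c Z f|) =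
          D.X.I univ fun f => if f ∈ D.E c then
            i c f * |D.th (D.s + 3) c Z f - D.th D.s c Z f| else 0 := by
        rw [gd_I_ite, Finset.univ_inter]
      rw [k3]
      refine I_mono hm fun f _ => ?_
      by_cases h : f ∈ D.dom c Z ∧ 1 - D.p.be < D.th D.s c Z f
      · have hE : f ∈ D.E c := (mem_filter.1 (mem_filter.1 h.1).1).1
        rw [if_pos h, if_pos hE]
        have : i c f = 1 := if_pos (mem_filter.2 ⟨hE, by linarith [h.2]⟩)
        rw [this, one_mul]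
      · rw [if_neg h]
        split_ifs
        · refine mul_nonneg ?_ (abs_nonneg _)
          simp only [hi]
          split_ifs <;> norm_num
        · exact le_rfl
    refine k2.trans ?_
    rw [← Real.sqrt_mul (ha0 c)]
    apply Real.le_sqrt_of_sq_le
    have k4 := I_cs hm (D.E c) (i c) fun f => |D.th (D.s + 3) c Z f - D.th D.s c Z f|
    simp only [sq_abs] at k4
    exact k4
  refine (Finset.sum_le_sum k1).trans ?_
  have k5 := Real.sum_mul_le_sqrt_mul_sqrt D.CC (fun c => Real.sqrt (a c))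
    (fun c => Real.sqrt (b c))
  refine k5.trans ?_
  simp only [Real.sq_sqrt (ha0 _), Real.sq_sqrt (hb0 _)]
  refine mul_le_mul (Real.sqrt_le_sqrt ?_) (Real.sqrt_le_sqrt ?_) (Real.sqrt_nonneg _)
    (Real.sqrt_nonneg _)
  · have k6 : ∀ c ∈ D.CC, a c ≤ 2 * D.X.ms (D.E c ∩ D.X.nb Z) := by
      intro c _
      have e1 : a c = D.X.ms ((D.E c).filter fun f => 1 / 2 ≤ D.th D.s c Z f) := by
        simp only [ha, hi]
        have e2 : ∀ f, (if f ∈ (D.E c).filter (fun f => 1 / 2 ≤ D.th D.s c Z f)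
            then (1 : ℝ) else 0) ^ 2 =
            if f ∈ (D.E c).filter (fun f => 1 / 2 ≤ D.th D.s c Z f) then 1 else 0 :=
          fun f => by split_ifs <;> norm_num
        simp only [e2]
        rw [gd_I_ite, gd_I_const, one_mul, Finset.inter_eq_right.2 (filter_subset _ _)]
      rw [e1, ← gd_I_n]
      exact ms_avg_large hm (D.E c) (D.φ D.s c) fun f => (ea_n D.X Z f).1
    refine (Finset.sum_le_sum k6).trans ?_
    rw [← Finset.mul_sum]
    have k7 := sum_ms_E hD (D.X.nb Z)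
    have k8 : (D.p.B0 : ℝ) * D.X.ms (D.X.nb Z) ≤ D.p.B0 * D.p.H :=
      mul_le_mul_of_nonneg_left (ea_nb hD Z) (Nat.cast_nonneg _)
    linarith
  · exact inc_part hD Z (a := D.s) (b := D.s + 3) le_rfl (by omega) (by omega)

/-- (IVa) -/
theorem est_IVa (hD : D.Ok) (P : V) {d : ℝ} (hd : 0 < d) :
    -(D.X.I univ fun f => D.hcl P f * D.kap P f) ≤
      4 / D.p.be * (D.p.H * D.RR ^ 2 * D.p.del (D.s + 1)) + D.p.be * D.p.B0 * D.p.H ^ 2 +
      2 / D.p.be * (Real.sqrt (2 * D.p.B0 * D.p.H) *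
        D.X.I (D.X.nb P) fun Z => Real.sqrt (D.inc Z)) +
      2 / D.p.be * (D.p.H * D.RR ^ 2 * D.p.del (D.s + 1) + D.e9 d) := by
  have hm := hD.X.m_nonneg
  have hb := hD.be0
  have hdel := hD.del0 (D.s + 1)
  have hH : 0 ≤ D.p.H := by linarith [hD.X.one_le]
  have hB0 : (0 : ℝ) ≤ D.p.B0 := Nat.cast_nonneg _
  -- the positive part of the row
  set hp : V → ℝ := fun f => max (D.h P f) 0 with hhp
  have hp0 : ∀ f, 0 ≤ hp f := fun f => le_max_right _ _
  have hpB : ∀ f, |hp f| ≤ 2 / D.p.be := by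
    intro f
    rw [abs_of_nonneg (hp0 f)]
    exact max_le ((le_abs_self _).trans (abs_h_le hD P f)) (by positivity)
  have hcl_le : ∀ f, D.hcl P f ≤ hp f := by
    intro f
    unfold hcl
    split_ifs
    · exact le_max_left _ _
    · exact hp0 f
  -- decomposition
  set i1 : V → V → ℝ := fun Z f => if f ∈ D.ncs Z then (1 : ℝ) else 0 with hi1
  set y : V → ℝ := fun f => D.X.I (D.X.nb P) fun Z => i1 Z f * (1 - D.X.n Z f) with hy
  have hy0 : ∀ f, 0 ≤ y f := fun f => gd_I_nonneg hm _ fun Z _ => by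
    have := (ea_n D.X Z f).2
    refine mul_nonneg ?_ (by linarith)
    simp only [hi1]
    split_ifs <;> norm_num
  have hkap : ∀ f, D.kap P f = (D.X.I (D.X.nb P) fun Z => i1 Z f) - y f := by
    intro f
    rw [hy]
    simp only
    rw [← ea_I_sub]
    unfold kap
    refine ea_I_congr fun Z _ => ?_
    simp only [hi1]
    split_ifs <;> ring
  have h1 : -(D.X.I univ fun f => D.hcl P f * D.kap P f) =
      -(D.X.I (D.X.nb P) fun Z => D.X.I univ fun f => D.hcl P f * i1 Z f) +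
      D.X.I univ fun f => D.hcl P f * y f := by
    rw [I_comm]
    have : (D.X.I univ fun f => D.hcl P f * D.kap P f) =
        (D.X.I univ fun g => D.X.I (D.X.nb P) fun f => D.hcl P g * i1 f g) -
        D.X.I univ fun f => D.hcl P f * y f := by
      rw [← ea_I_sub]
      refine ea_I_congr fun f _ => ?_
      rw [hkap f, gd_I_smul]
      ring
    rw [this]
    ring
  have h2 : -(D.X.I (D.X.nb P) fun Z => D.X.I univ fun f => D.hcl P f * i1 Z f) ≤
      4 / D.p.be * (D.p.H * D.RR ^ 2 * D.p.del (D.s + 1)) := by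
    have k1 := ea_abs_I hm (D.X.nb P) fun Z => D.X.I univ fun f => D.hcl P f * i1 Z f
    have k2 : (D.X.I (D.X.nb P) fun Z => |D.X.I univ fun f => D.hcl P f * i1 Z f|) ≤
        D.X.I (D.X.nb P) fun _ => 4 / D.p.be * (D.RR ^ 2 * D.p.del (D.s + 1)) :=
      I_mono hm fun Z _ => ea_hcl_ncs hD P Z
    rw [gd_I_const] at k2
    have k3 : 4 / D.p.be * (D.RR ^ 2 * D.p.del (D.s + 1)) * D.X.ms (D.X.nb P) ≤
        4 / D.p.be * (D.RR ^ 2 * D.p.del (D.s + 1)) * D.p.H :=
      mul_le_mul_of_nonneg_left (ea_nb hD P) (by positivity)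
    have k4 := (abs_le.1 (k1.trans k2)).1
    have e : 4 / D.p.be * (D.p.H * D.RR ^ 2 * D.p.del (D.s + 1)) =
        4 / D.p.be * (D.RR ^ 2 * D.p.del (D.s + 1)) * D.p.H := by ring
    rw [e]
    linarith
  -- the second part
  have h3 : (D.X.I univ fun f => D.hcl P f * y f) ≤ D.X.I univ fun f => hp f * y f :=
    I_mono hm fun f _ => mul_le_mul_of_nonneg_right (hcl_le f) (hy0 f)
  set A : V → V → ℝ := fun Z f => ∑ c ∈ D.CC, if f ∈ D.dom c Z ∧ 1 - D.p.be < D.th D.s c Z f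
    then |D.th (D.s + 3) c Z f - D.th D.s c Z f| else 0 with hA
  set Bq : V → V → ℝ := fun Z f => ∑ c ∈ D.CC, if f ∈ D.dom c Z ∧ 1 - D.p.be < D.th D.s c Z f
    then (D.th (D.s + 3) c Z f - D.X.n Z f) else 0 with hBq
  set Cq : V → V → ℝ := fun Z f => ∑ c ∈ D.CC, (if f ∈ D.dm c Z ∧ 1 - D.p.be < D.th D.s c Z f
    then (1 : ℝ) else 0) * (D.th (D.s + 3) c Z f - D.X.n Z f) with hCq
  have hA0 : ∀ Z f, 0 ≤ A Z f := fun Z f => Finset.sum_nonneg fun c _ => by
    split_ifs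
    exacts [abs_nonneg _, le_rfl]
  have h4 : ∀ Z f, i1 Z f * (1 - D.X.n Z f) ≤ D.p.be + A Z f + (Bq Z f - Cq Z f) + Cq Z f := by
    intro Z f
    have e1 : i1 Z f * (1 - D.X.n Z f) = if f ∈ D.ncs Z then (1 - D.X.n Z f) else 0 := by
      simp only [hi1]
      split_ifs <;> ring
    have e2 : (∑ c ∈ D.CC, if f ∈ D.dom c Z ∧ 1 - D.p.be < D.th D.s c Z f
        then (1 - D.X.n Z f) else 0) ≤ (∑ c ∈ D.CC, if f ∈ D.dom c Z ∧
        1 - D.p.be < D.th D.s c Z f then D.p.be else 0) + A Z f + Bq Z f := by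
      rw [hA, hBq]
      simp only
      rw [← Finset.sum_add_distrib, ← Finset.sum_add_distrib]
      refine Finset.sum_le_sum fun c _ => ?_
      split_ifs with h
      · have := neg_abs_le (D.th (D.s + 3) c Z f - D.th D.s c Z f)
        linarith [h.2]
      · simp
    rw [← ea_ncs hD, ← ea_ncs hD] at e2
    rw [e1]
    have e3 : (if f ∈ D.ncs Z then D.p.be else 0) ≤ D.p.be := by
      split_ifs
      exacts [le_rfl, hb.le]
    linarith
  have h5 : (D.X.I univ fun f => hp f * y f) ≤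
      (D.X.I univ fun f => hp f * D.X.I (D.X.nb P) fun _ => D.p.be) +
      (D.X.I univ fun f => hp f * D.X.I (D.X.nb P) fun Z => A Z f) +
      (D.X.I univ fun f => hp f * D.X.I (D.X.nb P) fun Z => Bq Z f - Cq Z f) +
      D.X.I univ fun f => hp f * D.X.I (D.X.nb P) fun Z => Cq Z f := by
    rw [← ea_I_add, ← ea_I_add, ← ea_I_add]
    refine I_mono hm fun f _ => ?_
    rw [← mul_add, ← mul_add, ← mul_add]
    refine mul_le_mul_of_nonneg_left ?_ (hp0 f)
    rw [← ea_I_add, ← ea_I_add, ← ea_I_add]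
    exact I_mono hm fun Z _ => h4 Z f
  have h6 : (D.X.I univ fun f => hp f * D.X.I (D.X.nb P) fun _ => D.p.be) ≤
      D.p.be * D.p.B0 * D.p.H ^ 2 := by
    rw [gd_I_const]
    have e1 : (D.X.I univ fun f => hp f * (D.p.be * D.X.ms (D.X.nb P))) =
        (D.p.be * D.X.ms (D.X.nb P)) * D.X.I univ hp := by
      rw [← gd_I_smul]
      exact ea_I_congr fun f _ => by ring
    rw [e1]
    have e2 : D.X.I univ hp ≤ D.p.B0 * D.X.ms (D.X.nb P) := I_h_pos hD P
    have e3 := ea_nb hD P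
    have e4 : 0 ≤ D.X.ms (D.X.nb P) := Finset.sum_nonneg fun f _ => hm f
    have e5 : D.X.I univ hp ≤ D.p.B0 * D.p.H := e2.trans (mul_le_mul_of_nonneg_left e3 hB0)
    have e6 : 0 ≤ D.X.I univ hp := gd_I_nonneg hm _ fun f _ => hp0 f
    calc D.p.be * D.X.ms (D.X.nb P) * D.X.I univ hp ≤ D.p.be * D.p.H * (D.p.B0 * D.p.H) :=
          mul_le_mul (mul_le_mul_of_nonneg_left e3 hb.le) e5 e6 (by positivity)
      _ = _ := by ring
  have h7 : (D.X.I univ fun f => hp f * D.X.I (D.X.nb P) fun Z => A Z f) ≤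
      2 / D.p.be * (Real.sqrt (2 * D.p.B0 * D.p.H) *
        D.X.I (D.X.nb P) fun Z => Real.sqrt (D.inc Z)) := by
    have k1 : (D.X.I univ fun f => hp f * D.X.I (D.X.nb P) fun Z => A Z f) ≤
        D.X.I univ fun f => 2 / D.p.be * D.X.I (D.X.nb P) fun Z => A Z f := by
      refine I_mono hm fun f _ => mul_le_mul_of_nonneg_right ((le_abs_self _).trans (hpB f)) ?_
      exact gd_I_nonneg hm _ fun Z _ => hA0 Z f
    refine k1.trans ?_
    rw [gd_I_smul]
    refine mul_le_mul_of_nonneg_left ?_ (by positivity)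
    rw [I_comm, ← gd_I_smul]
    exact I_mono hm fun Z _ => ea_cs hD Z
  have h8 : (D.X.I univ fun f => hp f * D.X.I (D.X.nb P) fun Z => Bq Z f - Cq Z f) ≤
      2 / D.p.be * (1 * (D.p.H * (D.RR ^ 2 * D.p.del (D.s + 1)))) := by
    refine (le_abs_self _).trans (ea_diff hD P (by positivity) zero_le_one hpB
      (fun Z f => Bq Z f - Cq Z f) fun Z f => ?_)
    have k1 := ea_dom_dm D (fun c Z f => 1 - D.p.be < D.th D.s c Z f)
      (fun c Z f => D.th (D.s + 3) c Z f - D.X.n Z f) zero_le_one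
      (fun c _ Z f _ _ => ea_th_diff hD c Z f) Z f
    have k2 : Cq Z f = ∑ c ∈ D.CC, if f ∈ D.dm c Z ∧ 1 - D.p.be < D.th D.s c Z f
        then D.th (D.s + 3) c Z f - D.X.n Z f else 0 := by
      simp only [hCq]
      refine Finset.sum_congr rfl fun c _ => ?_
      split_ifs <;> ring
    simp only [k2]
    exact k1
  have h9 : (D.X.I univ fun f => hp f * D.X.I (D.X.nb P) fun Z => Cq Z f) ≤
      2 / D.p.be * (1 * D.e9 d) := by
    have k1 := ea_fam hD P hd (L := 1) zero_le_one (Ψ := 2 / D.p.be) (by positivity)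
      (fun c Z f => if f ∈ D.dm c Z ∧ 1 - D.p.be < D.th D.s c Z f then (1 : ℝ) else 0)
      (fun c _ Z f => by split_ifs <;> norm_num) (fun c _ Z f => by split_ifs <;> norm_num)
      (fun c _ Z f h => by
        split_ifs at h with h'
        · exact ea_dm h'.1
        · exact absurd rfl h)
      (fun c hc Z f hf g hg hfg => by
        obtain ⟨m1, m2, m3⟩ := ea_meas hD hc Z hf hg hfg
        simp only [m1, m2])
      (ψ := hp) hpB (A := univ.filter fun f => D.u P f ≠ 0 ∨ D.h P f ≠ 0)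
      (fun f hf => mem_filter.2 ⟨mem_univ _, Or.inr fun h0 => hf (by
        simp only [hhp, h0, max_self])⟩) (ms_supp hD P)
    have k2 : (D.X.I univ fun f => hp f * D.X.I (D.X.nb P) fun Z => Cq Z f) =
        ∑ c ∈ D.CC, D.X.I univ fun f => hp f * D.X.I (D.X.nb P) fun Z =>
          (if f ∈ D.dm c Z ∧ 1 - D.p.be < D.th D.s c Z f then (1 : ℝ) else 0) *
            (D.th (D.s + 3) c Z f - D.X.n Z f) := by
      rw [← gd_I_sum]
      refine ea_I_congr fun f _ => ?_
      rw [← Finset.mul_sum, ← gd_I_sum]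
    rw [k2]
    exact (Finset.sum_le_sum fun c _ => le_abs_self _).trans k1
  rw [h1]
  have e1 : 2 / D.p.be * (D.p.H * D.RR ^ 2 * D.p.del (D.s + 1) + D.e9 d) =
      2 / D.p.be * (1 * (D.p.H * (D.RR ^ 2 * D.p.del (D.s + 1)))) +
        2 / D.p.be * (1 * D.e9 d) := by ring
  rw [e1]
  linarith

end Ctx

end Pool.Agent.AcyS
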