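import Pool.Agent.AcyS.Cmp
import Pool.Agent.AcyS.Fact
import Pool.Agent.AcyS.FactB

/-! # (II), (III) and the defect part of (IV) (row S8, helper44) -/

set_option autoImplicit false
set_option linter.unusedSectionVars false

namespace Pool.Agent.AcyS

open Finset
open scoped Classical

universe u

variable {V : Type u} [Fintype V] {D : Ctx V}

namespace Ctx

/-! ## Elementary facts about integrals -/

theorem eb_I_add (X : Sys V) (A : Finset V) (g g' : V → ℝ) :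
    X.I A (fun f => g f + g' f) = X.I A g + X.I A g' := by
  unfold Sys.I
  rw [← sum_add_distrib]
  exact sum_congr rfl fun f _ => by ring

theorem eb_I_mul (X : Sys V) (A : Finset V) (a : ℝ) (g : V → ℝ) :
    X.I A (fun f => a * g f) = a * X.I A g := by
  unfold Sys.I
  rw [mul_sum]
  exact sum_congr rfl fun f _ => by ring

theorem eb_I_sum {ι : Type*} (X : Sys V) (A : Finset V) (s : Finset ι) (g : ι → V → ℝ) :
    X.I A (fun f => ∑ c ∈ s, g c f) = ∑ c ∈ s, X.I A (g c) := by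
  unfold Sys.I
  rw [sum_comm]
  exact sum_congr rfl fun f _ => by rw [mul_sum]

theorem eb_I_nonneg {X : Sys V} (hm : ∀ f, 0 ≤ X.m f) (A : Finset V) {g : V → ℝ}
    (hg : ∀ f, 0 ≤ g f) : 0 ≤ X.I A g := sum_nonneg fun f _ => mul_nonneg (hm f) (hg f)

theorem eb_I_mono {X : Sys V} (hm : ∀ f, 0 ≤ X.m f) {A : Finset V} {g g' : V → ℝ}
    (h : ∀ f ∈ A, g f ≤ g' f) : X.I A g ≤ X.I A g' :=
  sum_le_sum fun f hf => mul_le_mul_of_nonneg_left (h f hf) (hm f)

theorem eb_I_ite (X : Sys V) (A : Finset V) (g : V → ℝ) :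
    X.I univ (fun f => if f ∈ A then g f else 0) = X.I A g := by
  unfold Sys.I
  simp only [mul_ite, mul_zero]
  rw [sum_ite_mem_eq]

theorem eb_I_ind (X : Sys V) (A : Finset V) :
    X.I univ (fun f => if f ∈ A then 1 else 0) = X.ms A := by
  rw [eb_I_ite X A fun _ => (1 : ℝ)]
  unfold Sys.I Sys.ms
  exact sum_congr rfl fun f _ => mul_one _

theorem eb_I_mp (X : Sys V) (p : V → Prop) :
    X.I univ (fun f => if p f then 1 else 0) = X.mp p := by
  unfold Sys.mp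
  rw [← eb_I_ind]
  unfold Sys.I
  refine sum_congr rfl fun f _ => ?_
  beta_reduce
  simp only [mem_filter, mem_univ, true_and]

theorem eb_mem_nb {X : Sys V} {P f : V} : f ∈ X.nb P ↔ X.lk f P := by
  simp [Sys.nb]

theorem eb_n_nonneg (X : Sys V) (P f : V) : 0 ≤ X.n P f := by
  unfold Sys.n
  split_ifs <;> norm_num

theorem eb_n_le (X : Sys V) (P f : V) : X.n P f ≤ 1 := by
  unfold Sys.n
  split_ifs <;> norm_num

theorem eb_I_n (X : Sys V) (P : V) (g : V → ℝ) :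
    X.I univ (fun f => X.n P f * g f) = X.I (X.nb P) g := by
  rw [← eb_I_ite X (X.nb P) g]
  unfold Sys.I Sys.n
  refine sum_congr rfl fun f _ => ?_
  beta_reduce
  by_cases h : X.lk f P
  · rw [if_pos h, if_pos (eb_mem_nb.2 h), one_mul]
  · rw [if_neg h, if_neg fun h' => h (eb_mem_nb.1 h'), zero_mul]

theorem eb_ms_mono {X : Sys V} (hm : ∀ f, 0 ≤ X.m f) {A B : Finset V} (h : A ⊆ B) :
    X.ms A ≤ X.ms B := sum_le_sum_of_subset_of_nonneg h fun f _ _ => hm f

theorem eb_ms_nonneg {X : Sys V} (hm : ∀ f, 0 ≤ X.m f) (A : Finset V) : 0 ≤ X.ms A :=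
  sum_nonneg fun f _ => hm f

theorem eb_I_comm (X : Sys V) (A B : Finset V) (F : V → V → ℝ) :
    X.I A (fun f => X.I B fun g => F f g) = X.I B (fun g => X.I A fun f => F f g) := by
  unfold Sys.I
  simp only [mul_sum]
  rw [sum_comm]
  refine sum_congr rfl fun g _ => sum_congr rfl fun f _ => ?_
  ring

/-! ## Defect sites -/

theorem eb_dom_E {c Z f : V} (h : f ∈ D.dom c Z) : f ∈ D.E c :=
  (mem_filter.1 (mem_filter.1 h).1).1

/-- The mass of the defect sites. -/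
theorem eb_df (hD : D.Ok) (Z : V) :
    (D.X.I univ fun f => if ∃ c ∈ D.CC, f ∈ D.df c Z then (1 : ℝ) else 0) ≤
      4 / D.p.be ^ 2 * D.inc Z := by
  have hm := hD.X.m_nonneg
  have hb := hD.be0
  have h1 : ∀ f, (if ∃ c ∈ D.CC, f ∈ D.df c Z then (1 : ℝ) else 0) ≤
      ∑ c ∈ D.CC, (if f ∈ D.E c then
        4 / D.p.be ^ 2 * (D.th (D.s + 3) c Z f - D.th D.s c Z f) ^ 2 else 0) := by
    intro f
    have hnn : ∀ c ∈ D.CC, (0 : ℝ) ≤ (if f ∈ D.E c then
        4 / D.p.be ^ 2 * (D.th (D.s + 3) c Z f - D.th D.s c Z f) ^ 2 else 0) := by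
      intro c _
      split_ifs
      · positivity
      · exact le_rfl
    split_ifs with h
    · obtain ⟨c, hc, hf⟩ := h
      refine le_trans ?_ (single_le_sum hnn hc)
      obtain ⟨h2, h3, h4⟩ := mem_filter.1 hf
      rw [if_pos (eb_dom_E h2)]
      have h5 : D.p.be / 2 ≤ D.th (D.s + 3) c Z f - D.th D.s c Z f := by linarith
      have h6 : (D.p.be / 2) ^ 2 ≤ (D.th (D.s + 3) c Z f - D.th D.s c Z f) ^ 2 :=
        pow_le_pow_left₀ (by positivity) h5 2
      have h7 : 4 / D.p.be ^ 2 * (D.p.be / 2) ^ 2 = 1 := by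
        field_simp
        norm_num
      calc (1 : ℝ) = 4 / D.p.be ^ 2 * (D.p.be / 2) ^ 2 := h7.symm
        _ ≤ _ := mul_le_mul_of_nonneg_left h6 (by positivity)
    · exact sum_nonneg hnn
  refine (eb_I_mono hm fun f _ => h1 f).trans ?_
  rw [eb_I_sum]
  have h2 : ∀ c, D.X.I univ (fun f => if f ∈ D.E c then
        4 / D.p.be ^ 2 * (D.th (D.s + 3) c Z f - D.th D.s c Z f) ^ 2 else 0) =
      4 / D.p.be ^ 2 * D.X.I (D.E c) (fun f => (D.th (D.s + 3) c Z f - D.th D.s c Z f) ^ 2) := by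
    intro c
    rw [eb_I_ite, eb_I_mul]
  rw [sum_congr rfl fun c _ => h2 c, ← mul_sum]
  apply mul_le_mul_of_nonneg_left _ (by positivity)
  exact inc_part hD Z le_rfl (by omega) (by omega)

theorem eb_ups_nonneg (hD : D.Ok) (P f : V) : 0 ≤ D.ups P f := by
  unfold ups
  refine eb_I_nonneg hD.X.m_nonneg _ fun Z => ?_
  split_ifs
  · exact eb_n_nonneg _ _ _
  · exact le_rfl

/-- (II) -/
theorem est_II (hD : D.Ok) (P : V) :
    -(D.X.I univ fun f => D.u P f * D.ups P f) ≤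
      D.unc P + 4 / D.p.be ^ 2 * D.X.I (D.X.nb P) D.inc := by
  have hm := hD.X.m_nonneg
  have h1 : -(D.X.I univ fun f => D.u P f * D.ups P f) ≤
      D.X.I univ fun f => D.X.n P f * D.ups P f := by
    have h2 : -(D.X.I univ fun f => D.u P f * D.ups P f) =
        D.X.I univ fun f => (-1) * (D.u P f * D.ups P f) := by
      rw [eb_I_mul]
      ring
    rw [h2]
    refine eb_I_mono hm fun f _ => ?_
    have h3 : - D.X.n P f ≤ D.u P f := by
      have := h_ge hD P f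
      have := b_nonneg hD P f
      unfold u
      linarith
    have h4 := mul_le_mul_of_nonneg_right h3 (eb_ups_nonneg hD P f)
    linarith
  refine h1.trans ?_
  rw [eb_I_n]
  have h2 : ∀ f, D.ups P f ≤ D.X.ms ((D.X.nb P).filter fun Z => D.X.lk f Z ∧ ¬ D.covd f Z) +
      D.X.I (D.X.nb P) (fun Z => if ∃ c ∈ D.CC, f ∈ D.df c Z then (1 : ℝ) else 0) := by
    intro f
    have h3 : D.X.ms ((D.X.nb P).filter fun Z => D.X.lk f Z ∧ ¬ D.covd f Z) =
        D.X.I (D.X.nb P) (fun Z => if D.X.lk f Z ∧ ¬ D.covd f Z then (1 : ℝ) else 0) := by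
      unfold Sys.ms Sys.I
      rw [sum_filter]
      refine sum_congr rfl fun Z _ => ?_
      beta_reduce
      split_ifs
      · rw [mul_one]
      · rw [mul_zero]
    rw [h3, ← eb_I_add]
    unfold ups
    refine eb_I_mono hm fun Z _ => ?_
    have e1 : (0 : ℝ) ≤ if D.X.lk f Z ∧ ¬ D.covd f Z then (1 : ℝ) else 0 := by
      split_ifs <;> norm_num
    have e2 : (0 : ℝ) ≤ if ∃ c ∈ D.CC, f ∈ D.df c Z then (1 : ℝ) else 0 := by
      split_ifs <;> norm_num
    by_cases h4 : ¬ D.covd f Z ∨ ∃ c ∈ D.CC, f ∈ D.df c Z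
    · rw [if_pos h4]
      rcases h4 with h4 | h4
      · by_cases h5 : D.X.lk f Z
        · rw [if_pos (c := D.X.lk f Z ∧ ¬ D.covd f Z) ⟨h5, h4⟩]
          have := eb_n_le D.X Z f
          linarith
        · have h6 : D.X.n Z f = 0 := by
            unfold Sys.n
            rw [if_neg h5]
          rw [h6]
          linarith
      · rw [if_pos (c := ∃ c ∈ D.CC, f ∈ D.df c Z) h4]
        have := eb_n_le D.X Z f
        linarith
    · rw [if_neg h4]
      linarith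
  refine (eb_I_mono hm fun f _ => h2 f).trans ?_
  rw [eb_I_add]
  refine add_le_add le_rfl ?_
  rw [eb_I_comm, ← eb_I_mul]
  refine eb_I_mono hm fun Z _ => ?_
  refine le_trans ?_ (eb_df hD Z)
  unfold Sys.I
  refine sum_le_sum_of_subset_of_nonneg (subset_univ _) fun f _ _ => mul_nonneg (hm f) ?_
  beta_reduce
  split_ifs <;> norm_num

/-! ## Own boosts -/

/-- The part of the own boost that belongs to the world `c`. -/
noncomputable def eb_bc (D : Ctx V) (P c f : V) : ℝ :=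
  if D.act c f ∧ P ∈ D.oc c f then
    D.κ (D.oc c f) f P * D.X.mp (fun Z => f ∈ D.oZ c (D.oc c f) Z ∧ P ∈ D.oZ c (D.oc c f) Z)
  else 0

/-- The boost that `f` receives from the transport for `Z`, integrated over `nb P`. -/
noncomputable def eb_F (D : Ctx V) (P f Z : V) : ℝ := ∑ c ∈ D.CC,
  if D.act c f ∧ f ∈ D.oZ c (D.oc c f) Z then
    D.X.I (D.oZ c (D.oc c f) Z ∩ D.X.nb P) (fun Q => D.κ (D.oc c f) f Q) else 0

theorem eb_b_eq (P f : V) : D.b P f = ∑ c ∈ D.CC, D.eb_bc P c f := rfl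

theorem eb_vv_eq (hD : D.Ok) (P f : V) : D.vv P f = D.X.I univ (D.eb_F P f) := by
  rw [vv_eq hD]
  unfold eb_F
  rw [eb_I_sum]
  refine sum_congr rfl fun c _ => ?_
  unfold vo
  by_cases h : D.act c f
  · rw [if_pos h]
    unfold Sys.I
    refine sum_congr rfl fun Z _ => ?_
    beta_reduce
    by_cases h' : f ∈ D.oZ c (D.oc c f) Z
    · rw [if_pos h', if_pos ⟨h, h'⟩]
    · rw [if_neg h', if_neg fun h'' => h' h''.2]
  · rw [if_neg h]
    unfold Sys.I
    symm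
    refine sum_eq_zero fun Z _ => ?_
    beta_reduce
    rw [if_neg fun h'' => h h''.1, mul_zero]

theorem eb_oZ_nb {c Z : V} {o : Finset V} : D.oZ c o Z ⊆ D.X.nb Z := by
  intro f hf
  exact eb_mem_nb.2 (mem_filter.1 hf).2.2.2.1

theorem eb_F_eq (hD : D.Ok) {P f Z c : V} (hc : c ∈ D.CC) (ha : D.act c f)
    (hf : f ∈ D.oZ c (D.oc c f) Z) : D.eb_F P f Z =
      D.X.I (D.oZ c (D.oc c f) Z ∩ D.X.nb P) (fun Q => D.κ (D.oc c f) f Q) := by
  unfold eb_F
  rw [sum_eq_single_of_mem c hc, if_pos ⟨ha, hf⟩]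
  intro c' _ hne
  rw [if_neg]
  rintro ⟨_, h2⟩
  exact hne (dom_unique hD (mem_filter.1 h2).2.2.2.2.1 (mem_filter.1 hf).2.2.2.2.1)

theorem eb_F_zero {P f Z : V} (h : ¬ ∃ c ∈ D.CC, D.act c f ∧ f ∈ D.oZ c (D.oc c f) Z) :
    D.eb_F P f Z = 0 := by
  unfold eb_F
  refine sum_eq_zero fun c hc => ?_
  rw [if_neg fun h' => h ⟨c, hc, h'⟩]

theorem eb_F_nonneg (hD : D.Ok) (P f Z : V) : 0 ≤ D.eb_F P f Z := by
  unfold eb_F
  refine sum_nonneg fun c hc => ?_
  split_ifs with h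
  · exact eb_I_nonneg hD.X.m_nonneg _ fun Q => (hD.ker c hc f h.1).nonneg f Q
  · exact le_rfl

theorem eb_F_le_one (hD : D.Ok) (P f Z : V) : D.eb_F P f Z ≤ 1 := by
  by_cases h : ∃ c ∈ D.CC, D.act c f ∧ f ∈ D.oZ c (D.oc c f) Z
  · obtain ⟨c, hc, ha, hf⟩ := h
    rw [eb_F_eq hD hc ha hf]
    have hk := hD.ker c hc f ha
    refine le_trans ?_ (hk.row f)
    exact sum_le_sum_of_subset_of_nonneg (subset_univ _) fun Q _ _ =>
      mul_nonneg (hD.X.m_nonneg Q) (hk.nonneg f Q)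
  · rw [eb_F_zero h]
    exact zero_le_one

theorem eb_F_le_T (hD : D.Ok) (P f Z : V) :
    D.eb_F P f Z ≤ D.p.T (D.s + 1) * D.X.ms (D.X.nb Z ∩ D.X.nb P) := by
  have hT : 0 ≤ D.p.T (D.s + 1) := zero_le_one.trans (hD.T1 _)
  by_cases h : ∃ c ∈ D.CC, D.act c f ∧ f ∈ D.oZ c (D.oc c f) Z
  · obtain ⟨c, hc, ha, hf⟩ := h
    rw [eb_F_eq hD hc ha hf]
    have hk := hD.ker c hc f ha
    have h1 : D.X.I (D.oZ c (D.oc c f) Z ∩ D.X.nb P) (fun Q => D.κ (D.oc c f) f Q) ≤
        D.p.T (D.s + 1) * D.X.ms (D.oZ c (D.oc c f) Z ∩ D.X.nb P) := by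
      unfold Sys.I Sys.ms
      rw [mul_sum]
      refine sum_le_sum fun Q _ => ?_
      rw [mul_comm]
      exact mul_le_mul_of_nonneg_right (hk.le f Q) (hD.X.m_nonneg Q)
    refine h1.trans (mul_le_mul_of_nonneg_left ?_ hT)
    exact eb_ms_mono hD.X.m_nonneg (inter_subset_inter_right eb_oZ_nb)
  · rw [eb_F_zero h]
    exact mul_nonneg hT (eb_ms_nonneg hD.X.m_nonneg _)

/-- The event of `bad4`. -/
def eb_p4 (D : Ctx V) (c f Z : V) : Prop := c ∈ D.R Z ∧ ∃ c' ∈ D.R Z,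
  D.ov c c' < D.p.del D.s ∧ f ∈ D.E c'

/-- The event of `bad1`. -/
def eb_p1 (D : Ctx V) (c f Z : V) : Prop := c ∈ D.R Z ∧ ∃ c' ∈ D.R Z,
  D.p.del D.s ≤ D.ov c c' ∧ f ∈ D.E c' ∧ 1 - 2 * D.p.be < D.th (D.s + 3) c' Z f ∧
    D.th D.s c Z f ≤ 1 - 3 * D.p.be

/-- The event of `bad2`. -/
def eb_p2 (D : Ctx V) (c f Z : V) : Prop := c ∈ D.R Z ∧
  1 - 3 * D.p.be < D.th D.s c Z f ∧ ¬ D.X.lk f Z

/-- The event of `bad3`. -/
def eb_p3 (D : Ctx V) (c f Z : V) : Prop := D.X.lk f Z ∧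
  D.p.tau (D.s + 2) ≤ D.X.ms (D.E c ∩ D.X.nb Z) ∧ D.X.ms (D.E c ∩ D.X.nb Z) < D.p.tau D.s

/-- The remaining event. -/
def eb_p5 (D : Ctx V) (c f Z : V) : Prop :=
  D.X.ms (D.E c ∩ D.X.nb Z) < D.p.tau (D.s + 2) ∧ D.X.lk f Z

theorem eb_one_nonneg (p : Prop) : (0 : ℝ) ≤ if p then 1 else 0 := by
  split_ifs <;> norm_num

/-- Densities of level `s` are constant on the own cells. -/
theorem eb_th_oc (hD : D.Ok) {c f P : V} (hc : c ∈ D.CC) (hf : f ∈ D.E c)
    (hP : P ∈ D.oc c f) (Z : V) : D.th D.s c Z P = D.th D.s c Z f := by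
  obtain ⟨hPE, hPf⟩ := mem_filter.1 hP
  have h1 := hD.lev.ref D.s (by have := hD.s_lt; omega) c hc P hPE f hf hPf
  have h2 : Sys.cell (D.E c) (D.φ D.s c) P = Sys.cell (D.E c) (D.φ D.s c) f := by
    unfold Sys.cell
    rw [h1]
  unfold th Sys.avg
  rw [h2]

theorem eb_F_bound (hD : D.Ok) {P c f Z : V} (hc : c ∈ D.CC) (ha : D.act c f)
    (hP : P ∈ D.oc c f) (hl : ¬ D.X.lk Z P) :
    D.eb_F P f Z ≤ (if D.eb_p4 c f Z then 1 else 0) + (if D.eb_p1 c f Z then 1 else 0) +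
      (if D.eb_p2 c P Z then 1 else 0) + (if D.eb_p3 c f Z then 1 else 0) +
      (if D.eb_p5 c f Z then D.p.T (D.s + 1) * D.X.ms (D.X.nb Z ∩ D.X.nb P) else 0) := by
  have hT : 0 ≤ D.p.T (D.s + 1) := zero_le_one.trans (hD.T1 _)
  have h5 : 0 ≤ (if D.eb_p5 c f Z then D.p.T (D.s + 1) * D.X.ms (D.X.nb Z ∩ D.X.nb P) else 0) := by
    split_ifs
    · exact mul_nonneg hT (eb_ms_nonneg hD.X.m_nonneg _)
    · exact le_rfl
  have h1 := eb_one_nonneg (D.eb_p1 c f Z)
  have h2 := eb_one_nonneg (D.eb_p2 c P Z)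
  have h3 := eb_one_nonneg (D.eb_p3 c f Z)
  have h4 := eb_one_nonneg (D.eb_p4 c f Z)
  have hone := eb_F_le_one hD P f Z
  by_cases h : ∃ c' ∈ D.CC, D.act c' f ∧ f ∈ D.oZ c' (D.oc c' f) Z
  · obtain ⟨c', hc', ha', hf'⟩ := h
    obtain ⟨hfo, hAct, hg, hlk, hdom, hth⟩ := mem_filter.1 hf'
    by_cases hR : c ∈ D.R Z
    · by_cases hov : D.ov c c' < D.p.del D.s
      · have e : D.eb_p4 c f Z := ⟨hR, c', hAct.1, hov, ha'.1⟩
        rw [if_pos e]
        linarith
      · by_cases hth2 : D.th D.s c Z f ≤ 1 - 3 * D.p.be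
        · have e : D.eb_p1 c f Z := ⟨hR, c', hAct.1, not_lt.1 hov, ha'.1, hth, hth2⟩
          rw [if_pos e]
          linarith
        · have e : D.eb_p2 c P Z := by
            refine ⟨hR, ?_, fun h' => hl (hD.X.symm _ _ h')⟩
            rw [eb_th_oc hD hc ha.1 hP]
            exact not_le.1 hth2
          rw [if_pos e]
          linarith
    · have hms : D.X.ms (D.E c ∩ D.X.nb Z) < D.p.tau D.s := by
        by_contra h'
        exact hR (mem_filter.2 ⟨hc, not_lt.1 h'⟩)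
      by_cases hms2 : D.p.tau (D.s + 2) ≤ D.X.ms (D.E c ∩ D.X.nb Z)
      · have e : D.eb_p3 c f Z := ⟨hlk, hms2, hms⟩
        rw [if_pos e]
        linarith
      · have e : D.eb_p5 c f Z := ⟨not_le.1 hms2, hlk⟩
        rw [if_pos e]
        have := eb_F_le_T hD P f Z
        linarith
  · rw [eb_F_zero h]
    linarith

/-- The integral over the sites that are not linked to `P`. -/
theorem eb_I_F (hD : D.Ok) {P c f : V} (hc : c ∈ D.CC) (ha : D.act c f) (hP : P ∈ D.oc c f)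
    (hfg : f ∈ D.g c) (hPg : P ∈ D.g c) :
    D.X.I univ (fun Z => if D.X.lk Z P then 0 else D.eb_F P f Z) ≤ 4 * D.p.ep +
      D.X.I univ (fun Z => if D.eb_p5 c f Z then
        D.p.T (D.s + 1) * D.X.ms (D.X.nb Z ∩ D.X.nb P) else 0) := by
  have hm := hD.X.m_nonneg
  have hT : 0 ≤ D.p.T (D.s + 1) := zero_le_one.trans (hD.T1 _)
  have h0 : D.X.I univ (fun Z => if D.X.lk Z P then 0 else D.eb_F P f Z) ≤
      D.X.I univ (fun Z => (if D.eb_p4 c f Z then 1 else 0) + (if D.eb_p1 c f Z then 1 else 0) +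
      (if D.eb_p2 c P Z then 1 else 0) + (if D.eb_p3 c f Z then 1 else 0) +
      (if D.eb_p5 c f Z then D.p.T (D.s + 1) * D.X.ms (D.X.nb Z ∩ D.X.nb P) else 0)) := by
    refine eb_I_mono hm fun Z _ => ?_
    by_cases hl : D.X.lk Z P
    · rw [if_pos hl]
      have h5 : 0 ≤ (if D.eb_p5 c f Z then
          D.p.T (D.s + 1) * D.X.ms (D.X.nb Z ∩ D.X.nb P) else 0) := by
        split_ifs
        · exact mul_nonneg hT (eb_ms_nonneg hm _)
        · exact le_rfl
      have h1 := eb_one_nonneg (D.eb_p1 c f Z)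
      have h2 := eb_one_nonneg (D.eb_p2 c P Z)
      have h3 := eb_one_nonneg (D.eb_p3 c f Z)
      have h4 := eb_one_nonneg (D.eb_p4 c f Z)
      linarith
    · rw [if_neg hl]
      exact eb_F_bound hD hc ha hP hl
  refine h0.trans ?_
  rw [eb_I_add, eb_I_add, eb_I_add, eb_I_add, eb_I_mp D.X (D.eb_p4 c f),
    eb_I_mp D.X (D.eb_p1 c f), eb_I_mp D.X (D.eb_p2 c P), eb_I_mp D.X (D.eb_p3 c f)]
  obtain ⟨_, g1, _, g3, g4, _⟩ := mem_filter.1 hfg
  obtain ⟨_, _, g2, _, _, _⟩ := mem_filter.1 hPg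
  have e1 : D.X.mp (D.eb_p1 c f) ≤ D.p.ep := g1
  have e2 : D.X.mp (D.eb_p2 c P) ≤ D.p.ep := g2
  have e3 : D.X.mp (D.eb_p3 c f) ≤ D.p.ep := g3
  have e4 : D.X.mp (D.eb_p4 c f) ≤ D.p.ep := g4
  linarith

theorem eb_mp_nonneg (hD : D.Ok) (p : V → Prop) : 0 ≤ D.X.mp p := eb_ms_nonneg hD.X.m_nonneg _

theorem eb_mp_le {X : Sys V} (hm : ∀ f, 0 ≤ X.m f) (p : V → Prop) {A : Finset V}
    (h : ∀ Z, p Z → Z ∈ A) : X.mp p ≤ X.ms A :=
  eb_ms_mono hm fun Z hZ => h Z (mem_filter.1 hZ).2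

theorem eb_mp_ne {X : Sys V} (p : V → Prop) (h : X.mp p ≠ 0) : ∃ Z, p Z := by
  obtain ⟨Z, hZ, _⟩ := exists_ne_zero_of_sum_ne_zero h
  exact ⟨Z, (mem_filter.1 hZ).2⟩

theorem eb_bc_nonneg (hD : D.Ok) {P c f : V} (hc : c ∈ D.CC) : 0 ≤ D.eb_bc P c f := by
  unfold eb_bc
  split_ifs with h
  · exact mul_nonneg ((hD.ker c hc f h.1).nonneg f P) (eb_mp_nonneg hD _)
  · exact le_rfl

theorem eb_bc_le (hD : D.Ok) {P c f : V} (hc : c ∈ D.CC) :
    D.eb_bc P c f ≤ if f ∈ D.E c then D.p.T (D.s + 1) * D.p.H else 0 := by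
  have hT : 0 ≤ D.p.T (D.s + 1) := zero_le_one.trans (hD.T1 _)
  have hH : 0 ≤ D.p.H := zero_le_one.trans hD.X.one_le
  unfold eb_bc
  by_cases h : D.act c f ∧ P ∈ D.oc c f
  · rw [if_pos h, if_pos h.1.1]
    refine mul_le_mul ((hD.ker c hc f h.1).le f P) ?_ (eb_mp_nonneg hD _) hT
    refine le_trans ?_ (hD.X.deg f)
    refine eb_mp_le hD.X.m_nonneg _ fun Z hZ => ?_
    exact eb_mem_nb.2 (hD.X.symm _ _ (eb_mem_nb.1 (eb_oZ_nb hZ.1)))
  · rw [if_neg h]
    split_ifs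
    · exact mul_nonneg hT hH
    · exact le_rfl

/-- What a nonzero boost tells. -/
theorem eb_bc_ne {P c f : V} (h : D.eb_bc P c f ≠ 0) :
    D.act c f ∧ P ∈ D.oc c f ∧ f ∈ D.g c ∧ P ∈ D.g c := by
  unfold eb_bc at h
  by_cases h1 : D.act c f ∧ P ∈ D.oc c f
  · refine ⟨h1.1, h1.2, ?_⟩
    rw [if_pos h1] at h
    have h2 : D.X.mp (fun Z => f ∈ D.oZ c (D.oc c f) Z ∧ P ∈ D.oZ c (D.oc c f) Z) ≠ 0 :=
      right_ne_zero_of_mul h
    obtain ⟨Z, h3, h4⟩ := eb_mp_ne _ h2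
    exact ⟨(mem_filter.1 h3).2.2.1, (mem_filter.1 h4).2.2.1⟩
  · rw [if_neg h1] at h
    exact absurd rfl h

/-- Double counting: `∫ |nb Z ∩ nb P|`. -/
theorem eb_I_inter (hD : D.Ok) (P : V) :
    D.X.I univ (fun Z => D.X.ms (D.X.nb Z ∩ D.X.nb P)) ≤ D.p.H ^ 2 := by
  have hm := hD.X.m_nonneg
  have hH : 0 ≤ D.p.H := zero_le_one.trans hD.X.one_le
  have h1 : ∀ Z, D.X.ms (D.X.nb Z ∩ D.X.nb P) =
      D.X.I (D.X.nb P) (fun Q => D.X.n Z Q) := by
    intro Z
    unfold Sys.ms Sys.I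
    rw [inter_comm, ← filter_mem_eq_inter, sum_filter]
    refine sum_congr rfl fun Q _ => ?_
    beta_reduce
    unfold Sys.n
    by_cases h : D.X.lk Q Z
    · rw [if_pos (eb_mem_nb.2 h), if_pos h, mul_one]
    · rw [if_neg fun h' => h (eb_mem_nb.1 h'), if_neg h, mul_zero]
  rw [show (fun Z => D.X.ms (D.X.nb Z ∩ D.X.nb P)) =
    fun Z => D.X.I (D.X.nb P) (fun Q => D.X.n Z Q) from funext h1, eb_I_comm]
  have h2 : ∀ Q, D.X.I univ (fun Z => D.X.n Z Q) ≤ D.p.H := by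
    intro Q
    refine le_trans (le_of_eq ?_) (hD.X.deg Q)
    rw [← eb_I_ind]
    unfold Sys.I Sys.n
    refine sum_congr rfl fun Z _ => ?_
    beta_reduce
    by_cases h : D.X.lk Q Z
    · rw [if_pos h, if_pos (eb_mem_nb.2 (hD.X.symm _ _ h))]
    · rw [if_neg h, if_neg fun h' => h (hD.X.symm _ _ (eb_mem_nb.1 h'))]
  refine (eb_I_mono hm fun Q _ => h2 Q).trans ?_
  have h3 : D.X.I (D.X.nb P) (fun _ => D.p.H) = D.p.H * D.X.ms (D.X.nb P) := by
    unfold Sys.I Sys.ms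
    rw [mul_sum]
    exact sum_congr rfl fun Q _ => mul_comm _ _
  rw [h3, pow_two]
  exact mul_le_mul_of_nonneg_left (hD.X.deg P) hH

/-- The remaining term of one world. -/
theorem eb_rest (hD : D.Ok) {P c : V} (hc : c ∈ D.CC) :
    D.X.I univ (fun f => D.eb_bc P c f * D.X.I univ (fun Z => if D.eb_p5 c f Z then
      D.p.T (D.s + 1) * D.X.ms (D.X.nb Z ∩ D.X.nb P) else 0)) ≤
    if P ∈ D.E c then D.p.T (D.s + 1) ^ 2 * D.p.H ^ 3 * D.p.tau (D.s + 2) else 0 := by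
  have hm := hD.X.m_nonneg
  have hT : 0 ≤ D.p.T (D.s + 1) := zero_le_one.trans (hD.T1 _)
  have hH : 0 ≤ D.p.H := zero_le_one.trans hD.X.one_le
  have htau := (hD.tau0 (D.s + 2)).le
  by_cases hP : P ∈ D.E c
  · rw [if_pos hP]
    have hQ : ∀ f, 0 ≤ D.X.I univ (fun Z => if D.eb_p5 c f Z then
        D.p.T (D.s + 1) * D.X.ms (D.X.nb Z ∩ D.X.nb P) else 0) := by
      intro f
      refine eb_I_nonneg hm _ fun Z => ?_
      split_ifs
      · exact mul_nonneg hT (eb_ms_nonneg hm _)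
      · exact le_rfl
    have h1 : D.X.I univ (fun f => D.eb_bc P c f * D.X.I univ (fun Z => if D.eb_p5 c f Z then
        D.p.T (D.s + 1) * D.X.ms (D.X.nb Z ∩ D.X.nb P) else 0)) ≤
        D.X.I (D.E c) (fun f => (D.p.T (D.s + 1) * D.p.H) * D.X.I univ (fun Z =>
          if D.eb_p5 c f Z then D.p.T (D.s + 1) * D.X.ms (D.X.nb Z ∩ D.X.nb P) else 0)) := by
      refine le_trans ?_ (le_of_eq (eb_I_ite D.X (D.E c) _))
      refine eb_I_mono hm fun f _ => ?_
      have h2 := mul_le_mul_of_nonneg_right (eb_bc_le hD (P := P) (f := f) hc) (hQ f)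
      refine h2.trans (le_of_eq ?_)
      by_cases hf : f ∈ D.E c
      · rw [if_pos hf, if_pos hf]
      · rw [if_neg hf, if_neg hf, zero_mul]
    refine h1.trans ?_
    rw [eb_I_mul, eb_I_comm]
    have h2 : D.X.I univ (fun Z => D.X.I (D.E c) (fun f => if D.eb_p5 c f Z then
        D.p.T (D.s + 1) * D.X.ms (D.X.nb Z ∩ D.X.nb P) else 0)) ≤
        D.X.I univ (fun Z => (D.p.T (D.s + 1) * D.p.tau (D.s + 2)) *
          D.X.ms (D.X.nb Z ∩ D.X.nb P)) := by
      refine eb_I_mono hm fun Z _ => ?_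
      have hK : 0 ≤ D.p.T (D.s + 1) * D.X.ms (D.X.nb Z ∩ D.X.nb P) :=
        mul_nonneg hT (eb_ms_nonneg hm _)
      by_cases h3 : D.X.ms (D.E c ∩ D.X.nb Z) < D.p.tau (D.s + 2)
      · have h4 : D.X.I (D.E c) (fun f => if D.eb_p5 c f Z then
            D.p.T (D.s + 1) * D.X.ms (D.X.nb Z ∩ D.X.nb P) else 0) =
            (D.p.T (D.s + 1) * D.X.ms (D.X.nb Z ∩ D.X.nb P)) * D.X.ms (D.E c ∩ D.X.nb Z) := by
          unfold Sys.I
          rw [show D.X.ms (D.E c ∩ D.X.nb Z) = ∑ f ∈ D.E c ∩ D.X.nb Z, D.X.m f from rfl,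
            ← filter_mem_eq_inter (s := D.E c) (t := D.X.nb Z), mul_sum, sum_filter]
          refine sum_congr rfl fun f _ => ?_
          beta_reduce
          by_cases h5 : D.X.lk f Z
          · rw [if_pos (show D.eb_p5 c f Z from ⟨h3, h5⟩), if_pos (eb_mem_nb.2 h5), mul_comm]
          · rw [if_neg fun h' : D.eb_p5 c f Z => h5 h'.2, if_neg fun h' => h5 (eb_mem_nb.1 h'),
              mul_zero]
        rw [h4]
        have h5 := mul_le_mul_of_nonneg_left h3.le hK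
        linarith
      · have h4 : D.X.I (D.E c) (fun f => if D.eb_p5 c f Z then
            D.p.T (D.s + 1) * D.X.ms (D.X.nb Z ∩ D.X.nb P) else 0) = 0 := by
          unfold Sys.I
          refine sum_eq_zero fun f _ => ?_
          beta_reduce
          rw [if_neg fun h' : D.eb_p5 c f Z => h3 h'.1, mul_zero]
        rw [h4]
        have h5 := mul_nonneg hK htau
        linarith
    have h3 := mul_le_mul_of_nonneg_left h2 (mul_nonneg hT hH)
    refine h3.trans ?_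
    rw [eb_I_mul]
    have h4 := mul_le_mul_of_nonneg_left (eb_I_inter hD P)
      (mul_nonneg (mul_nonneg hT hH) (mul_nonneg hT htau))
    linarith
  · rw [if_neg hP]
    refine le_of_eq ?_
    unfold Sys.I
    refine sum_eq_zero fun f _ => ?_
    beta_reduce
    have h1 : D.eb_bc P c f = 0 := by
      by_contra h'
      exact hP (mem_filter.1 (eb_bc_ne h').2.1).1
    rw [h1, zero_mul, mul_zero]

/-- (III) -/
theorem est_III (hD : D.Ok) (P : V) :
    (D.X.I univ fun f => D.b P f * (D.vv P f - D.kap P f)) ≤ 4 * D.p.ep * D.p.H +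
      D.p.T (D.s + 1) ^ 2 * D.p.B0 * D.p.H ^ 3 * D.p.tau (D.s + 2) := by
  have hm := hD.X.m_nonneg
  have hT : 0 ≤ D.p.T (D.s + 1) := zero_le_one.trans (hD.T1 _)
  have hH : 0 ≤ D.p.H := zero_le_one.trans hD.X.one_le
  have htau := (hD.tau0 (D.s + 2)).le
  have h1 : ∀ f, D.vv P f - D.kap P f ≤
      D.X.I univ (fun Z => if D.X.lk Z P then 0 else D.eb_F P f Z) := by
    intro f
    have e1 : D.kap P f = D.X.I univ (fun Z => if Z ∈ D.X.nb P then
        (if f ∈ D.ncs Z then D.X.n Z f else 0) else 0) := by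
      rw [eb_I_ite]
      rfl
    rw [eb_vv_eq hD, e1]
    suffices hs : D.X.I univ (D.eb_F P f) ≤
        D.X.I univ (fun Z => (if D.X.lk Z P then 0 else D.eb_F P f Z) +
          (if Z ∈ D.X.nb P then (if f ∈ D.ncs Z then D.X.n Z f else 0) else 0)) by
      rw [eb_I_add] at hs
      linarith
    refine eb_I_mono hm fun Z _ => ?_
    by_cases hl : D.X.lk Z P
    · rw [if_pos hl, if_pos (eb_mem_nb.2 hl), zero_add]
      by_cases h : ∃ c' ∈ D.CC, D.act c' f ∧ f ∈ D.oZ c' (D.oc c' f) Z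
      · obtain ⟨c', hc', ha', hf'⟩ := h
        obtain ⟨hfo, hAct, hg, hlk, hdom, hth⟩ := mem_filter.1 hf'
        have hfn : f ∈ D.ncs Z :=
          mem_filter.2 ⟨mem_univ _, c', hc', mem_filter.2 ⟨hdom, hAct.2.1 f hfo⟩⟩
        rw [if_pos hfn]
        have h2 : D.X.n Z f = 1 := by
          unfold Sys.n
          rw [if_pos hlk]
        rw [h2]
        exact eb_F_le_one hD P f Z
      · rw [eb_F_zero h]
        split_ifs
        · exact eb_n_nonneg _ _ _
        · exact le_rfl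
    · rw [if_neg hl, if_neg fun h' => hl (eb_mem_nb.1 h'), add_zero]
  have h2 : ∀ f, D.b P f * (D.vv P f - D.kap P f) ≤ 4 * D.p.ep * D.b P f +
      ∑ c ∈ D.CC, D.eb_bc P c f * D.X.I univ (fun Z => if D.eb_p5 c f Z then
        D.p.T (D.s + 1) * D.X.ms (D.X.nb Z ∩ D.X.nb P) else 0) := by
    intro f
    refine (mul_le_mul_of_nonneg_left (h1 f) (b_nonneg hD P f)).trans ?_
    rw [eb_b_eq, sum_mul, mul_sum, ← sum_add_distrib]
    refine sum_le_sum fun c hc => ?_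
    by_cases hb : D.eb_bc P c f = 0
    · rw [hb]
      simp
    · obtain ⟨g1, g2, g3, g4⟩ := eb_bc_ne hb
      have h3 := mul_le_mul_of_nonneg_left (eb_I_F hD hc g1 g2 g3 g4)
        (eb_bc_nonneg hD (P := P) (f := f) hc)
      linarith
  refine (eb_I_mono hm fun f _ => h2 f).trans ?_
  rw [eb_I_add, eb_I_mul, eb_I_sum]
  refine add_le_add ?_ ?_
  · refine mul_le_mul_of_nonneg_left ?_ (by have := hD.ep0; positivity)
    exact (I_b hD P).trans (hD.X.deg P)
  · refine (sum_le_sum fun c hc => eb_rest hD (P := P) hc).trans ?_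
    rw [← sum_filter, sum_const, nsmul_eq_mul]
    have h3 : ((D.CC.filter fun c => P ∈ D.E c).card : ℝ) ≤ D.p.B0 := by
      exact_mod_cast card_E hD P
    have h4 : 0 ≤ D.p.T (D.s + 1) ^ 2 * D.p.H ^ 3 * D.p.tau (D.s + 2) := by positivity
    have h5 := mul_le_mul_of_nonneg_right h3 h4
    linarith

/-- (IV), defect and uncovered sites -/
theorem est_IV0 (hD : D.Ok) (P : V) :
    -(D.X.I univ fun f => D.h P f * D.kap P f) ≤
      -(D.X.I univ fun f => D.hcl P f * D.kap P f) +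
      (D.X.I (D.ncs P) fun f => D.X.n P f * D.kap P f) +
      4 * D.p.H / D.p.be ^ 2 * D.inc P + D.unc' P := by
  have hm := hD.X.m_nonneg
  have hH : 0 ≤ D.p.H := zero_le_one.trans hD.X.one_le
  have hk0 : ∀ f, 0 ≤ D.kap P f := by
    intro f
    unfold kap
    refine eb_I_nonneg hm _ fun Z => ?_
    split_ifs
    · exact eb_n_nonneg _ _ _
    · exact le_rfl
  have hk1 : ∀ f, D.kap P f ≤ D.p.H := fun f =>
    (kap_le hD P f).trans ((eb_ms_mono hm inter_subset_left).trans (hD.X.deg P))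
  have hpt : ∀ f, -(D.h P f * D.kap P f) ≤ -(D.hcl P f * D.kap P f) +
      (if f ∈ D.ncs P then D.X.n P f * D.kap P f else 0) +
      D.p.H * (if ∃ c ∈ D.CC, f ∈ D.df c P then (1 : ℝ) else 0) +
      (if f ∈ (D.X.nb P).filter (fun f => ¬ D.covd f P) then D.X.ms (D.X.nb P ∩ D.X.nb f)
        else 0) := by
    intro f
    have e1 : 0 ≤ if f ∈ D.ncs P then D.X.n P f * D.kap P f else 0 := by
      split_ifs
      · exact mul_nonneg (eb_n_nonneg _ _ _) (hk0 f)
      · exact le_rfl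
    have e2 : 0 ≤ D.p.H * (if ∃ c ∈ D.CC, f ∈ D.df c P then (1 : ℝ) else 0) := by
      split_ifs
      · linarith
      · linarith
    have e3 : (0 : ℝ) ≤ if f ∈ (D.X.nb P).filter (fun f => ¬ D.covd f P) then
        D.X.ms (D.X.nb P ∩ D.X.nb f) else 0 := by
      split_ifs
      · exact eb_ms_nonneg hm _
      · exact le_rfl
    by_cases hcl : ∃ c ∈ D.CC, f ∈ D.cl c P
    · have h1 : D.hcl P f = D.h P f := by
        unfold Ctx.hcl
        rw [if_pos hcl]
      rw [h1]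
      linarith
    · have h1 : D.hcl P f = 0 := by
        unfold Ctx.hcl
        rw [if_neg hcl]
      have h2 : D.h P f = - D.X.n P f := by
        have h3 : D.r P f = 0 := r_not_cl D fun c hc h => hcl ⟨c, hc, h⟩
        unfold h
        rw [h3]
        ring
      rw [h1, h2]
      have h4 : -(-D.X.n P f * D.kap P f) = D.X.n P f * D.kap P f := by ring
      rw [h4]
      by_cases hcov : D.covd f P
      · obtain ⟨c, hc, hdom⟩ := hcov
        by_cases h5 : 1 - D.p.be < D.th D.s c P f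
        · have h6 : f ∈ D.ncs P := mem_filter.2 ⟨mem_univ _, c, hc, mem_filter.2 ⟨hdom, h5⟩⟩
          rw [if_pos h6]
          linarith
        · have h7 : f ∈ D.df c P := by
            refine mem_filter.2 ⟨hdom, by linarith, ?_⟩
            by_contra h8
            exact hcl ⟨c, hc, mem_filter.2 ⟨hdom, by linarith, by linarith⟩⟩
          rw [if_pos (c := ∃ c ∈ D.CC, f ∈ D.df c P) ⟨c, hc, h7⟩] at e2 ⊢
          have h8 : D.X.n P f * D.kap P f ≤ D.p.H * 1 := by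
            rw [mul_comm]
            exact mul_le_mul (hk1 f) (eb_n_le _ _ _) (eb_n_nonneg _ _ _) hH
          linarith
      · by_cases h5 : D.X.lk f P
        · have h6 : f ∈ (D.X.nb P).filter (fun f => ¬ D.covd f P) :=
            mem_filter.2 ⟨eb_mem_nb.2 h5, hcov⟩
          rw [if_pos h6]
          have h7 : D.X.n P f * D.kap P f ≤ D.X.ms (D.X.nb P ∩ D.X.nb f) := by
            refine le_trans ?_ (kap_le hD P f)
            have := mul_le_mul_of_nonneg_right (eb_n_le D.X P f) (hk0 f)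
            linarith
          linarith
        · have h6 : D.X.n P f = 0 := by
            unfold Sys.n
            rw [if_neg h5]
          rw [h6] at e1 ⊢
          linarith
  have h1 : -(D.X.I univ fun f => D.h P f * D.kap P f) =
      D.X.I univ fun f => -(D.h P f * D.kap P f) := by
    unfold Sys.I
    rw [← sum_neg_distrib]
    exact sum_congr rfl fun f _ => by ring
  have h2 : -(D.X.I univ fun f => D.hcl P f * D.kap P f) =
      D.X.I univ fun f => -(D.hcl P f * D.kap P f) := by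
    unfold Sys.I
    rw [← sum_neg_distrib]
    exact sum_congr rfl fun f _ => by ring
  rw [h1, h2]
  refine (eb_I_mono hm fun f _ => hpt f).trans ?_
  rw [eb_I_add, eb_I_add, eb_I_add, eb_I_ite, eb_I_ite, eb_I_mul]
  have h3 := mul_le_mul_of_nonneg_left (eb_df hD P) hH
  have h4 : D.p.H * (4 / D.p.be ^ 2 * D.inc P) = 4 * D.p.H / D.p.be ^ 2 * D.inc P := by ring
  rw [h4] at h3
  unfold unc'
  linarith

end Ctx

end Pool.Agent.AcyS
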