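import Pool.Agent.AcyS.FactB

/-! # The estimate (IVb) (project MP_af9dfb_S, module S9) -/

set_option autoImplicit false
set_option linter.unusedSectionVars false

namespace Pool.Agent.AcyS

open Finset
open scoped Classical

universe u

variable {V : Type u} [Fintype V]

section Gen

variable {X : Sys V}

theorem ec_ms_nonneg (hm : ∀ f, 0 ≤ X.m f) (A : Finset V) : 0 ≤ X.ms A :=
  sum_nonneg fun f _ => hm f

theorem ec_I_nonneg (hm : ∀ f, 0 ≤ X.m f) {A : Finset V} {g : V → ℝ} (h : ∀ f ∈ A, 0 ≤ g f) :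
    0 ≤ X.I A g := sum_nonneg fun f hf => mul_nonneg (hm f) (h f hf)

theorem ec_I_mono (hm : ∀ f, 0 ≤ X.m f) {A : Finset V} {g g' : V → ℝ}
    (h : ∀ f ∈ A, g f ≤ g' f) : X.I A g ≤ X.I A g' :=
  sum_le_sum fun f hf => mul_le_mul_of_nonneg_left (h f hf) (hm f)

theorem ec_ms_mono (hm : ∀ f, 0 ≤ X.m f) {A B : Finset V} (h : A ⊆ B) : X.ms A ≤ X.ms B :=
  sum_le_sum_of_subset_of_nonneg h fun f _ _ => hm f

theorem ec_I_one (A : Finset V) : (X.I A fun _ => 1) = X.ms A := by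
  simp [Sys.I, Sys.ms]

theorem ec_I_ind (A : Finset V) (p : V → Prop) [DecidablePred p] :
    (X.I A fun f => if p f then (1 : ℝ) else 0) = X.ms (A.filter p) := by
  simp only [Sys.I, Sys.ms, mul_ite, mul_one, mul_zero]
  rw [sum_filter]

theorem ec_I_filter (A : Finset V) (p : V → Prop) [DecidablePred p] (g : V → ℝ) :
    X.I (A.filter p) g = X.I A fun f => if p f then g f else 0 := by
  simp only [Sys.I, mul_ite, mul_zero]
  rw [sum_filter]

theorem ec_I_smul (A : Finset V) (a : ℝ) (g : V → ℝ) : (X.I A fun f => a * g f) = a * X.I A g := by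
  simp only [Sys.I, mul_sum]
  exact sum_congr rfl fun f _ => by ring

theorem ec_I_add (A : Finset V) (g g' : V → ℝ) :
    (X.I A fun f => g f + g' f) = X.I A g + X.I A g' := by
  simp only [Sys.I, ← sum_add_distrib]
  exact sum_congr rfl fun f _ => by ring

theorem ec_I_sum {ι : Type*} (A : Finset V) (S : Finset ι) (g : ι → V → ℝ) :
    (X.I A fun f => ∑ i ∈ S, g i f) = ∑ i ∈ S, X.I A (g i) := by
  simp only [Sys.I, mul_sum]
  exact sum_comm

theorem ec_fiber (A : Finset V) (φ : V → ℕ) (B : Finset ℕ) (h : ∀ f ∈ A, φ f ∈ B) :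
    X.ms A = ∑ k ∈ B, X.ms (A.filter fun f => φ f = k) := by
  simp only [Sys.ms]
  exact (sum_fiberwise_of_maps_to h _).symm

theorem ec_n_nonneg (P f : V) : 0 ≤ X.n P f := by
  unfold Sys.n; split_ifs <;> norm_num

theorem ec_n_le (P f : V) : X.n P f ≤ 1 := by
  unfold Sys.n; split_ifs <;> norm_num

end Gen

variable {D : Ctx V}

namespace Ctx

/-- The inactive own cells inside a good cell. -/
theorem ec_inactive_cell (hD : D.Ok) {c f0 : V} (hc : c ∈ D.CC) (hf0 : f0 ∈ D.G c) :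
    D.X.ms ((Sys.cell (D.E c) (D.φ D.s c) f0).filter fun f => ¬ D.act c f) ≤
      D.p.e3 * D.X.ms (Sys.cell (D.E c) (D.φ D.s c) f0) := by
  have hm := hD.X.m_nonneg
  have hs := hD.s_lt
  set q := Sys.cell (D.E c) (D.φ D.s c) f0 with hq
  set Bs := q.filter fun f => ¬ D.act c f with hB
  set J := (D.E c).image (D.φ (D.s + 1) c) with hJ
  have hf0' := hf0
  rw [Ctx.G, mem_filter] at hf0'
  obtain ⟨hf0E, hmu, hqg⟩ := hf0'
  have hqE : q ⊆ D.E c := filter_subset _ _
  have hqG : ∀ f ∈ q, f ∈ D.G c := by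
    intro f hf
    have h1 := (mem_filter.1 hf)
    exact (G_meas hD hc hf0E h1.1 h1.2.symm).1 hf0
  have hJB : ∀ f ∈ Bs, D.φ (D.s + 1) c f ∈ J := fun f hf =>
    mem_image_of_mem _ (hqE (mem_filter.1 hf).1)
  have hJq : ∀ f ∈ q \ D.g c, D.φ (D.s + 1) c f ∈ J := fun f hf =>
    mem_image_of_mem _ (hqE (mem_sdiff.1 hf).1)
  rw [ec_fiber Bs (D.φ (D.s + 1) c) J hJB]
  have hterm : ∀ k ∈ J, D.X.ms (Bs.filter fun f => D.φ (D.s + 1) c f = k) ≤
      D.p.mu (D.s + 1) + D.p.e2⁻¹ *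
        D.X.ms ((q \ D.g c).filter fun f => D.φ (D.s + 1) c f = k) := by
    intro k _
    by_cases hne : (Bs.filter fun f => D.φ (D.s + 1) c f = k) = ∅
    · rw [hne]
      have h1 : 0 ≤ D.p.e2⁻¹ * D.X.ms ((q \ D.g c).filter fun f => D.φ (D.s + 1) c f = k) :=
        mul_nonneg (inv_nonneg.2 hD.e20.le) (ec_ms_nonneg hm _)
      have h2 := hD.mu0 (D.s + 1)
      have h3 : D.X.ms ∅ = 0 := by simp [Sys.ms]
      rw [h3]
      linarith
    · obtain ⟨f1, hf1⟩ := nonempty_iff_ne_empty.2 hne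
      rw [mem_filter, hB, mem_filter] at hf1
      obtain ⟨⟨hf1q, hf1a⟩, hf1k⟩ := hf1
      have hf1E := hqE hf1q
      -- the own cell of `f1` lies in `q`
      have hoq : D.oc c f1 ⊆ q := by
        intro f hf
        have h1 := mem_filter.1 hf
        refine mem_filter.2 ⟨h1.1, ?_⟩
        have h2 := ref_of_le hD (Nat.le_succ D.s) (by omega) hc f h1.1 f1 hf1E h1.2
        rw [h2]
        exact (mem_filter.1 hf1q).2
      have hoG : D.oc c f1 ⊆ D.G c := fun f hf => hqG f (hoq hf)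
      have h1 : D.X.ms (Bs.filter fun f => D.φ (D.s + 1) c f = k) ≤ D.X.ms (D.oc c f1) := by
        apply ec_ms_mono hm
        intro f hf
        rw [mem_filter] at hf
        exact mem_filter.2 ⟨hqE (mem_filter.1 hf.1).1, by rw [hf.2, hf1k]⟩
      have h2 : D.X.ms (D.oc c f1 \ D.g c) ≤
          D.X.ms ((q \ D.g c).filter fun f => D.φ (D.s + 1) c f = k) := by
        apply ec_ms_mono hm
        intro f hf
        rw [mem_sdiff] at hf
        exact mem_filter.2 ⟨mem_sdiff.2 ⟨hoq hf.1, hf.2⟩, by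
          rw [(mem_filter.1 hf.1).2, hf1k]⟩
      have h3 : D.X.ms (D.oc c f1) ≤ D.p.mu (D.s + 1) + D.p.e2⁻¹ * D.X.ms (D.oc c f1 \ D.g c) := by
        by_cases hmu1 : D.p.mu (D.s + 1) ≤ D.X.ms (D.oc c f1)
        · have h4 : ¬ D.X.ms (D.oc c f1 \ D.g c) ≤ D.p.e2 * D.X.ms (D.oc c f1) := fun h =>
            hf1a ⟨hf1E, hoG, hmu1, h⟩
          rw [not_le] at h4
          have h5 : D.X.ms (D.oc c f1) ≤ D.p.e2⁻¹ * D.X.ms (D.oc c f1 \ D.g c) := by
            rw [inv_mul_eq_div, le_div_iff₀ hD.e20]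
            linarith
          linarith [hD.mu0 (D.s + 1)]
        · have h5 : 0 ≤ D.p.e2⁻¹ * D.X.ms (D.oc c f1 \ D.g c) :=
            mul_nonneg (inv_nonneg.2 hD.e20.le) (ec_ms_nonneg hm _)
          linarith
      have h4 : D.p.e2⁻¹ * D.X.ms (D.oc c f1 \ D.g c) ≤
          D.p.e2⁻¹ * D.X.ms ((q \ D.g c).filter fun f => D.φ (D.s + 1) c f = k) :=
        mul_le_mul_of_nonneg_left h2 (inv_nonneg.2 hD.e20.le)
      linarith
  have hsum := sum_le_sum hterm
  rw [sum_add_distrib, ← mul_sum, ← ec_fiber (q \ D.g c) (D.φ (D.s + 1) c) J hJq, sum_const,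
    nsmul_eq_mul] at hsum
  have hcard : ((J.card : ℕ) : ℝ) ≤ D.p.N (D.s + 1) := by
    exact_mod_cast hD.lev.card (D.s + 1) (by omega) c hc
  have h1 : (J.card : ℝ) * D.p.mu (D.s + 1) ≤ D.p.N (D.s + 1) * D.p.mu (D.s + 1) :=
    mul_le_mul_of_nonneg_right hcard (hD.mu0 _).le
  have h2 := hD.mue
  have h3 : D.p.e3 * D.mu' ≤ D.p.e3 * D.X.ms q := mul_le_mul_of_nonneg_left hmu hD.e30.le
  have h4 : D.p.e2⁻¹ * D.X.ms (q \ D.g c) ≤ D.p.e3 / 2 * D.X.ms q := by
    have h5 := mul_le_mul_of_nonneg_left hqg (inv_nonneg.2 hD.e20.le)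
    rw [hD.e1e] at h5
    have h6 : D.p.e2⁻¹ * (D.p.e2 * D.p.e3 / 2 * D.X.ms q) = D.p.e3 / 2 * D.X.ms q := by
      have := hD.e20.ne'
      field_simp
    linarith
  linarith

/-- The inactive sites whose cell is at least half filled by the neighbourhood of `P`. -/
theorem ec_inactive (hD : D.Ok) {c : V} (hc : c ∈ D.CC) (P : V) :
    D.X.ms ((D.E c).filter fun f => f ∈ D.G c ∧ 1 / 2 ≤ D.th D.s c P f ∧ ¬ D.act c f) ≤
      2 * D.p.e3 * D.X.ms (D.E c ∩ D.X.nb P) := by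
  have hm := hD.X.m_nonneg
  set A1 := (D.E c).filter fun f => f ∈ D.G c ∧ 1 / 2 ≤ D.th D.s c P f ∧ ¬ D.act c f with hA1
  set A2 := (D.E c).filter fun f => 1 / 2 ≤ D.th D.s c P f with hA2
  set J := (D.E c).image (D.φ D.s c) with hJ
  have h1 : ∀ f ∈ A1, D.φ D.s c f ∈ J := fun f hf => mem_image_of_mem _ (mem_filter.1 hf).1
  have h2 : ∀ f ∈ A2, D.φ D.s c f ∈ J := fun f hf => mem_image_of_mem _ (mem_filter.1 hf).1
  have h3 : D.X.ms A1 ≤ D.p.e3 * D.X.ms A2 := by
    rw [ec_fiber A1 (D.φ D.s c) J h1, ec_fiber A2 (D.φ D.s c) J h2, mul_sum]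
    apply sum_le_sum
    intro k _
    by_cases hne : (A1.filter fun f => D.φ D.s c f = k) = ∅
    · rw [hne]
      have h4 : D.X.ms ∅ = 0 := by simp [Sys.ms]
      rw [h4]
      exact mul_nonneg hD.e30.le (ec_ms_nonneg hm _)
    · obtain ⟨f0, hf0⟩ := nonempty_iff_ne_empty.2 hne
      rw [mem_filter, hA1, mem_filter] at hf0
      obtain ⟨⟨hf0E, hf0G, hf0h, -⟩, hf0k⟩ := hf0
      calc D.X.ms (A1.filter fun f => D.φ D.s c f = k)
          ≤ D.X.ms ((Sys.cell (D.E c) (D.φ D.s c) f0).filter fun f => ¬ D.act c f) := by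
            apply ec_ms_mono hm
            intro f hf
            rw [mem_filter, hA1, mem_filter] at hf
            exact mem_filter.2 ⟨mem_filter.2 ⟨hf.1.1, by rw [hf.2, hf0k]⟩, hf.1.2.2.2⟩
        _ ≤ D.p.e3 * D.X.ms (Sys.cell (D.E c) (D.φ D.s c) f0) := ec_inactive_cell hD hc hf0G
        _ ≤ D.p.e3 * D.X.ms (A2.filter fun f => D.φ D.s c f = k) := by
            apply mul_le_mul_of_nonneg_left _ hD.e30.le
            apply ec_ms_mono hm
            intro f hf
            have h5 := mem_filter.1 hf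
            refine mem_filter.2 ⟨mem_filter.2 ⟨h5.1, ?_⟩, by rw [h5.2, hf0k]⟩
            have h6 : D.th D.s c P f = D.th D.s c P f0 :=
              avg_meas (D.E c) (D.φ D.s c) (D.X.n P) f h5.1 f0 hf0E h5.2
            rw [h6]
            exact hf0h
  have h4 : D.X.ms A2 ≤ 2 * D.X.I (D.E c) (D.X.n P) :=
    ms_avg_large hm (D.E c) (D.φ D.s c) (g := D.X.n P) fun f => ec_n_nonneg P f
  have h5 : D.X.I (D.E c) (D.X.n P) = D.X.ms (D.E c ∩ D.X.nb P) := by
    have h6 : D.X.I (D.E c) (D.X.n P) =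
        D.X.I (D.E c) fun f => if D.X.lk f P then (1 : ℝ) else 0 := rfl
    rw [h6, ec_I_ind]
    congr 1
    ext f
    simp [Sys.nb]
  have h6 := mul_le_mul_of_nonneg_left h4 hD.e30.le
  rw [h5] at h6
  linarith

theorem ec_kapc_nonneg (hD : D.Ok) (c P f : V) : 0 ≤ D.kapc c P f := by
  apply ec_I_nonneg hD.X.m_nonneg
  intro Z _
  split_ifs
  · exact ec_n_nonneg Z f
  · exact le_refl 0

theorem ec_kapc_le (hD : D.Ok) (c P f : V) :
    D.kapc c P f ≤ D.X.ms ((D.X.nb P).filter fun Z => c ∈ D.R Z) := by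
  rw [← ec_I_ind]
  apply ec_I_mono hD.X.m_nonneg
  intro Z _
  by_cases h : f ∈ D.nc c Z
  · have h1 : c ∈ D.R Z := ((mem_filter.1 (mem_filter.1 h).1).2).1
    rw [if_pos h, if_pos h1]
    exact ec_n_le Z f
  · rw [if_neg h]
    split_ifs <;> norm_num

theorem ec_kapc_le_H (hD : D.Ok) (c P f : V) : D.kapc c P f ≤ D.p.H :=
  (ec_kapc_le hD c P f).trans ((ec_ms_mono hD.X.m_nonneg (filter_subset _ _)).trans (hD.X.deg P))

theorem ec_kapc_supp (c P f : V) (h : D.kapc c P f ≠ 0) : f ∈ D.G c := by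
  by_contra hf
  apply h
  unfold Ctx.kapc Sys.I
  apply sum_eq_zero
  intro Z _
  have h1 : f ∉ D.nc c Z := fun h => hf (mem_filter.1 (mem_filter.1 h).1).1
  show D.X.m Z * (if f ∈ D.nc c Z then D.X.n Z f else 0) = 0
  rw [if_neg h1, mul_zero]

/-- The pointwise decomposition. -/
theorem ec_point (hD : D.Ok) (c P f : V) :
    (if f ∈ D.ncs P then D.X.n P f * D.kapc c P f else 0) ≤
      (if f ∈ D.ncs P ∧ D.act c f ∧ 1 - D.p.ga < D.th (D.s + 1) c P f
        then D.X.n P f * D.kapc c P f else 0) +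
      (∑ c' ∈ D.R P, if D.ov c c' < D.p.del (D.s + 1) ∧ f ∈ D.E c' then D.kapc c P f else 0) +
      D.p.H * (4 / D.p.ga ^ 2) * (∑ c' ∈ D.CC, if D.p.del (D.s + 1) ≤ D.ov c c' ∧ f ∈ D.E c' then
        (D.th D.s c' P f - D.th (D.s + 1) c P f) ^ 2 else 0) +
      D.p.H * 16 * (∑ c' ∈ D.CC, if D.p.del (D.s + 1) ≤ D.ov c c' ∧ f ∈ D.E c' then
        (D.th D.s c' P f - D.th D.s c P f) ^ 2 else 0) +
      D.p.H * (if f ∈ D.G c ∧ 1 / 2 ≤ D.th D.s c P f ∧ ¬ D.act c f then 1 else 0) := by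
  have hm := hD.X.m_nonneg
  have hH : 0 < D.p.H := lt_of_lt_of_le one_pos hD.X.one_le
  have hga := hD.ga0
  have hk0 := ec_kapc_nonneg hD c P f
  have hkH := ec_kapc_le_H hD c P f
  have hn0 := ec_n_nonneg (X := D.X) P f
  have hn1 := ec_n_le (X := D.X) P f
  have hnk : D.X.n P f * D.kapc c P f ≤ D.kapc c P f := by nlinarith
  have hnk0 : 0 ≤ D.X.n P f * D.kapc c P f := mul_nonneg hn0 hk0
  -- the five terms are nonnegative
  have t0 : 0 ≤ (if f ∈ D.ncs P ∧ D.act c f ∧ 1 - D.p.ga < D.th (D.s + 1) c P f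
        then D.X.n P f * D.kapc c P f else 0) := by
    split_ifs
    · exact hnk0
    · exact le_refl 0
  have t1 : 0 ≤ ∑ c' ∈ D.R P, if D.ov c c' < D.p.del (D.s + 1) ∧ f ∈ D.E c'
      then D.kapc c P f else 0 := by
    apply sum_nonneg
    intro c' _
    split_ifs
    · exact hk0
    · exact le_refl 0
  have t2' : ∀ c' ∈ D.CC, 0 ≤ (if D.p.del (D.s + 1) ≤ D.ov c c' ∧ f ∈ D.E c' then
        (D.th D.s c' P f - D.th (D.s + 1) c P f) ^ 2 else 0) := by
    intro c' _
    split_ifs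
    · exact sq_nonneg _
    · exact le_refl 0
  have t3' : ∀ c' ∈ D.CC, 0 ≤ (if D.p.del (D.s + 1) ≤ D.ov c c' ∧ f ∈ D.E c' then
        (D.th D.s c' P f - D.th D.s c P f) ^ 2 else 0) := by
    intro c' _
    split_ifs
    · exact sq_nonneg _
    · exact le_refl 0
  have t2 : 0 ≤ D.p.H * (4 / D.p.ga ^ 2) * (∑ c' ∈ D.CC,
      if D.p.del (D.s + 1) ≤ D.ov c c' ∧ f ∈ D.E c' then
        (D.th D.s c' P f - D.th (D.s + 1) c P f) ^ 2 else 0) :=
    mul_nonneg (by positivity) (sum_nonneg t2')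
  have t3 : 0 ≤ D.p.H * 16 * (∑ c' ∈ D.CC,
      if D.p.del (D.s + 1) ≤ D.ov c c' ∧ f ∈ D.E c' then
        (D.th D.s c' P f - D.th D.s c P f) ^ 2 else 0) :=
    mul_nonneg (by positivity) (sum_nonneg t3')
  have t4 : 0 ≤ D.p.H * (if f ∈ D.G c ∧ 1 / 2 ≤ D.th D.s c P f ∧ ¬ D.act c f
      then (1 : ℝ) else 0) := by
    apply mul_nonneg hH.le
    split_ifs <;> norm_num
  by_cases hfn : f ∈ D.ncs P
  swap
  · rw [if_neg hfn]
    linarith
  rw [if_pos hfn]
  by_cases hk : D.kapc c P f = 0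
  · have h0 : D.X.n P f * D.kapc c P f = 0 := by rw [hk, mul_zero]
    linarith
  have hG := ec_kapc_supp c P f hk
  obtain ⟨-, c', hc', hnc⟩ := mem_filter.1 hfn
  have hdom := mem_filter.1 (mem_filter.1 hnc).1
  have hth : 1 - D.p.be < D.th D.s c' P f := (mem_filter.1 hnc).2
  have hRc' : c' ∈ D.R P := hdom.2.1
  have hEc' : f ∈ D.E c' := (mem_filter.1 hdom.1).1
  by_cases hov : D.ov c c' < D.p.del (D.s + 1)
  · have h1 : D.kapc c P f ≤ ∑ c' ∈ D.R P, if D.ov c c' < D.p.del (D.s + 1) ∧ f ∈ D.E c'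
        then D.kapc c P f else 0 := by
      have h2 := single_le_sum (f := fun c' => if D.ov c c' < D.p.del (D.s + 1) ∧ f ∈ D.E c'
        then D.kapc c P f else 0) (fun c' _ => by
          show 0 ≤ (if D.ov c c' < D.p.del (D.s + 1) ∧ f ∈ D.E c' then D.kapc c P f else 0)
          split_ifs
          · exact hk0
          · exact le_refl 0) hRc'
      simp only [if_pos (And.intro hov hEc')] at h2
      exact h2
    linarith
  · rw [not_lt] at hov
    by_cases hth1 : D.th (D.s + 1) c P f ≤ 1 - D.p.ga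
    · have h1 : (D.p.ga / 2) ^ 2 ≤ (D.th D.s c' P f - D.th (D.s + 1) c P f) ^ 2 := by
        apply pow_le_pow_left₀ (by positivity)
        have := hD.bega
        linarith
      have h2 : (D.th D.s c' P f - D.th (D.s + 1) c P f) ^ 2 ≤ ∑ c' ∈ D.CC,
          if D.p.del (D.s + 1) ≤ D.ov c c' ∧ f ∈ D.E c' then
            (D.th D.s c' P f - D.th (D.s + 1) c P f) ^ 2 else 0 := by
        have h3 := single_le_sum (f := fun c' => if D.p.del (D.s + 1) ≤ D.ov c c' ∧ f ∈ D.E c' then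
            (D.th D.s c' P f - D.th (D.s + 1) c P f) ^ 2 else 0) t2' hc'
        simp only [if_pos (And.intro hov hEc')] at h3
        exact h3
      have h4 : D.p.H ≤ D.p.H * (4 / D.p.ga ^ 2) * (∑ c' ∈ D.CC,
          if D.p.del (D.s + 1) ≤ D.ov c c' ∧ f ∈ D.E c' then
            (D.th D.s c' P f - D.th (D.s + 1) c P f) ^ 2 else 0) := by
        calc D.p.H = D.p.H * (4 / D.p.ga ^ 2) * (D.p.ga / 2) ^ 2 := by
              field_simp
              norm_num
          _ ≤ _ := mul_le_mul_of_nonneg_left (h1.trans h2) (by positivity)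
      linarith
    · rw [not_le] at hth1
      by_cases hth2 : D.th D.s c P f < 1 / 2
      · have h1 : (1 / 4 : ℝ) ^ 2 ≤ (D.th D.s c' P f - D.th D.s c P f) ^ 2 := by
          apply pow_le_pow_left₀ (by norm_num)
          have := hD.be1
          linarith
        have h2 : (D.th D.s c' P f - D.th D.s c P f) ^ 2 ≤ ∑ c' ∈ D.CC,
            if D.p.del (D.s + 1) ≤ D.ov c c' ∧ f ∈ D.E c' then
              (D.th D.s c' P f - D.th D.s c P f) ^ 2 else 0 := by
          have h3 := single_le_sum (f := fun c' => if D.p.del (D.s + 1) ≤ D.ov c c' ∧ f ∈ D.E c'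
            then (D.th D.s c' P f - D.th D.s c P f) ^ 2 else 0) t3' hc'
          simp only [if_pos (And.intro hov hEc')] at h3
          exact h3
        have h4 : D.p.H ≤ D.p.H * 16 * (∑ c' ∈ D.CC,
            if D.p.del (D.s + 1) ≤ D.ov c c' ∧ f ∈ D.E c' then
              (D.th D.s c' P f - D.th D.s c P f) ^ 2 else 0) := by
          calc D.p.H = D.p.H * 16 * (1 / 4) ^ 2 := by ring
            _ ≤ _ := mul_le_mul_of_nonneg_left (h1.trans h2) (by positivity)
        linarith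
      · rw [not_lt] at hth2
        by_cases ha : D.act c f
        · have h1 : (if f ∈ D.ncs P ∧ D.act c f ∧ 1 - D.p.ga < D.th (D.s + 1) c P f
              then D.X.n P f * D.kapc c P f else 0) = D.X.n P f * D.kapc c P f :=
            if_pos ⟨hfn, ha, hth1⟩
          linarith
        · have h1 : D.p.H * (if f ∈ D.G c ∧ 1 / 2 ≤ D.th D.s c P f ∧ ¬ D.act c f
              then (1 : ℝ) else 0) = D.p.H := by
            rw [if_pos ⟨hG, hth2, ha⟩, mul_one]
          linarith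

/-- (IVb) -/
theorem est_IVb (hD : D.Ok) (P : V) :
    (D.X.I (D.ncs P) fun f => D.X.n P f * D.kap P f) ≤
      ∑ c ∈ D.CC, (D.X.I (D.E c) fun f =>
        if f ∈ D.ncs P ∧ D.act c f ∧ 1 - D.p.ga < D.th (D.s + 1) c P f
        then D.X.n P f * D.kapc c P f else 0) +
      D.p.H * D.RR ^ 2 * D.p.del (D.s + 1) +
      9 * D.p.B0 * D.p.H * (4 / D.p.ga ^ 2 + 16) * D.inc P +
      2 * D.p.e3 * D.p.B0 * D.p.H ^ 2 := by
  have hm := hD.X.m_nonneg
  have hH : 0 < D.p.H := lt_of_lt_of_le one_pos hD.X.one_le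
  have hga := hD.ga0
  -- left side
  have hleft : (D.X.I (D.ncs P) fun f => D.X.n P f * D.kap P f) =
      ∑ c ∈ D.CC, D.X.I (D.E c) fun f =>
        if f ∈ D.ncs P then D.X.n P f * D.kapc c P f else 0 := by
    have h1 : (D.X.I (D.ncs P) fun f => D.X.n P f * D.kap P f) =
        D.X.I univ fun f => ∑ c ∈ D.CC,
          if f ∈ D.ncs P then D.X.n P f * D.kapc c P f else 0 := by
      have h2 : D.ncs P = univ.filter fun f => f ∈ D.ncs P := by
        ext f; simp
      rw [h2, ec_I_filter]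
      unfold Sys.I
      apply sum_congr rfl
      intro f _
      congr 1
      by_cases hf : f ∈ D.ncs P
      · have hf' : f ∈ univ.filter fun f => f ∈ D.ncs P := by simpa using hf
        simp only [if_pos hf', if_pos hf]
        rw [kap_eq hD, mul_sum]
      · have hf' : f ∉ univ.filter fun f => f ∈ D.ncs P := by simpa using hf
        simp only [if_neg hf', if_neg hf, sum_const_zero]
    rw [h1, ec_I_sum]
    apply sum_congr rfl
    intro c _
    unfold Sys.I
    symm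
    apply sum_subset (subset_univ _)
    intro f _ hf
    have h3 : D.kapc c P f = 0 := by
      by_contra h
      exact hf (mem_filter.1 (ec_kapc_supp c P f h)).1
    show D.X.m f * (if f ∈ D.ncs P then D.X.n P f * D.kapc c P f else 0) = 0
    rw [h3]
    simp
  rw [hleft]
  -- pointwise bound
  have hpt : ∀ c ∈ D.CC, (D.X.I (D.E c) fun f =>
      if f ∈ D.ncs P then D.X.n P f * D.kapc c P f else 0) ≤
      (D.X.I (D.E c) fun f =>
        if f ∈ D.ncs P ∧ D.act c f ∧ 1 - D.p.ga < D.th (D.s + 1) c P f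
        then D.X.n P f * D.kapc c P f else 0) +
      (∑ c' ∈ D.R P, D.X.I (D.E c) fun f => if D.ov c c' < D.p.del (D.s + 1) ∧ f ∈ D.E c'
        then D.kapc c P f else 0) +
      D.p.H * (4 / D.p.ga ^ 2) * (∑ c' ∈ D.CC, D.X.I (D.E c) fun f =>
        if D.p.del (D.s + 1) ≤ D.ov c c' ∧ f ∈ D.E c' then
        (D.th D.s c' P f - D.th (D.s + 1) c P f) ^ 2 else 0) +
      D.p.H * 16 * (∑ c' ∈ D.CC, D.X.I (D.E c) fun f =>
        if D.p.del (D.s + 1) ≤ D.ov c c' ∧ f ∈ D.E c' then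
        (D.th D.s c' P f - D.th D.s c P f) ^ 2 else 0) +
      D.p.H * (2 * D.p.e3 * D.X.ms (D.E c ∩ D.X.nb P)) := by
    intro c hc
    have h1 := ec_I_mono hm (A := D.E c) fun f _ => ec_point hD c P f
    refine h1.trans ?_
    rw [ec_I_add, ec_I_add, ec_I_add, ec_I_add, ec_I_smul, ec_I_smul, ec_I_smul, ec_I_sum,
      ec_I_sum, ec_I_sum, ec_I_ind]
    have h2 := mul_le_mul_of_nonneg_left (ec_inactive hD hc P) hH.le
    linarith
  refine (sum_le_sum hpt).trans ?_
  simp only [sum_add_distrib, ← mul_sum]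
  -- overlaps
  have hin : ∀ (c c' : V) (F : V → ℝ), (D.X.I (D.E c) fun f =>
      if D.p.del (D.s + 1) ≤ D.ov c c' ∧ f ∈ D.E c' then F f else 0) =
      if D.p.del (D.s + 1) ≤ D.ov c c' then D.X.I (D.E c ∩ D.E c') F else 0 := by
    intro c c' F
    by_cases h : D.p.del (D.s + 1) ≤ D.ov c c'
    · simp only [h, true_and, if_true]
      rw [← ec_I_filter]
      congr 1
    · simp [h, Sys.I]
  have c1 : ∑ c ∈ D.CC, ∑ c' ∈ D.CC, (D.X.I (D.E c) fun f =>
        if D.p.del (D.s + 1) ≤ D.ov c c' ∧ f ∈ D.E c' then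
        (D.th D.s c' P f - D.th (D.s + 1) c P f) ^ 2 else 0) ≤ 9 * D.p.B0 * D.inc P := by
    simp only [hin]
    exact cmp_P hD P (a := D.s) (b := D.s + 1) (le_refl _) (by omega) (by omega) (by omega)
  have c2 : ∑ c ∈ D.CC, ∑ c' ∈ D.CC, (D.X.I (D.E c) fun f =>
        if D.p.del (D.s + 1) ≤ D.ov c c' ∧ f ∈ D.E c' then
        (D.th D.s c' P f - D.th D.s c P f) ^ 2 else 0) ≤ 9 * D.p.B0 * D.inc P := by
    simp only [hin]
    exact cmp_P hD P (a := D.s) (b := D.s) (le_refl _) (by omega) (by omega) (by omega)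
  -- small overlaps
  have c3 : ∑ c ∈ D.CC, ∑ c' ∈ D.R P, (D.X.I (D.E c) fun f =>
      if D.ov c c' < D.p.del (D.s + 1) ∧ f ∈ D.E c' then D.kapc c P f else 0) ≤
      D.p.H * D.RR ^ 2 * D.p.del (D.s + 1) := by
    have h1 : ∀ c ∈ D.CC, ∀ c' ∈ D.R P, (D.X.I (D.E c) fun f =>
        if D.ov c c' < D.p.del (D.s + 1) ∧ f ∈ D.E c' then D.kapc c P f else 0) ≤
        D.p.del (D.s + 1) * D.X.ms ((D.X.nb P).filter fun Z => c ∈ D.R Z) := by
      intro c _ c' _
      have hdel := hD.del0 (D.s + 1)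
      have hms := ec_ms_nonneg hm ((D.X.nb P).filter fun Z => c ∈ D.R Z)
      by_cases hov : D.ov c c' < D.p.del (D.s + 1)
      · have h2 : (D.X.I (D.E c) fun f =>
            if D.ov c c' < D.p.del (D.s + 1) ∧ f ∈ D.E c' then D.kapc c P f else 0) ≤
            D.X.I (D.E c) fun f => D.X.ms ((D.X.nb P).filter fun Z => c ∈ D.R Z) *
              (if f ∈ D.E c' then 1 else 0) := by
          apply ec_I_mono hm
          intro f _
          by_cases hf : f ∈ D.E c'
          · rw [if_pos ⟨hov, hf⟩, if_pos hf, mul_one]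
            exact ec_kapc_le hD c P f
          · rw [if_neg (fun h => hf h.2), if_neg hf, mul_zero]
        refine h2.trans ?_
        rw [ec_I_smul, ec_I_ind]
        have h3 : (D.E c).filter (fun f => f ∈ D.E c') = D.E c ∩ D.E c' := by
          ext f; simp
        rw [h3, mul_comm]
        exact mul_le_mul_of_nonneg_right hov.le hms
      · have h2 : (D.X.I (D.E c) fun f =>
            if D.ov c c' < D.p.del (D.s + 1) ∧ f ∈ D.E c' then D.kapc c P f else 0) = 0 := by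
          unfold Sys.I
          apply sum_eq_zero
          intro f _
          show D.X.m f * (if D.ov c c' < D.p.del (D.s + 1) ∧ f ∈ D.E c' then D.kapc c P f
            else 0) = 0
          rw [if_neg (fun h : D.ov c c' < D.p.del (D.s + 1) ∧ f ∈ D.E c' => hov h.1), mul_zero]
        rw [h2]
        exact mul_nonneg hdel.le hms
    have h2 : ∑ c ∈ D.CC, ∑ c' ∈ D.R P, (D.X.I (D.E c) fun f =>
        if D.ov c c' < D.p.del (D.s + 1) ∧ f ∈ D.E c' then D.kapc c P f else 0) ≤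
        ∑ c ∈ D.CC, ∑ c' ∈ D.R P,
          D.p.del (D.s + 1) * D.X.ms ((D.X.nb P).filter fun Z => c ∈ D.R Z) :=
      sum_le_sum fun c hc => sum_le_sum fun c' hc' => h1 c hc c' hc'
    refine h2.trans ?_
    simp only [sum_const, nsmul_eq_mul]
    rw [← mul_sum, ← mul_sum]
    have h3 : ∑ c ∈ D.CC, D.X.ms ((D.X.nb P).filter fun Z => c ∈ D.R Z) ≤ D.RR * D.p.H := by
      have h4 : ∑ c ∈ D.CC, D.X.ms ((D.X.nb P).filter fun Z => c ∈ D.R Z) =
          D.X.I (D.X.nb P) fun Z => ((D.R Z).card : ℝ) := by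
        simp only [← ec_I_ind]
        rw [← ec_I_sum]
        unfold Sys.I
        apply sum_congr rfl
        intro Z _
        congr 1
        show (∑ i ∈ D.CC, if i ∈ D.R Z then (1 : ℝ) else 0) = ((D.R Z).card : ℝ)
        rw [sum_boole]
        congr 2
        ext c
        simp only [mem_filter, Ctx.R]
        tauto
      rw [h4]
      calc (D.X.I (D.X.nb P) fun Z => ((D.R Z).card : ℝ)) ≤
          D.X.I (D.X.nb P) fun _ => D.RR * 1 := by
            apply ec_I_mono hm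
            intro Z _
            rw [mul_one]
            exact card_R hD Z
        _ = D.RR * D.X.ms (D.X.nb P) := by rw [ec_I_smul, ec_I_one]
        _ ≤ D.RR * D.p.H := mul_le_mul_of_nonneg_left (hD.X.deg P) (by
            unfold Ctx.RR
            have := hD.tau0 D.s
            positivity)
    have hRR : 0 ≤ D.RR := by
      unfold Ctx.RR
      have := hD.tau0 D.s
      positivity
    have h5 := card_R hD P
    have h6 := hD.del0 (D.s + 1)
    have h7 : (0 : ℝ) ≤ ∑ c ∈ D.CC, D.X.ms ((D.X.nb P).filter fun Z => c ∈ D.R Z) :=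
      sum_nonneg fun c _ => ec_ms_nonneg hm _
    calc ((D.R P).card : ℝ) * (D.p.del (D.s + 1) *
          ∑ c ∈ D.CC, D.X.ms ((D.X.nb P).filter fun Z => c ∈ D.R Z)) ≤
        D.RR * (D.p.del (D.s + 1) * (D.RR * D.p.H)) :=
          mul_le_mul h5 (mul_le_mul_of_nonneg_left h3 h6.le) (mul_nonneg h6.le h7) hRR
      _ = D.p.H * D.RR ^ 2 * D.p.del (D.s + 1) := by ring
  -- inactive cells
  have c4 : ∑ c ∈ D.CC, D.X.ms (D.E c ∩ D.X.nb P) ≤ D.p.B0 * D.p.H :=
    (sum_ms_E hD (D.X.nb P)).trans (mul_le_mul_of_nonneg_left (hD.X.deg P) (Nat.cast_nonneg _))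
  have d1 := mul_le_mul_of_nonneg_left c1 (by positivity : 0 ≤ D.p.H * (4 / D.p.ga ^ 2))
  have d2 := mul_le_mul_of_nonneg_left c2 (by positivity : 0 ≤ D.p.H * 16)
  have d4 := mul_le_mul_of_nonneg_left (mul_le_mul_of_nonneg_left c4
    (by have := hD.e30; positivity : 0 ≤ 2 * D.p.e3)) hH.le
  have e1 : 9 * D.p.B0 * D.p.H * (4 / D.p.ga ^ 2 + 16) * D.inc P =
      D.p.H * (4 / D.p.ga ^ 2) * (9 * D.p.B0 * D.inc P) + D.p.H * 16 * (9 * D.p.B0 * D.inc P) := by
    ring
  have e2 : 2 * D.p.e3 * D.p.B0 * D.p.H ^ 2 = D.p.H * (2 * D.p.e3 * (D.p.B0 * D.p.H)) := by ring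
  rw [e1, e2]
  linarith

end Ctx

end Pool.Agent.AcyS
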