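import Pool.Agent.AcyS.FactB

/-! # (IVc): own cells that are not nearly complete to `P` -/

set_option autoImplicit false
set_option linter.unusedSectionVars false

namespace Pool.Agent.AcyS

open Finset
open scoped Classical

universe u

namespace ED

variable {V : Type u} [Fintype V] {X : Sys V}

/-- The bilinear form of a kernel. -/
noncomputable def ed_bl (X : Sys V) (t : V → V → ℝ) (a b : V → ℝ) : ℝ :=
  ∑ f, ∑ P, X.m f * X.m P * (a f * t f P * b P)

theorem ed_ker_row (hm : ∀ f, 0 ≤ X.m f) {o : Finset V} {T e : ℝ} {t : V → V → ℝ}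
    (ht : X.KerOK o T e t) {y : V → ℝ} (hy : ∀ f, 0 ≤ y f) :
    ∑ f, ∑ P, X.m f * X.m P * (y f * t f P) ≤ ∑ f, X.m f * y f := by
  refine sum_le_sum fun f _ => ?_
  have h1 : ∑ P, X.m f * X.m P * (y f * t f P) = X.m f * y f * ∑ P, X.m P * t f P := by
    rw [mul_sum]
    exact sum_congr rfl fun P _ => by ring
  rw [h1]
  have := mul_le_mul_of_nonneg_left (ht.row f) (mul_nonneg (hm f) (hy f))
  linarith

theorem ed_ker_col (hm : ∀ f, 0 ≤ X.m f) {o : Finset V} {T e : ℝ} {t : V → V → ℝ}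
    (ht : X.KerOK o T e t) {y : V → ℝ} (hy : ∀ f, 0 ≤ y f) :
    ∑ f, ∑ P, X.m f * X.m P * (y P * t f P) ≤ ∑ f, X.m f * y f := by
  rw [sum_comm]
  refine le_trans (le_of_eq ?_) (ed_ker_row hm ht hy)
  refine sum_congr rfl fun f _ => sum_congr rfl fun P _ => ?_
  rw [ht.symm P f]
  ring

theorem ed_bl_lower (hm : ∀ f, 0 ≤ X.m f) {o : Finset V} {T e : ℝ} {t : V → V → ℝ}
    (ht : X.KerOK o T e t) {x a : V → ℝ} (h1 : ∀ f, a f ≤ x f)
    (h2 : ∀ f, x f ≤ 1) :
    ed_bl X t x x - 2 * ∑ f, X.m f * (x f - a f) ≤ ed_bl X t a a := by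
  have key : ed_bl X t x x - ed_bl X t a a ≤
      ∑ f, ∑ P, (X.m f * X.m P * ((x f - a f) * t f P) +
        X.m f * X.m P * ((x P - a P) * t f P)) := by
    unfold ed_bl
    rw [← sum_sub_distrib]
    refine sum_le_sum fun f _ => ?_
    rw [← sum_sub_distrib]
    refine sum_le_sum fun P _ => ?_
    have h3 : x f * x P - a f * a P ≤ (x f - a f) + (x P - a P) := by
      nlinarith [mul_nonneg (sub_nonneg.2 (h1 f)) (sub_nonneg.2 (h2 P)),
        mul_nonneg (sub_nonneg.2 ((h1 f).trans (h2 f))) (sub_nonneg.2 (h1 P))]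
    have h4 := mul_nonneg (mul_nonneg (hm f) (hm P)) (ht.nonneg f P)
    have h5 := mul_le_mul_of_nonneg_left h3 h4
    linarith
  have s1 := ed_ker_row hm ht (y := fun f => x f - a f) fun f => sub_nonneg.2 (h1 f)
  have s2 := ed_ker_col hm ht (y := fun f => x f - a f) fun f => sub_nonneg.2 (h1 f)
  simp only [sum_add_distrib] at key
  linarith

theorem ed_bl_le (hm : ∀ f, 0 ≤ X.m f) {o : Finset V} {T e : ℝ} {t : V → V → ℝ}
    (ht : X.KerOK o T e t) {x a : V → ℝ} (h0 : ∀ f, 0 ≤ a f) (h2 : ∀ f, x f ≤ 1) :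
    ed_bl X t x a ≤ ∑ f, X.m f * a f := by
  refine le_trans ?_ (ed_ker_col hm ht h0)
  unfold ed_bl
  refine sum_le_sum fun f _ => sum_le_sum fun P _ => ?_
  have h4 := mul_nonneg (mul_nonneg (hm f) (hm P)) (mul_nonneg (h0 P) (ht.nonneg f P))
  nlinarith [mul_le_mul_of_nonneg_left (h2 f) h4]

theorem ed_I_le_cell {E : Finset V} {φ : V → ℕ} {F G : V → ℝ}
    (h : ∀ f ∈ E, X.I (Sys.cell E φ f) F ≤ X.I (Sys.cell E φ f) G) : X.I E F ≤ X.I E G := by
  unfold Sys.I at *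
  rw [← sum_fiberwise_of_maps_to (g := φ) (t := E.image φ)
      (fun f hf => mem_image_of_mem φ hf) (fun f => X.m f * F f),
    ← sum_fiberwise_of_maps_to (g := φ) (t := E.image φ)
      (fun f hf => mem_image_of_mem φ hf) (fun f => X.m f * G f)]
  refine sum_le_sum fun k hk => ?_
  obtain ⟨f, hf, rfl⟩ := mem_image.1 hk
  exact h f hf

end ED

namespace Ctx

open ED

variable {V : Type u} [Fintype V] {D : Ctx V}

theorem ed_oc_eq {c f f0 : V} (h : f ∈ D.oc c f0) : D.oc c f = D.oc c f0 := by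
  unfold oc Sys.cell at *
  rw [(mem_filter.1 h).2]

theorem ed_oc_sub (c f0 : V) : D.oc c f0 ⊆ D.E c := filter_subset _ _

theorem ed_act_iff {c f f0 : V} (h : f ∈ D.oc c f0) (h0 : f0 ∈ D.E c) :
    D.act c f ↔ D.act c f0 := by
  unfold act
  rw [ed_oc_eq h]
  have := ed_oc_sub (D := D) c f0 h
  tauto

theorem ed_th1_eq (P : V) {c f f0 : V} (h : f ∈ D.oc c f0) :
    D.th (D.s + 1) c P f = D.th (D.s + 1) c P f0 := by
  unfold th Sys.avg
  have := ed_oc_eq h
  unfold oc at this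
  rw [this]

/-- Good neighbours of `P` in the own cell of `f0`. -/
noncomputable def ed_ox (D : Ctx V) (c f0 P : V) : Finset V :=
  (D.oc c f0).filter fun f => f ∈ D.g c ∧ D.X.lk f P

/-- Participants of the transport for `Z` among the neighbours of `P`. -/
noncomputable def ed_oa (D : Ctx V) (c f0 P Z : V) : Finset V :=
  (D.oZ c (D.oc c f0) Z).filter fun f => D.X.lk f P

theorem ed_oa_sub (c f0 P Z : V) : D.ed_oa c f0 P Z ⊆ D.ed_ox c f0 P := by
  intro f hf
  unfold ed_oa oZ at hf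
  unfold ed_ox
  simp only [mem_filter] at hf ⊢
  tauto

/-- Indicator function. -/
noncomputable def ed_ind (S : Finset V) (f : V) : ℝ := if f ∈ S then 1 else 0

theorem ed_ind_nonneg (S : Finset V) (f : V) : 0 ≤ ed_ind S f := by unfold ed_ind; split_ifs <;> norm_num

theorem ed_ind_le (S : Finset V) (f : V) : ed_ind S f ≤ 1 := by unfold ed_ind; split_ifs <;> norm_num

theorem ed_ind_mono {S S' : Finset V} (h : S ⊆ S') (f : V) : ed_ind S f ≤ ed_ind S' f := by
  unfold ed_ind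
  split_ifs with h1 h2
  · exact le_rfl
  · exact absurd (h h1) h2
  · norm_num
  · exact le_rfl

theorem ed_sum_ind (X : Sys V) (S : Finset V) : ∑ f, X.m f * ed_ind S f = X.ms S := by
  unfold ed_ind Sys.ms
  simp

/-- `vo` as a double sum. -/
theorem ed_vo_eq {c f f0 : V} (P : V) (ha : D.act c f0) (h : f ∈ D.oc c f0) :
    D.vo c P f = ∑ Z, D.X.m Z * (ed_ind (D.oZ c (D.oc c f0) Z) f *
      ∑ Q, D.X.m Q * (D.κ (D.oc c f0) f Q * ed_ind (D.ed_oa c f0 P Z) Q)) := by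
  have hf : D.act c f := (ed_act_iff h ha.1).2 ha
  unfold vo
  rw [if_pos hf, ed_oc_eq h]
  unfold Sys.I
  refine sum_congr rfl fun Z _ => ?_
  congr 1
  unfold ed_ind
  by_cases h1 : f ∈ D.oZ c (D.oc c f0) Z
  · simp only [if_pos h1, one_mul, mul_ite, mul_one, mul_zero]
    rw [← sum_filter]
    refine sum_congr ?_ fun _ _ => rfl
    ext Q
    unfold ed_oa Sys.nb
    simp
  · simp only [if_neg h1, zero_mul]

/-- Sum of `vo` against a function over an own cell. -/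
theorem ed_I_vo {c f0 : V} (P : V) (ha : D.act c f0) (y : V → ℝ) :
    (D.X.I (D.oc c f0) fun f => y f * D.vo c P f) =
      ∑ Z, D.X.m Z * ed_bl D.X (D.κ (D.oc c f0)) (fun f => y f * ed_ind (D.oZ c (D.oc c f0) Z) f)
        (ed_ind (D.ed_oa c f0 P Z)) := by
  have h1 : (D.X.I (D.oc c f0) fun f => y f * D.vo c P f) = D.X.I (D.oc c f0) fun f => y f *
      ∑ Z, D.X.m Z * (ed_ind (D.oZ c (D.oc c f0) Z) f *
      ∑ Q, D.X.m Q * (D.κ (D.oc c f0) f Q * ed_ind (D.ed_oa c f0 P Z) Q)) := by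
    unfold Sys.I
    exact sum_congr rfl fun f hf => by simp only [ed_vo_eq P ha hf]
  rw [h1]
  have h2 : (D.X.I (D.oc c f0) fun f => y f *
      ∑ Z, D.X.m Z * (ed_ind (D.oZ c (D.oc c f0) Z) f *
      ∑ Q, D.X.m Q * (D.κ (D.oc c f0) f Q * ed_ind (D.ed_oa c f0 P Z) Q))) = ∑ f, D.X.m f * (y f *
      ∑ Z, D.X.m Z * (ed_ind (D.oZ c (D.oc c f0) Z) f *
      ∑ Q, D.X.m Q * (D.κ (D.oc c f0) f Q * ed_ind (D.ed_oa c f0 P Z) Q))) := by
    unfold Sys.I
    refine sum_subset (subset_univ _) fun f _ hf => ?_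
    have : ∀ Z, ed_ind (D.oZ c (D.oc c f0) Z) f = 0 := by
      intro Z
      unfold ed_ind
      rw [if_neg]
      intro h
      exact hf (mem_filter.1 h).1
    simp [this]
  rw [h2]
  unfold ed_bl
  simp only [mul_sum]
  rw [sum_comm]
  refine sum_congr rfl fun Z _ => sum_congr rfl fun f _ => sum_congr rfl fun Q _ => ?_
  ring

theorem ed_oa_eq_mul (c f0 P Z f : V) :
    D.X.n P f * ed_ind (D.oZ c (D.oc c f0) Z) f = ed_ind (D.ed_oa c f0 P Z) f := by
  unfold Sys.n ed_ind ed_oa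
  by_cases h1 : D.X.lk f P <;> by_cases h2 : f ∈ D.oZ c (D.oc c f0) Z <;> simp [h1, h2]

theorem ed_oZ_of_not_Act {c f0 Z : V} (h : ¬ D.Act c (D.oc c f0) Z) :
    D.oZ c (D.oc c f0) Z = ∅ := by
  unfold oZ
  rw [filter_eq_empty_iff]
  intro f _ hf
  exact h hf.1

theorem ed_Do_eq (c f0 : V) : D.Do c f0 = ∑ Z, D.X.m Z *
    (if D.Act c (D.oc c f0) Z then 1 else 0) := by
  unfold Do Sys.mp Sys.ms
  rw [sum_filter]
  exact sum_congr rfl fun Z _ => by split_ifs <;> simp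

/-- (q1) -/
theorem ed_I_vo_le (hD : D.Ok) {c f0 : V} (hc : c ∈ D.CC) (ha : D.act c f0) (P : V) :
    D.X.I (D.oc c f0) (D.vo c P) ≤ D.Do c f0 * D.X.ms (D.ed_ox c f0 P) := by
  have hm := hD.X.m_nonneg
  have ht := hD.ker c hc f0 ha
  have h1 := ed_I_vo (D := D) P ha (fun _ => 1)
  simp only [one_mul] at h1
  rw [h1, ed_Do_eq, sum_mul]
  refine sum_le_sum fun Z _ => ?_
  rw [mul_assoc]
  refine mul_le_mul_of_nonneg_left ?_ (hm Z)
  split_ifs with h2
  · rw [one_mul]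
    refine (ed_bl_le hm ht (ed_ind_nonneg _) (ed_ind_le _)).trans ?_
    rw [← ed_sum_ind]
    exact sum_le_sum fun f _ => mul_le_mul_of_nonneg_left (ed_ind_mono (ed_oa_sub c f0 P Z) f) (hm f)
  · have : ∀ f, ed_ind (D.oZ c (D.oc c f0) Z) f = 0 := by
      intro f
      rw [ed_oZ_of_not_Act h2]
      simp [ed_ind]
    unfold ed_bl
    simp [this]

/-- (q2) -/
theorem ed_I_n_vo_ge (hD : D.Ok) {c f0 : V} (hc : c ∈ D.CC) (ha : D.act c f0) (P : V) :
    D.Do c f0 * (D.X.ms (D.ed_ox c f0 P) ^ 2 / D.X.ms (D.oc c f0) -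
        D.p.e' * D.X.ms (D.ed_ox c f0 P)) - 6 * D.p.ep * D.X.ms (D.ed_ox c f0 P) ≤
      D.X.I (D.oc c f0) fun f => D.X.n P f * D.vo c P f := by
  have hm := hD.X.m_nonneg
  have ht := hD.ker c hc f0 ha
  have h1 := ed_I_vo (D := D) P ha (D.X.n P)
  simp only [ed_oa_eq_mul] at h1
  rw [h1]
  have hsupp : ∀ f, f ∉ D.oc c f0 → ed_ind (D.ed_ox c f0 P) f = 0 := by
    intro f hf
    unfold ed_ind
    rw [if_neg]
    intro h
    exact hf (mem_filter.1 h).1
  have hI : D.X.I (D.oc c f0) (ed_ind (D.ed_ox c f0 P)) = D.X.ms (D.ed_ox c f0 P) := by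
    rw [← ed_sum_ind]
    unfold Sys.I
    refine sum_subset (subset_univ _) fun f _ hf => ?_
    rw [hsupp f hf, mul_zero]
  have h2 : ∀ Z, D.Act c (D.oc c f0) Z →
      D.X.ms (D.ed_ox c f0 P) ^ 2 / D.X.ms (D.oc c f0) - D.p.e' * D.X.ms (D.ed_ox c f0 P) -
        2 * ∑ f, D.X.m f * (ed_ind (D.ed_ox c f0 P) f - ed_ind (D.ed_oa c f0 P Z) f) ≤
      ed_bl D.X (D.κ (D.oc c f0)) (ed_ind (D.ed_oa c f0 P Z)) (ed_ind (D.ed_oa c f0 P Z)) := by
    intro Z _
    have h3 := ed_bl_lower hm ht (ed_ind_mono (ed_oa_sub c f0 P Z)) (ed_ind_le (D.ed_ox c f0 P))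
    have h4 := ht.psd (ed_ind (D.ed_ox c f0 P)) (ed_ind_nonneg _) (ed_ind_le _) hsupp
    rw [hI] at h4
    unfold ed_bl at h3 ⊢
    linarith
  have h5 : D.Do c f0 * (D.X.ms (D.ed_ox c f0 P) ^ 2 / D.X.ms (D.oc c f0) -
        D.p.e' * D.X.ms (D.ed_ox c f0 P)) -
      ∑ Z, D.X.m Z * (if D.Act c (D.oc c f0) Z then
        2 * ∑ f, D.X.m f * (ed_ind (D.ed_ox c f0 P) f - ed_ind (D.ed_oa c f0 P Z) f) else 0) ≤
      ∑ Z, D.X.m Z * ed_bl D.X (D.κ (D.oc c f0)) (ed_ind (D.ed_oa c f0 P Z)) (ed_ind (D.ed_oa c f0 P Z)) := by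
    rw [ed_Do_eq, sum_mul, ← sum_sub_distrib]
    refine sum_le_sum fun Z _ => ?_
    rw [mul_assoc, ← mul_sub]
    refine mul_le_mul_of_nonneg_left ?_ (hm Z)
    split_ifs with h6
    · rw [one_mul]
      exact h2 Z h6
    · have : ∀ f, ed_ind (D.ed_oa c f0 P Z) f = 0 := by
        intro f
        unfold ed_oa
        rw [ed_oZ_of_not_Act h6]
        simp [ed_ind]
      unfold ed_bl
      simp [this]
  refine le_trans ?_ h5
  have h7 : ∑ Z, D.X.m Z * (if D.Act c (D.oc c f0) Z then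
        2 * ∑ f, D.X.m f * (ed_ind (D.ed_ox c f0 P) f - ed_ind (D.ed_oa c f0 P Z) f) else 0) =
      2 * ∑ f, D.X.m f * ∑ Z, D.X.m Z * (if D.Act c (D.oc c f0) Z then
        (ed_ind (D.ed_ox c f0 P) f - ed_ind (D.ed_oa c f0 P Z) f) else 0) := by
    simp only [mul_sum]
    rw [sum_comm]
    refine sum_congr rfl fun Z _ => ?_
    split_ifs
    · rw [mul_sum]
      exact sum_congr rfl fun f _ => by ring
    · simp
  have h8 : ∑ f, D.X.m f * ∑ Z, D.X.m Z * (if D.Act c (D.oc c f0) Z then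
        (ed_ind (D.ed_ox c f0 P) f - ed_ind (D.ed_oa c f0 P Z) f) else 0) ≤
      ∑ f, D.X.m f * (ed_ind (D.ed_ox c f0 P) f * (3 * D.p.ep)) := by
    refine sum_le_sum fun f _ => mul_le_mul_of_nonneg_left ?_ (hm f)
    by_cases h9 : f ∈ D.ed_ox c f0 P
    · have h10 := mem_filter.1 h9
      have h11 : D.act c f := (ed_act_iff h10.1 ha.1).2 ha
      have h12 := mp_not_oZ hD hc h11 h10.2.1
      rw [ed_oc_eq h10.1] at h12
      have h13 : ed_ind (D.ed_ox c f0 P) f = 1 := if_pos h9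
      rw [h13, one_mul]
      refine le_trans (le_of_eq ?_) h12
      unfold Sys.mp Sys.ms
      rw [sum_filter]
      refine sum_congr rfl fun Z _ => ?_
      by_cases h14 : D.Act c (D.oc c f0) Z
      · by_cases h15 : f ∈ D.oZ c (D.oc c f0) Z
        · have : ed_ind (D.ed_oa c f0 P Z) f = 1 := if_pos (mem_filter.2 ⟨h15, h10.2.2⟩)
          simp [h14, h15, this]
        · have : ed_ind (D.ed_oa c f0 P Z) f = 0 := if_neg fun h => h15 (mem_filter.1 h).1
          simp [h14, h15, this]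
      · simp [h14]
    · have h13 : ed_ind (D.ed_ox c f0 P) f = 0 := if_neg h9
      have h14 : ∀ Z, ed_ind (D.ed_oa c f0 P Z) f = 0 := fun Z => if_neg fun h =>
        h9 (ed_oa_sub c f0 P Z h)
      simp [h13, h14]
  have h16 : ∑ f, D.X.m f * (ed_ind (D.ed_ox c f0 P) f * (3 * D.p.ep)) =
      3 * D.p.ep * D.X.ms (D.ed_ox c f0 P) := by
    rw [← ed_sum_ind, mul_sum]
    exact sum_congr rfl fun f _ => by ring
  rw [h7]
  linarith

theorem ed_ms_ox_le (hD : D.Ok) (c f0 P : V) :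
    D.X.ms (D.ed_ox c f0 P) ≤ D.X.I (D.oc c f0) (D.X.n P) := by
  have hm := hD.X.m_nonneg
  unfold Sys.I Sys.ms ed_ox
  rw [sum_filter]
  refine sum_le_sum fun f _ => ?_
  unfold Sys.n
  split_ifs with h1 h2 h3
  · simp
  · exact absurd h1.2 h2
  · simpa using hm f
  · simp

theorem ed_I_n_le_ox (hD : D.Ok) {c f0 : V} (ha : D.act c f0) (P : V) :
    D.X.I (D.oc c f0) (D.X.n P) ≤ D.X.ms (D.ed_ox c f0 P) + D.p.e2 * D.X.ms (D.oc c f0) := by
  have hm := hD.X.m_nonneg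
  refine le_trans ?_ (add_le_add le_rfl ha.2.2.2)
  have h1 : D.X.ms (D.oc c f0 \ D.g c) =
      ∑ f ∈ D.oc c f0, if f ∉ D.g c then D.X.m f else 0 := by
    unfold Sys.ms
    rw [← sum_filter]
    refine sum_congr ?_ fun _ _ => rfl
    ext f
    simp
  rw [h1]
  unfold Sys.I Sys.ms ed_ox
  rw [sum_filter, ← sum_add_distrib]
  refine sum_le_sum fun f _ => ?_
  unfold Sys.n
  by_cases h2 : D.X.lk f P <;> by_cases h3 : f ∈ D.g c <;> simp [h2, h3, hm f]

theorem ed_th1_mul (hD : D.Ok) (c f0 P : V) :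
    D.th (D.s + 1) c P f0 * D.X.ms (D.oc c f0) = D.X.I (D.oc c f0) (D.X.n P) :=
  avg_mul_ms hD.X.m_nonneg _ _ _ _

theorem ed_ms_oc_pos (hD : D.Ok) {c f0 : V} (ha : D.act c f0) : 0 < D.X.ms (D.oc c f0) :=
  (hD.mu0 _).trans_le ha.2.2.1

/-- The estimate in one cell. -/
theorem ed_cell_main (hD : D.Ok) {c f0 : V} (hc : c ∈ D.CC) (ha : D.act c f0) (P : V) :
    (D.X.I (D.oc c f0) fun f => (D.th (D.s + 1) c P f0 - D.X.n P f) * D.vo c P f) ≤
      (6 * D.p.ep + 2 * (D.p.e' + D.p.e2) * D.p.H) * D.X.I (D.oc c f0) (D.X.n P) := by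
  have hm := hD.X.m_nonneg
  have q1 := ed_I_vo_le hD hc ha P
  have q2 := ed_I_n_vo_ge hD hc ha P
  have h1 := ed_I_n_le_ox hD ha P
  have h2 := ed_th1_mul hD c f0 P
  have h3 := ed_ms_oc_pos hD ha
  have h4 := Do_le hD hc ha
  have h5 := ed_ms_ox_le hD c f0 P
  have h6 : 0 ≤ D.X.ms (D.ed_ox c f0 P) := sum_nonneg fun f _ => hm f
  have h7 : 0 ≤ D.Do c f0 := sum_nonneg fun f _ => hm f
  have h8 : 0 ≤ D.th (D.s + 1) c P f0 := th_nonneg hD _ _ _ _
  set x := D.X.ms (D.ed_ox c f0 P)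
  set M := D.X.ms (D.oc c f0)
  set t := D.th (D.s + 1) c P f0
  have h9 : (D.X.I (D.oc c f0) fun f => (t - D.X.n P f) * D.vo c P f) =
      t * D.X.I (D.oc c f0) (D.vo c P) - D.X.I (D.oc c f0) fun f => D.X.n P f * D.vo c P f := by
    unfold Sys.I
    rw [mul_sum, ← sum_sub_distrib]
    exact sum_congr rfl fun f _ => by ring
  rw [h9]
  have h10 : t ≤ x / M + D.p.e2 := by
    rw [div_add' _ _ _ h3.ne', le_div_iff₀ h3]
    linarith
  have h11 : t * D.X.I (D.oc c f0) (D.vo c P) ≤ (x / M + D.p.e2) * (D.Do c f0 * x) :=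
    (mul_le_mul_of_nonneg_left q1 h8).trans
      (mul_le_mul_of_nonneg_right h10 (mul_nonneg h7 h6))
  have h12 : (x / M + D.p.e2) * (D.Do c f0 * x) - (D.Do c f0 * (x ^ 2 / M - D.p.e' * x) -
      6 * D.p.ep * x) = D.Do c f0 * ((D.p.e' + D.p.e2) * x) + 6 * D.p.ep * x := by
    field_simp
    ring
  have h13 : D.Do c f0 * ((D.p.e' + D.p.e2) * x) ≤ 2 * D.p.H * ((D.p.e' + D.p.e2) * x) :=
    mul_le_mul_of_nonneg_right h4 (mul_nonneg (add_nonneg hD.e'0.le hD.e20.le) h6)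
  have h14 : (6 * D.p.ep + 2 * (D.p.e' + D.p.e2) * D.p.H) * x ≤
      (6 * D.p.ep + 2 * (D.p.e' + D.p.e2) * D.p.H) * D.X.I (D.oc c f0) (D.X.n P) := by
    refine mul_le_mul_of_nonneg_left h5 ?_
    have := hD.e'0
    have := hD.e20
    have := hD.ep0
    have := hD.X.one_le
    positivity
  linarith

/-- Excess of the class density over the density of the own cell. -/
noncomputable def ed_er (D : Ctx V) (P c f : V) : ℝ := ∑ c' ∈ D.CC,
  if f ∈ D.cl c' P then max (D.th (D.s + 3) c' P f - D.th (D.s + 1) c P f) 0 else 0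

theorem ed_er_nonneg (P c f : V) : 0 ≤ D.ed_er P c f :=
  sum_nonneg fun c' _ => by split_ifs <;> simp

theorem ed_cl_sub_dom (c Z : V) : D.cl c Z ⊆ D.dom c Z := filter_subset _ _

theorem ed_h_le (hD : D.Ok) {c f : V} (P : V) (h : D.th (D.s + 1) c P f ≤ 1 - D.p.ga) :
    D.h P f ≤ 1 / (1 - D.th (D.s + 1) c P f) * (D.th (D.s + 1) c P f - D.X.n P f) +
      2 / (D.p.be * D.p.ga) * D.ed_er P c f := by
  have hga := hD.ga0
  have hbe := hD.be0
  have hx0 := th_nonneg hD (D.s + 1) c P f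
  have hn : D.X.n P f = 0 ∨ D.X.n P f = 1 := by
    unfold Sys.n
    split_ifs <;> simp
  set x := D.th (D.s + 1) c P f
  have hx1 : 0 < 1 - x := by linarith
  by_cases h1 : ∃ c' ∈ D.CC, f ∈ D.cl c' P
  · obtain ⟨c', hc', hf⟩ := h1
    have her : D.ed_er P c f = max (D.th (D.s + 3) c' P f - x) 0 := by
      unfold ed_er
      rw [sum_eq_single c' (fun b _ hb => if_neg fun h2 => hb
        (dom_unique hD (ed_cl_sub_dom _ _ h2) (ed_cl_sub_dom _ _ hf))) (fun h2 => absurd hc' h2),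
        if_pos hf]
    rw [her, h_cl hD hf]
    have hy := (mem_filter.1 hf).2.2
    set y := D.th (D.s + 3) c' P f
    have hy1 : 0 < 1 - y := by linarith
    have e1 : (y - D.X.n P f) / (1 - y) = 1 / (1 - x) * (x - D.X.n P f) +
        (1 - D.X.n P f) * (y - x) / ((1 - y) * (1 - x)) := by
      field_simp
      ring
    rw [e1]
    have e2 : (1 - D.X.n P f) * (y - x) / ((1 - y) * (1 - x)) ≤
        2 / (D.p.be * D.p.ga) * max (y - x) 0 := by
      have h2 : (1 - D.X.n P f) * (y - x) ≤ max (y - x) 0 := by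
        rcases hn with h3 | h3 <;> rw [h3] <;> simp
      have h4 : D.p.be * D.p.ga / 2 ≤ (1 - y) * (1 - x) := by
        nlinarith
      have h5 : 0 ≤ max (y - x) 0 := le_max_right _ _
      have h6 : 0 < (1 - y) * (1 - x) := mul_pos hy1 hx1
      rw [div_le_iff₀ h6]
      refine h2.trans ?_
      have h7 : 2 / (D.p.be * D.p.ga) * max (y - x) 0 * (D.p.be * D.p.ga / 2) =
          max (y - x) 0 := by
        field_simp
      calc max (y - x) 0 = 2 / (D.p.be * D.p.ga) * max (y - x) 0 * (D.p.be * D.p.ga / 2) :=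
            h7.symm
        _ ≤ _ := mul_le_mul_of_nonneg_left h4 (by positivity)
    linarith
  · have h2 : ∀ c' ∈ D.CC, f ∉ D.cl c' P := fun c' hc' hf => h1 ⟨c', hc', hf⟩
    have h3 : D.h P f = - D.X.n P f := by
      unfold Ctx.h
      rw [r_not_cl D h2]
      ring
    have h4 := ed_er_nonneg (D := D) P c f
    have h5 : 0 ≤ 2 / (D.p.be * D.p.ga) * D.ed_er P c f := by positivity
    have h6 : - D.X.n P f ≤ 1 / (1 - x) * (x - D.X.n P f) := by
      rw [one_div, inv_mul_eq_div, le_div_iff₀ hx1]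
      rcases hn with h7 | h7 <;> rw [h7] <;> linarith
    rw [h3]
    linarith

theorem ed_I_n_E (c P : V) : D.X.I (D.E c) (D.X.n P) = D.X.ms (D.E c ∩ D.X.nb P) := by
  have h1 : D.E c ∩ D.X.nb P = (D.E c).filter fun f => D.X.lk f P := by
    ext f
    simp [Sys.nb]
  rw [h1]
  unfold Sys.I Sys.ms Sys.n
  rw [sum_filter]
  exact sum_congr rfl fun f _ => by split_ifs <;> simp

theorem ed_sum_I_n_E (hD : D.Ok) (P : V) :
    ∑ c ∈ D.CC, D.X.I (D.E c) (D.X.n P) ≤ D.p.B0 * D.p.H := by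
  simp only [ed_I_n_E]
  refine (sum_ms_E hD _).trans ?_
  exact mul_le_mul_of_nonneg_left (hD.X.deg P) (by positivity)

/-- Main part of (IVc). -/
theorem ed_main_part (hD : D.Ok) (P : V) :
    ∑ c ∈ D.CC, (D.X.I (D.E c) fun f =>
      if D.act c f ∧ D.th (D.s + 1) c P f ≤ 1 - D.p.ga then
        1 / (1 - D.th (D.s + 1) c P f) * ((D.th (D.s + 1) c P f - D.X.n P f) * D.vo c P f)
      else 0) ≤
      1 / D.p.ga * (6 * D.p.ep * D.p.B0 * D.p.H +
        2 * (D.p.e' + D.p.e2) * D.p.B0 * D.p.H ^ 2) := by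
  have hm := hD.X.m_nonneg
  have hga := hD.ga0
  have hK : 0 ≤ 6 * D.p.ep + 2 * (D.p.e' + D.p.e2) * D.p.H := by
    have := hD.e'0
    have := hD.e20
    have := hD.ep0
    have := hD.X.one_le
    positivity
  have h1 : ∀ c ∈ D.CC, (D.X.I (D.E c) fun f =>
      if D.act c f ∧ D.th (D.s + 1) c P f ≤ 1 - D.p.ga then
        1 / (1 - D.th (D.s + 1) c P f) * ((D.th (D.s + 1) c P f - D.X.n P f) * D.vo c P f)
      else 0) ≤ D.X.I (D.E c) fun f =>
        1 / D.p.ga * (6 * D.p.ep + 2 * (D.p.e' + D.p.e2) * D.p.H) * D.X.n P f := by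
    intro c hc
    refine ed_I_le_cell (φ := D.φ (D.s + 1) c) fun f0 hf0 => ?_
    have h2 : (D.X.I (Sys.cell (D.E c) (D.φ (D.s + 1) c) f0) fun f =>
        1 / D.p.ga * (6 * D.p.ep + 2 * (D.p.e' + D.p.e2) * D.p.H) * D.X.n P f) =
        1 / D.p.ga * ((6 * D.p.ep + 2 * (D.p.e' + D.p.e2) * D.p.H) *
          D.X.I (D.oc c f0) (D.X.n P)) := by
      unfold Sys.I oc
      rw [mul_sum, mul_sum]
      exact sum_congr rfl fun f _ => by ring
    rw [h2]
    have hn0 : 0 ≤ D.X.I (D.oc c f0) (D.X.n P) := by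
      unfold Sys.I Sys.n
      exact sum_nonneg fun f _ => mul_nonneg (hm f) (by split_ifs <;> norm_num)
    by_cases h3 : D.act c f0 ∧ D.th (D.s + 1) c P f0 ≤ 1 - D.p.ga
    · have h4 : (D.X.I (Sys.cell (D.E c) (D.φ (D.s + 1) c) f0) fun f =>
          if D.act c f ∧ D.th (D.s + 1) c P f ≤ 1 - D.p.ga then
            1 / (1 - D.th (D.s + 1) c P f) * ((D.th (D.s + 1) c P f - D.X.n P f) * D.vo c P f)
          else 0) = 1 / (1 - D.th (D.s + 1) c P f0) * D.X.I (D.oc c f0) fun f =>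
            (D.th (D.s + 1) c P f0 - D.X.n P f) * D.vo c P f := by
        unfold Sys.I
        rw [mul_sum]
        refine sum_congr rfl fun f hf => ?_
        have h5 : f ∈ D.oc c f0 := hf
        have h6 := ed_th1_eq P h5
        have h7 := (ed_act_iff h5 hf0).2 h3.1
        simp only [h6, h7, h3.2, and_self, if_true]
        ring
      rw [h4]
      have h5 := ed_cell_main hD hc h3.1 P
      have h6 : 0 < 1 - D.th (D.s + 1) c P f0 := by linarith [h3.2]
      have h7 : 1 / (1 - D.th (D.s + 1) c P f0) ≤ 1 / D.p.ga :=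
        one_div_le_one_div_of_le hga (by linarith [h3.2])
      exact (mul_le_mul_of_nonneg_left h5 (by positivity)).trans
        (mul_le_mul_of_nonneg_right h7 (mul_nonneg hK hn0))
    · have h4 : (D.X.I (Sys.cell (D.E c) (D.φ (D.s + 1) c) f0) fun f =>
          if D.act c f ∧ D.th (D.s + 1) c P f ≤ 1 - D.p.ga then
            1 / (1 - D.th (D.s + 1) c P f) * ((D.th (D.s + 1) c P f - D.X.n P f) * D.vo c P f)
          else 0) = 0 := by
        unfold Sys.I
        refine sum_eq_zero fun f hf => ?_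
        have h5 : f ∈ D.oc c f0 := hf
        have h6 := ed_th1_eq P h5
        have h7 := ed_act_iff h5 hf0
        beta_reduce
        rw [if_neg, mul_zero]
        rw [h6, h7]
        exact h3
      rw [h4]
      positivity
  refine (sum_le_sum h1).trans ?_
  have h2 : ∑ c ∈ D.CC, (D.X.I (D.E c) fun f =>
        1 / D.p.ga * (6 * D.p.ep + 2 * (D.p.e' + D.p.e2) * D.p.H) * D.X.n P f) =
      1 / D.p.ga * (6 * D.p.ep + 2 * (D.p.e' + D.p.e2) * D.p.H) *
        ∑ c ∈ D.CC, D.X.I (D.E c) (D.X.n P) := by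
    rw [mul_sum]
    refine sum_congr rfl fun c _ => ?_
    unfold Sys.I
    rw [mul_sum]
    exact sum_congr rfl fun f _ => by ring
  rw [h2]
  have h3 := mul_le_mul_of_nonneg_left (ed_sum_I_n_E hD P)
    (show 0 ≤ 1 / D.p.ga * (6 * D.p.ep + 2 * (D.p.e' + D.p.e2) * D.p.H) by positivity)
  refine h3.trans (le_of_eq ?_)
  ring

theorem ed_sum_cells (hD : D.Ok) (c c' P : V) :
    ∑ f ∈ D.E c ∩ D.E c', D.X.m f * D.X.ms (D.oc c f ∩ D.X.nb P) ≤
      D.ov c c' * D.X.ms (D.E c ∩ D.X.nb P) := by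
  have hm := hD.X.m_nonneg
  have h1 : ∀ f, D.X.ms (D.oc c f ∩ D.X.nb P) = ∑ g ∈ D.E c ∩ D.X.nb P,
      if D.φ (D.s + 1) c g = D.φ (D.s + 1) c f then D.X.m g else 0 := by
    intro f
    unfold Sys.ms
    rw [← sum_filter]
    refine sum_congr ?_ fun _ _ => rfl
    ext g
    simp only [oc, Sys.cell, mem_inter, mem_filter]
    tauto
  simp only [h1, mul_sum]
  rw [sum_comm]
  unfold Sys.ms
  rw [mul_sum]
  refine sum_le_sum fun g _ => ?_
  have h2 : ∑ f ∈ D.E c ∩ D.E c', D.X.m f *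
      (if D.φ (D.s + 1) c g = D.φ (D.s + 1) c f then D.X.m g else 0) ≤
      ∑ f ∈ D.E c ∩ D.E c', D.X.m f * D.X.m g := by
    refine sum_le_sum fun f _ => mul_le_mul_of_nonneg_left ?_ (hm f)
    split_ifs
    · exact le_rfl
    · exact hm g
  refine h2.trans (le_of_eq ?_)
  unfold ov Sys.ms
  rw [sum_mul]

theorem ed_cl_sub_E (c Z : V) : D.cl c Z ⊆ D.E c := fun _ hf =>
  (mem_filter.1 (mem_filter.1 (mem_filter.1 hf).1).1).1

theorem ed_mem_R_of_cl {c Z f : V} (hf : f ∈ D.cl c Z) : c ∈ D.R Z :=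
  (mem_filter.1 (mem_filter.1 hf).1).2.1

theorem ed_vo_of_not_act {c P f : V} (h : ¬ D.act c f) : D.vo c P f = 0 := if_neg h

/-- Term of the error with worlds `c`, `c'`. -/
noncomputable def ed_tm (D : Ctx V) (P c c' : V) : ℝ := D.X.I (D.E c) fun f =>
  if f ∈ D.cl c' P then max (D.th (D.s + 3) c' P f - D.th (D.s + 1) c P f) 0 * D.vo c P f
  else 0

theorem ed_tm_small (hD : D.Ok) (P : V) {c : V} (hc : c ∈ D.CC) (c' : V) :
    D.ed_tm P c c' ≤ if c' ∈ D.R P then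
      D.p.H * D.p.T (D.s + 1) * (D.ov c c' * D.X.ms (D.E c ∩ D.X.nb P)) else 0 := by
  have hm := hD.X.m_nonneg
  have hH : 0 ≤ D.p.H := zero_le_one.trans hD.X.one_le
  have hT : 0 ≤ D.p.T (D.s + 1) := zero_le_one.trans (hD.T1 _)
  by_cases h1 : c' ∈ D.R P
  · rw [if_pos h1]
    have h2 : D.ed_tm P c c' ≤ ∑ f ∈ D.E c ∩ D.E c', D.X.m f *
        (D.p.H * D.p.T (D.s + 1) * D.X.ms (D.oc c f ∩ D.X.nb P)) := by
      unfold ed_tm Sys.I
      have h3 : ∀ f ∈ D.E c, f ∉ D.E c ∩ D.E c' → D.X.m f * (if f ∈ D.cl c' P then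
          max (D.th (D.s + 3) c' P f - D.th (D.s + 1) c P f) 0 * D.vo c P f else 0) = 0 := by
        intro f hf hf'
        rw [if_neg, mul_zero]
        intro h4
        exact hf' (mem_inter.2 ⟨hf, ed_cl_sub_E _ _ h4⟩)
      rw [← sum_subset inter_subset_left h3]
      refine sum_le_sum fun f hf => mul_le_mul_of_nonneg_left ?_ (hm f)
      have hms : 0 ≤ D.X.ms (D.oc c f ∩ D.X.nb P) := sum_nonneg fun g _ => hm g
      split_ifs with h4
      · by_cases h5 : D.act c f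
        · have h6 := vo_le_T hD (P := P) hc h5
          have h7 := vo_nonneg hD c P f hc
          have h8 : max (D.th (D.s + 3) c' P f - D.th (D.s + 1) c P f) 0 ≤ 1 := by
            refine max_le ?_ zero_le_one
            have := th_le_one hD (D.s + 3) c' P f
            have := th_nonneg hD (D.s + 1) c P f
            linarith
          exact (mul_le_of_le_one_left h7 h8).trans h6
        · rw [ed_vo_of_not_act h5, mul_zero]
          positivity
      · positivity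
    refine h2.trans ?_
    have h3 := mul_le_mul_of_nonneg_left (ed_sum_cells hD c c' P) (mul_nonneg hH hT)
    refine le_trans (le_of_eq ?_) h3
    rw [mul_sum]
    exact sum_congr rfl fun f _ => by ring
  · rw [if_neg h1]
    unfold ed_tm Sys.I
    refine le_of_eq (sum_eq_zero fun f _ => ?_)
    beta_reduce
    rw [if_neg, mul_zero]
    exact fun h2 => h1 (ed_mem_R_of_cl h2)

theorem ed_sum_tm_small (hD : D.Ok) (P : V) :
    ∑ c ∈ D.CC, ∑ c' ∈ D.CC, (if D.p.del (D.s + 1) ≤ D.ov c c' then 0 else D.ed_tm P c c') ≤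
      D.p.T (D.s + 1) * D.p.B0 * D.p.H ^ 2 * D.RR * D.p.del (D.s + 1) := by
  have hm := hD.X.m_nonneg
  have hH : 0 ≤ D.p.H := zero_le_one.trans hD.X.one_le
  have hT : 0 ≤ D.p.T (D.s + 1) := zero_le_one.trans (hD.T1 _)
  have hdel := hD.del0 (D.s + 1)
  have h1 : ∀ c ∈ D.CC, ∑ c' ∈ D.CC,
      (if D.p.del (D.s + 1) ≤ D.ov c c' then 0 else D.ed_tm P c c') ≤
      D.RR * (D.p.H * D.p.T (D.s + 1) * (D.p.del (D.s + 1) * D.X.ms (D.E c ∩ D.X.nb P))) := by
    intro c hc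
    have hms : 0 ≤ D.X.ms (D.E c ∩ D.X.nb P) := sum_nonneg fun g _ => hm g
    have h2 : ∀ c' ∈ D.CC, (if D.p.del (D.s + 1) ≤ D.ov c c' then 0 else D.ed_tm P c c') ≤
        if c' ∈ D.R P then
          D.p.H * D.p.T (D.s + 1) * (D.p.del (D.s + 1) * D.X.ms (D.E c ∩ D.X.nb P)) else 0 := by
      intro c' _
      split_ifs with h3 h4 h4
      · positivity
      · exact le_rfl
      · refine (ed_tm_small hD P hc c').trans ?_
        rw [if_pos h4]
        refine mul_le_mul_of_nonneg_left ?_ (mul_nonneg hH hT)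
        exact mul_le_mul_of_nonneg_right (not_le.1 h3).le hms
      · refine (ed_tm_small hD P hc c').trans ?_
        rw [if_neg h4]
    refine (sum_le_sum h2).trans ?_
    rw [← sum_filter, sum_const, nsmul_eq_mul]
    refine mul_le_mul_of_nonneg_right ?_ (by positivity)
    refine le_trans ?_ (card_R hD P)
    exact_mod_cast card_le_card fun x hx => (mem_filter.1 hx).2
  refine (sum_le_sum h1).trans ?_
  have hRR : 0 ≤ D.RR := (Nat.cast_nonneg _).trans (card_R hD P)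
  have h3 : ∑ c ∈ D.CC, D.X.ms (D.E c ∩ D.X.nb P) ≤ D.p.B0 * D.p.H := by
    have := ed_sum_I_n_E hD P
    simpa only [ed_I_n_E] using this
  have h4 : ∑ c ∈ D.CC, D.RR * (D.p.H * D.p.T (D.s + 1) *
      (D.p.del (D.s + 1) * D.X.ms (D.E c ∩ D.X.nb P))) =
      D.RR * (D.p.H * D.p.T (D.s + 1) * D.p.del (D.s + 1)) *
        ∑ c ∈ D.CC, D.X.ms (D.E c ∩ D.X.nb P) := by
    rw [mul_sum]
    exact sum_congr rfl fun c _ => by ring
  rw [h4]
  refine (mul_le_mul_of_nonneg_left h3 (by positivity)).trans (le_of_eq ?_)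
  ring

/-- Cauchy-Schwarz part. -/
theorem ed_sum_tm_big (hD : D.Ok) (P : V) :
    ∑ c ∈ D.CC, ∑ c' ∈ D.CC, (if D.p.del (D.s + 1) ≤ D.ov c c' then D.ed_tm P c c' else 0) ≤
      Real.sqrt (9 * D.p.B0 * D.inc P) * Real.sqrt (D.p.B0 * D.p.H ^ 3) := by
  have hm := hD.X.m_nonneg
  set A : V × V × V → ℝ := fun x => if D.p.del (D.s + 1) ≤ D.ov x.1 x.2.1 ∧
    x.2.2 ∈ D.E x.1 ∩ D.E x.2.1 then Real.sqrt (D.X.m x.2.2) *
      max (D.th (D.s + 3) x.2.1 P x.2.2 - D.th (D.s + 1) x.1 P x.2.2) 0 else 0 with hA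
  set B : V × V × V → ℝ := fun x => if x.2.2 ∈ D.E x.1 ∧ x.2.2 ∈ D.cl x.2.1 P then
    Real.sqrt (D.X.m x.2.2) * D.vo x.1 P x.2.2 else 0 with hB
  have h1 : ∑ c ∈ D.CC, ∑ c' ∈ D.CC,
      (if D.p.del (D.s + 1) ≤ D.ov c c' then D.ed_tm P c c' else 0) =
      ∑ x ∈ D.CC ×ˢ D.CC ×ˢ (univ : Finset V), A x * B x := by
    rw [sum_product]
    refine sum_congr rfl fun c _ => ?_
    rw [sum_product]
    refine sum_congr rfl fun c' _ => ?_
    split_ifs with h2
    · unfold ed_tm Sys.I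
      rw [← sum_filter_add_sum_filter_not univ (fun f => f ∈ D.E c)]
      rw [sum_eq_zero (s := univ.filter fun f => ¬ f ∈ D.E c), add_zero]
      · refine sum_congr (by ext; simp) fun f hf => ?_
        have hf' : f ∈ D.E c := (mem_filter.1 hf).2
        simp only [hA, hB]
        by_cases h3 : f ∈ D.cl c' P
        · have h4 : f ∈ D.E c ∩ D.E c' := mem_inter.2 ⟨hf', ed_cl_sub_E _ _ h3⟩
          rw [if_pos h3, if_pos ⟨h2, h4⟩, if_pos ⟨hf', h3⟩]
          have h5 := Real.mul_self_sqrt (hm f)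
          calc D.X.m f * (max (D.th (D.s + 3) c' P f - D.th (D.s + 1) c P f) 0 * D.vo c P f)
              = (Real.sqrt (D.X.m f) * Real.sqrt (D.X.m f)) *
                (max (D.th (D.s + 3) c' P f - D.th (D.s + 1) c P f) 0 * D.vo c P f) := by
                rw [h5]
            _ = _ := by ring
        · rw [if_neg h3, if_neg (fun h4 : f ∈ D.E c ∧ f ∈ D.cl c' P => h3 h4.2)]
          ring
      · intro f hf
        have hf' : ¬ f ∈ D.E c := (mem_filter.1 hf).2
        simp only [hB]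
        rw [if_neg (fun h4 : f ∈ D.E c ∧ f ∈ D.cl c' P => hf' h4.1), mul_zero]
    · refine (sum_eq_zero fun f _ => ?_).symm
      simp only [hA]
      rw [if_neg (fun h4 => h2 h4.1), zero_mul]
  rw [h1]
  refine (Real.sum_mul_le_sqrt_mul_sqrt _ A B).trans ?_
  refine mul_le_mul ?_ ?_ (Real.sqrt_nonneg _) (Real.sqrt_nonneg _)
  · refine Real.sqrt_le_sqrt ?_
    refine le_trans ?_ (cmp_P hD P (a := D.s + 3) (b := D.s + 1) (by omega) (by omega)
      (by omega) (by omega))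
    rw [sum_product]
    refine sum_le_sum fun c _ => ?_
    rw [sum_product]
    refine sum_le_sum fun c' _ => ?_
    split_ifs with h2
    · unfold Sys.I
      rw [← sum_filter_add_sum_filter_not univ (fun f => f ∈ D.E c ∩ D.E c')]
      rw [sum_eq_zero (s := univ.filter fun f => ¬ f ∈ D.E c ∩ D.E c'), add_zero]
      · refine le_trans (sum_le_sum (g := fun f => D.X.m f *
          (D.th (D.s + 3) c' P f - D.th (D.s + 1) c P f) ^ 2) fun f hf => ?_) (le_of_eq
            (sum_congr (by ext; simp) fun f hf => rfl))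
        have hf' : f ∈ D.E c ∩ D.E c' := (mem_filter.1 hf).2
        simp only [hA]
        rw [if_pos ⟨h2, hf'⟩, mul_pow, Real.sq_sqrt (hm f)]
        refine mul_le_mul_of_nonneg_left ?_ (hm f)
        rcases le_total (D.th (D.s + 3) c' P f - D.th (D.s + 1) c P f) 0 with h3 | h3
        · rw [max_eq_right h3]
          nlinarith [sq_nonneg (D.th (D.s + 3) c' P f - D.th (D.s + 1) c P f)]
        · rw [max_eq_left h3]
      · intro f hf
        have hf' : ¬ f ∈ D.E c ∩ D.E c' := (mem_filter.1 hf).2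
        simp only [hA]
        rw [if_neg (fun h4 => hf' h4.2)]
        norm_num
    · refine le_of_eq (sum_eq_zero fun f _ => ?_)
      simp only [hA]
      rw [if_neg (fun h4 => h2 h4.1)]
      norm_num
  · refine Real.sqrt_le_sqrt ?_
    refine le_trans ?_ (sum_vo_sq hD P)
    rw [sum_product]
    refine sum_le_sum fun c _ => ?_
    rw [sum_product, sum_comm]
    unfold Sys.I
    rw [← sum_filter_add_sum_filter_not univ (fun f => f ∈ D.E c)]
    rw [sum_eq_zero (s := univ.filter fun f => ¬ f ∈ D.E c), add_zero]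
    · refine le_trans (sum_le_sum (g := fun f => D.X.m f * D.vo c P f ^ 2) fun f hf => ?_)
        (le_of_eq (sum_congr (by ext; simp) fun f hf => rfl))
      have hf' : f ∈ D.E c := (mem_filter.1 hf).2
      by_cases h2 : ∃ c' ∈ D.CC, f ∈ D.cl c' P
      · obtain ⟨c', hc', h3⟩ := h2
        rw [sum_eq_single c']
        · simp only [hB]
          rw [if_pos ⟨hf', h3⟩, mul_pow, Real.sq_sqrt (hm f)]
        · intro b _ hb
          simp only [hB]
          rw [if_neg]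
          · norm_num
          · exact fun h4 => hb (dom_unique hD (ed_cl_sub_dom _ _ h4.2) (ed_cl_sub_dom _ _ h3))
        · exact fun h4 => absurd hc' h4
      · rw [sum_eq_zero]
        · exact mul_nonneg (hm f) (sq_nonneg _)
        · intro b hb
          simp only [hB]
          rw [if_neg]
          · norm_num
          · exact fun h4 => h2 ⟨b, hb, h4.2⟩
    · intro f hf
      have hf' : ¬ f ∈ D.E c := (mem_filter.1 hf).2
      refine sum_eq_zero fun c' _ => ?_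
      simp only [hB]
      rw [if_neg (fun h4 : f ∈ D.E c ∧ f ∈ D.cl c' P => hf' h4.1)]
      norm_num

/-- The error part. -/
theorem ed_err_part (hD : D.Ok) (P : V) :
    ∑ c ∈ D.CC, (D.X.I (D.E c) fun f => D.ed_er P c f * D.vo c P f) ≤
      Real.sqrt (9 * D.p.B0 * D.inc P) * Real.sqrt (D.p.B0 * D.p.H ^ 3) +
        D.p.T (D.s + 1) * D.p.B0 * D.p.H ^ 2 * D.RR * D.p.del (D.s + 1) := by
  have h1 : ∑ c ∈ D.CC, (D.X.I (D.E c) fun f => D.ed_er P c f * D.vo c P f) =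
      ∑ c ∈ D.CC, ∑ c' ∈ D.CC, D.ed_tm P c c' := by
    refine sum_congr rfl fun c _ => ?_
    unfold ed_tm Sys.I ed_er
    rw [sum_comm]
    refine sum_congr rfl fun f _ => ?_
    beta_reduce
    rw [sum_mul, mul_sum]
    refine sum_congr rfl fun c' _ => ?_
    split_ifs
    · rfl
    · ring
  have h2 : ∑ c ∈ D.CC, ∑ c' ∈ D.CC, D.ed_tm P c c' =
      ∑ c ∈ D.CC, ∑ c' ∈ D.CC, (if D.p.del (D.s + 1) ≤ D.ov c c' then D.ed_tm P c c' else 0) +
      ∑ c ∈ D.CC, ∑ c' ∈ D.CC, (if D.p.del (D.s + 1) ≤ D.ov c c' then 0 else D.ed_tm P c c') := by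
    rw [← sum_add_distrib]
    refine sum_congr rfl fun c _ => ?_
    rw [← sum_add_distrib]
    refine sum_congr rfl fun c' _ => ?_
    split_ifs <;> ring
  rw [h1, h2]
  exact add_le_add (ed_sum_tm_big hD P) (ed_sum_tm_small hD P)

/-- (IVc) -/
theorem est_IVc (hD : D.Ok) (P : V) :
    ∑ c ∈ D.CC, (D.X.I (D.E c) fun f =>
      if D.act c f ∧ D.th (D.s + 1) c P f ≤ 1 - D.p.ga then D.h P f * D.vo c P f else 0) ≤
      1 / D.p.ga * (6 * D.p.ep * D.p.B0 * D.p.H +
        2 * (D.p.e' + D.p.e2) * D.p.B0 * D.p.H ^ 2) +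
      2 / (D.p.be * D.p.ga) * (Real.sqrt (9 * D.p.B0 * D.inc P) *
        Real.sqrt (D.p.B0 * D.p.H ^ 3) +
        D.p.T (D.s + 1) * D.p.B0 * D.p.H ^ 2 * D.RR * D.p.del (D.s + 1)) := by
  have hm := hD.X.m_nonneg
  have hga := hD.ga0
  have hbe := hD.be0
  have h1 : ∑ c ∈ D.CC, (D.X.I (D.E c) fun f =>
      if D.act c f ∧ D.th (D.s + 1) c P f ≤ 1 - D.p.ga then D.h P f * D.vo c P f else 0) ≤
      ∑ c ∈ D.CC, (D.X.I (D.E c) fun f =>
      if D.act c f ∧ D.th (D.s + 1) c P f ≤ 1 - D.p.ga then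
        1 / (1 - D.th (D.s + 1) c P f) * ((D.th (D.s + 1) c P f - D.X.n P f) * D.vo c P f)
      else 0) + 2 / (D.p.be * D.p.ga) *
        ∑ c ∈ D.CC, (D.X.I (D.E c) fun f => D.ed_er P c f * D.vo c P f) := by
    rw [mul_sum, ← sum_add_distrib]
    refine sum_le_sum fun c hc => ?_
    unfold Sys.I
    rw [mul_sum, ← sum_add_distrib]
    refine sum_le_sum fun f _ => ?_
    have h2 := vo_nonneg hD c P f hc
    have h3 := ed_er_nonneg (D := D) P c f
    have h4 : 0 ≤ 2 / (D.p.be * D.p.ga) * (D.X.m f * (D.ed_er P c f * D.vo c P f)) := by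
      have := hm f
      positivity
    beta_reduce
    split_ifs with h5
    · have h6 := mul_le_mul_of_nonneg_left (mul_le_mul_of_nonneg_right (ed_h_le hD P h5.2) h2) (hm f)
      refine h6.trans (le_of_eq ?_)
      ring
    · rw [mul_zero, zero_add]
      exact h4
  refine h1.trans (add_le_add (ed_main_part hD P) ?_)
  exact mul_le_mul_of_nonneg_left (ed_err_part hD P) (by positivity)

end Ctx

end Pool.Agent.AcyS
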