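import Pool.Agent.AcyS.EstD

/-! # (IVd): own cells that are nearly complete to `P` -/

set_option autoImplicit false
set_option linter.unusedSectionVars false

namespace Pool.Agent.AcyS

open Finset
open scoped Classical

universe u

namespace Ctx

open ED

variable {V : Type u} [Fintype V] {D : Ctx V}

theorem ee_th_congr {r : ℕ} {c f g : V} (Z : V) (h : D.φ r c f = D.φ r c g) :
    D.th r c Z f = D.th r c Z g := by
  unfold th Sys.avg Sys.cell
  rw [h]

theorem ee_n_zero_or_one (D : Ctx V) (P f : V) : D.X.n P f = 0 ∨ D.X.n P f = 1 := by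
  unfold Sys.n
  split_ifs <;> simp

theorem ee_n_nonneg' (D : Ctx V) (P f : V) : 0 ≤ D.X.n P f := by
  unfold Sys.n
  split_ifs <;> norm_num

theorem ee_kapc_nonneg (hD : D.Ok) (c P f : V) : 0 ≤ D.kapc c P f := by
  unfold kapc Sys.I
  refine sum_nonneg fun Z _ => mul_nonneg (hD.X.m_nonneg Z) ?_
  beta_reduce
  split_ifs
  · exact ee_n_nonneg' D Z f
  · exact le_rfl

/-- Pointwise estimate. -/
theorem ee_point_le (hD : D.Ok) {c f : V} (hc : c ∈ D.CC) (ha : D.act c f) (P : V) :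
    D.h P f * D.vo c P f + (if f ∈ D.ncs P then D.X.n P f * D.kapc c P f else 0) ≤
      D.Do c f * D.hcl P f + D.X.n P f * (D.Do c f - D.vo c P f) := by
  have h1 := vo_le_Do hD (P := P) hc ha
  have h2 := h_ge hD P f
  have h3 := kapc_le_Do hD hc ha P
  have h4 := ee_kapc_nonneg hD c P f
  have hn := ee_n_nonneg' D P f
  have h5 : D.h P f * D.vo c P f ≤ D.Do c f * D.h P f + D.X.n P f * (D.Do c f - D.vo c P f) := by
    nlinarith [mul_nonneg (sub_nonneg.2 h1) (sub_nonneg.2 h2)]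
  have h6 : D.Do c f * D.h P f + (if f ∈ D.ncs P then D.X.n P f * D.kapc c P f else 0) ≤
      D.Do c f * D.hcl P f := by
    unfold hcl
    by_cases h7 : ∃ c' ∈ D.CC, f ∈ D.cl c' P
    · rw [if_pos h7, if_neg, add_zero]
      intro h8
      obtain ⟨c', hc', h9⟩ := h7
      obtain ⟨c'', hc'', h10⟩ := (mem_filter.1 h8).2
      have h11 := dom_unique hD (mem_filter.1 h9).1 (mem_filter.1 h10).1
      subst h11
      exact absurd (mem_filter.1 h9).2.1 (not_le.2 (mem_filter.1 h10).2)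
    · rw [if_neg h7, mul_zero]
      have h8 : D.h P f = - D.X.n P f := by
        unfold Ctx.h
        rw [r_not_cl D fun c' hc' hf => h7 ⟨c', hc', hf⟩]
        ring
      rw [h8]
      split_ifs
      · nlinarith [mul_le_mul_of_nonneg_left h3 hn]
      · nlinarith [mul_nonneg hn (h4.trans h3)]
  linarith

/-- The estimate of the missing transport in one cell. -/
theorem ee_cell_miss (hD : D.Ok) {c f0 : V} (hc : c ∈ D.CC) (ha : D.act c f0) (P : V)
    (hth : 1 - D.p.ga < D.th (D.s + 1) c P f0) :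
    (D.X.I (D.oc c f0) fun f => D.X.n P f * (D.Do c f0 - D.vo c P f)) ≤
      (4 * D.p.H * (2 * D.p.ga + 2 * D.p.e2 + D.p.e') + 6 * D.p.ep) *
        D.X.I (D.oc c f0) (D.X.n P) := by
  have hm := hD.X.m_nonneg
  have hH : 0 ≤ D.p.H := zero_le_one.trans hD.X.one_le
  have q2 := ed_I_n_vo_ge hD hc ha P
  have h1 := ed_I_n_le_ox hD ha P
  have h2 := ed_th1_mul hD c f0 P
  have h3 := ed_ms_oc_pos hD ha
  have h4 := Do_le hD hc ha
  have h5 := ed_ms_ox_le hD c f0 P
  have h6 : 0 ≤ D.X.ms (D.ed_ox c f0 P) := sum_nonneg fun f _ => hm f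
  have h7 : 0 ≤ D.Do c f0 := sum_nonneg fun f _ => hm f
  have h8 := th_le_one hD (D.s + 1) c P f0
  have hga0 := hD.ga0
  have hga1 := hD.ga1
  have he20 := hD.e20
  have he21 := hD.e21
  have he' := hD.e'0
  have hep := hD.ep0
  set x := D.X.ms (D.ed_ox c f0 P)
  set M := D.X.ms (D.oc c f0)
  set t := D.th (D.s + 1) c P f0
  set N := D.X.I (D.oc c f0) (D.X.n P)
  have h9 : (D.X.I (D.oc c f0) fun f => D.X.n P f * (D.Do c f0 - D.vo c P f)) =
      D.Do c f0 * N - D.X.I (D.oc c f0) fun f => D.X.n P f * D.vo c P f := by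
    simp only [N]
    unfold Sys.I
    rw [mul_sum, ← sum_sub_distrib]
    exact sum_congr rfl fun f _ => by ring
  rw [h9]
  have hNM : N ≤ M := by nlinarith
  have hN1 : (1 - D.p.ga) * M ≤ N := by
    rw [← h2]
    exact mul_le_mul_of_nonneg_right hth.le h3.le
  have hxM : x ≤ M := h5.trans hNM
  have hx1 : (1 - D.p.ga - D.p.e2) * M ≤ x := by linarith
  have hM2 : M ≤ 2 * N := by nlinarith
  have h10 : (1 - 2 * D.p.ga - 2 * D.p.e2) * M ≤ x ^ 2 / M := by
    rw [le_div_iff₀ h3]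
    have h11 : 0 ≤ (1 - D.p.ga - D.p.e2) * M := mul_nonneg (by linarith) h3.le
    have h12 : ((1 - D.p.ga - D.p.e2) * M) ^ 2 ≤ x ^ 2 := pow_le_pow_left₀ h11 hx1 2
    have h13 : (1 - 2 * D.p.ga - 2 * D.p.e2) * M * M ≤ ((1 - D.p.ga - D.p.e2) * M) ^ 2 := by
      nlinarith [sq_nonneg ((D.p.ga + D.p.e2) * M)]
    linarith
  have h14 : D.Do c f0 * N - D.Do c f0 * (x ^ 2 / M - D.p.e' * x) ≤
      D.Do c f0 * ((2 * D.p.ga + 2 * D.p.e2 + D.p.e') * M) := by
    rw [← mul_sub]
    refine mul_le_mul_of_nonneg_left ?_ h7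
    nlinarith [mul_le_mul_of_nonneg_left hxM he'.le]
  have h15 : D.Do c f0 * ((2 * D.p.ga + 2 * D.p.e2 + D.p.e') * M) ≤
      2 * D.p.H * ((2 * D.p.ga + 2 * D.p.e2 + D.p.e') * (2 * N)) := by
    refine mul_le_mul h4 ?_ (by positivity) (by positivity)
    exact mul_le_mul_of_nonneg_left hM2 (by positivity)
  have h16 : 6 * D.p.ep * x ≤ 6 * D.p.ep * N := mul_le_mul_of_nonneg_left h5 (by positivity)
  linarith

/-- Sum of the missing transport. -/
theorem ee_miss_part (hD : D.Ok) (P : V) :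
    ∑ c ∈ D.CC, (D.X.I (D.E c) fun f =>
      if D.act c f ∧ 1 - D.p.ga < D.th (D.s + 1) c P f then
        D.X.n P f * (D.Do c f - D.vo c P f) else 0) ≤
      4 * D.p.B0 * D.p.H ^ 2 * (2 * D.p.ga + 2 * D.p.e2 + D.p.e') +
      6 * D.p.ep * D.p.B0 * D.p.H := by
  have hm := hD.X.m_nonneg
  have hH : 0 ≤ D.p.H := zero_le_one.trans hD.X.one_le
  have hK : 0 ≤ 4 * D.p.H * (2 * D.p.ga + 2 * D.p.e2 + D.p.e') + 6 * D.p.ep := by
    have := hD.e'0
    have := hD.e20
    have := hD.ep0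
    have := hD.ga0
    positivity
  have h1 : ∀ c ∈ D.CC, (D.X.I (D.E c) fun f =>
      if D.act c f ∧ 1 - D.p.ga < D.th (D.s + 1) c P f then
        D.X.n P f * (D.Do c f - D.vo c P f) else 0) ≤ D.X.I (D.E c) fun f =>
        (4 * D.p.H * (2 * D.p.ga + 2 * D.p.e2 + D.p.e') + 6 * D.p.ep) * D.X.n P f := by
    intro c hc
    refine ed_I_le_cell (φ := D.φ (D.s + 1) c) fun f0 hf0 => ?_
    have h2 : (D.X.I (Sys.cell (D.E c) (D.φ (D.s + 1) c) f0) fun f =>
        (4 * D.p.H * (2 * D.p.ga + 2 * D.p.e2 + D.p.e') + 6 * D.p.ep) * D.X.n P f) =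
        (4 * D.p.H * (2 * D.p.ga + 2 * D.p.e2 + D.p.e') + 6 * D.p.ep) *
          D.X.I (D.oc c f0) (D.X.n P) := by
      unfold Sys.I oc
      rw [mul_sum]
      exact sum_congr rfl fun f _ => by ring
    rw [h2]
    have hn0 : 0 ≤ D.X.I (D.oc c f0) (D.X.n P) := by
      unfold Sys.I
      exact sum_nonneg fun f _ => mul_nonneg (hm f) (ee_n_nonneg' D P f)
    by_cases h3 : D.act c f0 ∧ 1 - D.p.ga < D.th (D.s + 1) c P f0
    · refine le_trans (le_of_eq ?_) (ee_cell_miss hD hc h3.1 P h3.2)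
      unfold Sys.I
      refine sum_congr rfl fun f hf => ?_
      have h5 : f ∈ D.oc c f0 := hf
      have h6 := ed_th1_eq P h5
      have h7 := (ed_act_iff h5 hf0).2 h3.1
      have h8 : D.Do c f = D.Do c f0 := by
        unfold Do
        rw [ed_oc_eq h5]
      simp only [h6, h7, h3.2, h8, and_self, if_true]
    · refine le_trans (le_of_eq ?_) (mul_nonneg hK hn0)
      unfold Sys.I
      refine sum_eq_zero fun f hf => ?_
      have h5 : f ∈ D.oc c f0 := hf
      have h6 := ed_th1_eq P h5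
      have h7 := ed_act_iff h5 hf0
      beta_reduce
      rw [if_neg, mul_zero]
      rw [h6, h7]
      exact h3
  refine (sum_le_sum h1).trans ?_
  have h2 : ∑ c ∈ D.CC, (D.X.I (D.E c) fun f =>
        (4 * D.p.H * (2 * D.p.ga + 2 * D.p.e2 + D.p.e') + 6 * D.p.ep) * D.X.n P f) =
      (4 * D.p.H * (2 * D.p.ga + 2 * D.p.e2 + D.p.e') + 6 * D.p.ep) *
        ∑ c ∈ D.CC, D.X.I (D.E c) (D.X.n P) := by
    rw [mul_sum]
    refine sum_congr rfl fun c _ => ?_
    unfold Sys.I
    rw [mul_sum]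
    exact sum_congr rfl fun f _ => by ring
  rw [h2]
  refine (mul_le_mul_of_nonneg_left (ed_sum_I_n_E hD P) hK).trans (le_of_eq ?_)
  ring

/-- The weight of the class part. -/
noncomputable def ee_wt (D : Ctx V) (P c c' f : V) : ℝ :=
  if f ∈ D.E c ∧ (D.act c f ∧ 1 - D.p.ga < D.th (D.s + 1) c P f) ∧ f ∈ D.dm c' P ∧
    D.th D.s c' P f ≤ 1 - D.p.be ∧ D.th (D.s + 3) c' P f ≤ 1 - D.p.be / 2
  then D.Do c f / (1 - D.th (D.s + 3) c' P f) else 0

theorem ee_wt_meas (hD : D.Ok) (P : V) {c c' : V} (hc : c ∈ D.CC) (hc' : c' ∈ D.CC)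
    (hov : D.p.del (D.s + 1) ≤ D.ov c c') : Meas (D.E c') (D.φ (D.s + 3) c') (D.ee_wt P c c') := by
  intro f hf g hg h
  have hs := hD.s_lt
  have hov' : D.p.del (D.s + 2) ≤ D.ov c' c := by
    refine (hD.del1 (D.s + 1)).trans (hov.trans (le_of_eq ?_))
    unfold ov
    rw [inter_comm]
  have h1 := tr_of_le hD (a := D.s + 1) (r := D.s + 2) (by omega) (by omega) hc' hc hov' hf hg h
  have h2 : D.φ (D.s + 2) c' f = D.φ (D.s + 2) c' g :=
    ref_of_le hD (a := D.s + 2) (b := D.s + 3) (by omega) (by omega) hc' f hf g hg h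
  have h3 : D.φ D.s c' f = D.φ D.s c' g :=
    ref_of_le hD (a := D.s) (b := D.s + 3) (by omega) (by omega) hc' f hf g hg h
  have h4 := dm_meas hD hc' P hf hg h2
  have h5 := ee_th_congr (D := D) P h3
  have h6 := ee_th_congr (D := D) P h
  unfold ee_wt
  by_cases h7 : f ∈ D.E c
  · have h8 : g ∈ D.E c := h1.1.1 h7
    have h9 : D.φ (D.s + 1) c f = D.φ (D.s + 1) c g := h1.2 h7
    have h10 : D.oc c f = D.oc c g := by
      unfold oc Sys.cell
      rw [h9]
    have h11 : D.act c f ↔ D.act c g := by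
      unfold act
      rw [h10]
      tauto
    have h12 := ee_th_congr (D := D) P h9
    have h13 : D.Do c f = D.Do c g := by
      unfold Do
      rw [h10]
    have key : (f ∈ D.E c ∧ (D.act c f ∧ 1 - D.p.ga < D.th (D.s + 1) c P f) ∧ f ∈ D.dm c' P ∧
        D.th D.s c' P f ≤ 1 - D.p.be ∧ D.th (D.s + 3) c' P f ≤ 1 - D.p.be / 2) ↔
        (g ∈ D.E c ∧ (D.act c g ∧ 1 - D.p.ga < D.th (D.s + 1) c P g) ∧ g ∈ D.dm c' P ∧
        D.th D.s c' P g ≤ 1 - D.p.be ∧ D.th (D.s + 3) c' P g ≤ 1 - D.p.be / 2) := by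
      rw [h4, h5, h6, h11, h12]
      simp only [h7, h8]
    by_cases hk : g ∈ D.E c ∧ (D.act c g ∧ 1 - D.p.ga < D.th (D.s + 1) c P g) ∧
        g ∈ D.dm c' P ∧ D.th D.s c' P g ≤ 1 - D.p.be ∧ D.th (D.s + 3) c' P g ≤ 1 - D.p.be / 2
    · rw [if_pos (key.2 hk), if_pos hk, h6, h13]
    · rw [if_neg fun h => hk (key.1 h), if_neg hk]
  · have h8 : g ∉ D.E c := fun h9 => h7 (h1.1.2 h9)
    rw [if_neg fun h9 => h7 h9.1, if_neg fun h9 => h8 h9.1]

theorem ee_wt_nonneg (hD : D.Ok) (P c c' f : V) : 0 ≤ D.ee_wt P c c' f := by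
  have hbe := hD.be0
  unfold ee_wt
  split_ifs with h
  · have h1 : 0 ≤ D.Do c f := sum_nonneg fun f _ => hD.X.m_nonneg f
    exact div_nonneg h1 (by linarith [h.2.2.2.2])
  · exact le_rfl

theorem ee_wt_le (hD : D.Ok) (P : V) {c : V} (hc : c ∈ D.CC) (c' f : V) :
    D.ee_wt P c c' f ≤ 4 * D.p.H / D.p.be := by
  have hbe := hD.be0
  have hH : 0 ≤ D.p.H := zero_le_one.trans hD.X.one_le
  unfold ee_wt
  split_ifs with h
  · have h1 := Do_le hD hc h.2.1.1
    have h2 : 0 < 1 - D.th (D.s + 3) c' P f := by linarith [h.2.2.2.2]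
    rw [div_le_div_iff₀ h2 hbe]
    have h3 : D.p.be / 2 ≤ 1 - D.th (D.s + 3) c' P f := by linarith [h.2.2.2.2]
    have h4 := mul_le_mul_of_nonneg_left h3 (show 0 ≤ 4 * D.p.H by positivity)
    have h5 := mul_le_mul_of_nonneg_right h1 hbe.le
    linarith
  · positivity

theorem ee_abs_th_sub (hD : D.Ok) (r : ℕ) (c P f : V) : |D.th r c P f - D.X.n P f| ≤ 1 := by
  have h1 := th_nonneg hD r c P f
  have h2 := th_le_one hD r c P f
  rw [abs_le]
  rcases ee_n_zero_or_one D P f with h | h <;> rw [h] <;> constructor <;> linarith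

theorem ee_dm_sub_E (c Z : V) : D.dm c Z ⊆ D.E c := fun _ hf =>
  (mem_filter.1 (mem_filter.1 hf).1).1

theorem ee_wt_dm {P c c' f : V} (h : f ∉ D.dm c' P) : D.ee_wt P c c' f = 0 :=
  if_neg fun h1 => h h1.2.2.1

/-- Class part, term with worlds `c`, `c'`. -/
noncomputable def ee_tE (D : Ctx V) (P c c' : V) : ℝ := ∑ f, D.X.m f *
  (if f ∈ D.dom c' P then D.ee_wt P c c' f * (D.th (D.s + 3) c' P f - D.X.n P f) else 0)

theorem ee_tE_le (hD : D.Ok) (P : V) {c c' : V} (hc : c ∈ D.CC) (hc' : c' ∈ D.CC) :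
    D.ee_tE P c c' ≤ 4 * D.p.H / D.p.be * (D.X.ms (D.dm c' P \ D.dom c' P) +
      if c' ∈ D.R P then D.p.del (D.s + 1) else 0) := by
  have hm := hD.X.m_nonneg
  have hbe := hD.be0
  have hH : 0 ≤ D.p.H := zero_le_one.trans hD.X.one_le
  have hdel := hD.del0 (D.s + 1)
  have hms : 0 ≤ D.X.ms (D.dm c' P \ D.dom c' P) := sum_nonneg fun f _ => hm f
  have hb : ∀ f, |D.ee_wt P c c' f * (D.th (D.s + 3) c' P f - D.X.n P f)| ≤
      4 * D.p.H / D.p.be := by
    intro f
    rw [abs_mul, abs_of_nonneg (ee_wt_nonneg hD P c c' f)]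
    have h1 := mul_le_mul (ee_wt_le hD P hc c' f) (ee_abs_th_sub hD (D.s + 3) c' P f) (abs_nonneg _)
      (by positivity : (0 : ℝ) ≤ 4 * D.p.H / D.p.be)
    linarith
  by_cases hov : D.p.del (D.s + 1) ≤ D.ov c c'
  · have h1 : (D.X.I (D.E c') fun f => D.ee_wt P c c' f * D.X.n P f) =
        D.X.I (D.E c') fun f => D.ee_wt P c c' f * D.th (D.s + 3) c' P f :=
      I_mul_avg hm (ee_wt_meas hD P hc hc' hov) _
    have h2 : ∑ f, D.X.m f * (D.ee_wt P c c' f * (D.th (D.s + 3) c' P f - D.X.n P f)) = 0 := by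
      rw [← sum_subset (subset_univ (D.E c'))]
      · unfold Sys.I at h1
        have h3 : ∑ f ∈ D.E c', D.X.m f *
            (D.ee_wt P c c' f * (D.th (D.s + 3) c' P f - D.X.n P f)) =
            ∑ f ∈ D.E c', D.X.m f * (D.ee_wt P c c' f * D.th (D.s + 3) c' P f) -
            ∑ f ∈ D.E c', D.X.m f * (D.ee_wt P c c' f * D.X.n P f) := by
          rw [← sum_sub_distrib]
          exact sum_congr rfl fun f _ => by ring
        rw [h3, h1, sub_self]
      · intro f _ hf
        rw [ee_wt_dm fun h => hf (ee_dm_sub_E _ _ h)]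
        ring
    have h3 : D.ee_tE P c c' ≤ ∑ f ∈ D.dm c' P \ D.dom c' P, D.X.m f * (4 * D.p.H / D.p.be) := by
      have h4 : D.ee_tE P c c' = D.ee_tE P c c' -
          ∑ f, D.X.m f * (D.ee_wt P c c' f * (D.th (D.s + 3) c' P f - D.X.n P f)) := by
        rw [h2, sub_zero]
      rw [h4]
      unfold ee_tE
      rw [← sum_sub_distrib, ← sum_subset (subset_univ (D.dm c' P \ D.dom c' P))]
      · refine sum_le_sum fun f hf => ?_
        rw [if_neg (mem_sdiff.1 hf).2, ← mul_sub]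
        refine mul_le_mul_of_nonneg_left ?_ (hm f)
        have := neg_abs_le (D.ee_wt P c c' f * (D.th (D.s + 3) c' P f - D.X.n P f))
        linarith [hb f]
      · intro f _ hf
        by_cases h5 : f ∈ D.dom c' P
        · rw [if_pos h5, sub_self]
        · rw [if_neg h5, ee_wt_dm fun h => hf (mem_sdiff.2 ⟨h, h5⟩)]
          ring
    refine h3.trans ?_
    rw [← sum_mul, mul_comm]
    refine mul_le_mul_of_nonneg_left ?_ (by positivity)
    unfold Sys.ms
    split_ifs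
    · linarith
    · linarith
  · have hov' := not_le.1 hov
    by_cases hR : c' ∈ D.R P
    · rw [if_pos hR]
      have h3 : D.ee_tE P c c' ≤ ∑ f ∈ D.E c ∩ D.E c', D.X.m f * (4 * D.p.H / D.p.be) := by
        unfold ee_tE
        rw [← sum_subset (subset_univ (D.E c ∩ D.E c'))]
        · refine sum_le_sum fun f _ => mul_le_mul_of_nonneg_left ?_ (hm f)
          split_ifs
          · exact (le_abs_self _).trans (hb f)
          · positivity
        · intro f _ hf
          split_ifs with h4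
          · have h5 : D.ee_wt P c c' f = 0 := by
              unfold ee_wt
              rw [if_neg]
              intro h6
              exact hf (mem_inter.2 ⟨h6.1, ee_dm_sub_E _ _ h6.2.2.1⟩)
            rw [h5]
            ring
          · ring
      refine h3.trans ?_
      rw [← sum_mul, mul_comm]
      refine mul_le_mul_of_nonneg_left ?_ (by positivity)
      have : ∑ f ∈ D.E c ∩ D.E c', D.X.m f = D.ov c c' := rfl
      linarith
    · rw [if_neg hR, add_zero]
      have h3 : D.ee_tE P c c' = 0 := by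
        unfold ee_tE
        refine sum_eq_zero fun f _ => ?_
        rw [if_neg, mul_zero]
        exact fun h => hR (mem_filter.1 h).2.1
      rw [h3]
      positivity

theorem ee_class_eq (hD : D.Ok) (P c : V) :
    (D.X.I (D.E c) fun f =>
      if D.act c f ∧ 1 - D.p.ga < D.th (D.s + 1) c P f then D.Do c f * D.hcl P f else 0) =
      ∑ c' ∈ D.CC, D.ee_tE P c c' := by
  unfold ee_tE Sys.I
  rw [sum_comm]
  rw [← sum_subset (subset_univ (D.E c))]
  · refine sum_congr rfl fun f hf => ?_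
    rw [← mul_sum]
    congr 1
    by_cases h1 : ∃ c' ∈ D.CC, f ∈ D.cl c' P
    · obtain ⟨c', hc', h2⟩ := h1
      rw [sum_eq_single c' (fun b _ hb => if_neg fun h3 => hb
        (dom_unique hD h3 (ed_cl_sub_dom _ _ h2))) (fun h3 => absurd hc' h3)]
      rw [if_pos (ed_cl_sub_dom _ _ h2)]
      have h3 := mem_filter.1 h2
      have h4 : f ∈ D.dm c' P := dom_sub_dm D c' P h3.1
      have h5 : D.hcl P f = D.h P f := if_pos ⟨c', hc', h2⟩
      beta_reduce
      rw [h5, h_cl hD h2]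
      by_cases h6 : D.act c f ∧ 1 - D.p.ga < D.th (D.s + 1) c P f
      · have h7 : D.ee_wt P c c' f = D.Do c f / (1 - D.th (D.s + 3) c' P f) :=
          if_pos ⟨hf, h6, h4, h3.2⟩
        rw [if_pos h6, h7]
        ring
      · have h7 : D.ee_wt P c c' f = 0 := if_neg fun h => h6 h.2.1
        rw [if_neg h6, h7, zero_mul]
    · have h2 : ∀ c' ∈ D.CC, f ∉ D.cl c' P := fun c' hc' h => h1 ⟨c', hc', h⟩
      unfold hcl
      beta_reduce
      rw [if_neg h1, mul_zero, ite_self]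
      refine (sum_eq_zero fun c' hc' => ?_).symm
      split_ifs with h3
      · have h4 : D.ee_wt P c c' f = 0 := by
          unfold ee_wt
          rw [if_neg]
          intro h5
          exact h2 c' hc' (mem_filter.2 ⟨h3, h5.2.2.2⟩)
        rw [h4, zero_mul]
      · rfl
  · intro f _ hf
    refine sum_eq_zero fun c' _ => ?_
    have h4 : D.ee_wt P c c' f = 0 := by
      unfold ee_wt
      rw [if_neg]
      exact fun h5 => hf h5.1
    rw [h4]
    simp

/-- Worlds with an own cell that is nearly complete to `P`. -/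
noncomputable def ee_wB (D : Ctx V) (P : V) : Finset V := D.CC.filter fun c =>
  ∃ f ∈ D.E c, D.act c f ∧ 1 - D.p.ga < D.th (D.s + 1) c P f

theorem ee_card_wB (hD : D.Ok) (P : V) :
    ((D.ee_wB P).card : ℝ) * (D.p.mu (D.s + 1) / 2) ≤ D.p.B0 * D.p.H := by
  have hm := hD.X.m_nonneg
  have h1 : ∀ c ∈ D.ee_wB P, D.p.mu (D.s + 1) / 2 ≤ D.X.I (D.E c) (D.X.n P) := by
    intro c hc
    obtain ⟨f, hf, ha, hth⟩ := (mem_filter.1 hc).2
    have h2 := ed_th1_mul hD c f P
    have h3 := ed_ms_oc_pos hD ha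
    have h4 := hD.ga1
    have h5 : D.p.mu (D.s + 1) ≤ D.X.ms (D.oc c f) := ha.2.2.1
    have h6 : D.X.I (D.oc c f) (D.X.n P) ≤ D.X.I (D.E c) (D.X.n P) :=
      sum_le_sum_of_subset_of_nonneg (ed_oc_sub c f) fun g _ _ =>
        mul_nonneg (hm g) (ee_n_nonneg' D P g)
    refine le_trans ?_ h6
    rw [← h2]
    nlinarith
  have h2 : ∑ c ∈ D.ee_wB P, D.p.mu (D.s + 1) / 2 ≤ ∑ c ∈ D.CC, D.X.I (D.E c) (D.X.n P) := by
    refine (sum_le_sum h1).trans ?_
    refine sum_le_sum_of_subset_of_nonneg (filter_subset _ _) fun c _ _ => ?_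
    exact sum_nonneg fun g _ => mul_nonneg (hm g) (ee_n_nonneg' D P g)
  rw [sum_const, nsmul_eq_mul] at h2
  exact h2.trans (ed_sum_I_n_E hD P)

/-- The class part. -/
theorem ee_class_part (hD : D.Ok) (P : V) :
    ∑ c ∈ D.CC, (D.X.I (D.E c) fun f =>
      if D.act c f ∧ 1 - D.p.ga < D.th (D.s + 1) c P f then D.Do c f * D.hcl P f else 0) ≤
      8 * D.p.B0 * D.p.H ^ 2 / (D.p.be * D.p.mu (D.s + 1)) *
        ((D.RR ^ 2 + D.RR) * D.p.del (D.s + 1)) := by
  have hbe := hD.be0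
  have hmu := hD.mu0 (D.s + 1)
  have hH : 0 ≤ D.p.H := zero_le_one.trans hD.X.one_le
  have hdel := hD.del0 (D.s + 1)
  have hRR : 0 ≤ D.RR := (Nat.cast_nonneg _).trans (card_R hD P)
  set K := 4 * D.p.H / D.p.be * ((D.RR ^ 2 + D.RR) * D.p.del (D.s + 1)) with hK
  have hK0 : 0 ≤ K := by positivity
  have h1 : ∀ c ∈ D.CC, (D.X.I (D.E c) fun f =>
      if D.act c f ∧ 1 - D.p.ga < D.th (D.s + 1) c P f then D.Do c f * D.hcl P f else 0) ≤
      if c ∈ D.ee_wB P then K else 0 := by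
    intro c hc
    split_ifs with h2
    · rw [ee_class_eq hD]
      refine (sum_le_sum fun c' hc' => ee_tE_le hD P hc hc').trans ?_
      rw [← mul_sum, sum_add_distrib, hK]
      refine mul_le_mul_of_nonneg_left ?_ (by positivity)
      have h3 := sum_dm_diff hD P
      have h4 : ∑ c' ∈ D.CC, (if c' ∈ D.R P then D.p.del (D.s + 1) else 0) ≤
          D.RR * D.p.del (D.s + 1) := by
        rw [← sum_filter, sum_const, nsmul_eq_mul]
        refine mul_le_mul_of_nonneg_right ?_ hdel.le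
        refine le_trans ?_ (card_R hD P)
        exact_mod_cast card_le_card fun x hx => (mem_filter.1 hx).2
      linarith
    · unfold Sys.I
      refine le_of_eq (sum_eq_zero fun f hf => ?_)
      beta_reduce
      rw [if_neg, mul_zero]
      exact fun h3 => h2 (mem_filter.2 ⟨hc, f, hf, h3⟩)
  refine (sum_le_sum h1).trans ?_
  rw [← sum_filter, sum_const, nsmul_eq_mul]
  have h2 : ((D.CC.filter fun c => c ∈ D.ee_wB P).card : ℝ) ≤ 2 * D.p.B0 * D.p.H / D.p.mu (D.s + 1) := by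
    have h3 := ee_card_wB hD P
    have h4 : ((D.CC.filter fun c => c ∈ D.ee_wB P).card : ℝ) ≤ (D.ee_wB P).card := by
      exact_mod_cast card_le_card fun x hx => (mem_filter.1 hx).2
    rw [le_div_iff₀ hmu]
    nlinarith
  refine (mul_le_mul_of_nonneg_right h2 hK0).trans (le_of_eq ?_)
  rw [hK]
  field_simp
  ring

/-- (IVd) -/
theorem est_IVd (hD : D.Ok) (P : V) :
    ∑ c ∈ D.CC, (D.X.I (D.E c) fun f =>
      if D.act c f ∧ 1 - D.p.ga < D.th (D.s + 1) c P f then
        D.h P f * D.vo c P f + (if f ∈ D.ncs P then D.X.n P f * D.kapc c P f else 0)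
      else 0) ≤
      4 * D.p.B0 * D.p.H ^ 2 * (2 * D.p.ga + 2 * D.p.e2 + D.p.e') +
      6 * D.p.ep * D.p.B0 * D.p.H +
      8 * D.p.B0 * D.p.H ^ 2 / (D.p.be * D.p.mu (D.s + 1)) *
        ((D.RR ^ 2 + D.RR) * D.p.del (D.s + 1)) := by
  have hm := hD.X.m_nonneg
  have h1 : ∑ c ∈ D.CC, (D.X.I (D.E c) fun f =>
      if D.act c f ∧ 1 - D.p.ga < D.th (D.s + 1) c P f then
        D.h P f * D.vo c P f + (if f ∈ D.ncs P then D.X.n P f * D.kapc c P f else 0)
      else 0) ≤
      ∑ c ∈ D.CC, (D.X.I (D.E c) fun f =>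
        if D.act c f ∧ 1 - D.p.ga < D.th (D.s + 1) c P f then
          D.X.n P f * (D.Do c f - D.vo c P f) else 0) +
      ∑ c ∈ D.CC, (D.X.I (D.E c) fun f =>
        if D.act c f ∧ 1 - D.p.ga < D.th (D.s + 1) c P f then D.Do c f * D.hcl P f else 0) := by
    rw [← sum_add_distrib]
    refine sum_le_sum fun c hc => ?_
    unfold Sys.I
    rw [← sum_add_distrib]
    refine sum_le_sum fun f _ => ?_
    beta_reduce
    rw [← mul_add]
    refine mul_le_mul_of_nonneg_left ?_ (hm f)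
    by_cases h2 : D.act c f ∧ 1 - D.p.ga < D.th (D.s + 1) c P f
    · rw [if_pos h2, if_pos h2, if_pos h2]
      have := ee_point_le hD hc h2.1 P
      linarith
    · rw [if_neg h2, if_neg h2, if_neg h2, add_zero]
  have h2 := ee_miss_part hD P
  have h3 := ee_class_part hD P
  linarith

end Ctx

end Pool.Agent.AcyS
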