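import Pool.Agent.AcyS.Final0

/-! # The constants of the static theorem (project MP_af9dfb_S, module S15, part 1) -/

set_option autoImplicit false
set_option linter.unusedSectionVars false

namespace Pool.Agent.AcyS

/-- The conditions on the basic constants. -/
structure FBase (H η q0 : ℝ) (b : ℕ) (ga e' e1 e2 e3 eG ep be cG : ℝ) (S : ℕ) : Prop where
  ga0 : 0 < ga
  ga1 : ga ≤ 1 / 8
  e'0 : 0 < e'
  e10 : 0 < e1
  e20 : 0 < e2
  e21 : e2 ≤ 1 / 8
  e30 : 0 < e3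
  e1e : e1 = e2 * e3 / 2
  eG0 : 0 < eG
  ep0 : 0 < ep
  ep1 : 3 * ep ≤ H
  be0 : 0 < be
  be1 : be ≤ 1 / 12
  bega : be ≤ ga / 4
  S1 : 1 ≤ S
  cG0 : 0 < cG
  good : 1 / (ep * e1) * ((4 * b + 1) / be ^ 2 * (4 * H ^ 2 / S) + 6 * be * H ^ 2 +
    2 * H ^ 2 / S + cG) ≤ eG / 2
  eGq : 2 * H * (q0 * H) * eG ≤ η / 20
  inc1 : (4 * H / be ^ 2 + 9 * b * H * (4 / ga ^ 2 + 16)) * (4 * b * H / S) ≤ η / 20
  inc2 : 6 * b * H ^ 2 / (be * ga) * Real.sqrt (4 * b * H / S) ≤ η / 20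
  inc3 : 4 / be ^ 2 * (H * (4 * b * H / S)) ≤ η / 20
  inc4 : 2 / be * (Real.sqrt (2 * b * H) * (H * Real.sqrt (4 * b * H / S))) ≤ η / 20
  cst : (10 + 6 / ga) * ep * b * H +
    (be + 2 * e3 + 2 * (e' + e2) / ga + 4 * (2 * ga + 2 * e2 + e')) * b * H ^ 2 ≤ η / 4

theorem fi_base {H η q0 : ℝ} {b : ℕ} (hH : 1 ≤ H) (hη : 0 < η) (hη1 : η ≤ 1) (hq : 0 < q0)
    (hb : 1 ≤ b) : ∃ (ga e' e1 e2 e3 eG ep be cG : ℝ) (S : ℕ),
      FBase H η q0 b ga e' e1 e2 e3 eG ep be cG S := by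
  have hb0 : (0 : ℝ) < b := by exact_mod_cast hb
  have hb1 : (1 : ℝ) ≤ b := by exact_mod_cast hb
  have hH0 : 0 < H := by linarith
  have hH2 : 1 ≤ H ^ 2 := one_le_pow₀ hH
  set κ := η / (100 * b * H ^ 2) with hκ
  have κ0 : 0 < κ := by positivity
  have hbH : 1 ≤ b * H ^ 2 := by nlinarith
  have κe : κ * b * H ^ 2 = η / 100 := by
    rw [hκ]; field_simp
  have κ1 : κ ≤ 1 / 100 := by
    have h1 : κ * 1 ≤ κ * (b * H ^ 2) := mul_le_mul_of_nonneg_left hbH κ0.le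
    nlinarith [κe]
  set e1 := κ ^ 2 * κ / 2 with he1
  have e10 : 0 < e1 := by positivity
  set eG := η / (40 * q0 * H ^ 2) with heG
  have eG0 : 0 < eG := by positivity
  set ep := κ * η / (320 * b * H) with hep
  have ep0 : 0 < ep := by positivity
  have epe : 16 / κ * ep * b * H = η / 20 := by
    rw [hep]; field_simp; norm_num
  have ep1 : ep ≤ 1 / 100 := by
    have h320 : 1 ≤ 320 * b * H := by nlinarith
    rw [hep, div_le_iff₀ (by positivity)]
    calc κ * η ≤ 1 / 100 * 1 := mul_le_mul κ1 hη1 hη.le (by norm_num)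
      _ ≤ 1 / 100 * (320 * b * H) := mul_le_mul_of_nonneg_left h320 (by norm_num)
  set cG := ep * e1 * eG / 8 with hcG
  have cG0 : 0 < cG := by positivity
  set be := min (κ / 4) (cG / (6 * H ^ 2)) with hbe
  have be0 : 0 < be := lt_min (by positivity) (by positivity)
  have be1 : be ≤ κ / 4 := min_le_left _ _
  have be2 : 6 * be * H ^ 2 ≤ cG := by
    have h : be ≤ cG / (6 * H ^ 2) := min_le_right _ _
    rw [le_div_iff₀ (by positivity)] at h
    linarith
  -- the number of levels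
  set a1 := (4 * b + 1) / be ^ 2 * (4 * H ^ 2) with ha1
  set a2 := 2 * H ^ 2 with ha2
  set a3 := (4 * H / be ^ 2 + 9 * b * H * (4 / κ ^ 2 + 16)) * (4 * b * H) with ha3
  set a4 := 4 / be ^ 2 * (H * (4 * b * H)) with ha4
  set s1 := 6 * b * H ^ 2 / (be * κ) with hs1
  set s2 := 2 / be * (Real.sqrt (2 * b * H) * H) with hs2
  have a10 : 0 < a1 := by positivity
  have a20 : 0 < a2 := by positivity
  have a30 : 0 < a3 := by positivity
  have a40 : 0 < a4 := by positivity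
  have s10 : 0 < s1 := by positivity
  have s20 : 0 < s2 := by positivity
  obtain ⟨z, z0, -, z2⟩ := fi_small (K := s1 + s2) (e := η / 20) (d0 := 1) (by positivity)
    (by positivity) one_pos
  obtain ⟨y, y0, y1, y2⟩ := fi_small (K := a1 + a2 + a3 + a4 + 4 * b * H)
    (e := min (min cG (η / 20)) (z ^ 2)) (d0 := 1) (by positivity)
    (lt_min (lt_min cG0 (by positivity)) (by positivity)) one_pos
  obtain ⟨S, hS⟩ := exists_nat_ge (1 / y)
  have hS0 : (0 : ℝ) < S := lt_of_lt_of_le (by positivity) hS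
  have hS1 : 1 ≤ S := by
    have : 0 < S := by exact_mod_cast hS0
    omega
  have hSy : 1 / (S : ℝ) ≤ y := by
    rw [div_le_iff₀ hS0]
    rw [div_le_iff₀ y0] at hS
    linarith
  have hdiv : ∀ a : ℝ, 0 ≤ a → a / S ≤ a * y := by
    intro a ha
    rw [div_eq_mul_one_div]
    exact mul_le_mul_of_nonneg_left hSy ha
  have hyc : ∀ k : ℝ, k ≤ a1 + a2 + a3 + a4 + 4 * b * H → k * y ≤ cG := fun k hk =>
    le_trans (y2 k hk) (le_trans (min_le_left _ _) (min_le_left _ _))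
  have hye : ∀ k : ℝ, k ≤ a1 + a2 + a3 + a4 + 4 * b * H → k * y ≤ η / 20 := fun k hk =>
    le_trans (y2 k hk) (le_trans (min_le_left _ _) (min_le_right _ _))
  have hbH' : (0 : ℝ) < 4 * b * H := by positivity
  have hsq : Real.sqrt (4 * b * H / S) ≤ z := by
    refine (Real.sqrt_le_left z0.le).2 ?_
    refine le_trans (hdiv _ hbH'.le) ?_
    exact le_trans (y2 _ (by linarith)) (min_le_right _ _)
  refine ⟨κ, κ ^ 2, e1, κ ^ 2, κ, eG, ep, be, cG, S, ?_⟩
  have κ2 : κ ^ 2 ≤ κ / 100 := by nlinarith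
  constructor
  · exact κ0
  · linarith
  · positivity
  · exact e10
  · positivity
  · linarith
  · exact κ0
  · exact he1
  · exact eG0
  · exact ep0
  · linarith
  · exact be0
  · linarith
  · exact be1
  · exact hS1
  · exact cG0
  · have h1 : (4 * b + 1) / be ^ 2 * (4 * H ^ 2 / S) ≤ cG := by
      rw [← mul_div_assoc]
      exact le_trans (hdiv _ a10.le) (hyc _ (by linarith))
    have h2 : 2 * H ^ 2 / (S : ℝ) ≤ cG := le_trans (hdiv _ a20.le) (hyc _ (by linarith))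
    have h3 : (4 * b + 1) / be ^ 2 * (4 * H ^ 2 / S) + 6 * be * H ^ 2 + 2 * H ^ 2 / S + cG ≤
        4 * cG := by linarith
    calc 1 / (ep * e1) * ((4 * b + 1) / be ^ 2 * (4 * H ^ 2 / S) + 6 * be * H ^ 2 +
        2 * H ^ 2 / S + cG) ≤ 1 / (ep * e1) * (4 * cG) :=
          mul_le_mul_of_nonneg_left h3 (by positivity)
      _ = eG / 2 := by rw [hcG]; field_simp; norm_num
  · rw [heG]
    exact le_of_eq (by field_simp; norm_num)
  · rw [← mul_div_assoc]
    exact le_trans (hdiv _ a30.le) (hye _ (by linarith))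
  · calc s1 * Real.sqrt (4 * b * H / S) ≤ s1 * z := mul_le_mul_of_nonneg_left hsq s10.le
      _ ≤ η / 20 := z2 _ (by linarith)
  · have h : 4 / be ^ 2 * (H * (4 * b * H / S)) = a4 / S := by
      rw [ha4]; ring
    rw [h]
    exact le_trans (hdiv _ a40.le) (hye _ (by linarith))
  · have h : 2 / be * (Real.sqrt (2 * b * H) * (H * Real.sqrt (4 * b * H / S))) =
        s2 * Real.sqrt (4 * b * H / S) := by
      rw [hs2]; ring
    rw [h]
    calc s2 * Real.sqrt (4 * b * H / S) ≤ s2 * z := mul_le_mul_of_nonneg_left hsq s20.le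
      _ ≤ η / 20 := z2 _ (by linarith)
  · have h1 : (10 + 6 / κ) * ep * b * H ≤ η / 20 := by
      have h10 : 10 + 6 / κ ≤ 16 / κ := by
        have h15 : 10 ≤ 10 / κ := by
          rw [le_div_iff₀ κ0]; linarith only [κ1]
        have h16 : 16 / κ = 10 / κ + 6 / κ := by ring
        linarith only [h15, h16]
      calc (10 + 6 / κ) * ep * b * H = (10 + 6 / κ) * (ep * b * H) := by ring
        _ ≤ 16 / κ * (ep * b * H) := mul_le_mul_of_nonneg_right h10 (by positivity)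
        _ = 16 / κ * ep * b * H := by ring
        _ = η / 20 := epe
    have h2 : (be + 2 * κ + 2 * (κ ^ 2 + κ ^ 2) / κ + 4 * (2 * κ + 2 * κ ^ 2 + κ ^ 2)) ≤
        17 * κ := by
      have h3 : 2 * (κ ^ 2 + κ ^ 2) / κ = 4 * κ := by field_simp; ring
      rw [h3]
      clear_value be
      linarith only [be1, κ2, κ0]
    have h4 : (be + 2 * κ + 2 * (κ ^ 2 + κ ^ 2) / κ + 4 * (2 * κ + 2 * κ ^ 2 + κ ^ 2)) * b *
        H ^ 2 ≤ 17 * (κ * b * H ^ 2) := by
      calc (be + 2 * κ + 2 * (κ ^ 2 + κ ^ 2) / κ + 4 * (2 * κ + 2 * κ ^ 2 + κ ^ 2)) * b * H ^ 2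
          = (be + 2 * κ + 2 * (κ ^ 2 + κ ^ 2) / κ + 4 * (2 * κ + 2 * κ ^ 2 + κ ^ 2)) *
            (b * H ^ 2) := by ring
        _ ≤ 17 * κ * (b * H ^ 2) := mul_le_mul_of_nonneg_right h2 (by positivity)
        _ = 17 * (κ * b * H ^ 2) := by ring
    rw [κe] at h4
    linarith only [h1, h4, hη]

end Pool.Agent.AcyS
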