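import Pool.Agent.AcyS.Avg
import Pool.Agent.AcyS.Cmp

/-! # The good sets are large (project MP_af9dfb_S, row S13) -/

set_option autoImplicit false
set_option linter.unusedSectionVars false

namespace Pool.Agent.AcyS

open Finset
open scoped Classical

universe u

variable {V : Type u} [Fintype V]

theorem gd_mp (X : Sys V) (p : V → Prop) [DecidablePred p] :
    X.mp p = X.I univ fun Z => if p Z then 1 else 0 := by
  unfold Sys.mp Sys.ms Sys.I
  rw [Finset.sum_filter]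
  refine Finset.sum_congr rfl fun f _ => ?_
  by_cases h : p f <;> simp [h]

theorem gd_I_n (X : Sys V) (E : Finset V) (Z : V) : X.I E (X.n Z) = X.ms (E ∩ X.nb Z) := by
  unfold Sys.ms Sys.I Sys.n Sys.nb
  rw [← Finset.filter_mem_eq_inter, Finset.sum_filter]
  refine Finset.sum_congr rfl fun f _ => ?_
  simp only [mem_filter, mem_univ, true_and]
  split_ifs <;> simp

theorem gd_I_smul (X : Sys V) (E : Finset V) (a : ℝ) (g : V → ℝ) :
    (X.I E fun f => a * g f) = a * X.I E g := by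
  unfold Sys.I
  rw [Finset.mul_sum]
  exact Finset.sum_congr rfl fun f _ => by ring

theorem gd_I_nonneg {X : Sys V} (hm : ∀ f, 0 ≤ X.m f) (E : Finset V) {g : V → ℝ}
    (hg : ∀ f ∈ E, 0 ≤ g f) : 0 ≤ X.I E g :=
  Finset.sum_nonneg fun f hf => mul_nonneg (hm f) (hg f hf)

theorem gd_I_const (X : Sys V) (E : Finset V) (a : ℝ) : (X.I E fun _ => a) = a * X.ms E := by
  unfold Sys.I Sys.ms
  rw [Finset.mul_sum]
  exact Finset.sum_congr rfl fun f _ => by ring

theorem gd_I_sum {ι : Type*} (X : Sys V) (E : Finset V) (S : Finset ι) (F : ι → V → ℝ) :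
    (X.I E fun f => ∑ i ∈ S, F i f) = ∑ i ∈ S, X.I E (F i) := by
  unfold Sys.I
  rw [Finset.sum_comm]
  exact Finset.sum_congr rfl fun f _ => Finset.mul_sum _ _ _

theorem gd_I_ite (X : Sys V) (E A : Finset V) (g : V → ℝ) :
    (X.I E fun f => if f ∈ A then g f else 0) = X.I (E ∩ A) g := by
  unfold Sys.I
  rw [← Finset.filter_mem_eq_inter, Finset.sum_filter]
  refine Finset.sum_congr rfl fun f _ => ?_
  by_cases h : f ∈ A <;> simp [h]

/-- Sum of the masses of the sets of a labelling. -/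
theorem gd_fiber (X : Sys V) (E : Finset V) (φ : V → ℕ) (A : Finset V) (hA : A ⊆ E) :
    X.ms A = ∑ i ∈ E.image φ, X.ms (A.filter fun f => φ f = i) := by
  unfold Sys.ms
  rw [Finset.sum_fiberwise_of_maps_to]
  exact fun f hf => mem_image_of_mem φ (hA hf)

namespace Ctx

variable {D : Ctx V}

/-- Total mass of the neighbourhoods. -/
theorem gd_total (hD : D.Ok) (c : V) :
    (D.X.I univ fun Z => D.X.ms (D.E c ∩ D.X.nb Z)) ≤ D.p.H ^ 2 := by
  have hm := hD.X.m_nonneg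
  have hH : 0 ≤ D.p.H := by linarith [hD.X.one_le]
  have h1 : (D.X.I univ fun Z => D.X.ms (D.E c ∩ D.X.nb Z)) =
      D.X.I (D.E c) fun f => D.X.ms (D.X.nb f) := by
    have e1 : ∀ Z, D.X.ms (D.E c ∩ D.X.nb Z) = D.X.I (D.E c) fun f => D.X.n Z f := fun Z =>
      (gd_I_n D.X (D.E c) Z).symm
    simp only [e1]
    rw [I_comm]
    congr 1
    funext f
    have e2 : D.X.ms (D.X.nb f) = D.X.ms (univ ∩ D.X.nb f) := by rw [Finset.univ_inter]
    rw [e2, ← gd_I_n]
    unfold Sys.I Sys.n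
    refine Finset.sum_congr rfl fun Z _ => ?_
    have e3 : D.X.lk f Z ↔ D.X.lk Z f := ⟨hD.X.symm _ _, hD.X.symm _ _⟩
    simp only [e3]
  rw [h1]
  refine (I_mono hm (g' := fun _ => D.p.H) fun f _ => hD.X.deg f).trans ?_
  rw [gd_I_const, sq]
  exact mul_le_mul_of_nonneg_left (ms_E_le hD c) hH

theorem gd_bad_nonneg (hD : D.Ok) (p : V → Prop) : 0 ≤ D.X.mp p :=
  Finset.sum_nonneg fun f _ => hD.X.m_nonneg f

/-- (g1) -/
theorem gd_bad1 (hD : D.Ok) {c : V} (hc : c ∈ D.CC) :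
    D.X.I (D.E c) (D.bad1 c) ≤ 4 * D.p.B0 / D.p.be ^ 2 * D.ic c := by
  have hm := hD.X.m_nonneg
  have hb := hD.be0
  have h0 : D.X.I (D.E c) (D.bad1 c) ≤ 1 / D.p.be ^ 2 *
      (D.X.I univ fun Z => ∑ c' ∈ D.CC, if D.p.del (D.s + 1) ≤ D.ov c c' then
      D.X.I (D.E c ∩ D.E c') fun f => (D.th (D.s + 3) c' Z f - D.th D.s c Z f) ^ 2 else 0) := by
    have e1 : ∀ f, D.bad1 c f = D.X.I univ fun Z => if (c ∈ D.R Z ∧ ∃ c' ∈ D.R Z,
        D.p.del D.s ≤ D.ov c c' ∧ f ∈ D.E c' ∧ 1 - 2 * D.p.be < D.th (D.s + 3) c' Z f ∧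
        D.th D.s c Z f ≤ 1 - 3 * D.p.be) then 1 else 0 := fun f => gd_mp _ _
    have e2 : D.X.I (D.E c) (D.bad1 c) = D.X.I univ fun Z => D.X.I (D.E c) fun f =>
        if (c ∈ D.R Z ∧ ∃ c' ∈ D.R Z,
        D.p.del D.s ≤ D.ov c c' ∧ f ∈ D.E c' ∧ 1 - 2 * D.p.be < D.th (D.s + 3) c' Z f ∧
        D.th D.s c Z f ≤ 1 - 3 * D.p.be) then (1 : ℝ) else 0 := by
      rw [← I_comm]
      congr 1
      funext f
      exact e1 f
    rw [e2, ← gd_I_smul]
    refine I_mono hm fun Z _ => ?_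
    have e3 : ∀ c' ∈ D.CC, (if D.p.del (D.s + 1) ≤ D.ov c c' then
        D.X.I (D.E c ∩ D.E c') fun f => (D.th (D.s + 3) c' Z f - D.th D.s c Z f) ^ 2 else 0) =
        D.X.I (D.E c) fun f => if D.p.del (D.s + 1) ≤ D.ov c c' ∧ f ∈ D.E c' then
          (D.th (D.s + 3) c' Z f - D.th D.s c Z f) ^ 2 else 0 := by
      intro c' _
      by_cases h : D.p.del (D.s + 1) ≤ D.ov c c'
      · simp only [h, true_and, if_true]
        rw [gd_I_ite]
      · simp only [h, false_and, if_false]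
        simp [Sys.I]
    rw [Finset.sum_congr rfl e3, ← gd_I_sum, ← gd_I_smul]
    refine I_mono hm fun f _ => ?_
    split_ifs with h
    · obtain ⟨-, c', hc', h1, h2, h3, h4⟩ := h
      have hcc : c' ∈ D.CC := (mem_filter.1 hc').1
      have h5 : (D.th (D.s + 3) c' Z f - D.th D.s c Z f) ^ 2 ≤
          ∑ c' ∈ D.CC, if D.p.del (D.s + 1) ≤ D.ov c c' ∧ f ∈ D.E c' then
          (D.th (D.s + 3) c' Z f - D.th D.s c Z f) ^ 2 else 0 := by
        have h6 := Finset.single_le_sum (f := fun c' => if D.p.del (D.s + 1) ≤ D.ov c c' ∧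
          f ∈ D.E c' then (D.th (D.s + 3) c' Z f - D.th D.s c Z f) ^ 2 else 0)
          (fun i _ => by split_ifs; exacts [sq_nonneg _, le_rfl]) hcc
        simp only [(hD.del1 D.s).trans h1, h2, and_self, if_true] at h6
        exact h6
      have h7 : D.p.be ^ 2 ≤ (D.th (D.s + 3) c' Z f - D.th D.s c Z f) ^ 2 :=
        pow_le_pow_left₀ hb.le (by linarith) 2
      rw [one_div, ← div_eq_inv_mul, le_div_iff₀ (by positivity), one_mul]
      exact h7.trans h5
    · refine mul_nonneg (by positivity) (Finset.sum_nonneg fun i _ => ?_)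
      split_ifs
      exacts [sq_nonneg _, le_rfl]
  refine h0.trans ?_
  have h1 := mul_le_mul_of_nonneg_left (cmp_c hD hc) (by positivity : (0 : ℝ) ≤ 1 / D.p.be ^ 2)
  refine h1.trans (le_of_eq ?_)
  ring

/-- (g5) -/
theorem gd_bad5 (hD : D.Ok) {c : V} (hc : c ∈ D.CC) :
    D.X.I (D.E c) (D.bad5 c) ≤ 1 / D.p.be ^ 2 * D.ic c := by
  have hm := hD.X.m_nonneg
  have hb := hD.be0
  have e1 : ∀ f, D.bad5 c f = D.X.I univ fun Z => if (c ∈ D.R Z ∧
      1 - D.p.be < D.th D.s c Z f ∧ D.th (D.s + 3) c Z f ≤ 1 - 2 * D.p.be) then 1 else 0 :=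
    fun f => gd_mp _ _
  have e2 : D.X.I (D.E c) (D.bad5 c) = D.X.I univ fun Z => D.X.I (D.E c) fun f =>
      if (c ∈ D.R Z ∧ 1 - D.p.be < D.th D.s c Z f ∧
        D.th (D.s + 3) c Z f ≤ 1 - 2 * D.p.be) then (1 : ℝ) else 0 := by
    rw [← I_comm]
    congr 1
    funext f
    exact e1 f
  have h2 := ic_part hD hc (a := D.s) (b := D.s + 3) le_rfl (by omega) (by omega)
  have h3 : D.X.I (D.E c) (D.bad5 c) ≤ 1 / D.p.be ^ 2 * (D.X.I univ fun Z =>
      D.X.I (D.E c) fun f => (D.th (D.s + 3) c Z f - D.th D.s c Z f) ^ 2) := by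
    rw [e2, ← gd_I_smul]
    refine I_mono hm fun Z _ => ?_
    rw [← gd_I_smul]
    refine I_mono hm fun f _ => ?_
    split_ifs with h
    · rw [one_div, ← div_eq_inv_mul, le_div_iff₀ (by positivity), one_mul]
      rw [← neg_sub, neg_sq]
      exact pow_le_pow_left₀ hb.le (by linarith [h.2.1, h.2.2]) 2
    · positivity
  exact h3.trans (mul_le_mul_of_nonneg_left h2 (by positivity))

/-- (g2) -/
theorem gd_bad2 (hD : D.Ok) (c : V) :
    D.X.I (D.E c) (D.bad2 c) ≤ 6 * D.p.be * D.p.H ^ 2 := by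
  have hm := hD.X.m_nonneg
  have hb := hD.be0
  have hb1 := hD.be1
  have e1 : ∀ f, D.bad2 c f = D.X.I univ fun Z => if (c ∈ D.R Z ∧
      1 - 3 * D.p.be < D.th D.s c Z f ∧ ¬ D.X.lk f Z) then 1 else 0 := fun f => gd_mp _ _
  have e2 : D.X.I (D.E c) (D.bad2 c) = D.X.I univ fun Z => D.X.I (D.E c) fun f =>
      if (c ∈ D.R Z ∧ 1 - 3 * D.p.be < D.th D.s c Z f ∧ ¬ D.X.lk f Z) then (1 : ℝ) else 0 := by
    rw [← I_comm]
    congr 1
    funext f
    exact e1 f
  have h3 : D.X.I (D.E c) (D.bad2 c) ≤ D.X.I univ fun Z => (6 * D.p.be) *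
      D.X.ms (D.E c ∩ D.X.nb Z) := by
    rw [e2]
    refine I_mono hm fun Z _ => ?_
    set w : V → ℝ := fun f => if 1 - 3 * D.p.be < D.th D.s c Z f then 1 else 0 with hw
    have hwm : Meas (D.E c) (D.φ D.s c) w := by
      intro f hf g hg hfg
      have e : D.th D.s c Z f = D.th D.s c Z g :=
        avg_meas (X := D.X) (D.E c) (D.φ D.s c) (D.X.n Z) f hf g hg hfg
      simp only [hw, e]
    have hn : ∀ f, D.X.n Z f = 0 ∨ D.X.n Z f = 1 := fun f => by
      unfold Sys.n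
      split_ifs <;> simp
    have k1 : (D.X.I (D.E c) fun f => if (c ∈ D.R Z ∧ 1 - 3 * D.p.be < D.th D.s c Z f ∧
        ¬ D.X.lk f Z) then (1 : ℝ) else 0) ≤ D.X.I (D.E c) fun f => w f * (1 - D.X.n Z f) := by
      refine I_mono hm fun f _ => ?_
      have hn0 : 0 ≤ 1 - D.X.n Z f := by rcases hn f with h | h <;> rw [h] <;> norm_num
      split_ifs with h
      · simp only [hw, if_pos h.2.1, Sys.n, if_neg h.2.2]
        norm_num
      · refine mul_nonneg ?_ hn0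
        simp only [hw]
        split_ifs <;> norm_num
    have k2 : (D.X.I (D.E c) fun f => w f * (1 - D.X.n Z f)) =
        D.X.I (D.E c) fun f => w f * (1 - D.th D.s c Z f) := by
      have a1 := I_mul_avg hm hwm (D.X.n Z)
      have a2 : ∀ g : V → ℝ, (D.X.I (D.E c) fun f => w f * (1 - g f)) =
          D.X.I (D.E c) w - D.X.I (D.E c) fun f => w f * g f := by
        intro g
        unfold Sys.I
        rw [← Finset.sum_sub_distrib]
        exact Finset.sum_congr rfl fun f _ => by ring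
      rw [a2, a2, a1]
      rfl
    have k3 : (D.X.I (D.E c) fun f => w f * (1 - D.th D.s c Z f)) ≤
        D.X.I (D.E c) fun f => (3 * D.p.be) *
          (if f ∈ (D.E c).filter (fun f => 1 / 2 ≤ D.th D.s c Z f) then 1 else 0) := by
      refine I_mono hm fun f hf => ?_
      simp only [hw, mem_filter]
      by_cases h : 1 - 3 * D.p.be < D.th D.s c Z f
      · rw [if_pos h, if_pos ⟨hf, by linarith⟩]
        linarith
      · rw [if_neg h, zero_mul]
        split_ifs <;> linarith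
    have k4 : (D.X.I (D.E c) fun f => (3 * D.p.be) *
          (if f ∈ (D.E c).filter (fun f => 1 / 2 ≤ D.th D.s c Z f) then (1 : ℝ) else 0)) =
        3 * D.p.be * D.X.ms ((D.E c).filter fun f => 1 / 2 ≤ D.th D.s c Z f) := by
      rw [gd_I_smul, gd_I_ite, gd_I_const, one_mul, Finset.inter_eq_right.2 (filter_subset _ _)]
    have k5 := ms_avg_large hm (D.E c) (D.φ D.s c) (g := D.X.n Z) (fun f => by
      rcases hn f with h | h <;> rw [h] <;> norm_num)
    rw [gd_I_n] at k5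
    refine k1.trans (k2.le.trans (k3.trans (k4.le.trans ?_)))
    have k6 : D.X.ms ((D.E c).filter fun f => 1 / 2 ≤ D.th D.s c Z f) ≤
        2 * D.X.ms (D.E c ∩ D.X.nb Z) := k5
    calc 3 * D.p.be * D.X.ms ((D.E c).filter fun f => 1 / 2 ≤ D.th D.s c Z f) ≤
        3 * D.p.be * (2 * D.X.ms (D.E c ∩ D.X.nb Z)) :=
          mul_le_mul_of_nonneg_left k6 (by positivity)
      _ = 6 * D.p.be * D.X.ms (D.E c ∩ D.X.nb Z) := by ring
  refine h3.trans ?_
  rw [gd_I_smul]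
  exact mul_le_mul_of_nonneg_left (gd_total hD c) (by positivity)

/-- (g3) -/
theorem gd_bad3 (hD : D.Ok) (c : V) :
    D.X.I (D.E c) (D.bad3 c) ≤ D.X.I univ fun Z =>
      if D.p.tau (D.s + 2) ≤ D.X.ms (D.E c ∩ D.X.nb Z) ∧
        D.X.ms (D.E c ∩ D.X.nb Z) < D.p.tau D.s then D.X.ms (D.E c ∩ D.X.nb Z) else 0 := by
  have hm := hD.X.m_nonneg
  have e1 : ∀ f, D.bad3 c f = D.X.I univ fun Z => if (D.X.lk f Z ∧
      D.p.tau (D.s + 2) ≤ D.X.ms (D.E c ∩ D.X.nb Z) ∧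
      D.X.ms (D.E c ∩ D.X.nb Z) < D.p.tau D.s) then 1 else 0 := fun f => gd_mp _ _
  have e2 : D.X.I (D.E c) (D.bad3 c) = D.X.I univ fun Z => D.X.I (D.E c) fun f =>
      if (D.X.lk f Z ∧ D.p.tau (D.s + 2) ≤ D.X.ms (D.E c ∩ D.X.nb Z) ∧
      D.X.ms (D.E c ∩ D.X.nb Z) < D.p.tau D.s) then (1 : ℝ) else 0 := by
    rw [← I_comm]
    congr 1
    funext f
    exact e1 f
  rw [e2]
  refine I_mono hm fun Z _ => ?_
  by_cases h : D.p.tau (D.s + 2) ≤ D.X.ms (D.E c ∩ D.X.nb Z) ∧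
      D.X.ms (D.E c ∩ D.X.nb Z) < D.p.tau D.s
  · rw [if_pos h, ← gd_I_n]
    refine I_mono hm fun f _ => ?_
    unfold Sys.n
    split_ifs with h1 h2 h3
    · exact le_rfl
    · exact absurd h1.1 h2
    · norm_num
    · exact le_rfl
  · rw [if_neg h]
    have : ∀ f, (if (D.X.lk f Z ∧ D.p.tau (D.s + 2) ≤ D.X.ms (D.E c ∩ D.X.nb Z) ∧
      D.X.ms (D.E c ∩ D.X.nb Z) < D.p.tau D.s) then (1 : ℝ) else 0) = 0 := fun f =>
      if_neg fun h' => h h'.2
    simp only [this, Sys.I, mul_zero, Finset.sum_const_zero, le_refl]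

/-- (g4) -/
theorem gd_bad4 (hD : D.Ok) (c : V) :
    D.X.I (D.E c) (D.bad4 c) ≤ D.p.H ^ 2 / D.p.tau D.s * (D.RR * D.p.del D.s) := by
  have hm := hD.X.m_nonneg
  have hd := hD.del0 D.s
  have ht := hD.tau0 D.s
  have hH : 0 ≤ D.p.H := by linarith [hD.X.one_le]
  have hRR : 0 ≤ D.RR := by
    unfold RR
    positivity
  have e1 : ∀ f, D.bad4 c f = D.X.I univ fun Z => if (c ∈ D.R Z ∧ ∃ c' ∈ D.R Z,
      D.ov c c' < D.p.del D.s ∧ f ∈ D.E c') then 1 else 0 := fun f => gd_mp _ _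
  have e2 : D.X.I (D.E c) (D.bad4 c) = D.X.I univ fun Z => D.X.I (D.E c) fun f =>
      if (c ∈ D.R Z ∧ ∃ c' ∈ D.R Z,
      D.ov c c' < D.p.del D.s ∧ f ∈ D.E c') then (1 : ℝ) else 0 := by
    rw [← I_comm]
    congr 1
    funext f
    exact e1 f
  have h3 : D.X.I (D.E c) (D.bad4 c) ≤ D.X.I univ fun Z =>
      (D.RR * D.p.del D.s / D.p.tau D.s) * D.X.ms (D.E c ∩ D.X.nb Z) := by
    rw [e2]
    refine I_mono hm fun Z _ => ?_
    have hms : 0 ≤ D.X.ms (D.E c ∩ D.X.nb Z) := Finset.sum_nonneg fun f _ => hm f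
    by_cases hR : c ∈ D.R Z
    · have k1 : (D.X.I (D.E c) fun f => if (c ∈ D.R Z ∧ ∃ c' ∈ D.R Z,
          D.ov c c' < D.p.del D.s ∧ f ∈ D.E c') then (1 : ℝ) else 0) ≤
          D.X.I (D.E c) fun f => ∑ c' ∈ D.R Z, if D.ov c c' < D.p.del D.s ∧ f ∈ D.E c'
            then (1 : ℝ) else 0 := by
        refine I_mono hm fun f _ => ?_
        have hnn : ∀ i ∈ D.R Z, (0 : ℝ) ≤ if D.ov c i < D.p.del D.s ∧ f ∈ D.E i
            then (1 : ℝ) else 0 := fun i _ => by split_ifs <;> norm_num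
        split_ifs with h
        · obtain ⟨-, c', hc', h1, h2⟩ := h
          have := Finset.single_le_sum hnn hc'
          rwa [if_pos ⟨h1, h2⟩] at this
        · exact Finset.sum_nonneg hnn
      have k2 : ∀ c' ∈ D.R Z, (D.X.I (D.E c) fun f => if D.ov c c' < D.p.del D.s ∧ f ∈ D.E c'
          then (1 : ℝ) else 0) ≤ D.p.del D.s := by
        intro c' _
        by_cases h : D.ov c c' < D.p.del D.s
        · simp only [h, true_and]
          rw [gd_I_ite, gd_I_const, one_mul]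
          exact h.le
        · simp only [h, false_and, if_false, Sys.I, mul_zero, Finset.sum_const_zero]
          exact hd.le
      rw [gd_I_sum] at k1
      have k3 := Finset.sum_le_sum k2
      rw [Finset.sum_const, nsmul_eq_mul] at k3
      have k4 : ((D.R Z).card : ℝ) * D.p.del D.s ≤ D.RR * D.p.del D.s :=
        mul_le_mul_of_nonneg_right (card_R hD Z) hd.le
      have k5 : D.RR * D.p.del D.s ≤ D.RR * D.p.del D.s / D.p.tau D.s *
          D.X.ms (D.E c ∩ D.X.nb Z) := by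
        have h6 : D.p.tau D.s ≤ D.X.ms (D.E c ∩ D.X.nb Z) := (mem_filter.1 hR).2
        rw [div_mul_eq_mul_div, le_div_iff₀ ht]
        exact mul_le_mul_of_nonneg_left h6 (by positivity)
      exact k1.trans (k3.trans (k4.trans k5))
    · have : ∀ f, (if (c ∈ D.R Z ∧ ∃ c' ∈ D.R Z,
          D.ov c c' < D.p.del D.s ∧ f ∈ D.E c') then (1 : ℝ) else 0) = 0 := fun f =>
        if_neg fun h' => hR h'.1
      simp only [this, Sys.I, mul_zero, Finset.sum_const_zero]
      positivity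
  refine h3.trans ?_
  rw [gd_I_smul]
  have h4 := mul_le_mul_of_nonneg_left (gd_total hD c)
    (by positivity : (0 : ℝ) ≤ D.RR * D.p.del D.s / D.p.tau D.s)
  refine h4.trans (le_of_eq ?_)
  ring

/-- Mass of the individually bad sites. -/
theorem gd_ms_g (hD : D.Ok) {c : V} (hc : c ∈ D.CC) :
    D.p.ep * D.X.ms (D.E c \ D.g c) ≤
      (4 * D.p.B0 + 1) / D.p.be ^ 2 * D.ic c + 6 * D.p.be * D.p.H ^ 2 +
        (D.X.I univ fun Z => if D.p.tau (D.s + 2) ≤ D.X.ms (D.E c ∩ D.X.nb Z) ∧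
          D.X.ms (D.E c ∩ D.X.nb Z) < D.p.tau D.s
          then D.X.ms (D.E c ∩ D.X.nb Z) else 0) +
        D.p.H ^ 2 / D.p.tau D.s * (D.RR * D.p.del D.s) := by
  have hm := hD.X.m_nonneg
  have n1 : ∀ f, 0 ≤ D.bad1 c f := fun f => gd_bad_nonneg hD _
  have n2 : ∀ f, 0 ≤ D.bad2 c f := fun f => gd_bad_nonneg hD _
  have n3 : ∀ f, 0 ≤ D.bad3 c f := fun f => gd_bad_nonneg hD _
  have n4 : ∀ f, 0 ≤ D.bad4 c f := fun f => gd_bad_nonneg hD _
  have n5 : ∀ f, 0 ≤ D.bad5 c f := fun f => gd_bad_nonneg hD _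
  have h1 : D.p.ep * D.X.ms (D.E c \ D.g c) ≤ D.X.I (D.E c) fun f =>
      D.bad1 c f + D.bad2 c f + D.bad3 c f + D.bad4 c f + D.bad5 c f := by
    rw [← gd_I_const]
    have k1 : (D.X.I (D.E c \ D.g c) fun _ => D.p.ep) ≤ D.X.I (D.E c \ D.g c) fun f =>
        D.bad1 c f + D.bad2 c f + D.bad3 c f + D.bad4 c f + D.bad5 c f := by
      refine I_mono hm fun f hf => ?_
      rw [mem_sdiff] at hf
      have h2 : ¬ (D.bad1 c f ≤ D.p.ep ∧ D.bad2 c f ≤ D.p.ep ∧ D.bad3 c f ≤ D.p.ep ∧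
          D.bad4 c f ≤ D.p.ep ∧ D.bad5 c f ≤ D.p.ep) := fun h => hf.2 (mem_filter.2 ⟨hf.1, h⟩)
      by_contra hcon
      rw [not_le] at hcon
      have m1 := n1 f
      have m2 := n2 f
      have m3 := n3 f
      have m4 := n4 f
      have m5 := n5 f
      exact h2 ⟨by linarith, by linarith, by linarith, by linarith, by linarith⟩
    refine k1.trans ?_
    unfold Sys.I
    refine Finset.sum_le_sum_of_subset_of_nonneg sdiff_subset fun f _ _ => ?_
    have m1 := n1 f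
    have m2 := n2 f
    have m3 := n3 f
    have m4 := n4 f
    have m5 := n5 f
    exact mul_nonneg (hm f) (by linarith)
  have h2 : (D.X.I (D.E c) fun f =>
      D.bad1 c f + D.bad2 c f + D.bad3 c f + D.bad4 c f + D.bad5 c f) =
      D.X.I (D.E c) (D.bad1 c) + D.X.I (D.E c) (D.bad2 c) + D.X.I (D.E c) (D.bad3 c) +
      D.X.I (D.E c) (D.bad4 c) + D.X.I (D.E c) (D.bad5 c) := by
    unfold Sys.I
    rw [← Finset.sum_add_distrib, ← Finset.sum_add_distrib, ← Finset.sum_add_distrib,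
      ← Finset.sum_add_distrib]
    exact Finset.sum_congr rfl fun f _ => by ring
  have a1 := gd_bad1 hD hc
  have a2 := gd_bad2 hD c
  have a3 := gd_bad3 hD c
  have a4 := gd_bad4 hD c
  have a5 := gd_bad5 hD hc
  have e : (4 * D.p.B0 + 1) / D.p.be ^ 2 * D.ic c = 4 * D.p.B0 / D.p.be ^ 2 * D.ic c +
      1 / D.p.be ^ 2 * D.ic c := by ring
  rw [h2] at h1
  linarith

/-- Mass outside the good cells. -/
theorem ms_E_diff_G (hD : D.Ok) {c : V} (hc : c ∈ D.CC) :
    D.X.ms (D.E c \ D.G c) ≤ D.p.eG / 2 + 1 / (D.p.ep * D.p.e1) *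
      ((4 * D.p.B0 + 1) / D.p.be ^ 2 * D.ic c + 6 * D.p.be * D.p.H ^ 2 +
        (D.X.I univ fun Z => if D.p.tau (D.s + 2) ≤ D.X.ms (D.E c ∩ D.X.nb Z) ∧
          D.X.ms (D.E c ∩ D.X.nb Z) < D.p.tau D.s
          then D.X.ms (D.E c ∩ D.X.nb Z) else 0) +
        D.p.H ^ 2 / D.p.tau D.s * (D.RR * D.p.del D.s)) := by
  have hm := hD.X.m_nonneg
  have he := hD.ep0
  have he1 := hD.e10
  have hN : (1 : ℝ) ≤ D.p.N D.s := by exact_mod_cast hD.N1 D.s
  have hmu : 0 < D.mu' := by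
    unfold mu'
    have := hD.eG0
    positivity
  have hms : ∀ A : Finset V, 0 ≤ D.X.ms A := fun A => Finset.sum_nonneg fun f _ => hm f
  -- small cells
  set A1 : Finset V := (D.E c).filter fun f =>
    D.X.ms (Sys.cell (D.E c) (D.φ D.s c) f) < D.mu' with hA1
  -- cells with many bad sites
  set A2 : Finset V := (D.E c).filter fun f =>
    D.p.e1 * D.X.ms (Sys.cell (D.E c) (D.φ D.s c) f) <
      D.X.ms (Sys.cell (D.E c) (D.φ D.s c) f \ D.g c) with hA2
  have hcell : ∀ f g, D.φ D.s c g = D.φ D.s c f →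
      Sys.cell (D.E c) (D.φ D.s c) g = Sys.cell (D.E c) (D.φ D.s c) f := by
    intro f g h
    unfold Sys.cell
    rw [h]
  have h1 : D.X.ms A1 ≤ D.p.eG / 2 := by
    rw [gd_fiber D.X (D.E c) (D.φ D.s c) A1 (filter_subset _ _)]
    have k1 : ∀ i ∈ (D.E c).image (D.φ D.s c), D.X.ms (A1.filter fun f => D.φ D.s c f = i) ≤
        D.mu' := by
      intro i _
      rcases (A1.filter fun f => D.φ D.s c f = i).eq_empty_or_nonempty with h | ⟨f, hf⟩
      · rw [h]
        simpa [Sys.ms] using hmu.le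
      · rw [mem_filter, hA1, mem_filter] at hf
        refine (ms_mono hm (B := Sys.cell (D.E c) (D.φ D.s c) f) fun g hg => ?_).trans
          hf.1.2.le
        rw [mem_filter, hA1, mem_filter] at hg
        exact mem_filter.2 ⟨hg.1.1, hg.2.trans hf.2.symm⟩
    have k2 := Finset.sum_le_sum k1
    rw [Finset.sum_const, nsmul_eq_mul] at k2
    have k3 : (((D.E c).image (D.φ D.s c)).card : ℝ) ≤ D.p.N D.s := by
      exact_mod_cast hD.lev.card D.s (by have := hD.s_lt; omega) c hc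
    refine k2.trans ((mul_le_mul_of_nonneg_right k3 hmu.le).trans (le_of_eq ?_))
    unfold mu'
    field_simp
  have h2 : D.X.ms A2 ≤ 1 / D.p.e1 * D.X.ms (D.E c \ D.g c) := by
    rw [gd_fiber D.X (D.E c) (D.φ D.s c) A2 (filter_subset _ _),
      gd_fiber D.X (D.E c) (D.φ D.s c) (D.E c \ D.g c) sdiff_subset, Finset.mul_sum]
    refine Finset.sum_le_sum fun i _ => ?_
    rcases (A2.filter fun f => D.φ D.s c f = i).eq_empty_or_nonempty with h | ⟨f, hf⟩
    · rw [h]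
      have := hms ((D.E c \ D.g c).filter fun f => D.φ D.s c f = i)
      have h0 : D.X.ms ∅ = 0 := by simp [Sys.ms]
      rw [h0]
      positivity
    · rw [mem_filter, hA2, mem_filter] at hf
      have k1 : D.X.ms (A2.filter fun f => D.φ D.s c f = i) ≤
          D.X.ms (Sys.cell (D.E c) (D.φ D.s c) f) := by
        refine ms_mono hm fun g hg => ?_
        rw [mem_filter, hA2, mem_filter] at hg
        exact mem_filter.2 ⟨hg.1.1, hg.2.trans hf.2.symm⟩
      have k2 : D.X.ms (Sys.cell (D.E c) (D.φ D.s c) f \ D.g c) ≤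
          D.X.ms ((D.E c \ D.g c).filter fun f => D.φ D.s c f = i) := by
        refine ms_mono hm fun g hg => ?_
        rw [mem_sdiff, Sys.cell, mem_filter] at hg
        exact mem_filter.2 ⟨mem_sdiff.2 ⟨hg.1.1, hg.2⟩, hg.1.2.trans hf.2⟩
      have k3 := hf.1.2
      rw [one_div, ← div_eq_inv_mul, le_div_iff₀ he1]
      calc D.X.ms (A2.filter fun f => D.φ D.s c f = i) * D.p.e1 ≤
          D.X.ms (Sys.cell (D.E c) (D.φ D.s c) f) * D.p.e1 :=
            mul_le_mul_of_nonneg_right k1 he1.le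
        _ ≤ _ := by linarith
  have h3 : D.X.ms (D.E c \ D.G c) ≤ D.X.ms A1 + D.X.ms A2 := by
    have k1 : D.E c \ D.G c ⊆ A1 ∪ A2 := by
      intro f hf
      rw [mem_sdiff] at hf
      rw [mem_union, hA1, hA2, mem_filter, mem_filter]
      by_contra hcon
      push Not at hcon
      exact hf.2 (mem_filter.2 ⟨hf.1, hcon.1 hf.1, hcon.2 hf.1⟩)
    refine (ms_mono hm k1).trans ?_
    have k2 : D.X.ms (A1 ∪ A2) + D.X.ms (A1 ∩ A2) = D.X.ms A1 + D.X.ms A2 :=
      Finset.sum_union_inter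
    linarith [hms (A1 ∩ A2)]
  have h4 := gd_ms_g hD hc
  set Q := (4 * D.p.B0 + 1) / D.p.be ^ 2 * D.ic c + 6 * D.p.be * D.p.H ^ 2 +
        (D.X.I univ fun Z => if D.p.tau (D.s + 2) ≤ D.X.ms (D.E c ∩ D.X.nb Z) ∧
          D.X.ms (D.E c ∩ D.X.nb Z) < D.p.tau D.s
          then D.X.ms (D.E c ∩ D.X.nb Z) else 0) +
        D.p.H ^ 2 / D.p.tau D.s * (D.RR * D.p.del D.s) with hQ
  have h5 : 1 / D.p.e1 * D.X.ms (D.E c \ D.g c) ≤ 1 / (D.p.ep * D.p.e1) * Q := by
    rw [one_div, one_div, mul_inv, mul_assoc, mul_comm (D.p.e1)⁻¹ Q, ← mul_assoc,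
      mul_comm (D.p.e1)⁻¹]
    refine mul_le_mul_of_nonneg_right ?_ (by positivity)
    rw [← div_eq_inv_mul, le_div_iff₀ he]
    linarith
  linarith

end Ctx

end Pool.Agent.AcyS
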