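import Pool.Agent.AcyS.Reg

/-! # Existence of the levels (module S3 of the static theorem, project MP_af9dfb_S) -/

set_option autoImplicit false
set_option linter.unusedSectionVars false

namespace Pool.Agent.AcyS

open Finset
open scoped Classical

universe u

variable {V : Type u} [Fintype V] {D : Ctx V}

/-- The recursion that the number of cells has to satisfy. -/
def Par.NOK (p : Par) : Prop := 1 ≤ p.N 0 ∧ ∀ r,
  p.N r * (p.N r + 1) ^ ⌈p.B0 * p.H / p.del r⌉₊ *
    2 ^ (⌈(p.H ^ 2 / p.tau (r + 1) + 1) ^ 4 * p.H ^ 2 / p.rho (r + 1) ^ 2⌉₊ + 1) ≤ p.N (r + 1)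

namespace Lev

variable {X : Sys V} {H : ℝ}

theorem ms_nonneg (hX : X.Ok H) (A : Finset V) : 0 ≤ X.ms A :=
  sum_nonneg fun f _ => hX.m_nonneg f

theorem ms_mono' (hX : X.Ok H) {A B : Finset V} (h : A ⊆ B) : X.ms A ≤ X.ms B :=
  sum_le_sum_of_subset_of_nonneg h fun f _ _ => hX.m_nonneg f

theorem ms_E (hX : D.X.Ok H) (c : V) : D.X.ms (D.E c) ≤ H :=
  (ms_mono' hX inter_subset_left).trans (hX.deg c)

/-- A site is in at most `B0` worlds. -/
theorem cnt (hX : D.X.Ok H) (f : V) : (D.CC.filter fun c => f ∈ D.E c).card ≤ D.p.B0 := by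
  by_cases hf : f ∈ D.ok
  · refine le_trans (card_le_card fun c hc => ?_) (mem_filter.1 hf).2
    rw [mem_filter] at hc
    refine mem_inter.2 ⟨hc.1, mem_filter.2 ⟨mem_univ _, ?_⟩⟩
    exact hX.symm _ _ (mem_filter.1 (mem_inter.1 hc.2).1).2
  · have : (D.CC.filter fun c => f ∈ D.E c) = ∅ :=
      filter_eq_empty_iff.2 fun c _ h => hf (mem_inter.1 h).2
    rw [this, card_empty]
    exact Nat.zero_le _

/-- (W1), only from the hypotheses on the system. -/
theorem sum_ms (hX : D.X.Ok H) (A : Finset V) :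
    ∑ c ∈ D.CC, D.X.ms (D.E c ∩ A) ≤ D.p.B0 * D.X.ms A := by
  have h1 : ∀ c ∈ D.CC, D.X.ms (D.E c ∩ A) = ∑ f ∈ A, if f ∈ D.E c then D.X.m f else 0 := by
    intro c _
    unfold Sys.ms
    rw [← sum_filter]
    congr 1
    ext f
    simp [and_comm]
  rw [sum_congr rfl h1, sum_comm]
  unfold Sys.ms
  rw [mul_sum]
  refine sum_le_sum fun f _ => ?_
  rw [← sum_filter, sum_const, nsmul_eq_mul]
  exact mul_le_mul_of_nonneg_right (by exact_mod_cast cnt hX f) (hX.m_nonneg f)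

/-- Number of the worlds with large overlap. -/
theorem card_ov (hX : D.X.Ok H) {δ : ℝ} (hδ : 0 < δ) (c : V) :
    (D.CC.filter fun c' => δ ≤ D.ov c c').card ≤ ⌈D.p.B0 * H / δ⌉₊ := by
  have h1 : ((D.CC.filter fun c' => δ ≤ D.ov c c').card : ℝ) ≤ D.p.B0 * H / δ := by
    rw [le_div_iff₀ hδ]
    calc ((D.CC.filter fun c' => δ ≤ D.ov c c').card : ℝ) * δ ≤
        ∑ c' ∈ D.CC.filter fun c' => δ ≤ D.ov c c', D.ov c c' := by
          rw [← nsmul_eq_mul]
          exact card_nsmul_le_sum _ _ _ fun c' hc' => (mem_filter.1 hc').2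
      _ ≤ ∑ c' ∈ D.CC, D.ov c c' :=
          sum_le_sum_of_subset_of_nonneg (filter_subset _ _) fun c' _ _ => ms_nonneg hX _
      _ = ∑ c' ∈ D.CC, D.X.ms (D.E c' ∩ D.E c) :=
          sum_congr rfl fun c' _ => by rw [Ctx.ov, inter_comm]
      _ ≤ D.p.B0 * D.X.ms (D.E c) := sum_ms hX _
      _ ≤ _ := mul_le_mul_of_nonneg_left (ms_E hX c) (Nat.cast_nonneg _)
  exact_mod_cast h1.trans (Nat.le_ceil _)

/-- Mass of the test sites. -/
theorem ms_W (hX : D.X.Ok H) {r : ℕ} (ht : 0 < D.p.tau r) (c : V) :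
    D.X.ms (D.W r c) ≤ H ^ 2 / D.p.tau r := by
  have hH : 0 ≤ H := zero_le_one.trans hX.one_le
  rw [le_div_iff₀ ht]
  calc D.X.ms (D.W r c) * D.p.tau r = ∑ Z ∈ D.W r c, D.X.m Z * D.p.tau r := by
        unfold Sys.ms
        rw [sum_mul]
    _ ≤ ∑ Z ∈ D.W r c, D.X.m Z * D.X.ms (D.E c ∩ D.X.nb Z) :=
        sum_le_sum fun Z hZ => mul_le_mul_of_nonneg_left (mem_filter.1 hZ).2 (hX.m_nonneg Z)
    _ ≤ ∑ Z, D.X.m Z * D.X.ms (D.E c ∩ D.X.nb Z) :=
        sum_le_sum_of_subset_of_nonneg (subset_univ _) fun Z _ _ =>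
          mul_nonneg (hX.m_nonneg Z) (ms_nonneg hX _)
    _ = ∑ f ∈ D.E c, D.X.m f * D.X.ms (D.X.nb f) := by
        have h1 : ∀ Z, D.X.m Z * D.X.ms (D.E c ∩ D.X.nb Z) =
            ∑ f ∈ D.E c, if D.X.lk f Z then D.X.m Z * D.X.m f else 0 := by
          intro Z
          unfold Sys.ms
          rw [mul_sum, ← sum_filter]
          refine sum_congr ?_ fun _ _ => rfl
          ext f
          simp [Sys.nb]
        simp only [h1]
        rw [sum_comm]
        refine sum_congr rfl fun f _ => ?_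
        unfold Sys.ms Sys.nb
        rw [mul_sum, sum_filter]
        refine sum_congr rfl fun Z _ => ?_
        by_cases h : D.X.lk f Z
        · rw [if_pos h, if_pos (hX.symm _ _ h), mul_comm]
        · rw [if_neg h, if_neg fun h' => h (hX.symm _ _ h')]
    _ ≤ ∑ f ∈ D.E c, D.X.m f * H :=
        sum_le_sum fun f _ => mul_le_mul_of_nonneg_left (hX.deg f) (hX.m_nonneg f)
    _ = D.X.ms (D.E c) * H := by rw [← sum_mul]; rfl
    _ ≤ H * H := mul_le_mul_of_nonneg_right (ms_E hX c) hH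
    _ = H ^ 2 := (sq H).symm

/-- One step of the recursion, for the world `c`. -/
theorem step (hX : D.X.Ok D.p.H) (hd : ∀ r, 0 < D.p.del r) (ht : ∀ r, 0 < D.p.tau r)
    (hr : ∀ r, 0 < D.p.rho r) (hN : D.p.NOK) (r : ℕ) (ψ : V → V → ℕ) (c : V) :
    ∃ ψ' : V → ℕ, Ref (D.E c) ψ' (ψ c) ∧
      (∀ c' ∈ D.CC, D.p.del r ≤ D.ov c c' → ∀ f ∈ D.E c, ∀ g ∈ D.E c, ψ' f = ψ' g →
        (f ∈ D.E c' ↔ g ∈ D.E c') ∧ (f ∈ D.E c' → ψ c' f = ψ c' g)) ∧
      (((D.E c).image (ψ c)).card ≤ D.p.N r → (∀ c' ∈ D.CC, ((D.E c').image (ψ c')).card ≤ D.p.N r)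
        → ((D.E c).image ψ').card ≤ D.p.N (r + 1)) ∧
      D.X.Reg (D.E c) ψ' (D.W (r + 1) c) (D.p.rho (r + 1)) := by
  have hH : 0 < D.p.H := lt_of_lt_of_le one_pos hX.one_le
  set S : Finset V := D.CC.filter fun c' => D.p.del r ≤ D.ov c c' with hS
  -- the labels of the other worlds
  set v : V → S → Option ℕ := fun f c' => if f ∈ D.E c' then some (ψ c' f) else none with hv
  obtain ⟨φ₀, hφ₀⟩ := exists_enc (fun f => (ψ c f, v f))
  have hM : D.X.ms (D.W (r + 1) c) ≤ D.p.H ^ 2 / D.p.tau (r + 1) + 1 := by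
    linarith [ms_W hX (ht (r + 1)) c]
  have hM1 : 1 ≤ D.p.H ^ 2 / D.p.tau (r + 1) + 1 := by
    have : 0 ≤ D.p.H ^ 2 / D.p.tau (r + 1) := div_nonneg (sq_nonneg _) (ht _).le
    linarith
  obtain ⟨ψ', h1, h2, h3⟩ := exists_reg hX (D.E c) (D.W (r + 1) c) (ms_E hX c) φ₀
    (hr (r + 1)) hM hM1
  have h4 : ∀ f g, ψ' f = ψ' g → ψ c f = ψ c g ∧ v f = v g := fun f g e => by
    have := (hφ₀ f g).1 (h1 f g e)
    exact Prod.mk.injEq _ _ _ _ ▸ this
  refine ⟨ψ', fun f _ g _ e => (h4 f g e).1, fun c' hc' hov f hf g hg e => ?_,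
    fun hc hc' => ?_, h3⟩
  · have h5 := congrFun (h4 f g e).2 ⟨c', mem_filter.2 ⟨hc', hov⟩⟩
    simp only [hv] at h5
    by_cases hf' : f ∈ D.E c' <;> by_cases hg' : g ∈ D.E c'
    · rw [if_pos hf', if_pos hg', Option.some.injEq] at h5
      exact ⟨⟨fun _ => hg', fun _ => hf'⟩, fun _ => h5⟩
    · rw [if_pos hf', if_neg hg'] at h5
      exact absurd h5 (by simp)
    · rw [if_neg hf', if_pos hg'] at h5
      exact absurd h5.symm (by simp)
    · exact ⟨⟨fun h => absurd h hf', fun h => absurd h hg'⟩, fun h => absurd h hf'⟩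
  · -- the number of cells
    have h5 : ((D.E c).image φ₀).card ≤
        D.p.N r * (D.p.N r + 1) ^ ⌈D.p.B0 * D.p.H / D.p.del r⌉₊ := by
      have k1 : ((D.E c).image φ₀).card ≤ ((D.E c).image fun f => (ψ c f, v f)).card :=
        card_image_le_of _ _ _ fun f _ g _ e => (hφ₀ f g).2 e
      have k2 : ((D.E c).image fun f => (ψ c f, v f)) ⊆ ((D.E c).image (ψ c)) ×ˢ
          Fintype.piFinset fun c' : S => insert none (((D.E c').image (ψ c')).image some) := by
        intro k hk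
        obtain ⟨f, hf, rfl⟩ := mem_image.1 hk
        refine mem_product.2 ⟨mem_image_of_mem _ hf, Fintype.mem_piFinset.2 fun c' => ?_⟩
        simp only [hv]
        split_ifs with h
        · exact mem_insert_of_mem (mem_image_of_mem _ (mem_image_of_mem _ h))
        · exact mem_insert_self _ _
      have k3 : ∀ c' : S, (insert none (((D.E c').image (ψ c')).image some)).card ≤
          D.p.N r + 1 := by
        intro c'
        refine (card_insert_le _ _).trans (Nat.add_le_add_right ?_ 1)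
        exact card_image_le.trans (hc' c' (mem_filter.1 c'.2).1)
      calc ((D.E c).image φ₀).card ≤ _ := k1
        _ ≤ _ := card_le_card k2
        _ = ((D.E c).image (ψ c)).card *
            ∏ c' : S, (insert none (((D.E c').image (ψ c')).image some)).card := by
              rw [card_product, Fintype.card_piFinset]
        _ ≤ D.p.N r * ∏ _c' : S, (D.p.N r + 1) :=
            Nat.mul_le_mul hc (prod_le_prod' fun c' _ => k3 c')
        _ = D.p.N r * (D.p.N r + 1) ^ S.card := by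
            rw [prod_const, card_univ, Fintype.card_coe]
        _ ≤ _ := Nat.mul_le_mul_left _ (Nat.pow_le_pow_right (Nat.succ_pos _)
            (card_ov hX (hd r) c))
    exact h2.trans ((Nat.mul_le_mul_right _ h5).trans (hN.2 r))

end Lev

theorem exists_lev (D : Ctx V) (hX : D.X.Ok D.p.H) (hd : ∀ r, 0 < D.p.del r)
    (ht : ∀ r, 0 < D.p.tau r) (hr : ∀ r, 0 < D.p.rho r) (hN : D.p.NOK) :
    ∃ φ : ℕ → V → V → ℕ, Ctx.LevOK { D with φ := φ } := by
  choose F h1 h2 h3 h4 using Lev.step hX hd ht hr hN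
  set φ : ℕ → V → V → ℕ := fun r => Nat.rec (fun _ _ => 0) (fun r ψ => F r ψ) r with hφ
  have hs : ∀ r c, φ (r + 1) c = F r (φ r) c := fun r c => rfl
  have hcard : ∀ r, ∀ c, ((D.E c).image (φ r c)).card ≤ D.p.N r := by
    intro r
    induction r with
    | zero =>
      intro c
      refine le_trans ?_ hN.1
      have : (D.E c).image (φ 0 c) ⊆ {0} := fun k hk => by
        obtain ⟨f, _, rfl⟩ := mem_image.1 hk
        exact mem_singleton.2 rfl
      exact (card_le_card this).trans (by simp)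
    | succ r ih =>
      intro c
      rw [hs]
      exact h3 r (φ r) c (ih c) fun c' _ => ih c'
  refine ⟨φ, ?_, ?_, ?_, ?_⟩
  · intro r _ c _
    exact h1 r (φ r) c
  · intro r _ c _ c' hc' hov f hf g hg e
    exact h2 r (φ r) c c' hc' hov f hf g hg e
  · intro r _ c _
    exact hcard r c
  · intro r _ hr1 c _
    obtain ⟨k, rfl⟩ : ∃ k, r = k + 1 := ⟨r - 1, by omega⟩
    exact h4 k (φ k) c

end Pool.Agent.AcyS
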