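import Pool.Agent.AcyS.Sum
import Pool.Agent.AcyS.Good
import Pool.Agent.AcyS.Cov
import Pool.Agent.AcyS.Lev
import Pool.Agent.AcyS.Final1

/-! # The static theorem (project MP_af9dfb_S, module S15) -/

set_option autoImplicit false
set_option linter.unusedSectionVars false

namespace Pool.Agent.AcyS

open Finset
open scoped Classical

universe u

variable {V : Type u} [Fintype V]

/-! ### Contexts -/

/-- The context with the centres `C`, the labels `φ`, the level `s`. -/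
noncomputable def fiD (X : Sys V) (p : Par) (φ : Finset V → ℕ → V → V → ℕ)
    (κ : ℕ → Finset V → V → V → ℝ) (ord : V → ℕ) (C : Finset V) (s : ℕ) : Ctx V :=
  ⟨X, p, C, φ C, κ s, s, ord⟩

/-- The hypotheses on the constants. -/
structure FPar (p : Par) (cG η : ℝ) (Tf : ℝ → ℝ → ℝ) : Prop where
  η0 : 0 < η
  H1 : 1 ≤ p.H
  q0 : 0 < p.q0
  b : FBase p.H η p.q0 p.B0 p.ga p.e' p.e1 p.e2 p.e3 p.eG p.ep p.be cG p.S
  B0 : 1 ≤ p.B0
  P : ∀ r, FPos ⟨p.tau r, p.rho r, p.N r, p.mu r, p.T r, p.del r⟩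
  R : ∀ r, FStep p.H η p.be p.ga p.e3 p.eG cG p.e' p.B0 Tf
    ⟨p.tau r, p.rho r, p.N r, p.mu r, p.T r, p.del r⟩
    ⟨p.tau (r + 1), p.rho (r + 1), p.N (r + 1), p.mu (r + 1), p.T (r + 1), p.del (r + 1)⟩
  tq : 2 * p.H * (p.q0 * p.H) * p.tau 0 ≤ η / 20
  G0 : p.H ^ 2 / p.tau 0 * (p.B0 * p.H / p.tau 0 * p.del 0) ≤ cG

theorem FPar.G {p : Par} {cG η : ℝ} {Tf : ℝ → ℝ → ℝ} (h : FPar p cG η Tf) (r : ℕ) :
    p.H ^ 2 / p.tau r * (p.B0 * p.H / p.tau r * p.del r) ≤ cG := by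
  cases r with
  | zero => exact h.G0
  | succ r => exact (h.R r).del_G

theorem FPar.tau_pos {p : Par} {cG η : ℝ} {Tf : ℝ → ℝ → ℝ} (h : FPar p cG η Tf) (r : ℕ) :
    0 < p.tau r := (h.P r).1

theorem FPar.tau_anti {p : Par} {cG η : ℝ} {Tf : ℝ → ℝ → ℝ} (h : FPar p cG η Tf) :
    Antitone p.tau := antitone_nat_of_succ_le fun r => (h.R r).tau_le

theorem FPar.T_mono {p : Par} {cG η : ℝ} {Tf : ℝ → ℝ → ℝ} (h : FPar p cG η Tf) :
    Monotone p.T := monotone_nat_of_le_succ fun r => (h.R r).T_le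

theorem FPar.T_one {p : Par} {cG η : ℝ} {Tf : ℝ → ℝ → ℝ} (h : FPar p cG η Tf) (r : ℕ) :
    1 ≤ p.T r := (h.P r).2.2.2.2.1

/-- The hypotheses on the system, the labels, the kernels and the order. -/
structure FSet (X : Sys V) (p : Par) (φ : Finset V → ℕ → V → V → ℕ)
    (κ : ℕ → Finset V → V → V → ℝ) (ord : V → ℕ) : Prop where
  hX : X.Ok p.H
  L : ∀ C s, (fiD X p φ κ ord C s).LevOK
  K : ∀ s o, (∃ c, o ⊆ X.nb c) → p.mu (s + 1) ≤ X.ms o →
    X.KerOK o (p.T (s + 1)) p.e' (κ s o)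
  ho : Function.Injective ord

section

variable {X : Sys V} {p : Par} {φ : Finset V → ℕ → V → V → ℕ}
  {κ : ℕ → Finset V → V → V → ℝ} {ord : V → ℕ} {cG η : ℝ} {Tf : ℝ → ℝ → ℝ}

theorem fi_ok (hp : FPar p cG η Tf) (h : FSet X p φ κ ord) (C : Finset V) {s : ℕ}
    (hs : s < p.S) : (fiD X p φ κ ord C s).Ok where
  X := h.hX
  lev := h.L C s
  ker := by
    intro c _ f hf
    refine h.K s _ ⟨c, ?_⟩ hf.2.2.1
    refine hf.2.1.trans ?_
    refine (filter_subset _ _).trans ?_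
    exact inter_subset_left
  ord := h.ho
  s_lt := hs
  B0 := hp.B0
  ga0 := hp.b.ga0
  ga1 := hp.b.ga1
  e'0 := hp.b.e'0
  e10 := hp.b.e10
  e20 := hp.b.e20
  e21 := hp.b.e21
  e30 := hp.b.e30
  e1e := hp.b.e1e
  eG0 := hp.b.eG0
  ep0 := hp.b.ep0
  ep1 := hp.b.ep1
  be0 := hp.b.be0
  be1 := hp.b.be1
  bega := hp.b.bega
  tau0 := fun r => (hp.P r).1
  tau1 := fun r => (hp.R r).tau_le
  del0 := fun r => (hp.P r).2.2.2.2.2
  del1 := fun r => (hp.R r).del_le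
  rho0 := fun r => (hp.P r).2.1.le
  N1 := fun r => (hp.P r).2.2.1
  mu0 := fun r => (hp.P r).2.2.2.1
  T1 := fun r => (hp.P r).2.2.2.2.1
  mue := (hp.R s).mu

end

/-! ### Averages over the level -/

theorem fi_sum_sqrt {S : ℕ} {a : ℕ → ℝ} {A : ℝ} (ha : ∀ s, 0 ≤ a s)
    (h : ∑ s ∈ range S, a s ≤ A) :
    ∑ s ∈ range S, Real.sqrt (a s) ≤ S * Real.sqrt (A / S) := by
  rcases Nat.eq_zero_or_pos S with h0 | h0
  · subst h0; simp
  · have hS : (0 : ℝ) < S := by exact_mod_cast h0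
    have h1 : (∑ s ∈ range S, Real.sqrt (a s)) ^ 2 ≤ S * A := by
      have := sq_sum_le_card_mul_sum_sq (s := range S) (f := fun s => Real.sqrt (a s))
      rw [card_range] at this
      refine this.trans ?_
      refine mul_le_mul_of_nonneg_left ?_ hS.le
      refine le_trans (le_of_eq ?_) h
      exact sum_congr rfl fun s _ => Real.sq_sqrt (ha s)
    have h2 : S * Real.sqrt (A / S) = Real.sqrt (S * A) := by
      have h3 : (S : ℝ) * A = S ^ 2 * (A / S) := by field_simp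
      rw [h3, Real.sqrt_mul (by positivity), Real.sqrt_sq hS.le]
    rw [h2]
    exact Real.le_sqrt_of_sq_le h1

theorem fi_I_sum (X : Sys V) (A : Finset V) (S : ℕ) (g : ℕ → V → ℝ) :
    ∑ s ∈ range S, X.I A (g s) = X.I A fun f => ∑ s ∈ range S, g s f := by
  unfold Sys.I
  rw [sum_comm]
  exact sum_congr rfl fun f _ => by rw [mul_sum]

theorem fi_I_le {X : Sys V} (hm : ∀ f, 0 ≤ X.m f) {A : Finset V} {g : V → ℝ} {c H : ℝ}
    (hc : 0 ≤ c) (hg : ∀ f, g f ≤ c) (hA : X.ms A ≤ H) : X.I A g ≤ H * c := by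
  calc X.I A g ≤ X.I A fun _ => c := I_mono hm fun f _ => hg f
    _ = X.ms A * c := by unfold Sys.I Sys.ms; rw [sum_mul]
    _ ≤ H * c := mul_le_mul_of_nonneg_right hA hc

theorem fi_inc_nonneg {D : Ctx V} (hm : ∀ f, 0 ≤ D.X.m f) (Z : V) : 0 ≤ D.inc Z := by
  unfold Ctx.inc Sys.I
  exact sum_nonneg fun c _ => sum_nonneg fun f _ => mul_nonneg (hm f) (sq_nonneg _)

section

variable {X : Sys V} {p : Par} {φ : Finset V → ℕ → V → V → ℕ}
  {κ : ℕ → Finset V → V → V → ℝ} {ord : V → ℕ} {cG η : ℝ} {Tf : ℝ → ℝ → ℝ}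

/-- (E2), averaged over the levels. -/
theorem fi_sum_G (hp : FPar p cG η Tf) (h : FSet X p φ κ ord) {C : Finset V} {c : V}
    (hc : c ∈ C) :
    ∑ s ∈ range p.S, X.ms ((fiD X p φ κ ord C s).E c \ (fiD X p φ κ ord C s).G c) ≤
      p.S * p.eG := by
  have hS : (0 : ℝ) < p.S := by
    have := hp.b.S1
    exact_mod_cast this
  have h1 : ∀ s ∈ range p.S,
      X.ms ((fiD X p φ κ ord C s).E c \ (fiD X p φ κ ord C s).G c) ≤
        p.eG / 2 + 1 / (p.ep * p.e1) *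
      ((4 * p.B0 + 1) / p.be ^ 2 * Ctx.ic { fiD X p φ κ ord C 0 with s := s } c +
        6 * p.be * p.H ^ 2 +
        (X.I univ fun Z =>
          if p.tau (s + 2) ≤ X.ms ((fiD X p φ κ ord C 0).E c ∩ X.nb Z) ∧
            X.ms ((fiD X p φ κ ord C 0).E c ∩ X.nb Z) < p.tau s
          then X.ms ((fiD X p φ κ ord C 0).E c ∩ X.nb Z) else 0) + cG) := by
    intro s hs
    rw [mem_range] at hs
    have h2 := Ctx.ms_E_diff_G (fi_ok hp h C hs) (c := c) hc
    have h3 := hp.G s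
    refine h2.trans ?_
    refine add_le_add le_rfl ?_
    refine mul_le_mul_of_nonneg_left ?_ (by have := hp.b.ep0; have := hp.b.e10; positivity)
    exact add_le_add le_rfl h3
  refine (sum_le_sum h1).trans ?_
  have h4 : ∑ s ∈ range p.S, Ctx.ic { fiD X p φ κ ord C 0 with s := s } c ≤ 4 * p.H ^ 2 :=
    Ctx.sum_ic (fiD X p φ κ ord C 0) h.hX (h.L C 0) hc
  have h5 : ∑ s ∈ range p.S, (X.I univ fun Z =>
      if p.tau (s + 2) ≤ X.ms ((fiD X p φ κ ord C 0).E c ∩ X.nb Z) ∧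
        X.ms ((fiD X p φ κ ord C 0).E c ∩ X.nb Z) < p.tau s
      then X.ms ((fiD X p φ κ ord C 0).E c ∩ X.nb Z) else 0) ≤ 2 * p.H ^ 2 :=
    Ctx.sum_mid (fiD X p φ κ ord C 0) h.hX hp.tau_pos (fun r => (hp.R r).tau_le) c
  rw [sum_add_distrib, ← mul_sum, sum_add_distrib, sum_add_distrib, sum_add_distrib, ← mul_sum]
  simp only [sum_const, card_range, nsmul_eq_mul]
  have h6 := hp.b.good
  have hep := hp.b.ep0
  have he1 := hp.b.e10
  have hbe := hp.b.be0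
  have h7 : 1 / (p.ep * p.e1) * ((4 * p.B0 + 1) / p.be ^ 2 *
      ∑ s ∈ range p.S, Ctx.ic { fiD X p φ κ ord C 0 with s := s } c +
        p.S * (6 * p.be * p.H ^ 2) + ∑ s ∈ range p.S, (X.I univ fun Z =>
          if p.tau (s + 2) ≤ X.ms ((fiD X p φ κ ord C 0).E c ∩ X.nb Z) ∧
            X.ms ((fiD X p φ κ ord C 0).E c ∩ X.nb Z) < p.tau s
          then X.ms ((fiD X p φ κ ord C 0).E c ∩ X.nb Z) else 0) + p.S * cG) ≤
      1 / (p.ep * p.e1) * ((4 * p.B0 + 1) / p.be ^ 2 * (4 * p.H ^ 2) +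
        p.S * (6 * p.be * p.H ^ 2) + 2 * p.H ^ 2 + p.S * cG) := by
    refine mul_le_mul_of_nonneg_left ?_ (by positivity)
    refine add_le_add (add_le_add (add_le_add ?_ le_rfl) h5) le_rfl
    exact mul_le_mul_of_nonneg_left h4 (by positivity)
  have h8 : 1 / (p.ep * p.e1) * ((4 * p.B0 + 1) / p.be ^ 2 * (4 * p.H ^ 2) +
        p.S * (6 * p.be * p.H ^ 2) + 2 * p.H ^ 2 + p.S * cG) ≤ p.S * (p.eG / 2) := by
    have h9 := mul_le_mul_of_nonneg_left h6 hS.le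
    refine le_trans (le_of_eq ?_) h9
    field_simp
  refine (add_le_add le_rfl (h7.trans h8)).trans (le_of_eq ?_)
  ring

/-- The error of the level `s`. -/
theorem fi_errs (hp : FPar p cG η Tf) (X : Sys V) (φ : Finset V → ℕ → V → V → ℕ)
    (κ : ℕ → Finset V → V → V → ℝ) (ord : V → ℕ) (C : Finset V) (s : ℕ) :
    ∃ d : ℝ, 0 < d ∧ (fiD X p φ κ ord C s).errs d ≤ η / 8 := by
  obtain ⟨d, hd, h2⟩ := (hp.R (s + 2)).rho
  refine ⟨d, hd, ?_⟩
  have hH : 0 < p.H := by linarith [hp.H1]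
  have hb0 : (0 : ℝ) < p.B0 := by
    have := hp.B0
    exact_mod_cast this
  have hbe := hp.b.be0
  have ht := hp.tau_pos s
  have ht2 := hp.tau_pos (s + 2)
  have hT1 := hp.T_one (s + 1)
  have hT2 := hp.T_one (s + 2)
  have hT : p.T (s + 1) ≤ p.T (s + 2) := hp.T_mono (by omega)
  have htt : p.tau (s + 2) ≤ p.tau s := hp.tau_anti (by omega)
  have e1 : p.T (s + 1) ^ 2 * p.B0 * p.H ^ 3 * p.tau (s + 2) ≤ η / 40 := (hp.R (s + 1)).tau_T
  have e3 := (hp.R s).del_1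
  have e4 := (hp.R s).del_2
  have e5 := (hp.R s).del_3
  have hRR : p.B0 * p.H / p.tau s ≤ p.B0 * p.H / p.tau (s + 2) :=
    div_le_div_of_nonneg_left (by positivity) ht2 htt
  have hR0 : 0 < p.B0 * p.H / p.tau s := by positivity
  have e2 : 2 * (2 / p.be + p.B0 * p.T (s + 1) * p.H + 1 + 1) / p.be *
      (p.B0 * ((p.B0 * p.H / p.tau s + p.B0 + 1) * p.H) / d *
        Real.sqrt (p.H * p.rho (s + 3)) + p.H * (p.B0 * p.H / p.tau s) * d) ≤ η / 40 := by
    refine le_trans ?_ h2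
    refine mul_le_mul ?_ ?_ (by positivity) (by positivity)
    · refine div_le_div_of_nonneg_right ?_ hbe.le
      have : p.B0 * p.T (s + 1) * p.H ≤ p.B0 * p.T (s + 2) * p.H := by gcongr
      linarith
    · refine add_le_add ?_ ?_
      · refine mul_le_mul_of_nonneg_right ?_ (Real.sqrt_nonneg _)
        refine div_le_div_of_nonneg_right ?_ hd.le
        refine mul_le_mul_of_nonneg_left ?_ hb0.le
        refine mul_le_mul_of_nonneg_right ?_ hH.le
        linarith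
      · refine mul_le_mul_of_nonneg_right ?_ hd.le
        exact mul_le_mul_of_nonneg_left hRR hH.le
  have : (fiD X p φ κ ord C s).errs d = p.T (s + 1) ^ 2 * p.B0 * p.H ^ 3 * p.tau (s + 2) +
      2 * (2 / p.be + p.B0 * p.T (s + 1) * p.H + 1 + 1) / p.be *
      (p.B0 * ((p.B0 * p.H / p.tau s + p.B0 + 1) * p.H) / d *
        Real.sqrt (p.H * p.rho (s + 3)) + p.H * (p.B0 * p.H / p.tau s) * d) +
      (2 * (2 / p.be + p.B0 * p.T (s + 1) * p.H + 1 + 3) / p.be + 1) *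
        (p.H * (p.B0 * p.H / p.tau s) ^ 2 * p.del (s + 1)) +
      2 / (p.be * p.ga) * (p.T (s + 1) * p.B0 * p.H ^ 2 * (p.B0 * p.H / p.tau s) *
        p.del (s + 1)) +
      8 * p.B0 * p.H ^ 2 / (p.be * p.mu (s + 1)) *
        (((p.B0 * p.H / p.tau s) ^ 2 + p.B0 * p.H / p.tau s) * p.del (s + 1)) := rfl
  rw [this]
  simp only at e3 e4 e5
  linarith only [e1, e2, e3, e4, e5]

/-- The uncovered pairs, summed over the levels. -/
theorem fi_sum_unc (hp : FPar p cG η Tf) (h : FSet X p φ κ ord) (C : Finset V) (P : V) :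
    ∑ s ∈ range p.S, ((fiD X p φ κ ord C s).unc P + (fiD X p φ κ ord C s).unc' P) ≤
      p.S * ((2 * (X.I (X.nb P) fun f => if C ∩ (X.nb P ∩ X.nb f) = ∅
        then X.ms (X.nb P ∩ X.nb f) else 0) +
      2 * p.H * (X.ms ((X.nb P).filter fun f => p.B0 < (C ∩ X.nb f).card))) +
      2 * p.H * (p.eG + p.tau 0) * ((C ∩ X.nb P).card : ℝ)) := by
  have hH : 0 < p.H := by linarith [hp.H1]
  have h1 : ∀ s ∈ range p.S,
      (fiD X p φ κ ord C s).unc P + (fiD X p φ κ ord C s).unc' P ≤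
      (2 * (X.I (X.nb P) fun f => if C ∩ (X.nb P ∩ X.nb f) = ∅
        then X.ms (X.nb P ∩ X.nb f) else 0) +
      2 * p.H * (X.ms ((X.nb P).filter fun f => p.B0 < (C ∩ X.nb f).card))) +
      2 * p.H * ∑ c ∈ C ∩ X.nb P,
        X.ms ((fiD X p φ κ ord C s).E c \ (fiD X p φ κ ord C s).G c) +
      2 * p.H * p.tau 0 * ((C ∩ X.nb P).card : ℝ) := by
    intro s hs
    rw [mem_range] at hs
    refine (Ctx.unc_le (fi_ok hp h C hs) P).trans ?_
    refine add_le_add le_rfl ?_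
    refine mul_le_mul_of_nonneg_right ?_ (Nat.cast_nonneg _)
    exact mul_le_mul_of_nonneg_left (hp.tau_anti (Nat.zero_le s)) (by positivity)
  refine (sum_le_sum h1).trans ?_
  rw [sum_add_distrib, sum_add_distrib, ← mul_sum, sum_comm]
  simp only [sum_const, card_range, nsmul_eq_mul]
  have h2 : ∑ c ∈ C ∩ X.nb P, ∑ s ∈ range p.S,
      X.ms ((fiD X p φ κ ord C s).E c \ (fiD X p φ κ ord C s).G c) ≤
      ((C ∩ X.nb P).card : ℝ) * (p.S * p.eG) := by
    rw [← nsmul_eq_mul]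
    refine sum_le_card_nsmul _ _ _ fun c hc => ?_
    exact fi_sum_G hp h (mem_of_mem_inter_left hc)
  have h3 := mul_le_mul_of_nonneg_left h2 (by positivity : (0 : ℝ) ≤ 2 * p.H)
  refine (add_le_add (add_le_add le_rfl h3) le_rfl).trans (le_of_eq ?_)
  ring

/-- The drift, summed over the levels. -/
theorem fi_sum_drift (hp : FPar p cG η Tf) (h : FSet X p φ κ ord) (C : Finset V) (P : V) :
    ∑ s ∈ range p.S, (fiD X p φ κ ord C s).drift P ≤
      p.S * ((2 * (X.I (X.nb P) fun f => if C ∩ (X.nb P ∩ X.nb f) = ∅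
        then X.ms (X.nb P ∩ X.nb f) else 0) +
      2 * p.H * (X.ms ((X.nb P).filter fun f => p.B0 < (C ∩ X.nb f).card))) +
      2 * p.H * (p.eG + p.tau 0) * ((C ∩ X.nb P).card : ℝ)) + p.S * (3 * η / 4) := by
  have hH : 0 < p.H := by linarith [hp.H1]
  have hm := h.hX.m_nonneg
  have hb0 : (0 : ℝ) < p.B0 := by
    have := hp.B0
    exact_mod_cast this
  have hS : (0 : ℝ) < p.S := by
    have := hp.b.S1
    exact_mod_cast this
  have hbe := hp.b.be0
  have hga := hp.b.ga0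
  set A1 := 4 * p.H / p.be ^ 2 + 9 * p.B0 * p.H * (4 / p.ga ^ 2 + 16) with hA1
  set A2 := 6 * p.B0 * p.H ^ 2 / (p.be * p.ga) with hA2
  set A3 := 4 / p.be ^ 2 with hA3
  set A4 := 2 / p.be with hA4
  have A10 : 0 < A1 := by positivity
  have A20 : 0 < A2 := by positivity
  have A30 : 0 < A3 := by positivity
  have A40 : 0 < A4 := by positivity
  set inc : ℕ → V → ℝ := fun s Z => (fiD X p φ κ ord C s).inc Z with hinc
  have hi0 : ∀ s Z, 0 ≤ inc s Z := fun s Z => fi_inc_nonneg (D := fiD X p φ κ ord C s) hm Z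
  have h1 : ∀ s ∈ range p.S, (fiD X p φ κ ord C s).drift P ≤
      ((fiD X p φ κ ord C s).unc P + (fiD X p φ κ ord C s).unc' P) +
      A1 * inc s P + A2 * Real.sqrt (inc s P) + A3 * X.I (X.nb P) (inc s) +
      A4 * (Real.sqrt (2 * p.B0 * p.H) * X.I (X.nb P) fun Z => Real.sqrt (inc s Z)) +
      (η / 4 + η / 8) := by
    intro s hs
    rw [mem_range] at hs
    obtain ⟨d, hd, he⟩ := fi_errs hp X φ κ ord C s
    have h2 := Ctx.drift_le (fi_ok hp h C hs) P hd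
    have h3 := hp.b.cst
    have h4 : (fiD X p φ κ ord C s).drift P ≤
      ((fiD X p φ κ ord C s).unc P + (fiD X p φ κ ord C s).unc' P) +
      A1 * inc s P + A2 * Real.sqrt (inc s P) + A3 * X.I (X.nb P) (inc s) +
      A4 * (Real.sqrt (2 * p.B0 * p.H) * X.I (X.nb P) fun Z => Real.sqrt (inc s Z)) +
      (10 + 6 / p.ga) * p.ep * p.B0 * p.H +
      (p.be + 2 * p.e3 + 2 * (p.e' + p.e2) / p.ga +
        4 * (2 * p.ga + 2 * p.e2 + p.e')) * p.B0 * p.H ^ 2 +
      (fiD X p φ κ ord C s).errs d := h2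
    linarith only [h3, h4, he]
  refine (sum_le_sum h1).trans ?_
  have hi : ∀ Z, ∑ s ∈ range p.S, inc s Z ≤ 4 * p.B0 * p.H := fun Z =>
    Ctx.sum_inc (fiD X p φ κ ord C 0) h.hX (h.L C 0) Z
  have hr : ∀ Z, ∑ s ∈ range p.S, Real.sqrt (inc s Z) ≤
      p.S * Real.sqrt (4 * p.B0 * p.H / p.S) := fun Z =>
    fi_sum_sqrt (fun s => hi0 s Z) (hi Z)
  have j1 : ∑ s ∈ range p.S, A1 * inc s P ≤ p.S * (η / 20) := by
    rw [← mul_sum]
    calc A1 * ∑ s ∈ range p.S, inc s P ≤ A1 * (4 * p.B0 * p.H) :=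
          mul_le_mul_of_nonneg_left (hi P) A10.le
      _ = p.S * (A1 * (4 * p.B0 * p.H / p.S)) := by field_simp
      _ ≤ p.S * (η / 20) := mul_le_mul_of_nonneg_left hp.b.inc1 hS.le
  have j2 : ∑ s ∈ range p.S, A2 * Real.sqrt (inc s P) ≤ p.S * (η / 20) := by
    rw [← mul_sum]
    calc A2 * ∑ s ∈ range p.S, Real.sqrt (inc s P) ≤
          A2 * (p.S * Real.sqrt (4 * p.B0 * p.H / p.S)) :=
          mul_le_mul_of_nonneg_left (hr P) A20.le
      _ = p.S * (A2 * Real.sqrt (4 * p.B0 * p.H / p.S)) := by ring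
      _ ≤ p.S * (η / 20) := mul_le_mul_of_nonneg_left hp.b.inc2 hS.le
  have j3 : ∑ s ∈ range p.S, A3 * X.I (X.nb P) (inc s) ≤ p.S * (η / 20) := by
    rw [← mul_sum, fi_I_sum]
    calc A3 * X.I (X.nb P) (fun f => ∑ s ∈ range p.S, inc s f) ≤
          A3 * (p.H * (4 * p.B0 * p.H)) :=
          mul_le_mul_of_nonneg_left (fi_I_le hm (by positivity) hi (h.hX.deg P)) A30.le
      _ = p.S * (A3 * (p.H * (4 * p.B0 * p.H / p.S))) := by field_simp
      _ ≤ p.S * (η / 20) := mul_le_mul_of_nonneg_left hp.b.inc3 hS.le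
  have j4 : ∑ s ∈ range p.S, A4 * (Real.sqrt (2 * p.B0 * p.H) *
      X.I (X.nb P) fun Z => Real.sqrt (inc s Z)) ≤ p.S * (η / 20) := by
    rw [← mul_sum, ← mul_sum, fi_I_sum X (X.nb P) p.S (fun s Z => Real.sqrt (inc s Z))]
    calc A4 * (Real.sqrt (2 * p.B0 * p.H) *
          X.I (X.nb P) (fun f => ∑ s ∈ range p.S, Real.sqrt (inc s f))) ≤
          A4 * (Real.sqrt (2 * p.B0 * p.H) *
            (p.H * (p.S * Real.sqrt (4 * p.B0 * p.H / p.S)))) := by
          refine mul_le_mul_of_nonneg_left ?_ A40.le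
          refine mul_le_mul_of_nonneg_left ?_ (Real.sqrt_nonneg _)
          exact fi_I_le hm (by positivity) hr (h.hX.deg P)
      _ = p.S * (A4 * (Real.sqrt (2 * p.B0 * p.H) *
            (p.H * Real.sqrt (4 * p.B0 * p.H / p.S)))) := by ring
      _ ≤ p.S * (η / 20) := mul_le_mul_of_nonneg_left hp.b.inc4 hS.le
  have j5 := fi_sum_unc hp h C P
  rw [sum_add_distrib, sum_add_distrib, sum_add_distrib, sum_add_distrib, sum_add_distrib]
  simp only [sum_const, card_range, nsmul_eq_mul]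
  have hη := hp.η0
  have hSη : 0 < p.S * η := by positivity
  have e1 : p.S * (η / 20) = (p.S * η) / 20 := by ring
  have e2 : p.S * (η / 4 + η / 8) = 3 / 8 * (p.S * η) := by ring
  have e3 : p.S * (3 * η / 4) = 3 / 4 * (p.S * η) := by ring
  rw [e1] at j1 j2 j3 j4
  rw [e2, e3]
  linarith only [j1, j2, j3, j4, j5, hSη]

/-- The mean drift. -/
theorem fi_mean_drift (hp : FPar p cG η Tf) (h : FSet X p φ κ ord)
    (hq : ∀ f, p.q0 * X.m f ≤ 1) (hq1 : 40 * p.H ≤ η * p.q0)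
    (hB : 80 * (p.q0 * p.H ^ 3) ≤ η * p.B0) (P : V) :
    ∑ C : Finset V, bern X p.q0 C * ((1 / (p.S : ℝ)) *
      ∑ s ∈ range p.S, (fiD X p φ κ ord C s).drift P) ≤ η := by
  have hH : 0 < p.H := by linarith [hp.H1]
  have hb0 : (0 : ℝ) < p.B0 := by
    have := hp.B0
    exact_mod_cast this
  have hS : (0 : ℝ) < p.S := by
    have := hp.b.S1
    exact_mod_cast this
  have hη := hp.η0
  have hq0 := hp.q0
  set U : Finset V → ℝ := fun C => 2 * (X.I (X.nb P) fun f => if C ∩ (X.nb P ∩ X.nb f) = ∅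
        then X.ms (X.nb P ∩ X.nb f) else 0) +
      2 * p.H * (X.ms ((X.nb P).filter fun f => p.B0 < (C ∩ X.nb f).card)) with hU
  have h1 : ∀ C ∈ (univ : Finset (Finset V)), bern X p.q0 C * ((1 / (p.S : ℝ)) *
      ∑ s ∈ range p.S, (fiD X p φ κ ord C s).drift P) ≤
      bern X p.q0 C * U C + 2 * p.H * (p.eG + p.tau 0) *
        (bern X p.q0 C * ((C ∩ X.nb P).card : ℝ)) + bern X p.q0 C * (3 * η / 4) := by
    intro C _
    have h2 := fi_sum_drift hp h C P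
    have h3 : (1 / (p.S : ℝ)) * ∑ s ∈ range p.S, (fiD X p φ κ ord C s).drift P ≤
        U C + 2 * p.H * (p.eG + p.tau 0) * ((C ∩ X.nb P).card : ℝ) + 3 * η / 4 := by
      rw [one_div, inv_mul_le_iff₀ hS]
      refine h2.trans (le_of_eq ?_)
      rw [hU]
      ring
    refine (mul_le_mul_of_nonneg_left h3 (bern_nonneg h.hX hq0.le hq C)).trans (le_of_eq ?_)
    ring
  refine (sum_le_sum h1).trans ?_
  rw [sum_add_distrib, sum_add_distrib, ← mul_sum, ← sum_mul, bern_sum, bern_card]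
  have h2 : ∑ C : Finset V, bern X p.q0 C * U C ≤ 2 * (p.H / p.q0) +
      2 * (p.q0 * p.H ^ 3 / p.B0) := cover_avg h.hX hq0 hq p.B0 hp.B0 P
  have h3 : 2 * (p.H / p.q0) ≤ η / 20 := by
    rw [← mul_div_assoc, div_le_iff₀ hq0]
    linarith only [hq1]
  have h4 : 2 * (p.q0 * p.H ^ 3 / p.B0) ≤ η / 40 := by
    rw [← mul_div_assoc, div_le_iff₀ hb0]
    linarith only [hB]
  have h5 : 2 * p.H * (p.eG + p.tau 0) * (p.q0 * X.ms (X.nb P)) ≤ η / 20 + η / 20 := by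
    have ht := hp.tau_pos 0
    have he := hp.b.eG0
    calc 2 * p.H * (p.eG + p.tau 0) * (p.q0 * X.ms (X.nb P)) ≤
          2 * p.H * (p.eG + p.tau 0) * (p.q0 * p.H) := by
          refine mul_le_mul_of_nonneg_left ?_ (by positivity)
          exact mul_le_mul_of_nonneg_left (h.hX.deg P) hq0.le
      _ = 2 * p.H * (p.q0 * p.H) * p.eG + 2 * p.H * (p.q0 * p.H) * p.tau 0 := by ring
      _ ≤ η / 20 + η / 20 := add_le_add hp.b.eGq hp.tq
  linarith only [h2, h3, h4, h5, hη]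

/-- The mean mass of the positive part of a row. -/
theorem fi_pos (hp : FPar p cG η Tf) (h : FSet X p φ κ ord) (C : Finset V) (P : V) {s : ℕ}
    (hs : s < p.S) :
    (X.I univ fun f => max ((fiD X p φ κ ord C s).u P f) 0) ≤ (p.B0 + 1) * X.ms (X.nb P) := by
  have hm := h.hX.m_nonneg
  have hD := fi_ok hp h C hs
  have h1 : (X.I univ fun f => max ((fiD X p φ κ ord C s).u P f) 0) ≤
      (X.I univ fun f => max ((fiD X p φ κ ord C s).h P f) 0) +
        X.I univ ((fiD X p φ κ ord C s).b P) := by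
    unfold Sys.I
    rw [← sum_add_distrib]
    refine sum_le_sum fun f _ => ?_
    rw [← mul_add]
    refine mul_le_mul_of_nonneg_left ?_ (hm f)
    have hb := Ctx.b_nonneg hD P f
    unfold Ctx.u
    refine max_le ?_ ?_
    · linarith [le_max_left ((fiD X p φ κ ord C s).h P f) 0]
    · linarith [le_max_right ((fiD X p φ κ ord C s).h P f) 0]
  have h2 : (X.I univ fun f => max ((fiD X p φ κ ord C s).h P f) 0) ≤
      p.B0 * X.ms (X.nb P) := Ctx.I_h_pos hD P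
  have h3 : X.I univ ((fiD X p φ κ ord C s).b P) ≤ X.ms (X.nb P) := Ctx.I_b hD P
  linarith


end

theorem fi_sum_prod (X : Sys V) (q0 : ℝ) (S : ℕ) (F : Finset V → ℕ → ℝ) :
    ∑ ω : Finset V × Fin S, (1 / (S : ℝ)) * bern X q0 ω.1 * F ω.1 ω.2 =
      ∑ C : Finset V, bern X q0 C * ((1 / (S : ℝ)) * ∑ s ∈ range S, F C s) := by
  rw [Fintype.sum_prod_type]
  refine sum_congr rfl fun C _ => ?_
  rw [← Fin.sum_univ_eq_sum_range (fun s => F C s) S, mul_sum, mul_sum]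
  exact sum_congr rfl fun s _ => by ring

/-- The static theorem. -/
theorem static_theorem : ∀ (H η : ℝ), 1 ≤ H → 0 < η → η ≤ 1 → ∃ (C q0 : ℝ), 0 < C ∧ 0 < q0 ∧
    ∀ T : ℝ → ℝ → ℝ, ∃ (B τ : ℝ) (B0 : ℕ), 0 < B ∧ 0 < τ ∧
    ∀ (V : Type u) [Fintype V] (X : Sys V), X.Ok H → (∀ f, q0 * X.m f ≤ 1) → X.Ker T →
    ∃ (Ω : Type u) (_ : Fintype Ω) (pr : Ω → ℝ) (CC : Ω → Finset V) (u : Ω → V → V → ℝ),
      (∀ ω, 0 ≤ pr ω) ∧ ∑ ω, pr ω = 1 ∧
      (∀ ω P f, X.lk f P → u ω P f = -1) ∧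
      (∀ ω P f, ¬ X.lk f P → 0 ≤ u ω P f ∧ u ω P f ≤ B) ∧
      (∀ ω P f, u ω P f ≠ 0 → X.lk f P ∨ ∃ c ∈ CC ω, X.lk f c ∧
        (CC ω ∩ X.nb f).card ≤ B0 ∧
        ((X.lk P c ∧ (CC ω ∩ X.nb P).card ≤ B0) ∨
          τ ≤ X.ms (X.nb c ∩ X.nb P))) ∧
      (∀ c, ∑ ω, pr ω * (if c ∈ CC ω then 1 else 0) ≤ q0 * X.m c) ∧
      (∀ P, ∑ ω, pr ω * (X.I univ fun f => max (u ω P f) 0) ≤ C * X.ms (X.nb P)) ∧
      (∀ P, ∑ ω, pr ω * (X.I univ fun f => u ω P f * X.I (X.nb P) fun Z => u ω Z f) ≤ η) := by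
  intro H η hH hη hη1
  have hH0 : 0 < H := by linarith
  set q0 := 40 * H / η with hq0d
  have hq0 : 0 < q0 := by positivity
  obtain ⟨b', hb'⟩ := exists_nat_ge (80 * (q0 * H ^ 3) / η)
  set b := b' + 1 with hbd
  have hb1 : 1 ≤ b := by omega
  have hbr : (0 : ℝ) < b := by exact_mod_cast hb1
  have hbB : 80 * (q0 * H ^ 3) ≤ η * b := by
    rw [div_le_iff₀ hη] at hb'
    have : (b' : ℝ) ≤ b := by rw [hbd]; push_cast; linarith
    nlinarith
  refine ⟨b + 1, q0, by positivity, hq0, ?_⟩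
  intro Tf
  obtain ⟨ga, e', e1, e2, e3, eG, ep, be, cG, S, hbase⟩ := fi_base hH hη hη1 hq0 hb1
  -- the constants of the levels
  have hinit : ∃ x : FSt, FPos x ∧ (2 * H * (q0 * H) * x.tau ≤ η / 20 ∧
      H ^ 2 / x.tau * (b * H / x.tau * x.del) ≤ cG) := by
    obtain ⟨t, t0, -, t2⟩ := fi_small (K := 2 * H * (q0 * H)) (e := η / 20) (by positivity)
      (by positivity) one_pos
    obtain ⟨l, l0, -, l2⟩ := fi_small (K := H ^ 2 / t * (b * H / t)) (by positivity)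
      hbase.cG0 one_pos
    refine ⟨⟨t, 1, 1, 1, 1, l⟩, ⟨t0, one_pos, le_rfl, one_pos, le_rfl, l0⟩, t2 _ le_rfl, ?_⟩
    have := l2 _ le_rfl
    rw [mul_assoc] at this
    exact this
  obtain ⟨a, ha0, haP, haR⟩ := fi_seq (R := FStep H η be ga e3 eG cG e' b Tf) hinit
    (fun x hx => fi_step hH hη hbase.be0 hbase.ga0 hbase.e30 hbase.eG0 hbase.cG0 hb1 Tf x hx)
  let p : Par := ⟨H, q0, b, ga, e', e1, e2, e3, eG, ep, be, S, fun r => (a r).tau,
    fun r => (a r).rho, fun r => (a r).N, fun r => (a r).mu, fun r => (a r).T,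
    fun r => (a r).del⟩
  have hp : FPar p cG η Tf := ⟨hη, hH, hq0, hbase, hb1, haP, haR, ha0.1, ha0.2⟩
  have hS0 : (0 : ℝ) < S := by
    have := hbase.S1
    exact_mod_cast this
  have hT0 : 0 < p.T S := lt_of_lt_of_le one_pos (hp.T_one S)
  have hbe := hbase.be0
  refine ⟨2 / be + b * p.T S * H + 1, p.tau S, b, by positivity, hp.tau_pos S, ?_⟩
  intro V _ X hX hq hKer
  -- labels
  let ord : V → ℕ := fun f => (Fintype.equivFin V f : ℕ)
  have hord : Function.Injective ord := fun f g h =>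
    (Fintype.equivFin V).injective (Fin.ext h)
  have hN : p.NOK := ⟨(haP 0).2.2.1, fun r => (haR r).N⟩
  have hlev : ∀ C : Finset V, ∃ φ : ℕ → V → V → ℕ,
      Ctx.LevOK { (⟨X, p, C, fun _ _ _ => 0, fun _ _ _ => 0, 0, ord⟩ : Ctx V) with φ := φ } :=
    fun C => exists_lev ⟨X, p, C, fun _ _ _ => 0, fun _ _ _ => 0, 0, ord⟩ hX
      (fun r => (haP r).2.2.2.2.2) (fun r => (haP r).1) (fun r => (haP r).2.1) hN
  choose φ hφ using hlev
  -- kernels
  have hker : ∀ (s : ℕ) (o : Finset V), ∃ t : V → V → ℝ, (∃ c, o ⊆ X.nb c) →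
      p.mu (s + 1) ≤ X.ms o → X.KerOK o (p.T (s + 1)) p.e' t := by
    intro s o
    by_cases h : (∃ c, o ⊆ X.nb c) ∧ p.mu (s + 1) ≤ X.ms o
    · obtain ⟨⟨c, hc⟩, ho⟩ := h
      obtain ⟨t, ht⟩ := hKer (p.mu (s + 1)) e' ((haP (s + 1)).2.2.2.1) hbase.e'0 c o hc ho
      exact ⟨t, fun _ _ => ⟨ht.symm, ht.nonneg, fun f P => (ht.le f P).trans (haR s).T_f,
        ht.supp, ht.row, ht.psd⟩⟩
    · exact ⟨fun _ _ => 0, fun h1 h2 => absurd ⟨h1, h2⟩ h⟩
  choose κ hκ using hker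
  have hF : FSet X p φ κ ord :=
    ⟨hX, fun C s => ⟨(hφ C).ref, (hφ C).tr, (hφ C).card, (hφ C).reg⟩, hκ, hord⟩
  refine ⟨Finset V × Fin S, inferInstance, fun ω => (1 / (S : ℝ)) * bern X q0 ω.1,
    fun ω => ω.1, fun ω => (fiD X p φ κ ord ω.1 ω.2).u, ?_, ?_, ?_, ?_, ?_, ?_, ?_, ?_⟩
  · intro ω
    exact mul_nonneg (by positivity) (bern_nonneg hX hq0.le hq _)
  · have h := fi_sum_prod X q0 S (fun _ _ => 1)
    simp only [mul_one, sum_const, card_range, nsmul_eq_mul] at h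
    refine h.trans ?_
    have h1 : (1 / (S : ℝ)) * S = 1 := by field_simp
    rw [h1]
    simp only [mul_one]
    exact bern_sum X q0
  · intro ω P f hl
    exact Ctx.u_link (fi_ok hp hF ω.1 ω.2.2) hl
  · intro ω P f hl
    have hD := fi_ok hp hF ω.1 ω.2.2
    refine ⟨Ctx.u_nonneg hD hl, ?_⟩
    refine (le_abs_self _).trans ((Ctx.abs_u_le hD P f).trans ?_)
    show 2 / be + b * p.T (ω.2 + 1) * H + 1 ≤ 2 / be + b * p.T S * H + 1
    have hT : p.T (ω.2 + 1) ≤ p.T S := hp.T_mono (by have := ω.2.2; omega)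
    have : b * p.T (ω.2 + 1) * H ≤ b * p.T S * H := by gcongr
    linarith
  · intro ω P f hne
    have hD := fi_ok hp hF ω.1 ω.2.2
    rcases Ctx.u_supp hD hne with h | ⟨c, hc, hf, h⟩
    · exact Or.inl h
    · refine Or.inr ⟨c, hc, ?_⟩
      have hf1 : f ∈ X.nb c ∩ (fiD X p φ κ ord ω.1 ω.2).ok := hf
      rw [mem_inter] at hf1
      have hf2 : X.lk f c := (mem_filter.1 hf1.1).2
      have hf3 : (ω.1 ∩ X.nb f).card ≤ b := (mem_filter.1 hf1.2).2
      refine ⟨hf2, hf3, ?_⟩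
      rcases h with h | h
      · left
        have h1 : P ∈ X.nb c ∩ (fiD X p φ κ ord ω.1 ω.2).ok := h
        rw [mem_inter] at h1
        exact ⟨(mem_filter.1 h1.1).2, (mem_filter.1 h1.2).2⟩
      · right
        have h1 : p.tau ω.2 ≤ X.ms ((fiD X p φ κ ord ω.1 ω.2).E c ∩ X.nb P) :=
          (mem_filter.1 h).2
        have h2 : p.tau S ≤ p.tau ω.2 := hp.tau_anti ω.2.2.le
        refine h2.trans (h1.trans ?_)
        refine ms_mono hX.m_nonneg ?_
        exact inter_subset_inter_right inter_subset_left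
  · intro c
    have h := fi_sum_prod X q0 S (fun C _ => if c ∈ C then 1 else 0)
    refine (le_of_eq h).trans ?_
    simp only [sum_const, card_range, nsmul_eq_mul]
    refine le_of_eq ?_
    rw [← bern_mem X q0 c]
    refine sum_congr rfl fun C _ => ?_
    field_simp
  · intro P
    have h := fi_sum_prod X q0 S
      (fun C s => X.I univ fun f => max ((fiD X p φ κ ord C s).u P f) 0)
    refine (le_of_eq h).trans ?_
    have h1 : ∀ C ∈ (univ : Finset (Finset V)), bern X q0 C * ((1 / (S : ℝ)) *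
        ∑ s ∈ range S, X.I univ fun f => max ((fiD X p φ κ ord C s).u P f) 0) ≤
        bern X q0 C * ((b + 1) * X.ms (X.nb P)) := by
      intro C _
      refine mul_le_mul_of_nonneg_left ?_ (bern_nonneg hX hq0.le hq C)
      rw [one_div, inv_mul_le_iff₀ hS0]
      refine (sum_le_card_nsmul (range S) _ ((b + 1) * X.ms (X.nb P)) fun s hs => ?_).trans
        (le_of_eq ?_)
      · exact fi_pos hp hF C P (mem_range.1 hs)
      · rw [card_range, nsmul_eq_mul]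
    refine (sum_le_sum h1).trans (le_of_eq ?_)
    rw [← sum_mul, bern_sum, one_mul]
  · intro P
    have h := fi_sum_prod X q0 S (fun C s => (fiD X p φ κ ord C s).drift P)
    refine (le_of_eq h).trans ?_
    refine fi_mean_drift hp hF hq ?_ hbB P
    show 40 * H ≤ η * q0
    rw [hq0d]
    exact le_of_eq (by field_simp)

end Pool.Agent.AcyS
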