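import Mathlib

/-! # The constants of the static theorem (project MP_af9dfb_S, module S15, part 0) -/

set_option autoImplicit false
set_option linter.unusedSectionVars false

namespace Pool.Agent.AcyS

universe u

/-- State of the recursion for the constants of the levels. -/
structure FSt where
  tau : ℝ
  rho : ℝ
  N : ℕ
  mu : ℝ
  T : ℝ
  del : ℝ

theorem fi_seq {P I : FSt → Prop} {R : FSt → FSt → Prop} (h0 : ∃ x, P x ∧ I x)
    (h : ∀ x, P x → ∃ y, P y ∧ R x y) :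
    ∃ a : ℕ → FSt, I (a 0) ∧ (∀ r, P (a r)) ∧ ∀ r, R (a r) (a (r + 1)) := by
  classical
  obtain ⟨x0, hx0, hI⟩ := h0
  choose! g hg1 hg2 using h
  let a : ℕ → FSt := fun r => Nat.rec x0 (fun _ x => g x) r
  have hP : ∀ r, P (a r) := by
    intro r
    induction r with
    | zero => exact hx0
    | succ r ih => exact hg1 _ ih
  exact ⟨a, hI, hP, fun r => hg2 _ (hP r)⟩

theorem fi_small {K e d0 : ℝ} (hK : 0 ≤ K) (he : 0 < e) (hd : 0 < d0) :
    ∃ d : ℝ, 0 < d ∧ d ≤ d0 ∧ ∀ k, k ≤ K → k * d ≤ e := by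
  refine ⟨min d0 (e / (K + 1)), lt_min hd (by positivity), min_le_left _ _, ?_⟩
  intro k hk
  have h1 : min d0 (e / (K + 1)) ≤ e / (K + 1) := min_le_right _ _
  have h0 : 0 < min d0 (e / (K + 1)) := lt_min hd (by positivity)
  calc k * min d0 (e / (K + 1)) ≤ (K + 1) * min d0 (e / (K + 1)) :=
        mul_le_mul_of_nonneg_right (by linarith) h0.le
    _ ≤ (K + 1) * (e / (K + 1)) := mul_le_mul_of_nonneg_left h1 (by linarith)
    _ = e := by field_simp

/-- Positivity of a state. -/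
def FPos (x : FSt) : Prop :=
  0 < x.tau ∧ 0 < x.rho ∧ 1 ≤ x.N ∧ 0 < x.mu ∧ 1 ≤ x.T ∧ 0 < x.del

/-- The conditions that connect two consecutive states. -/
structure FStep (H η be ga e3 eG cG e' : ℝ) (b : ℕ) (Tf : ℝ → ℝ → ℝ) (x y : FSt) : Prop where
  tau_le : y.tau ≤ x.tau
  tau_T : x.T ^ 2 * b * H ^ 3 * y.tau ≤ η / 40
  rho : ∃ d : ℝ, 0 < d ∧ 2 * (2 / be + b * x.T * H + 1 + 1) / be *
    (b * ((b * H / x.tau + b + 1) * H) / d * Real.sqrt (H * y.rho) + H * (b * H / x.tau) * d) ≤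
      η / 40
  N : x.N * (x.N + 1) ^ ⌈b * H / x.del⌉₊ *
    2 ^ (⌈(H ^ 2 / y.tau + 1) ^ 4 * H ^ 2 / y.rho ^ 2⌉₊ + 1) ≤ y.N
  mu : y.mu * (2 * y.N) ≤ e3 * (eG / (2 * x.N))
  T_le : x.T ≤ y.T
  T_f : Tf y.mu e' ≤ y.T
  del_le : y.del ≤ x.del
  del_G : H ^ 2 / y.tau * (b * H / y.tau * y.del) ≤ cG
  del_1 : (2 * (2 / be + b * y.T * H + 1 + 3) / be + 1) * (H * (b * H / x.tau) ^ 2 * y.del) ≤
    η / 40
  del_2 : 2 / (be * ga) * (y.T * b * H ^ 2 * (b * H / x.tau) * y.del) ≤ η / 40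
  del_3 : 8 * b * H ^ 2 / (be * y.mu) * (((b * H / x.tau) ^ 2 + b * H / x.tau) * y.del) ≤ η / 40

theorem fi_step {H η be ga e3 eG cG e' : ℝ} {b : ℕ} (hH : 1 ≤ H) (hη : 0 < η) (hbe : 0 < be)
    (hga : 0 < ga) (he3 : 0 < e3) (heG : 0 < eG) (hcG : 0 < cG) (hb : 1 ≤ b)
    (Tf : ℝ → ℝ → ℝ) (x : FSt) (hx : FPos x) :
    ∃ y, FPos y ∧ FStep H η be ga e3 eG cG e' b Tf x y := by
  obtain ⟨ht, hr, hN, hm, hT, hd⟩ := hx
  have hb0 : (0 : ℝ) < b := by exact_mod_cast hb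
  have hH0 : 0 < H := by linarith
  have hT0 : 0 < x.T := by linarith
  have hN0 : (0 : ℝ) < x.N := by exact_mod_cast hN
  have hη4 : 0 < η / 40 := by positivity
  have hη8 : 0 < η / 80 := by positivity
  -- tau
  obtain ⟨t, t0, t1, t2⟩ := fi_small (K := x.T ^ 2 * b * H ^ 3) (by positivity) hη4 ht
  -- d and rho
  set c := 2 * (2 / be + b * x.T * H + 1 + 1) / be with hc
  have hc0 : 0 < c := by positivity
  have hR0 : 0 < b * H / x.tau := by positivity
  obtain ⟨d, d0, -, d2⟩ := fi_small (K := c * (H * (b * H / x.tau))) (by positivity) hη8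
    one_pos
  obtain ⟨w, w0, -, w2⟩ := fi_small (K := c * (b * ((b * H / x.tau + b + 1) * H) / d))
    (by positivity) hη8 one_pos
  have hw : Real.sqrt (H * (w ^ 2 / H)) = w := by
    rw [mul_div_cancel₀ _ hH0.ne']
    exact Real.sqrt_sq w0.le
  -- N, mu, T
  set ρ := w ^ 2 / H with hρ
  have ρ0 : 0 < ρ := by positivity
  set n : ℕ := x.N * (x.N + 1) ^ ⌈b * H / x.del⌉₊ *
    2 ^ (⌈(H ^ 2 / t + 1) ^ 4 * H ^ 2 / ρ ^ 2⌉₊ + 1) with hn
  have hn1 : 1 ≤ n := by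
    rw [hn]
    exact Nat.one_le_iff_ne_zero.2 (by positivity)
  have hn0 : (0 : ℝ) < n := by exact_mod_cast hn1
  set m := e3 * (eG / (2 * x.N)) / (2 * n) with hmm
  have m0 : 0 < m := by positivity
  set T := max x.T (Tf m e') with hTT
  have hT1 : 1 ≤ T := le_trans hT (le_max_left _ _)
  have hT2 : 0 < T := by linarith
  -- del
  set k1 := H ^ 2 / t * (b * H / t) with hk1
  set k2 := (2 * (2 / be + b * T * H + 1 + 3) / be + 1) * (H * (b * H / x.tau) ^ 2) with hk2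
  set k3 := 2 / (be * ga) * (T * b * H ^ 2 * (b * H / x.tau)) with hk3
  set k4 := 8 * b * H ^ 2 / (be * m) * ((b * H / x.tau) ^ 2 + b * H / x.tau) with hk4
  have hk10 : 0 < k1 := by positivity
  have hk20 : 0 < k2 := by positivity
  have hk30 : 0 < k3 := by positivity
  have hk40 : 0 < k4 := by positivity
  obtain ⟨l, l0, l1, l2⟩ := fi_small (K := k1 + k2 + k3 + k4) (by positivity)
    (lt_min hη4 hcG) hd
  refine ⟨⟨t, ρ, n, m, T, l⟩, ⟨t0, ρ0, hn1, m0, hT1, l0⟩, ?_⟩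
  constructor
  · exact t1
  · exact t2 _ le_rfl
  · refine ⟨d, d0, ?_⟩
    show c * (b * ((b * H / x.tau + b + 1) * H) / d * Real.sqrt (H * ρ) +
      H * (b * H / x.tau) * d) ≤ η / 40
    rw [hρ, hw]
    have h1 := d2 _ le_rfl
    have h2 := w2 _ le_rfl
    nlinarith [h1, h2]
  · exact le_rfl
  · show m * (2 * n) ≤ e3 * (eG / (2 * x.N))
    rw [hmm]
    exact le_of_eq (by field_simp)
  · exact le_max_left _ _
  · exact le_max_right _ _
  · exact l1
  · have h := l2 k1 (by linarith)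
    have h' := le_trans h (min_le_right _ _)
    show H ^ 2 / t * (b * H / t * l) ≤ cG
    rw [hk1] at h'
    linarith [mul_assoc (H ^ 2 / t) (b * H / t) l]
  · have h := le_trans (l2 k2 (by linarith)) (min_le_left _ _)
    show (2 * (2 / be + b * T * H + 1 + 3) / be + 1) * (H * (b * H / x.tau) ^ 2 * l) ≤ η / 40
    rw [hk2] at h
    linarith [mul_assoc (2 * (2 / be + b * T * H + 1 + 3) / be + 1)
      (H * (b * H / x.tau) ^ 2) l]
  · have h := le_trans (l2 k3 (by linarith)) (min_le_left _ _)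
    show 2 / (be * ga) * (T * b * H ^ 2 * (b * H / x.tau) * l) ≤ η / 40
    rw [hk3] at h
    linarith [mul_assoc (2 / (be * ga)) (T * b * H ^ 2 * (b * H / x.tau)) l]
  · have h := le_trans (l2 k4 (by linarith)) (min_le_left _ _)
    show 8 * b * H ^ 2 / (be * m) * (((b * H / x.tau) ^ 2 + b * H / x.tau) * l) ≤ η / 40
    rw [hk4] at h
    linarith [mul_assoc (8 * b * H ^ 2 / (be * m)) ((b * H / x.tau) ^ 2 + b * H / x.tau) l]

end Pool.Agent.AcyS
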