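import Pool.Agent.AcyS.Regular

/-! # Levels of partitions of the worlds (project MP_af9dfb, seminar page 3, section 1)

Worlds `E c`, `c ∈ S`; every site is in at most `B0` worlds.  `fam r c` is the finite family of sets
generating the partition of `E c` of level `r`. -/

set_option autoImplicit false
set_option linter.unusedSectionVars false

namespace Pool.Agent.AcyS.En

open Finset
open scoped Classical

variable {F : Type*} [Fintype F] {ι : Type*}

/-- Hypotheses on the worlds. -/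
structure Wd (m : F → ℝ) (N : F → Finset F) (S : Finset ι) (E : ι → Finset F) (B0 H : ℝ) :
    Prop where
  m0 : ∀ f, 0 ≤ m f
  B0_nonneg : 0 ≤ B0
  symm : ∀ f g, f ∈ N g → g ∈ N f
  hN : ∀ P, ms m (N P) ≤ H
  hE : ∀ c, ms m (E c) ≤ H
  cnt : ∀ f, ((S.filter fun c => f ∈ E c).card : ℝ) ≤ B0

section

variable {m : F → ℝ} {N : F → Finset F} {S : Finset ι} {E : ι → Finset F} {B0 H : ℝ}

/-- sums over the worlds -/
theorem Wd.sum_le (hw : Wd m N S E B0 H) (T : Finset F) {g : F → ℝ} (hg : ∀ f, 0 ≤ g f) :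
    ∑ c ∈ S, ∑ f ∈ E c ∩ T, g f ≤ B0 * ∑ f ∈ T, g f := by
  have h1 : ∀ c ∈ S, ∑ f ∈ E c ∩ T, g f = ∑ f ∈ T, if f ∈ E c then g f else 0 := by
    intro c _
    rw [← sum_filter]
    congr 1
    ext f
    simp [and_comm]
  rw [sum_congr rfl h1, sum_comm, mul_sum]
  refine sum_le_sum fun f _ => ?_
  rw [← sum_filter, sum_const, nsmul_eq_mul]
  exact mul_le_mul_of_nonneg_right (hw.cnt f) (hg f)

theorem Wd.sum_ms (hw : Wd m N S E B0 H) (T : Finset F) :
    ∑ c ∈ S, ms m (E c ∩ T) ≤ B0 * ms m T := hw.sum_le T hw.m0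

theorem Wd.H_nonneg (hw : Wd m N S E B0 H) [Nonempty F] : 0 ≤ H :=
  (ms_nonneg hw.m0 _).trans (hw.hN (Classical.arbitrary F))

/-- number of worlds which have a large intersection with a given set -/
theorem Wd.card_large (hw : Wd m N S E B0 H) (T : Finset F) (δ : ℝ) :
    δ * ((S.filter fun c => δ ≤ ms m (T ∩ E c)).card : ℝ) ≤ B0 * ms m T := by
  refine le_trans ?_ (hw.sum_ms T)
  calc _ ≤ ∑ c ∈ S.filter fun c => δ ≤ ms m (T ∩ E c), ms m (T ∩ E c) := by
        rw [mul_comm, ← nsmul_eq_mul]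
        exact card_nsmul_le_sum _ _ _ fun c hc => (mem_filter.1 hc).2
    _ ≤ ∑ c ∈ S, ms m (T ∩ E c) :=
        sum_le_sum_of_subset_of_nonneg (filter_subset _ _) fun c _ _ => ms_nonneg hw.m0 _
    _ = _ := sum_congr rfl fun c _ => by rw [inter_comm]

/-- sites which are relevant for a world -/
noncomputable def Wt (m : F → ℝ) (N : F → Finset F) (T : Finset F) (τ : ℝ) : Finset F :=
  univ.filter fun Z => τ ≤ ms m (T ∩ N Z)

theorem mem_Wt {T : Finset F} {τ : ℝ} {Z : F} : Z ∈ Wt m N T τ ↔ τ ≤ ms m (T ∩ N Z) := by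
  simp [Wt]

/-- double counting -/
theorem Wd.sum_ms_inter (hw : Wd m N S E B0 H) (T U : Finset F) :
    ∑ Z ∈ U, m Z * ms m (T ∩ N Z) = ∑ f ∈ T, m f * ms m (U ∩ N f) := by
  have h1 : ∀ (T U : Finset F), ∑ Z ∈ U, m Z * ms m (T ∩ N Z) =
      ∑ Z ∈ U, ∑ f ∈ T, if f ∈ N Z then m Z * m f else 0 := by
    intro T U
    refine sum_congr rfl fun Z _ => ?_
    unfold ms
    rw [mul_sum, ← sum_filter]
    refine sum_congr ?_ fun _ _ => rfl
    ext f
    simp
  rw [h1, h1, sum_comm]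
  refine sum_congr rfl fun f _ => sum_congr rfl fun Z _ => ?_
  by_cases h : f ∈ N Z
  · rw [if_pos h, if_pos (hw.symm _ _ h), mul_comm]
  · rw [if_neg h, if_neg fun h' => h (hw.symm _ _ h')]

theorem Wd.ms_Wt (hw : Wd m N S E B0 H) (T : Finset F) (τ : ℝ) :
    τ * ms m (Wt m N T τ) ≤ ms m T * H := by
  calc τ * ms m (Wt m N T τ) = ∑ Z ∈ Wt m N T τ, m Z * τ := by
        unfold ms
        rw [mul_sum]
        exact sum_congr rfl fun _ _ => mul_comm _ _
    _ ≤ ∑ Z ∈ Wt m N T τ, m Z * ms m (T ∩ N Z) :=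
        sum_le_sum fun Z hZ => mul_le_mul_of_nonneg_left (mem_Wt.1 hZ) (hw.m0 Z)
    _ = ∑ f ∈ T, m f * ms m (Wt m N T τ ∩ N f) := hw.sum_ms_inter _ _
    _ ≤ ∑ f ∈ T, m f * H := by
        refine sum_le_sum fun f _ => mul_le_mul_of_nonneg_left ?_ (hw.m0 f)
        exact (ms_mono hw.m0 inter_subset_right).trans (hw.hN f)
    _ = _ := by rw [← sum_mul]; rfl

/-! ## Existence of the levels -/

/-- One-sided regularity of the partition `p` of `T`, at scale `τ`. -/
def Reg (m : F → ℝ) (N : F → Finset F) (T : Finset F) (p : F → Finset (Finset F)) (τ ρ : ℝ) :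
    Prop :=
  ∀ Z' ∈ Wt m N T τ, ∑ Z ∈ Wt m N T τ, m Z * ∑ f ∈ T, m f * cov m T p (ch (N Z)) (ch (N Z')) f ^ 2
    ≤ ρ

/-- The sets added by the other worlds. -/
noncomputable def tr (m : F → ℝ) (S : Finset ι) (E : ι → Finset F) (δ : ℝ)
    (h : ι → Finset (Finset F)) (c : ι) : Finset (Finset F) :=
  (S.filter fun c' => δ ≤ ms m (E c ∩ E c')).biUnion fun c' => insert (E c') (h c')

theorem card_tr (m : F → ℝ) (S : Finset ι) (E : ι → Finset F) (δ : ℝ)
    {h : ι → Finset (Finset F)} {n : ℕ} (hn : ∀ c, (h c).card ≤ n) (c : ι) :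
    (tr m S E δ h c).card ≤ (S.filter fun c' => δ ≤ ms m (E c ∩ E c')).card * (n + 1) :=
  card_biUnion_le_card_mul _ _ _ fun c' _ => (card_insert_le _ _).trans
    (Nat.add_le_add_right (hn c') 1)

/-- Number of sets of the next level. -/
noncomputable def nxt (B0 H τ δ ρ : ℝ) (n x : ℕ) : ℕ :=
  n + x + ⌊B0 * H / δ⌋₊ * (n + 1) + ⌊H ^ 3 / (4 * ρ * τ)⌋₊

/-- The levels. -/
structure Lev (m : F → ℝ) (N : F → Finset F) (S : Finset ι) (E : ι → Finset F)
    (τ δ ρ : ℕ → ℝ) (M : ℕ → ℕ) (X : ℕ → (ℕ → ι → Finset (Finset F)) → ι → Finset (Finset F))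
    (fam : ℕ → ι → Finset (Finset F)) : Prop where
  card : ∀ r c, (fam r c).card ≤ M r
  sub : ∀ r c, fam r c ⊆ fam (r + 1) c
  trc : ∀ r c, ∀ c' ∈ S, δ r ≤ ms m (E c ∩ E c') → E c' ∈ fam (r + 1) c ∧ fam r c' ⊆ fam (r + 1) c
  ext : ∀ r c, X r (fun i => fam (min i r)) c ⊆ fam (r + 1) c
  reg : ∀ r c, Reg m N (E c) (lab (fam (r + 1) c)) (τ r) (ρ r)

/-- **Existence of the levels.**  `X r h c` are arbitrary additional sets for level `r + 1` of the
world `c`, which may depend on all the levels `≤ r`. -/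
theorem exists_levels (hw : Wd m N S E B0 H) {τ δ ρ : ℕ → ℝ} {M x : ℕ → ℕ}
    (hτ : ∀ r, 0 < τ r) (hδ : ∀ r, 0 < δ r) (hρ : ∀ r, 0 < ρ r)
    (hM : ∀ r, nxt B0 H (τ r) (δ r) (ρ r) (M r) (x r) ≤ M (r + 1))
    (X : ℕ → (ℕ → ι → Finset (Finset F)) → ι → Finset (Finset F))
    (hX : ∀ r h, (∀ i ≤ r, ∀ c, (h i c).card ≤ M i) → ∀ c, (X r h c).card ≤ x r) :
    ∃ fam, Lev m N S E τ δ ρ M X fam := by
  -- one step
  have step : ∀ (r : ℕ) (h : ℕ → ι → Finset (Finset F)) (c : ι), ∃ 𝒵 : Finset F,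
      ((∀ c, (h r c).card ≤ M r) → (∀ i ≤ r, ∀ c, (h i c).card ≤ M i) →
        (h r c ∪ X r h c ∪ tr m S E (δ r) (h r) c ∪ 𝒵.image N).card ≤ M (r + 1)) ∧
      Reg m N (E c) (lab (h r c ∪ X r h c ∪ tr m S E (δ r) (h r) c ∪ 𝒵.image N)) (τ r) (ρ r) := by
    intro r h c
    obtain ⟨𝒵, -, h1, h2⟩ := exists_regular hw.m0 (Wt m N (E c) (τ r)) (fun Z _ => hw.m0 Z) N (hρ r)
      (E c) (h r c ∪ X r h c ∪ tr m S E (δ r) (h r) c)
    refine ⟨𝒵, fun hr hi => ?_, h2⟩
    have hEH : ms m (E c) ≤ H := hw.hE c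
    have hE0 : 0 ≤ ms m (E c) := ms_nonneg hw.m0 _
    have hH : 0 ≤ H := hE0.trans hEH
    have c1 : (S.filter fun c' => δ r ≤ ms m (E c ∩ E c')).card ≤ ⌊B0 * H / δ r⌋₊ := by
      rw [Nat.le_floor_iff (div_nonneg (mul_nonneg hw.B0_nonneg hH) (hδ r).le),
        le_div_iff₀ (hδ r), mul_comm]
      exact (hw.card_large (E c) (δ r)).trans (mul_le_mul_of_nonneg_left hEH hw.B0_nonneg)
    have c2 : 𝒵.card ≤ ⌊H ^ 3 / (4 * ρ r * τ r)⌋₊ := by
      have hden : 0 < 4 * ρ r * τ r := mul_pos (mul_pos (by norm_num) (hρ r)) (hτ r)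
      rw [Nat.le_floor_iff (div_nonneg (pow_nonneg hH 3) hden.le), le_div_iff₀ hden]
      have k1 : (𝒵.card : ℝ) * (4 * ρ r) ≤ ms m (Wt m N (E c) (τ r)) * ms m (E c) := h1
      have k2 := hw.ms_Wt (E c) (τ r)
      calc (𝒵.card : ℝ) * (4 * ρ r * τ r) = (𝒵.card : ℝ) * (4 * ρ r) * τ r := by ring
        _ ≤ ms m (Wt m N (E c) (τ r)) * ms m (E c) * τ r :=
            mul_le_mul_of_nonneg_right k1 (hτ r).le
        _ = τ r * ms m (Wt m N (E c) (τ r)) * ms m (E c) := by ring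
        _ ≤ ms m (E c) * H * ms m (E c) := mul_le_mul_of_nonneg_right k2 hE0
        _ ≤ H * H * H := mul_le_mul (mul_le_mul_of_nonneg_right hEH hH) hEH hE0
            (mul_nonneg hH hH)
        _ = H ^ 3 := by ring
    refine le_trans ?_ (hM r)
    unfold nxt
    refine (card_union_le _ _).trans (Nat.add_le_add ?_ (card_image_le.trans c2))
    refine (card_union_le _ _).trans (Nat.add_le_add ?_ ?_)
    · exact (card_union_le _ _).trans (Nat.add_le_add (hr c) (hX r h hi c))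
    · exact (card_tr m S E (δ r) hr c).trans (Nat.mul_le_mul_right _ c1)
  choose 𝒵 h𝒵 using step
  -- the next level and the history
  set lv : ℕ → (ℕ → ι → Finset (Finset F)) → ι → Finset (Finset F) := fun r h c =>
    h r c ∪ X r h c ∪ tr m S E (δ r) (h r) c ∪ (𝒵 r h c).image N with hlv
  set hist : ℕ → (ℕ → ι → Finset (Finset F)) := fun r => Nat.rec (fun _ _ => ∅)
    (fun r h i => if i ≤ r then h i else lv r h) r with hhist
  have hs : ∀ r i, hist (r + 1) i = if i ≤ r then hist r i else lv r (hist r) := fun r i => rfl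
  set fam : ℕ → ι → Finset (Finset F) := fun r => hist r r with hfam
  have hf1 : ∀ r, fam (r + 1) = lv r (hist r) := fun r => by
    rw [hfam]
    simp only
    rw [hs, if_neg (by omega)]
  have hmin : ∀ r i, hist r i = fam (min i r) := by
    intro r
    induction r with
    | zero =>
      intro i
      rw [hfam, hhist]
      simp
    | succ r ih =>
      intro i
      rw [hs]
      by_cases hi : i ≤ r
      · rw [if_pos hi, ih, min_eq_left hi, min_eq_left (by omega)]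
      · rw [if_neg hi, min_eq_right (by omega), hf1]
  have hhist' : ∀ r, hist r = fun i => fam (min i r) := fun r => funext (hmin r)
  have hrr : ∀ r, hist r r = fam r := fun r => rfl
  have hcard : ∀ r, ∀ i ≤ r, ∀ c, (fam i c).card ≤ M i := by
    intro r
    induction r with
    | zero =>
      intro i hi c
      obtain rfl : i = 0 := by omega
      rw [hfam, hhist]
      simp
    | succ r ih =>
      intro i hi c
      by_cases h : i ≤ r
      · exact ih i h c
      · obtain rfl : i = r + 1 := by omega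
        rw [hf1]
        refine (h𝒵 r (hist r) c).1 (fun c => ih r le_rfl c) fun i hi c => ?_
        rw [hmin, min_eq_left hi]
        exact ih i hi c
  refine ⟨fam, fun r c => hcard r r le_rfl c, fun r c => ?_, fun r c c' hc' hd => ?_,
    fun r c => ?_, fun r c => ?_⟩
  · rw [hf1]
    intro A hA
    exact mem_union_left _ (mem_union_left _ (mem_union_left _ hA))
  · have h1 : insert (E c') (fam r c') ⊆ fam (r + 1) c := by
      rw [hf1]
      intro A hA
      refine mem_union_left _ (mem_union_right _ ?_)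
      exact mem_biUnion.2 ⟨c', mem_filter.2 ⟨hc', hd⟩, hA⟩
    exact ⟨h1 (mem_insert_self _ _), fun A hA => h1 (mem_insert_of_mem hA)⟩
  · rw [hf1, ← hhist']
    intro A hA
    exact mem_union_left _ (mem_union_left _ (mem_union_right _ hA))
  · rw [hf1]
    exact (h𝒵 r (hist r) c).2

end

/-! ## Consequences -/

section cons

variable {m : F → ℝ} {N : F → Finset F} {S : Finset ι} {E : ι → Finset F} {B0 H : ℝ}
  {τ δ ρ : ℕ → ℝ} {M : ℕ → ℕ}
  {X : ℕ → (ℕ → ι → Finset (Finset F)) → ι → Finset (Finset F)}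
  {fam : ℕ → ι → Finset (Finset F)}

/-- average of the set `A` in the world `c` at level `r` -/
noncomputable def av (m : F → ℝ) (E : ι → Finset F) (fam : ℕ → ι → Finset (Finset F)) (r : ℕ)
    (c : ι) (A : Finset F) (f : F) : ℝ := ce m (E c) (lab (fam r c)) (ch A) f

/-- energy of the set `A` at level `r` -/
noncomputable def ens (m : F → ℝ) (S : Finset ι) (E : ι → Finset F)
    (fam : ℕ → ι → Finset (Finset F)) (A : Finset F) (r : ℕ) : ℝ :=
  ∑ c ∈ S, en m (E c) (lab (fam r c)) (ch A)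

theorem Lev.mono (hl : Lev m N S E τ δ ρ M X fam) {a b : ℕ} (h : a ≤ b) (c : ι) :
    fam a c ⊆ fam b c := by
  induction b, h using Nat.le_induction with
  | base => exact Subset.rfl
  | succ b _ ih => exact ih.trans (hl.sub b c)

theorem av_nonneg (hm : ∀ f, 0 ≤ m f) (r : ℕ) (c : ι) (A : Finset F) (f : F) :
    0 ≤ av m E fam r c A f := ce_nonneg hm (fun f _ => ch_nonneg A f) f

theorem av_le_one (hm : ∀ f, 0 ≤ m f) (r : ℕ) (c : ι) (A : Finset F) (f : F) :
    av m E fam r c A f ≤ 1 := ce_le hm zero_le_one (fun f _ => ch_le A f) f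

theorem Lev.ens_mono (hl : Lev m N S E τ δ ρ M X fam) (hm : ∀ f, 0 ≤ m f) (A : Finset F)
    {a b : ℕ} (h : a ≤ b) : ens m S E fam A a ≤ ens m S E fam A b :=
  sum_le_sum fun c _ => en_mono hm (lab_refines (hl.mono h c) _) _

theorem ens_nonneg (hm : ∀ f, 0 ≤ m f) (A : Finset F) (r : ℕ) : 0 ≤ ens m S E fam A r :=
  sum_nonneg fun _ _ => en_nonneg hm _

theorem sum_mul_ch (m : F → ℝ) (E A : Finset F) : ∑ f ∈ E, m f * ch A f = ms m (E ∩ A) := by
  unfold ch ms
  simp only [mul_ite, mul_one, mul_zero]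
  rw [← sum_filter]
  refine sum_congr ?_ fun _ _ => rfl
  ext f
  simp

theorem ens_le (hw : Wd m N S E B0 H) (A : Finset F) (r : ℕ) :
    ens m S E fam A r ≤ B0 * ms m A := by
  refine le_trans (sum_le_sum fun c _ => ?_) (hw.sum_ms A)
  rw [← sum_mul_ch]
  exact en_le_ms hw.m0 (fun f _ => ch_nonneg _ f) (fun f _ => ch_le _ f)

theorem ens_N_le (hw : Wd m N S E B0 H) (P : F) (r : ℕ) :
    ens m S E fam (N P) r ≤ B0 * H :=
  (ens_le hw _ r).trans (mul_le_mul_of_nonneg_left (hw.hN P) hw.B0_nonneg)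

/-- **Random level**: the increments over `k` levels are small on average. -/
theorem Lev.sum_ens (hl : Lev m N S E τ δ ρ M X fam) (hw : Wd m N S E B0 H) (P : F) (L k : ℕ) :
    ∑ s ∈ range L, (ens m S E fam (N P) (s + k) - ens m S E fam (N P) s) ≤ k * (B0 * H) :=
  sum_incr _ (fun i => hl.ens_mono hw.m0 _ (Nat.le_succ i)) (ens_nonneg hw.m0 _ _)
    (ens_N_le hw P _)

/-- the increment in one world -/
theorem Lev.incr_eq (hl : Lev m N S E τ δ ρ M X fam) (hm : ∀ f, 0 ≤ m f) (A : Finset F)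
    {a b : ℕ} (h : a ≤ b) (c : ι) :
    en m (E c) (lab (fam b c)) (ch A) - en m (E c) (lab (fam a c)) (ch A) =
      ∑ f ∈ E c, m f * (av m E fam b c A f - av m E fam a c A f) ^ 2 :=
  en_sub hm (lab_refines (hl.mono h c) _) _

theorem Lev.sum_incr_eq (hl : Lev m N S E τ δ ρ M X fam) (hm : ∀ f, 0 ≤ m f) (A : Finset F)
    {a b : ℕ} (h : a ≤ b) :
    ens m S E fam A b - ens m S E fam A a =
      ∑ c ∈ S, ∑ f ∈ E c, m f * (av m E fam b c A f - av m E fam a c A f) ^ 2 := by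
  unfold ens
  rw [← sum_sub_distrib]
  exact sum_congr rfl fun c _ => hl.incr_eq hm A h c

/-- comparison of the averages in two worlds with a large intersection -/
theorem Lev.two (hl : Lev m N S E τ δ ρ M X fam) (hm : ∀ f, 0 ≤ m f)
    (A : Finset F) {a b r : ℕ} (ha : a ≤ r) (hb : b ≤ r) {c c₁ : ι} (hc : c ∈ S) (hc₁ : c₁ ∈ S)
    (hd : δ r ≤ ms m (E c ∩ E c₁)) :
    ∑ f ∈ E c ∩ E c₁, m f * (av m E fam a c A f - av m E fam b c₁ A f) ^ 2 ≤
      2 * ∑ f ∈ E c ∩ E c₁, m f * (av m E fam (r + 1) c A f - av m E fam a c A f) ^ 2 +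
      2 * ∑ f ∈ E c ∩ E c₁, m f * (av m E fam (r + 1) c₁ A f - av m E fam b c₁ A f) ^ 2 := by
  have h1 := hl.trc r c c₁ hc₁ hd
  have h2 := hl.trc r c₁ c hc (by rw [inter_comm]; exact hd)
  refine two_worlds (J := lab (fam r c ∪ fam r c₁)) hm (sat_lab h1.1 (E c)) ?_ ?_ ?_ ?_ ?_ (ch A)
  · exact lab_refines (union_subset (hl.sub r c) h1.2) _
  · exact lab_refines ((hl.mono ha c).trans subset_union_left) _
  · have := sat_lab h2.1 (E c₁)
    rw [inter_comm] at this
    exact this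
  · exact lab_refines (union_subset h2.2 (hl.sub r c₁)) _
  · exact lab_refines ((hl.mono hb c₁).trans subset_union_right) _

/-- **Comparison of the worlds, summed over all the couples with a large intersection.** -/
theorem Lev.two_sum (hl : Lev m N S E τ δ ρ M X fam) (hw : Wd m N S E B0 H)
    (A : Finset F) {a b r : ℕ} (ha : a ≤ r) (hb : b ≤ r) :
    ∑ c ∈ S, ∑ c₁ ∈ S.filter (fun c₁ => δ r ≤ ms m (E c ∩ E c₁)),
      ∑ f ∈ E c ∩ E c₁, m f * (av m E fam a c A f - av m E fam b c₁ A f) ^ 2 ≤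
      2 * B0 * (ens m S E fam A (r + 1) - ens m S E fam A a) +
      2 * B0 * (ens m S E fam A (r + 1) - ens m S E fam A b) := by
  have key : ∀ x : ι → F → ℝ, (∀ c f, 0 ≤ x c f) →
      ∑ c ∈ S, ∑ c₁ ∈ S.filter (fun c₁ => δ r ≤ ms m (E c ∩ E c₁)), ∑ f ∈ E c ∩ E c₁, x c f ≤
        B0 * ∑ c ∈ S, ∑ f ∈ E c, x c f := by
    intro x hx
    rw [mul_sum]
    refine sum_le_sum fun c _ => ?_
    have h2 := hw.sum_le (E c) (g := x c) (hx c)
    refine le_trans ?_ h2
    refine (sum_le_sum_of_subset_of_nonneg (filter_subset _ _)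
      fun c₁ _ _ => sum_nonneg fun f _ => hx c f).trans (le_of_eq ?_)
    exact sum_congr rfl fun c₁ _ => by rw [inter_comm]
  have key' : ∀ x : ι → F → ℝ, (∀ c f, 0 ≤ x c f) →
      ∑ c ∈ S, ∑ c₁ ∈ S.filter (fun c₁ => δ r ≤ ms m (E c ∩ E c₁)), ∑ f ∈ E c ∩ E c₁, x c₁ f ≤
        B0 * ∑ c ∈ S, ∑ f ∈ E c, x c f := by
    intro x hx
    refine le_trans (le_of_eq ?_) (key x hx)
    simp only [sum_filter]
    rw [sum_comm]
    refine sum_congr rfl fun c _ => sum_congr rfl fun c₁ _ => ?_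
    rw [inter_comm]
  have hp : ∀ (a b : ℕ) c f, 0 ≤ m f * (av m E fam a c A f - av m E fam b c A f) ^ 2 :=
    fun a b c f => mul_nonneg (hw.m0 f) (sq_nonneg _)
  rw [hl.sum_incr_eq hw.m0 A (show a ≤ r + 1 by omega),
    hl.sum_incr_eq hw.m0 A (show b ≤ r + 1 by omega)]
  have k1 := key _ (hp (r + 1) a)
  have k2 := key' _ (hp (r + 1) b)
  have k3 : ∑ c ∈ S, ∑ c₁ ∈ S.filter (fun c₁ => δ r ≤ ms m (E c ∩ E c₁)),
      ∑ f ∈ E c ∩ E c₁, m f * (av m E fam a c A f - av m E fam b c₁ A f) ^ 2 ≤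
      2 * ∑ c ∈ S, ∑ c₁ ∈ S.filter (fun c₁ => δ r ≤ ms m (E c ∩ E c₁)), ∑ f ∈ E c ∩ E c₁,
        m f * (av m E fam (r + 1) c A f - av m E fam a c A f) ^ 2 +
      2 * ∑ c ∈ S, ∑ c₁ ∈ S.filter (fun c₁ => δ r ≤ ms m (E c ∩ E c₁)), ∑ f ∈ E c ∩ E c₁,
        m f * (av m E fam (r + 1) c₁ A f - av m E fam b c₁ A f) ^ 2 := by
    rw [mul_sum, mul_sum, ← sum_add_distrib]
    refine sum_le_sum fun c hc => ?_
    rw [mul_sum, mul_sum, ← sum_add_distrib]
    refine sum_le_sum fun c₁ hc₁ => ?_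
    rw [mem_filter] at hc₁
    exact hl.two hw.m0 A ha hb hc hc₁.1 hc₁.2
  linarith

/-- localised energy: on a set which is a union of cells at level `a`, the increments
telescope -/
theorem Lev.incr_loc (hl : Lev m N S E τ δ ρ M X fam) (hm : ∀ f, 0 ≤ m f) (A T : Finset F)
    {a b : ℕ} (h : a ≤ b) {c : ι} (hT : Sat (E c) (lab (fam a c)) T) :
    ∑ f ∈ T, m f * (av m E fam b c A f - av m E fam a c A f) ^ 2 =
      ∑ f ∈ T, m f * av m E fam b c A f ^ 2 - ∑ f ∈ T, m f * av m E fam a c A f ^ 2 := by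
  have hr : Refines (E c) (lab (fam b c)) (lab (fam a c)) := lab_refines (hl.mono h c) _
  have hT' := hT.refines hr
  have h1 := en_sub (E := T) hm (hr.subset hT.1) (ch A)
  have e : ∀ r, Sat (E c) (lab (fam r c)) T → ∀ f ∈ T,
      ce m T (lab (fam r c)) (ch A) f = av m E fam r c A f := fun r hs f hf => ce_sat hs _ hf
  unfold en at h1
  rw [sum_congr rfl fun f hf => by rw [e b hT' f hf],
    sum_congr (s₂ := T) (f := fun f => m f * ce m T (lab (fam a c)) (ch A) f ^ 2) rfl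
      fun f hf => by rw [e a hT f hf]] at h1
  rw [h1]
  exact (sum_congr rfl fun f hf => by rw [e b hT' f hf, e a hT f hf]).symm

end cons

end Pool.Agent.AcyS.En
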