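import Pool.Agent.AcyS.Defs
import Pool.Agent.AcyS.FactB
import Pool.Agent.AcyS.EstA
import Pool.Agent.AcyS.EstB
import Pool.Agent.AcyS.EstC
import Pool.Agent.AcyS.EstD
import Pool.Agent.AcyS.EstE

/-! # S12: the estimate (project MP_af9dfb_S) -/

set_option autoImplicit false
set_option linter.unusedSectionVars false
set_option linter.unusedVariables false

namespace Pool.Agent.AcyS

open Finset
open scoped Classical

universe u

variable {V : Type u} [Fintype V] {D : Ctx V}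

namespace Ctx

/-- The error of the level `s`. -/
noncomputable def errs (D : Ctx V) (d : ℝ) : ℝ :=
  D.p.T (D.s + 1) ^ 2 * D.p.B0 * D.p.H ^ 3 * D.p.tau (D.s + 2) +
  2 * (D.BB + 1) / D.p.be * D.e9 d +
  (2 * (D.BB + 3) / D.p.be + 1) * (D.p.H * D.RR ^ 2 * D.p.del (D.s + 1)) +
  2 / (D.p.be * D.p.ga) *
    (D.p.T (D.s + 1) * D.p.B0 * D.p.H ^ 2 * D.RR * D.p.del (D.s + 1)) +
  8 * D.p.B0 * D.p.H ^ 2 / (D.p.be * D.p.mu (D.s + 1)) *
    ((D.RR ^ 2 + D.RR) * D.p.del (D.s + 1))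

/-- Decomposition of a row without own boosts. -/
theorem sm_h (hD : D.Ok) (Z f : V) : D.h Z f = D.hcl Z f -
    (if f ∈ D.ncs Z then D.X.n Z f else 0) -
    (if ¬ D.covd f Z ∨ ∃ c ∈ D.CC, f ∈ D.df c Z then D.X.n Z f else 0) := by
  have hr0 : (∀ c ∈ D.CC, f ∉ D.cl c Z) → D.h Z f = - D.X.n Z f := by
    intro h0
    unfold Ctx.h
    rw [r_not_cl D h0]
    ring
  by_cases hcov : D.covd f Z
  · obtain ⟨c, hc, hdom⟩ := hcov
    have hcov : D.covd f Z := ⟨c, hc, hdom⟩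
    have huniq : ∀ c' , f ∈ D.dom c' Z → c' = c := fun c' h => dom_unique hD h hdom
    have hnc : f ∈ D.ncs Z ↔ f ∈ D.nc c Z := by
      unfold ncs
      simp only [mem_filter, mem_univ, true_and]
      constructor
      · rintro ⟨c', hc', h⟩
        have := huniq c' (mem_filter.1 h).1
        rw [← this]; exact h
      · intro h; exact ⟨c, hc, h⟩
    have hcl : (∃ c ∈ D.CC, f ∈ D.cl c Z) ↔ f ∈ D.cl c Z := by
      constructor
      · rintro ⟨c', hc', h⟩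
        have := huniq c' (mem_filter.1 h).1
        rw [← this]; exact h
      · intro h; exact ⟨c, hc, h⟩
    have hdf : (¬ D.covd f Z ∨ ∃ c ∈ D.CC, f ∈ D.df c Z) ↔ f ∈ D.df c Z := by
      constructor
      · rintro (h | ⟨c', hc', h⟩)
        · exact absurd hcov h
        · have := huniq c' (mem_filter.1 h).1
          rw [← this]; exact h
      · intro h; exact Or.inr ⟨c, hc, h⟩
    unfold Ctx.hcl
    rw [if_congr hcl rfl rfl, if_congr hnc rfl rfl, if_congr hdf rfl rfl]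
    by_cases h1 : D.th D.s c Z f ≤ 1 - D.p.be
    · have hn : f ∉ D.nc c Z := by
        intro h
        have := (mem_filter.1 h).2
        linarith
      by_cases h2 : D.th (D.s + 3) c Z f ≤ 1 - D.p.be / 2
      · have hc1 : f ∈ D.cl c Z := mem_filter.2 ⟨hdom, h1, h2⟩
        have hd1 : f ∉ D.df c Z := by
          intro h
          have := (mem_filter.1 h).2.2
          linarith
        rw [if_pos hc1, if_neg hn, if_neg hd1]
        ring
      · have hc1 : f ∉ D.cl c Z := fun h => h2 (mem_filter.1 h).2.2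
        have hd1 : f ∈ D.df c Z := mem_filter.2 ⟨hdom, h1, not_le.1 h2⟩
        rw [if_neg hc1, if_neg hn, if_pos hd1, hr0]
        · ring
        · intro c' hc' h
          exact hc1 (hcl.1 ⟨c', hc', h⟩)
    · have hn : f ∈ D.nc c Z := mem_filter.2 ⟨hdom, not_le.1 h1⟩
      have hc1 : f ∉ D.cl c Z := fun h => h1 (mem_filter.1 h).2.1
      have hd1 : f ∉ D.df c Z := fun h => h1 (mem_filter.1 h).2.1
      rw [if_neg hc1, if_pos hn, if_neg hd1, hr0]
      · ring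
      · intro c' hc' h
        exact hc1 (hcl.1 ⟨c', hc', h⟩)
  · have hno : ∀ c ∈ D.CC, f ∉ D.dom c Z := fun c hc h => hcov ⟨c, hc, h⟩
    have hc1 : ¬ ∃ c ∈ D.CC, f ∈ D.cl c Z := by
      rintro ⟨c, hc, h⟩
      exact hno c hc (mem_filter.1 h).1
    have hn : f ∉ D.ncs Z := by
      intro h
      obtain ⟨c, hc, h2⟩ := (mem_filter.1 h).2
      exact hno c hc (mem_filter.1 h2).1
    unfold hcl
    rw [if_neg hc1, if_neg hn, if_pos (Or.inl hcov), hr0]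
    · ring
    · intro c hc h
      exact hno c hc (mem_filter.1 h).1

/-- The change of the neighbourhood of `P` at `f`. -/
theorem sm_I (hD : D.Ok) (P f : V) : (D.X.I (D.X.nb P) fun Z => D.u Z f) =
    D.Psi P f - D.kap P f - D.ups P f + D.vv P f := by
  simp only [Psi, kap, ups, vv, Sys.I]
  rw [← sum_sub_distrib, ← sum_sub_distrib, ← sum_add_distrib]
  apply sum_congr rfl
  intro Z _
  simp only [u]
  rw [sm_h hD Z f]
  ring

theorem sm_hvv (hD : D.Ok) (P : V) : (D.X.I univ fun f => D.h P f * D.vv P f) =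
    ∑ c ∈ D.CC, (D.X.I (D.E c) fun f =>
      if D.act c f ∧ D.th (D.s + 1) c P f ≤ 1 - D.p.ga then D.h P f * D.vo c P f else 0) +
    ∑ c ∈ D.CC, (D.X.I (D.E c) fun f =>
      if D.act c f ∧ 1 - D.p.ga < D.th (D.s + 1) c P f then D.h P f * D.vo c P f else 0) := by
  rw [← sum_add_distrib]
  have h1 : ∀ f, D.vv P f = ∑ c ∈ D.CC, D.vo c P f := vv_eq hD P
  simp only [Sys.I]
  simp_rw [h1, mul_sum]
  rw [sum_comm]
  apply sum_congr rfl
  intro c _
  rw [← sum_add_distrib, ← sum_subset (subset_univ (D.E c))]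
  · apply sum_congr rfl
    intro f _
    by_cases ha : D.act c f
    · by_cases ht : D.th (D.s + 1) c P f ≤ 1 - D.p.ga
      · rw [if_pos ⟨ha, ht⟩, if_neg (fun h => absurd h.2 (not_lt.2 ht))]
        ring
      · rw [if_neg (fun h => ht h.2), if_pos ⟨ha, not_le.1 ht⟩]
        ring
    · rw [if_neg (fun h => ha h.1), if_neg (fun h => ha h.1)]
      unfold vo
      rw [if_neg ha]
      ring
  · intro f _ hf
    unfold vo
    rw [if_neg (fun ha : D.act c f => hf ha.1)]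
    ring

theorem drift_le (hD : D.Ok) (P : V) {d : ℝ} (hd : 0 < d) :
    D.drift P ≤ D.unc P + D.unc' P +
      (4 * D.p.H / D.p.be ^ 2 + 9 * D.p.B0 * D.p.H * (4 / D.p.ga ^ 2 + 16)) * D.inc P +
      6 * D.p.B0 * D.p.H ^ 2 / (D.p.be * D.p.ga) * Real.sqrt (D.inc P) +
      4 / D.p.be ^ 2 * D.X.I (D.X.nb P) D.inc +
      2 / D.p.be * (Real.sqrt (2 * D.p.B0 * D.p.H) *
        D.X.I (D.X.nb P) fun Z => Real.sqrt (D.inc Z)) +
      (10 + 6 / D.p.ga) * D.p.ep * D.p.B0 * D.p.H +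
      (D.p.be + 2 * D.p.e3 + 2 * (D.p.e' + D.p.e2) / D.p.ga +
        4 * (2 * D.p.ga + 2 * D.p.e2 + D.p.e')) * D.p.B0 * D.p.H ^ 2 +
      D.errs d := by
  have hm := hD.X.m_nonneg
  have hH := hD.X.one_le
  have hbe := hD.be0
  have hga := hD.ga0
  have hep := hD.ep0
  have hB0 : (1 : ℝ) ≤ D.p.B0 := by exact_mod_cast hD.B0
  have hinc : 0 ≤ D.inc P := by
    unfold inc
    apply sum_nonneg
    intro c _
    apply sum_nonneg
    intro f _
    exact mul_nonneg (hm f) (sq_nonneg _)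
  have e0 : D.drift P = (D.X.I univ fun f => D.u P f * D.Psi P f) +
      -(D.X.I univ fun f => D.u P f * D.ups P f) +
      (D.X.I univ fun f => D.b P f * (D.vv P f - D.kap P f)) +
      ((D.X.I univ fun f => D.h P f * D.vv P f) +
      -(D.X.I univ fun f => D.h P f * D.kap P f)) := by
    unfold drift
    simp_rw [sm_I hD P]
    simp only [Sys.I]
    rw [← sum_neg_distrib, ← sum_neg_distrib, ← sum_add_distrib, ← sum_add_distrib,
      ← sum_add_distrib, ← sum_add_distrib]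
    apply sum_congr rfl
    intro f _
    unfold u
    ring
  have h1 := est_I hD P hd
  have h2 := est_II hD P
  have h3 := est_III hD P
  have h40 := est_IV0 hD P
  have h4a := est_IVa hD P hd
  have h4b := est_IVb hD P
  have h4c := est_IVc hD P
  have h4d := est_IVd hD P
  have h5 := sm_hvv hD P
  -- the two parts with nearly complete cells
  have h6 : ∑ c ∈ D.CC, (D.X.I (D.E c) fun f =>
      if D.act c f ∧ 1 - D.p.ga < D.th (D.s + 1) c P f then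
        D.h P f * D.vo c P f + (if f ∈ D.ncs P then D.X.n P f * D.kapc c P f else 0)
      else 0) = ∑ c ∈ D.CC, (D.X.I (D.E c) fun f =>
      if D.act c f ∧ 1 - D.p.ga < D.th (D.s + 1) c P f then D.h P f * D.vo c P f else 0) +
      ∑ c ∈ D.CC, (D.X.I (D.E c) fun f =>
        if f ∈ D.ncs P ∧ D.act c f ∧ 1 - D.p.ga < D.th (D.s + 1) c P f
        then D.X.n P f * D.kapc c P f else 0) := by
    rw [← sum_add_distrib]
    apply sum_congr rfl
    intro c _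
    simp only [Sys.I]
    rw [← sum_add_distrib]
    apply sum_congr rfl
    intro f _
    by_cases ha : D.act c f ∧ 1 - D.p.ga < D.th (D.s + 1) c P f
    · by_cases hn : f ∈ D.ncs P
      · rw [if_pos ha, if_pos hn, if_pos ha, if_pos ⟨hn, ha⟩]; ring
      · rw [if_pos ha, if_neg hn, if_pos ha, if_neg (fun h => hn h.1)]; ring
    · rw [if_neg ha, if_neg ha, if_neg (fun h => ha h.2)]; ring
  -- square roots
  have h7 : Real.sqrt (9 * D.p.B0 * D.inc P) * Real.sqrt (D.p.B0 * D.p.H ^ 3) ≤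
      3 * D.p.B0 * D.p.H ^ 2 * Real.sqrt (D.inc P) := by
    rw [← Real.sqrt_mul (by positivity)]
    have : 9 * (D.p.B0 : ℝ) * D.inc P * (D.p.B0 * D.p.H ^ 3) ≤
        (3 * D.p.B0 * D.p.H ^ 2) ^ 2 * D.inc P := by
      have h8 : D.p.H ^ 3 ≤ D.p.H ^ 4 := pow_le_pow_right₀ hH (by norm_num)
      have h9 : 0 ≤ 9 * (D.p.B0 : ℝ) ^ 2 * D.inc P := by positivity
      calc 9 * (D.p.B0 : ℝ) * D.inc P * (D.p.B0 * D.p.H ^ 3) =
          9 * (D.p.B0 : ℝ) ^ 2 * D.inc P * D.p.H ^ 3 := by ring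
        _ ≤ 9 * (D.p.B0 : ℝ) ^ 2 * D.inc P * D.p.H ^ 4 := mul_le_mul_of_nonneg_left h8 h9
        _ = (3 * D.p.B0 * D.p.H ^ 2) ^ 2 * D.inc P := by ring
    refine le_trans (Real.sqrt_le_sqrt this) ?_
    rw [Real.sqrt_mul (by positivity), Real.sqrt_sq (by positivity)]
  have h8 : 2 / (D.p.be * D.p.ga) * (Real.sqrt (9 * D.p.B0 * D.inc P) *
        Real.sqrt (D.p.B0 * D.p.H ^ 3) +
        D.p.T (D.s + 1) * D.p.B0 * D.p.H ^ 2 * D.RR * D.p.del (D.s + 1)) ≤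
      6 * D.p.B0 * D.p.H ^ 2 / (D.p.be * D.p.ga) * Real.sqrt (D.inc P) +
      2 / (D.p.be * D.p.ga) *
        (D.p.T (D.s + 1) * D.p.B0 * D.p.H ^ 2 * D.RR * D.p.del (D.s + 1)) := by
    rw [mul_add]
    apply add_le_add _ le_rfl
    calc _ ≤ 2 / (D.p.be * D.p.ga) * (3 * D.p.B0 * D.p.H ^ 2 * Real.sqrt (D.inc P)) :=
          mul_le_mul_of_nonneg_left h7 (by positivity)
      _ = _ := by ring
  have h9 : 4 * D.p.ep * D.p.H ≤ 4 * D.p.ep * D.p.B0 * D.p.H := by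
    have h10 : 0 ≤ 4 * D.p.ep * D.p.H := by positivity
    calc 4 * D.p.ep * D.p.H = 4 * D.p.ep * D.p.H * 1 := by ring
      _ ≤ 4 * D.p.ep * D.p.H * D.p.B0 := mul_le_mul_of_nonneg_left hB0 h10
      _ = 4 * D.p.ep * D.p.B0 * D.p.H := by ring
  rw [e0]
  have e1 : (4 * D.p.H / D.p.be ^ 2 + 9 * D.p.B0 * D.p.H * (4 / D.p.ga ^ 2 + 16)) * D.inc P =
      4 * D.p.H / D.p.be ^ 2 * D.inc P +
        9 * D.p.B0 * D.p.H * (4 / D.p.ga ^ 2 + 16) * D.inc P := by ring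
  have e2 : (10 + 6 / D.p.ga) * D.p.ep * D.p.B0 * D.p.H =
      4 * D.p.ep * D.p.B0 * D.p.H + 6 * D.p.ep * D.p.B0 * D.p.H +
        1 / D.p.ga * (6 * D.p.ep * D.p.B0 * D.p.H) := by ring
  have e3 : (D.p.be + 2 * D.p.e3 + 2 * (D.p.e' + D.p.e2) / D.p.ga +
        4 * (2 * D.p.ga + 2 * D.p.e2 + D.p.e')) * D.p.B0 * D.p.H ^ 2 =
      D.p.be * D.p.B0 * D.p.H ^ 2 + 2 * D.p.e3 * D.p.B0 * D.p.H ^ 2 +
        1 / D.p.ga * (2 * (D.p.e' + D.p.e2) * D.p.B0 * D.p.H ^ 2) +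
        4 * D.p.B0 * D.p.H ^ 2 * (2 * D.p.ga + 2 * D.p.e2 + D.p.e') := by ring
  have e4 : D.errs d = D.p.T (D.s + 1) ^ 2 * D.p.B0 * D.p.H ^ 3 * D.p.tau (D.s + 2) +
      2 * D.BB / D.p.be * (D.p.H * D.RR ^ 2 * D.p.del (D.s + 1) + D.e9 d) +
      4 / D.p.be * (D.p.H * D.RR ^ 2 * D.p.del (D.s + 1)) +
      2 / D.p.be * (D.p.H * D.RR ^ 2 * D.p.del (D.s + 1) + D.e9 d) +
      D.p.H * D.RR ^ 2 * D.p.del (D.s + 1) +
      2 / (D.p.be * D.p.ga) *
        (D.p.T (D.s + 1) * D.p.B0 * D.p.H ^ 2 * D.RR * D.p.del (D.s + 1)) +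
      8 * D.p.B0 * D.p.H ^ 2 / (D.p.be * D.p.mu (D.s + 1)) *
        ((D.RR ^ 2 + D.RR) * D.p.del (D.s + 1)) := by
    unfold errs
    ring
  have e5 : 1 / D.p.ga * (6 * D.p.ep * D.p.B0 * D.p.H +
        2 * (D.p.e' + D.p.e2) * D.p.B0 * D.p.H ^ 2) =
      1 / D.p.ga * (6 * D.p.ep * D.p.B0 * D.p.H) +
        1 / D.p.ga * (2 * (D.p.e' + D.p.e2) * D.p.B0 * D.p.H ^ 2) := by ring
  rw [e1, e2, e3, e4]
  rw [e5] at h4c
  rw [h6] at h4d
  rw [h5]
  clear e0 e1 e2 e3 e4 e5 h5 h6 h7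
  generalize (D.X.I univ fun f => D.u P f * D.Psi P f) = x1 at *
  generalize -(D.X.I univ fun f => D.u P f * D.ups P f) = x2 at *
  generalize (D.X.I univ fun f => D.b P f * (D.vv P f - D.kap P f)) = x3 at *
  generalize -(D.X.I univ fun f => D.h P f * D.kap P f) = x4 at *
  generalize -(D.X.I univ fun f => D.hcl P f * D.kap P f) = x5 at *
  generalize (D.X.I (D.ncs P) fun f => D.X.n P f * D.kap P f) = x6 at *
  generalize (∑ c ∈ D.CC, (D.X.I (D.E c) fun f =>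
      if D.act c f ∧ D.th (D.s + 1) c P f ≤ 1 - D.p.ga then D.h P f * D.vo c P f else 0)) = x7 at *
  generalize (∑ c ∈ D.CC, (D.X.I (D.E c) fun f =>
      if D.act c f ∧ 1 - D.p.ga < D.th (D.s + 1) c P f then D.h P f * D.vo c P f else 0)) = x8 at *
  generalize (∑ c ∈ D.CC, (D.X.I (D.E c) fun f =>
        if f ∈ D.ncs P ∧ D.act c f ∧ 1 - D.p.ga < D.th (D.s + 1) c P f
        then D.X.n P f * D.kapc c P f else 0)) = x9 at *
  generalize 2 / (D.p.be * D.p.ga) * (Real.sqrt (9 * D.p.B0 * D.inc P) *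
        Real.sqrt (D.p.B0 * D.p.H ^ 3) +
        D.p.T (D.s + 1) * D.p.B0 * D.p.H ^ 2 * D.RR * D.p.del (D.s + 1)) = y1 at *
  generalize 2 / (D.p.be * D.p.ga) *
        (D.p.T (D.s + 1) * D.p.B0 * D.p.H ^ 2 * D.RR * D.p.del (D.s + 1)) = y2 at *
  generalize 6 * D.p.B0 * D.p.H ^ 2 / (D.p.be * D.p.ga) * Real.sqrt (D.inc P) = y3 at *
  generalize 8 * D.p.B0 * D.p.H ^ 2 / (D.p.be * D.p.mu (D.s + 1)) *
        ((D.RR ^ 2 + D.RR) * D.p.del (D.s + 1)) = y4 at *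
  generalize 2 * D.BB / D.p.be * (D.p.H * D.RR ^ 2 * D.p.del (D.s + 1) + D.e9 d) = y5 at *
  generalize 4 / D.p.be * (D.p.H * D.RR ^ 2 * D.p.del (D.s + 1)) = y6 at *
  generalize 2 / D.p.be * (D.p.H * D.RR ^ 2 * D.p.del (D.s + 1) + D.e9 d) = y7 at *
  generalize D.p.H * D.RR ^ 2 * D.p.del (D.s + 1) = y8 at *
  generalize D.p.T (D.s + 1) ^ 2 * D.p.B0 * D.p.H ^ 3 * D.p.tau (D.s + 2) = y9 at *
  generalize D.p.be * D.p.B0 * D.p.H ^ 2 = z1 at *
  generalize 2 * D.p.e3 * D.p.B0 * D.p.H ^ 2 = z2 at *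
  generalize 1 / D.p.ga * (2 * (D.p.e' + D.p.e2) * D.p.B0 * D.p.H ^ 2) = z3 at *
  generalize 4 * D.p.B0 * D.p.H ^ 2 * (2 * D.p.ga + 2 * D.p.e2 + D.p.e') = z4 at *
  generalize 4 * D.p.ep * D.p.B0 * D.p.H = z5 at *
  generalize 6 * D.p.ep * D.p.B0 * D.p.H = z6 at *
  generalize 1 / D.p.ga * z6 = z7 at *
  generalize 4 * D.p.H / D.p.be ^ 2 * D.inc P = w1 at *
  generalize 9 * D.p.B0 * D.p.H * (4 / D.p.ga ^ 2 + 16) * D.inc P = w2 at *
  generalize 4 / D.p.be ^ 2 * D.X.I (D.X.nb P) D.inc = w3 at *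
  generalize 2 / D.p.be * (Real.sqrt (2 * D.p.B0 * D.p.H) *
        D.X.I (D.X.nb P) fun Z => Real.sqrt (D.inc Z)) = w4 at *
  generalize 4 * D.p.ep * D.p.H = w5 at *
  linarith

end Ctx

end Pool.Agent.AcyS
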