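import Pool.Agent.AcyS.Cover

/-!
# Random worlds: the coverage lemmas
-/

set_option autoImplicit false
set_option linter.unusedSectionVars false
set_option linter.unusedVariables false

namespace Pool.Agent.AcyS.Cv

open Finset

noncomputable section

variable {V : Type*} [Fintype V]

open Classical in
/-- the sites with at most `B0` centres around them -/
def Ok (A : V → V → Prop) (B0 : ℕ) (S : Finset V) : Finset V := univ.filter fun f => (S ∩ nb A f).card ≤ B0

open Classical in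
/-- the world of a centre -/
def Ec (A : V → V → Prop) (B0 : ℕ) (S : Finset V) (c : V) : Finset V := nb A c ∩ Ok A B0 S

open Classical in
/-- the worlds which are relevant for a site -/
def Rt (A : V → V → Prop) (m : V → ℝ) (B0 : ℕ) (τ : ℝ) (S : Finset V) (Z : V) : Finset V :=
  S.filter fun c => τ ≤ ms m (Ec A B0 S c ∩ nb A Z)

variable {A : V → V → Prop} {m : V → ℝ} {B0 : ℕ}

open Classical in
theorem mem_Ok {S : Finset V} {f : V} : f ∈ Ok A B0 S ↔ (S ∩ nb A f).card ≤ B0 := by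
  unfold Ok
  simp

open Classical in
theorem mem_Ec {S : Finset V} {c f : V} : f ∈ Ec A B0 S c ↔ A c f ∧ f ∈ Ok A B0 S := by
  unfold Ec
  rw [mem_inter, mem_nb]

open Classical in
theorem mem_Rt {S : Finset V} {c Z : V} {τ : ℝ} :
    c ∈ Rt A m B0 τ S Z ↔ c ∈ S ∧ τ ≤ ms m (Ec A B0 S c ∩ nb A Z) := by
  unfold Rt
  rw [mem_filter]

theorem Ec_subset {S : Finset V} {c : V} : Ec A B0 S c ⊆ nb A c := by
  classical
  unfold Ec
  exact inter_subset_left

open Classical in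
/-- **(C0)** every site lies in at most `B0` worlds -/
theorem card_worlds (hA : ∀ f g, A f g → A g f) (S : Finset V) (f : V) :
    (S.filter fun c => f ∈ Ec A B0 S c).card ≤ B0 := by
  by_cases hf : f ∈ Ok A B0 S
  · have h := mem_Ok.1 hf
    refine le_trans (card_le_card ?_) h
    intro c hc
    rw [mem_filter] at hc
    rw [mem_inter, mem_nb]
    exact ⟨hc.1, hA _ _ (mem_Ec.1 hc.2).1⟩
  · have : (S.filter fun c => f ∈ Ec A B0 S c) = ∅ := by
      ext c
      simp only [mem_filter, notMem_empty, iff_false, not_and]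
      intro _ h
      exact hf (mem_Ec.1 h).2
    convert Nat.zero_le B0
    rw [card_eq_zero]
    exact this

open Classical in
/-- **(C0)** the total mass of the worlds in a set -/
theorem sum_worlds (hA : ∀ f g, A f g → A g f) (hm : ∀ v, 0 ≤ m v) (S : Finset V) (T : Finset V) :
    ∑ c ∈ S, ms m (Ec A B0 S c ∩ T) ≤ B0 * ms m T := by
  have h1 : ∀ c, ms m (Ec A B0 S c ∩ T) = ∑ f ∈ T, if f ∈ Ec A B0 S c then m f else 0 := by
    intro c
    unfold ms
    rw [← sum_filter]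
    congr 1
    ext f
    simp [and_comm]
  have h2 : ∑ c ∈ S, ms m (Ec A B0 S c ∩ T) = ∑ f ∈ T, m f * ((S.filter fun c => f ∈ Ec A B0 S c).card : ℝ) := by
    simp only [h1]
    rw [sum_comm]
    refine sum_congr rfl fun f _ => ?_
    rw [← sum_filter, sum_const, nsmul_eq_mul]
    ring
  have h3 : ∑ f ∈ T, m f * ((S.filter fun c => f ∈ Ec A B0 S c).card : ℝ) ≤ B0 * ms m T := by
    unfold ms
    rw [mul_sum]
    refine sum_le_sum fun f _ => ?_
    rw [mul_comm]
    refine mul_le_mul_of_nonneg_right ?_ (hm f)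
    have := card_worlds (B0 := B0) hA S f
    exact_mod_cast this
  exact h2.trans_le h3

/-- **(C0)** the number of relevant worlds -/
theorem card_Rt (hA : ∀ f g, A f g → A g f) (hm : ∀ v, 0 ≤ m v) {H τ : ℝ} (hH : ∀ P, ms m (nb A P) ≤ H)
    (S : Finset V) (Z : V) : τ * (Rt A m B0 τ S Z).card ≤ B0 * H := by
  classical
  have h1 : τ * (Rt A m B0 τ S Z).card ≤ ∑ c ∈ Rt A m B0 τ S Z, ms m (Ec A B0 S c ∩ nb A Z) := by
    rw [mul_comm, ← nsmul_eq_mul]
    exact card_nsmul_le_sum _ _ _ fun c hc => (mem_Rt.1 hc).2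
  have h2 : ∑ c ∈ Rt A m B0 τ S Z, ms m (Ec A B0 S c ∩ nb A Z) ≤ ∑ c ∈ S, ms m (Ec A B0 S c ∩ nb A Z) :=
    sum_le_sum_of_subset_of_nonneg (fun c hc => (mem_Rt.1 hc).1) fun c _ _ => ms_nonneg hm _
  have h3 := sum_worlds (B0 := B0) hA hm S (nb A Z)
  exact h1.trans (h2.trans (h3.trans (mul_le_mul_of_nonneg_left (hH Z) (Nat.cast_nonneg _))))

/-! ### the coverage estimates -/

open Classical in
/-- indicator of a proposition -/
def ind (p : Prop) : ℝ := if p then 1 else 0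

theorem ind_nonneg (p : Prop) : 0 ≤ ind p := by
  unfold ind
  split_ifs <;> norm_num

theorem ind_le_one (p : Prop) : ind p ≤ 1 := by
  unfold ind
  split_ifs <;> norm_num

theorem ind_true {p : Prop} (h : p) : ind p = 1 := if_pos h

theorem ind_false {p : Prop} (h : ¬ p) : ind p = 0 := if_neg h

/-- the probability of not being ok -/
theorem EE_not_ok (hm : ∀ v, 0 ≤ m v) {H q : ℝ} (hq : 0 ≤ q) (hH : ∀ P, ms m (nb A P) ≤ H) (hB : 0 < B0) (f : V) :
    EE (pq q m) (fun S => ind (f ∉ Ok A B0 S)) ≤ q * H / B0 := by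
  classical
  have hB' : (0 : ℝ) < B0 := by exact_mod_cast hB
  have h1 : EE (pq q m) (fun S => ind (f ∉ Ok A B0 S)) ≤
      EE (pq q m) (fun S => (1 / (B0 : ℝ)) * ((S ∩ nb A f).card : ℝ)) := by
    refine EE_mono (pq_nonneg hq hm) (pq_le_one q m) fun S => ?_
    by_cases hf : f ∈ Ok A B0 S
    · rw [ind_false (by simpa using hf)]
      positivity
    · rw [ind_true hf, one_div, inv_mul_eq_div, le_div_iff₀ hB', one_mul]
      rw [mem_Ok, not_le] at hf
      exact_mod_cast hf.le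
  refine h1.trans ?_
  rw [EE_const_mul, EE_card]
  have h2 := (sum_pq_le q m (nb A f)).trans (mul_le_mul_of_nonneg_left (hH f) hq)
  rw [one_div, inv_mul_eq_div]
  exact div_le_div_of_nonneg_right h2 hB'.le

/-- the mass of the non-ok sites in the presence of a centre -/
theorem EE_loss (hm : ∀ v, 0 ≤ m v) {H q : ℝ} (hq : 0 ≤ q) (hH : ∀ P, ms m (nb A P) ≤ H) (hB : 0 < B0) (c : V)
    (T : Finset V) (hT : ms m T ≤ H) :
    EE (pq q m) (fun S => ind (c ∈ S) * ∑ g ∈ T, m g * ind (g ∉ Ok A B0 S)) ≤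
      pq q m c * (H * (1 + q * H) / B0) := by
  classical
  have hB' : (0 : ℝ) < B0 := by exact_mod_cast hB
  have hp0 := pq_nonneg hq hm
  have hp1 := pq_le_one q m
  have h1 : EE (pq q m) (fun S => ind (c ∈ S) * ∑ g ∈ T, m g * ind (g ∉ Ok A B0 S)) ≤
      EE (pq q m) (fun S => ∑ g ∈ T, (m g / B0) * ((if c ∈ S then 1 else 0) * ((S ∩ nb A g).card : ℝ))) := by
    refine EE_mono hp0 hp1 fun S => ?_
    rw [mul_sum]
    refine sum_le_sum fun g _ => ?_
    have e : ind (c ∈ S) = if c ∈ S then (1 : ℝ) else 0 := by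
      unfold ind
      split_ifs <;> rfl
    rw [e]
    have h2 : ind (g ∉ Ok A B0 S) ≤ ((S ∩ nb A g).card : ℝ) / B0 := by
      by_cases hf : g ∈ Ok A B0 S
      · rw [ind_false (by simpa using hf)]
        positivity
      · rw [ind_true hf, le_div_iff₀ hB', one_mul]
        rw [mem_Ok, not_le] at hf
        exact_mod_cast hf.le
    have h3 : (0 : ℝ) ≤ if c ∈ S then 1 else 0 := by split_ifs <;> norm_num
    calc (if c ∈ S then (1 : ℝ) else 0) * (m g * ind (g ∉ Ok A B0 S))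
        ≤ (if c ∈ S then (1 : ℝ) else 0) * (m g * (((S ∩ nb A g).card : ℝ) / B0)) :=
          mul_le_mul_of_nonneg_left (mul_le_mul_of_nonneg_left h2 (hm g)) h3
      _ = (m g / B0) * ((if c ∈ S then 1 else 0) * ((S ∩ nb A g).card : ℝ)) := by ring
  refine h1.trans ?_
  rw [EE_sum]
  have h4 : ∀ g ∈ T, EE (pq q m) (fun S => (m g / B0) * ((if c ∈ S then 1 else 0) * ((S ∩ nb A g).card : ℝ))) ≤
      m g * (pq q m c * (1 + q * H) / B0) := by
    intro g _
    rw [EE_const_mul]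
    have h5 := EE_mem_card hp0 hp1 c (nb A g)
    have h6 := (sum_pq_le q m (nb A g)).trans (mul_le_mul_of_nonneg_left (hH g) hq)
    have h7 : EE (pq q m) (fun S => (if c ∈ S then 1 else 0) * ((S ∩ nb A g).card : ℝ)) ≤
        pq q m c * (1 + q * H) := h5.trans (mul_le_mul_of_nonneg_left (by linarith) (hp0 c))
    calc m g / B0 * EE (pq q m) (fun S => (if c ∈ S then 1 else 0) * ((S ∩ nb A g).card : ℝ))
        ≤ m g / B0 * (pq q m c * (1 + q * H)) := mul_le_mul_of_nonneg_left h7 (div_nonneg (hm g) hB'.le)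
      _ = m g * (pq q m c * (1 + q * H) / B0) := by ring
  refine (sum_le_sum h4).trans ?_
  rw [← sum_mul]
  have hH0 : 0 ≤ H := (ms_nonneg hm T).trans hT
  have h8 : 0 ≤ pq q m c * (1 + q * H) / B0 := by
    have := hp0 c
    positivity
  calc (∑ g ∈ T, m g) * (pq q m c * (1 + q * H) / B0) ≤ H * (pq q m c * (1 + q * H) / B0) :=
        mul_le_mul_of_nonneg_right hT h8
    _ = _ := by ring

open Classical in
/-- the good candidates for covering the pair `(f, Z)` by a centre in the neighbourhood of `P` -/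
def Kc (A : V → V → Prop) (m : V → ℝ) (τ : ℝ) (P f Z : V) : Finset V :=
  (nb A P ∩ nb A f).filter fun c => 2 * τ ≤ ms m (nb A c ∩ nb A Z)

open Classical in
/-- the bad candidates -/
def Kb (A : V → V → Prop) (m : V → ℝ) (τ : ℝ) (P f Z : V) : Finset V :=
  (nb A P ∩ nb A f).filter fun c => ¬ 2 * τ ≤ ms m (nb A c ∩ nb A Z)

open Classical in
/-- `(f, Z)` is covered by a world whose centre is in the neighbourhood of `P` -/
def Cov (A : V → V → Prop) (m : V → ℝ) (B0 : ℕ) (τ : ℝ) (F : Finset V → V → Finset V) (P f Z : V)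
    (S : Finset V) : Prop :=
  ∃ c ∈ Rt A m B0 τ S Z, A P c ∧ f ∈ F S c

theorem EE_cov (hA : ∀ f g, A f g → A g f) (hm : ∀ v, 0 ≤ m v) {H q τ : ℝ} (hq : 0 ≤ q) (hτ : 0 < τ)
    (hH : ∀ P, ms m (nb A P) ≤ H) (hB : 0 < B0) (P f Z : V) :
    EE (pq q m) (fun S => ind (¬ Cov A m B0 τ (Ec A B0) P f Z S)) ≤
      q * H / B0 + Real.exp (-(q * ms m (Kc A m τ P f Z))) + q * H * (H * (1 + q * H) / B0) / τ := by
  classical
  have hp0 := pq_nonneg hq hm
  have hp1 := pq_le_one q m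
  have hH0 : 0 ≤ H := (ms_nonneg hm _).trans (hH P)
  have hB' : (0 : ℝ) < B0 := by exact_mod_cast hB
  have h1 : ∀ S, ind (¬ Cov A m B0 τ (Ec A B0) P f Z S) ≤ ind (f ∉ Ok A B0 S) +
      (if Disjoint S (Kc A m τ P f Z) then 1 else 0) +
      ∑ c ∈ Kc A m τ P f Z, (1 / τ) * (ind (c ∈ S) * ∑ g ∈ nb A c ∩ nb A Z, m g * ind (g ∉ Ok A B0 S)) := by
    intro S
    have hs : 0 ≤ ∑ c ∈ Kc A m τ P f Z,
        (1 / τ) * (ind (c ∈ S) * ∑ g ∈ nb A c ∩ nb A Z, m g * ind (g ∉ Ok A B0 S)) :=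
      sum_nonneg fun c _ => mul_nonneg (by positivity) (mul_nonneg (ind_nonneg _)
        (sum_nonneg fun g _ => mul_nonneg (hm g) (ind_nonneg _)))
    have hi : (0 : ℝ) ≤ if Disjoint S (Kc A m τ P f Z) then 1 else 0 := by split_ifs <;> norm_num
    have hi2 := ind_nonneg (f ∉ Ok A B0 S)
    have hi3 := ind_le_one (¬ Cov A m B0 τ (Ec A B0) P f Z S)
    by_cases hf : f ∈ Ok A B0 S
    swap
    · rw [ind_true hf]
      linarith
    by_cases hd : Disjoint S (Kc A m τ P f Z)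
    · rw [if_pos hd]
      linarith
    by_cases hc : Cov A m B0 τ (Ec A B0) P f Z S
    · rw [ind_false (not_not.2 hc)]
      linarith
    rw [Finset.not_disjoint_iff] at hd
    obtain ⟨c, hcS, hcK⟩ := hd
    have hcK' := hcK
    unfold Kc at hcK'
    rw [mem_filter, mem_inter, mem_nb, mem_nb] at hcK'
    obtain ⟨⟨hPc, hfc⟩, h2τ⟩ := hcK'
    have h3 : ms m (Ec A B0 S c ∩ nb A Z) < τ := by
      by_contra h
      push Not at h
      exact hc ⟨c, mem_Rt.2 ⟨hcS, h⟩, hPc, mem_Ec.2 ⟨hA _ _ hfc, hf⟩⟩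
    have h4 : ms m (nb A c ∩ nb A Z) = ms m (Ec A B0 S c ∩ nb A Z) +
        ∑ g ∈ nb A c ∩ nb A Z, m g * ind (g ∉ Ok A B0 S) := by
      unfold ms
      rw [← sum_filter_add_sum_filter_not (nb A c ∩ nb A Z) (fun g => g ∈ Ok A B0 S)]
      congr 1
      · congr 1
        ext g
        unfold Ec
        simp only [mem_filter, mem_inter]
        tauto
      · rw [sum_filter]
        refine sum_congr rfl fun g _ => ?_
        split_ifs with hg
        · rw [ind_false (not_not.2 hg), mul_zero]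
        · rw [ind_true hg, mul_one]
    have h5 : τ < ∑ g ∈ nb A c ∩ nb A Z, m g * ind (g ∉ Ok A B0 S) := by linarith
    have h6 : 1 ≤ (1 / τ) * (ind (c ∈ S) * ∑ g ∈ nb A c ∩ nb A Z, m g * ind (g ∉ Ok A B0 S)) := by
      rw [ind_true hcS, one_mul, one_div, inv_mul_eq_div, le_div_iff₀ hτ, one_mul]
      exact h5.le
    have h7 := single_le_sum (f := fun c => (1 / τ) * (ind (c ∈ S) *
      ∑ g ∈ nb A c ∩ nb A Z, m g * ind (g ∉ Ok A B0 S))) (fun c _ => mul_nonneg (by positivity)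
        (mul_nonneg (ind_nonneg _) (sum_nonneg fun g _ => mul_nonneg (hm g) (ind_nonneg _)))) hcK
    linarith
  refine (EE_mono hp0 hp1 h1).trans ?_
  rw [EE_add, EE_add, EE_none_pq]
  have h8 := EE_not_ok (B0 := B0) hm hq hH hB f
  have h9 : EE (pq q m) (fun S => ∑ c ∈ Kc A m τ P f Z,
      (1 / τ) * (ind (c ∈ S) * ∑ g ∈ nb A c ∩ nb A Z, m g * ind (g ∉ Ok A B0 S))) ≤
      q * H * (H * (1 + q * H) / B0) / τ := by
    rw [EE_sum]
    have h10 : ∀ c ∈ Kc A m τ P f Z, EE (pq q m) (fun S =>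
        (1 / τ) * (ind (c ∈ S) * ∑ g ∈ nb A c ∩ nb A Z, m g * ind (g ∉ Ok A B0 S))) ≤
        pq q m c * ((H * (1 + q * H) / B0) / τ) := by
      intro c _
      rw [EE_const_mul]
      have h11 := EE_loss (B0 := B0) hm hq hH hB c (nb A c ∩ nb A Z)
        ((ms_mono hm inter_subset_left).trans (hH c))
      calc 1 / τ * EE (pq q m) (fun S => ind (c ∈ S) * ∑ g ∈ nb A c ∩ nb A Z, m g * ind (g ∉ Ok A B0 S))
          ≤ 1 / τ * (pq q m c * (H * (1 + q * H) / B0)) := mul_le_mul_of_nonneg_left h11 (by positivity)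
        _ = _ := by ring
    refine (sum_le_sum h10).trans ?_
    rw [← sum_mul]
    have h12 : ∑ c ∈ Kc A m τ P f Z, pq q m c ≤ q * H := by
      refine (sum_pq_le q m _).trans (mul_le_mul_of_nonneg_left ?_ hq)
      refine (ms_mono hm ?_).trans (hH P)
      unfold Kc
      exact (filter_subset _ _).trans inter_subset_left
    have h13 : 0 ≤ (H * (1 + q * H) / B0) / τ := by positivity
    calc (∑ c ∈ Kc A m τ P f Z, pq q m c) * ((H * (1 + q * H) / B0) / τ)
        ≤ (q * H) * ((H * (1 + q * H) / B0) / τ) := mul_le_mul_of_nonneg_right h12 h13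
      _ = _ := by ring
  linarith

open Classical in
/-- the defects of the sets `F` -/
theorem EE_defect (hm : ∀ v, 0 ≤ m v) {H q ε : ℝ} (hq : 0 ≤ q) (hH : ∀ P, ms m (nb A P) ≤ H) (hε : 0 ≤ ε)
    (F : Finset V → V → Finset V)
    (hF : ∀ S c, ms m (Ec A B0 S c \ F S c) ≤ ε) (P : V) (T : Finset V) :
    EE (pq q m) (fun S => ∑ f ∈ T, m f * ind (∃ c ∈ S, A P c ∧ f ∈ Ec A B0 S c ∧ f ∉ F S c)) ≤ ε * (q * H) := by
  classical
  have hp0 := pq_nonneg hq hm
  have hp1 := pq_le_one q m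
  have h1 : ∀ S, ∑ f ∈ T, m f * ind (∃ c ∈ S, A P c ∧ f ∈ Ec A B0 S c ∧ f ∉ F S c) ≤
      ε * ((S ∩ nb A P).card : ℝ) := by
    intro S
    have h2 : ∀ f, ind (∃ c ∈ S, A P c ∧ f ∈ Ec A B0 S c ∧ f ∉ F S c) ≤
        ∑ c ∈ S ∩ nb A P, ind (f ∈ Ec A B0 S c ∧ f ∉ F S c) := by
      intro f
      by_cases h : ∃ c ∈ S, A P c ∧ f ∈ Ec A B0 S c ∧ f ∉ F S c
      · obtain ⟨c, hcS, hPc, hf⟩ := h
        refine (ind_le_one _).trans ?_
        rw [← ind_true hf]
        exact single_le_sum (f := fun c => ind (f ∈ Ec A B0 S c ∧ f ∉ F S c)) (fun c _ => ind_nonneg _)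
          (mem_inter.2 ⟨hcS, mem_nb.2 hPc⟩)
      · rw [ind_false h]
        exact sum_nonneg fun c _ => ind_nonneg _
    have h3 : ∑ f ∈ T, m f * ind (∃ c ∈ S, A P c ∧ f ∈ Ec A B0 S c ∧ f ∉ F S c) ≤
        ∑ f ∈ T, m f * ∑ c ∈ S ∩ nb A P, ind (f ∈ Ec A B0 S c ∧ f ∉ F S c) :=
      sum_le_sum fun f _ => mul_le_mul_of_nonneg_left (h2 f) (hm f)
    refine h3.trans ?_
    have h4 : ∑ f ∈ T, m f * ∑ c ∈ S ∩ nb A P, ind (f ∈ Ec A B0 S c ∧ f ∉ F S c) =
        ∑ c ∈ S ∩ nb A P, ∑ f ∈ T, m f * ind (f ∈ Ec A B0 S c ∧ f ∉ F S c) := by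
      rw [sum_comm]
      refine sum_congr rfl fun f _ => ?_
      rw [mul_sum]
    rw [h4, mul_comm, ← nsmul_eq_mul]
    refine sum_le_card_nsmul _ _ _ fun c _ => ?_
    refine le_trans ?_ (hF S c)
    have h5 : ∑ f ∈ T, m f * ind (f ∈ Ec A B0 S c ∧ f ∉ F S c) ≤
        ∑ f, m f * ind (f ∈ Ec A B0 S c ∧ f ∉ F S c) :=
      sum_le_sum_of_subset_of_nonneg (subset_univ T) fun f _ _ => mul_nonneg (hm f) (ind_nonneg _)
    refine h5.trans (le_of_eq ?_)
    unfold ms
    have h6 : ∀ f, m f * ind (f ∈ Ec A B0 S c ∧ f ∉ F S c) =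
        if f ∈ Ec A B0 S c \ F S c then m f else 0 := by
      intro f
      simp only [mem_sdiff]
      unfold ind
      split_ifs <;> ring
    simp only [h6]
    rw [← sum_filter]
    congr 1
    ext f
    simp
  refine (EE_mono hp0 hp1 h1).trans ?_
  rw [EE_const_mul, EE_card]
  exact mul_le_mul_of_nonneg_left ((sum_pq_le q m _).trans (mul_le_mul_of_nonneg_left (hH P) hq)) hε

theorem ind_cov_le (F : Finset V → V → Finset V) (τ : ℝ) (P f Z : V) (S : Finset V) :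
    ind (¬ Cov A m B0 τ F P f Z S) ≤ ind (¬ Cov A m B0 τ (Ec A B0) P f Z S) +
      ind (∃ c ∈ S, A P c ∧ f ∈ Ec A B0 S c ∧ f ∉ F S c) := by
  by_cases h1 : Cov A m B0 τ (Ec A B0) P f Z S
  · obtain ⟨c, hc, hPc, hf⟩ := h1
    by_cases h2 : f ∈ F S c
    · rw [ind_false (not_not.2 ⟨c, hc, hPc, h2⟩)]
      exact add_nonneg (ind_nonneg _) (ind_nonneg _)
    · have h3 : ∃ c ∈ S, A P c ∧ f ∈ Ec A B0 S c ∧ f ∉ F S c := ⟨c, (mem_Rt.1 hc).1, hPc, hf, h2⟩
      rw [ind_true h3]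
      have := ind_le_one (¬ Cov A m B0 τ F P f Z S)
      have := ind_nonneg (¬ Cov A m B0 τ (Ec A B0) P f Z S)
      linarith
  · rw [ind_true h1]
    have := ind_le_one (¬ Cov A m B0 τ F P f Z S)
    have := ind_nonneg (∃ c ∈ S, A P c ∧ f ∈ Ec A B0 S c ∧ f ∉ F S c)
    linarith

open Classical in
/-- the exponential term -/
theorem exp_le {q θ τ : ℝ} (hm : ∀ v, 0 ≤ m v) (hq : 0 ≤ q) (hθ : 0 < θ) (P f Z : V) :
    Real.exp (-(q * ms m (Kc A m τ P f Z))) ≤ Real.exp (-(q * (θ / 2))) +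
      ind (ms m (nb A P ∩ nb A f) < θ) + (2 / θ) * ms m (Kb A m τ P f Z) := by
  have hb := ms_nonneg hm (Kb A m τ P f Z)
  have hc := ms_nonneg hm (Kc A m τ P f Z)
  have hpos := Real.exp_pos (-(q * (θ / 2)))
  have hbm : 0 ≤ (2 / θ) * ms m (Kb A m τ P f Z) := mul_nonneg (by positivity) hb
  have he : Real.exp (-(q * ms m (Kc A m τ P f Z))) ≤ 1 :=
    Real.exp_le_one_iff.2 (neg_nonpos.2 (mul_nonneg hq hc))
  have hi := ind_nonneg (ms m (nb A P ∩ nb A f) < θ)
  have hsum : ms m (nb A P ∩ nb A f) = ms m (Kc A m τ P f Z) + ms m (Kb A m τ P f Z) := by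
    unfold ms Kc Kb
    exact (sum_filter_add_sum_filter_not _ _ _).symm
  by_cases h1 : θ / 2 ≤ ms m (Kc A m τ P f Z)
  · have : Real.exp (-(q * ms m (Kc A m τ P f Z))) ≤ Real.exp (-(q * (θ / 2))) :=
      Real.exp_le_exp.2 (neg_le_neg (mul_le_mul_of_nonneg_left h1 hq))
    linarith
  · push Not at h1
    by_cases h2 : ms m (nb A P ∩ nb A f) < θ
    · rw [ind_true h2]
      linarith
    · push Not at h2
      have h3 : θ / 2 ≤ ms m (Kb A m τ P f Z) := by linarith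
      have h4 : 1 ≤ (2 / θ) * ms m (Kb A m τ P f Z) := by
        rw [div_mul_eq_mul_div, le_div_iff₀ hθ]
        linarith
      linarith

/-- sums of expectations with weights -/
theorem EE_sum_mul {p : V → ℝ} {ι : Type*} (T : Finset ι) (w : ι → ℝ) (F : ι → Finset V → ℝ) :
    EE p (fun S => ∑ i ∈ T, w i * F i S) = ∑ i ∈ T, w i * EE p (F i) := by
  rw [EE_sum]
  exact sum_congr rfl fun i _ => EE_const_mul _ _

/-- the error of the coverage lemmas -/
def cerr (H q τ θ ε : ℝ) (B0 : ℕ) : ℝ :=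
  H ^ 2 * (q * H / B0 + Real.exp (-(q * (θ / 2))) + q * H * (H * (1 + q * H) / B0) / τ) + θ * H +
    4 * τ * H ^ 2 / θ + H * (ε * (q * H))

open Classical in
/-- pairs with few common neighbours -/
theorem small_common (hm : ∀ v, 0 ≤ m v) {H θ : ℝ} (hθ : 0 < θ) (hH : ∀ P, ms m (nb A P) ≤ H) (P : V) :
    ∑ f ∈ nb A P, m f * (ms m (nb A P ∩ nb A f) * ind (ms m (nb A P ∩ nb A f) < θ)) ≤ θ * H := by
  have h1 : ∑ f ∈ nb A P, m f * (ms m (nb A P ∩ nb A f) * ind (ms m (nb A P ∩ nb A f) < θ)) ≤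
      ∑ f ∈ nb A P, m f * θ := by
    refine sum_le_sum fun f _ => mul_le_mul_of_nonneg_left ?_ (hm f)
    by_cases h : ms m (nb A P ∩ nb A f) < θ
    · rw [ind_true h, mul_one]
      exact h.le
    · rw [ind_false h, mul_zero]
      exact hθ.le
  refine h1.trans ?_
  rw [← sum_mul, mul_comm]
  exact mul_le_mul_of_nonneg_left (hH P) hθ.le

open Classical in
/-- the sum of the masses of the bad candidates, over the linked pairs in the neighbourhood of `P` -/
theorem sum_bad (hA : ∀ f g, A f g → A g f) (hm : ∀ v, 0 ≤ m v) {H τ : ℝ} (hτ : 0 ≤ τ)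
    (hH : ∀ P, ms m (nb A P) ≤ H) (P : V) :
    ∑ f ∈ nb A P, m f * ∑ Z ∈ nb A P ∩ nb A f, m Z * ms m (Kb A m τ P f Z) ≤ 2 * τ * H ^ 2 := by
  have hH0 : 0 ≤ H := (ms_nonneg hm _).trans (hH P)
  have e : ∀ f Z, ms m (Kb A m τ P f Z) =
      ∑ c ∈ nb A P, m c * (ind (A f c) * ind (¬ 2 * τ ≤ ms m (nb A c ∩ nb A Z))) := by
    intro f Z
    show ∑ c ∈ Kb A m τ P f Z, m c = _
    unfold Kb
    rw [sum_filter]
    have : nb A P ∩ nb A f = (nb A P).filter fun c => A f c := by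
      ext c
      simp [mem_nb]
    rw [this, sum_filter]
    refine sum_congr rfl fun c _ => ?_
    unfold ind
    split_ifs <;> simp
  have e2 : ∀ f, ∑ Z ∈ nb A P ∩ nb A f, m Z * ms m (Kb A m τ P f Z) =
      ∑ Z ∈ nb A P, ind (A f Z) * (m Z * ms m (Kb A m τ P f Z)) := by
    intro f
    have : nb A P ∩ nb A f = (nb A P).filter fun c => A f c := by
      ext c
      simp [mem_nb]
    rw [this, sum_filter]
    refine sum_congr rfl fun Z _ => ?_
    unfold ind
    split_ifs <;> simp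
  have h1 : ∑ f ∈ nb A P, m f * ∑ Z ∈ nb A P ∩ nb A f, m Z * ms m (Kb A m τ P f Z) =
      ∑ c ∈ nb A P, ∑ Z ∈ nb A P, (m c * m Z) * (ind (¬ 2 * τ ≤ ms m (nb A c ∩ nb A Z)) *
        ∑ f ∈ nb A P, m f * (ind (A f c) * ind (A f Z))) := by
    simp only [e2]
    simp only [e, mul_sum]
    rw [sum_comm]
    rw [sum_congr rfl fun Z _ => sum_comm]
    rw [sum_comm]
    refine sum_congr rfl fun c _ => sum_congr rfl fun Z _ => sum_congr rfl fun f _ => ?_
    ring
  rw [h1]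
  have h2 : ∀ c Z, ind (¬ 2 * τ ≤ ms m (nb A c ∩ nb A Z)) *
      ∑ f ∈ nb A P, m f * (ind (A f c) * ind (A f Z)) ≤ 2 * τ := by
    intro c Z
    by_cases h : 2 * τ ≤ ms m (nb A c ∩ nb A Z)
    · rw [ind_false (not_not.2 h), zero_mul]
      linarith
    · rw [ind_true h, one_mul]
      push Not at h
      have h3 : ∑ f ∈ nb A P, m f * (ind (A f c) * ind (A f Z)) ≤ ms m (nb A c ∩ nb A Z) := by
        have h4 : ∑ f ∈ nb A P, m f * (ind (A f c) * ind (A f Z)) ≤ ∑ f, m f * (ind (A f c) * ind (A f Z)) :=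
          sum_le_sum_of_subset_of_nonneg (subset_univ _) fun f _ _ =>
            mul_nonneg (hm f) (mul_nonneg (ind_nonneg _) (ind_nonneg _))
        refine h4.trans (le_of_eq ?_)
        unfold ms
        rw [← sum_filter_add_sum_filter_not univ (fun f => f ∈ nb A c ∩ nb A Z)]
        have h5 : ∑ f ∈ univ.filter (fun f => ¬ f ∈ nb A c ∩ nb A Z), m f * (ind (A f c) * ind (A f Z)) = 0 := by
          refine sum_eq_zero fun f hf => ?_
          rw [mem_filter, mem_inter, mem_nb, mem_nb] at hf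
          by_cases h6 : A f c
          · by_cases h7 : A f Z
            · exact absurd ⟨hA _ _ h6, hA _ _ h7⟩ hf.2
            · rw [ind_false h7]
              ring
          · rw [ind_false h6]
            ring
        rw [h5, add_zero]
        have h8 : univ.filter (fun f => f ∈ nb A c ∩ nb A Z) = nb A c ∩ nb A Z := by
          ext f
          simp
        rw [h8]
        refine sum_congr rfl fun f hf => ?_
        rw [mem_inter, mem_nb, mem_nb] at hf
        rw [ind_true (hA _ _ hf.1), ind_true (hA _ _ hf.2)]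
        ring
      linarith
  have h3 : ∑ c ∈ nb A P, ∑ Z ∈ nb A P, (m c * m Z) * (ind (¬ 2 * τ ≤ ms m (nb A c ∩ nb A Z)) *
        ∑ f ∈ nb A P, m f * (ind (A f c) * ind (A f Z))) ≤ ∑ c ∈ nb A P, ∑ Z ∈ nb A P, (m c * m Z) * (2 * τ) :=
    sum_le_sum fun c _ => sum_le_sum fun Z _ => mul_le_mul_of_nonneg_left (h2 c Z) (mul_nonneg (hm c) (hm Z))
  refine h3.trans ?_
  have h4 : ∑ c ∈ nb A P, ∑ Z ∈ nb A P, (m c * m Z) * (2 * τ) = (ms m (nb A P) * ms m (nb A P)) * (2 * τ) := by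
    unfold ms
    rw [sum_mul_sum, sum_mul]
    refine sum_congr rfl fun c _ => ?_
    rw [sum_mul]
  rw [h4]
  have h5 := hH P
  have h6 := ms_nonneg hm (nb A P)
  have h7 : ms m (nb A P) * ms m (nb A P) ≤ H * H := mul_le_mul h5 h5 h6 hH0
  nlinarith

open Classical in
/-- **(C1), (C4)** almost all linked pairs in the neighbourhood of `P` are covered -/
theorem coverage_pairs (hA : ∀ f g, A f g → A g f) (hm : ∀ v, 0 ≤ m v) {H q τ θ ε : ℝ} (hq : 0 ≤ q) (hτ : 0 < τ)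
    (hθ : 0 < θ) (hε : 0 ≤ ε) (hH : ∀ P, ms m (nb A P) ≤ H) (hB : 0 < B0) (F : Finset V → V → Finset V)
    (hF : ∀ S c, ms m (Ec A B0 S c \ F S c) ≤ ε) (P : V) :
    EE (pq q m) (fun S => ∑ f ∈ nb A P, m f * ∑ Z ∈ nb A P ∩ nb A f, m Z * ind (¬ Cov A m B0 τ F P f Z S)) ≤
      cerr H q τ θ ε B0 := by
  have hp0 := pq_nonneg hq hm
  have hp1 := pq_le_one q m
  have hH0 : 0 ≤ H := (ms_nonneg hm _).trans (hH P)
  have hB' : (0 : ℝ) < B0 := by exact_mod_cast hB
  obtain ⟨D, hD⟩ : ∃ D : Finset V → V → ℝ, D = fun S f => ind (∃ c ∈ S, A P c ∧ f ∈ Ec A B0 S c ∧ f ∉ F S c) :=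
    ⟨_, rfl⟩
  have h1 : ∀ S, ∑ f ∈ nb A P, m f * ∑ Z ∈ nb A P ∩ nb A f, m Z * ind (¬ Cov A m B0 τ F P f Z S) ≤
      (∑ f ∈ nb A P, m f * ∑ Z ∈ nb A P ∩ nb A f, m Z * ind (¬ Cov A m B0 τ (Ec A B0) P f Z S)) +
        H * ∑ f ∈ nb A P, m f * D S f := by
    intro S
    rw [mul_sum, ← sum_add_distrib]
    refine sum_le_sum fun f _ => ?_
    have h2 : ∑ Z ∈ nb A P ∩ nb A f, m Z * ind (¬ Cov A m B0 τ F P f Z S) ≤
        (∑ Z ∈ nb A P ∩ nb A f, m Z * ind (¬ Cov A m B0 τ (Ec A B0) P f Z S)) + H * D S f := by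
      have h3 : ∑ Z ∈ nb A P ∩ nb A f, m Z * ind (¬ Cov A m B0 τ F P f Z S) ≤
          ∑ Z ∈ nb A P ∩ nb A f, (m Z * ind (¬ Cov A m B0 τ (Ec A B0) P f Z S) + m Z * D S f) := by
        refine sum_le_sum fun Z _ => ?_
        rw [← mul_add]
        refine mul_le_mul_of_nonneg_left ?_ (hm Z)
        rw [hD]
        exact ind_cov_le F τ P f Z S
      refine h3.trans ?_
      rw [sum_add_distrib, ← sum_mul]
      have h4 : ms m (nb A P ∩ nb A f) ≤ H := (ms_mono hm inter_subset_left).trans (hH P)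
      have h5 : 0 ≤ D S f := by
        rw [hD]
        exact ind_nonneg _
      have := mul_le_mul_of_nonneg_right h4 h5
      unfold ms at this
      linarith
    calc m f * ∑ Z ∈ nb A P ∩ nb A f, m Z * ind (¬ Cov A m B0 τ F P f Z S)
        ≤ m f * ((∑ Z ∈ nb A P ∩ nb A f, m Z * ind (¬ Cov A m B0 τ (Ec A B0) P f Z S)) + H * D S f) :=
          mul_le_mul_of_nonneg_left h2 (hm f)
      _ = _ := by ring
  refine (EE_mono hp0 hp1 h1).trans ?_
  rw [EE_add, EE_const_mul]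
  have h6 : EE (pq q m) (fun S => ∑ f ∈ nb A P, m f * D S f) ≤ ε * (q * H) := by
    rw [hD]
    exact EE_defect hm hq hH hε F hF P (nb A P)
  have h7 : EE (pq q m) (fun S => ∑ f ∈ nb A P, m f * ∑ Z ∈ nb A P ∩ nb A f,
      m Z * ind (¬ Cov A m B0 τ (Ec A B0) P f Z S)) ≤
      H ^ 2 * (q * H / B0 + Real.exp (-(q * (θ / 2))) + q * H * (H * (1 + q * H) / B0) / τ) + θ * H +
        4 * τ * H ^ 2 / θ := by
    rw [EE_sum_mul]
    obtain ⟨E0, hE0⟩ : ∃ E0 : ℝ, E0 = q * H / B0 + Real.exp (-(q * (θ / 2))) +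
        q * H * (H * (1 + q * H) / B0) / τ := ⟨_, rfl⟩
    have hE0' : 0 ≤ E0 := by
      rw [hE0]
      positivity
    have h8 : ∀ f ∈ nb A P, m f * EE (pq q m) (fun S => ∑ Z ∈ nb A P ∩ nb A f,
        m Z * ind (¬ Cov A m B0 τ (Ec A B0) P f Z S)) ≤
        m f * (H * E0) + m f * (ms m (nb A P ∩ nb A f) * ind (ms m (nb A P ∩ nb A f) < θ)) +
          (2 / θ) * (m f * ∑ Z ∈ nb A P ∩ nb A f, m Z * ms m (Kb A m τ P f Z)) := by
      intro f _
      rw [EE_sum_mul]
      have h9 : ∑ Z ∈ nb A P ∩ nb A f, m Z * EE (pq q m) (fun S => ind (¬ Cov A m B0 τ (Ec A B0) P f Z S)) ≤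
          ∑ Z ∈ nb A P ∩ nb A f, (m Z * E0 + m Z * ind (ms m (nb A P ∩ nb A f) < θ) +
            (2 / θ) * (m Z * ms m (Kb A m τ P f Z))) := by
        refine sum_le_sum fun Z _ => ?_
        have h10 := EE_cov (B0 := B0) hA hm hq hτ hH hB P f Z
        have h11 := exp_le (A := A) (τ := τ) hm hq hθ P f Z
        have h12 : EE (pq q m) (fun S => ind (¬ Cov A m B0 τ (Ec A B0) P f Z S)) ≤
            E0 + ind (ms m (nb A P ∩ nb A f) < θ) + (2 / θ) * ms m (Kb A m τ P f Z) := by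
          rw [hE0]
          linarith
        calc m Z * EE (pq q m) (fun S => ind (¬ Cov A m B0 τ (Ec A B0) P f Z S))
            ≤ m Z * (E0 + ind (ms m (nb A P ∩ nb A f) < θ) + (2 / θ) * ms m (Kb A m τ P f Z)) :=
              mul_le_mul_of_nonneg_left h12 (hm Z)
          _ = _ := by ring
      have h13 : ∑ Z ∈ nb A P ∩ nb A f, (m Z * E0 + m Z * ind (ms m (nb A P ∩ nb A f) < θ) +
            (2 / θ) * (m Z * ms m (Kb A m τ P f Z))) =
          ms m (nb A P ∩ nb A f) * E0 + ms m (nb A P ∩ nb A f) * ind (ms m (nb A P ∩ nb A f) < θ) +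
            (2 / θ) * ∑ Z ∈ nb A P ∩ nb A f, m Z * ms m (Kb A m τ P f Z) := by
        rw [sum_add_distrib, sum_add_distrib, ← sum_mul, ← sum_mul, ← mul_sum]
        rfl
      have h14 : ms m (nb A P ∩ nb A f) * E0 ≤ H * E0 :=
        mul_le_mul_of_nonneg_right ((ms_mono hm inter_subset_left).trans (hH P)) hE0'
      have h15 := h9.trans_eq h13
      calc m f * ∑ Z ∈ nb A P ∩ nb A f, m Z * EE (pq q m) (fun S => ind (¬ Cov A m B0 τ (Ec A B0) P f Z S))
          ≤ m f * (H * E0 + ms m (nb A P ∩ nb A f) * ind (ms m (nb A P ∩ nb A f) < θ) +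
            (2 / θ) * ∑ Z ∈ nb A P ∩ nb A f, m Z * ms m (Kb A m τ P f Z)) :=
            mul_le_mul_of_nonneg_left (by linarith) (hm f)
        _ = _ := by ring
    refine (sum_le_sum h8).trans ?_
    rw [sum_add_distrib, sum_add_distrib, ← sum_mul, ← mul_sum]
    have h16 := small_common (A := A) hm hθ hH P
    have h17 := sum_bad hA hm hτ.le hH P
    have h18 : ms m (nb A P) * (H * E0) ≤ H ^ 2 * E0 := by
      have := mul_le_mul_of_nonneg_right (hH P) (mul_nonneg hH0 hE0')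
      nlinarith
    have h19 : (2 / θ) * ∑ f ∈ nb A P, m f * ∑ Z ∈ nb A P ∩ nb A f, m Z * ms m (Kb A m τ P f Z) ≤
        4 * τ * H ^ 2 / θ := by
      calc (2 / θ) * ∑ f ∈ nb A P, m f * ∑ Z ∈ nb A P ∩ nb A f, m Z * ms m (Kb A m τ P f Z)
          ≤ (2 / θ) * (2 * τ * H ^ 2) := mul_le_mul_of_nonneg_left h17 (by positivity)
        _ = 4 * τ * H ^ 2 / θ := by ring
    rw [← hE0]
    unfold ms at h18
    linarith
  have h20 := mul_le_mul_of_nonneg_left h6 hH0
  unfold cerr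
  linarith

open Classical in
/-- **(C2)** almost all sites of the neighbourhood of `P` are covered in a world relevant for `P`, weighted by the
mass of the common neighbours -/
theorem coverage_self (hA : ∀ f g, A f g → A g f) (hm : ∀ v, 0 ≤ m v) {H q τ θ ε : ℝ} (hq : 0 ≤ q) (hτ : 0 < τ)
    (hθ : 0 < θ) (hε : 0 ≤ ε) (hH : ∀ P, ms m (nb A P) ≤ H) (hB : 0 < B0) (F : Finset V → V → Finset V)
    (hF : ∀ S c, ms m (Ec A B0 S c \ F S c) ≤ ε) (P : V) :
    EE (pq q m) (fun S => ∑ f ∈ nb A P, m f * (ms m (nb A P ∩ nb A f) * ind (¬ Cov A m B0 τ F P f P S))) ≤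
      cerr H q τ θ ε B0 := by
  have hp0 := pq_nonneg hq hm
  have hp1 := pq_le_one q m
  have hH0 : 0 ≤ H := (ms_nonneg hm _).trans (hH P)
  have hB' : (0 : ℝ) < B0 := by exact_mod_cast hB
  obtain ⟨D, hD⟩ : ∃ D : Finset V → V → ℝ, D = fun S f => ind (∃ c ∈ S, A P c ∧ f ∈ Ec A B0 S c ∧ f ∉ F S c) :=
    ⟨_, rfl⟩
  have hcm : ∀ f, ms m (nb A P ∩ nb A f) ≤ H := fun f => (ms_mono hm inter_subset_left).trans (hH P)
  have h1 : ∀ S, ∑ f ∈ nb A P, m f * (ms m (nb A P ∩ nb A f) * ind (¬ Cov A m B0 τ F P f P S)) ≤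
      (∑ f ∈ nb A P, m f * (ms m (nb A P ∩ nb A f) * ind (¬ Cov A m B0 τ (Ec A B0) P f P S))) +
        H * ∑ f ∈ nb A P, m f * D S f := by
    intro S
    rw [mul_sum, ← sum_add_distrib]
    refine sum_le_sum fun f _ => ?_
    have h2 : ind (¬ Cov A m B0 τ F P f P S) ≤ ind (¬ Cov A m B0 τ (Ec A B0) P f P S) + D S f := by
      rw [hD]
      exact ind_cov_le F τ P f P S
    have h5 : 0 ≤ D S f := by
      rw [hD]
      exact ind_nonneg _
    calc m f * (ms m (nb A P ∩ nb A f) * ind (¬ Cov A m B0 τ F P f P S))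
        ≤ m f * (ms m (nb A P ∩ nb A f) * (ind (¬ Cov A m B0 τ (Ec A B0) P f P S) + D S f)) :=
          mul_le_mul_of_nonneg_left (mul_le_mul_of_nonneg_left h2 (ms_nonneg hm _)) (hm f)
      _ = m f * (ms m (nb A P ∩ nb A f) * ind (¬ Cov A m B0 τ (Ec A B0) P f P S)) +
          ms m (nb A P ∩ nb A f) * (m f * D S f) := by ring
      _ ≤ _ := by
          have := mul_le_mul_of_nonneg_right (hcm f) (mul_nonneg (hm f) h5)
          linarith
  refine (EE_mono hp0 hp1 h1).trans ?_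
  rw [EE_add, EE_const_mul]
  have h6 : EE (pq q m) (fun S => ∑ f ∈ nb A P, m f * D S f) ≤ ε * (q * H) := by
    rw [hD]
    exact EE_defect hm hq hH hε F hF P (nb A P)
  have h7 : EE (pq q m) (fun S => ∑ f ∈ nb A P, m f * (ms m (nb A P ∩ nb A f) *
      ind (¬ Cov A m B0 τ (Ec A B0) P f P S))) ≤
      H ^ 2 * (q * H / B0 + Real.exp (-(q * (θ / 2))) + q * H * (H * (1 + q * H) / B0) / τ) + θ * H +
        4 * τ * H ^ 2 / θ := by
    rw [EE_sum_mul]
    obtain ⟨E0, hE0⟩ : ∃ E0 : ℝ, E0 = q * H / B0 + Real.exp (-(q * (θ / 2))) +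
        q * H * (H * (1 + q * H) / B0) / τ := ⟨_, rfl⟩
    have hE0' : 0 ≤ E0 := by
      rw [hE0]
      positivity
    have h8 : ∀ f ∈ nb A P, m f * EE (pq q m) (fun S => ms m (nb A P ∩ nb A f) *
        ind (¬ Cov A m B0 τ (Ec A B0) P f P S)) ≤
        m f * (H * E0) + m f * (ms m (nb A P ∩ nb A f) * ind (ms m (nb A P ∩ nb A f) < θ)) +
          (2 * H / θ) * (m f * ms m (Kb A m τ P f P)) := by
      intro f _
      rw [EE_const_mul]
      have h10 := EE_cov (B0 := B0) hA hm hq hτ hH hB P f P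
      have h11 := exp_le (A := A) (τ := τ) hm hq hθ P f P
      have h12 : EE (pq q m) (fun S => ind (¬ Cov A m B0 τ (Ec A B0) P f P S)) ≤
          E0 + ind (ms m (nb A P ∩ nb A f) < θ) + (2 / θ) * ms m (Kb A m τ P f P) := by
        rw [hE0]
        linarith
      have hmm := mul_nonneg (hm f) (ms_nonneg hm (nb A P ∩ nb A f))
      have hkb : 0 ≤ (2 / θ) * ms m (Kb A m τ P f P) := mul_nonneg (by positivity) (ms_nonneg hm _)
      have h13 : m f * (ms m (nb A P ∩ nb A f) * E0) ≤ m f * (H * E0) :=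
        mul_le_mul_of_nonneg_left (mul_le_mul_of_nonneg_right (hcm f) hE0') (hm f)
      have h14 : m f * (ms m (nb A P ∩ nb A f) * ((2 / θ) * ms m (Kb A m τ P f P))) ≤
          m f * (H * ((2 / θ) * ms m (Kb A m τ P f P))) :=
        mul_le_mul_of_nonneg_left (mul_le_mul_of_nonneg_right (hcm f) hkb) (hm f)
      calc m f * (ms m (nb A P ∩ nb A f) * EE (pq q m) (fun S => ind (¬ Cov A m B0 τ (Ec A B0) P f P S)))
          ≤ m f * (ms m (nb A P ∩ nb A f) * (E0 + ind (ms m (nb A P ∩ nb A f) < θ) +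
            (2 / θ) * ms m (Kb A m τ P f P))) :=
            mul_le_mul_of_nonneg_left (mul_le_mul_of_nonneg_left h12 (ms_nonneg hm _)) (hm f)
        _ = m f * (ms m (nb A P ∩ nb A f) * E0) +
            m f * (ms m (nb A P ∩ nb A f) * ind (ms m (nb A P ∩ nb A f) < θ)) +
            m f * (ms m (nb A P ∩ nb A f) * ((2 / θ) * ms m (Kb A m τ P f P))) := by ring
        _ ≤ m f * (H * E0) + m f * (ms m (nb A P ∩ nb A f) * ind (ms m (nb A P ∩ nb A f) < θ)) +
            m f * (H * ((2 / θ) * ms m (Kb A m τ P f P))) := by linarith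
        _ = _ := by ring
    refine (sum_le_sum h8).trans ?_
    rw [sum_add_distrib, sum_add_distrib, ← sum_mul, ← mul_sum]
    have h16 := small_common (A := A) hm hθ hH P
    have h18 : ms m (nb A P) * (H * E0) ≤ H ^ 2 * E0 := by
      have := mul_le_mul_of_nonneg_right (hH P) (mul_nonneg hH0 hE0')
      nlinarith
    have h17 : ∑ f ∈ nb A P, m f * ms m (Kb A m τ P f P) ≤ 2 * τ * H := by
      have e : ∀ f, ms m (Kb A m τ P f P) =
          ∑ c ∈ nb A P, m c * (ind (A f c) * ind (¬ 2 * τ ≤ ms m (nb A c ∩ nb A P))) := by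
        intro f
        show ∑ c ∈ Kb A m τ P f P, m c = _
        unfold Kb
        rw [sum_filter]
        have : nb A P ∩ nb A f = (nb A P).filter fun c => A f c := by
          ext c
          simp [mem_nb]
        rw [this, sum_filter]
        refine sum_congr rfl fun c _ => ?_
        unfold ind
        split_ifs <;> simp
      have h2 : ∑ f ∈ nb A P, m f * ms m (Kb A m τ P f P) =
          ∑ c ∈ nb A P, m c * (ind (¬ 2 * τ ≤ ms m (nb A c ∩ nb A P)) * ∑ f ∈ nb A P, m f * ind (A f c)) := by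
        simp only [e, mul_sum]
        rw [sum_comm]
        refine sum_congr rfl fun c _ => sum_congr rfl fun f _ => ?_
        ring
      rw [h2]
      have h3 : ∀ c, ind (¬ 2 * τ ≤ ms m (nb A c ∩ nb A P)) * ∑ f ∈ nb A P, m f * ind (A f c) ≤ 2 * τ := by
        intro c
        by_cases h : 2 * τ ≤ ms m (nb A c ∩ nb A P)
        · rw [ind_false (not_not.2 h), zero_mul]
          linarith
        · rw [ind_true h, one_mul]
          push Not at h
          have h3 : ∑ f ∈ nb A P, m f * ind (A f c) = ms m (nb A c ∩ nb A P) := by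
            have h4 : nb A c ∩ nb A P = (nb A P).filter fun f => A f c := by
              ext f
              rw [mem_inter, mem_filter, mem_nb, mem_nb]
              constructor
              · rintro ⟨a, b⟩
                exact ⟨b, hA _ _ a⟩
              · rintro ⟨a, b⟩
                exact ⟨hA _ _ b, a⟩
            rw [h4]
            unfold ms
            rw [sum_filter]
            refine sum_congr rfl fun f _ => ?_
            unfold ind
            split_ifs <;> simp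
          linarith
      calc ∑ c ∈ nb A P, m c * (ind (¬ 2 * τ ≤ ms m (nb A c ∩ nb A P)) * ∑ f ∈ nb A P, m f * ind (A f c))
          ≤ ∑ c ∈ nb A P, m c * (2 * τ) := sum_le_sum fun c _ => mul_le_mul_of_nonneg_left (h3 c) (hm c)
        _ = ms m (nb A P) * (2 * τ) := by
            rw [← sum_mul]
            rfl
        _ ≤ 2 * τ * H := by
            have := mul_le_mul_of_nonneg_right (hH P) (by linarith : 0 ≤ 2 * τ)
            linarith
    have h19 : (2 * H / θ) * ∑ f ∈ nb A P, m f * ms m (Kb A m τ P f P) ≤ 4 * τ * H ^ 2 / θ := by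
      calc (2 * H / θ) * ∑ f ∈ nb A P, m f * ms m (Kb A m τ P f P)
          ≤ (2 * H / θ) * (2 * τ * H) := mul_le_mul_of_nonneg_left h17 (by positivity)
        _ = 4 * τ * H ^ 2 / θ := by ring
    rw [← hE0]
    unfold ms at h18 h16
    unfold ms at h19
    unfold ms
    linarith
  have h20 := mul_le_mul_of_nonneg_left h6 hH0
  unfold cerr
  linarith

/-- **(C3)** the mass of the non-ok sites -/
theorem coverage_ok (hm : ∀ v, 0 ≤ m v) {H q : ℝ} (hq : 0 ≤ q) (hH : ∀ P, ms m (nb A P) ≤ H) (hB : 0 < B0) (P : V) :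
    EE (pq q m) (fun S => ∑ f ∈ nb A P, m f * ind (f ∉ Ok A B0 S)) ≤ H * (q * H / B0) := by
  rw [EE_sum_mul]
  have h1 : ∑ f ∈ nb A P, m f * EE (pq q m) (fun S => ind (f ∉ Ok A B0 S)) ≤ ∑ f ∈ nb A P, m f * (q * H / B0) :=
    sum_le_sum fun f _ => mul_le_mul_of_nonneg_left (EE_not_ok hm hq hH hB f) (hm f)
  refine h1.trans ?_
  rw [← sum_mul]
  have hH0 : 0 ≤ H := (ms_nonneg hm _).trans (hH P)
  exact mul_le_mul_of_nonneg_right (hH P) (by positivity)

/-- the choice of the constants -/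
theorem exists_consts {H e : ℝ} (hH : 0 < H) (he : 0 < e) : ∃ q : ℝ, 0 < q ∧ ∃ τ : ℝ, 0 < τ ∧ ∃ θ : ℝ, 0 < θ ∧
    ∃ b : ℕ, 0 < b ∧ ∃ ε : ℝ, 0 < ε ∧ ∀ B0 : ℕ, b ≤ B0 → ∀ ε' : ℝ, 0 ≤ ε' → ε' ≤ ε →
      cerr H q τ θ ε' B0 ≤ e ∧ H * (q * H / B0) ≤ e := by
  obtain ⟨θ, hθ⟩ : ∃ θ : ℝ, θ = e / (5 * H) := ⟨_, rfl⟩
  have hθ0 : 0 < θ := by
    rw [hθ]
    positivity
  obtain ⟨q, hq0, hq⟩ : ∃ q : ℝ, 0 < q ∧ H ^ 2 * Real.exp (-(q * (θ / 2))) ≤ e / 5 := by
    have h1 : Filter.Tendsto (fun q : ℝ => H ^ 2 * Real.exp (-(q * (θ / 2)))) Filter.atTop (nhds (H ^ 2 * 0)) := by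
      refine Filter.Tendsto.const_mul _ ?_
      refine Real.tendsto_exp_neg_atTop_nhds_zero.comp ?_
      exact Filter.tendsto_id.atTop_mul_const (by positivity)
    rw [mul_zero] at h1
    have h2 := (h1.eventually (ge_mem_nhds (show (0 : ℝ) < e / 5 by positivity))).and (Filter.eventually_gt_atTop 0)
    obtain ⟨q, hq1, hq2⟩ := h2.exists
    exact ⟨q, hq2, hq1⟩
  obtain ⟨τ, hτ⟩ : ∃ τ : ℝ, τ = e * θ / (20 * H ^ 2) := ⟨_, rfl⟩
  have hτ0 : 0 < τ := by
    rw [hτ]
    positivity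
  obtain ⟨N, hN⟩ : ∃ N : ℝ, N = H ^ 2 * (q * H + q * H * (H * (1 + q * H)) / τ) + H * (q * H) := ⟨_, rfl⟩
  have hN0 : 0 < N := by
    rw [hN]
    positivity
  obtain ⟨b, hb⟩ := exists_nat_gt (5 * N / e)
  have hb0 : (0 : ℝ) < b := lt_trans (by positivity) hb
  refine ⟨q, hq0, τ, hτ0, θ, hθ0, b, by exact_mod_cast hb0, e / (5 * H ^ 2 * q), by positivity, ?_⟩
  intro B0 hB0 ε' hε0 hε'
  have hB : (b : ℝ) ≤ B0 := by exact_mod_cast hB0
  have hBp : (0 : ℝ) < B0 := lt_of_lt_of_le hb0 hB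
  have h1 : N / B0 ≤ e / 5 := by
    rw [div_le_iff₀ hBp]
    have h2 : 5 * N / e < B0 := lt_of_lt_of_le hb hB
    rw [div_lt_iff₀ he] at h2
    linarith
  have h2 : H ^ 2 * (q * H / B0 + q * H * (H * (1 + q * H) / B0) / τ) + H * (q * H / B0) = N / B0 := by
    rw [hN]
    field_simp
  have h3 : 0 ≤ H * (q * H / B0) := by positivity
  have h3' : 0 ≤ H ^ 2 * (q * H / B0 + q * H * (H * (1 + q * H) / B0) / τ) := by positivity
  have h4 : θ * H = e / 5 := by
    rw [hθ]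
    field_simp
  have h5 : 4 * τ * H ^ 2 / θ = e / 5 := by
    rw [hτ]
    field_simp
    norm_num
  have h6 : H * (ε' * (q * H)) ≤ e / 5 := by
    rw [le_div_iff₀ (by positivity)] at hε'
    nlinarith
  constructor
  · unfold cerr
    have h7 : H ^ 2 * (q * H / B0 + Real.exp (-(q * (θ / 2))) + q * H * (H * (1 + q * H) / B0) / τ) =
        H ^ 2 * (q * H / B0 + q * H * (H * (1 + q * H) / B0) / τ) + H ^ 2 * Real.exp (-(q * (θ / 2))) := by ring
    rw [h7]
    linarith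
  · linarith

end

end Pool.Agent.AcyS.Cv
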